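import Mathlib

section

/-!
# The triangular polynomial group: definitions

Polynomial functions on `ℕ → ℝ`, weights `(1/2) ^ l` of the variables `x l`, and the spaces
`Es n` of maps `F : (ℕ → ℝ) → (ℕ → ℝ)` with polynomial coordinates `F · i` of weight `< (1/2) ^ i`
in the variables `x l`, `l ≤ n` (then automatically `l > i`).
-/

set_option autoImplicit false

namespace Pool.Agent.Lib.MP_862e0f_al.EV

/-- the monomial function -/
noncomputable def mo (α : ℕ →₀ ℕ) (x : ℕ → ℝ) : ℝ := α.prod fun l a => x l ^ a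

/-- the weight of a monomial -/
noncomputable def wt (α : ℕ →₀ ℕ) : ℝ := α.sum fun l a => (a : ℝ) * (1 / 2) ^ l

/-- polynomial functions of weight `≤ d` in the variables `x l`, `l ≤ n` -/
def Bs (n : ℕ) (d : ℝ) : Submodule ℝ ((ℕ → ℝ) → ℝ) :=
  Submodule.span ℝ {f | ∃ α : ℕ →₀ ℕ, (∀ l, α l ≠ 0 → l ≤ n) ∧ wt α ≤ d ∧ f = mo α}

/-- polynomial functions of weight `< d` in the variables `x l`, `l ≤ n` -/
def Cs (n : ℕ) (d : ℝ) : Submodule ℝ ((ℕ → ℝ) → ℝ) :=
  Submodule.span ℝ {f | ∃ α : ℕ →₀ ℕ, (∀ l, α l ≠ 0 → l ≤ n) ∧ wt α < d ∧ f = mo α}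

theorem Cs_mono {m n : ℕ} (h : m ≤ n) (d : ℝ) : Cs m d ≤ Cs n d :=
  Submodule.span_mono fun _ ⟨α, h1, h2, h3⟩ => ⟨α, fun l hl => (h1 l hl).trans h, h2, h3⟩

/-- the finite-dimensional subgroups -/
def Es (n : ℕ) : Submodule ℝ ((ℕ → ℝ) → ℕ → ℝ) where
  carrier := {F | (∀ i, i ≤ n → (fun x => F x i) ∈ Cs n ((1 / 2) ^ i)) ∧ ∀ i, n < i → ∀ x, F x i = 0}
  add_mem' := fun {a b} ha hb => ⟨fun i hi => (Cs n _).add_mem (ha.1 i hi) (hb.1 i hi),
    fun i hi x => by rw [Pi.add_apply, Pi.add_apply, ha.2 i hi, hb.2 i hi, add_zero]⟩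
  zero_mem' := ⟨fun i _ => (Cs n _).zero_mem, fun _ _ _ => rfl⟩
  smul_mem' := fun c a ha => ⟨fun i hi => (Cs n _).smul_mem c (ha.1 i hi),
    fun i hi x => by rw [Pi.smul_apply, Pi.smul_apply, ha.2 i hi, smul_zero]⟩

theorem Es_mono : Monotone Es := by
  intro m n h F hF
  refine ⟨fun i hi => ?_, fun i hi => hF.2 i (lt_of_le_of_lt h hi)⟩
  rcases le_or_gt i m with h1 | h1
  · exact Cs_mono h _ (hF.1 i h1)
  · have : (fun x => F x i) = 0 := funext fun x => hF.2 i h1 x
    rw [this]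
    exact (Cs n _).zero_mem

/-- the union of the `Es n` -/
def VSub : Submodule ℝ ((ℕ → ℝ) → ℕ → ℝ) where
  carrier := {F | ∃ n, F ∈ Es n}
  add_mem' := fun {a b} ⟨m, ha⟩ ⟨n, hb⟩ => ⟨max m n,
    (Es _).add_mem (Es_mono (le_max_left m n) ha) (Es_mono (le_max_right m n) hb)⟩
  zero_mem' := ⟨0, (Es 0).zero_mem⟩
  smul_mem' := fun c a ⟨n, ha⟩ => ⟨n, (Es n).smul_mem c ha⟩

/-- the base group -/
def Vb : Type := ↥VSub

noncomputable instance : AddCommGroup Vb := inferInstanceAs (AddCommGroup ↥VSub)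
noncomputable instance : Module ℝ Vb := inferInstanceAs (Module ℝ ↥VSub)

/-- the map of an element of the base group -/
def Vb.f (F : Vb) : (ℕ → ℝ) → ℕ → ℝ := (show ↥VSub from F).1

theorem Vb.exh (F : Vb) : ∃ n, F.f ∈ Es n := (show ↥VSub from F).2

theorem Vb.ext {F G : Vb} (h : ∀ x i, F.f x i = G.f x i) : F = G :=
  Subtype.ext (funext fun x => funext fun i => h x i)

/-- constructor -/
def Vb.mk (F : (ℕ → ℝ) → ℕ → ℝ) (h : ∃ n, F ∈ Es n) : Vb := show ↥VSub from ⟨F, h⟩

@[simp] theorem Vb.mk_f (F : (ℕ → ℝ) → ℕ → ℝ) (h : ∃ n, F ∈ Es n) : (Vb.mk F h).f = F := rfl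
@[simp] theorem Vb.add_f (F G : Vb) : (F + G).f = F.f + G.f := rfl
@[simp] theorem Vb.sub_f (F G : Vb) : (F - G).f = F.f - G.f := rfl
@[simp] theorem Vb.neg_f (F : Vb) : (-F).f = -F.f := rfl
@[simp] theorem Vb.zero_f : (0 : Vb).f = 0 := rfl
@[simp] theorem Vb.smul_f (c : ℝ) (F : Vb) : (c • F).f = c • F.f := rfl

/-- the subgroups in the base group -/
noncomputable def Eb (n : ℕ) : Submodule ℝ Vb := (Es n).comap (show Vb →ₗ[ℝ] _ from VSub.subtype)

theorem mem_Eb {n : ℕ} {F : Vb} : F ∈ Eb n ↔ F.f ∈ Es n := Iff.rfl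

theorem Eb_mono : Monotone Eb := fun _ _ h _ hF => Es_mono h hF

end Pool.Agent.Lib.MP_862e0f_al.EV
end

section

/-!
# Finite dimension (TASK EV BF)

`Cs_finite`: the set of `α` with support in `{0..n}` and `wt α < (1/2)^i` is finite: for such `α`,
`α l * (1/2)^l ≤ wt α < 1`, so `α l < 2^l ≤ 2^n`, i.e. `α ≤ ∑ l ∈ range (n+1), single l (2^n)`, and
the set of `α ≤ β` is finite (`Set.finite_Iic`). So `Cs n d` is the span of a finite set.
`Es_finite`: the linear map `Es n → (i : Fin (n + 1)) → Cs n ((1/2)^i)`, `F ↦ F · i`, is injective.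
`Eb_finite`: `Eb n` is linearly equivalent to `Es n`.
-/

set_option autoImplicit false

namespace Pool.Agent.Lib.MP_862e0f_al.EV

private theorem BF_le_wt (α : ℕ →₀ ℕ) (l : ℕ) : (α l : ℝ) * (1 / 2) ^ l ≤ wt α := by
  by_cases h : l ∈ α.support
  · unfold wt Finsupp.sum
    exact Finset.single_le_sum (f := fun l => ((α l : ℕ) : ℝ) * (1 / 2) ^ l)
      (fun j _ => by positivity) h
  · have h0 : α l = 0 := Finsupp.notMem_support_iff.mp h
    rw [h0]
    unfold wt Finsupp.sum
    have : 0 ≤ ∑ a ∈ α.support, ((α a : ℕ) : ℝ) * (1 / 2) ^ a :=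
      Finset.sum_nonneg fun j _ => by positivity
    simpa using this

private theorem BF_set (n i : ℕ) :
    {α : ℕ →₀ ℕ | (∀ l, α l ≠ 0 → l ≤ n) ∧ wt α < (1 / 2) ^ i}.Finite := by
  refine (Set.finite_Iic (∑ l ∈ Finset.range (n + 1), Finsupp.single l (2 ^ n) : ℕ →₀ ℕ)).subset ?_
  rintro α ⟨h1, h2⟩
  rw [Set.mem_Iic, Finsupp.le_def]
  intro l
  by_cases h0 : α l = 0
  · rw [h0]; exact Nat.zero_le _
  · have hl := h1 l h0
    have h3 : (∑ k ∈ Finset.range (n + 1), Finsupp.single k (2 ^ n) : ℕ →₀ ℕ) l = 2 ^ n := by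
      rw [Finsupp.finsetSum_apply, Finset.sum_eq_single l]
      · rw [Finsupp.single_eq_same]
      · intro b _ hb
        rw [Finsupp.single_eq_of_ne (Ne.symm hb)]
      · intro h
        exact absurd (Finset.mem_range.mpr (by omega)) h
    rw [h3]
    have h4 : (α l : ℝ) * (1 / 2) ^ l < 1 := by
      have h5 : ((1 : ℝ) / 2) ^ i ≤ 1 := pow_le_one₀ (by norm_num) (by norm_num)
      linarith [BF_le_wt α l]
    have h6 : (α l : ℝ) < 2 ^ l := by
      have h7 : (0 : ℝ) < 2 ^ l := by positivity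
      have h8 : (α l : ℝ) * (1 / 2) ^ l * 2 ^ l < 1 * 2 ^ l := mul_lt_mul_of_pos_right h4 h7
      have h9 : ((1 : ℝ) / 2) ^ l * 2 ^ l = 1 := by rw [← mul_pow]; norm_num
      rw [mul_assoc, h9, mul_one, one_mul] at h8
      exact h8
    have h10 : α l < 2 ^ l := by exact_mod_cast h6
    exact h10.le.trans (Nat.pow_le_pow_right (by norm_num) hl)

theorem Cs_finite (n i : ℕ) : FiniteDimensional ℝ (Cs n ((1 / 2) ^ i)) := by
  unfold Cs
  refine FiniteDimensional.span_of_finite ℝ ?_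
  refine ((BF_set n i).image mo).subset ?_
  rintro f ⟨α, h1, h2, rfl⟩
  exact ⟨α, ⟨h1, h2⟩, rfl⟩

theorem Es_finite (n : ℕ) : FiniteDimensional ℝ (Es n) := by
  have : ∀ i : Fin (n + 1), FiniteDimensional ℝ (Cs n ((1 / 2) ^ (i : ℕ))) :=
    fun i => Cs_finite n i
  let L : Es n →ₗ[ℝ] ((i : Fin (n + 1)) → Cs n ((1 / 2) ^ (i : ℕ))) :=
    { toFun := fun F i => ⟨fun x => F.1 x i, F.2.1 i (by omega)⟩
      map_add' := fun F G => by
        funext i
        apply Subtype.ext
        rfl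
      map_smul' := fun c F => by
        funext i
        apply Subtype.ext
        rfl }
  refine Module.Finite.of_injective L ?_
  intro F G h
  apply Subtype.ext
  funext x i
  rcases Nat.lt_or_ge n i with hi | hi
  · rw [F.2.2 i hi x, G.2.2 i hi x]
  · have h1 := congrFun h ⟨i, by omega⟩
    have h2 := congrArg Subtype.val h1
    exact congrFun h2 x

theorem Eb_finite (n : ℕ) : FiniteDimensional ℝ (Eb n) := by
  have := Es_finite n
  let L : Eb n →ₗ[ℝ] Es n :=
    { toFun := fun F => ⟨F.1.f, F.2⟩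
      map_add' := fun F G => rfl
      map_smul' := fun c F => rfl }
  refine Module.Finite.of_injective L ?_
  intro F G h
  apply Subtype.ext
  have h2 : (L F).1 = (L G).1 := congrArg Subtype.val h
  exact Vb.ext fun x i => congrFun (congrFun h2 x) i

end Pool.Agent.Lib.MP_862e0f_al.EV
end

section

/-!
# Substitution (TASK EV BA)

`wt_add`: `Finsupp.sum_add_index'`. `mo_add`: `Finsupp.prod_add_index'`, `pow_add`.
`Bs_mul`: bilinear span induction; `mo α * mo β = mo (α + β)`, `wt (α + β) = wt α + wt β`, the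
support of `α + β` is in `{0..n}`.
`Bs_pow`: induction on `a`, `1 = mo 0 ∈ Bs n 0`. `Bs_prod`: induction on the finset.
`subst_mem`: span induction on `f`; for `f = mo α` the function is
`∏ l ∈ supp α, (x l + G x l) ^ α l`, every factor `x ↦ x l + G x l` is in `Bs n ((1/2)^l)`
(`x l = mo (single l 1)`), so the product is in `Bs n (∑ l, α l * (1/2)^l) = Bs n (wt α) ≤ Cs n d`.
-/

set_option autoImplicit false

namespace Pool.Agent.Lib.MP_862e0f_al.EV

theorem wt_add (α β : ℕ →₀ ℕ) : wt (α + β) = wt α + wt β := by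
  unfold wt
  refine Finsupp.sum_add_index' (fun l => ?_) fun l a b => ?_
  · rw [Nat.cast_zero, zero_mul]
  · rw [Nat.cast_add, add_mul]

theorem mo_add (α β : ℕ →₀ ℕ) (x : ℕ → ℝ) : mo (α + β) x = mo α x * mo β x := by
  unfold mo
  exact Finsupp.prod_add_index' (fun l => pow_zero _) fun l a b => pow_add _ _ _

theorem Cs_le_Bs (n : ℕ) (d : ℝ) : Cs n d ≤ Bs n d :=
  Submodule.span_mono fun _ ⟨α, h1, h2, h3⟩ => ⟨α, h1, h2.le, h3⟩

theorem Bs_le_Cs (n : ℕ) {d d' : ℝ} (h : d < d') : Bs n d ≤ Cs n d' :=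
  Submodule.span_mono fun _ ⟨α, h1, h2, h3⟩ => ⟨α, h1, lt_of_le_of_lt h2 h, h3⟩

theorem Bs_mul {n : ℕ} {d d' : ℝ} {f g : (ℕ → ℝ) → ℝ} (hf : f ∈ Bs n d) (hg : g ∈ Bs n d') :
    f * g ∈ Bs n (d + d') := by
  have h1 := Submodule.mul_mem_mul hf hg
  have h2 : Bs n d * Bs n d' ≤ Bs n (d + d') := by
    unfold Bs
    rw [Submodule.span_mul_span]
    refine Submodule.span_mono ?_
    rintro _ ⟨a, ⟨α, h3, h4, rfl⟩, b, ⟨β, h5, h6, rfl⟩, rfl⟩
    refine ⟨α + β, fun l hl => ?_, ?_, ?_⟩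
    · rw [Finsupp.add_apply] at hl
      by_cases hα : α l = 0
      · exact h5 l (by omega)
      · exact h3 l hα
    · rw [wt_add]
      exact add_le_add h4 h6
    · funext x
      exact (mo_add α β x).symm
  exact h2 h1

private theorem BA_one (n : ℕ) : (1 : (ℕ → ℝ) → ℝ) ∈ Bs n 0 := by
  refine Submodule.subset_span ⟨0, fun l hl => absurd rfl hl, ?_, ?_⟩
  · unfold wt
    rw [Finsupp.sum_zero_index]
  · funext x
    unfold mo
    rw [Finsupp.prod_zero_index]
    rfl

theorem Bs_pow {n : ℕ} {d : ℝ} {f : (ℕ → ℝ) → ℝ} (hf : f ∈ Bs n d) (a : ℕ) :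
    f ^ a ∈ Bs n (a * d) := by
  induction a with
  | zero =>
    rw [pow_zero, Nat.cast_zero, zero_mul]
    exact BA_one n
  | succ a ih =>
    have h1 : ((a + 1 : ℕ) : ℝ) * d = a * d + d := by
      push_cast
      ring
    rw [pow_succ, h1]
    exact Bs_mul ih hf

theorem Bs_coord {n l : ℕ} (h : l ≤ n) : (fun x : ℕ → ℝ => x l) ∈ Bs n ((1 / 2) ^ l) := by
  refine Submodule.subset_span ⟨Finsupp.single l 1, fun j hj => ?_, ?_, ?_⟩
  · by_cases hjl : j = l
    · omega
    · exact absurd (Finsupp.single_eq_of_ne hjl) hj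
  · unfold wt
    rw [Finsupp.sum_single_index (by rw [Nat.cast_zero, zero_mul]), Nat.cast_one, one_mul]
  · funext x
    unfold mo
    rw [Finsupp.prod_single_index (h := fun l a => x l ^ a) (pow_zero (x l)), pow_one]

private theorem BA_prod {n : ℕ} {ι : Type} (s : Finset ι) (g : ι → (ℕ → ℝ) → ℝ) (d : ι → ℝ)
    (h : ∀ l ∈ s, g l ∈ Bs n (d l)) : (∏ l ∈ s, g l) ∈ Bs n (∑ l ∈ s, d l) := by
  classical
  induction s using Finset.induction_on with
  | empty =>
    rw [Finset.prod_empty, Finset.sum_empty]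
    exact BA_one n
  | insert a s ha ih =>
    rw [Finset.prod_insert ha, Finset.sum_insert ha]
    exact Bs_mul (h a (Finset.mem_insert_self a s))
      (ih fun l hl => h l (Finset.mem_insert_of_mem hl))

theorem subst_mem {n : ℕ} {d : ℝ} {f : (ℕ → ℝ) → ℝ} (hf : f ∈ Cs n d)
    {G : (ℕ → ℝ) → ℕ → ℝ} (hG : ∀ l, l ≤ n → (fun x => G x l) ∈ Bs n ((1 / 2) ^ l)) :
    (fun x => f (x + G x)) ∈ Cs n d := by
  obtain ⟨T, hT⟩ : ∃ T : ((ℕ → ℝ) → ℝ) →ₗ[ℝ] ((ℕ → ℝ) → ℝ), ∀ f, T f = fun x => f (x + G x) :=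
    ⟨{ toFun := fun f x => f (x + G x)
       map_add' := fun _ _ => rfl
       map_smul' := fun _ _ => rfl }, fun _ => rfl⟩
  have h1 : Cs n d ≤ (Cs n d).comap T := by
    refine Submodule.span_le.2 ?_
    rintro _ ⟨α, h2, h3, rfl⟩
    show T (mo α) ∈ Cs n d
    refine Bs_le_Cs n h3 ?_
    have h4 : T (mo α) = ∏ l ∈ α.support, (fun x : ℕ → ℝ => x l + G x l) ^ α l := by
      rw [hT]
      funext x
      rw [Finset.prod_apply]
      rfl
    rw [h4]
    refine BA_prod α.support _ (fun l => (α l : ℝ) * (1 / 2) ^ l) fun l hl => ?_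
    have h5 : l ≤ n := h2 l (Finsupp.mem_support_iff.1 hl)
    exact Bs_pow ((Bs n _).add_mem (Bs_coord h5) (hG l h5)) (α l)
  have h6 := h1 hf
  rw [Submodule.mem_comap, hT] at h6
  exact h6

end Pool.Agent.Lib.MP_862e0f_al.EV
end

section

/-!
# Boxes (TASK EV BN)

`mo_bound`: on the box `|x l| ≤ R` (`1 ≤ R`) we have `|mo α x| ≤ R ^ (∑ α l)`. `Es_bound`: span induction
for each of the finitely many coordinates `i ≤ n`, the others are `0`.
`line_poly`: for fixed `x` and `i` the function `t ↦ F (t • x) i` is a polynomial in `t`: span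
induction, `mo α (t • x) = t ^ (∑ α l) * mo α x`.
`Es_trunc`: `F x i` depends only on the coordinates `x l`, `l ≤ n`.
`Es_zero`: if `F` vanishes on the box `|x l| ≤ R` then `F = 0`: let `x` be arbitrary and `x'` the
truncation `x' l = x l` for `l ≤ n`, `0` otherwise; the polynomial `t ↦ F (t • x') i` vanishes for all
small `t`, hence has infinitely many roots, so it is `0`, and `F x i = F x' i = 0` (`t = 1`).
-/

set_option autoImplicit false

namespace Pool.Agent.Lib.MP_862e0f_al.EV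

private lemma BN_bound_Cs {n : ℕ} {d : ℝ} {f : (ℕ → ℝ) → ℝ} (hf : f ∈ Cs n d) (R : ℝ) :
    ∃ B : ℝ, 0 ≤ B ∧ ∀ x : ℕ → ℝ, (∀ l, |x l| ≤ R) → |f x| ≤ B := by
  unfold Cs at hf
  induction hf using Submodule.span_induction with
  | mem f hf =>
    obtain ⟨α, _, _, rfl⟩ := hf
    refine ⟨α.prod fun _ a => (max R 1) ^ a, ?_, ?_⟩
    · exact Finset.prod_nonneg fun l _ => pow_nonneg (le_max_of_le_right zero_le_one) _
    · intro x hx
      unfold mo Finsupp.prod
      rw [Finset.abs_prod]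
      refine Finset.prod_le_prod (fun l _ => abs_nonneg _) (fun l _ => ?_)
      rw [abs_pow]
      exact pow_le_pow_left₀ (abs_nonneg _) ((hx l).trans (le_max_left _ _)) _
  | zero => exact ⟨0, le_refl _, fun x _ => by simp⟩
  | add f g _ _ ihf ihg =>
    obtain ⟨B, hB, h1⟩ := ihf
    obtain ⟨B', hB', h2⟩ := ihg
    refine ⟨B + B', add_nonneg hB hB', fun x hx => ?_⟩
    exact (abs_add_le _ _).trans (add_le_add (h1 x hx) (h2 x hx))
  | smul c f _ ih =>
    obtain ⟨B, hB, h1⟩ := ih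
    refine ⟨|c| * B, mul_nonneg (abs_nonneg _) hB, fun x hx => ?_⟩
    rw [Pi.smul_apply, smul_eq_mul, abs_mul]
    exact mul_le_mul_of_nonneg_left (h1 x hx) (abs_nonneg _)

private lemma BN_line_Cs {n : ℕ} {d : ℝ} {f : (ℕ → ℝ) → ℝ} (hf : f ∈ Cs n d) (x : ℕ → ℝ) :
    ∃ p : Polynomial ℝ, ∀ t : ℝ, f (t • x) = p.eval t := by
  unfold Cs at hf
  induction hf using Submodule.span_induction with
  | mem f hf =>
    obtain ⟨α, _, _, rfl⟩ := hf
    refine ⟨α.prod fun l a => (Polynomial.C (x l) * Polynomial.X) ^ a, fun t => ?_⟩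
    unfold mo Finsupp.prod
    rw [Polynomial.eval_prod]
    refine Finset.prod_congr rfl fun l _ => ?_
    show (t • x) l ^ α l = ((Polynomial.C (x l) * Polynomial.X) ^ α l).eval t
    rw [Polynomial.eval_pow, Polynomial.eval_mul, Polynomial.eval_C, Polynomial.eval_X,
      Pi.smul_apply, smul_eq_mul, mul_comm]
  | zero => exact ⟨0, fun t => by simp⟩
  | add f g _ _ ihf ihg =>
    obtain ⟨p, hp⟩ := ihf
    obtain ⟨q, hq⟩ := ihg
    refine ⟨p + q, fun t => ?_⟩
    rw [Pi.add_apply, hp, hq, Polynomial.eval_add]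
  | smul c f _ ih =>
    obtain ⟨p, hp⟩ := ih
    refine ⟨Polynomial.C c * p, fun t => ?_⟩
    rw [Pi.smul_apply, hp, smul_eq_mul, Polynomial.eval_mul, Polynomial.eval_C]

private lemma BN_trunc_Cs {n : ℕ} {d : ℝ} {f : (ℕ → ℝ) → ℝ} (hf : f ∈ Cs n d) {x y : ℕ → ℝ}
    (h : ∀ l, l ≤ n → x l = y l) : f x = f y := by
  unfold Cs at hf
  induction hf using Submodule.span_induction with
  | mem f hf =>
    obtain ⟨α, h1, _, rfl⟩ := hf
    unfold mo Finsupp.prod
    refine Finset.prod_congr rfl fun l hl => ?_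
    show x l ^ α l = y l ^ α l
    rw [h l (h1 l (Finsupp.mem_support_iff.1 hl))]
  | zero => rfl
  | add f g _ _ ihf ihg => rw [Pi.add_apply, Pi.add_apply, ihf, ihg]
  | smul c f _ ih => rw [Pi.smul_apply, Pi.smul_apply, ih]

theorem Es_bound {n : ℕ} {F : (ℕ → ℝ) → ℕ → ℝ} (hF : F ∈ Es n) (R : ℝ) :
    ∃ B : ℝ, 0 ≤ B ∧ ∀ (i : ℕ) (x : ℕ → ℝ), (∀ l, |x l| ≤ R) → |F x i| ≤ B := by
  have h1 : ∀ i : ℕ, ∃ B : ℝ, 0 ≤ B ∧ (i ≤ n → ∀ x : ℕ → ℝ, (∀ l, |x l| ≤ R) → |F x i| ≤ B) := by
    intro i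
    by_cases hi : i ≤ n
    · obtain ⟨B, hB, h⟩ := BN_bound_Cs (hF.1 i hi) R
      exact ⟨B, hB, fun _ => h⟩
    · exact ⟨0, le_refl _, fun h => absurd h hi⟩
  choose B hB hb using h1
  refine ⟨∑ i ∈ Finset.range (n + 1), B i, Finset.sum_nonneg fun i _ => hB i, ?_⟩
  intro i x hx
  by_cases hi : i ≤ n
  · refine (hb i hi x hx).trans ?_
    exact Finset.single_le_sum (f := B) (fun j _ => hB j) (Finset.mem_range.2 (by omega))
  · rw [hF.2 i (not_le.1 hi) x, abs_zero]
    exact Finset.sum_nonneg fun i _ => hB i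

theorem line_poly {n : ℕ} {F : (ℕ → ℝ) → ℕ → ℝ} (hF : F ∈ Es n) (x : ℕ → ℝ) (i : ℕ) :
    ∃ p : Polynomial ℝ, ∀ t : ℝ, F (t • x) i = p.eval t := by
  by_cases hi : i ≤ n
  · exact BN_line_Cs (hF.1 i hi) x
  · refine ⟨0, fun t => ?_⟩
    rw [hF.2 i (not_le.1 hi), Polynomial.eval_zero]

theorem Es_trunc {n : ℕ} {F : (ℕ → ℝ) → ℕ → ℝ} (hF : F ∈ Es n) {i : ℕ} {x y : ℕ → ℝ}
    (h : ∀ l, l ≤ n → x l = y l) : F x i = F y i := by
  by_cases hi : i ≤ n
  · exact BN_trunc_Cs (hF.1 i hi) h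
  · rw [hF.2 i (not_le.1 hi), hF.2 i (not_le.1 hi)]

theorem Es_zero {n : ℕ} {F : (ℕ → ℝ) → ℕ → ℝ} (hF : F ∈ Es n) {R : ℝ} (hR : 0 < R)
    (h : ∀ (i : ℕ) (x : ℕ → ℝ), (∀ l, |x l| ≤ R) → F x i = 0) : F = 0 := by
  funext x i
  show F x i = 0
  obtain ⟨p, hp⟩ := line_poly hF (fun l => if l ≤ n then x l else 0) i
  have hM : 0 < ∑ l ∈ Finset.range (n + 1), |x l| + 1 :=
    add_pos_of_nonneg_of_pos (Finset.sum_nonneg fun l _ => abs_nonneg _) one_pos
  have hp0 : p = 0 := by
    refine Polynomial.eq_zero_of_infinite_isRoot p ?_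
    refine (Set.Icc_infinite (div_pos hR hM)).mono ?_
    intro t ht
    show p.eval t = 0
    rw [← hp]
    refine h i _ fun l => ?_
    rw [Pi.smul_apply, smul_eq_mul, abs_mul, abs_of_nonneg ht.1]
    have h1 : |(if l ≤ n then x l else 0 : ℝ)| ≤ ∑ l ∈ Finset.range (n + 1), |x l| + 1 := by
      split_ifs with hl
      · have h2 := Finset.single_le_sum (f := fun l => |x l|) (s := Finset.range (n + 1))
          (fun j _ => abs_nonneg _) (Finset.mem_range.2 (Nat.lt_succ_of_le hl))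
        linarith
      · rw [abs_zero]
        exact hM.le
    refine (mul_le_mul ht.2 h1 (abs_nonneg _) (div_pos hR hM).le).trans ?_
    rw [div_mul_cancel₀ _ hM.ne']
  have h1 := hp 1
  rw [hp0, Polynomial.eval_zero, one_smul] at h1
  rw [← h1]
  refine Es_trunc hF fun l hl => ?_
  rw [if_pos hl]

end Pool.Agent.Lib.MP_862e0f_al.EV
end

section

/-!
# The group operation (TASK EV BO)

`Es_op`: coordinate `i ≤ n`: `G · i ∈ Cs n ((1/2)^i)` and `subst_mem` for `F · i` (with
`Cs_le_Bs`); for `i > n` everything is `0`.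
`Es_dep`: span induction; `mo α` with `wt α < (1/2)^i` involves only `x l` with `i < l ≤ n`: if
`α l ≠ 0` then `(1/2)^l ≤ α l * (1/2)^l ≤ wt α < (1/2)^i`. For `i > n` both sides are `0`.
`exists_right_inverse`: put `g 0 = 0`, `g (m + 1) = fun x => -F (x + g m x)`. All `g m` are in
`Es n` (`-F(x + G x) = G x - (G x + F (x + G x))`, `Es_op`). By induction on `m`, for all `i` with
`n + 1 ≤ i + m`: `g (m + 1) x i = g m x i` for all `x` (the right-hand side of
`g (m + 1) x i = -F (x + g m x) i` depends only on the coordinates `l > i` of `g m x`, and for `i > n`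
everything is `0`). So `G = g (n + 1)` satisfies `G x = -F (x + G x)`.
`inv_formula` is the same statement for the explicit element.
-/

set_option autoImplicit false

namespace Pool.Agent.Lib.MP_862e0f_al.EV

theorem Es_op {n : ℕ} {F G : (ℕ → ℝ) → ℕ → ℝ} (hF : F ∈ Es n) (hG : G ∈ Es n) :
    (fun x => G x + F (x + G x)) ∈ Es n := by
  refine ⟨fun i hi => ?_, fun i hi x => ?_⟩
  · have h1 := subst_mem (hF.1 i hi) (G := G) fun l hl => Cs_le_Bs n _ (hG.1 l hl)
    exact (Cs n _).add_mem (hG.1 i hi) h1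
  · show G x i + F (x + G x) i = 0
    rw [hG.2 i hi, hF.2 i hi, add_zero]

theorem Es_dep {n : ℕ} {F : (ℕ → ℝ) → ℕ → ℝ} (hF : F ∈ Es n) {i : ℕ} {x y : ℕ → ℝ}
    (h : ∀ l, i < l → l ≤ n → x l = y l) : F x i = F y i := by
  rcases le_or_gt i n with hi | hi
  · have key : ∀ f ∈ Cs n ((1 / 2) ^ i), f x = f y := by
      intro f hf
      induction hf using Submodule.span_induction with
      | mem f hf =>
        obtain ⟨α, h1, h2, rfl⟩ := hf
        refine Finsupp.prod_congr fun l hl => ?_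
        have hl0 : α l ≠ 0 := Finsupp.mem_support_iff.1 hl
        have h3 : ((1 : ℝ) / 2) ^ l < (1 / 2) ^ i := by
          refine lt_of_le_of_lt ?_ h2
          have h4 : (α l : ℝ) * (1 / 2) ^ l ≤ wt α :=
            Finset.single_le_sum (f := fun l => (α l : ℝ) * (1 / 2) ^ l)
              (fun j _ => by positivity) hl
          have h5 : (1 : ℝ) ≤ α l := by exact_mod_cast Nat.one_le_iff_ne_zero.2 hl0
          have h6 : (0 : ℝ) ≤ (1 / 2) ^ l := by positivity
          nlinarith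
        have h7 : i < l := by
          by_contra h8
          have h9 : ((1 : ℝ) / 2) ^ i ≤ (1 / 2) ^ l :=
            pow_le_pow_of_le_one (by norm_num) (by norm_num) (not_lt.1 h8)
          linarith
        rw [h l h7 (h1 l hl0)]
      | zero => rfl
      | add f g _ _ hf hg => rw [Pi.add_apply, Pi.add_apply, hf, hg]
      | smul c f _ hf => rw [Pi.smul_apply, Pi.smul_apply, hf]
    exact key _ (hF.1 i hi)
  · rw [hF.2 i hi, hF.2 i hi]

/-- the iteration for the inverse -/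
def invIt (F : (ℕ → ℝ) → ℕ → ℝ) : ℕ → (ℕ → ℝ) → ℕ → ℝ
  | 0 => 0
  | m + 1 => fun x => -F (x + invIt F m x)

theorem invIt_mem {n : ℕ} {F : (ℕ → ℝ) → ℕ → ℝ} (hF : F ∈ Es n) (m : ℕ) :
    invIt F m ∈ Es n := by
  induction m with
  | zero => exact (Es n).zero_mem
  | succ m ih =>
    have h1 := (Es n).sub_mem ih (Es_op hF ih)
    have h2 : invIt F (m + 1) = invIt F m - fun x => invIt F m x + F (x + invIt F m x) := by
      funext x
      show -F (x + invIt F m x) = invIt F m x - (invIt F m x + F (x + invIt F m x))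
      abel
    rw [h2]
    exact h1

private theorem BO_stab {n : ℕ} {F : (ℕ → ℝ) → ℕ → ℝ} (hF : F ∈ Es n) (m : ℕ) :
    ∀ i, n + 1 ≤ i + m → ∀ x, invIt F (m + 1) x i = invIt F m x i := by
  induction m with
  | zero =>
    intro i hi x
    rw [(invIt_mem hF 1).2 i (by omega), (invIt_mem hF 0).2 i (by omega)]
  | succ m ih =>
    intro i hi x
    show (-F (x + invIt F (m + 1) x)) i = (-F (x + invIt F m x)) i
    rw [Pi.neg_apply, Pi.neg_apply, Es_dep hF fun l hl _ => ?_]
    rw [Pi.add_apply, Pi.add_apply, ih l (by omega) x]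

theorem inv_formula {n : ℕ} {F : (ℕ → ℝ) → ℕ → ℝ} (hF : F ∈ Es n) (x : ℕ → ℝ) :
    invIt F (n + 1) x + F (x + invIt F (n + 1) x) = 0 := by
  funext i
  have h1 := BO_stab hF (n + 1) i (by omega) x
  have h2 : invIt F (n + 1 + 1) x i = -(F (x + invIt F (n + 1) x) i) := rfl
  rw [h2] at h1
  rw [Pi.add_apply, Pi.zero_apply]
  linarith

end Pool.Agent.Lib.MP_862e0f_al.EV
end

section

/-!
# The base group: operations and norms
-/

set_option autoImplicit false

namespace Pool.Agent.Lib.MP_862e0f_al.EV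

/-- the group operation: `id + opb F G = (id + F) ∘ (id + G)` -/
noncomputable def opb (F G : Vb) : Vb := Vb.mk (fun x => G.f x + F.f (x + G.f x)) (by
  obtain ⟨m, hm⟩ := F.exh
  obtain ⟨n, hn⟩ := G.exh
  exact ⟨max m n, Es_op (Es_mono (le_max_left m n) hm) (Es_mono (le_max_right m n) hn)⟩)

theorem opb_f (F G : Vb) (x : ℕ → ℝ) : (opb F G).f x = G.f x + F.f (x + G.f x) := rfl

theorem opb_mem {n : ℕ} {F G : Vb} (hF : F ∈ Eb n) (hG : G ∈ Eb n) : opb F G ∈ Eb n :=
  Es_op hF hG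

theorem opb_assoc (F G K : Vb) : opb (opb F G) K = opb F (opb G K) := by
  refine Vb.ext fun x i => ?_
  simp only [opb_f, Pi.add_apply, add_assoc]

theorem zero_opb (F : Vb) : opb 0 F = F := by
  refine Vb.ext fun x i => ?_
  simp only [opb_f, Vb.zero_f, Pi.add_apply, Pi.zero_apply, add_zero]

theorem opb_zero (F : Vb) : opb F 0 = F := by
  refine Vb.ext fun x i => ?_
  simp only [opb_f, Vb.zero_f, Pi.add_apply, Pi.zero_apply, add_zero, zero_add]

theorem exists_right_inv (F : Vb) : ∃ G : Vb, opb F G = 0 := by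
  obtain ⟨n, hn⟩ := F.exh
  refine ⟨Vb.mk (invIt F.f (n + 1)) ⟨n, invIt_mem hn _⟩, Vb.ext fun x i => ?_⟩
  exact congrFun (inv_formula hn x) i

/-- the inverse -/
noncomputable def ivb (F : Vb) : Vb := Classical.choose (exists_right_inv F)

theorem opb_ivb (F : Vb) : opb F (ivb F) = 0 := Classical.choose_spec (exists_right_inv F)

theorem ivb_opb (F : Vb) : opb (ivb F) F = 0 := by
  have h1 := opb_ivb (ivb F)
  have h2 : ivb (ivb F) = F := by
    calc ivb (ivb F) = opb 0 (ivb (ivb F)) := (zero_opb _).symm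
      _ = opb (opb F (ivb F)) (ivb (ivb F)) := by rw [opb_ivb]
      _ = opb F (opb (ivb F) (ivb (ivb F))) := opb_assoc _ _ _
      _ = F := by rw [h1, opb_zero]
  rw [h2] at h1
  exact h1

theorem ivb_unique {F G : Vb} (h : opb F G = 0) : G = ivb F := by
  calc G = opb 0 G := (zero_opb _).symm
    _ = opb (opb (ivb F) F) G := by rw [ivb_opb]
    _ = opb (ivb F) (opb F G) := opb_assoc _ _ _
    _ = ivb F := by rw [h, opb_zero]

theorem ivb_f {n : ℕ} {F : Vb} (hF : F ∈ Eb n) : (ivb F).f = invIt F.f (n + 1) := by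
  have h : opb F (Vb.mk (invIt F.f (n + 1)) ⟨n, invIt_mem hF _⟩) = 0 :=
    Vb.ext fun x i => congrFun (inv_formula hF x) i
  rw [← ivb_unique h]
  rfl

theorem ivb_mem {n : ℕ} {F : Vb} (hF : F ∈ Eb n) : ivb F ∈ Eb n := by
  rw [mem_Eb, ivb_f hF]
  exact invIt_mem hF _

theorem ivb_eq (F : Vb) (x : ℕ → ℝ) : (ivb F).f x = -F.f (x + (ivb F).f x) := by
  have h := congrFun (congrArg Vb.f (opb_ivb F)) x
  rw [opb_f] at h
  exact eq_neg_of_add_eq_zero_left h

/-- the box of radius `k + 1` -/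
def BX (k : ℕ) : Type := {x : ℕ → ℝ // ∀ l, |x l| ≤ (k : ℝ) + 1}

noncomputable instance (k : ℕ) : Nonempty (ℕ × BX k) :=
  ⟨(0, ⟨0, fun l => by rw [Pi.zero_apply, abs_zero]; positivity⟩)⟩

theorem Nb_bdd (k : ℕ) (F : Vb) : BddAbove (Set.range fun p : ℕ × BX k => |F.f p.2.1 p.1|) := by
  obtain ⟨n, hn⟩ := F.exh
  obtain ⟨B, _, hB⟩ := Es_bound hn ((k : ℝ) + 1)
  refine ⟨B, ?_⟩
  rintro _ ⟨p, rfl⟩
  exact hB p.1 p.2.1 p.2.2

/-- the norms `2 ^ k * sup_{|x| ≤ k + 1} |F x i|` -/
noncomputable def Nb (k : ℕ) : Seminorm ℝ Vb :=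
  Seminorm.of (fun F => 2 ^ k * ⨆ p : ℕ × BX k, |F.f p.2.1 p.1|)
    (fun F G => by
      rw [← mul_add]
      refine mul_le_mul_of_nonneg_left (ciSup_le fun p => ?_) (by positivity)
      have h1 := le_ciSup (Nb_bdd k F) p
      have h2 := le_ciSup (Nb_bdd k G) p
      exact (abs_add_le _ _).trans (add_le_add h1 h2))
    (fun r F => by
      simp only [Vb.smul_f, Pi.smul_apply, smul_eq_mul, abs_mul]
      rw [← Real.mul_iSup_of_nonneg (abs_nonneg r), Real.norm_eq_abs]
      ring)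

theorem Nb_apply (k : ℕ) (F : Vb) : Nb k F = 2 ^ k * ⨆ p : ℕ × BX k, |F.f p.2.1 p.1| := rfl

theorem Nb_le {k : ℕ} {F : Vb} {C : ℝ}
    (h : ∀ i (x : ℕ → ℝ), (∀ l, |x l| ≤ (k : ℝ) + 1) → |F.f x i| ≤ C) : Nb k F ≤ 2 ^ k * C := by
  rw [Nb_apply]
  exact mul_le_mul_of_nonneg_left (ciSup_le fun p => h p.1 p.2.1 p.2.2) (by positivity)

theorem le_Nb {k : ℕ} (F : Vb) (i : ℕ) {x : ℕ → ℝ} (hx : ∀ l, |x l| ≤ (k : ℝ) + 1) :
    2 ^ k * |F.f x i| ≤ Nb k F := by
  rw [Nb_apply]
  exact mul_le_mul_of_nonneg_left (le_ciSup (Nb_bdd k F) (i, ⟨x, hx⟩)) (by positivity)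

theorem abs_le_Nb {k : ℕ} (F : Vb) (i : ℕ) {x : ℕ → ℝ} (hx : ∀ l, |x l| ≤ (k : ℝ) + 1) :
    |F.f x i| ≤ Nb k F := by
  have h1 := le_Nb F i hx
  have h2 : (1 : ℝ) ≤ 2 ^ k := one_le_pow₀ (by norm_num)
  nlinarith [abs_nonneg (F.f x i)]

theorem Nb_two (k : ℕ) (F : Vb) : 2 * Nb k F ≤ Nb (k + 1) F := by
  have h1 : Nb k F ≤ 2 ^ k * (Nb (k + 1) F / 2 ^ (k + 1)) := by
    refine Nb_le fun i x hx => ?_
    rw [le_div_iff₀ (by positivity), mul_comm]
    refine le_Nb F i fun l => (hx l).trans ?_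
    push_cast
    linarith
  have h2 : (2 : ℝ) ^ k * (Nb (k + 1) F / 2 ^ (k + 1)) = Nb (k + 1) F / 2 := by
    rw [pow_succ]
    field_simp
  linarith

theorem Nb_def {k : ℕ} {F : Vb} (h : Nb k F = 0) : F = 0 := by
  obtain ⟨n, hn⟩ := F.exh
  have h1 : F.f = 0 := Es_zero hn (R := (k : ℝ) + 1) (by positivity) fun i x hx => by
    have := abs_le_Nb F i hx
    rw [h] at this
    exact abs_nonpos_iff.1 this
  exact Vb.ext fun x i => by rw [h1]; rfl

noncomputable instance : NormedAddCommGroup Vb :=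
  AddGroupNorm.toNormedAddCommGroup
    { toFun := Nb 0
      map_zero' := map_zero _
      add_le' := map_add_le_add _
      neg' := map_neg_eq_map _
      eq_zero_of_map_eq_zero' := fun _ h => Nb_def h }

theorem norm_Vb (F : Vb) : ‖F‖ = Nb 0 F := rfl

noncomputable instance : NormedSpace ℝ Vb where
  norm_smul_le r F := (map_smul_eq_mul (Nb 0) r F).le

instance (n : ℕ) : FiniteDimensional ℝ (Eb n) := Eb_finite n

end Pool.Agent.Lib.MP_862e0f_al.EV
end

section

/-!
# Continuity of the multiplication for the norms `Nb` (TASK EV BC)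

`unif`: `F ∈ Es n` is uniformly continuous on the box `{x | ∀ l, |x l| ≤ R}` (compact by Tychonoff,
`isCompact_univ_pi`) for the product uniformity, for each of the finitely many coordinates `i ≤ n` (for
`i > n` it is zero); an entourage of the product uniformity of `ℕ → ℝ` contains all pairs with
`|x l - y l| < δ` for all `l`, for some `δ > 0`. (Or directly by span induction: polynomials are Lipschitz on
boxes.) The function `x ↦ F x i` is continuous on `ℕ → ℝ` (span induction, `mo α` is continuous).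

`opb_cont`: let `F`, `G`, `k`, `ε` be given, `B` a bound of `G` on the box of radius `k + 1` (`Es_bound`), `l ≥ k`
a natural number with `k + 1 + B + 1 ≤ l + 1`. Take `δ ≤ 1` from `unif` for `F`, the box of radius `l + 1`
and `ε' = ε / (4 * 2 ^ k)`, and `δ ≤ ε'`. For `Nb l (F' - F) < δ`, `Nb l (G' - G) < δ`
and `x` in the box of radius `k + 1`: `x + G x` and `x + G' x` are in the box of radius `l + 1`, and
`opb F' G' x - opb F G x = (G' - G) x + (F' - F)(x + G' x) + (F (x + G' x) - F (x + G x))`, each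
of the three terms is `< ε'` in every coordinate (`abs_le_Nb`). So `Nb k (..) ≤ 2 ^ k * 3 ε' < ε` (`Nb_le`).
-/

set_option autoImplicit false

namespace Pool.Agent.Lib.MP_862e0f_al.EV

open Filter Topology Set Uniformity

/-- `F x i` is uniformly continuous on boxes, coordinate by coordinate -/
private theorem BC_cont {n : ℕ} {F : (ℕ → ℝ) → ℕ → ℝ} (hF : F ∈ Es n) (i : ℕ) :
    Continuous fun x => F x i := by
  rcases Nat.lt_or_ge n i with hi | hi
  · have : (fun x => F x i) = fun _ => (0 : ℝ) := funext fun x => hF.2 i hi x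
    rw [this]
    exact continuous_const
  · have h1 : (fun x => F x i) ∈ Cs n ((1 / 2) ^ i) := hF.1 i hi
    refine Submodule.span_induction (p := fun g _ => Continuous g) ?_ ?_ ?_ ?_ h1
    · rintro g ⟨α, -, -, rfl⟩
      unfold mo
      exact continuous_finsetProd _ fun l _ => (continuous_apply l).pow _
    · exact continuous_const
    · intro g h _ _ hg hh
      exact hg.add hh
    · intro c g _ hg
      exact hg.const_smul c

private theorem BC_unif1 {g : (ℕ → ℝ) → ℝ} (hg : Continuous g) (R : ℝ) {ε : ℝ} (hε : 0 < ε) :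
    ∃ δ : ℝ, 0 < δ ∧ ∀ x y : ℕ → ℝ, (∀ l, |x l| ≤ R) → (∀ l, |y l| ≤ R) →
      (∀ l, |x l - y l| < δ) → |g x - g y| < ε := by
  have hK : IsCompact (Set.pi univ fun _ : ℕ => Icc (-R) R) :=
    isCompact_univ_pi fun _ => isCompact_Icc
  have h3 : ∀ᶠ p in 𝓤 (ℕ → ℝ) ⊓ 𝓟 ((Set.pi univ fun _ : ℕ => Icc (-R) R) ×ˢ
      (Set.pi univ fun _ : ℕ => Icc (-R) R)), (g p.1, g p.2) ∈ {q : ℝ × ℝ | dist q.1 q.2 < ε} := by
    have h4 := hK.uniformContinuousOn_of_continuous hg.continuousOn
    exact h4 (Metric.dist_mem_uniformity hε)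
  rw [eventually_inf_principal, Pi.uniformity] at h3
  rw [Filter.eventually_iff, mem_iInf] at h3
  obtain ⟨I, hI, W, hW, hWe⟩ := h3
  have h5 : ∀ i : I, ∃ δ : ℝ, 0 < δ ∧ ∀ a b : ℝ, dist a b < δ →
      ∀ p : (ℕ → ℝ) × (ℕ → ℝ), p.1 i = a → p.2 i = b → p ∈ W i := by
    intro i
    obtain ⟨t, ht, hts⟩ := hW i
    obtain ⟨δ, hδ, hδt⟩ := Metric.mem_uniformity_dist.1 ht
    refine ⟨δ, hδ, fun a b hab p ha hb => hts ?_⟩
    rw [mem_preimage, ha, hb]
    exact hδt hab
  choose δ hδ hδW using h5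
  have := hI.to_subtype
  have hfin : Fintype I := hI.fintype
  obtain ⟨δ₀, hδ₀, hle⟩ : ∃ δ₀ : ℝ, 0 < δ₀ ∧ ∀ i : I, δ₀ ≤ δ i := by
    rcases isEmpty_or_nonempty I with he | hne
    · exact ⟨1, one_pos, fun i => (he.false i).elim⟩
    · obtain ⟨i₀, hi₀⟩ := Finite.exists_min δ
      exact ⟨δ i₀, hδ i₀, hi₀⟩
  refine ⟨δ₀, hδ₀, fun x y hx hy hxy => ?_⟩
  have h6 : (x, y) ∈ ⋂ i, W i := mem_iInter.2 fun i =>
    hδW i _ _ (by rw [Real.dist_eq]; exact lt_of_lt_of_le (hxy i) (hle i)) (x, y) rfl rfl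
  rw [← hWe] at h6
  have h7 := h6 (show (x, y) ∈ _ from ⟨fun l _ => abs_le.1 (hx l), fun l _ => abs_le.1 (hy l)⟩)
  have h8 : dist (g x) (g y) < ε := h7
  rwa [Real.dist_eq] at h8

theorem unif {n : ℕ} {F : (ℕ → ℝ) → ℕ → ℝ} (hF : F ∈ Es n) (R : ℝ) {ε : ℝ} (hε : 0 < ε) :
    ∃ δ : ℝ, 0 < δ ∧ ∀ x y : ℕ → ℝ, (∀ l, |x l| ≤ R) → (∀ l, |y l| ≤ R) →
      (∀ l, |x l - y l| < δ) → ∀ i, |F x i - F y i| < ε := by
  choose δ hδ hδF using fun i : ℕ => BC_unif1 (BC_cont hF i) R hε
  have hne : (Finset.range (n + 1)).Nonempty := ⟨0, by simp⟩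
  have hpos : 0 < (Finset.range (n + 1)).inf' hne δ :=
    (Finset.lt_inf'_iff hne).2 fun i _ => hδ i
  refine ⟨_, hpos, fun x y hx hy hxy i => ?_⟩
  rcases Nat.lt_or_ge n i with hi | hi
  · rw [hF.2 i hi, hF.2 i hi, sub_zero, abs_zero]
    exact hε
  · exact hδF i x y hx hy fun l => lt_of_lt_of_le (hxy l)
      (Finset.inf'_le _ (Finset.mem_range.2 (by omega)))

theorem opb_cont (F G : Vb) (k : ℕ) (ε : ℝ) (hε : 0 < ε) : ∃ (l : ℕ) (δ : ℝ), 0 < δ ∧
    ∀ F' G', Nb l (F' - F) < δ → Nb l (G' - G) < δ → Nb k (opb F' G' - opb F G) < ε := by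
  obtain ⟨n, hn⟩ := F.exh
  obtain ⟨m, hm⟩ := G.exh
  obtain ⟨B, hB0, hB⟩ := Es_bound hm ((k : ℝ) + 1)
  obtain ⟨q, hq⟩ := exists_nat_gt B
  set l : ℕ := k + q + 1 with hl
  have hlr : (l : ℝ) = k + q + 1 := by rw [hl]; push_cast; ring
  set ε' : ℝ := ε / (4 * 2 ^ k) with hε'
  have hε'0 : 0 < ε' := by positivity
  obtain ⟨δ, hδ, hδF⟩ := unif hn ((l : ℝ) + 1) hε'0
  refine ⟨l, min 1 (min δ ε'), by positivity, fun F' G' hF' hG' => ?_⟩
  have g1 : Nb l (G' - G) < 1 := lt_of_lt_of_le hG' (min_le_left _ _)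
  have g2 : Nb l (G' - G) < δ := lt_of_lt_of_le hG' ((min_le_right _ _).trans (min_le_left _ _))
  have g3 : Nb l (G' - G) < ε' := lt_of_lt_of_le hG' ((min_le_right _ _).trans (min_le_right _ _))
  have f3 : Nb l (F' - F) < ε' := lt_of_lt_of_le hF' ((min_le_right _ _).trans (min_le_right _ _))
  have key : Nb k (opb F' G' - opb F G) ≤ 2 ^ k * (3 * ε') := by
    refine Nb_le fun i x hx => ?_
    have hxl : ∀ j, |x j| ≤ (l : ℝ) + 1 := fun j => (hx j).trans (by
      rw [hlr]; have : (0 : ℝ) ≤ q := Nat.cast_nonneg q; linarith)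
    have hG'x : ∀ j, |G'.f x j - G.f x j| < min 1 δ := fun j => by
      have := abs_le_Nb (G' - G) j hxl
      exact lt_of_le_of_lt this (lt_min g1 g2)
    have b1 : ∀ j, |(x + G.f x) j| ≤ (l : ℝ) + 1 := fun j => by
      have h1 := hB j x hx
      have h2 := abs_add_le (x j) (G.f x j)
      have h3 := hx j
      rw [Pi.add_apply, hlr]
      linarith
    have b2 : ∀ j, |(x + G'.f x) j| ≤ (l : ℝ) + 1 := fun j => by
      have h1 := hB j x hx
      have h2 := abs_add_le (x j) (G'.f x j)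
      have h3 := hx j
      have h4 := lt_of_lt_of_le (hG'x j) (min_le_left _ _)
      have h5 := abs_sub_abs_le_abs_sub (G'.f x j) (G.f x j)
      rw [Pi.add_apply, hlr]
      linarith
    have t1 : |G'.f x i - G.f x i| ≤ ε' := (abs_le_Nb (G' - G) i hxl).trans g3.le
    have t2 : |F'.f (x + G'.f x) i - F.f (x + G'.f x) i| ≤ ε' :=
      (abs_le_Nb (F' - F) i b2).trans f3.le
    have t3 : |F.f (x + G'.f x) i - F.f (x + G.f x) i| < ε' := by
      refine hδF _ _ b2 b1 (fun j => ?_) i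
      have h4 := lt_of_lt_of_le (hG'x j) (min_le_right _ _)
      rw [Pi.add_apply, Pi.add_apply]
      have : x j + G'.f x j - (x j + G.f x j) = G'.f x j - G.f x j := by ring
      rw [this]
      exact h4
    have e : (opb F' G' - opb F G).f x i = (G'.f x i - G.f x i) +
        (F'.f (x + G'.f x) i - F.f (x + G'.f x) i) +
        (F.f (x + G'.f x) i - F.f (x + G.f x) i) := by
      rw [Vb.sub_f, Pi.sub_apply, Pi.sub_apply, opb_f, opb_f, Pi.add_apply, Pi.add_apply]
      ring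
    rw [e]
    have a1 := abs_add_le ((G'.f x i - G.f x i) + (F'.f (x + G'.f x) i - F.f (x + G'.f x) i))
      (F.f (x + G'.f x) i - F.f (x + G.f x) i)
    have a2 := abs_add_le (G'.f x i - G.f x i) (F'.f (x + G'.f x) i - F.f (x + G'.f x) i)
    linarith
  refine lt_of_le_of_lt key ?_
  have : (2 : ℝ) ^ k * (3 * ε') = 3 / 4 * ε := by
    rw [hε']
    field_simp
  rw [this]
  linarith

end Pool.Agent.Lib.MP_862e0f_al.EV
end

section

/-!
# Continuity of the inversion for the norms `Nb` (TASK EV BI)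

`ivb_zero_cont`: `Nb k (ivb F) ≤ 2 ^ k * Nb (k + 1) F` if `Nb (k + 1) F < 1`: let `x` be in the box of radius `k + 1`,
`z = x + ivb F x`, so `z = x - F z` (`ivb_eq`). Claim `|z l| ≤ k + 2` for all `l`, and
`|F z l| ≤ Nb (k + 1) F`: downward induction on `l` (for `l > n`, `F ∈ Es n`, `F z l = 0`); `F z l` depends only
on the `z j` with `l < j ≤ n` (`Es_dep`), so `F z l = F z' l` with `z' j = z j` for `l < j ≤ n`, `z' j = 0` otherwise,
which is in the box of radius `k + 2 = (k + 1) + 1`; use `abs_le_Nb` (with `k + 1`) and `Nb_le`.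

`ivb_cont`: at `F`: put `Y = opb F' (ivb F)`; by `opb_cont` at `(F, ivb F)` it is close to
`opb F (ivb F) = 0` (`opb_ivb`), so `ivb Y` is close to `0` by `ivb_zero_cont`, and
`ivb F' = opb (ivb F) (ivb Y)` (group axioms: `opb_assoc`, `ivb_opb`, `ivb_unique`, ...), which is close to
`opb (ivb F) 0 = ivb F` by `opb_cont` at `(ivb F, 0)`.
-/

set_option autoImplicit false

namespace Pool.Agent.Lib.MP_862e0f_al.EV

theorem ivb_zero_cont (k : ℕ) {F : Vb} (h : Nb (k + 1) F < 1) :
    Nb k (ivb F) ≤ 2 ^ k * Nb (k + 1) F := by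
  refine Nb_le fun i x hx => ?_
  obtain ⟨n, hn⟩ := F.exh
  set z : ℕ → ℝ := x + (ivb F).f x with hz
  have hzl : ∀ l, z l = x l - F.f z l := by
    intro l
    have h1 := congrFun (ivb_eq F x) l
    rw [← hz, Pi.neg_apply] at h1
    show x l + (ivb F).f x l = _
    rw [h1]
    ring
  have h0 : 0 ≤ Nb (k + 1) F := apply_nonneg _ _
  have key : ∀ m l : ℕ, n + 1 ≤ l + m → |F.f z l| ≤ Nb (k + 1) F := by
    intro m
    induction m with
    | zero =>
      intro l hl
      rw [hn.2 l (by omega), abs_zero]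
      exact h0
    | succ m ih =>
      intro l hl
      classical
      set z' : ℕ → ℝ := fun j => if l < j ∧ j ≤ n then z j else 0 with hz'
      have h2 : F.f z l = F.f z' l := by
        refine Es_dep hn fun j hj1 hj2 => ?_
        rw [hz']
        simp only [hj1, hj2, and_self, if_true]
      rw [h2]
      refine abs_le_Nb F l fun j => ?_
      rw [hz']
      simp only
      split_ifs with hj
      · have h3 := ih j (by omega)
        have h4 := hx j
        rw [hzl j]
        have h5 := abs_sub (x j) (F.f z j)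
        push_cast
        linarith
      · rw [abs_zero]
        positivity
  have h6 := key (n + 1) i (by omega)
  have h7 := congrFun (ivb_eq F x) i
  rw [← hz, Pi.neg_apply] at h7
  rw [h7, abs_neg]
  exact h6

theorem ivb_cont (F : Vb) (k : ℕ) (ε : ℝ) (hε : 0 < ε) : ∃ (l : ℕ) (δ : ℝ), 0 < δ ∧
    ∀ F', Nb l (F' - F) < δ → Nb k (ivb F' - ivb F) < ε := by
  obtain ⟨l₁, δ₁, hδ₁, h1⟩ := opb_cont (ivb F) 0 k ε hε
  have hp : (0 : ℝ) < 2 ^ l₁ := by positivity
  obtain ⟨l₂, δ₂, hδ₂, h2⟩ := opb_cont F (ivb F) (l₁ + 1) (min 1 (δ₁ / 2 ^ l₁))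
    (lt_min one_pos (div_pos hδ₁ hp))
  refine ⟨l₂, δ₂, hδ₂, fun F' hF' => ?_⟩
  have h3 := h2 F' (ivb F) hF' (by rw [sub_self, map_zero]; exact hδ₂)
  rw [opb_ivb, sub_zero] at h3
  have h4 := ivb_zero_cont l₁ (h3.trans_le (min_le_left _ _))
  have h5 : Nb l₁ (ivb (opb F' (ivb F)) - 0) < δ₁ := by
    rw [sub_zero]
    refine lt_of_le_of_lt h4 ?_
    have h6 := h3.trans_le (min_le_right _ _)
    rw [lt_div_iff₀ hp] at h6
    rw [mul_comm]
    exact h6
  have h7 := h1 (ivb F) (ivb (opb F' (ivb F))) (by rw [sub_self, map_zero]; exact hδ₁) h5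
  have h8 : opb (ivb F) (ivb (opb F' (ivb F))) = ivb F' := by
    refine ivb_unique ?_
    rw [← opb_assoc, opb_ivb]
  rw [h8, opb_zero] at h7
  exact h7

end Pool.Agent.Lib.MP_862e0f_al.EV
end

section

/-!
# Joint smoothness of the evaluation (TASK EV BJ)

`contDiff_fix`: for a fixed `F ∈ Es n` and smooth coordinates `y x l` the function
`x ↦ F (y x) i` is smooth: for `i > n` it is `0`, for `i ≤ n` span induction; `mo α (y x)` is a finite
product of powers.
`contDiff_eval`: let `b` be a basis of `Eb n`, and write `φ x = ∑ c_j(x) • b_j`, where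
`c_j(x) = (coordinate functional j) (φ x)` is smooth: `x ↦ (⟨φ x, _⟩ : Eb n)` is smooth because it is
`π ∘ φ` with a continuous linear projection `π : Vb → Eb n`
(`Submodule.ClosedComplemented.of_finiteDimensional`); so `(φ x).f (y x) i =
∑ c_j(x) * (b_j).f (y x) i`.
-/

set_option autoImplicit false

namespace Pool.Agent.Lib.MP_862e0f_al.EV

open scoped ContDiff

private theorem BJ_span {X : Type} [NormedAddCommGroup X] [NormedSpace ℝ X] {n : ℕ} {d : ℝ}
    {y : X → ℕ → ℝ} (hy : ∀ l, ContDiff ℝ ∞ (fun x => y x l)) {f : (ℕ → ℝ) → ℝ}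
    (hf : f ∈ Cs n d) : ContDiff ℝ ∞ (fun x => f (y x)) := by
  unfold Cs at hf
  induction hf using Submodule.span_induction with
  | mem f hf =>
    obtain ⟨α, -, -, rfl⟩ := hf
    have : (fun x => mo α (y x)) = fun x => ∏ l ∈ α.support, (y x l) ^ (α l) := rfl
    rw [this]
    exact contDiff_prod fun l _ => (hy l).pow _
  | zero => exact contDiff_const
  | add f g _ _ h1 h2 => exact h1.add h2
  | smul c f _ h => exact contDiff_const.mul h

/-- evaluation as a linear functional -/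
private noncomputable def BJ_ev (z : ℕ → ℝ) (i : ℕ) : Vb →ₗ[ℝ] ℝ where
  toFun F := F.f z i
  map_add' _ _ := rfl
  map_smul' _ _ := rfl

theorem contDiff_fix {X : Type} [NormedAddCommGroup X] [NormedSpace ℝ X] {n : ℕ}
    {F : (ℕ → ℝ) → ℕ → ℝ} (hF : F ∈ Es n) {y : X → ℕ → ℝ}
    (hy : ∀ l, ContDiff ℝ ∞ (fun x => y x l)) (i : ℕ) :
    ContDiff ℝ ∞ (fun x => F (y x) i) := by
  rcases le_or_gt i n with h | h
  · exact BJ_span hy (hF.1 i h)
  · have : (fun x => F (y x) i) = fun _ => 0 := funext fun x => hF.2 i h (y x)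
    rw [this]
    exact contDiff_const

theorem contDiff_eval {X : Type} [NormedAddCommGroup X] [NormedSpace ℝ X] {n : ℕ} {φ : X → Vb}
    (hφ : ContDiff ℝ ∞ φ) (hE : ∀ x, φ x ∈ Eb n) {y : X → ℕ → ℝ}
    (hy : ∀ l, ContDiff ℝ ∞ (fun x => y x l)) (i : ℕ) :
    ContDiff ℝ ∞ (fun x => (φ x).f (y x) i) := by
  obtain ⟨P, hP⟩ := Submodule.ClosedComplemented.of_finiteDimensional (Eb n)
  have hψ : ContDiff ℝ ∞ (fun x => P (φ x)) := P.contDiff.comp hφ
  have hφψ : ∀ x, ((P (φ x) : Eb n) : Vb) = φ x := fun x => by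
    have := hP ⟨φ x, hE x⟩
    exact congrArg Subtype.val this
  let b := Module.finBasis ℝ (Eb n)
  have hc : ∀ j, ContDiff ℝ ∞ (fun x => b.coord j (P (φ x))) := fun j =>
    (LinearMap.toContinuousLinearMap (b.coord j)).contDiff.comp hψ
  have key : ∀ x, (φ x).f (y x) i =
      ∑ j, b.coord j (P (φ x)) * ((b j : Eb n) : Vb).f (y x) i := fun x => by
    have h1 : P (φ x) = ∑ j, b.coord j (P (φ x)) • b j := (b.sum_repr (P (φ x))).symm
    have h2 := congrArg (fun v : Eb n => BJ_ev (y x) i (v : Vb)) h1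
    simp only [hφψ, Submodule.coe_sum, Submodule.coe_smul, map_sum, map_smul, smul_eq_mul] at h2
    exact h2
  have : (fun x => (φ x).f (y x) i) =
      fun x => ∑ j, b.coord j (P (φ x)) * ((b j : Eb n) : Vb).f (y x) i := funext key
  rw [this]
  exact ContDiff.sum fun j _ => (hc j).mul (contDiff_fix (b j).2 hy i)

end Pool.Agent.Lib.MP_862e0f_al.EV
end

section

/-!
# Smoothness of maps into `Eb n` can be checked pointwise (TASK EV BW)

`Eb n` is finite-dimensional and its elements `F` are determined by the numbers `F.f p i`, so the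
functionals `F ↦ F.f p i` span the dual space of `Eb n` (a subspace of the dual of a
finite-dimensional space with trivial coannihilator is everything, see `Submodule.dualCoannihilator`,
`Subspace.dualCoannihilator_dualAnnihilator_eq`, ...). Hence for a basis `b` of `Eb n` every
coordinate functional is a linear combination of evaluations, so the coordinates of `φ x` with respect
to `b` are smooth functions of `x`, and `φ x` is the sum of coordinate times basis vector.
-/

set_option autoImplicit false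

namespace Pool.Agent.Lib.MP_862e0f_al.EV

open scoped ContDiff

/-- evaluation functionals on `Eb n` -/
private noncomputable def BW_ev (n : ℕ) (p : ℕ → ℝ) (i : ℕ) : Module.Dual ℝ (Eb n) where
  toFun F := (F : Vb).f p i
  map_add' F G := by simp
  map_smul' c F := by simp

private theorem BW_span (n : ℕ) :
    Submodule.span ℝ (Set.range fun q : (ℕ → ℝ) × ℕ => BW_ev n q.1 q.2) = ⊤ := by
  have h1 : (Submodule.span ℝ (Set.range fun q : (ℕ → ℝ) × ℕ => BW_ev n q.1 q.2)).dualCoannihilator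
      = ⊥ := by
    rw [eq_bot_iff]
    intro F hF
    rw [Submodule.mem_dualCoannihilator] at hF
    rw [Submodule.mem_bot]
    refine Subtype.ext (Vb.ext fun p i => ?_)
    exact hF (BW_ev n p i) (Submodule.subset_span ⟨(p, i), rfl⟩)
  rw [← Subspace.dualCoannihilator_dualAnnihilator_eq
    (W := Submodule.span ℝ (Set.range fun q : (ℕ → ℝ) × ℕ => BW_ev n q.1 q.2)), h1,
    Submodule.dualAnnihilator_bot]

theorem contDiff_of_eval {X : Type} [NormedAddCommGroup X] [NormedSpace ℝ X] {n : ℕ} {φ : X → Vb}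
    (hφ : ∀ x, φ x ∈ Eb n)
    (h : ∀ (p : ℕ → ℝ) (i : ℕ), ContDiff ℝ ∞ (fun x => (φ x).f p i)) : ContDiff ℝ ∞ φ := by
  set g : X → Eb n := fun x => ⟨φ x, hφ x⟩ with hg
  have h1 : ∀ l : Module.Dual ℝ (Eb n), ContDiff ℝ ∞ (fun x => l (g x)) := by
    intro l
    have hl : l ∈ Submodule.span ℝ (Set.range fun q : (ℕ → ℝ) × ℕ => BW_ev n q.1 q.2) := by
      rw [BW_span]
      exact Submodule.mem_top
    induction hl using Submodule.span_induction with
    | mem l hl =>
      obtain ⟨q, rfl⟩ := hl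
      exact h q.1 q.2
    | zero => exact contDiff_const
    | add l m _ _ hl hm => exact hl.add hm
    | smul c l _ hl => exact contDiff_const.mul hl
  have h2 : ContDiff ℝ ∞ g := by
    have h3 : g = fun x => ∑ j, (Module.finBasis ℝ (Eb n)).coord j (g x) •
        (Module.finBasis ℝ (Eb n)) j := by
      funext x
      exact ((Module.finBasis ℝ (Eb n)).sum_repr (g x)).symm
    rw [h3]
    exact ContDiff.sum fun j _ => (h1 _).smul contDiff_const
  exact (Eb n).subtypeL.contDiff.comp h2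

end Pool.Agent.Lib.MP_862e0f_al.EV
end

section

/-!
# Smoothness of the operations (TASK EV BS)

`opb_smooth`: by `contDiff_of_eval` it suffices that
`z ↦ (opb z.1 z.2).f p i = z.2.f p i + z.1.f (p + z.2.f p) i` is smooth; use `contDiff_eval` twice (the
coordinates `z ↦ p l + z.2.f p l` are smooth by `contDiff_eval` with constant `y`).
`ivb_smooth`: show by induction on `m` that `z ↦ Vb.mk (invIt z.f m) _` is smooth from `Eb n` to `Vb`
(values in `Eb n`): `(invIt z.f (m+1)).f p i = - z.f (p + invIt z.f m p) i`; then `ivb_f`.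
-/

set_option autoImplicit false

namespace Pool.Agent.Lib.MP_862e0f_al.EV

open scoped ContDiff

theorem opb_smooth (n : ℕ) : ContDiff ℝ ∞ (fun z : Eb n × Eb n => opb (z.1 : Vb) (z.2 : Vb)) := by
  have c1 : ContDiff ℝ ∞ (fun z : Eb n × Eb n => (z.1 : Vb)) :=
    (Eb n).subtypeL.contDiff.comp contDiff_fst
  have c2 : ContDiff ℝ ∞ (fun z : Eb n × Eb n => (z.2 : Vb)) :=
    (Eb n).subtypeL.contDiff.comp contDiff_snd
  have e2 : ∀ (p : ℕ → ℝ) (i : ℕ), ContDiff ℝ ∞ (fun z : Eb n × Eb n => (z.2 : Vb).f p i) :=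
    fun p i => contDiff_eval (n := n) c2 (fun z => z.2.2) (y := fun _ => p) (fun _ => contDiff_const) i
  refine contDiff_of_eval (n := n) (fun z => opb_mem z.1.2 z.2.2) fun p i => ?_
  have e3 : ContDiff ℝ ∞ (fun z : Eb n × Eb n => (z.1 : Vb).f (p + (z.2 : Vb).f p) i) :=
    contDiff_eval (n := n) c1 (fun z => z.1.2) (y := fun z => p + (z.2 : Vb).f p)
      (fun l => contDiff_const.add (e2 p l)) i
  exact (e2 p i).add e3

theorem ivb_smooth (n : ℕ) : ContDiff ℝ ∞ (fun z : Eb n => ivb (z : Vb)) := by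
  have key : ∀ (m : ℕ) (p : ℕ → ℝ) (i : ℕ),
      ContDiff ℝ ∞ (fun z : Eb n => invIt (z : Vb).f m p i) := by
    intro m
    induction m with
    | zero => intro p i; exact contDiff_const
    | succ m ih =>
      intro p i
      have e3 : ContDiff ℝ ∞ (fun z : Eb n => (z : Vb).f (p + invIt (z : Vb).f m p) i) :=
        contDiff_eval (n := n) (Eb n).subtypeL.contDiff (fun z => z.2)
          (y := fun z => p + invIt (z : Vb).f m p) (fun l => contDiff_const.add (ih p l)) i
      exact e3.neg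
  refine contDiff_of_eval (n := n) (fun z => ivb_mem z.2) fun p i => ?_
  have e : (fun z : Eb n => (ivb (z : Vb)).f p i) = fun z : Eb n => invIt (z : Vb).f (n + 1) p i :=
    funext fun z => by rw [ivb_f z.2]
  rw [e]
  exact key _ p i

end Pool.Agent.Lib.MP_862e0f_al.EV
end

section

/-!
# Towers: definitions

A *tower* is a group structure `(V, op, iv)` on a real vector space of countable dimension,
exhausted by finite-dimensional subspaces `E n` which are subgroups and on which the operations are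
smooth, together with an increasing family of norms `N k` for which the operations are continuous.
From it we build a locally convex Lie group: the eventually constant sequences `Z` with
`Z n ∈ E n`, with charts that use *observers*.
-/

set_option autoImplicit false

namespace Pool.Agent.Lib.MP_862e0f_al.EV

open Filter Topology Set
open scoped ContDiff

/-- thresholds `1/2 = th 0 < th 1 < ... < 1` -/
noncomputable def th (m : ℕ) : ℝ := 1 - 1 / ((m : ℝ) + 2)

/-- the distance between the sequence and its observers at time `n` is at most `tc n` -/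
noncomputable def tc (n : ℕ) : ℝ := th (3 * n)

/-- below `ta n` nothing is felt in the step `n → n + 1` -/
noncomputable def ta (n : ℕ) : ℝ := th (3 * n + 1)

/-- from `tb n` on the penalty of the step `n → n + 1` is complete, and up to `tb n` the observer
does not move -/
noncomputable def tb (n : ℕ) : ℝ := th (3 * n + 2)

theorem th_lt {m n : ℕ} (h : m < n) : th m < th n := by
  have hm : (0 : ℝ) < (m : ℝ) + 2 := by positivity
  have h' : (m : ℝ) + 2 < (n : ℝ) + 2 := by
    have : (m : ℝ) < n := by exact_mod_cast h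
    linarith
  have := one_div_lt_one_div_of_lt hm h'
  unfold th
  linarith

theorem th_le {m n : ℕ} (h : m ≤ n) : th m ≤ th n := by
  rcases h.lt_or_eq with h | rfl
  · exact (th_lt h).le
  · exact le_rfl

theorem th_pos (m : ℕ) : 0 < th m := by
  have h1 : (1 : ℝ) / ((m : ℝ) + 2) < 1 := by
    rw [div_lt_one (by positivity)]
    have : (0 : ℝ) ≤ m := Nat.cast_nonneg m
    linarith
  unfold th
  linarith

theorem th_lt_one (m : ℕ) : th m < 1 := by
  have : (0 : ℝ) < 1 / ((m : ℝ) + 2) := by positivity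
  unfold th
  linarith

theorem tc_pos (n : ℕ) : 0 < tc n := th_pos _
theorem ta_pos (n : ℕ) : 0 < ta n := th_pos _
theorem tb_pos (n : ℕ) : 0 < tb n := th_pos _
theorem tc_lt_ta (n : ℕ) : tc n < ta n := th_lt (by omega)
theorem ta_lt_tb (n : ℕ) : ta n < tb n := th_lt (by omega)
theorem tb_lt_tc (n : ℕ) : tb n < tc (n + 1) := th_lt (by omega)
theorem tb_lt_one (n : ℕ) : tb n < 1 := th_lt_one _
theorem tc_lt_one (n : ℕ) : tc n < 1 := th_lt_one _
theorem ta_le {m n : ℕ} (h : m ≤ n) : ta m ≤ ta n := th_le (by omega)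
theorem tc_le {m n : ℕ} (h : m ≤ n) : tc m ≤ tc n := th_le (by omega)

/-- A tower. -/
structure Tower (V : Type) [NormedAddCommGroup V] [NormedSpace ℝ V] where
  /-- the finite-dimensional subgroups -/
  E : ℕ → Submodule ℝ V
  fin : ∀ n, FiniteDimensional ℝ (E n)
  mono : Monotone E
  exh : ∀ x, ∃ n, x ∈ E n
  /-- the norms which define the topology of the group `V` -/
  N : ℕ → Seminorm ℝ V
  N_two : ∀ k x, 2 * N k x ≤ N (k + 1) x
  N_def : ∀ k x, N k x = 0 → x = 0
  /-- the group operation -/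
  op : V → V → V
  /-- the inverse -/
  iv : V → V
  op_assoc : ∀ x y z, op (op x y) z = op x (op y z)
  zero_op : ∀ x, op 0 x = x
  op_zero : ∀ x, op x 0 = x
  iv_op : ∀ x, op (iv x) x = 0
  op_mem : ∀ n x y, x ∈ E n → y ∈ E n → op x y ∈ E n
  iv_mem : ∀ n x, x ∈ E n → iv x ∈ E n
  op_smooth : ∀ n, ContDiff ℝ ∞ (fun z : E n × E n => op (z.1 : V) (z.2 : V))
  iv_smooth : ∀ n, ContDiff ℝ ∞ (fun z : E n => iv (z : V))
  op_cont : ∀ (x y : V) (k : ℕ) (ε : ℝ), 0 < ε → ∃ (l : ℕ) (δ : ℝ), 0 < δ ∧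
    ∀ x' y', N l (x' - x) < δ → N l (y' - y) < δ → N k (op x' y' - op x y) < ε
  iv_cont : ∀ (x : V) (k : ℕ) (ε : ℝ), 0 < ε → ∃ (l : ℕ) (δ : ℝ), 0 < δ ∧
    ∀ x', N l (x' - x) < δ → N k (iv x' - iv x) < ε

attribute [instance] Tower.fin

variable {V : Type} [NormedAddCommGroup V] [NormedSpace ℝ V]

/-- The gear of a tower: penalty functions, update functions and the constants which compare
`N (n + 1)` with the norm. -/
structure Gear (T : Tower V) where
  /-- the penalty of level `j` in the step `n → n + 1` -/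
  pen : ℕ → ℕ → V → ℝ
  /-- the update of the observer of level `j` in the step `n → n + 1` -/
  upd : ℕ → ℕ → V → ℝ
  /-- the constants -/
  D : ℕ → ℝ
  pen_smooth : ∀ j n, ContDiff ℝ ∞ (pen j n)
  pen_nonneg : ∀ j n x, 0 ≤ pen j n x
  pen_zero : ∀ j n x, x ∈ T.E (n + 1) → T.N j x ≤ ta n → pen j n x = 0
  pen_one : ∀ j n x, x ∈ T.E (n + 1) → tb n ≤ T.N j x → pen j n x = 1
  pen_ray : ∀ j n x w, x ∈ T.E (n + 1) → w ∈ T.E (n + 1) → T.N j x ≤ ta n →
    0 ≤ fderiv ℝ (pen j n) (x + w) w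
  upd_smooth : ∀ j n, ContDiff ℝ ∞ (upd j n)
  upd_nonneg : ∀ j n x, 0 ≤ upd j n x
  upd_le_one : ∀ j n x, upd j n x ≤ 1
  upd_zero : ∀ j n x, x ∈ T.E (n + 1) → T.N j x ≤ tb n → upd j n x = 0
  upd_one : ∀ j n x, x ∈ T.E (n + 1) → tc (n + 1) ≤ T.N j x → upd j n x = 1
  D_pos : ∀ n, 0 < D n
  D_spec : ∀ n x, x ∈ T.E (n + 1) → T.N (n + 1) x ≤ (tb n - tc n) * D n * ‖x‖

variable {T : Tower V} (G : Gear T)

/-- The new positions of the observers after the step `n → n + 1`: `s j` is the position of the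
observer of level `j` at time `n` (for `j ≥ n` this is the sequence itself), `x` is the new value
of the sequence. -/
noncomputable def updst (n : ℕ) (s : ℕ → V) (x : V) : ℕ → V :=
  fun j => if j ≤ n then s j + G.upd j n (x - s j) • (x - s j) else x

/-- The observers of the sequence `Z`: `obs G Z n j` is the position at time `n` of the observer of
level `j`. -/
noncomputable def obs (Z : ℕ → V) : ℕ → ℕ → V
  | 0 => fun _ => Z 0
  | n + 1 => updst G n (obs Z n) (Z (n + 1))

variable (T) in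
/-- The properties of the positions `s` of the observers at time `n`. -/
structure Good (n : ℕ) (s : ℕ → V) : Prop where
  mem : ∀ j, s j ∈ T.E n
  diag : ∀ j, n ≤ j → s j = s n
  near : ∀ j, T.N j (s n - s j) ≤ tc n

/-- The factor of the chart in the step `n → n + 1`; only the penalties of the levels `≥ t` are
used (`t = 0` gives the chart, `t > 0` the truncated charts). -/
noncomputable def Afac (W : ℕ → ℕ → ℝ) (t n : ℕ) (s : ℕ → V) (x : V) : ℝ :=
  1 + ∑ j ∈ Finset.Ico t (n + 1), G.D n * W j (n + 1) * G.pen j n (x - s j)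

/-- a solution of `r * f r = 1` -/
noncomputable def tau (f : ℝ → ℝ) : ℝ := Classical.epsilon fun r => r * f r = 1

/-- The next value of the sequence with coordinate `v`, at the state `s`. -/
noncomputable def nxt (W : ℕ → ℕ → ℝ) (t n : ℕ) (s : ℕ → V) (v : V) : V :=
  s n + tau (fun r => Afac G W t n s (s n + r • v)) • v

/-- The observers of the sequence with coordinates `v`. -/
noncomputable def st (W : ℕ → ℕ → ℝ) (v : ℕ → V) : ℕ → ℕ → V
  | 0 => fun _ => v 0
  | n + 1 => updst G n (st W v n) (nxt G W 0 n (st W v n) (v (n + 1)))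

/-- The sequence with coordinates `v`. -/
noncomputable def Gv (W : ℕ → ℕ → ℝ) (v : ℕ → V) (n : ℕ) : V := st G W v n n

/-- One coordinate of a sequence which is `Z a` for `a ≤ n` and `x` at time `n + 1`. -/
noncomputable def crd1 (W : ℕ → ℕ → ℝ) (t n : ℕ) (Z : ℕ → V) (x : V) : V :=
  Afac G W t n (obs G Z n) x • (x - Z n)

/-- The coordinates of the sequence `Z`. -/
noncomputable def crd (W : ℕ → ℕ → ℝ) (Z : ℕ → V) : ℕ → V
  | 0 => Z 0
  | n + 1 => crd1 G W 0 n Z (Z (n + 1))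

/-- The sequence with coordinates `v`, the last step truncated. -/
noncomputable def Gt (W : ℕ → ℕ → ℝ) (t : ℕ) (v : ℕ → V) : ℕ → V
  | 0 => v 0
  | n + 1 => nxt G W t n (st G W v n) (v (n + 1))

/-- Multiplication in coordinates, the last step truncated. -/
noncomputable def Fm (W : ℕ → ℕ → ℝ) (t : ℕ) (v v' : ℕ → V) : ℕ → V
  | 0 => T.op (v 0) (v' 0)
  | n + 1 => crd1 G W t n (fun a => T.op (Gv G W v a) (Gv G W v' a))
      (T.op (Gt G W t v (n + 1)) (Gt G W t v' (n + 1)))

/-- Inversion in coordinates, the last step truncated. -/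
noncomputable def Fi (W : ℕ → ℕ → ℝ) (t : ℕ) (v : ℕ → V) : ℕ → V
  | 0 => T.iv (v 0)
  | n + 1 => crd1 G W t n (fun a => T.iv (Gv G W v a)) (T.iv (Gt G W t v (n + 1)))

variable (T) in
/-- Histories of length `n + 1`. -/
abbrev Hist (n : ℕ) : Type := (a : Fin (n + 1)) → T.E (a : ℕ)

variable (T) in
/-- The sequence which extends a history by zero. -/
noncomputable def ext (n : ℕ) (z : Hist T n) : ℕ → V :=
  fun a => if h : a < n + 1 then ((z ⟨a, h⟩ : T.E a) : V) else 0

variable (T) in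
/-- An element of `V` as an element of `E n` (zero if it is not in `E n`). -/
noncomputable def toE (n : ℕ) (y : V) : T.E n := by
  classical
  exact if h : y ∈ T.E n then ⟨y, h⟩ else 0

variable (T) in
/-- The boxes. -/
def Box (W : ℕ → ℕ → ℝ) (n k : ℕ) : Set (Hist T n) :=
  {z | ∀ a : Fin (n + 1), ‖z a‖ ≤ n * W (k + 1) a}

/-- All iterated tangent maps of `Φ` of order at most `l` are bounded by `C` on the box `B`. -/
def TBd {F : Type} [NormedAddCommGroup F] [NormedSpace ℝ F] : ℕ → ∀ (S : Type)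
    [NormedAddCommGroup S] [NormedSpace ℝ S], (S → F) → Set S → ℝ → Prop
  | 0, _, _, _, Φ, B, C => ∀ z ∈ B, ‖Φ z‖ ≤ C
  | l + 1, S, _, _, Φ, B, C => (∀ z ∈ B, ‖Φ z‖ ≤ C) ∧
      TBd l (S × S) (fun z => fderiv ℝ Φ z.1 z.2) (B ×ˢ B) C

variable (T) in
/-- The finitely supported sequences `v` with `v n ∈ E n`. -/
def MSub : Submodule ℝ (ℕ →₀ V) where
  carrier := {v | ∀ n, v n ∈ T.E n}
  add_mem' := fun {a b} ha hb n => by
    rw [Finsupp.add_apply]
    exact (T.E n).add_mem (ha n) (hb n)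
  zero_mem' := fun n => by
    rw [Finsupp.zero_apply]
    exact (T.E n).zero_mem
  smul_mem' := fun c a ha n => by
    rw [Finsupp.smul_apply]
    exact (T.E n).smul_mem c (ha n)

variable (T) in
/-- The model space (its topology depends on the weights `W`). -/
def Md (W : ℕ → ℕ → ℝ) : Type := (fun _ : ℕ → ℕ → ℝ => ↥(MSub T)) W

variable (W : ℕ → ℕ → ℝ)

noncomputable instance : AddCommGroup (Md T W) := inferInstanceAs (AddCommGroup ↥(MSub T))
noncomputable instance : Module ℝ (Md T W) := inferInstanceAs (Module ℝ ↥(MSub T))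

/-- the `n`-th coordinate -/
def Md.c {W : ℕ → ℕ → ℝ} (v : Md T W) (n : ℕ) : V := (show ↥(MSub T) from v).1 n

end Pool.Agent.Lib.MP_862e0f_al.EV
end

section

/-!
# Observers (TASK EV Ob)

Proofs are direct. `Good.step`: `mem`: `E` is monotone. `diag`: for `n < j` both sides are `x`
(`updst_gt`). `near`: for `j > n` the difference is `0`; for `j ≤ n` put `u = G.upd j n (x - s j)`;
then `x - updst G n s x j = (1 - u) • (x - s j)`; if `tc (n + 1) ≤ N j (x - s j)` then `u = 1`,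
otherwise `N j ((1 - u) • (x - s j)) ≤ N j (x - s j) < tc (n + 1)` as `0 ≤ 1 - u ≤ 1`.
-/

set_option autoImplicit false

namespace Pool.Agent.Lib.MP_862e0f_al.EV

open Filter Topology Set
open scoped ContDiff

variable {V : Type} [NormedAddCommGroup V] [NormedSpace ℝ V] {T : Tower V} (G : Gear T)

theorem N_mono (T : Tower V) {j k : ℕ} (h : j ≤ k) (x : V) : T.N j x ≤ T.N k x := by
  refine monotone_nat_of_le_succ (f := fun k => T.N k x) (fun k => ?_) h
  have h1 := T.N_two k x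
  have h2 : 0 ≤ T.N k x := apply_nonneg _ _
  show T.N k x ≤ T.N (k + 1) x
  linarith

/-- `2 ^ (k - j) * N j ≤ N k` -/
theorem N_pow (T : Tower V) (j i : ℕ) (x : V) : 2 ^ i * T.N j x ≤ T.N (j + i) x := by
  induction i with
  | zero => simp
  | succ i ih =>
    have h1 := T.N_two (j + i) x
    rw [pow_succ, ← add_assoc]
    linarith

theorem updst_le {n j : ℕ} (h : j ≤ n) (s : ℕ → V) (x : V) :
    updst G n s x j = s j + G.upd j n (x - s j) • (x - s j) := if_pos h

theorem updst_gt {n j : ℕ} (h : n < j) (s : ℕ → V) (x : V) : updst G n s x j = x :=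
  if_neg (by omega)

theorem updst_keep {n j : ℕ} {s : ℕ → V} {x : V} (hs : ∀ j, s j ∈ T.E n)
    (hx : x ∈ T.E (n + 1)) (hj : j ≤ n) (h : T.N j (x - s j) ≤ tb n) :
    updst G n s x j = s j := by
  have h1 : x - s j ∈ T.E (n + 1) := (T.E (n + 1)).sub_mem hx (T.mono (Nat.le_succ n) (hs j))
  rw [updst_le G hj, G.upd_zero j n _ h1 h, zero_smul, add_zero]

theorem updst_mem {n : ℕ} {s : ℕ → V} {x : V} (hs : ∀ j, s j ∈ T.E n)
    (hx : x ∈ T.E (n + 1)) (j : ℕ) : updst G n s x j ∈ T.E (n + 1) := by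
  have h0 : s j ∈ T.E (n + 1) := T.mono (Nat.le_succ n) (hs j)
  rcases le_or_gt j n with h | h
  · rw [updst_le G h]
    exact (T.E (n + 1)).add_mem h0 ((T.E (n + 1)).smul_mem _ ((T.E (n + 1)).sub_mem hx h0))
  · rw [updst_gt G h]
    exact hx

theorem Good.zero {x : V} (hx : x ∈ T.E 0) : Good T 0 (fun _ => x) := by
  refine ⟨fun _ => hx, fun _ _ => rfl, fun j => ?_⟩
  rw [sub_self, map_zero]
  exact (tc_pos 0).le

theorem Good.step {n : ℕ} {s : ℕ → V} {x : V} (hs : Good T n s) (hx : x ∈ T.E (n + 1)) :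
    Good T (n + 1) (updst G n s x) := by
  refine ⟨updst_mem G hs.mem hx, fun j hj => ?_, fun j => ?_⟩
  · rw [updst_gt G (by omega), updst_gt G (by omega)]
  · rw [updst_gt G (Nat.lt_succ_self n)]
    rcases le_or_gt j n with h | h
    · rw [updst_le G h]
      have h0 : x - s j ∈ T.E (n + 1) :=
        (T.E (n + 1)).sub_mem hx (T.mono (Nat.le_succ n) (hs.mem j))
      have h1 : x - (s j + G.upd j n (x - s j) • (x - s j)) =
          (1 - G.upd j n (x - s j)) • (x - s j) := by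
        rw [sub_smul, one_smul]
        abel
      rw [h1, map_smul_eq_mul, Real.norm_eq_abs]
      have h2 := G.upd_nonneg j n (x - s j)
      have h3 := G.upd_le_one j n (x - s j)
      have h4 : 0 ≤ T.N j (x - s j) := apply_nonneg _ _
      rw [abs_of_nonneg (by linarith)]
      rcases le_or_gt (tc (n + 1)) (T.N j (x - s j)) with h5 | h5
      · rw [G.upd_one j n _ h0 h5, sub_self, zero_mul]
        exact (tc_pos _).le
      · nlinarith
    · rw [updst_gt G h, sub_self, map_zero]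
      exact (tc_pos _).le

theorem obs_good {Z : ℕ → V} (hZ : ∀ n, Z n ∈ T.E n) : ∀ n, Good T n (obs G Z n) := by
  intro n
  induction n with
  | zero => exact Good.zero (hZ 0)
  | succ n ih => exact Good.step G ih (hZ (n + 1))

theorem obs_diag (Z : ℕ → V) {n j : ℕ} (h : n ≤ j) : obs G Z n j = Z n := by
  cases n with
  | zero => rfl
  | succ n => exact updst_gt G (by omega) _ _

theorem obs_zero (n j : ℕ) : obs G (fun _ => (0 : V)) n j = 0 := by
  induction n generalizing j with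
  | zero => rfl
  | succ n ih =>
    show updst G n (obs G (fun _ => (0 : V)) n) 0 j = 0
    rcases le_or_gt j n with h | h
    · rw [updst_le G h, ih, sub_self, smul_zero, add_zero]
    · rw [updst_gt G h]

theorem obs_congr {Z Z' : ℕ → V} {n : ℕ} (h : ∀ a, a ≤ n → Z a = Z' a) :
    obs G Z n = obs G Z' n := by
  induction n with
  | zero =>
    show (fun _ => Z 0) = fun _ => Z' 0
    rw [h 0 le_rfl]
  | succ n ih =>
    show updst G n (obs G Z n) (Z (n + 1)) = updst G n (obs G Z' n) (Z' (n + 1))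
    rw [ih fun a ha => h a (by omega), h (n + 1) le_rfl]

end Pool.Agent.Lib.MP_862e0f_al.EV
end

section

/-!
# The radial equation (TASK EV Rad)

Proof. For fixed `x` the function `φ t = t * A (x, t)` has derivative
`A (x, t) + t * deriv (fun s => A (x, s)) t ≥ 1`, so it is strictly increasing; `φ 0 = 0` and
`φ 1 ≥ 1`, so there is exactly one `t = τ x` with `φ t = 1` (intermediate value theorem on
`[0, 1]`). Smoothness of `τ`: the equation `t * A (x, t) = 1` is a smooth implicit equation whose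
derivative with respect to `t` is nonzero, so Mathlib's `ContDiffAt.implicitFunction` gives near each
`x₀` a smooth solution, and near `x₀` it agrees with `τ` by uniqueness.
(`X` is finite-dimensional, hence complete.)
-/

set_option autoImplicit false

namespace Pool.Agent.Lib.MP_862e0f_al.EV

open Filter Topology Set
open scoped ContDiff

theorem exists_radial {X : Type} [NormedAddCommGroup X] [NormedSpace ℝ X] [FiniteDimensional ℝ X]
    (A : X × ℝ → ℝ) (hA : ContDiff ℝ ∞ A) (h1 : ∀ z, 1 ≤ A z)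
    (h2 : ∀ x t, 0 ≤ t * deriv (fun s => A (x, s)) t) :
    ∃ τ : X → ℝ, ContDiff ℝ ∞ τ ∧ (∀ x, τ x * A (x, τ x) = 1) ∧
      ∀ x t, t * A (x, t) = 1 → t = τ x := by
  have : CompleteSpace X := FiniteDimensional.complete ℝ X
  -- the slices
  have hslice : ∀ x : X, ContDiff ℝ ∞ (fun s : ℝ => A (x, s)) := fun x =>
    hA.comp (contDiff_const.prodMk contDiff_id)
  have hdiff : ∀ (x : X) (t : ℝ), HasDerivAt (fun s : ℝ => A (x, s))
      (deriv (fun s : ℝ => A (x, s)) t) t := fun x t =>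
    ((hslice x).differentiable (by simp) t).hasDerivAt
  have hφ : ∀ (x : X) (t : ℝ), HasDerivAt (fun s : ℝ => s * A (x, s))
      (1 * A (x, t) + t * deriv (fun s : ℝ => A (x, s)) t) t := fun x t =>
    (hasDerivAt_id' t).mul (hdiff x t)
  have hpos : ∀ (x : X) (t : ℝ), 0 < 1 * A (x, t) + t * deriv (fun s : ℝ => A (x, s)) t := by
    intro x t
    have := h1 (x, t)
    have := h2 x t
    linarith
  have hmono : ∀ x : X, StrictMono (fun s : ℝ => s * A (x, s)) := by
    intro x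
    apply strictMono_of_deriv_pos
    intro t
    rw [(hφ x t).deriv]
    exact hpos x t
  have hcont : ∀ x : X, Continuous (fun s : ℝ => s * A (x, s)) := fun x =>
    continuous_id.mul (hslice x).continuous
  have hex : ∀ x : X, ∃ t : ℝ, t * A (x, t) = 1 := by
    intro x
    have h := intermediate_value_Icc (zero_le_one' ℝ) (hcont x).continuousOn
    have h1' : (1 : ℝ) ∈ Icc ((fun s : ℝ => s * A (x, s)) 0) ((fun s : ℝ => s * A (x, s)) 1) := by
      constructor
      · simp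
      · simpa using h1 (x, 1)
    obtain ⟨t, -, ht⟩ := h h1'
    exact ⟨t, ht⟩
  choose τ hτ using hex
  have huniq : ∀ (x : X) (t : ℝ), t * A (x, t) = 1 → t = τ x := by
    intro x t ht
    apply (hmono x).injective
    show t * A (x, t) = τ x * A (x, τ x)
    rw [ht, hτ x]
  refine ⟨τ, ?_, hτ, huniq⟩
  rw [contDiff_iff_contDiffAt]
  intro x₀
  set f : X × ℝ → ℝ := fun z => z.2 * A z with hf
  have hfs : ContDiff ℝ ∞ f := contDiff_snd.mul hA
  set u : X × ℝ := (x₀, τ x₀) with hu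
  have cdf : ContDiffAt ℝ ∞ f u := hfs.contDiffAt
  have pn : (∞ : ℕ∞ω) ≠ 0 := by simp
  set c : ℝ := 1 * A (x₀, τ x₀) + τ x₀ * deriv (fun s : ℝ => A (x₀, s)) (τ x₀) with hc
  have hc0 : c ≠ 0 := (hpos x₀ (τ x₀)).ne'
  have hfd : HasFDerivAt f (fderiv ℝ f u) u := (hfs.differentiable (by simp) u).hasFDerivAt
  have hcomp : HasDerivAt (fun s : ℝ => f (x₀, s)) ((fderiv ℝ f u) ((0 : X), (1 : ℝ))) (τ x₀) := by
    have h3 : HasDerivAt (fun s : ℝ => ((x₀, s) : X × ℝ)) ((0 : X), (1 : ℝ)) (τ x₀) :=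
      (hasDerivAt_const (τ x₀) x₀).prodMk (hasDerivAt_id' (τ x₀))
    exact HasFDerivAt.comp_hasDerivAt (τ x₀) hfd h3
  have hval : (fderiv ℝ f u) ((0 : X), (1 : ℝ)) = c := hcomp.unique (hφ x₀ (τ x₀))
  have hmap : (fderiv ℝ f u ∘L .inr ℝ X ℝ) =
      ((ContinuousLinearEquiv.unitsEquivAut ℝ (Units.mk0 c hc0) : ℝ ≃L[ℝ] ℝ) : ℝ →L[ℝ] ℝ) := by
    ext
    simp [hval]
  have if₂ : (fderiv ℝ f u ∘L .inr ℝ X ℝ).IsInvertible := ⟨_, hmap.symm⟩
  have hsm := cdf.contDiffAt_implicitFunction pn if₂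
  refine hsm.congr_of_eventuallyEq ?_
  filter_upwards [cdf.eventually_apply_implicitFunction pn if₂] with x hx
  have hfu : f u = 1 := hτ x₀
  rw [hfu] at hx
  exact (huniq x _ hx).symm

end Pool.Agent.Lib.MP_862e0f_al.EV
end

section

/-!
# The step of the inverse chart (TASK EV Nx)

Proofs. `Afac_ray`: the derivative of `r ↦ Afac (s n + r • v)` is
`∑ j, D n * W j (n+1) * fderiv ℝ (pen j n) (s n + r • v - s j) v`; multiplied by `r` every term is
`≥ 0` by `Gear.pen_ray` with `x = s n - s j` (its `N j` is `≤ tc n ≤ ta n` by `Good.near`) and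
`w = r • v`. `tau_spec`, `tau_unique`: apply `exists_radial` with `X = ℝ` (say) and
`A (_, r) = Afac (s n + r • v)`. `nxt_eq`: with `r = tau ..`, `nxt - s n = r • v` and
`Afac (nxt) * r = 1`. `nxt_unique`: with `r = (Afac x)⁻¹` we have `x = s n + r • v` and
`r * Afac (s n + r • v) = 1`, so `r = tau ..`.
`no_update`: suppose `tb n ≤ N j (x - s j)`, `x = nxt ..`. Then `pen j n (x - s j) = 1`, hence
`D n * W j (n + 1) ≤ Afac x` and from `Afac x • (x - s n) = v`:
`D n * W j (n + 1) * ‖x - s n‖ ≤ ‖v‖ < W j (n + 1)`, so `D n * ‖x - s n‖ < 1`,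
`N j (x - s n) ≤ N (n + 1) (x - s n) ≤ (tb n - tc n) * D n * ‖x - s n‖ < tb n - tc n`, and
`N j (x - s j) ≤ N j (x - s n) + N j (s n - s j) < tb n`, a contradiction.
-/

set_option autoImplicit false

namespace Pool.Agent.Lib.MP_862e0f_al.EV

open Filter Topology Set
open scoped ContDiff

variable {V : Type} [NormedAddCommGroup V] [NormedSpace ℝ V] {T : Tower V} (G : Gear T)
  {W : ℕ → ℕ → ℝ}

theorem one_le_Afac (hW : ∀ k n, 0 ≤ W k n) (t n : ℕ) (s : ℕ → V) (x : V) :
    1 ≤ Afac G W t n s x := by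
  unfold Afac
  have h : 0 ≤ ∑ j ∈ Finset.Ico t (n + 1), G.D n * W j (n + 1) * G.pen j n (x - s j) :=
    Finset.sum_nonneg fun j _ =>
      mul_nonneg (mul_nonneg (G.D_pos n).le (hW _ _)) (G.pen_nonneg _ _ _)
  linarith

/-- if the penalties of the levels `j ≤ k` vanish, they can be left out -/
theorem Afac_trunc (t n : ℕ) (s : ℕ → V) (x : V) (h : ∀ j, j < t → j ≤ n →
    G.pen j n (x - s j) = 0) : Afac G W 0 n s x = Afac G W t n s x := by
  unfold Afac
  congr 1
  symm
  refine Finset.sum_subset ?_ fun j hj hj' => ?_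
  · intro j hj
    rw [Finset.mem_Ico] at hj ⊢
    exact ⟨Nat.zero_le _, hj.2⟩
  · rw [Finset.mem_Ico] at hj hj'
    rw [h j (by omega) (by omega), mul_zero]

private theorem Nx_hasDeriv (t n : ℕ) (s : ℕ → V) (v : V) (r : ℝ) :
    HasDerivAt (fun r : ℝ => Afac G W t n s (s n + r • v))
      (∑ j ∈ Finset.Ico t (n + 1), G.D n * W j (n + 1) *
        fderiv ℝ (G.pen j n) (s n - s j + r • v) v) r := by
  unfold Afac
  refine HasDerivAt.const_add _ ?_
  have h : ∀ j ∈ Finset.Ico t (n + 1), HasDerivAt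
      (fun r : ℝ => G.D n * W j (n + 1) * G.pen j n (s n + r • v - s j))
      (G.D n * W j (n + 1) * fderiv ℝ (G.pen j n) (s n - s j + r • v) v) r := by
    intro j _
    refine HasDerivAt.const_mul _ ?_
    have h1 : DifferentiableAt ℝ (G.pen j n) (s n - s j + r • v) :=
      ((G.pen_smooth j n).differentiable (by simp)).differentiableAt
    have h2 : HasDerivAt (fun r : ℝ => s n - s j + r • v) v r := by
      have := ((hasDerivAt_id r).smul_const v).const_add (s n - s j)
      simpa using this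
    have h3 := h1.hasFDerivAt.comp_hasDerivAt r h2
    have h4 : (fun r : ℝ => G.pen j n (s n + r • v - s j)) =
        (G.pen j n) ∘ (fun r : ℝ => s n - s j + r • v) := by
      funext r
      rw [Function.comp_apply]
      congr 1
      abel
    rw [h4]
    exact h3
  have := HasDerivAt.fun_sum h
  exact this

theorem Afac_ray (hW : ∀ k n, 0 ≤ W k n) {t n : ℕ} {s : ℕ → V} (hs : Good T n s) {v : V}
    (hv : v ∈ T.E (n + 1)) (r : ℝ) :
    0 ≤ r * deriv (fun r : ℝ => Afac G W t n s (s n + r • v)) r := by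
  rw [(Nx_hasDeriv G t n s v r).deriv, Finset.mul_sum]
  refine Finset.sum_nonneg fun j _ => ?_
  have h1 := G.pen_ray j n (s n - s j) (r • v)
    (T.mono (Nat.le_succ n) ((T.E n).sub_mem (hs.mem n) (hs.mem j)))
    ((T.E (n + 1)).smul_mem r hv) ((hs.near j).trans (tc_lt_ta n).le)
  rw [map_smul, smul_eq_mul] at h1
  have h2 : 0 ≤ G.D n * W j (n + 1) := mul_nonneg (G.D_pos n).le (hW _ _)
  have h3 := mul_nonneg h2 h1
  linarith

private theorem Nx_radial (hW : ∀ k n, 0 ≤ W k n) {t n : ℕ} {s : ℕ → V} (hs : Good T n s) {v : V}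
    (hv : v ∈ T.E (n + 1)) : ∃ τ : ℝ, τ * Afac G W t n s (s n + τ • v) = 1 ∧
      ∀ r, r * Afac G W t n s (s n + r • v) = 1 → r = τ := by
  have hA : ContDiff ℝ ∞ (fun z : ℝ × ℝ => Afac G W t n s (s n + z.2 • v)) := by
    unfold Afac
    refine contDiff_const.add (ContDiff.sum fun j _ => contDiff_const.mul ?_)
    refine (G.pen_smooth j n).comp ?_
    exact (contDiff_const.add (contDiff_snd.smul contDiff_const)).sub contDiff_const
  obtain ⟨τ, -, h1, h2⟩ := exists_radial (X := ℝ)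
    (fun z : ℝ × ℝ => Afac G W t n s (s n + z.2 • v)) hA
    (fun z => one_le_Afac G hW t n s _) (fun x r => Afac_ray G hW hs hv r)
  exact ⟨τ 0, h1 0, fun r hr => h2 0 r hr⟩

theorem tau_spec (hW : ∀ k n, 0 ≤ W k n) {t n : ℕ} {s : ℕ → V} (hs : Good T n s) {v : V}
    (hv : v ∈ T.E (n + 1)) : tau (fun r => Afac G W t n s (s n + r • v)) *
      Afac G W t n s (s n + tau (fun r => Afac G W t n s (s n + r • v)) • v) = 1 := by
  obtain ⟨τ, h1, -⟩ := Nx_radial G hW (t := t) hs hv
  exact Classical.epsilon_spec (p := fun r => r * Afac G W t n s (s n + r • v) = 1) ⟨τ, h1⟩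

theorem tau_unique (hW : ∀ k n, 0 ≤ W k n) {t n : ℕ} {s : ℕ → V} (hs : Good T n s) {v : V}
    (hv : v ∈ T.E (n + 1)) {r : ℝ} (h : r * Afac G W t n s (s n + r • v) = 1) :
    r = tau (fun r => Afac G W t n s (s n + r • v)) := by
  obtain ⟨τ, -, h2⟩ := Nx_radial G hW (t := t) hs hv
  rw [h2 r h, ← h2 _ (tau_spec G hW hs hv)]

theorem nxt_mem {t n : ℕ} {s : ℕ → V} (hs : ∀ j, s j ∈ T.E n) {v : V}
    (hv : v ∈ T.E (n + 1)) : nxt G W t n s v ∈ T.E (n + 1) :=
  (T.E (n + 1)).add_mem (T.mono (Nat.le_succ n) (hs n)) ((T.E (n + 1)).smul_mem _ hv)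

theorem nxt_zero (t n : ℕ) (s : ℕ → V) : nxt G W t n s 0 = s n := by
  unfold nxt
  rw [smul_zero, add_zero]

theorem nxt_eq (hW : ∀ k n, 0 ≤ W k n) {t n : ℕ} {s : ℕ → V} (hs : Good T n s) {v : V}
    (hv : v ∈ T.E (n + 1)) :
    Afac G W t n s (nxt G W t n s v) • (nxt G W t n s v - s n) = v := by
  have h := tau_spec G hW (t := t) hs hv
  unfold nxt
  rw [add_sub_cancel_left, smul_smul, mul_comm, h, one_smul]

theorem nxt_unique (hW : ∀ k n, 0 ≤ W k n) {t n : ℕ} {s : ℕ → V} (hs : Good T n s) {x : V}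
    (hx : x ∈ T.E (n + 1)) : nxt G W t n s (Afac G W t n s x • (x - s n)) = x := by
  have h1 : 0 < Afac G W t n s x := lt_of_lt_of_le one_pos (one_le_Afac G hW t n s x)
  have hv : Afac G W t n s x • (x - s n) ∈ T.E (n + 1) :=
    (T.E (n + 1)).smul_mem _ ((T.E (n + 1)).sub_mem hx (T.mono (Nat.le_succ n) (hs.mem n)))
  have h2 : s n + (Afac G W t n s x)⁻¹ • (Afac G W t n s x • (x - s n)) = x := by
    rw [smul_smul, inv_mul_cancel₀ h1.ne', one_smul, add_sub_cancel]
  have h3 := tau_unique G hW hs hv (t := t) (r := (Afac G W t n s x)⁻¹) (by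
    rw [h2, inv_mul_cancel₀ h1.ne'])
  unfold nxt
  rw [← h3, h2]

theorem no_update (hW : ∀ k n, 0 < W k n) {j n : ℕ} (hj : j ≤ n) {s : ℕ → V} (hs : Good T n s)
    {v : V} (hv : v ∈ T.E (n + 1)) (h : ‖v‖ < W j (n + 1)) :
    T.N j (nxt G W 0 n s v - s j) < tb n := by
  by_contra hcon
  rw [not_lt] at hcon
  have hW' : ∀ k n, 0 ≤ W k n := fun k n => (hW k n).le
  obtain ⟨x, hxd⟩ : ∃ x, x = nxt G W 0 n s v := ⟨_, rfl⟩
  have hx : x ∈ T.E (n + 1) := by
    rw [hxd]
    exact nxt_mem G hs.mem hv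
  have hsE : ∀ i, s i ∈ T.E (n + 1) := fun i => T.mono (Nat.le_succ n) (hs.mem i)
  have heq : Afac G W 0 n s x • (x - s n) = v := by
    rw [hxd]
    exact nxt_eq G hW' hs hv
  rw [← hxd] at hcon
  have h1 : G.pen j n (x - s j) = 1 := G.pen_one j n _ ((T.E (n + 1)).sub_mem hx (hsE j)) hcon
  have hD := G.D_pos n
  have h2 : G.D n * W j (n + 1) ≤ Afac G W 0 n s x := by
    unfold Afac
    have h3 : G.D n * W j (n + 1) * G.pen j n (x - s j) ≤
        ∑ j ∈ Finset.Ico 0 (n + 1), G.D n * W j (n + 1) * G.pen j n (x - s j) :=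
      Finset.single_le_sum (f := fun j => G.D n * W j (n + 1) * G.pen j n (x - s j))
        (fun i _ => mul_nonneg (mul_nonneg hD.le (hW' _ _)) (G.pen_nonneg _ _ _))
        (Finset.mem_Ico.mpr ⟨Nat.zero_le _, by omega⟩)
    rw [h1, mul_one] at h3
    linarith
  have h4 : G.D n * W j (n + 1) * ‖x - s n‖ ≤ ‖v‖ := by
    rw [← heq, norm_smul, Real.norm_of_nonneg (le_trans (mul_nonneg hD.le (hW' _ _)) h2)]
    exact mul_le_mul_of_nonneg_right h2 (norm_nonneg _)
  have h5 : G.D n * ‖x - s n‖ < 1 := by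
    have h6 : W j (n + 1) * (G.D n * ‖x - s n‖) < W j (n + 1) * 1 := by
      calc W j (n + 1) * (G.D n * ‖x - s n‖) = G.D n * W j (n + 1) * ‖x - s n‖ := by ring
        _ ≤ ‖v‖ := h4
        _ < W j (n + 1) * 1 := by rw [mul_one]; exact h
    exact lt_of_mul_lt_mul_left h6 (hW' _ _)
  have h7 : 0 < tb n - tc n := by
    have h8 := tc_lt_ta n
    have h9 := ta_lt_tb n
    linarith
  have h10 : T.N j (x - s n) < tb n - tc n := by
    calc T.N j (x - s n) ≤ T.N (n + 1) (x - s n) := N_mono T (by omega) _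
      _ ≤ (tb n - tc n) * G.D n * ‖x - s n‖ :=
          G.D_spec n _ ((T.E (n + 1)).sub_mem hx (hsE n))
      _ = (tb n - tc n) * (G.D n * ‖x - s n‖) := by ring
      _ < (tb n - tc n) * 1 := mul_lt_mul_of_pos_left h5 h7
      _ = tb n - tc n := mul_one _
  have h11 : T.N j (x - s j) ≤ T.N j (x - s n) + T.N j (s n - s j) := by
    have h12 : x - s j = (x - s n) + (s n - s j) := by abel
    rw [h12]
    exact map_add_le_add (T.N j) _ _
  have h13 := hs.near j
  linarith

end Pool.Agent.Lib.MP_862e0f_al.EV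
end

section

/-!
# The charts are inverse to each other (TASK EV Iv)

Proofs. `st_good` by induction (`Good.zero`, `Good.step`, `nxt_mem`). `obs_Gv` by induction:
`Gv v (n + 1) = st v (n + 1) (n + 1) = nxt .. ` by `updst_gt`, so
`obs (Gv v) (n + 1) = updst n (obs (Gv v) n) (Gv v (n + 1)) = updst n (st v n) (nxt ..)`.
`crd_Gv`: `crd (Gv v) (n + 1) = Afac (obs (Gv v) n) (Gv v (n + 1)) • (Gv v (n + 1) - Gv v n)`, use
`obs_Gv` and `nxt_eq` (`Gv v n = st v n n`). `Gv_crd`: prove `st (crd Z) n = obs Z n` by induction: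
`nxt 0 n (obs Z n) (crd Z (n + 1)) = Z (n + 1)` by `nxt_unique` and `obs_diag`; then
`Gv (crd Z) n = obs Z n n = Z n`. `Gv_const`: by induction, `nxt_zero`.
-/

set_option autoImplicit false

namespace Pool.Agent.Lib.MP_862e0f_al.EV

open Filter Topology Set
open scoped ContDiff

variable {V : Type} [NormedAddCommGroup V] [NormedSpace ℝ V] {T : Tower V} (G : Gear T)
  {W : ℕ → ℕ → ℝ}

theorem st_good {v : ℕ → V} (hv : ∀ n, v n ∈ T.E n) (n : ℕ) : Good T n (st G W v n) := by
  induction n with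
  | zero => exact Good.zero (hv 0)
  | succ n ih => exact Good.step G ih (nxt_mem G ih.mem (hv (n + 1)))

theorem Gv_zero (v : ℕ → V) : Gv G W v 0 = v 0 := rfl

theorem Gv_succ (v : ℕ → V) (n : ℕ) :
    Gv G W v (n + 1) = nxt G W 0 n (st G W v n) (v (n + 1)) := by
  show updst G n (st G W v n) (nxt G W 0 n (st G W v n) (v (n + 1))) (n + 1) = _
  rw [updst_gt G (Nat.lt_succ_self n)]

theorem Gv_mem {v : ℕ → V} (hv : ∀ n, v n ∈ T.E n) (n : ℕ) : Gv G W v n ∈ T.E n :=
  (st_good G hv n).mem n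

theorem obs_Gv (v : ℕ → V) (n : ℕ) : obs G (Gv G W v) n = st G W v n := by
  induction n with
  | zero => rfl
  | succ n ih =>
    show updst G n (obs G (Gv G W v) n) (Gv G W v (n + 1)) =
      updst G n (st G W v n) (nxt G W 0 n (st G W v n) (v (n + 1)))
    rw [ih, Gv_succ]

theorem crd1_mem {Z : ℕ → V} {t n : ℕ} (hZ : Z n ∈ T.E n) {x : V} (hx : x ∈ T.E (n + 1)) :
    crd1 G W t n Z x ∈ T.E (n + 1) :=
  (T.E (n + 1)).smul_mem _ ((T.E (n + 1)).sub_mem hx (T.mono (Nat.le_succ n) hZ))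

theorem crd_mem {Z : ℕ → V} (hZ : ∀ n, Z n ∈ T.E n) (n : ℕ) : crd G W Z n ∈ T.E n := by
  cases n with
  | zero => exact hZ 0
  | succ n => exact crd1_mem G (hZ n) (hZ (n + 1))

theorem crd_Gv (hW : ∀ k n, 0 ≤ W k n) {v : ℕ → V} (hv : ∀ n, v n ∈ T.E n) :
    crd G W (Gv G W v) = v := by
  funext n
  cases n with
  | zero => rfl
  | succ n =>
    show Afac G W 0 n (obs G (Gv G W v) n) (Gv G W v (n + 1)) • (Gv G W v (n + 1) - Gv G W v n) =
      v (n + 1)
    rw [obs_Gv, Gv_succ]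
    exact nxt_eq G hW (st_good G hv n) (hv (n + 1))

theorem Gv_crd (hW : ∀ k n, 0 ≤ W k n) {Z : ℕ → V} (hZ : ∀ n, Z n ∈ T.E n) :
    Gv G W (crd G W Z) = Z := by
  have key : ∀ n, st G W (crd G W Z) n = obs G Z n := by
    intro n
    induction n with
    | zero => rfl
    | succ n ih =>
      show updst G n (st G W (crd G W Z) n) (nxt G W 0 n (st G W (crd G W Z) n)
        (Afac G W 0 n (obs G Z n) (Z (n + 1)) • (Z (n + 1) - Z n))) =
        updst G n (obs G Z n) (Z (n + 1))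
      have h1 := nxt_unique G hW (t := 0) (obs_good G hZ n) (hZ (n + 1))
      rw [obs_diag G Z le_rfl] at h1
      rw [ih, h1]
  funext n
  show st G W (crd G W Z) n n = Z n
  rw [key, obs_diag G Z le_rfl]

theorem Gv_const {v : ℕ → V} {n₀ : ℕ} (h : ∀ n, n₀ < n → v n = 0) {n : ℕ} (hn : n₀ ≤ n) :
    Gv G W v n = Gv G W v n₀ := by
  induction n, hn using Nat.le_induction with
  | base => rfl
  | succ n hn ih =>
    rw [Gv_succ, h (n + 1) (by omega), nxt_zero]
    exact ih

theorem crd_const {Z : ℕ → V} {n : ℕ} (h : Z (n + 1) = Z n) : crd G W Z (n + 1) = 0 := by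
  show Afac G W 0 n (obs G Z n) (Z (n + 1)) • (Z (n + 1) - Z n) = 0
  rw [h, sub_self, smul_zero]

theorem Gt_zero (v : ℕ → V) : Gt G W 0 v = Gv G W v := by
  funext n
  cases n with
  | zero => rfl
  | succ n =>
    rw [Gv_succ]
    rfl

theorem Gt_mem {t : ℕ} {v : ℕ → V} (hv : ∀ n, v n ∈ T.E n) (n : ℕ) : Gt G W t v n ∈ T.E n := by
  cases n with
  | zero => exact hv 0
  | succ n => exact nxt_mem G (st_good G hv n).mem (hv (n + 1))

theorem Fm_mem {t : ℕ} {v v' : ℕ → V} (hv : ∀ n, v n ∈ T.E n) (hv' : ∀ n, v' n ∈ T.E n)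
    (n : ℕ) : Fm G W t v v' n ∈ T.E n := by
  cases n with
  | zero => exact T.op_mem 0 _ _ (hv 0) (hv' 0)
  | succ n =>
    exact crd1_mem G (T.op_mem n _ _ (Gv_mem G hv n) (Gv_mem G hv' n))
      (T.op_mem (n + 1) _ _ (Gt_mem G hv (n + 1)) (Gt_mem G hv' (n + 1)))

theorem Fi_mem {t : ℕ} {v : ℕ → V} (hv : ∀ n, v n ∈ T.E n) (n : ℕ) : Fi G W t v n ∈ T.E n := by
  cases n with
  | zero => exact T.iv_mem 0 _ (hv 0)
  | succ n =>
    exact crd1_mem G (T.iv_mem n _ (Gv_mem G hv n)) (T.iv_mem (n + 1) _ (Gt_mem G hv (n + 1)))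

/-- the full map is the chart of the product -/
theorem Fm_eq_crd (v v' : ℕ → V) (n : ℕ) : Fm G W 0 v v' n =
    crd G W (fun a => T.op (Gv G W v a) (Gv G W v' a)) n := by
  cases n with
  | zero => rfl
  | succ n =>
    show crd1 G W 0 n (fun a => T.op (Gv G W v a) (Gv G W v' a))
      (T.op (Gt G W 0 v (n + 1)) (Gt G W 0 v' (n + 1))) = _
    rw [Gt_zero, Gt_zero]
    rfl

theorem Fi_eq_crd (v : ℕ → V) (n : ℕ) : Fi G W 0 v n =
    crd G W (fun a => T.iv (Gv G W v a)) n := by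
  cases n with
  | zero => rfl
  | succ n =>
    show crd1 G W 0 n (fun a => T.iv (Gv G W v a)) (T.iv (Gt G W 0 v (n + 1))) = _
    rw [Gt_zero]
    rfl

end Pool.Agent.Lib.MP_862e0f_al.EV
end

section

/-!
# Special elements (TASK EV EL)

`exists_el`: the map is in `Es (max i l)`: coordinate `i` is `∑ m, q.coeff m * x l ^ m`, a linear combination of
the functions `mo (single l m)`, `m ≤ natDegree q`, of weight `m * (1/2)^l < (1/2)^i`; the other coordinates are `0`.

`exists_poly`: by Weierstrass' theorem (`exists_polynomial_near_of_continuousOn`) there is a polynomial `q` with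
`|q x - φ x| < 1/8` on `[-R, R]`, `φ x = max 0 (min 1 (x / r))`. Then `p x = (q x - q 0) / (q r - q 0)`: `|q r - q 0| ≥ 1 - 1/4`,
`|q x - q 0| ≤ 1 + 1/4`, so `|p x| ≤ 2`.
-/

set_option autoImplicit false

namespace Pool.Agent.Lib.MP_862e0f_al.EV

theorem exists_el (i l : ℕ) (q : Polynomial ℝ) (h : (q.natDegree : ℝ) * (1 / 2) ^ l < (1 / 2) ^ i) :
    ∃ F : Vb, ∀ x j, F.f x j = if j = i then q.eval (x l) else 0 := by
  have key : (fun x : ℕ → ℝ => q.eval (x l)) ∈ Cs (max i l) ((1 / 2) ^ i) := by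
    have e : (fun x : ℕ → ℝ => q.eval (x l)) =
        ∑ m ∈ Finset.range (q.natDegree + 1), q.coeff m • mo (Finsupp.single l m) := by
      funext x
      rw [Polynomial.eval_eq_sum_range, Finset.sum_apply]
      refine Finset.sum_congr rfl fun m _ => ?_
      have e3 : mo (Finsupp.single l m) x = x l ^ m :=
        Finsupp.prod_single_index (h := fun l a => x l ^ a) (pow_zero _)
      rw [Pi.smul_apply, smul_eq_mul, e3]
    rw [e]
    refine Submodule.sum_mem _ fun m hm => Submodule.smul_mem _ _ (Submodule.subset_span ?_)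
    refine ⟨Finsupp.single l m, fun l' hl' => ?_, ?_, rfl⟩
    · have : l = l' := by
        by_contra hne
        exact hl' (Finsupp.single_eq_of_ne (Ne.symm hne))
      rw [← this]
      exact le_max_right _ _
    · have e2 : wt (Finsupp.single l m) = (m : ℝ) * (1 / 2) ^ l := by
        rw [wt, Finsupp.sum_single_index]
        push_cast
        ring
      rw [e2]
      have hm' : m ≤ q.natDegree := Nat.lt_succ_iff.1 (Finset.mem_range.1 hm)
      have : (m : ℝ) ≤ q.natDegree := by exact_mod_cast hm'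
      exact lt_of_le_of_lt (mul_le_mul_of_nonneg_right this (by positivity)) h
  refine ⟨Vb.mk (fun x j => if j = i then q.eval (x l) else 0) ⟨max i l, ?_, ?_⟩, ?_⟩
  · intro j hj
    by_cases hji : j = i
    · subst hji
      simpa using key
    · have : (fun x : ℕ → ℝ => (fun (x : ℕ → ℝ) (j : ℕ) => if j = i then q.eval (x l) else 0) x j)
          = 0 := by
        funext x
        simp [hji]
      rw [this]
      exact (Cs _ _).zero_mem
  · intro j hj x
    have : j ≠ i := by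
      rintro rfl
      exact absurd (le_max_left j l) (not_le.2 hj)
    simp [this]
  · intro x j
    rfl

theorem exists_poly (R r : ℝ) (hr : 0 < r) (hR : r < R) : ∃ p : Polynomial ℝ, p.eval 0 = 0 ∧
    p.eval r = 1 ∧ ∀ x, |x| ≤ R → |p.eval x| ≤ 2 := by
  obtain ⟨q, hq⟩ := exists_polynomial_near_of_continuousOn (-R) R
    (fun x => max 0 (min 1 (x / r))) (by fun_prop) (1 / 8) (by norm_num)
  have h0 := hq 0 ⟨by linarith, by linarith⟩
  have hr1 := hq r ⟨by linarith, by linarith⟩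
  have e0 : max (0 : ℝ) (min 1 (0 / r)) = 0 := by simp
  have e1 : max (0 : ℝ) (min 1 (r / r)) = 1 := by
    rw [div_self hr.ne']; simp
  rw [e0, sub_zero] at h0
  rw [e1] at hr1
  rw [abs_lt] at h0 hr1
  have hc : 3 / 4 ≤ q.eval r - q.eval 0 := by linarith [h0.1, h0.2, hr1.1, hr1.2]
  have hc0 : 0 < q.eval r - q.eval 0 := by linarith
  refine ⟨Polynomial.C (q.eval r - q.eval 0)⁻¹ * (q - Polynomial.C (q.eval 0)), ?_, ?_, ?_⟩
  · simp
  · simp only [Polynomial.eval_mul, Polynomial.eval_C, Polynomial.eval_sub]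
    exact inv_mul_cancel₀ hc0.ne'
  · intro x hx
    rw [abs_le] at hx
    have hxq := hq x ⟨hx.1, hx.2⟩
    rw [abs_lt] at hxq
    have hφ0 : 0 ≤ max (0 : ℝ) (min 1 (x / r)) := le_max_left _ _
    have hφ1 : max (0 : ℝ) (min 1 (x / r)) ≤ 1 := max_le zero_le_one (min_le_left _ _)
    simp only [Polynomial.eval_mul, Polynomial.eval_C, Polynomial.eval_sub]
    rw [abs_mul, abs_inv, abs_of_pos hc0, inv_mul_le_iff₀ hc0, abs_le]
    constructor <;> linarith [h0.1, h0.2, hxq.1, hxq.2]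

end Pool.Agent.Lib.MP_862e0f_al.EV
end

section

/-!
# Bounds for iterated tangent maps on compact sets (TASK EV TB)

Proofs: `exists_TBd` by induction on `l`, generalizing `S`: a continuous function is bounded on the
compact set `B`, and the tangent map `z ↦ fderiv ℝ Φ z.1 z.2` is again smooth
(`ContDiff.fderiv_right`, `ContDiff.clm_apply`), `B ×ˢ B` is compact; take the maximum of the two
constants (`TBd.mono`).
-/

set_option autoImplicit false

namespace Pool.Agent.Lib.MP_862e0f_al.EV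

open Filter Topology Set
open scoped ContDiff

theorem contDiff_tangent {S F : Type} [NormedAddCommGroup S] [NormedSpace ℝ S]
    [NormedAddCommGroup F] [NormedSpace ℝ F] {Φ : S → F} (hΦ : ContDiff ℝ ∞ Φ) :
    ContDiff ℝ ∞ (fun z : S × S => fderiv ℝ Φ z.1 z.2) := by
  have h1 : ContDiff ℝ ∞ (fderiv ℝ Φ) := hΦ.fderiv_right (by simp)
  exact (h1.comp contDiff_fst).clm_apply contDiff_snd

theorem TBd.mono {F : Type} [NormedAddCommGroup F] [NormedSpace ℝ F] : ∀ (l : ℕ) (S : Type)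
    [NormedAddCommGroup S] [NormedSpace ℝ S] (Φ : S → F) (B : Set S) (C C' : ℝ), C ≤ C' →
    TBd l S Φ B C → TBd l S Φ B C'
  | 0, _, _, _, _, _, _, _, hC, h => fun z hz => (h z hz).trans hC
  | l + 1, S, _, _, _, _, _, _, hC, h =>
    ⟨fun z hz => (h.1 z hz).trans hC, TBd.mono l (S × S) _ _ _ _ hC h.2⟩

theorem exists_TBd {F : Type} [NormedAddCommGroup F] [NormedSpace ℝ F] : ∀ (l : ℕ) (S : Type)
    [NormedAddCommGroup S] [NormedSpace ℝ S] (Φ : S → F) (B : Set S), ContDiff ℝ ∞ Φ →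
    IsCompact B → ∃ C : ℝ, 0 < C ∧ TBd l S Φ B C := by
  intro l
  induction l with
  | zero =>
    intro S _ _ Φ B hΦ hB
    obtain ⟨C, hC⟩ := hB.exists_bound_of_continuousOn hΦ.continuous.continuousOn
    exact ⟨max C 1, lt_max_of_lt_right one_pos, fun z hz => (hC z hz).trans (le_max_left _ _)⟩
  | succ l ih =>
    intro S _ _ Φ B hΦ hB
    obtain ⟨C, hC⟩ := hB.exists_bound_of_continuousOn hΦ.continuous.continuousOn
    obtain ⟨C', hC'0, hC'⟩ := ih (S × S) (fun z => fderiv ℝ Φ z.1 z.2) (B ×ˢ B)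
      (contDiff_tangent hΦ) (hB.prod hB)
    exact ⟨max C C', lt_max_of_lt_right hC'0,
      fun z hz => (hC z hz).trans (le_max_left _ _), TBd.mono l _ _ _ _ _ (le_max_right _ _) hC'⟩

end Pool.Agent.Lib.MP_862e0f_al.EV
end

section

/-!
# The topology of the model space
-/

set_option autoImplicit false

namespace Pool.Agent.Lib.MP_862e0f_al.EV

open Filter Topology Set
open scoped ContDiff

variable {V : Type} [NormedAddCommGroup V] [NormedSpace ℝ V] {T : Tower V} {W : ℕ → ℕ → ℝ}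

@[simp] theorem Md.c_add (v w : Md T W) (n : ℕ) : (v + w).c n = v.c n + w.c n := rfl
@[simp] theorem Md.c_neg (v : Md T W) (n : ℕ) : (-v).c n = -v.c n := rfl
@[simp] theorem Md.c_sub (v w : Md T W) (n : ℕ) : (v - w).c n = v.c n - w.c n := rfl
@[simp] theorem Md.c_zero (n : ℕ) : (0 : Md T W).c n = 0 := rfl
@[simp] theorem Md.c_smul (r : ℝ) (v : Md T W) (n : ℕ) : (r • v).c n = r • v.c n := rfl

theorem Md.mem (v : Md T W) (n : ℕ) : v.c n ∈ T.E n := (show ↥(MSub T) from v).2 n

theorem Md.ext' {v w : Md T W} (h : ∀ n, v.c n = w.c n) : v = w :=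
  Subtype.ext (Finsupp.ext h)

theorem Md.ev (v : Md T W) : ∃ n₀, ∀ n, n₀ ≤ n → v.c n = 0 := by
  classical
  refine ⟨(show ↥(MSub T) from v).1.support.sup id + 1, fun n hn => ?_⟩
  by_contra hne
  have h1 : n ∈ (show ↥(MSub T) from v).1.support := Finsupp.mem_support_iff.2 hne
  have h2 : n ≤ (show ↥(MSub T) from v).1.support.sup id := Finset.le_sup (f := id) h1
  omega

/-- an element of the model space from its coordinates -/
noncomputable def Md.mk' (W : ℕ → ℕ → ℝ) (f : ℕ → V) (hE : ∀ n, f n ∈ T.E n)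
    (hf : ∃ n₀, ∀ n, n₀ ≤ n → f n = 0) : Md T W :=
  show ↥(MSub T) from ⟨Finsupp.ofSupportFinite f (by
    obtain ⟨n₀, h⟩ := hf
    refine (Set.finite_lt_nat n₀).subset fun n hn => ?_
    by_contra hlt
    exact hn (h n (not_lt.1 hlt))), hE⟩

@[simp] theorem Md.mk'_c (f : ℕ → V) (hE : ∀ n, f n ∈ T.E n)
    (hf : ∃ n₀, ∀ n, n₀ ≤ n → f n = 0) (n : ℕ) : (Md.mk' W f hE hf).c n = f n := rfl

theorem Md.bdd (v : Md T W) (k : ℕ) : BddAbove (range fun n => ‖v.c n‖ / |W k n|) := by
  obtain ⟨n₀, h⟩ := v.ev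
  refine ⟨∑ n ∈ Finset.range n₀, ‖v.c n‖ / |W k n|, ?_⟩
  rintro _ ⟨n, rfl⟩
  have hnn : ∀ m, 0 ≤ ‖v.c m‖ / |W k m| := fun m => by positivity
  rcases lt_or_ge n n₀ with hn | hn
  · exact Finset.single_le_sum (f := fun m => ‖v.c m‖ / |W k m|) (fun m _ => hnn m)
      (Finset.mem_range.2 hn)
  · simp only [h n hn, norm_zero, zero_div]
    exact Finset.sum_nonneg fun m _ => hnn m

variable (T W) in
/-- The seminorms `P k v = sup_n ‖v n‖ / W k n` of the model space. -/
noncomputable def Pn (k : ℕ) : Seminorm ℝ (Md T W) :=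
  Seminorm.of (fun v => ⨆ n, ‖v.c n‖ / |W k n|)
    (fun v w => ciSup_le fun n => by
      have h1 := le_ciSup (v.bdd k) n
      have h2 := le_ciSup (w.bdd k) n
      refine le_trans ?_ (add_le_add h1 h2)
      rw [Md.c_add, ← add_div]
      exact div_le_div_of_nonneg_right (norm_add_le _ _) (abs_nonneg _))
    (fun r v => by
      simp only [Md.c_smul, norm_smul, mul_div_assoc]
      exact (Real.mul_iSup_of_nonneg (norm_nonneg r) _).symm)

theorem Pn_apply (k : ℕ) (v : Md T W) : Pn T W k v = ⨆ n, ‖v.c n‖ / |W k n| := rfl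

theorem le_Pn (hW : ∀ k n, 0 < W k n) (k : ℕ) (v : Md T W) (n : ℕ) :
    ‖v.c n‖ ≤ W k n * Pn T W k v := by
  have h1 := le_ciSup (v.bdd k) n
  rw [abs_of_pos (hW k n), div_le_iff₀ (hW k n), ← Pn_apply] at h1
  linarith

theorem Pn_le (hW : ∀ k n, 0 < W k n) (k : ℕ) (v : Md T W) {C : ℝ}
    (h : ∀ n, ‖v.c n‖ ≤ W k n * C) : Pn T W k v ≤ C := by
  rw [Pn_apply]
  refine ciSup_le fun n => ?_
  rw [abs_of_pos (hW k n), div_le_iff₀ (hW k n)]
  linarith [h n]

noncomputable instance : TopologicalSpace (Md T W) :=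
  SeminormFamily.moduleFilterBasis (𝕜 := ℝ) (fun k => Pn T W k) |>.topology

theorem withSeminorms : WithSeminorms (𝕜 := ℝ) (fun k => Pn T W k) := ⟨rfl⟩

instance : IsTopologicalAddGroup (Md T W) := withSeminorms.topologicalAddGroup

instance : ContinuousSMul ℝ (Md T W) := withSeminorms.continuousSMul

instance : LocallyConvexSpace ℝ (Md T W) := withSeminorms.toLocallyConvexSpace

theorem continuous_Pn (k : ℕ) : Continuous (Pn T W k) := withSeminorms.continuous_seminorm k

theorem Md.t2 (hW : ∀ k n, 0 < W k n) : T2Space (Md T W) := by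
  have : T1Space (Md T W) := withSeminorms.T1_of_separating fun v hv => by
    by_contra hcon
    push Not at hcon
    refine hv (Md.ext' fun n => ?_)
    have := le_Pn hW 0 v n
    rw [hcon 0, mul_zero] at this
    simpa using this
  infer_instance

theorem eventually_Pn (x : Md T W) (k : ℕ) {ε : ℝ} (hε : 0 < ε) :
    ∀ᶠ y in 𝓝 x, Pn T W k (y - x) < ε := by
  have h1 : Continuous fun y : Md T W => Pn T W k (y - x) :=
    (continuous_Pn k).comp (continuous_id.sub continuous_const)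
  have h2 := h1.tendsto x
  rw [sub_self, map_zero] at h2
  exact h2.eventually (gt_mem_nhds hε)

theorem mem_nhds_Md {x : Md T W} {U : Set (Md T W)} (hU : U ∈ 𝓝 x) :
    ∃ (s : Finset ℕ) (ε : ℝ), 0 < ε ∧ ∀ y, (∀ k ∈ s, Pn T W k (y - x) < ε) → y ∈ U := by
  obtain ⟨s, r, hr, hs⟩ := (withSeminorms.mem_nhds_iff x U).1 hU
  refine ⟨s, r, hr, fun y hy => hs ?_⟩
  rw [Seminorm.mem_ball]
  exact Seminorm.finset_sup_apply_lt hr hy

theorem tendsto_Md {α : Type*} {f : Filter α} {u : α → Md T W} {x : Md T W}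
    (h : ∀ k, ∀ ε : ℝ, 0 < ε → ∀ᶠ a in f, Pn T W k (u a - x) < ε) : Tendsto u f (𝓝 x) :=
  (withSeminorms.tendsto_nhds u x).2 h

variable (T W) in
/-- the first `n + 1` coordinates -/
noncomputable def hist (hW : ∀ k n, 0 < W k n) (n : ℕ) : Md T W →L[ℝ] Hist T n where
  toFun v := fun a => ⟨v.c a, v.mem a⟩
  map_add' v w := rfl
  map_smul' r v := rfl
  cont := by
    refine continuous_pi fun a => Continuous.subtype_mk ?_ _
    rw [continuous_iff_continuousAt]
    intro x
    rw [ContinuousAt, Metric.tendsto_nhds]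
    intro ε hε
    have h1 : 0 < ε / W 0 a := div_pos hε (hW 0 a)
    filter_upwards [eventually_Pn x 0 h1] with y hy
    rw [dist_eq_norm]
    have h2 := le_Pn hW 0 (y - x) a
    rw [Md.c_sub] at h2
    have h3 : W 0 a * Pn T W 0 (y - x) < W 0 a * (ε / W 0 a) := mul_lt_mul_of_pos_left hy (hW 0 a)
    rw [mul_div_cancel₀ _ (hW 0 a).ne'] at h3
    linarith

theorem hist_apply (hW : ∀ k n, 0 < W k n) (n : ℕ) (v : Md T W) (a : Fin (n + 1)) :
    ((hist T W hW n v a : T.E a) : V) = v.c a := rfl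

theorem ext_hist (hW : ∀ k n, 0 < W k n) (n : ℕ) (v : Md T W) {a : ℕ} (ha : a ≤ n) :
    ext T n (hist T W hW n v) a = v.c a := by
  unfold ext
  rw [dif_pos (by omega)]
  rfl

end Pool.Agent.Lib.MP_862e0f_al.EV
end

section

/-!
# Locality and dependence on the weights (TASK EV Cg)

Proofs by induction on `n`: unfold `st`, `nxt`, `Afac`; `Finset.sum_congr`.
-/

set_option autoImplicit false

namespace Pool.Agent.Lib.MP_862e0f_al.EV

open Filter Topology Set
open scoped ContDiff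

variable {V : Type} [NormedAddCommGroup V] [NormedSpace ℝ V] {T : Tower V} (G : Gear T)
  {W W' : ℕ → ℕ → ℝ}

theorem st_congr_v {v w : ℕ → V} {n : ℕ} (h : ∀ a, a ≤ n → v a = w a) :
    st G W v n = st G W w n := by
  induction n with
  | zero =>
    show (fun _ => v 0) = (fun _ => w 0)
    rw [h 0 le_rfl]
  | succ n ih =>
    have ih' := ih fun a ha => h a (by omega)
    show updst G n (st G W v n) (nxt G W 0 n (st G W v n) (v (n + 1))) =
      updst G n (st G W w n) (nxt G W 0 n (st G W w n) (w (n + 1)))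
    rw [ih', h (n + 1) le_rfl]

theorem Afac_congr_W {t n : ℕ} (h : ∀ j, t ≤ j → W j (n + 1) = W' j (n + 1)) (s : ℕ → V) (x : V) :
    Afac G W t n s x = Afac G W' t n s x := by
  unfold Afac
  congr 1
  refine Finset.sum_congr rfl fun j hj => ?_
  rw [h j (Finset.mem_Ico.1 hj).1]

theorem nxt_congr_W {t n : ℕ} (h : ∀ j, t ≤ j → W j (n + 1) = W' j (n + 1)) (s : ℕ → V) (v : V) :
    nxt G W t n s v = nxt G W' t n s v := by
  have h1 : (fun r : ℝ => Afac G W t n s (s n + r • v)) =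
      fun r : ℝ => Afac G W' t n s (s n + r • v) :=
    funext fun r => Afac_congr_W G h s _
  unfold nxt
  rw [h1]

theorem st_congr_W {n : ℕ} (h : ∀ j a, a ≤ n → W j a = W' j a) (v : ℕ → V) :
    st G W v n = st G W' v n := by
  induction n with
  | zero => rfl
  | succ n ih =>
    have ih' := ih fun j a ha => h j a (by omega)
    show updst G n (st G W v n) (nxt G W 0 n (st G W v n) (v (n + 1))) =
      updst G n (st G W' v n) (nxt G W' 0 n (st G W' v n) (v (n + 1)))
    rw [ih', nxt_congr_W G (fun j _ => h j (n + 1) le_rfl)]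

theorem Gv_congr_W {n : ℕ} (h : ∀ j a, a ≤ n → W j a = W' j a) (v : ℕ → V) :
    Gv G W v n = Gv G W' v n := by
  unfold Gv
  rw [st_congr_W G h]

private theorem Cg_crd1 {t n : ℕ} {Z Z' : ℕ → V} {x x' : V} (hZ : ∀ a, a ≤ n → Z a = Z' a)
    (hx : x = x') (h : ∀ j, t ≤ j → W j (n + 1) = W' j (n + 1)) :
    crd1 G W t n Z x = crd1 G W' t n Z' x' := by
  unfold crd1
  rw [hx, obs_congr G hZ, hZ n le_rfl, Afac_congr_W G h]

theorem Fm_congr_v {t : ℕ} {v v' w w' : ℕ → V} {n : ℕ} (h : ∀ a, a ≤ n → v a = w a)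
    (h' : ∀ a, a ≤ n → v' a = w' a) : Fm G W t v v' n = Fm G W t w w' n := by
  cases n with
  | zero =>
    show T.op (v 0) (v' 0) = T.op (w 0) (w' 0)
    rw [h 0 le_rfl, h' 0 le_rfl]
  | succ n =>
    refine Cg_crd1 G (fun a ha => ?_) ?_ fun j _ => rfl
    · unfold Gv
      rw [st_congr_v G (fun b hb => h b (by omega)), st_congr_v G (fun b hb => h' b (by omega))]
    · show T.op (nxt G W t n (st G W v n) (v (n + 1))) (nxt G W t n (st G W v' n) (v' (n + 1))) =
        T.op (nxt G W t n (st G W w n) (w (n + 1))) (nxt G W t n (st G W w' n) (w' (n + 1)))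
      rw [st_congr_v G (fun b hb => h b (by omega)), st_congr_v G (fun b hb => h' b (by omega)),
        h (n + 1) le_rfl, h' (n + 1) le_rfl]

theorem Fi_congr_v {t : ℕ} {v w : ℕ → V} {n : ℕ} (h : ∀ a, a ≤ n → v a = w a) :
    Fi G W t v n = Fi G W t w n := by
  cases n with
  | zero =>
    show T.iv (v 0) = T.iv (w 0)
    rw [h 0 le_rfl]
  | succ n =>
    refine Cg_crd1 G (fun a ha => ?_) ?_ fun j _ => rfl
    · unfold Gv
      rw [st_congr_v G (fun b hb => h b (by omega))]
    · show T.iv (nxt G W t n (st G W v n) (v (n + 1))) =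
        T.iv (nxt G W t n (st G W w n) (w (n + 1)))
      rw [st_congr_v G (fun b hb => h b (by omega)), h (n + 1) le_rfl]

theorem Fm_congr_W {t n : ℕ} (h : ∀ j a, a ≤ n → W j a = W' j a)
    (h' : ∀ j, t ≤ j → W j (n + 1) = W' j (n + 1)) (v v' : ℕ → V) :
    Fm G W t v v' (n + 1) = Fm G W' t v v' (n + 1) := by
  refine Cg_crd1 G (fun a ha => ?_) ?_ h'
  · rw [Gv_congr_W G (fun j b hb => h j b (by omega)), Gv_congr_W G (fun j b hb => h j b (by omega))]
  · show T.op (nxt G W t n (st G W v n) (v (n + 1))) (nxt G W t n (st G W v' n) (v' (n + 1))) =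
      T.op (nxt G W' t n (st G W' v n) (v (n + 1))) (nxt G W' t n (st G W' v' n) (v' (n + 1)))
    rw [st_congr_W G h, st_congr_W G h, nxt_congr_W G h', nxt_congr_W G h']

theorem Fi_congr_W {t n : ℕ} (h : ∀ j a, a ≤ n → W j a = W' j a)
    (h' : ∀ j, t ≤ j → W j (n + 1) = W' j (n + 1)) (v : ℕ → V) :
    Fi G W t v (n + 1) = Fi G W' t v (n + 1) := by
  refine Cg_crd1 G (fun a ha => ?_) ?_ h'
  · rw [Gv_congr_W G (fun j b hb => h j b (by omega))]
  · show T.iv (nxt G W t n (st G W v n) (v (n + 1))) = T.iv (nxt G W' t n (st G W' v n) (v (n + 1)))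
    rw [st_congr_W G h, nxt_congr_W G h']

end Pool.Agent.Lib.MP_862e0f_al.EV
end

section

/-!
# Absorption by boxes (TASK EV Hb)

Take `O = {y | Pn (k + 1) (y - x) < 1}`; then `‖y.c a‖ ≤ ‖x.c a‖ + W (k + 1) a` (`le_Pn`), which is
`≤ n * W (k + 1) a` if `n ≥ 1 + ‖x.c a‖ / W (k + 1) a` for all `a` (finitely many `a` with
`x.c a ≠ 0`, `Md.ev`).
-/

set_option autoImplicit false

namespace Pool.Agent.Lib.MP_862e0f_al.EV

open Filter Topology Set
open scoped ContDiff

variable {V : Type} [NormedAddCommGroup V] [NormedSpace ℝ V] {T : Tower V} {W : ℕ → ℕ → ℝ}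

theorem box_absorb (hW : ∀ k n, 0 < W k n) (k : ℕ) (x : Md T W) : ∃ O ∈ 𝓝 x, ∃ n₁ : ℕ,
    ∀ n, n₁ ≤ n → ∀ y ∈ O, hist T W hW n y ∈ Box T W n k := by
  obtain ⟨M, hM⟩ := x.bdd (k + 1)
  obtain ⟨q, hq⟩ := exists_nat_ge (M + 1)
  refine ⟨{y | Pn T W (k + 1) (y - x) < 1}, eventually_Pn x (k + 1) one_pos, q,
    fun n hn y hy a => ?_⟩
  have hpos : 0 < W (k + 1) (a : ℕ) := hW _ _
  have h1 : ‖x.c a‖ ≤ M * W (k + 1) a := by
    have h2 : ‖x.c a‖ / |W (k + 1) a| ≤ M := hM ⟨(a : ℕ), rfl⟩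
    rwa [abs_of_pos hpos, div_le_iff₀ hpos] at h2
  have h3 : ‖(y - x).c a‖ ≤ W (k + 1) a := by
    refine (le_Pn hW (k + 1) (y - x) a).trans ?_
    have h4 : Pn T W (k + 1) (y - x) < 1 := hy
    nlinarith
  have h5 : ‖y.c a‖ ≤ ‖x.c a‖ + ‖(y - x).c a‖ := by
    have h6 : y.c a = x.c a + (y - x).c a := by rw [Md.c_sub]; abel
    rw [h6]
    exact norm_add_le _ _
  have h7 : (q : ℝ) ≤ n := by exact_mod_cast hn
  change ‖y.c a‖ ≤ n * W (k + 1) a
  nlinarith

end Pool.Agent.Lib.MP_862e0f_al.EV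
end

section

/-!
# The model space is second countable (TASK EV SC)

Choose dense sequences `d n : ℕ → E n` (`TopologicalSpace.denseSeq`, `E n` is a finite-dimensional normed space).
For a list `l : List ℕ` let `v l` be the element with `(v l).c n = d n (l[n])` for `n < l.length` and `0` otherwise
(`Md.mk'`). The range of `v` is countable, and dense: let `x : Md T W`, `x.c n = 0` for `n ≥ n₀`, and let `s, ε` be
given by `mem_nhds_Md`; for `n < n₀` choose `a n` with `‖d n (a n) - x.c n‖ < ε/2 * W k n` for all `k ∈ s`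
(finitely many conditions), `l` the list of the `a n`, `n < n₀`; then `Pn k (v l - x) ≤ ε/2 < ε` (`Pn_le`).
So `Md T W` is separable. It is a first countable additive topological group (countably many seminorms:
`WithSeminorms.firstCountable` or by `mem_nhds_Md`), so its uniformity (`IsTopologicalAddGroup.rightUniformSpace`) is
countably generated, and a separable space with a countably generated uniformity is second countable
(`UniformSpace.secondCountable_of_separable`).
-/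

set_option autoImplicit false

namespace Pool.Agent.Lib.MP_862e0f_al.EV

open Filter Topology Set

variable {V : Type} [NormedAddCommGroup V] [NormedSpace ℝ V] {T : Tower V} {W : ℕ → ℕ → ℝ}

theorem SC_separable (hW : ∀ k n, 0 < W k n) : TopologicalSpace.SeparableSpace (Md T W) := by
  classical
  have hsep : ∀ n, TopologicalSpace.SeparableSpace (T.E n) := fun n => by
    have : SecondCountableTopology (T.E n) := (inferInstance : SecondCountableTopology (T.E n))
    infer_instance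
  let d : ∀ n, ℕ → T.E n := fun n => TopologicalSpace.denseSeq (T.E n)
  let v : List ℕ → Md T W := fun l => Md.mk' W
    (fun n => if h : n < l.length then ((d n (l.get ⟨n, h⟩) : T.E n) : V) else 0)
    (fun n => by
      split_ifs with h
      · exact (d n _).2
      · exact (T.E n).zero_mem)
    ⟨l.length, fun n hn => dif_neg (not_lt.mpr hn)⟩
  refine ⟨⟨Set.range v, Set.countable_range v, ?_⟩⟩
  intro x
  rw [mem_closure_iff_nhds]
  intro U hU
  obtain ⟨s, ε, hε, hs⟩ := mem_nhds_Md hU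
  obtain ⟨n₀, hn₀⟩ := x.ev
  have h1 : ∀ n, ∃ a : ℕ, ∀ k ∈ s, ‖((d n a : T.E n) : V) - x.c n‖ < ε / 2 * W k n := by
    intro n
    have h2 : ∃ δ : ℝ, 0 < δ ∧ ∀ k ∈ s, δ ≤ ε / 2 * W k n := by
      rcases s.eq_empty_or_nonempty with h0 | h0
      · subst h0
        exact ⟨1, one_pos, by simp⟩
      · obtain ⟨k0, hk0, hk1⟩ := s.exists_min_image (fun k => ε / 2 * W k n) h0
        exact ⟨ε / 2 * W k0 n, mul_pos (half_pos hε) (hW k0 n), hk1⟩
    obtain ⟨δ, hδ, hδs⟩ := h2
    have h3 : DenseRange (d n) := TopologicalSpace.denseRange_denseSeq (T.E n)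
    obtain ⟨a, ha⟩ := h3.exists_dist_lt (⟨x.c n, x.mem n⟩ : T.E n) hδ
    refine ⟨a, fun k hk => lt_of_lt_of_le ?_ (hδs k hk)⟩
    rw [dist_comm, dist_eq_norm] at ha
    exact ha
  choose a ha using h1
  refine ⟨v ((List.range n₀).map a), hs _ fun k hk => ?_, Set.mem_range_self _⟩
  refine lt_of_le_of_lt (Pn_le hW k _ (C := ε / 2) fun n => ?_) (half_lt_self hε)
  rw [Md.c_sub]
  have h4 : (v ((List.range n₀).map a)).c n =
      if h : n < ((List.range n₀).map a).length then
        ((d n (((List.range n₀).map a).get ⟨n, h⟩) : T.E n) : V) else 0 := rfl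
  rw [h4]
  by_cases h : n < n₀
  · have h5 : n < ((List.range n₀).map a).length := by simpa using h
    rw [dif_pos h5]
    have h6 : ((List.range n₀).map a).get ⟨n, h5⟩ = a n := by simp
    rw [h6, mul_comm]
    exact (ha n k hk).le
  · have h5 : ¬ n < ((List.range n₀).map a).length := by simpa using h
    rw [dif_neg h5, hn₀ n (not_lt.mp h), sub_zero, norm_zero]
    exact mul_nonneg (hW k n).le (half_pos hε).le

theorem Md.secondCountable (hW : ∀ k n, 0 < W k n) : SecondCountableTopology (Md T W) := by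
  have h1 : TopologicalSpace.SeparableSpace (Md T W) := SC_separable hW
  have h2 : FirstCountableTopology (Md T W) := withSeminorms.firstCountableTopology
  let u : UniformSpace (Md T W) := IsTopologicalAddGroup.rightUniformSpace (Md T W)
  have h3 : (uniformity (Md T W)).IsCountablyGenerated := by
    have h4 : (𝓝 (0 : Md T W)).IsCountablyGenerated := h2.nhds_generated_countable 0
    have h5 : IsUniformAddGroup (Md T W) := isUniformAddGroup_of_addCommGroup
    rw [uniformity_eq_comap_nhds_zero]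
    exact Filter.comap.isCountablyGenerated _ _
  exact UniformSpace.secondCountable_of_separable (Md T W)

end Pool.Agent.Lib.MP_862e0f_al.EV
end
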