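import Pool.Agent.Lib.MP_862e0f_al.Defs

section

/-!
# Calculus in locally convex spaces
-/

set_option autoImplicit false
set_option linter.unusedSectionVars false

namespace Pool.Agent.Lib.MP_862e0f_al

open Filter Topology Set

universe u v w x

section

variable {E : Type u} {F : Type v} [AddCommGroup E] [Module ℝ E] [AddCommGroup F]
    [Module ℝ F] [TopologicalSpace F] [IsTopologicalAddGroup F] [ContinuousSMul ℝ F]

omit [IsTopologicalAddGroup F] in
theorem HasDirDeriv.smul {f : E → F} {x v : E} {w : F} (h : HasDirDeriv f x v w) (s : ℝ) :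
    HasDirDeriv f x (s • v) (s • w) := by
  unfold HasDirDeriv at h ⊢
  rcases eq_or_ne s 0 with rfl | hs
  · simp only [zero_smul, smul_zero, add_zero, sub_self]
    exact tendsto_const_nhds
  · have h1 : Tendsto (fun t : ℝ => t * s) (𝓝[≠] 0) (𝓝[≠] 0) := by
      apply tendsto_nhdsWithin_of_tendsto_nhds_of_eventually_within
      · have : Tendsto (fun t : ℝ => t * s) (𝓝 0) (𝓝 (0 * s)) :=
          (continuous_id.mul continuous_const).tendsto 0
        rw [zero_mul] at this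
        exact this.mono_left nhdsWithin_le_nhds
      · filter_upwards [self_mem_nhdsWithin] with t ht
        exact mul_ne_zero ht hs
    have h2 := (h.comp h1).const_smul s
    refine h2.congr fun t => ?_
    simp only [Function.comp_apply, mul_inv_rev, smul_smul, ← mul_assoc, mul_inv_cancel₀ hs,
      one_mul]

/-- derivatives along lines of compositions with functionals -/
theorem hasDerivAt_comp {f : E → F} (l : F →L[ℝ] ℝ) {a b : E} {t : ℝ} {w : F}
    (h : HasDirDeriv f (a + t • b) b w) :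
    HasDerivAt (fun s : ℝ => l (f (a + s • b))) (l w) t := by
  rw [hasDerivAt_iff_tendsto_slope_zero]
  have h1 := (l.continuous.tendsto w).comp h
  refine h1.congr fun s => ?_
  simp only [Function.comp_apply, map_smul, map_sub, add_smul, add_assoc, smul_eq_mul]

/-- mean value theorem -/
theorem mean_value {f : E → F} {df : E → F} (l : F →L[ℝ] ℝ) {a b : E} {t : ℝ} (ht : t ≠ 0)
    (h : ∀ s : ℝ, |s| ≤ |t| → HasDirDeriv f (a + s • b) b (df (a + s • b))) :
    ∃ s : ℝ, |s| ≤ |t| ∧ l (t⁻¹ • (f (a + t • b) - f a)) = l (df (a + s • b)) := by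
  have hd : ∀ s : ℝ, |s| ≤ |t| →
      HasDerivAt (fun s : ℝ => l (f (a + s • b))) (l (df (a + s • b))) s :=
    fun s hs => hasDerivAt_comp l (h s hs)
  rcases lt_or_gt_of_ne ht with ht' | ht'
  · have hs' : ∀ s ∈ Icc t 0, |s| ≤ |t| := by
      intro s hs
      rw [abs_of_nonpos hs.2, abs_of_neg ht']
      linarith [hs.1]
    obtain ⟨c, hc, h1⟩ := exists_hasDerivAt_eq_slope (fun s : ℝ => l (f (a + s • b)))
      (fun s => l (df (a + s • b))) ht'
      (fun s hs => (hd s (hs' s hs)).continuousAt.continuousWithinAt)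
      (fun s hs => hd s (hs' s (Ioo_subset_Icc_self hs)))
    refine ⟨c, hs' c (Ioo_subset_Icc_self hc), ?_⟩
    rw [h1, map_smul, map_sub, zero_smul, add_zero, smul_eq_mul, zero_sub, div_eq_inv_mul, inv_neg]
    ring
  · have hs' : ∀ s ∈ Icc 0 t, |s| ≤ |t| := by
      intro s hs
      rw [abs_of_nonneg hs.1, abs_of_pos ht']
      exact hs.2
    obtain ⟨c, hc, h1⟩ := exists_hasDerivAt_eq_slope (fun s : ℝ => l (f (a + s • b)))
      (fun s => l (df (a + s • b))) ht'
      (fun s hs => (hd s (hs' s hs)).continuousAt.continuousWithinAt)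
      (fun s hs => hd s (hs' s (Ioo_subset_Icc_self hs)))
    refine ⟨c, hs' c (Ioo_subset_Icc_self hc), ?_⟩
    rw [h1, map_smul, map_sub, zero_smul, add_zero, smul_eq_mul, sub_zero, div_eq_inv_mul]

/-- the mean value theorem for closed convex sets -/
theorem mean_value_mem [LocallyConvexSpace ℝ F] {f : E → F} {df : E → F} {a b : E} {t : ℝ}
    (ht : t ≠ 0)
    (h : ∀ s : ℝ, |s| ≤ |t| → HasDirDeriv f (a + s • b) b (df (a + s • b)))
    {C : Set F} (hC : Convex ℝ C) (hC' : IsClosed C)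
    (h' : ∀ s : ℝ, |s| ≤ |t| → df (a + s • b) ∈ C) :
    t⁻¹ • (f (a + t • b) - f a) ∈ C := by
  by_contra hn
  obtain ⟨l, u, h1, h2⟩ := geometric_hahn_banach_closed_point hC hC' hn
  obtain ⟨s, hs, h3⟩ := mean_value l ht h
  rw [h3] at h2
  exact absurd (h1 _ (h' s hs)) (not_lt.mpr h2.le)

end

section

variable {E : Type u} {F : Type v} [AddCommGroup E] [Module ℝ E] [TopologicalSpace E]
  [IsTopologicalAddGroup E] [ContinuousSMul ℝ E] [AddCommGroup F]
  [Module ℝ F] [TopologicalSpace F] [IsTopologicalAddGroup F] [ContinuousSMul ℝ F]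

/-- `df` is the continuous derivative of `f` on `U` -/
structure C1 (f : E → F) (df : E × E → F) (U : Set E) : Prop where
  deriv : ∀ x ∈ U, ∀ v : E, HasDirDeriv f x v (df (x, v))
  cont : ContinuousOn df (U ×ˢ univ)

variable {f : E → F} {df : E × E → F} {U : Set E}

/-- uniform difference quotients -/
theorem C1.quot [LocallyConvexSpace ℝ F] (h : C1 f df U) (hU : IsOpen U) {x₀ v₀ : E}
    (hx : x₀ ∈ U) {y w : ℝ → E} (hy : Tendsto y (𝓝[≠] 0) (𝓝 x₀))
    (hw : Tendsto w (𝓝[≠] 0) (𝓝 v₀)) :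
    Tendsto (fun t : ℝ => t⁻¹ • (f (y t + t • w t) - f (y t))) (𝓝[≠] 0) (𝓝 (df (x₀, v₀))) := by
  -- closed convex neighbourhoods
  intro N hN
  rw [mem_map]
  obtain ⟨N', hN', hcl, hsub⟩ := exists_mem_nhds_isClosed_subset hN
  obtain ⟨C, hC1, hC2, hCN⟩ := (locallyConvexSpace_iff_exists_convex_subset ℝ F).mp inferInstance
    (df (x₀, v₀)) N' hN'
  have hcc : closure C ⊆ N := (closure_minimal hCN hcl).trans hsub
  have hdf : ContinuousAt df (x₀, v₀) :=
    h.cont.continuousAt ((hU.prod isOpen_univ).mem_nhds ⟨hx, mem_univ _⟩)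
  have h1 : ∀ᶠ z : E × E in 𝓝 (x₀, v₀), z.1 ∈ U ∧ df z ∈ C := by
    refine (Filter.Tendsto.eventually (continuous_fst.tendsto (x₀, v₀)) (hU.mem_nhds hx)).and ?_
    exact hdf.eventually hC1
  -- the map (s, y, w) ↦ (y + s w, w)
  have h2 : Tendsto (fun q : ℝ × E × E => (q.2.1 + q.1 • q.2.2, q.2.2)) (𝓝 (0, x₀, v₀))
      (𝓝 (x₀, v₀)) := by
    have hc : Continuous (fun q : ℝ × E × E => (q.2.1 + q.1 • q.2.2, q.2.2)) := by fun_prop
    have := hc.tendsto (0, x₀, v₀)
    simpa using this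
  have h3 := h2.eventually h1
  rw [nhds_prod_eq] at h3
  obtain ⟨pa, ha, pb, hb, hab⟩ := Filter.eventually_prod_iff.mp h3
  obtain ⟨ε, hε, hball⟩ := Metric.eventually_nhds_iff.mp ha
  have h4 : ∀ᶠ t in 𝓝[≠] (0 : ℝ), pb (y t, w t) := (hy.prodMk_nhds hw).eventually hb
  have h5 : ∀ᶠ t in 𝓝[≠] (0 : ℝ), |t| < ε := by
    have : ∀ᶠ t in 𝓝 (0 : ℝ), |t| < ε := by
      rw [Metric.eventually_nhds_iff]
      exact ⟨ε, hε, fun t ht => by simpa using ht⟩
    exact this.filter_mono nhdsWithin_le_nhds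
  filter_upwards [h4, h5, self_mem_nhdsWithin] with t ht1 ht2 ht3
  apply hcc
  have key : ∀ s : ℝ, |s| ≤ |t| → y t + s • w t ∈ U ∧ df (y t + s • w t, w t) ∈ C := by
    intro s hs
    have hs' : pa s := hball (by simpa using lt_of_le_of_lt hs ht2)
    exact hab hs' ht1
  refine mean_value_mem (df := fun z => df (z, w t)) ht3 (fun s hs => h.deriv _ (key s hs).1 _)
    hC2.closure isClosed_closure (fun s hs => subset_closure (key s hs).2)

variable [LocallyConvexSpace ℝ F] [T2Space F]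

theorem C1.smul (h : C1 f df U) {x₀ v : E} (hx : x₀ ∈ U) (s : ℝ) :
    df (x₀, s • v) = s • df (x₀, v) :=
  tendsto_nhds_unique (h.deriv x₀ hx (s • v)) ((h.deriv x₀ hx v).smul s)

theorem C1.zero (h : C1 f df U) {x₀ : E} (hx : x₀ ∈ U) : df (x₀, 0) = 0 := by
  have := h.smul (v := 0) hx 0
  simpa using this

theorem C1.add (h : C1 f df U) (hU : IsOpen U) {x₀ : E} (hx : x₀ ∈ U) (v w : E) :
    df (x₀, v + w) = df (x₀, v) + df (x₀, w) := by
  have hy : Tendsto (fun t : ℝ => x₀ + t • v) (𝓝[≠] 0) (𝓝 x₀) := by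
    have hc : Continuous (fun t : ℝ => x₀ + t • v) := by fun_prop
    have := hc.tendsto 0
    rw [zero_smul, add_zero] at this
    exact this.mono_left nhdsWithin_le_nhds
  have h1 := h.quot hU hx hy (tendsto_const_nhds (x := w))
  have h2 := (h.deriv x₀ hx v).add h1
  refine tendsto_nhds_unique (h.deriv x₀ hx (v + w)) (h2.congr fun t => ?_)
  rw [← smul_add, smul_add t v w, ← add_assoc]
  congr 1
  abel

end

section normed

variable {E : Type u} {F : Type v} [NormedAddCommGroup E] [NormedSpace ℝ E] [AddCommGroup F]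
  [Module ℝ F] [TopologicalSpace F] [IsTopologicalAddGroup F] [ContinuousSMul ℝ F]
  [LocallyConvexSpace ℝ F] [T2Space F]

variable {f : E → F} {df : E × E → F} {ddf : (E × E) × (E × E) → F} {U : Set E}

/-- homogeneity of the second derivative in the first variable -/
theorem ddf_smul (h : C1 f df U) (h' : C1 df ddf (U ×ˢ univ)) (hU : IsOpen U) {y : E}
    (hy : y ∈ U) (v w : E) (s : ℝ) :
    ddf ((y, s • v), (w, 0)) = s • ddf ((y, v), (w, 0)) := by
  have h1 := h'.deriv (y, s • v) ⟨hy, mem_univ _⟩ (w, 0)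
  have h2 := (h'.deriv (y, v) ⟨hy, mem_univ _⟩ (w, 0)).const_smul s
  refine tendsto_nhds_unique h1 (h2.congr' ?_)
  have hc : Tendsto (fun t : ℝ => y + t • w) (𝓝[≠] 0) (𝓝 y) := by
    have hc : Continuous (fun t : ℝ => y + t • w) := by fun_prop
    have := hc.tendsto 0
    rw [zero_smul, add_zero] at this
    exact this.mono_left nhdsWithin_le_nhds
  filter_upwards [hc.eventually (hU.mem_nhds hy)] with t ht
  simp only [Prod.smul_mk, Prod.mk_add_mk, smul_zero, add_zero]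
  rw [h.smul ht s, h.smul hy s, ← smul_sub, smul_comm]

/-- Taylor estimate for functionals -/
theorem taylor (h : C1 f df U) (h' : C1 df ddf (U ×ˢ univ)) (hU : IsOpen U) (h0 : (0 : E) ∈ U)
    (l : F →L[ℝ] ℝ) :
    ∃ δ > 0, ∃ C : ℝ, 0 ≤ C ∧ ∀ x : E, ‖x‖ < δ → |l (f x - f 0 - df (0, x))| ≤ C * ‖x‖ ^ 2 := by
  have hcont : ContinuousAt (fun z : E × E × E => l (ddf ((z.1, z.2.1), (z.2.2, 0)))) 0 := by
    have h1 : ContinuousAt ddf ((0, 0), (0, 0)) := by
      refine h'.cont.continuousAt (((hU.prod isOpen_univ).prod isOpen_univ).mem_nhds ?_)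
      exact ⟨⟨h0, mem_univ _⟩, mem_univ _⟩
    have h2 : ContinuousAt (fun z : E × E × E => ((z.1, z.2.1), (z.2.2, (0 : E)))) 0 := by
      fun_prop
    exact l.continuous.continuousAt.comp (ContinuousAt.comp (f := fun z : E × E × E =>
      ((z.1, z.2.1), (z.2.2, (0 : E)))) h1 h2)
  have hz : l (ddf (((0 : E × E × E).1, (0 : E × E × E).2.1), ((0 : E × E × E).2.2, 0))) = 0 := by
    have h3 := h'.zero (x₀ := ((0 : E), (0 : E))) ⟨h0, mem_univ _⟩
    have : ddf (((0 : E), (0 : E)), ((0 : E), (0 : E))) = 0 := h3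
    change l (ddf (((0 : E), (0 : E)), ((0 : E), (0 : E)))) = 0
    rw [this, map_zero]
  have hev := hcont.eventually (Metric.ball_mem_nhds _ one_pos)
  rw [Metric.eventually_nhds_iff] at hev
  obtain ⟨δ₁, hδ₁, hb⟩ := hev
  obtain ⟨δ₂, hδ₂, hbU⟩ := Metric.isOpen_iff.mp hU 0 h0
  -- bound on the bilinear expression
  set η := min δ₁ δ₂ / 2 with hη
  have hηpos : 0 < η := by positivity
  have hη1 : η < δ₁ := by
    have := min_le_left δ₁ δ₂
    have : 0 < min δ₁ δ₂ := lt_min hδ₁ hδ₂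
    rw [hη]; linarith
  have hη2 : η < δ₂ := by
    have := min_le_right δ₁ δ₂
    have : 0 < min δ₁ δ₂ := lt_min hδ₁ hδ₂
    rw [hη]; linarith
  have hbound : ∀ y v w : E, ‖y‖ ≤ η → ‖v‖ ≤ η → ‖w‖ ≤ η →
      |l (ddf ((y, v), (w, 0)))| ≤ 1 := by
    intro y v w hy hv hw
    have h1 : dist (y, v, w) (0 : E × E × E) < δ₁ := by
      rw [dist_zero_right, Prod.norm_def, Prod.norm_def]
      exact max_lt (lt_of_le_of_lt hy hη1) (max_lt (lt_of_le_of_lt hv hη1)
        (lt_of_le_of_lt hw hη1))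
    have h2 := hb h1
    rw [Real.dist_eq] at h2
    change |_ - l (ddf (((0 : E × E × E).1, (0 : E × E × E).2.1), ((0 : E × E × E).2.2, 0)))| < 1
      at h2
    rw [hz, sub_zero] at h2
    exact h2.le
  refine ⟨η, hηpos, η⁻¹ ^ 2, by positivity, fun x hx => ?_⟩
  rcases eq_or_ne x 0 with rfl | hx0
  · rw [h.zero h0]; simp
  have hxpos : 0 < ‖x‖ := norm_pos_iff.mpr hx0
  have hin : ∀ s : ℝ, |s| ≤ 1 → s • x ∈ U := by
    intro s hs
    apply hbU
    rw [mem_ball_zero_iff, norm_smul, Real.norm_eq_abs]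
    nlinarith [norm_nonneg x, abs_nonneg s]
  -- first mean value
  obtain ⟨s, hs, h1⟩ := mean_value (f := f) (df := fun z => df (z, x)) (a := 0) (b := x) l
    one_ne_zero (fun s hs => h.deriv _ (by rw [zero_add]; exact hin s (by simpa using hs)) x)
  rw [abs_one] at hs
  simp only [inv_one, one_smul, zero_add] at h1
  rcases eq_or_ne s 0 with rfl | hs0
  · rw [zero_smul] at h1
    rw [map_sub, h1, sub_self, abs_zero]
    positivity
  -- second mean value
  obtain ⟨r, hr, h2⟩ := mean_value (f := df) (df := fun z => ddf (z, (x, 0))) (a := (0, x))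
    (b := (x, 0)) l hs0 (fun r hr => h'.deriv _ (by
      refine ⟨?_, mem_univ _⟩
      simp only [Prod.smul_mk, Prod.mk_add_mk, zero_add]
      exact hin r (hr.trans hs)) (x, 0))
  simp only [Prod.smul_mk, Prod.mk_add_mk, zero_add, smul_zero, add_zero, map_smul,
    smul_eq_mul] at h2
  have hr1 : |r| ≤ 1 := hr.trans hs
  have h3 : l (f x - f 0 - df (0, x)) = s * l (ddf ((r • x, x), (x, 0))) := by
    rw [map_sub, h1, ← map_sub, ← h2, ← mul_assoc, mul_inv_cancel₀ hs0, one_mul]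
  -- scaling
  set c := ‖x‖ / η with hc
  have hcpos : 0 < c := by positivity
  have hxc : x = c • (c⁻¹ • x) := by rw [smul_smul, mul_inv_cancel₀ hcpos.ne', one_smul]
  have hnorm : ‖c⁻¹ • x‖ ≤ η := by
    rw [norm_smul, norm_inv, Real.norm_eq_abs, abs_of_pos hcpos, hc, inv_div]
    rw [div_mul_cancel₀ _ hxpos.ne']
  have hrx : r • x ∈ U := hin r hr1
  have hrn : ‖r • x‖ ≤ η := by
    rw [norm_smul, Real.norm_eq_abs]
    nlinarith [norm_nonneg x, abs_nonneg r]
  have h4 : ddf ((r • x, x), (x, 0)) = (c * c) • ddf ((r • x, c⁻¹ • x), (c⁻¹ • x, 0)) := by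
    have e1 : ddf ((r • x, x), (x, 0)) = c • ddf ((r • x, c⁻¹ • x), (x, 0)) := by
      conv_lhs => rw [show ((r • x, x), (x, (0 : E))) = ((r • x, c • (c⁻¹ • x)), (x, (0 : E))) by
        rw [← hxc]]
      exact ddf_smul h h' hU hrx _ _ c
    have e2 : ddf ((r • x, c⁻¹ • x), (x, 0)) = c • ddf ((r • x, c⁻¹ • x), (c⁻¹ • x, 0)) := by
      have := h'.smul (x₀ := (r • x, c⁻¹ • x)) ⟨hrx, mem_univ _⟩ (v := (c⁻¹ • x, 0)) c
      rw [Prod.smul_mk, smul_zero, ← hxc] at this
      exact this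
    rw [e1, e2, smul_smul]
  rw [h3, h4, map_smul, smul_eq_mul, abs_mul, abs_mul, abs_of_nonneg (by positivity : 0 ≤ c * c)]
  have h5 := hbound (r • x) (c⁻¹ • x) (c⁻¹ • x) hrn hnorm hnorm
  calc |s| * (c * c * |l (ddf ((r • x, c⁻¹ • x), (c⁻¹ • x, 0)))|) ≤ 1 * (c * c * 1) := by
        gcongr
    _ = η⁻¹ ^ 2 * ‖x‖ ^ 2 := by rw [hc]; field_simp

end normed

end Pool.Agent.Lib.MP_862e0f_al
end

section

/-!
# Curves in locally convex Lie groups
-/

set_option autoImplicit false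
set_option linter.unusedSectionVars false

namespace Pool.Agent.Lib.MP_862e0f_al

open Filter Topology Set

universe u v w x

section

variable {E : Type u} {F : Type v} [AddCommGroup E] [Module ℝ E]
    [TopologicalSpace E] [AddCommGroup F] [Module ℝ F] [TopologicalSpace F]
    [IsTopologicalAddGroup E] [ContinuousSMul ℝ E] [IsTopologicalAddGroup F]
    [ContinuousSMul ℝ F]

theorem BastianiSmooth.c1 {f : E → F} {U : Set E} (h : BastianiSmooth f U) :
    ∃ df, C1 f df U := by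
  obtain ⟨-, df, h1, h2⟩ := h 1
  exact ⟨df, h1, h2⟩

theorem BastianiSmooth.c2 {f : E → F} {U : Set E} (h : BastianiSmooth f U) :
    ∃ df ddf, C1 f df U ∧ C1 df ddf (U ×ˢ univ) := by
  obtain ⟨-, df, h1, hc, ddf, h2, h3⟩ := h 2
  exact ⟨df, ddf, ⟨h1, hc⟩, ⟨h2, h3⟩⟩

end

section

variable {F : Type v} [AddCommGroup F] [Module ℝ F] [TopologicalSpace F]
  [IsTopologicalAddGroup F] [ContinuousSMul ℝ F]
  {K : Type u} [Group K] [TopologicalSpace K] [ChartedSpace F K]

/-- the curve `k` has velocity `v` at time `0` in the chart `φ` -/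
structure Vel (φ : OpenPartialHomeomorph K F) (k : ℝ → K) (v : F) : Prop where
  cont : ContinuousAt k 0
  mem : k 0 ∈ φ.source
  vel : Tendsto (fun t : ℝ => t⁻¹ • (φ (k t) - φ (k 0))) (𝓝[≠] 0) (𝓝 v)

/-- the multiplication in charts -/
abbrev mulc (φ₁ φ₂ ψ : OpenPartialHomeomorph K F) : F × F → F :=
  fun z => ψ (φ₁.symm z.1 * φ₂.symm z.2)

/-- the domain of the multiplication in charts -/
abbrev muld (φ₁ φ₂ ψ : OpenPartialHomeomorph K F) : Set (F × F) :=
  {z | (z.1 ∈ φ₁.target ∧ z.2 ∈ φ₂.target) ∧ φ₁.symm z.1 * φ₂.symm z.2 ∈ ψ.source}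

variable {φ₁ φ₂ ψ : OpenPartialHomeomorph K F}

theorem muld_open (hK : IsLieGroup F K) : IsOpen (muld φ₁ φ₂ ψ) := by
  have h1 : ContinuousOn (fun z : F × F => φ₁.symm z.1 * φ₂.symm z.2)
      (φ₁.target ×ˢ φ₂.target) := by
    have ha : ContinuousOn (fun z : F × F => φ₁.symm z.1) (φ₁.target ×ˢ φ₂.target) :=
      φ₁.continuousOn_symm.comp continuousOn_fst (fun z hz => hz.1)
    have hb : ContinuousOn (fun z : F × F => φ₂.symm z.2) (φ₁.target ×ˢ φ₂.target) :=
      φ₂.continuousOn_symm.comp continuousOn_snd (fun z hz => hz.2)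
    exact hK.continuous_mul.comp_continuousOn (ha.prodMk hb)
  exact h1.isOpen_inter_preimage (φ₁.open_target.prod φ₂.open_target) ψ.open_source

/-- velocity of a product of curves -/
theorem Vel.mul [LocallyConvexSpace ℝ F] (hK : IsLieGroup F K) {dm : (F × F) × (F × F) → F}
    (hdm : C1 (mulc φ₁ φ₂ ψ) dm (muld φ₁ φ₂ ψ)) {k₁ k₂ : ℝ → K} {v₁ v₂ : F}
    (h₁ : Vel φ₁ k₁ v₁) (h₂ : Vel φ₂ k₂ v₂) (hm : k₁ 0 * k₂ 0 ∈ ψ.source) :
    Vel ψ (fun t => k₁ t * k₂ t) (dm ((φ₁ (k₁ 0), φ₂ (k₂ 0)), (v₁, v₂))) where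
  cont := hK.continuous_mul.continuousAt.comp (h₁.cont.prodMk h₂.cont)
  mem := hm
  vel := by
    have hx : (φ₁ (k₁ 0), φ₂ (k₂ 0)) ∈ muld φ₁ φ₂ ψ := by
      refine ⟨⟨φ₁.map_source h₁.mem, φ₂.map_source h₂.mem⟩, ?_⟩
      rw [φ₁.left_inv h₁.mem, φ₂.left_inv h₂.mem]
      exact hm
    have h3 := hdm.quot (muld_open hK) hx (y := fun _ => (φ₁ (k₁ 0), φ₂ (k₂ 0)))
      (w := fun t => (t⁻¹ • (φ₁ (k₁ t) - φ₁ (k₁ 0)), t⁻¹ • (φ₂ (k₂ t) - φ₂ (k₂ 0))))
      tendsto_const_nhds (h₁.vel.prodMk_nhds h₂.vel)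
    refine h3.congr' ?_
    have e1 : ∀ᶠ t in 𝓝[≠] (0 : ℝ), k₁ t ∈ φ₁.source :=
      (h₁.cont.eventually (φ₁.open_source.mem_nhds h₁.mem)).filter_mono nhdsWithin_le_nhds
    have e2 : ∀ᶠ t in 𝓝[≠] (0 : ℝ), k₂ t ∈ φ₂.source :=
      (h₂.cont.eventually (φ₂.open_source.mem_nhds h₂.mem)).filter_mono nhdsWithin_le_nhds
    filter_upwards [e1, e2, self_mem_nhdsWithin] with t ht1 ht2 ht
    have ht' : t ≠ 0 := ht
    simp only [mulc, Prod.smul_mk, Prod.mk_add_mk, smul_smul, mul_inv_cancel₀ ht', one_smul,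
      add_sub_cancel, φ₁.left_inv ht1, φ₂.left_inv ht2, φ₁.left_inv h₁.mem, φ₂.left_inv h₂.mem]

theorem Vel.const {φ : OpenPartialHomeomorph K F} {a : K} (ha : a ∈ φ.source) :
    Vel φ (fun _ => a) 0 where
  cont := continuousAt_const
  mem := ha
  vel := by
    simp only [sub_self, smul_zero]
    exact tendsto_const_nhds

variable [LocallyConvexSpace ℝ F] [T2Space F]

/-- flat curves: the product of two flat curves is flat -/
theorem Vel.mul_zero (hK : IsLieGroup F K) (h₁' : φ₁ ∈ atlas F K) (h₂' : φ₂ ∈ atlas F K)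
    (hψ : ψ ∈ atlas F K) {k₁ k₂ : ℝ → K} (h₁ : Vel φ₁ k₁ 0) (h₂ : Vel φ₂ k₂ 0)
    (hm : k₁ 0 * k₂ 0 ∈ ψ.source) : Vel ψ (fun t => k₁ t * k₂ t) 0 := by
  obtain ⟨dm, hdm⟩ := (hK.smooth_mul φ₁ h₁' φ₂ h₂' ψ hψ).c1
  have h3 := h₁.mul hK hdm h₂ hm
  have hx : (φ₁ (k₁ 0), φ₂ (k₂ 0)) ∈ muld φ₁ φ₂ ψ := by
    refine ⟨⟨φ₁.map_source h₁.mem, φ₂.map_source h₂.mem⟩, ?_⟩
    rw [φ₁.left_inv h₁.mem, φ₂.left_inv h₂.mem]
    exact hm
  have h4 : dm ((φ₁ (k₁ 0), φ₂ (k₂ 0)), ((0 : F), (0 : F))) = 0 := hdm.zero hx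
  rw [h4] at h3
  exact h3

/-- the derivative of the multiplication at the unit -/
theorem dm_one (hK : IsLieGroup F K) {φ : OpenPartialHomeomorph K F} (h1 : (1 : K) ∈ φ.source)
    {dm : (F × F) × (F × F) → F} (hdm : C1 (mulc φ φ φ) dm (muld φ φ φ)) (v w : F) :
    dm ((φ 1, φ 1), (v, w)) = v + w := by
  have hx : (φ 1, φ 1) ∈ muld φ φ φ := by
    refine ⟨⟨φ.map_source h1, φ.map_source h1⟩, ?_⟩
    rw [φ.left_inv h1, mul_one]
    exact h1
  have hc : ∀ v : F, ∀ᶠ t in 𝓝[≠] (0 : ℝ), φ 1 + t • v ∈ φ.target := by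
    intro v
    have hc : Continuous (fun t : ℝ => φ 1 + t • v) := by fun_prop
    have := hc.tendsto 0
    rw [zero_smul, add_zero] at this
    exact (this.eventually (φ.open_target.mem_nhds (φ.map_source h1))).filter_mono
      nhdsWithin_le_nhds
  have ha : dm ((φ 1, φ 1), (v, 0)) = v := by
    refine tendsto_nhds_unique (hdm.deriv _ hx (v, 0)) ?_
    refine (tendsto_const_nhds (x := v)).congr' ?_
    filter_upwards [hc v, self_mem_nhdsWithin] with t ht ht0
    have ht' : t ≠ 0 := ht0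
    simp only [mulc, Prod.smul_mk, Prod.mk_add_mk, smul_zero, add_zero, φ.left_inv h1, mul_one,
      φ.right_inv ht, add_sub_cancel_left, smul_smul, inv_mul_cancel₀ ht', one_smul]
  have hb : dm ((φ 1, φ 1), (0, w)) = w := by
    refine tendsto_nhds_unique (hdm.deriv _ hx (0, w)) ?_
    refine (tendsto_const_nhds (x := w)).congr' ?_
    filter_upwards [hc w, self_mem_nhdsWithin] with t ht ht0
    have ht' : t ≠ 0 := ht0
    simp only [mulc, Prod.smul_mk, Prod.mk_add_mk, smul_zero, add_zero, φ.left_inv h1, one_mul,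
      φ.right_inv ht, add_sub_cancel_left, smul_smul, inv_mul_cancel₀ ht', one_smul]
  have := hdm.add (muld_open hK) hx (v, 0) (0, w)
  rw [Prod.mk_add_mk, add_zero, zero_add, ha, hb] at this
  exact this

/-- one-parameter groups with the same velocity coincide -/
theorem one_param_unique [T2Space K] (hK : IsLieGroup F K) {φ : OpenPartialHomeomorph K F}
    (hφ : φ ∈ atlas F K) (h1 : (1 : K) ∈ φ.source) {c₁ c₂ : ℝ → K} (hc₁ : Continuous c₁)
    (hc₂ : Continuous c₂) (ha₁ : ∀ s t, c₁ (s + t) = c₁ s * c₁ t)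
    (ha₂ : ∀ s t, c₂ (s + t) = c₂ s * c₂ t) (hz₁ : c₁ 0 = 1) (hz₂ : c₂ 0 = 1) {v : F}
    (hv₁ : Vel φ c₁ v) (hv₂ : Vel φ (fun t => c₂ (-t)) (-v)) : c₁ = c₂ := by
  have hcomm : ∀ t, c₂ t * c₂ (-t) = 1 := fun t => by rw [← ha₂, add_neg_cancel, hz₂]
  -- the curve `k` is flat
  obtain ⟨dm, hdm⟩ := (hK.smooth_mul φ hφ φ hφ φ hφ).c1
  have hk := hv₁.mul hK hdm hv₂ (by rw [hz₁, neg_zero, hz₂, mul_one]; exact h1)
  rw [hz₁, neg_zero, hz₂, dm_one hK h1 hdm, add_neg_cancel] at hk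
  -- the curve `h` has zero derivative
  have hflat : ∀ t₀ : ℝ, c₁ t₀ * c₂ (-t₀) ∈ φ.source →
      Vel φ (fun s => c₁ (t₀ + s) * c₂ (-(t₀ + s))) 0 := by
    intro t₀ ht₀
    have e : (fun s => c₁ (t₀ + s) * c₂ (-(t₀ + s))) =
        fun s => (c₁ t₀ * (c₁ s * c₂ (-s))) * c₂ (-t₀) := by
      funext s
      rw [neg_add_rev, ha₁, ha₂]
      simp only [mul_assoc]
    rw [e]
    have h2 := Vel.mul_zero hK (chart_mem_atlas F (c₁ t₀)) hφ (chart_mem_atlas F (c₁ t₀))
      (Vel.const (mem_chart_source F (c₁ t₀))) hk (by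
        simp only [hz₁, neg_zero, hz₂, mul_one]
        exact mem_chart_source F (c₁ t₀))
    refine Vel.mul_zero hK (chart_mem_atlas F (c₁ t₀)) (chart_mem_atlas F (c₂ (-t₀))) hφ h2
      (Vel.const (mem_chart_source F (c₂ (-t₀)))) ?_
    simp only [hz₁, neg_zero, hz₂, mul_one]
    exact ht₀
  -- so `h` is locally constant near `0`
  have hh : Continuous (fun t => c₁ t * c₂ (-t)) :=
    hK.continuous_mul.comp (hc₁.prodMk (hc₂.comp continuous_neg))
  have hev : ∀ᶠ t in 𝓝 (0 : ℝ), c₁ t * c₂ (-t) ∈ φ.source := by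
    refine hh.continuousAt.eventually (φ.open_source.mem_nhds ?_)
    simp only [hz₁, neg_zero, hz₂, mul_one]
    exact h1
  obtain ⟨η, hη, hb⟩ := Metric.eventually_nhds_iff.mp hev
  have hder : ∀ (l : F →L[ℝ] ℝ) (t : ℝ), |t| < η →
      HasDerivAt (fun s => l (φ (c₁ s * c₂ (-s)))) 0 t := by
    intro l t ht
    rw [hasDerivAt_iff_tendsto_slope_zero]
    have h3 := (l.continuous.tendsto 0).comp (hflat t (hb (by simpa using ht))).vel
    rw [map_zero] at h3
    refine h3.congr fun s => ?_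
    simp only [Function.comp_apply, map_smul, map_sub, add_zero, smul_eq_mul]
  have hconst : ∀ t : ℝ, |t| < η → φ (c₁ t * c₂ (-t)) = φ (c₁ 0 * c₂ (-0)) := by
    intro t ht
    rw [SeparatingDual.eq_iff_forall_dual_eq (R := ℝ)]
    intro l
    have hconv : Convex ℝ (Metric.ball (0 : ℝ) η) := convex_ball 0 η
    have h4 := hconv.is_const_of_fderivWithin_eq_zero (𝕜 := ℝ)
      (f := fun s => l (φ (c₁ s * c₂ (-s))))
      (fun s hs => (hder l s (by simpa using hs)).differentiableAt.differentiableWithinAt)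
      (fun s hs => by
        have h5 := (hder l s (by simpa using hs)).hasFDerivAt
        have h6 := h5.hasFDerivWithinAt (s := Metric.ball (0 : ℝ) η)
        rw [h6.fderivWithin (Metric.isOpen_ball.uniqueDiffWithinAt hs)]
        ext
        simp)
      (x := t) (y := 0) (by simpa using ht) (by simpa using hη)
    exact h4
  have hloc : ∀ t : ℝ, |t| < η → c₁ t = c₂ t := by
    intro t ht
    have h4 := hconst t ht
    have h5 : c₁ t * c₂ (-t) = c₁ 0 * c₂ (-0) :=
      φ.injOn (hb (by simpa using ht)) (hb (by simpa using hη)) h4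
    rw [hz₁, neg_zero, hz₂, mul_one] at h5
    have h6 := hcomm t
    have h7 : c₂ t * c₂ (-t) = c₁ t * c₂ (-t) := by rw [h6, h5]
    exact (mul_right_cancel h7).symm
  -- powers
  have hpow : ∀ (c : ℝ → K), c 0 = 1 → (∀ s t, c (s + t) = c s * c t) →
      ∀ (n : ℕ) (t : ℝ), c (n * t) = c t ^ n := by
    intro c hc0 hc n t
    induction n with
    | zero => simp [hc0]
    | succ n ih => rw [Nat.cast_succ, add_mul, one_mul, hc, ih, pow_succ]
  funext t
  obtain ⟨n, hn⟩ := exists_nat_gt (|t| / η)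
  have hnpos : (0 : ℝ) < n := lt_of_le_of_lt (by positivity) hn
  have h8 : |t / n| < η := by
    rw [abs_div, abs_of_pos hnpos, div_lt_iff₀ hnpos]
    rw [div_lt_iff₀ hη] at hn
    linarith
  have h9 : (n : ℝ) * (t / n) = t := by field_simp
  rw [← h9, hpow c₁ hz₁ ha₁, hpow c₂ hz₂ ha₂, hloc _ h8]

end

end Pool.Agent.Lib.MP_862e0f_al
end
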