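import Mathlib
import Pool.Agent.Lib.MP_862e0f_al.Mg.G001
import Pool.Agent.Lib.MP_862e0f_al.Mg.G007
import Pool.Agent.Lib.MP_862e0f_al.Defs

section

/-!
# Smooth penalty functions for a norm on a finite-dimensional subspace (TASK EV Pen)

Proof. `E` is finite-dimensional and `N` is a norm on `E`.
(1) There are finitely many continuous linear functionals `φ i : V →L[ℝ] ℝ` with
`|φ i x| ≤ N x` for `x ∈ E` and `c * N x ≤ max_i |φ i x|` for `x ∈ E`, where `c < 1` is chosen with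
`a < c * b`: the sphere `{x ∈ E | N x = 1}` is compact (`N` is continuous on the finite-dimensional
space `E` and, being a norm, bounded below by a multiple of `‖x‖`); for every `x₀` in the sphere
Hahn-Banach gives a linear functional `g` on `E` with `g x₀ = 1`, `|g| ≤ N`, and `c < g` near `x₀`;
take a finite subcover; extend the functionals to `V` by a continuous projection `V → E`
(`Submodule.ClosedComplemented.of_finiteDimensional` or Hahn-Banach).
(2) Choose `p ≥ 1` with `m * a ^ (2 * p) < (c * b) ^ (2 * p)`, `m` the number of functionals, and put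
`ψ x = ∑ i, φ i x ^ (2 * p)`, `α = m * a ^ (2 * p)`, `β = (c * b) ^ (2 * p)`,
`χ x = Real.smoothTransition ((ψ x - α) / (β - α))`.
For `x ∈ E`: `N x ≤ a` gives `ψ x ≤ α`, so `χ x = 0`; `b ≤ N x` gives `β ≤ ψ x`, so `χ x = 1`.
(3) Ray condition: `fderiv χ (x + w) w = θ' * Dψ(x + w) w` with `θ' ≥ 0` (monotonicity of
`Real.smoothTransition`), and if `ψ (x + w) < α` then `χ = 0` near `x + w`, so the derivative is
zero (or use `θ' = 0` there). If `ψ (x + w) ≥ α ≥ ψ x`: by convexity of `y ↦ y ^ (2 * p)`,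
`Dψ(x + w) w = ∑ 2 p φ i (x + w) ^ (2 p - 1) φ i w ≥ ψ (x + w) - ψ x ≥ 0`.
-/

set_option autoImplicit false

namespace Pool.Agent.Lib.MP_862e0f_al.EV

open Filter Topology Set
open scoped ContDiff

private theorem Pen_hb {V : Type} [NormedAddCommGroup V] [NormedSpace ℝ V] (E : Submodule ℝ V)
    [FiniteDimensional ℝ E] (N : Seminorm ℝ V) (x₀ : V) (hx : x₀ ∈ E) (hx0 : x₀ ≠ 0) :
    ∃ g : V →L[ℝ] ℝ, g x₀ = N x₀ ∧ ∀ x ∈ E, |g x| ≤ N x := by
  obtain ⟨g, hg, hgN⟩ := exists_extension_of_le_sublinear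
    (LinearPMap.mkSpanSingleton x₀ (N x₀) hx0) N
    (fun c hc x => by rw [map_smul_eq_mul, Real.norm_of_nonneg hc.le])
    (fun x y => map_add_le_add N x y) (by
      rintro ⟨x, hx⟩
      obtain ⟨c, rfl⟩ := Submodule.mem_span_singleton.mp hx
      have h0 : (LinearPMap.mkSpanSingleton x₀ (N x₀) hx0 : V →ₗ.[ℝ] ℝ) ⟨c • x₀, hx⟩ =
          c • N x₀ := LinearPMap.mkSpanSingleton'_apply _ _ _ _ _
      show (LinearPMap.mkSpanSingleton x₀ (N x₀) hx0 : V →ₗ.[ℝ] ℝ) ⟨c • x₀, hx⟩ ≤ N (c • x₀)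
      rw [h0]
      simp only [smul_eq_mul, map_smul_eq_mul]
      exact mul_le_mul_of_nonneg_right (le_abs_self c) (apply_nonneg N x₀))
  obtain ⟨P, hP⟩ := Submodule.ClosedComplemented.of_finiteDimensional (𝕜 := ℝ) E
  have hgx : g x₀ = N x₀ := by
    have h1 := hg ⟨x₀, Submodule.mem_span_singleton_self x₀⟩
    rw [LinearPMap.mkSpanSingleton_apply] at h1
    exact h1
  have key : ∀ x ∈ E, (((g ∘ₗ E.subtype).toContinuousLinearMap ∘L P : V →L[ℝ] ℝ)) x = g x := by
    intro x hx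
    have := hP ⟨x, hx⟩
    simp only at this
    simp [this]
  refine ⟨(g ∘ₗ E.subtype).toContinuousLinearMap ∘L P, ?_, ?_⟩
  · rw [key x₀ hx, hgx]
  · intro x hx
    rw [key x hx, abs_le]
    constructor
    · have h2 := hgN (-x)
      rw [map_neg, map_neg_eq_map] at h2
      linarith
    · exact hgN x

private theorem Pen_cont {V : Type} [NormedAddCommGroup V] [NormedSpace ℝ V] (E : Submodule ℝ V)
    [FiniteDimensional ℝ E] (N : Seminorm ℝ V) : Continuous (fun x : E => N (x : V)) := by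
  have h := ((N.comp E.subtype).convexOn).continuousOn isOpen_univ
  rw [← continuousOn_univ]
  exact h

private theorem Pen_fin {V : Type} [NormedAddCommGroup V] [NormedSpace ℝ V] (E : Submodule ℝ V)
    [FiniteDimensional ℝ E] (N : Seminorm ℝ V) (hN : ∀ x ∈ E, N x = 0 → x = 0) (c : ℝ)
    (hc : c < 1) : ∃ s : Finset (V →L[ℝ] ℝ), (∀ φ ∈ s, ∀ x ∈ E, |φ x| ≤ N x) ∧
      ∀ x ∈ E, x ≠ 0 → ∃ φ ∈ s, c * N x < |φ x| := by
  classical
  have hch : ∀ x : E, ∃ g : V →L[ℝ] ℝ, (x ≠ 0 → g x = N x) ∧ ∀ y ∈ E, |g y| ≤ N y := by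
    intro x
    by_cases hx : x = 0
    · exact ⟨0, fun h => absurd hx h, fun y _ => by simp⟩
    · obtain ⟨g, h1, h2⟩ := Pen_hb E N x x.2 (by simpa using hx)
      exact ⟨g, fun _ => h1, h2⟩
  choose g hg1 hg2 using hch
  have hopen : ∀ x : E, IsOpen {y : E | c * N (y : V) < |g x (y : V)|} := by
    intro x
    refine isOpen_lt (continuous_const.mul (Pen_cont E N)) ?_
    exact ((g x).continuous.comp continuous_subtype_val).abs
  have hcpt : IsCompact (Metric.sphere (0 : E) 1) := isCompact_sphere 0 1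
  obtain ⟨t, ht⟩ := hcpt.elim_finite_subcover (fun x : Metric.sphere (0 : E) 1 =>
      {y : E | c * N (y : V) < |g x (y : V)|}) (fun x => hopen x) (by
    intro x hx
    have hx0 : x ≠ 0 := by
      rintro rfl
      simp at hx
    refine Set.mem_iUnion.mpr ⟨⟨x, hx⟩, ?_⟩
    show c * N (x : V) < |g x (x : V)|
    have hpos : 0 < N (x : V) := by
      refine lt_of_le_of_ne (apply_nonneg N _) ?_
      intro h
      exact hx0 (by simpa using hN x x.2 h.symm)
    rw [hg1 x hx0, abs_of_pos hpos]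
    nlinarith)
  refine ⟨t.image (fun x : Metric.sphere (0 : E) 1 => g (x : E)), ?_, ?_⟩
  · intro φ hφ x hx
    obtain ⟨y, _, rfl⟩ := Finset.mem_image.mp hφ
    exact hg2 _ x hx
  · intro x hx hx0
    have hne : (⟨x, hx⟩ : E) ≠ 0 := by
      intro h
      exact hx0 (congrArg Subtype.val h)
    have hnp : 0 < ‖(⟨x, hx⟩ : E)‖ := norm_pos_iff.mpr hne
    have hmem : (‖(⟨x, hx⟩ : E)‖⁻¹ • (⟨x, hx⟩ : E)) ∈ Metric.sphere (0 : E) 1 := by
      rw [mem_sphere_zero_iff_norm, norm_smul, norm_inv, norm_norm]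
      exact inv_mul_cancel₀ hnp.ne'
    obtain ⟨y, hy, hy2⟩ := Set.mem_iUnion₂.mp (ht hmem)
    refine ⟨g y, Finset.mem_image.mpr ⟨y, hy, rfl⟩, ?_⟩
    have hy3 : c * N (‖(⟨x, hx⟩ : E)‖⁻¹ • x) < |g y (‖(⟨x, hx⟩ : E)‖⁻¹ • x)| := hy2
    rw [map_smul_eq_mul, map_smul, smul_eq_mul, abs_mul, Real.norm_eq_abs] at hy3
    have hip : 0 < |‖(⟨x, hx⟩ : E)‖⁻¹| := abs_pos.mpr (inv_pos.mpr hnp).ne'
    have : |‖(⟨x, hx⟩ : E)‖⁻¹| * (c * N x) < |‖(⟨x, hx⟩ : E)‖⁻¹| * |g y x| := by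
      linarith [hy3]
    exact lt_of_mul_lt_mul_left this hip.le

private theorem Pen_deriv (g : ℝ → ℝ) (g' : ℝ) (h : HasDerivAt g g' 1)
    (hm : ∀ t, 1 ≤ t → g 1 ≤ g t) : 0 ≤ g' := by
  have h1 := (hasDerivAt_iff_tendsto_slope.mp h).mono_left
    (nhdsWithin_mono (1 : ℝ) (fun t (ht : t ∈ Set.Ioi 1) => (ne_of_gt ht : t ≠ 1)))
  refine ge_of_tendsto h1 ?_
  filter_upwards [self_mem_nhdsWithin] with t ht
  have ht' : (1 : ℝ) < t := ht
  rw [slope_def_field]
  exact div_nonneg (by linarith [hm t ht'.le]) (by linarith)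

theorem exists_pen {V : Type} [NormedAddCommGroup V] [NormedSpace ℝ V] (E : Submodule ℝ V)
    [FiniteDimensional ℝ E] (N : Seminorm ℝ V) (hN : ∀ x ∈ E, N x = 0 → x = 0) (a b : ℝ)
    (ha : 0 < a) (hab : a < b) : ∃ χ : V → ℝ, ContDiff ℝ ∞ χ ∧ (∀ x, 0 ≤ χ x) ∧ (∀ x, χ x ≤ 1) ∧
      (∀ x ∈ E, N x ≤ a → χ x = 0) ∧ (∀ x ∈ E, b ≤ N x → χ x = 1) ∧
      (∀ x ∈ E, ∀ w ∈ E, N x ≤ a → 0 ≤ fderiv ℝ χ (x + w) w) := by
  have hb : 0 < b := ha.trans hab
  obtain ⟨s, hs1, hs2⟩ := Pen_fin E N hN ((a + b) / 2 / b) (by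
    rw [div_lt_one hb]; linarith)
  set d : ℝ := (a + b) / 2 with hd
  have hda : a < d := by rw [hd]; linarith
  have hd0 : 0 < d := ha.trans hda
  obtain ⟨n, hn⟩ := pow_unbounded_of_one_lt ((s.card : ℝ) + 1) ((one_lt_div ha).mpr hda)
  have hαβ : ((s.card : ℝ) + 1) * a ^ (2 * n) < d ^ (2 * n) := by
    have h1 : (d / a) ^ n ≤ (d / a) ^ (2 * n) :=
      pow_le_pow_right₀ ((one_lt_div ha).mpr hda).le (by omega)
    have h2 : ((s.card : ℝ) + 1) < (d / a) ^ (2 * n) := lt_of_lt_of_le hn h1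
    rw [div_pow, lt_div_iff₀ (pow_pos ha _)] at h2
    exact h2
  set α : ℝ := ((s.card : ℝ) + 1) * a ^ (2 * n) with hα
  set β : ℝ := d ^ (2 * n) with hβ
  let ψ : V → ℝ := fun x => ∑ φ ∈ s, (φ x) ^ (2 * n)
  have hψs : ContDiff ℝ ∞ ψ := ContDiff.sum fun φ _ => (φ.contDiff).pow _
  let χ : V → ℝ := fun x => Real.smoothTransition ((ψ x - α) / (β - α))
  have hχs : ContDiff ℝ ∞ χ :=
    Real.smoothTransition.contDiff.comp ((hψs.sub contDiff_const).div_const _)
  have hψa : ∀ x ∈ E, N x ≤ a → ψ x ≤ α := by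
    intro x hx hxa
    have h1 : ∀ φ ∈ s, (φ x) ^ (2 * n) ≤ a ^ (2 * n) := by
      intro φ hφ
      have h2 : |φ x| ≤ a := (hs1 φ hφ x hx).trans hxa
      calc (φ x) ^ (2 * n) = |φ x| ^ (2 * n) := by
            rw [Even.pow_abs (even_two_mul n)]
        _ ≤ a ^ (2 * n) := pow_le_pow_left₀ (abs_nonneg _) h2 _
    calc ψ x ≤ ∑ _φ ∈ s, a ^ (2 * n) := Finset.sum_le_sum h1
      _ = (s.card : ℝ) * a ^ (2 * n) := by rw [Finset.sum_const, nsmul_eq_mul]
      _ ≤ α := by
        rw [hα]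
        have := pow_pos ha (2 * n)
        nlinarith
  have hψb : ∀ x ∈ E, b ≤ N x → β ≤ ψ x := by
    intro x hx hxb
    have hx0 : x ≠ 0 := by
      rintro rfl
      rw [map_zero] at hxb
      linarith
    obtain ⟨φ, hφ, hφ2⟩ := hs2 x hx hx0
    have h3 : d ≤ |φ x| := by
      have : d ≤ d / b * N x := by
        rw [div_mul_eq_mul_div, le_div_iff₀ hb]
        exact mul_le_mul_of_nonneg_left hxb hd0.le
      linarith
    calc β ≤ |φ x| ^ (2 * n) := pow_le_pow_left₀ hd0.le h3 _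
      _ = (φ x) ^ (2 * n) := by rw [Even.pow_abs (even_two_mul n)]
      _ ≤ ψ x := Finset.single_le_sum (f := fun φ : V →L[ℝ] ℝ => (φ x) ^ (2 * n))
          (fun φ _ => (even_two_mul n).pow_nonneg _) hφ
  have hconv : ∀ (x w : V) (t : ℝ), 1 ≤ t →
      ψ (x + w) ≤ (1 / t) * ψ (x + t • w) + (1 - 1 / t) * ψ x := by
    intro x w t ht
    have ht0 : 0 < t := by linarith
    have hcv := (even_two_mul n).convexOn_pow (𝕜 := ℝ)
    have h1 : 1 / t ≤ 1 := by rw [div_le_one ht0]; exact ht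
    calc ψ (x + w) = ∑ φ ∈ s, (φ (x + w)) ^ (2 * n) := rfl
      _ ≤ ∑ φ ∈ s, ((1 / t) * (φ (x + t • w)) ^ (2 * n) + (1 - 1 / t) * (φ x) ^ (2 * n)) := by
        refine Finset.sum_le_sum fun φ _ => ?_
        have h2 := hcv.2 (Set.mem_univ (φ (x + t • w))) (Set.mem_univ (φ x))
          (by positivity : (0 : ℝ) ≤ 1 / t) (by linarith : (0 : ℝ) ≤ 1 - 1 / t) (by ring)
        simp only [smul_eq_mul] at h2
        have h3 : 1 / t * φ (x + t • w) + (1 - 1 / t) * φ x = φ (x + w) := by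
          rw [map_add, map_add, map_smul, smul_eq_mul]
          field_simp
          ring
        rw [h3] at h2
        exact h2
      _ = (1 / t) * ψ (x + t • w) + (1 - 1 / t) * ψ x := by
        rw [Finset.sum_add_distrib, Finset.mul_sum, Finset.mul_sum]
  refine ⟨χ, hχs, fun x => Real.smoothTransition.nonneg _, fun x => Real.smoothTransition.le_one _,
    ?_, ?_, ?_⟩
  · intro x hx hxa
    refine Real.smoothTransition.zero_of_nonpos ?_
    exact div_nonpos_of_nonpos_of_nonneg (by linarith [hψa x hx hxa]) (by linarith)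
  · intro x hx hxb
    refine Real.smoothTransition.one_of_one_le ?_
    rw [one_le_div (by linarith)]
    linarith [hψb x hx hxb]
  · intro x hx w hw hxa
    have hdiff : DifferentiableAt ℝ χ (x + (1 : ℝ) • w) :=
      (hχs.differentiable (by simp)) _
    have h1 : HasDerivAt (fun t : ℝ => x + t • w) w 1 := by
      have := ((hasDerivAt_id (1 : ℝ)).smul_const w).const_add x
      simpa using this
    have h2 : HasDerivAt (fun t : ℝ => χ (x + t • w)) (fderiv ℝ χ (x + (1 : ℝ) • w) w) 1 :=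
      HasFDerivAt.comp_hasDerivAt (l := χ) (f := fun t : ℝ => x + t • w) (1 : ℝ)
        hdiff.hasFDerivAt h1
    rw [one_smul] at h2
    refine Pen_deriv _ _ h2 ?_
    intro t ht
    show χ (x + (1 : ℝ) • w) ≤ χ (x + t • w)
    rw [one_smul]
    rcases le_or_gt (ψ (x + w)) α with h3 | h3
    · have : χ (x + w) = 0 := Real.smoothTransition.zero_of_nonpos
        (div_nonpos_of_nonpos_of_nonneg (by linarith) (by linarith))
      rw [this]
      exact Real.smoothTransition.nonneg _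
    · refine Real.smoothTransition.monotone ?_
      have h4 : ψ (x + w) ≤ ψ (x + t • w) := by
        have h5 := hconv x w t ht
        have h6 := hψa x hx hxa
        have ht0 : 0 < t := by linarith
        have h7 : 0 < 1 / t := by positivity
        have h8 : 1 / t ≤ 1 := by rw [div_le_one ht0]; exact ht
        have h9 : (1 - 1 / t) * ψ x ≤ (1 - 1 / t) * ψ (x + w) :=
          mul_le_mul_of_nonneg_left (by linarith) (by linarith)
        have h10 : (1 / t) * ψ (x + w) ≤ (1 / t) * ψ (x + t • w) := by linarith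
        exact le_of_mul_le_mul_left h10 h7
      exact div_le_div_of_nonneg_right (by linarith) (by linarith)

end Pool.Agent.Lib.MP_862e0f_al.EV
end

section

/-!
# The collapse lemma (TASK EV CL)

Proof. For `y` in the orbit of `x₀` choose `h` with `h • x₀ = y` and put `c y = g₁ h * (g₂ h)⁻¹`. It does not
depend on `h` (`hL` for `h⁻¹ * h'`), and `c (s • y) = g₁ s * c y * (g₂ s)⁻¹`, `c x₀ = 1`. We show `c z = 1`.
Let `O` be any neighbourhood of `1` in `K`. Take `U = g₁⁻¹ O` and the points `y 0, .., y m` given by `hz`.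
For `s ∈ U` and `t` with `s • y j = y j`, `s • t • y j = t • y (j + 1)`:
`c (t • y (j + 1)) * (c (y j))⁻¹ = c (s • t • y j) * (c (s • y j))⁻¹ =
g₁ s * (c (t • y j) * (c (y j))⁻¹) * (g₁ s)⁻¹`, and hence for the products over `j = m - 1, .., 0` (larger `j`
to the left) `P t = g₁ s * Q t * (g₁ s)⁻¹`, where `P t = ∏ c (t • y (j + 1)) * (c (y j))⁻¹`,
`Q t = ∏ c (t • y j) * (c (y j))⁻¹`. As `t → 1` (in `H`), `c (t • y j) = g₁ t * c (y j) * (g₂ t)⁻¹ → c (y j)`,
so `Q t → 1` and `P t → ∏ c (y (j + 1)) * (c (y j))⁻¹ = c (y m) * (c (y 0))⁻¹ = c z` (telescoping). So for a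
small neighbourhood `U'` of `1` (depending on `m`, `y`): `Q t ∈ O` and `(P t)⁻¹ * c z ∈ O`, with `t ∈ U'`
from `hz`: `c z ∈ P t * O ⊆ O * O * O⁻¹ * O`. Since `O` was arbitrary and `K` is Hausdorff, `c z = 1`
(if `c z ≠ 1` there is a neighbourhood `O` of `1` with `c z ∉ O * O * O⁻¹ * O`).
-/

set_option autoImplicit false

namespace Pool.Agent.Lib.MP_862e0f_al.EV

open Filter Topology Set

universe u v w

private noncomputable def CL_P {H : Type u} {K : Type v} {X : Type w} [Group H] [Group K] [MulAction H X]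
    (c : X → K) (y : ℕ → X) : ℕ → H → K
  | 0, _ => 1
  | n + 1, t => (c (t • y (n + 1)) * (c (y n))⁻¹) * CL_P c y n t

private noncomputable def CL_Q {H : Type u} {K : Type v} {X : Type w} [Group H] [Group K] [MulAction H X]
    (c : X → K) (y : ℕ → X) : ℕ → H → K
  | 0, _ => 1
  | n + 1, t => (c (t • y n) * (c (y n))⁻¹) * CL_Q c y n t

theorem collapse {H : Type u} {K : Type v} {X : Type w} [Group H] [TopologicalSpace H]
    [Group K] [TopologicalSpace K] [IsTopologicalGroup K] [T2Space K] [MulAction H X] (x₀ z : X)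
    (g₁ g₂ : H →* K) (h₁ : Continuous g₁) (h₂ : Continuous g₂)
    (hL : ∀ h : H, h • x₀ = x₀ → g₁ h = g₂ h)
    (hz : ∀ U ∈ 𝓝 (1 : H), ∃ (m : ℕ) (y : ℕ → X), y 0 = x₀ ∧ y m = z ∧
      (∀ j, j ≤ m → ∃ h : H, h • x₀ = y j) ∧
      ∀ U' ∈ 𝓝 (1 : H), ∃ s ∈ U, ∃ t ∈ U', (∀ j, j < m → s • y j = y j) ∧
        ∀ j, j < m → s • t • y j = t • y (j + 1))
    (h : H) (hh : h • x₀ = z) : g₁ h = g₂ h := by
  classical
  -- the cocycle
  let c : X → K := fun y => if hy : ∃ h : H, h • x₀ = y then g₁ hy.choose * (g₂ hy.choose)⁻¹ else 1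
  have hc : ∀ k : H, c (k • x₀) = g₁ k * (g₂ k)⁻¹ := by
    intro k
    have hy : ∃ h : H, h • x₀ = k • x₀ := ⟨k, rfl⟩
    have hcd : c (k • x₀) = g₁ hy.choose * (g₂ hy.choose)⁻¹ := dif_pos hy
    rw [hcd]
    have hsp := hy.choose_spec
    have h1 : (k⁻¹ * hy.choose) • x₀ = x₀ := by
      rw [mul_smul, hsp, inv_smul_smul]
    have h2 := hL _ h1
    rw [map_mul, map_mul, map_inv, map_inv] at h2
    -- (g₁ k)⁻¹ * g₁ a = (g₂ k)⁻¹ * g₂ a
    have h3 : g₁ hy.choose = g₁ k * ((g₂ k)⁻¹ * g₂ hy.choose) := by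
      rw [← h2]; group
    rw [h3]; group
  have hact : ∀ (s : H) (y : X), (∃ k : H, k • x₀ = y) → c (s • y) = g₁ s * c y * (g₂ s)⁻¹ := by
    rintro s y ⟨k, rfl⟩
    rw [← mul_smul, hc, hc, map_mul, map_mul]
    group
  have hc0 : c x₀ = 1 := by
    have := hc 1
    rw [one_smul, map_one, map_one] at this
    rw [this]; group
  by_contra hne
  have hcz : c z ≠ 1 := by
    intro h1
    apply hne
    rw [← hh, hc] at h1
    exact mul_inv_eq_one.mp h1
  -- the neighbourhood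
  obtain ⟨O, hO, hOne⟩ : ∃ O ∈ 𝓝 (1 : K), ∀ a ∈ O, ∀ b ∈ O, ∀ e ∈ O, ∀ d ∈ O, a * b * e⁻¹ * d ≠ c z := by
    have hcont : Continuous (fun q : K × K × K × K => q.1 * q.2.1 * q.2.2.1⁻¹ * q.2.2.2) := by
      fun_prop
    have hmem : {x : K | x ≠ c z} ∈ 𝓝 ((fun q : K × K × K × K => q.1 * q.2.1 * q.2.2.1⁻¹ * q.2.2.2)
        ((1 : K), (1 : K), (1 : K), (1 : K))) := by
      apply IsOpen.mem_nhds isOpen_ne
      simpa using hcz.symm
    have h4 := hcont.continuousAt.preimage_mem_nhds hmem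
    rw [nhds_prod_eq, nhds_prod_eq, nhds_prod_eq] at h4
    obtain ⟨A, hA, B', hB', hAB⟩ := Filter.mem_prod_iff.mp h4
    obtain ⟨B, hB, C', hC', hBC⟩ := Filter.mem_prod_iff.mp hB'
    obtain ⟨C, hC, D, hD, hCD⟩ := Filter.mem_prod_iff.mp hC'
    refine ⟨A ∩ (B ∩ (C ∩ D)), Filter.inter_mem hA (Filter.inter_mem hB (Filter.inter_mem hC hD)), ?_⟩
    intro a ha b hb e he d hd
    have hmm : (a, b, e, d) ∈ A ×ˢ B' :=
      ⟨ha.1, hBC ⟨hb.2.1, hCD ⟨he.2.2.1, hd.2.2.2⟩⟩⟩
    exact hAB hmm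
  have hU : g₁ ⁻¹' O ∈ 𝓝 (1 : H) := by
    apply h₁.continuousAt.preimage_mem_nhds
    rwa [map_one]
  obtain ⟨m, y, hy0, hym, hyo, hyU⟩ := hz _ hU
  -- limits
  have hlim : ∀ j, j ≤ m → Tendsto (fun t : H => c (t • y j)) (𝓝 1) (𝓝 (c (y j))) := by
    intro j hj
    have h5 : (fun t : H => c (t • y j)) = fun t : H => g₁ t * c (y j) * (g₂ t)⁻¹ := by
      funext t
      exact hact t _ (hyo j hj)
    rw [h5]
    have h6 : Continuous (fun t : H => g₁ t * c (y j) * (g₂ t)⁻¹) :=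
      (h₁.mul continuous_const).mul h₂.inv
    have h7 := h6.tendsto 1
    simpa using h7
  have hQ : ∀ n, n ≤ m → Tendsto (fun t : H => CL_Q c y n t) (𝓝 1) (𝓝 1) := by
    intro n
    induction n with
    | zero => intro _; exact tendsto_const_nhds
    | succ n ih =>
      intro hn
      have h8 := ((hlim n (by omega)).mul_const (c (y n))⁻¹).mul (ih (by omega))
      rw [mul_inv_cancel, one_mul] at h8
      exact h8
  have hP : ∀ n, n ≤ m → Tendsto (fun t : H => CL_P c y n t) (𝓝 1) (𝓝 (c (y n) * (c (y 0))⁻¹)) := by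
    intro n
    induction n with
    | zero => intro _; rw [mul_inv_cancel]; exact tendsto_const_nhds
    | succ n ih =>
      intro hn
      have h8 := ((hlim (n + 1) hn).mul_const (c (y n))⁻¹).mul (ih (by omega))
      have h9 : c (y (n + 1)) * (c (y n))⁻¹ * (c (y n) * (c (y 0))⁻¹) = c (y (n + 1)) * (c (y 0))⁻¹ := by
        group
      rw [h9] at h8
      exact h8
  have hPm : Tendsto (fun t : H => CL_P c y m t) (𝓝 1) (𝓝 (c z)) := by
    have := hP m le_rfl
    rwa [hym, hy0, hc0, inv_one, mul_one] at this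
  have hPm' : Tendsto (fun t : H => (CL_P c y m t)⁻¹ * c z) (𝓝 1) (𝓝 1) := by
    have := hPm.inv.mul_const (c z)
    rwa [inv_mul_cancel] at this
  have hU' : {t : H | CL_Q c y m t ∈ O ∧ (CL_P c y m t)⁻¹ * c z ∈ O} ∈ 𝓝 (1 : H) :=
    Filter.inter_mem ((hQ m le_rfl) hO) (hPm' hO)
  obtain ⟨s, hs, t, ht, hfix, hmove⟩ := hyU _ hU'
  have hPQ : ∀ n, n ≤ m → CL_P c y n t = g₁ s * CL_Q c y n t * (g₁ s)⁻¹ := by
    intro n
    induction n with
    | zero => intro _; simp [CL_P, CL_Q]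
    | succ n ih =>
      intro hn
      have h10 := ih (by omega)
      have h11 : c (t • y (n + 1)) * (c (y n))⁻¹ = g₁ s * (c (t • y n) * (c (y n))⁻¹) * (g₁ s)⁻¹ := by
        have e1 : c (t • y (n + 1)) = g₁ s * c (t • y n) * (g₂ s)⁻¹ := by
          rw [← hmove n (by omega)]
          apply hact
          obtain ⟨k, hk⟩ := hyo n (by omega)
          exact ⟨t * k, by rw [mul_smul, hk]⟩
        have e2 : c (y n) = g₁ s * c (y n) * (g₂ s)⁻¹ := by
          conv_lhs => rw [← hfix n (by omega)]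
          exact hact s _ (hyo n (by omega))
        rw [e1]
        have e3 : (c (y n))⁻¹ = g₂ s * (c (y n))⁻¹ * (g₁ s)⁻¹ := by
          conv_lhs => rw [e2]
          group
        conv_lhs => rw [e3]
        group
      show (c (t • y (n + 1)) * (c (y n))⁻¹) * CL_P c y n t
        = g₁ s * ((c (t • y n) * (c (y n))⁻¹) * CL_Q c y n t) * (g₁ s)⁻¹
      rw [h10, h11]
      group
  have hfin : c z = g₁ s * CL_Q c y m t * (g₁ s)⁻¹ * ((CL_P c y m t)⁻¹ * c z) := by
    rw [← hPQ m le_rfl, mul_inv_cancel_left]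
  exact hOne _ hs _ ht.1 _ hs _ ht.2 hfin.symm

end Pool.Agent.Lib.MP_862e0f_al.EV
end

section

/-!
# The epimorphism

`H` is a topological group with a surjection `lam` onto the triangular polynomial group `Vb` such that late
starts (`io`) exist. Two continuous homomorphisms into a Hausdorff group which agree on the stabilizer of the
point `0` are equal.
-/

set_option autoImplicit false

namespace Pool.Agent.Lib.MP_862e0f_al.EV

open Filter Topology Set

universe w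

/-- The properties of the Lie group of the tower which are used. -/
structure Late (H : Type) [Group H] [TopologicalSpace H] (lam : H → Vb) (io : ℕ → Vb → H) :
    Prop where
  mul : ∀ g h, lam (g * h) = opb (lam g) (lam h)
  io_lam : ∀ n x, x ∈ Eb n → lam (io n x) = x
  cont : ∀ g k (ε : ℝ), 0 < ε → ∀ᶠ h in 𝓝 g, Nb k (lam h - lam g) < ε
  late : ∀ U ∈ 𝓝 (1 : H), ∃ k : ℕ, ∃ ε : ℝ, 0 < ε ∧ ∀ x, Nb k x < ε →
    ∀ᶠ n in atTop, io n x ∈ U

variable {H : Type} [Group H] [TopologicalSpace H] {lam : H → Vb} {io : ℕ → Vb → H}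

namespace Late

variable (hH : Late H lam io)

include hH

theorem one : lam 1 = 0 := by
  have h := hH.mul 1 1
  rw [mul_one] at h
  calc lam 1 = opb 0 (lam 1) := (zero_opb _).symm
    _ = opb (opb (ivb (lam 1)) (lam 1)) (lam 1) := by rw [ivb_opb]
    _ = opb (ivb (lam 1)) (opb (lam 1) (lam 1)) := opb_assoc _ _ _
    _ = opb (ivb (lam 1)) (lam 1) := by rw [← h]
    _ = 0 := ivb_opb _

/-- The action of `H` on the points. -/
@[reducible] noncomputable def act : MulAction H (ℕ → ℝ) where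
  smul h y := y + (lam h).f y
  one_smul y := by
    change y + (lam 1).f y = y
    rw [hH.one, Vb.zero_f, Pi.zero_apply, add_zero]
  mul_smul g h y := by
    change y + (lam (g * h)).f y = (y + (lam h).f y) + (lam g).f (y + (lam h).f y)
    rw [hH.mul, opb_f, add_assoc]

/-- The stabilizer of the point `0`. -/
noncomputable def stab : Subgroup H :=
  letI := hH.act
  MulAction.stabilizer H (0 : ℕ → ℝ)

theorem mem_stab {h : H} : h ∈ hH.stab ↔ (lam h).f 0 = 0 := by
  letI := hH.act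
  change (0 : ℕ → ℝ) + (lam h).f 0 = 0 ↔ _
  rw [zero_add]

/-- lifts of the elements of `Vb` in every neighbourhood -/
theorem lift (x : Vb) : ∃ h : H, lam h = x := by
  obtain ⟨n, hn⟩ := x.exh
  exact ⟨io n x, hH.io_lam n x hn⟩

theorem lift_nhds {U : Set H} (hU : U ∈ 𝓝 (1 : H)) : ∃ k : ℕ, ∃ ε : ℝ, 0 < ε ∧
    ∀ x, Nb k x < ε → ∃ h ∈ U, lam h = x := by
  obtain ⟨k, ε, hε, h⟩ := hH.late U hU
  refine ⟨k, ε, hε, fun x hx => ?_⟩
  obtain ⟨e, he⟩ := x.exh
  obtain ⟨n, h1, h2⟩ := ((h x hx).and (eventually_ge_atTop e)).exists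
  exact ⟨io n x, h1, hH.io_lam n x (Eb_mono h2 he)⟩

end Late

/-- the point `c` on the axis `i` -/
noncomputable def ax (i : ℕ) (c : ℝ) : ℕ → ℝ := fun j => if j = i then c else 0

theorem ax_zero (i : ℕ) : ax i 0 = 0 := by
  funext j
  unfold ax
  split_ifs <;> rfl

theorem ax_add (i : ℕ) (a b : ℝ) : ax i (a + b) = ax i a + ax i b := by
  funext j
  simp only [ax, Pi.add_apply]
  split_ifs <;> simp

/-- translations -/
theorem exists_tr (i : ℕ) (c : ℝ) : ∃ F : Vb, ∀ x, F.f x = ax i c := by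
  obtain ⟨F, hF⟩ := exists_el i i (Polynomial.C c) (by
    rw [Polynomial.natDegree_C, Nat.cast_zero, zero_mul]
    positivity)
  refine ⟨F, fun x => funext fun j => ?_⟩
  rw [hF, Polynomial.eval_C]
  rfl

theorem Nb_of_ax {F : Vb} {k i : ℕ} {C : ℝ} {g : (ℕ → ℝ) → ℝ} (hC : 0 ≤ C)
    (h : ∀ x, F.f x = ax i (g x))
    (hg : ∀ x : ℕ → ℝ, (∀ l, |x l| ≤ (k : ℝ) + 1) → |g x| ≤ C) : Nb k F ≤ 2 ^ k * C := by
  refine Nb_le fun j x hx => ?_
  rw [h]
  unfold ax
  split_ifs
  · exact hg x hx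
  · rw [abs_zero]; exact hC

theorem Late.axis (hH : Late H lam io) {K : Type w} [Group K] [TopologicalSpace K]
    [IsTopologicalGroup K] [T2Space K] {g₁ g₂ : H →* K} (h₁ : Continuous g₁) (h₂ : Continuous g₂)
    (hL : ∀ h, h ∈ hH.stab → g₁ h = g₂ h) (i : ℕ) (τ : ℝ) (h : H)
    (hh : (lam h).f 0 = ax i τ) : g₁ h = g₂ h := by
  letI := hH.act
  have hsm : ∀ (h : H) (y : ℕ → ℝ), h • y = y + (lam h).f y := fun _ _ => rfl
  refine collapse (0 : ℕ → ℝ) (ax i τ) g₁ g₂ h₁ h₂ (fun h hh => hL h hh) ?_ h ?_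
  swap
  · rw [hsm, zero_add, hh]
  intro U hU
  obtain ⟨k, ε, hε, hlift⟩ := hH.lift_nhds hU
  obtain ⟨m, hm⟩ := exists_nat_gt (2 ^ k * (2 * |τ|) / ε)
  have hm0 : (0 : ℝ) < m := lt_of_le_of_lt (by positivity) hm
  set δ : ℝ := τ / m with hδ
  refine ⟨m, fun j => ax i (j * δ), ?_, ?_, ?_, ?_⟩
  · simp only [Nat.cast_zero, zero_mul, ax_zero]
  · simp only [hδ, mul_div_cancel₀ τ hm0.ne']
  · intro j _
    obtain ⟨F, hF⟩ := exists_tr i (j * δ)
    obtain ⟨h, hh⟩ := hH.lift F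
    exact ⟨h, by rw [hsm, zero_add, hh, hF]⟩
  intro U' hU'
  obtain ⟨k', ε', hε', hlift'⟩ := hH.lift_nhds hU'
  obtain ⟨r, hr0, hr1, hr2⟩ : ∃ r : ℝ, 0 < r ∧ r < (k : ℝ) + 1 ∧ 2 ^ k' * r < ε' := by
    refine ⟨min (1 / 2) (ε' / 2 ^ k' / 2), by positivity, ?_, ?_⟩
    · refine lt_of_le_of_lt (min_le_left _ _) ?_
      have : (0 : ℝ) ≤ k := Nat.cast_nonneg k
      linarith
    · have h1 : min (1 / 2) (ε' / 2 ^ k' / 2) ≤ ε' / 2 ^ k' / 2 := min_le_right _ _
      have h2 : (2 : ℝ) ^ k' * (ε' / 2 ^ k' / 2) = ε' / 2 := by field_simp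
      have h3 : (2 : ℝ) ^ k' * min (1 / 2) (ε' / 2 ^ k' / 2) ≤ 2 ^ k' * (ε' / 2 ^ k' / 2) :=
        mul_le_mul_of_nonneg_left h1 (by positivity)
      linarith
  obtain ⟨p, hp0, hp1, hp2⟩ := exists_poly ((k : ℝ) + 1) r hr0 hr1
  obtain ⟨l, hil, hl⟩ : ∃ l : ℕ, i < l ∧ ((Polynomial.C δ * p).natDegree : ℝ) * (1 / 2) ^ l <
      (1 / 2) ^ i := by
    have h1 : Tendsto (fun l : ℕ => ((Polynomial.C δ * p).natDegree : ℝ) * (1 / 2 : ℝ) ^ l) atTop
        (𝓝 (((Polynomial.C δ * p).natDegree : ℝ) * 0)) :=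
      (tendsto_pow_atTop_nhds_zero_of_lt_one (by norm_num) (by norm_num)).const_mul _
    rw [mul_zero] at h1
    obtain ⟨l, h2, h3⟩ := ((h1.eventually (gt_mem_nhds (by positivity : (0 : ℝ) < (1 / 2) ^ i))).and
      (eventually_gt_atTop i)).exists
    exact ⟨l, h3, h2⟩
  obtain ⟨Fs, hFs⟩ := exists_el i l (Polynomial.C δ * p) hl
  have hFs' : ∀ x, Fs.f x = ax i (δ * p.eval (x l)) := by
    intro x
    funext j
    rw [hFs, Polynomial.eval_mul, Polynomial.eval_C]
    rfl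
  obtain ⟨Ft, hFt⟩ := exists_tr l r
  obtain ⟨s, hs, hsl⟩ := hlift Fs (by
    refine lt_of_le_of_lt (Nb_of_ax (C := 2 * |δ|) (by positivity) hFs' fun x hx => ?_) ?_
    · rw [abs_mul, mul_comm]
      exact mul_le_mul_of_nonneg_right (hp2 _ (hx l)) (abs_nonneg _)
    · rw [hδ, abs_div, abs_of_pos hm0]
      rw [div_lt_iff₀ hε] at hm
      have : (2 : ℝ) ^ k * (2 * (|τ| / m)) = 2 ^ k * (2 * |τ|) / m := by ring
      rw [this, div_lt_iff₀ hm0]
      linarith)
  obtain ⟨t, ht, htl⟩ := hlift' Ft (by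
    refine lt_of_le_of_lt (Nb_of_ax (C := r) hr0.le hFt fun x _ => ?_) hr2
    rw [abs_of_pos hr0])
  refine ⟨s, hs, t, ht, ?_, ?_⟩
  · intro j _
    have : ax i (j * δ) l = 0 := by
      unfold ax
      rw [if_neg hil.ne']
    simp only [hsm]
    rw [hsl, hFs', this, hp0, mul_zero, ax_zero, add_zero]
  · intro j _
    simp only [hsm]
    rw [htl, hFt, hFt, hsl, hFs']
    have : (ax i (j * δ) + ax l r) l = r := by
      rw [Pi.add_apply]
      unfold ax
      rw [if_neg hil.ne', if_pos rfl, zero_add]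
    rw [this, hp1, mul_one]
    have h3 : ((j + 1 : ℕ) : ℝ) * δ = j * δ + δ := by push_cast; ring
    rw [h3, ax_add]
    abel

theorem Late.epi (hH : Late H lam io) {K : Type w} [Group K] [TopologicalSpace K]
    [IsTopologicalGroup K] [T2Space K] {g₁ g₂ : H →* K} (h₁ : Continuous g₁) (h₂ : Continuous g₂)
    (hL : ∀ h, h ∈ hH.stab → g₁ h = g₂ h) : g₁ = g₂ := by
  have key : ∀ (n : ℕ) (h : H), (∀ i, n ≤ i → (lam h).f 0 i = 0) → g₁ h = g₂ h := by
    intro n
    induction n with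
    | zero =>
      intro h hh
      exact hL h ((hH.mem_stab).2 (funext fun i => hh i (Nat.zero_le i)))
    | succ n ih =>
      intro h hh
      obtain ⟨F, hF⟩ := exists_tr n (-(lam h).f 0 n)
      obtain ⟨t, ht⟩ := hH.lift F
      have h3 : g₁ t = g₂ t := hH.axis h₁ h₂ hL n (-(lam h).f 0 n) t (by rw [ht, hF])
      have h4 : g₁ (t * h) = g₂ (t * h) := by
        refine ih (t * h) fun i hi => ?_
        rw [hH.mul, opb_f, ht, hF, Pi.add_apply]
        unfold ax
        split_ifs with h5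
        · subst h5
          exact add_neg_cancel _
        · rw [add_zero]
          exact hh i (by omega)
      rw [map_mul, map_mul, h3] at h4
      exact mul_left_cancel h4
  refine MonoidHom.ext fun h => ?_
  obtain ⟨n, hn⟩ := (lam h).exh
  exact key (n + 1) h fun i hi => hn.2 i (by omega) 0

theorem Late.cont_pt (hH : Late H lam io) (i : ℕ) : Continuous fun h : H => (lam h).f 0 i := by
  rw [continuous_iff_continuousAt]
  intro g
  rw [ContinuousAt, Metric.tendsto_nhds]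
  intro ε hε
  filter_upwards [hH.cont g 0 ε hε] with h hh
  rw [Real.dist_eq]
  refine lt_of_le_of_lt ?_ hh
  have := abs_le_Nb (k := 0) (lam h - lam g) i (x := 0) fun l => by
    rw [Pi.zero_apply, abs_zero]; positivity
  rwa [Vb.sub_f] at this

theorem Late.closed (hH : Late H lam io) : IsClosed (hH.stab : Set H) := by
  have : (hH.stab : Set H) = ⋂ i : ℕ, {h | (lam h).f 0 i = 0} := by
    ext h
    rw [SetLike.mem_coe, hH.mem_stab, mem_iInter]
    exact ⟨fun h1 i => by rw [mem_setOf_eq, h1]; rfl, fun h1 => funext h1⟩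
  rw [this]
  exact isClosed_iInter fun i => isClosed_eq (hH.cont_pt i) continuous_const

theorem Late.ne_top (hH : Late H lam io) : ∃ h : H, h ∉ hH.stab := by
  obtain ⟨F, hF⟩ := exists_tr 0 1
  obtain ⟨t, ht⟩ := hH.lift F
  refine ⟨t, fun h => ?_⟩
  have h1 := congrFun ((hH.mem_stab).1 h) 0
  rw [ht, hF] at h1
  exact one_ne_zero h1

end Pool.Agent.Lib.MP_862e0f_al.EV
end

section

/-!
# Homomorphisms from Banach spaces to locally convex Lie groups
-/

set_option autoImplicit false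
set_option linter.unusedSectionVars false

namespace Pool.Agent.Lib.MP_862e0f_al

open Filter Topology Set

universe u v w x

section linear

/-- continuous linear maps are smooth -/
theorem bastianiCk_linear (k : ℕ) : ∀ {E : Type u} {F : Type v} [AddCommGroup E] [Module ℝ E]
    [TopologicalSpace E] [IsTopologicalAddGroup E] [AddCommGroup F] [Module ℝ F]
    [TopologicalSpace F] [ContinuousSMul ℝ F] (f : E →L[ℝ] F) (U : Set E),
    BastianiCk k E F f U := by
  induction k with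
  | zero => intro E F _ _ _ _ _ _ _ _ f U; exact f.continuous.continuousOn
  | succ k ih =>
    intro E F _ _ _ _ _ _ _ _ f U
    refine ⟨f.continuous.continuousOn, f.comp (ContinuousLinearMap.snd ℝ E E), ?_, ih _ _⟩
    intro x _ v
    refine (tendsto_const_nhds (x := f v)).congr' ?_
    filter_upwards [self_mem_nhdsWithin] with t ht
    have ht' : t ≠ 0 := ht
    rw [map_add, map_smul, add_sub_cancel_left, smul_smul, inv_mul_cancel₀ ht', one_smul]

theorem bastianiSmooth_linear {E : Type u} {F : Type v} [AddCommGroup E] [Module ℝ E]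
    [TopologicalSpace E] [IsTopologicalAddGroup E] [AddCommGroup F] [Module ℝ F]
    [TopologicalSpace F] [ContinuousSMul ℝ F] (f : E →L[ℝ] F) (U : Set E) :
    BastianiSmooth f U := fun k => bastianiCk_linear k f U

/-- maps from the zero space are smooth -/
theorem bastianiCk_subsingleton (k : ℕ) : ∀ {E : Type u} {F : Type v} [AddCommGroup E]
    [Module ℝ E] [TopologicalSpace E] [AddCommGroup F] [Module ℝ F]
    [TopologicalSpace F] [Subsingleton E] (f : E → F) (U : Set E), BastianiCk k E F f U := by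
  induction k with
  | zero =>
    intro E F _ _ _ _ _ _ _ f U
    exact (continuous_of_const fun x y => congrArg f (Subsingleton.elim x y)).continuousOn
  | succ k ih =>
    intro E F _ _ _ _ _ _ _ f U
    refine ⟨(continuous_of_const fun x y => congrArg f (Subsingleton.elim x y)).continuousOn,
      fun _ => 0, ?_, ih _ _⟩
    intro x _ v
    refine (tendsto_const_nhds (x := (0 : F))).congr fun t => ?_
    rw [Subsingleton.elim (x + t • v) x, sub_self, smul_zero]

end linear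

section banach

variable {E : Type u} [NormedAddCommGroup E] [NormedSpace ℝ E]

/-- a normed space as a manifold -/
noncomputable instance chartedMul : ChartedSpace E (Multiplicative E) :=
  inferInstanceAs (ChartedSpace E E)

theorem mem_atlas_mul {φ : OpenPartialHomeomorph (Multiplicative E) E}
    (h : φ ∈ atlas E (Multiplicative E)) : φ = OpenPartialHomeomorph.refl E := h

theorem refl_mem_atlas_mul :
    (OpenPartialHomeomorph.refl E : OpenPartialHomeomorph (Multiplicative E) E) ∈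
      atlas E (Multiplicative E) :=
  show OpenPartialHomeomorph.refl E ∈ atlas E E from rfl

theorem isLieGroup_banach : IsLieGroup E (Multiplicative E) where
  chart_change φ hφ ψ hψ := by
    rw [mem_atlas_mul hφ, mem_atlas_mul hψ]
    exact bastianiSmooth_linear (ContinuousLinearMap.id ℝ E) _
  continuous_mul := continuous_mul
  smooth_mul φ₁ h₁ φ₂ h₂ ψ hψ := by
    rw [mem_atlas_mul h₁, mem_atlas_mul h₂, mem_atlas_mul hψ]
    exact bastianiSmooth_linear (ContinuousLinearMap.fst ℝ E E + ContinuousLinearMap.snd ℝ E E) _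
  smooth_inv := by
    refine ⟨continuous_inv, ?_⟩
    intro φ hφ ψ hψ
    rw [mem_atlas_mul hφ, mem_atlas_mul hψ]
    exact bastianiSmooth_linear (-ContinuousLinearMap.id ℝ E) _

variable {F : Type v} [AddCommGroup F] [Module ℝ F] [TopologicalSpace F]
  [IsTopologicalAddGroup F] [ContinuousSMul ℝ F] [LocallyConvexSpace ℝ F] [T2Space F]
  {K : Type w} [Group K] [TopologicalSpace K] [T2Space K] [ChartedSpace F K]

/-- a smooth homomorphism in the chart `φ` -/
abbrev inChart (φ : OpenPartialHomeomorph K F) (g : Multiplicative E →* K) (y : E) : F :=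
  φ (g (Multiplicative.ofAdd y))

/-- its domain -/
abbrev domChart (φ : OpenPartialHomeomorph K F) (g : Multiplicative E →* K) : Set E :=
  {y | g (Multiplicative.ofAdd y) ∈ φ.source}

theorem smooth_inChart {g : Multiplicative E →* K} (hg : SmoothMap E F g)
    {φ : OpenPartialHomeomorph K F} (hφ : φ ∈ atlas F K) :
    BastianiSmooth (inChart φ g) (domChart φ g) := by
  have h := hg.2 _ refl_mem_atlas_mul φ hφ
  have e : {x : E | x ∈ (OpenPartialHomeomorph.refl E).target ∧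
      g ((OpenPartialHomeomorph.refl E).symm x) ∈ φ.source} = domChart φ g := by
    ext y
    exact ⟨fun h => h.2, fun h => ⟨mem_univ _, h⟩⟩
  have h' : BastianiSmooth (inChart φ g) {x : E | x ∈ (OpenPartialHomeomorph.refl E).target ∧
      g ((OpenPartialHomeomorph.refl E).symm x) ∈ φ.source} := h
  rw [e] at h'
  exact h'

theorem continuous_ofAdd' : Continuous (Multiplicative.ofAdd : E → Multiplicative E) :=
  continuous_ofAdd

theorem domChart_open {g : Multiplicative E →* K} (hg : Continuous g)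
    (φ : OpenPartialHomeomorph K F) : IsOpen (domChart φ g) :=
  φ.open_source.preimage (hg.comp continuous_ofAdd)

theorem vel_line {g : Multiplicative E →* K} (hg : Continuous g)
    {φ : OpenPartialHomeomorph K F} (h1 : (1 : K) ∈ φ.source) {dg : E × E → F}
    (hdg : C1 (inChart φ g) dg (domChart φ g)) (x : E) :
    Vel φ (fun t : ℝ => g (Multiplicative.ofAdd (t • x))) (dg (0, x)) where
  cont := by
    have : Continuous (fun t : ℝ => g (Multiplicative.ofAdd (t • x))) :=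
      hg.comp (continuous_ofAdd.comp (by fun_prop))
    exact this.continuousAt
  mem := by
    rw [zero_smul, ofAdd_zero, map_one]
    exact h1
  vel := by
    have h0 : (0 : E) ∈ domChart φ g := by
      change g (Multiplicative.ofAdd 0) ∈ φ.source
      rw [ofAdd_zero, map_one]
      exact h1
    refine (hdg.deriv 0 h0 x).congr fun t => ?_
    rw [zero_add, zero_smul]

/-- smooth homomorphisms which agree on arbitrarily fine decompositions of `x` agree on `ℝ x` -/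
theorem agree_of_decomp (hK : IsLieGroup F K) {g₁ g₂ : Multiplicative E →* K}
    (hg₁ : SmoothMap E F g₁) (hg₂ : SmoothMap E F g₂) (x : E) (c : ℝ)
    (hx : ∀ n : ℕ, 0 < n → ∃ d : Fin n → E, (∀ k, ‖d k‖ ≤ c / n) ∧
      (∀ k, g₁ (Multiplicative.ofAdd (d k)) = g₂ (Multiplicative.ofAdd (d k))) ∧
      ∑ k, d k = x) (t : ℝ) :
    g₁ (Multiplicative.ofAdd (t • x)) = g₂ (Multiplicative.ofAdd (t • x)) := by
  set φ := chartAt F (1 : K) with hφdef
  have hφ : φ ∈ atlas F K := chart_mem_atlas F 1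
  have h1 : (1 : K) ∈ φ.source := mem_chart_source F 1
  obtain ⟨dg₁, ddg₁, hd₁, hdd₁⟩ := (smooth_inChart hg₁ hφ).c2
  obtain ⟨dg₂, ddg₂, hd₂, hdd₂⟩ := (smooth_inChart hg₂ hφ).c2
  have hU₁ := domChart_open hg₁.1 φ
  have hU₂ := domChart_open hg₂.1 φ
  have h0₁ : (0 : E) ∈ domChart φ g₁ := by
    change g₁ (Multiplicative.ofAdd 0) ∈ φ.source
    rw [ofAdd_zero, map_one]
    exact h1
  have h0₂ : (0 : E) ∈ domChart φ g₂ := by
    change g₂ (Multiplicative.ofAdd 0) ∈ φ.source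
    rw [ofAdd_zero, map_one]
    exact h1
  -- equality of the derivatives
  have hder : dg₁ (0, x) = dg₂ (0, x) := by
    rw [SeparatingDual.eq_iff_forall_dual_eq (R := ℝ)]
    intro l
    obtain ⟨δ₁, hδ₁, C₁, hC₁, ht₁⟩ := taylor hd₁ hdd₁ hU₁ h0₁ l
    obtain ⟨δ₂, hδ₂, C₂, hC₂, ht₂⟩ := taylor hd₂ hdd₂ hU₂ h0₂ l
    let A : E →+ ℝ := AddMonoidHom.mk' (fun y => l (dg₁ (0, y)) - l (dg₂ (0, y))) (by
      intro a b
      rw [hd₁.add hU₁ h0₁, hd₂.add hU₂ h0₂, map_add, map_add]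
      ring)
    have hA : ∀ y : E, A y = l (dg₁ (0, y)) - l (dg₂ (0, y)) := fun y => rfl
    have hbound : ∀ y : E, ‖y‖ < min δ₁ δ₂ →
        g₁ (Multiplicative.ofAdd y) = g₂ (Multiplicative.ofAdd y) →
        |A y| ≤ (C₁ + C₂) * ‖y‖ ^ 2 := by
      intro y hy hyg
      have e1 := ht₁ y (lt_of_lt_of_le hy (min_le_left _ _))
      have e2 := ht₂ y (lt_of_lt_of_le hy (min_le_right _ _))
      have e3 : inChart φ g₁ y = inChart φ g₂ y := by
        change φ _ = φ _
        rw [hyg]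
      have e4 : inChart φ g₁ (0 : E) = inChart φ g₂ (0 : E) := by
        change φ _ = φ _
        rw [ofAdd_zero, map_one, map_one]
      rw [e3, e4] at e1
      have e5 : A y = l (inChart φ g₂ y - inChart φ g₂ 0 - dg₂ (0, y)) -
          l (inChart φ g₂ y - inChart φ g₂ 0 - dg₁ (0, y)) := by
        rw [hA, ← map_sub, ← map_sub]
        congr 1
        abel
      rw [e5]
      calc |l (inChart φ g₂ y - inChart φ g₂ 0 - dg₂ (0, y)) -
          l (inChart φ g₂ y - inChart φ g₂ 0 - dg₁ (0, y))|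
          ≤ |l (inChart φ g₂ y - inChart φ g₂ 0 - dg₂ (0, y))| +
            |l (inChart φ g₂ y - inChart φ g₂ 0 - dg₁ (0, y))| := abs_sub _ _
        _ ≤ C₂ * ‖y‖ ^ 2 + C₁ * ‖y‖ ^ 2 := add_le_add e2 e1
        _ = (C₁ + C₂) * ‖y‖ ^ 2 := by ring
    have hlim : ∀ n : ℕ, 0 < n → |c| / n < min δ₁ δ₂ → |A x| ≤ (C₁ + C₂) * |c| ^ 2 / n := by
      intro n hn hcn
      obtain ⟨d, hd, hdg, hsum⟩ := hx n hn
      have hn' : (0 : ℝ) < n := by exact_mod_cast hn
      have hdk : ∀ k, ‖d k‖ ≤ |c| / n := fun k =>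
        (hd k).trans (div_le_div_of_nonneg_right (le_abs_self c) hn'.le)
      rw [← hsum, map_sum]
      calc |∑ k, A (d k)| ≤ ∑ k, |A (d k)| := Finset.abs_sum_le_sum_abs _ _
        _ ≤ ∑ _k : Fin n, (C₁ + C₂) * (|c| / n) ^ 2 := by
            apply Finset.sum_le_sum
            intro k _
            refine (hbound (d k) (lt_of_le_of_lt (hdk k) hcn) (hdg k)).trans ?_
            have := hdk k
            gcongr
        _ = (C₁ + C₂) * |c| ^ 2 / n := by
            rw [Finset.sum_const, Finset.card_univ, Fintype.card_fin, nsmul_eq_mul]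
            field_simp
    have hzero : |A x| ≤ 0 := by
      have h2 : Tendsto (fun n : ℕ => (C₁ + C₂) * |c| ^ 2 / n) atTop (𝓝 0) :=
        tendsto_const_div_atTop_nhds_zero_nat _
      have h3 : Tendsto (fun n : ℕ => |c| / n) atTop (𝓝 0) :=
        tendsto_const_div_atTop_nhds_zero_nat _
      refine ge_of_tendsto h2 ?_
      filter_upwards [h3.eventually (gt_mem_nhds (lt_min hδ₁ hδ₂)), eventually_gt_atTop 0]
        with n hn hn0
      exact hlim n hn0 hn
    have h4 : A x = 0 := abs_nonpos_iff.mp hzero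
    rw [hA] at h4
    linarith
  -- one-parameter groups
  have hneg : dg₂ (0, -x) = -dg₂ (0, x) := by
    have := hd₂.smul h0₂ (v := x) (-1)
    simpa using this
  have hv₂ : Vel φ (fun t : ℝ => g₂ (Multiplicative.ofAdd ((-t) • x))) (-dg₂ (0, x)) := by
    have := vel_line hg₂.1 h1 hd₂ (-x)
    rw [hneg] at this
    simpa using this
  have key := one_param_unique hK hφ h1
    (c₁ := fun t : ℝ => g₁ (Multiplicative.ofAdd (t • x)))
    (c₂ := fun t : ℝ => g₂ (Multiplicative.ofAdd (t • x)))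
    (hg₁.1.comp (continuous_ofAdd.comp (by fun_prop)))
    (hg₂.1.comp (continuous_ofAdd.comp (by fun_prop)))
    (fun s t => by rw [add_smul, ofAdd_add, map_mul])
    (fun s t => by rw [add_smul, ofAdd_add, map_mul])
    (by rw [zero_smul, ofAdd_zero, map_one]) (by rw [zero_smul, ofAdd_zero, map_one])
    (v := dg₂ (0, x)) (by rw [← hder]; exact vel_line hg₁.1 h1 hd₁ x) hv₂
  exact congrFun key t

end banach

end Pool.Agent.Lib.MP_862e0f_al
end

section

/-!
# A smoothness criterion for maps into the model space (TASK EV BB)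

`f : 𝔼 → Md T W` is given by its coordinates `(f x) n = Φ n (π n x)`, where `π n : 𝔼 → S n` is
continuous linear and `Φ n : S n → E n` is smooth, vanishing on a subspace `Z n` which contains
`π n x` for all large `n`. If locally, for all large `n`, `Φ n` agrees with a smooth map `Φ'` whose
iterated tangent maps of order `≤ n - m` are bounded by `W k n / (n + 1)` on the box `Bx n k`, then
`f` is smooth in the sense of Bastiani.

Proof. Show `BastianiCk l 𝔼 (Md T W) f univ` by induction on `l`, for all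
`𝔼, S, π, Φ, Z, Bx, m, f` at the same time.
* Continuity of `f` at `x`: by `tendsto_Md` fix `k`, `ε`. Take `O, n₁` from `hyp k x` and from
  `hBx k x`; for `n ≥ n₂` with `n₂ ≥ n₁, m` and `2 / (n₂ + 1) < ε` and `y ∈ O`:
  `‖f y n - f x n‖ ≤ ‖Φ' (π n y)‖ + ‖Φ' (π n x)‖ ≤ 2 W k n / (n + 1)` (the first component of
  `TBd` for `π n y, π n x ∈ Bx n k ∩ Q`); for the finitely many `n < n₂` use the continuity of
  `Φ n ∘ π n`. Conclude with `Pn_le` (`P k v ≤ C` with `C < ε`).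
* Case `l + 1`: `df (x, v)` is the element with coordinates `fderiv ℝ (Φ n) (π n x) (π n v)`: they
  vanish for large `n`, because `Φ n` vanishes on the subspace `Z n`, so the derivative at a point
  of `Z n` in a direction of `Z n` vanishes (restrict to the line). This `df : 𝔼 × 𝔼 → Md T W` has
  the same form, with `S n × S n`, `(π n).prodMap (π n)`, the tangent map of `Φ n`, `(Z n).prod
  (Z n)`, `Bx n k ×ˢ Bx n k`, `m + 1`: for `(x, v)` and `k` take `Q ×ˢ univ` and the tangent map of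
  `Φ'` (`Φ n` and `Φ'` agree on the open set `Q`, so do the derivatives there); for
  `n ≥ m + 1` the condition `TBd (n - m)` contains `TBd (n - (m + 1))` of the tangent map on
  `Bx n k ×ˢ Bx n k`.
* The directional derivative: `t⁻¹ • (f (x + t • v) - f x) → df (x, v)`: fix `k`, `ε`. Take `O` from
  `hyp k x` and `hBx k x`; for small `t` all `x + s • v`, `|s| ≤ |t|`, are in `O` (`O` contains a
  neighbourhood of `x`; the map `s ↦ x + s • v` is continuous at `0`), and `π n v ∈ Bx n k` for large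
  `n` (from `hBx k v`). For `n` large (`n ≥ m + 1`) the mean value inequality on the segment gives
  `‖t⁻¹ • (Φ n (π n (x + t v)) - Φ n (π n x))‖ ≤ W k n / (n + 1)` because the derivative of
  `s ↦ Φ n (π n (x + s v))` is `fderiv ℝ Φ' (π n (x + s v)) (π n v)` (points of the box), and
  `‖df (x, v) n‖ ≤ W k n / (n + 1)` as well. The finitely many other coordinates converge because
  `Φ n` is differentiable.
-/

set_option autoImplicit false

namespace Pool.Agent.Lib.MP_862e0f_al.EV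

open Filter Topology Set
open scoped ContDiff

variable {V : Type} [NormedAddCommGroup V] [NormedSpace ℝ V]

private theorem BB_fst {F : Type} [NormedAddCommGroup F] [NormedSpace ℝ F] (l : ℕ) (S : Type)
    [NormedAddCommGroup S] [NormedSpace ℝ S] (Φ : S → F) (B : Set S) (C : ℝ)
    (h : TBd l S Φ B C) : ∀ z ∈ B, ‖Φ z‖ ≤ C := by
  cases l with
  | zero => exact h
  | succ l => exact h.1

private theorem BB_snd {F : Type} [NormedAddCommGroup F] [NormedSpace ℝ F] (l : ℕ) (S : Type)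
    [NormedAddCommGroup S] [NormedSpace ℝ S] (Φ : S → F) (B : Set S) (C : ℝ)
    (h : TBd (l + 1) S Φ B C) : TBd l (S × S) (fun z => fderiv ℝ Φ z.1 z.2) (B ×ˢ B) C := h.2

/-- continuity -/
private theorem BB_cont (T : Tower V) (W : ℕ → ℕ → ℝ) (hW : ∀ k n, 0 < W k n) (m : ℕ)
    (𝔼 : Type) [AddCommGroup 𝔼] [Module ℝ 𝔼] [TopologicalSpace 𝔼] [IsTopologicalAddGroup 𝔼]
    [ContinuousSMul ℝ 𝔼] (S : ℕ → Type) [∀ n, NormedAddCommGroup (S n)]
    [∀ n, NormedSpace ℝ (S n)] (π : ∀ n, 𝔼 →L[ℝ] S n) (Φ : ∀ n, S n → T.E n)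
    (hΦ : ∀ n, ContDiff ℝ ∞ (Φ n)) (Bx : ∀ n : ℕ, ℕ → Set (S n))
    (hBx : ∀ k x, ∃ O ∈ 𝓝 x, ∃ n₁, ∀ n, n₁ ≤ n → ∀ y ∈ O, π n y ∈ Bx n k)
    (hyp : ∀ k x, ∃ O ∈ 𝓝 x, ∃ n₁, ∀ n, n₁ ≤ n → ∃ (Φ' : S n → T.E n) (Q : Set (S n)),
      ContDiff ℝ ∞ Φ' ∧ IsOpen Q ∧ (∀ y ∈ O, π n y ∈ Q) ∧ EqOn (Φ n) Φ' Q ∧
        TBd (n - m) (S n) Φ' (Bx n k) (W k n / (n + 1)))
    (f : 𝔼 → Md T W) (hf : ∀ x n, (f x).c n = (Φ n (π n x) : V)) : Continuous f := by
  rw [continuous_iff_continuousAt]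
  intro x
  refine tendsto_Md fun k ε hε => ?_
  obtain ⟨O, hO, n₁, h1⟩ := hyp k x
  obtain ⟨O', hO', n₁', h1'⟩ := hBx k x
  obtain ⟨N, hN⟩ := exists_nat_gt (4 / ε)
  have hN1 : ∀ n : ℕ, N ≤ n → 2 / ((n : ℝ) + 1) ≤ ε / 2 := by
    intro n hn
    have h2 : (N : ℝ) ≤ n := by exact_mod_cast hn
    have h3 : 4 / ε < (n : ℝ) + 1 := by linarith
    rw [div_lt_iff₀ hε] at h3
    rw [div_le_div_iff₀ (by positivity) (by norm_num)]
    nlinarith
  have hb : ∀ n, max N (max n₁ n₁') ≤ n → ∀ y ∈ O ∩ O', ‖Φ n (π n y)‖ ≤ W k n / (n + 1) := by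
    intro n hn y hy
    obtain ⟨Φ', Q, -, -, h4, h5, h6⟩ :=
      h1 n ((le_max_left _ _).trans ((le_max_right _ _).trans hn))
    rw [h5 (h4 y hy.1)]
    exact BB_fst _ _ _ _ _ h6 _
      (h1' n ((le_max_right _ _).trans ((le_max_right _ _).trans hn)) y hy.2)
  have hx : x ∈ O ∩ O' := ⟨mem_of_mem_nhds hO, mem_of_mem_nhds hO'⟩
  have hfin : ∀ᶠ y in 𝓝 x, ∀ n ∈ Finset.range (max N (max n₁ n₁')),
      ‖Φ n (π n y) - Φ n (π n x)‖ < W k n * (ε / 2) := by
    rw [Filter.eventually_all_finset]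
    intro n _
    have h7 : Continuous fun y : 𝔼 => ‖Φ n (π n y) - Φ n (π n x)‖ :=
      (((hΦ n).continuous.comp (π n).continuous).sub continuous_const).norm
    have h8 := h7.tendsto x
    simp only [sub_self, norm_zero] at h8
    exact h8.eventually (gt_mem_nhds (mul_pos (hW k n) (by linarith)))
  filter_upwards [hfin, Filter.inter_mem hO hO'] with y hy1 hy2
  have h9 : Pn T W k (f y - f x) ≤ ε / 2 := by
    refine Pn_le hW k _ fun n => ?_
    rw [Md.c_sub, hf, hf, ← Submodule.coe_sub]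
    change ‖Φ n (π n y) - Φ n (π n x)‖ ≤ W k n * (ε / 2)
    rcases lt_or_ge n (max N (max n₁ n₁')) with hn | hn
    · exact (hy1 n (Finset.mem_range.2 hn)).le
    · have h10 := hb n hn y hy2
      have h11 := hb n hn x hx
      have h12 : W k n * (2 / ((n : ℝ) + 1)) ≤ W k n * (ε / 2) :=
        mul_le_mul_of_nonneg_left (hN1 n ((le_max_left _ _).trans hn)) (hW k n).le
      refine (norm_sub_le _ _).trans ?_
      have h13 : W k n * (2 / ((n : ℝ) + 1)) = W k n / (n + 1) + W k n / (n + 1) := by ring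
      linarith
  linarith

/-- directional derivatives -/
private theorem BB_deriv (T : Tower V) (W : ℕ → ℕ → ℝ) (hW : ∀ k n, 0 < W k n) (m : ℕ)
    (𝔼 : Type) [AddCommGroup 𝔼] [Module ℝ 𝔼] [TopologicalSpace 𝔼] [IsTopologicalAddGroup 𝔼]
    [ContinuousSMul ℝ 𝔼] (S : ℕ → Type) [∀ n, NormedAddCommGroup (S n)]
    [∀ n, NormedSpace ℝ (S n)] (π : ∀ n, 𝔼 →L[ℝ] S n) (Φ : ∀ n, S n → T.E n)
    (hΦ : ∀ n, ContDiff ℝ ∞ (Φ n)) (Bx : ∀ n : ℕ, ℕ → Set (S n))
    (hBx : ∀ k x, ∃ O ∈ 𝓝 x, ∃ n₁, ∀ n, n₁ ≤ n → ∀ y ∈ O, π n y ∈ Bx n k)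
    (hyp : ∀ k x, ∃ O ∈ 𝓝 x, ∃ n₁, ∀ n, n₁ ≤ n → ∃ (Φ' : S n → T.E n) (Q : Set (S n)),
      ContDiff ℝ ∞ Φ' ∧ IsOpen Q ∧ (∀ y ∈ O, π n y ∈ Q) ∧ EqOn (Φ n) Φ' Q ∧
        TBd (n - m) (S n) Φ' (Bx n k) (W k n / (n + 1)))
    (f : 𝔼 → Md T W) (hf : ∀ x n, (f x).c n = (Φ n (π n x) : V)) (x v : 𝔼) (w : Md T W)
    (hw : ∀ n, w.c n = (fderiv ℝ (Φ n) (π n x) (π n v) : V)) : HasDirDeriv f x v w := by
  refine tendsto_Md fun k ε hε => ?_
  obtain ⟨O, hO, n₁, h1⟩ := hyp k x
  obtain ⟨O', hO', n₁', h1'⟩ := hBx k x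
  obtain ⟨O'', hO'', n₁'', h1''⟩ := hBx k v
  obtain ⟨N, hN⟩ := exists_nat_gt (4 / ε)
  have hN1 : ∀ n : ℕ, N ≤ n → 2 / ((n : ℝ) + 1) ≤ ε / 2 := by
    intro n hn
    have h2 : (N : ℝ) ≤ n := by exact_mod_cast hn
    have h3 : 4 / ε < (n : ℝ) + 1 := by linarith
    rw [div_lt_iff₀ hε] at h3
    rw [div_le_div_iff₀ (by positivity) (by norm_num)]
    nlinarith
  have hcont : Continuous fun s : ℝ => x + s • v :=
    continuous_const.add (continuous_id.smul continuous_const)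
  have hO2 : (fun s : ℝ => x + s • v) ⁻¹' (O ∩ O') ∈ 𝓝 (0 : ℝ) := by
    refine hcont.continuousAt.preimage_mem_nhds ?_
    simp only [zero_smul, add_zero]
    exact Filter.inter_mem hO hO'
  obtain ⟨δ, hδ, hball⟩ := Metric.mem_nhds_iff.1 hO2
  -- the curves
  have hder : ∀ n (s : ℝ), HasDerivAt (fun s : ℝ => Φ n (π n (x + s • v)))
      (fderiv ℝ (Φ n) (π n (x + s • v)) (π n v)) s := by
    intro n s
    have h2 : HasFDerivAt (Φ n) (fderiv ℝ (Φ n) (π n (x + s • v))) (π n (x + s • v)) :=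
      ((hΦ n).differentiable (by simp)).differentiableAt.hasFDerivAt
    have h3 : HasDerivAt (fun s : ℝ => π n (x + s • v)) (π n v) s := by
      have h4 : (fun s : ℝ => π n (x + s • v)) = fun s : ℝ => π n x + s • π n v := by
        funext s
        rw [map_add, map_smul]
      rw [h4]
      have h5 := ((hasDerivAt_id s).smul_const (π n v)).const_add (π n x)
      rw [one_smul] at h5
      exact h5
    exact h2.comp_hasDerivAt s h3
  have hbd : ∀ n, max (max N (m + 1)) (max n₁ (max n₁' n₁'')) ≤ n → ∀ s ∈ Metric.ball (0 : ℝ) δ,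
      ‖fderiv ℝ (Φ n) (π n (x + s • v)) (π n v)‖ ≤ W k n / (n + 1) := by
    intro n hn s hs
    have hn1 : n₁ ≤ n := (le_max_left _ _).trans ((le_max_right _ _).trans hn)
    have hn2 : n₁' ≤ n := (le_max_left _ _).trans
      ((le_max_right _ _).trans ((le_max_right _ _).trans hn))
    have hn3 : n₁'' ≤ n := (le_max_right _ _).trans
      ((le_max_right _ _).trans ((le_max_right _ _).trans hn))
    have hn4 : m + 1 ≤ n := (le_max_right _ _).trans ((le_max_left _ _).trans hn)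
    obtain ⟨Φ', Q, -, h3, h4, h5, h6⟩ := h1 n hn1
    have h7 := hball hs
    have h8 : fderiv ℝ (Φ n) (π n (x + s • v)) = fderiv ℝ Φ' (π n (x + s • v)) :=
      Filter.EventuallyEq.fderiv_eq (h5.eventuallyEq_of_mem (h3.mem_nhds (h4 _ h7.1)))
    obtain ⟨l, hl⟩ : ∃ l, n - m = l + 1 := ⟨n - (m + 1), by omega⟩
    rw [hl] at h6
    have h9 := BB_fst _ _ _ _ _ (BB_snd _ _ _ _ _ h6) (π n (x + s • v), π n v)
      ⟨h1' n hn2 _ h7.2, h1'' n hn3 v (mem_of_mem_nhds hO'')⟩
    rw [h8]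
    exact h9
  have hfin : ∀ᶠ t in 𝓝[≠] (0 : ℝ), ∀ n ∈ Finset.range
      (max (max N (m + 1)) (max n₁ (max n₁' n₁''))),
      ‖t⁻¹ • (Φ n (π n (x + t • v)) - Φ n (π n x)) - fderiv ℝ (Φ n) (π n x) (π n v)‖ <
        W k n * (ε / 2) := by
    rw [Filter.eventually_all_finset]
    intro n _
    have h2 := (hder n 0).tendsto_slope_zero
    simp only [zero_add, zero_smul, add_zero] at h2
    have h3 := (h2.sub_const (fderiv ℝ (Φ n) (π n x) (π n v))).norm
    rw [sub_self, norm_zero] at h3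
    exact h3.eventually (gt_mem_nhds (mul_pos (hW k n) (by linarith)))
  have hball' : Metric.ball (0 : ℝ) δ ∈ 𝓝[≠] (0 : ℝ) :=
    mem_nhdsWithin_of_mem_nhds (Metric.ball_mem_nhds _ hδ)
  filter_upwards [hfin, hball', self_mem_nhdsWithin] with t ht1 ht2 ht3
  have ht0 : t ≠ 0 := ht3
  have h9 : Pn T W k (t⁻¹ • (f (x + t • v) - f x) - w) ≤ ε / 2 := by
    refine Pn_le hW k _ fun n => ?_
    rw [Md.c_sub, Md.c_smul, Md.c_sub, hf, hf, hw, ← Submodule.coe_sub, ← Submodule.coe_smul,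
      ← Submodule.coe_sub]
    change ‖t⁻¹ • (Φ n (π n (x + t • v)) - Φ n (π n x)) - fderiv ℝ (Φ n) (π n x) (π n v)‖ ≤
      W k n * (ε / 2)
    rcases lt_or_ge n (max (max N (m + 1)) (max n₁ (max n₁' n₁''))) with hn | hn
    · exact (ht1 n (Finset.mem_range.2 hn)).le
    · have h2 := (convex_ball (0 : ℝ) δ).norm_image_sub_le_of_norm_hasDerivWithin_le
        (f := fun s : ℝ => Φ n (π n (x + s • v)))
        (f' := fun s : ℝ => fderiv ℝ (Φ n) (π n (x + s • v)) (π n v)) (C := W k n / (n + 1))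
        (x := 0) (y := t) (fun s _ => (hder n s).hasDerivWithinAt) (fun s hs => hbd n hn s hs)
        (Metric.mem_ball_self hδ) ht2
      simp only [zero_smul, add_zero, sub_zero] at h2
      have h3 := hbd n hn 0 (Metric.mem_ball_self hδ)
      simp only [zero_smul, add_zero] at h3
      have h4 : ‖t⁻¹ • (Φ n (π n (x + t • v)) - Φ n (π n x))‖ ≤ W k n / (n + 1) := by
        rw [norm_smul, norm_inv]
        have ht4 : 0 < ‖t‖ := norm_pos_iff.2 ht0
        rw [inv_mul_le_iff₀ ht4]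
        linarith
      have h12 : W k n * (2 / ((n : ℝ) + 1)) ≤ W k n * (ε / 2) :=
        mul_le_mul_of_nonneg_left
          (hN1 n ((le_max_left _ _).trans ((le_max_left _ _).trans hn))) (hW k n).le
      refine (norm_sub_le _ _).trans ?_
      have h13 : W k n * (2 / ((n : ℝ) + 1)) = W k n / (n + 1) + W k n / (n + 1) := by ring
      linarith
  linarith

private theorem BB_main (T : Tower V) (W : ℕ → ℕ → ℝ) (hW : ∀ k n, 0 < W k n) (l : ℕ) :
    ∀ (m : ℕ)
    (𝔼 : Type) [AddCommGroup 𝔼] [Module ℝ 𝔼] [TopologicalSpace 𝔼] [IsTopologicalAddGroup 𝔼]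
    [ContinuousSMul ℝ 𝔼] (S : ℕ → Type) [∀ n, NormedAddCommGroup (S n)]
    [∀ n, NormedSpace ℝ (S n)] (π : ∀ n, 𝔼 →L[ℝ] S n) (Φ : ∀ n, S n → T.E n)
    (_ : ∀ n, ContDiff ℝ ∞ (Φ n)) (Z : ∀ n, Submodule ℝ (S n)) (_ : ∀ n, ∀ z ∈ Z n, Φ n z = 0)
    (_ : ∀ x, ∀ᶠ n in atTop, π n x ∈ Z n) (Bx : ∀ n : ℕ, ℕ → Set (S n))
    (_ : ∀ k x, ∃ O ∈ 𝓝 x, ∃ n₁, ∀ n, n₁ ≤ n → ∀ y ∈ O, π n y ∈ Bx n k)
    (_ : ∀ k x, ∃ O ∈ 𝓝 x, ∃ n₁, ∀ n, n₁ ≤ n → ∃ (Φ' : S n → T.E n) (Q : Set (S n)),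
      ContDiff ℝ ∞ Φ' ∧ IsOpen Q ∧ (∀ y ∈ O, π n y ∈ Q) ∧ EqOn (Φ n) Φ' Q ∧
        TBd (n - m) (S n) Φ' (Bx n k) (W k n / (n + 1)))
    (f : 𝔼 → Md T W) (_ : ∀ x n, (f x).c n = (Φ n (π n x) : V)),
    BastianiCk l 𝔼 (Md T W) f univ := by
  induction l with
  | zero =>
    intro m 𝔼 _ _ _ _ _ S _ _ π Φ hΦ Z hZ0 hZ Bx hBx hyp f hf
    exact (BB_cont T W hW m 𝔼 S π Φ hΦ Bx hBx hyp f hf).continuousOn
  | succ l ih =>
    intro m 𝔼 _ _ _ _ _ S _ _ π Φ hΦ Z hZ0 hZ Bx hBx hyp f hf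
    refine ⟨(BB_cont T W hW m 𝔼 S π Φ hΦ Bx hBx hyp f hf).continuousOn, ?_⟩
    have hzero : ∀ n, ∀ z ∈ Z n, ∀ u ∈ Z n, fderiv ℝ (Φ n) z u = 0 := by
      intro n z hz u hu
      have h2 : HasFDerivAt (Φ n) (fderiv ℝ (Φ n) z) z :=
        ((hΦ n).differentiable (by simp)).differentiableAt.hasFDerivAt
      have h3 : HasDerivAt (fun s : ℝ => z + s • u) u 0 := by
        have h5 := ((hasDerivAt_id (0 : ℝ)).smul_const u).const_add z
        rw [one_smul] at h5
        exact h5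
      have h2' : HasFDerivAt (Φ n) (fderiv ℝ (Φ n) z) (z + (0 : ℝ) • u) := by
        rw [zero_smul, add_zero]
        exact h2
      have h4 : HasDerivAt (fun s : ℝ => Φ n (z + s • u)) (fderiv ℝ (Φ n) z u) 0 :=
        h2'.comp_hasDerivAt (0 : ℝ) h3
      have h6 : (fun s : ℝ => Φ n (z + s • u)) = fun _ => 0 := by
        funext s
        exact hZ0 n _ ((Z n).add_mem hz ((Z n).smul_mem s hu))
      rw [h6] at h4
      exact h4.unique (hasDerivAt_const (0 : ℝ) (0 : T.E n))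
    let df : 𝔼 × 𝔼 → Md T W := fun p =>
      Md.mk' W (fun n => ((fderiv ℝ (Φ n) (π n p.1) (π n p.2) : T.E n) : V))
        (fun n => (fderiv ℝ (Φ n) (π n p.1) (π n p.2)).2) (by
          obtain ⟨n₀, hn₀⟩ := Filter.eventually_atTop.1 ((hZ p.1).and (hZ p.2))
          refine ⟨n₀, fun n hn => ?_⟩
          rw [hzero n _ (hn₀ n hn).1 _ (hn₀ n hn).2]
          rfl)
    have hdf : ∀ (p : 𝔼 × 𝔼) (n : ℕ), (df p).c n =
        ((fderiv ℝ (Φ n) (π n p.1) (π n p.2) : T.E n) : V) := fun p n => rfl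
    refine ⟨df, fun x _ v => ?_, ?_⟩
    · exact BB_deriv T W hW m 𝔼 S π Φ hΦ Bx hBx hyp f hf x v _ fun n => hdf (x, v) n
    · rw [Set.univ_prod_univ]
      refine ih (m + 1) (𝔼 × 𝔼) (fun n => S n × S n) (fun n => (π n).prodMap (π n))
        (fun n z => fderiv ℝ (Φ n) z.1 z.2) (fun n => contDiff_tangent (hΦ n))
        (fun n => (Z n).prod (Z n)) (fun n z hz => hzero n _ hz.1 _ hz.2) ?_
        (fun n k => Bx n k ×ˢ Bx n k) ?_ ?_ df (fun p n => hdf p n)
      · intro p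
        filter_upwards [hZ p.1, hZ p.2] with n h1 h2
        exact ⟨h1, h2⟩
      · intro k p
        obtain ⟨O, hO, n₁, h1⟩ := hBx k p.1
        obtain ⟨O', hO', n₁', h1'⟩ := hBx k p.2
        refine ⟨O ×ˢ O', prod_mem_nhds hO hO', max n₁ n₁', fun n hn y hy => ?_⟩
        exact ⟨h1 n ((le_max_left _ _).trans hn) _ hy.1,
          h1' n ((le_max_right _ _).trans hn) _ hy.2⟩
      · intro k p
        obtain ⟨O, hO, n₁, h1⟩ := hyp k p.1
        refine ⟨O ×ˢ univ, prod_mem_nhds hO univ_mem, max n₁ (m + 1), fun n hn => ?_⟩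
        obtain ⟨Φ', Q, h2, h3, h4, h5, h6⟩ := h1 n ((le_max_left _ _).trans hn)
        have hn4 : m + 1 ≤ n := (le_max_right _ _).trans hn
        refine ⟨fun z => fderiv ℝ Φ' z.1 z.2, Q ×ˢ univ, contDiff_tangent h2,
          h3.prod isOpen_univ, fun y hy => ⟨h4 _ hy.1, mem_univ _⟩, fun z hz => ?_, ?_⟩
        · have h8 : fderiv ℝ (Φ n) z.1 = fderiv ℝ Φ' z.1 :=
            Filter.EventuallyEq.fderiv_eq (h5.eventuallyEq_of_mem (h3.mem_nhds hz.1))
          show fderiv ℝ (Φ n) z.1 z.2 = fderiv ℝ Φ' z.1 z.2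
          rw [h8]
        · obtain ⟨l', hl'⟩ : ∃ l', n - m = l' + 1 := ⟨n - (m + 1), by omega⟩
          rw [hl'] at h6
          have h9 : n - (m + 1) = l' := by omega
          rw [h9]
          exact BB_snd _ _ _ _ _ h6

theorem bastiani_of_growth (T : Tower V) (W : ℕ → ℕ → ℝ) (hW : ∀ k n, 0 < W k n) (m : ℕ)
    (𝔼 : Type) [AddCommGroup 𝔼] [Module ℝ 𝔼] [TopologicalSpace 𝔼] [IsTopologicalAddGroup 𝔼]
    [ContinuousSMul ℝ 𝔼] (S : ℕ → Type) [∀ n, NormedAddCommGroup (S n)]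
    [∀ n, NormedSpace ℝ (S n)] (π : ∀ n, 𝔼 →L[ℝ] S n) (Φ : ∀ n, S n → T.E n)
    (hΦ : ∀ n, ContDiff ℝ ∞ (Φ n)) (Z : ∀ n, Submodule ℝ (S n)) (hZ0 : ∀ n, ∀ z ∈ Z n, Φ n z = 0)
    (hZ : ∀ x, ∀ᶠ n in atTop, π n x ∈ Z n) (Bx : ∀ n : ℕ, ℕ → Set (S n))
    (hBx : ∀ k x, ∃ O ∈ 𝓝 x, ∃ n₁, ∀ n, n₁ ≤ n → ∀ y ∈ O, π n y ∈ Bx n k)
    (hyp : ∀ k x, ∃ O ∈ 𝓝 x, ∃ n₁, ∀ n, n₁ ≤ n → ∃ (Φ' : S n → T.E n) (Q : Set (S n)),
      ContDiff ℝ ∞ Φ' ∧ IsOpen Q ∧ (∀ y ∈ O, π n y ∈ Q) ∧ EqOn (Φ n) Φ' Q ∧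
        TBd (n - m) (S n) Φ' (Bx n k) (W k n / (n + 1)))
    (f : 𝔼 → Md T W) (hf : ∀ x n, (f x).c n = (Φ n (π n x) : V)) :
    BastianiSmooth f univ := fun l =>
  BB_main T W hW l m 𝔼 S π Φ hΦ Z hZ0 hZ Bx hBx hyp f hf

end Pool.Agent.Lib.MP_862e0f_al.EV
end

section

/-!
# Choice of the weights (TASK EV Arr)

`C k m W` (`k ≤ m`) is a condition on the weight `W k (m + 1)` which depends only on the weights
`W j a` with `a ≤ m` and `W j (m + 1)` with `j > k`, besides `W k (m + 1)` itself. The weights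
`W k 0` and `W k n` with `n ≤ k` are equal to `1`.

Proof. Order: the index of `(k, m)`, `k ≤ m`, is `i = (m + 1) * (m + 1) - k`; it lies in
`(m * m + m, (m + 1) * (m + 1)]`, so the indices of different pairs are different, larger `m` gives
larger index, and for the same `m` larger `k` gives smaller index. Construct by strong recursion a
sequence `ρ : ℕ → ℝ` (`ρ i` is chosen with `hex` for the array made from the values `ρ i'`,
`i' < i`, extended by `1`) and put `W k n = ρ (n * n - k)` for `k < n`, `W k n = 1` for `n ≤ k`.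
Then `hcongr` compares the array used in the step `i` with the final one.
-/

set_option autoImplicit false

namespace Pool.Agent.Lib.MP_862e0f_al.EV

/-- The array made from a sequence. -/
private noncomputable def Arr_build (r : ℕ → {x : ℝ // 0 < x}) (k n : ℕ) : ℝ :=
  if k < n then (r (n * n - k)).1 else 1

private theorem Arr_build_pos (r : ℕ → {x : ℝ // 0 < x}) (k n : ℕ) : 0 < Arr_build r k n := by
  unfold Arr_build
  split_ifs with h
  · exact (r _).2
  · exact one_pos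

private theorem Arr_build_one (r : ℕ → {x : ℝ // 0 < x}) (k n : ℕ) (h : n ≤ k) :
    Arr_build r k n = 1 := by
  unfold Arr_build
  rw [if_neg (not_lt.2 h)]

private theorem Arr_idx {k m k' m' : ℕ} (hk : k ≤ m) (hk' : k' ≤ m')
    (h : (m + 1) * (m + 1) - k = (m' + 1) * (m' + 1) - k') : m = m' ∧ k = k' := by
  have hs : ∀ a : ℕ, (a + 1) * (a + 1) = a * a + a + a + 1 := fun a => by ring
  have key : ∀ a b c e : ℕ, c ≤ a → e ≤ b → a < b →
      (a + 1) * (a + 1) - c < (b + 1) * (b + 1) - e := by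
    intro a b c e hc he hab
    have h1 : (a + 1) * (a + 1) ≤ b * b := Nat.mul_le_mul hab hab
    rw [hs b]
    omega
  have hmm : m = m' := by
    rcases lt_trichotomy m m' with h1 | h1 | h1
    · exact absurd h (key m m' k k' hk hk' h1).ne
    · exact h1
    · exact absurd h (key m' m k' k hk' hk h1).ne'
  subst hmm
  refine ⟨rfl, ?_⟩
  rw [hs m] at h
  omega

theorem exists_array (C : ℕ → ℕ → (ℕ → ℕ → ℝ) → Prop)
    (hcongr : ∀ (k m : ℕ) (W W' : ℕ → ℕ → ℝ), k ≤ m → (∀ j a, a ≤ m → W j a = W' j a) →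
      (∀ j, k ≤ j → W j (m + 1) = W' j (m + 1)) → C k m W → C k m W')
    (hex : ∀ (k m : ℕ) (W : ℕ → ℕ → ℝ), k ≤ m → (∀ j a, 0 < W j a) → (∀ j a, a ≤ j → W j a = 1) →
      ∃ x : ℝ, 0 < x ∧
        C k m (fun j a => if j = k ∧ a = m + 1 then x else W j a)) :
    ∃ W : ℕ → ℕ → ℝ, (∀ j a, 0 < W j a) ∧ (∀ j a, a ≤ j → W j a = 1) ∧ ∀ k m, k ≤ m → C k m W := by
  classical
  have hstep : ∀ (i : ℕ) (r : ℕ → {x : ℝ // 0 < x}), ∃ x : {x : ℝ // 0 < x},
      ∀ k m, k ≤ m → i = (m + 1) * (m + 1) - k →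
        C k m (fun j a => if j = k ∧ a = m + 1 then x.1 else Arr_build r j a) := by
    intro i r
    by_cases h : ∃ k m, k ≤ m ∧ i = (m + 1) * (m + 1) - k
    · obtain ⟨k, m, hkm, hi⟩ := h
      obtain ⟨x, hx, hC⟩ := hex k m (Arr_build r) hkm (Arr_build_pos r) (Arr_build_one r)
      refine ⟨⟨x, hx⟩, ?_⟩
      intro k' m' hkm' hi'
      obtain ⟨h1, h2⟩ := Arr_idx hkm hkm' (hi.symm.trans hi')
      subst h1
      subst h2
      exact hC
    · refine ⟨⟨1, one_pos⟩, ?_⟩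
      intro k m hkm hi
      exact absurd ⟨k, m, hkm, hi⟩ h
  choose f hf using hstep
  let R : ℕ → ℕ → {x : ℝ // 0 < x} := fun i => Nat.rec (fun _ => ⟨1, one_pos⟩)
    (fun i r => Function.update r i (f i r)) i
  have hR : ∀ i, R (i + 1) = Function.update (R i) i (f i (R i)) := fun i => rfl
  let ρ : ℕ → {x : ℝ // 0 < x} := fun j => R (j + 1) j
  have hρ : ∀ i, ρ i = f i (R i) := by
    intro i
    change R (i + 1) i = _
    rw [hR, Function.update_self]
  have hlt : ∀ i j, j < i → R i j = ρ j := by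
    intro i
    induction i with
    | zero => intro j hj; omega
    | succ i ih =>
      intro j hj
      rcases Nat.lt_succ_iff_lt_or_eq.1 hj with h | h
      · rw [hR, Function.update_of_ne h.ne, ih j h]
      · subst h
        rfl
  refine ⟨Arr_build ρ, Arr_build_pos ρ, Arr_build_one ρ, ?_⟩
  intro k m hkm
  have h1 := hf ((m + 1) * (m + 1) - k) (R ((m + 1) * (m + 1) - k)) k m hkm rfl
  rw [← hρ] at h1
  have hs : (m + 1) * (m + 1) = m * m + m + m + 1 := by ring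
  refine hcongr k m _ _ hkm ?_ ?_ h1
  · intro j a ha
    rw [if_neg (by omega)]
    unfold Arr_build
    split_ifs with hja
    · have h2 : a * a ≤ m * m := Nat.mul_le_mul ha ha
      rw [hlt _ _ (by omega)]
    · rfl
  · intro j hj
    split_ifs with hjk
    · obtain ⟨rfl, -⟩ := hjk
      unfold Arr_build
      rw [if_pos (by omega)]
    · have hj' : k < j := by
        rcases hj.lt_or_eq with h | h
        · exact h
        · exact absurd ⟨h.symm, rfl⟩ hjk
      unfold Arr_build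
      split_ifs with hjm
      · rw [hlt _ _ (by omega)]
      · rfl

end Pool.Agent.Lib.MP_862e0f_al.EV
end

section

/-!
# In the dead zone the truncated maps agree with the full maps (TASK EV Tr)

`nxt_trunc`: let `x = nxt 0 n s v`. By `nxt_eq`, `Afac 0 n s x • (x - s n) = v`, and
`Afac 0 n s x = Afac t n s x` (`Afac_trunc`, `Gear.pen_zero`); apply `nxt_unique` (with `t`).
`Fm_trunc`: `Gt t v (n + 1) = Gv v (n + 1)` by `nxt_trunc` (`Gv_succ`), the same for `v'`; then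
`Afac_trunc` for the third factor (`obs G Z n`, `Z a = T.op (Gv v a) (Gv v' a)`).
`Fm_vanish`: `Gt 0 v (m + 1) = nxt .. 0 = st v m m = Gv v m` (`nxt_zero`), so `crd1 = .. • 0`.
-/

set_option autoImplicit false

namespace Pool.Agent.Lib.MP_862e0f_al.EV

open Filter Topology Set
open scoped ContDiff

variable {V : Type} [NormedAddCommGroup V] [NormedSpace ℝ V] {T : Tower V} (G : Gear T)
  {W : ℕ → ℕ → ℝ}

theorem nxt_trunc (hW : ∀ k n, 0 ≤ W k n) {t n : ℕ} {s : ℕ → V} (hs : Good T n s) {v : V}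
    (hv : v ∈ T.E (n + 1)) (h : ∀ j, j < t → j ≤ n → T.N j (nxt G W 0 n s v - s j) ≤ ta n) :
    nxt G W t n s v = nxt G W 0 n s v := by
  have hx : nxt G W 0 n s v ∈ T.E (n + 1) := nxt_mem G hs.mem hv
  have h1 := nxt_eq G hW (t := 0) hs hv
  have h2 : Afac G W 0 n s (nxt G W 0 n s v) = Afac G W t n s (nxt G W 0 n s v) :=
    Afac_trunc G t n s _ fun j hj hjn => G.pen_zero j n _
      ((T.E (n + 1)).sub_mem hx (T.mono (Nat.le_succ n) (hs.mem j))) (h j hj hjn)
  have h3 := nxt_unique G hW (t := t) hs hx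
  rw [← h2, h1] at h3
  exact h3

private theorem Tr_Gt (hW : ∀ k n, 0 ≤ W k n) {t n : ℕ} {v : ℕ → V} (hv : ∀ n, v n ∈ T.E n)
    (h : ∀ j, j < t → j ≤ n → T.N j (Gv G W v (n + 1) - st G W v n j) ≤ ta n) :
    Gt G W t v (n + 1) = Gv G W v (n + 1) := by
  rw [Gv_succ] at h
  rw [Gv_succ]
  exact nxt_trunc G hW (st_good G hv n) (hv (n + 1)) h

private theorem Tr_crd1 {t n : ℕ} {Z : ℕ → V} (hZ : ∀ n, Z n ∈ T.E n) {x : V}
    (hx : x ∈ T.E (n + 1)) (h : ∀ j, j < t → j ≤ n → T.N j (x - obs G Z n j) ≤ ta n) :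
    crd1 G W t n Z x = crd1 G W 0 n Z x := by
  unfold crd1
  rw [Afac_trunc G t n (obs G Z n) x fun j hj hjn => G.pen_zero j n _
      ((T.E (n + 1)).sub_mem hx (T.mono (Nat.le_succ n) ((obs_good G hZ n).mem j))) (h j hj hjn)]

theorem Fm_trunc (hW : ∀ k n, 0 ≤ W k n) {t n : ℕ} {v v' : ℕ → V} (hv : ∀ n, v n ∈ T.E n)
    (hv' : ∀ n, v' n ∈ T.E n)
    (h : ∀ j, j < t → j ≤ n → T.N j (Gv G W v (n + 1) - st G W v n j) ≤ ta n)
    (h' : ∀ j, j < t → j ≤ n → T.N j (Gv G W v' (n + 1) - st G W v' n j) ≤ ta n)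
    (h'' : ∀ j, j < t → j ≤ n → T.N j (T.op (Gv G W v (n + 1)) (Gv G W v' (n + 1)) -
      obs G (fun a => T.op (Gv G W v a) (Gv G W v' a)) n j) ≤ ta n) :
    Fm G W t v v' (n + 1) = Fm G W 0 v v' (n + 1) := by
  show crd1 G W t n (fun a => T.op (Gv G W v a) (Gv G W v' a))
      (T.op (Gt G W t v (n + 1)) (Gt G W t v' (n + 1))) =
    crd1 G W 0 n (fun a => T.op (Gv G W v a) (Gv G W v' a))
      (T.op (Gt G W 0 v (n + 1)) (Gt G W 0 v' (n + 1)))
  rw [Tr_Gt G hW hv h, Tr_Gt G hW hv' h', Gt_zero, Gt_zero]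
  exact Tr_crd1 G (fun m => T.op_mem m _ _ (Gv_mem G hv m) (Gv_mem G hv' m))
    (T.op_mem _ _ _ (Gv_mem G hv (n + 1)) (Gv_mem G hv' (n + 1))) h''

theorem Fi_trunc (hW : ∀ k n, 0 ≤ W k n) {t n : ℕ} {v : ℕ → V} (hv : ∀ n, v n ∈ T.E n)
    (h : ∀ j, j < t → j ≤ n → T.N j (Gv G W v (n + 1) - st G W v n j) ≤ ta n)
    (h'' : ∀ j, j < t → j ≤ n → T.N j (T.iv (Gv G W v (n + 1)) -
      obs G (fun a => T.iv (Gv G W v a)) n j) ≤ ta n) :
    Fi G W t v (n + 1) = Fi G W 0 v (n + 1) := by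
  show crd1 G W t n (fun a => T.iv (Gv G W v a)) (T.iv (Gt G W t v (n + 1))) =
    crd1 G W 0 n (fun a => T.iv (Gv G W v a)) (T.iv (Gt G W 0 v (n + 1)))
  rw [Tr_Gt G hW hv h, Gt_zero]
  exact Tr_crd1 G (fun m => T.iv_mem m _ (Gv_mem G hv m))
    (T.iv_mem _ _ (Gv_mem G hv (n + 1))) h''

theorem iv_zero (T : Tower V) : T.iv 0 = 0 := by
  have h := T.iv_op 0
  rwa [T.op_zero] at h

private theorem Tr_Gt_zero {v : ℕ → V} {n : ℕ} (h : v (n + 1) = 0) :
    Gt G W 0 v (n + 1) = Gv G W v n := by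
  show nxt G W 0 n (st G W v n) (v (n + 1)) = _
  rw [h, nxt_zero]
  rfl

theorem Fm_vanish {v v' : ℕ → V} {n : ℕ} (h : v n = 0) (h' : v' n = 0) :
    Fm G W 0 v v' n = 0 := by
  cases n with
  | zero =>
    show T.op (v 0) (v' 0) = 0
    rw [h, h', T.zero_op]
  | succ n =>
    show crd1 G W 0 n (fun a => T.op (Gv G W v a) (Gv G W v' a))
      (T.op (Gt G W 0 v (n + 1)) (Gt G W 0 v' (n + 1))) = 0
    rw [Tr_Gt_zero G h, Tr_Gt_zero G h']
    unfold crd1
    rw [sub_self, smul_zero]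

theorem Fi_vanish {v : ℕ → V} {n : ℕ} (h : v n = 0) : Fi G W 0 v n = 0 := by
  cases n with
  | zero =>
    show T.iv (v 0) = 0
    rw [h, iv_zero]
  | succ n =>
    show crd1 G W 0 n (fun a => T.iv (Gv G W v a)) (T.iv (Gt G W 0 v (n + 1))) = 0
    rw [Tr_Gt_zero G h]
    unfold crd1
    rw [sub_self, smul_zero]

end Pool.Agent.Lib.MP_862e0f_al.EV
end

section

/-!
# The triangular polynomial group: definitions

Polynomial functions on `ℕ → ℝ`, weights `(1/2) ^ l` of the variables `x l`, and the spaces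
`Es n` of maps `F : (ℕ → ℝ) → (ℕ → ℝ)` with polynomial coordinates `F · i` of weight `< (1/2) ^ i`
in the variables `x l`, `l ≤ n` (then automatically `l > i`).
-/

set_option autoImplicit false

namespace Pool.Agent.Lib.MP_862e0f_al.EW

/-- the monomial function -/
noncomputable def mo (α : ℕ →₀ ℕ) (x : ℕ → ℂ) : ℂ := α.prod fun l a => x l ^ a

/-- the weight of a monomial -/
noncomputable def wt (α : ℕ →₀ ℕ) : ℝ := α.sum fun l a => (a : ℝ) * (1 / 2) ^ l

/-- polynomial functions of weight `≤ d` in the variables `x l`, `l ≤ n` -/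
noncomputable def Bs (n : ℕ) (d : ℝ) : Submodule ℝ ((ℕ → ℂ) → ℂ) :=
  Submodule.span ℝ {f | ∃ α : ℕ →₀ ℕ, (∀ l, α l ≠ 0 → l ≤ n) ∧ wt α ≤ d ∧ f = mo α}

/-- polynomial functions of weight `< d` in the variables `x l`, `l ≤ n` -/
noncomputable def Cs (n : ℕ) (d : ℝ) : Submodule ℝ ((ℕ → ℂ) → ℂ) :=
  Submodule.span ℝ {f | ∃ α : ℕ →₀ ℕ, (∀ l, α l ≠ 0 → l ≤ n) ∧ wt α < d ∧ f = mo α}

theorem Cs_mono {m n : ℕ} (h : m ≤ n) (d : ℝ) : Cs m d ≤ Cs n d :=
  Submodule.span_mono fun _ ⟨α, h1, h2, h3⟩ => ⟨α, fun l hl => (h1 l hl).trans h, h2, h3⟩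

/-- the finite-dimensional subgroups -/
noncomputable def Es (n : ℕ) : Submodule ℝ ((ℕ → ℂ) → ℕ → ℂ) where
  carrier := {F | (∀ i, i ≤ n → (fun x => F x i) ∈ Cs n ((1 / 2) ^ i)) ∧ ∀ i, n < i → ∀ x, F x i = 0}
  add_mem' := fun {a b} ha hb => ⟨fun i hi => (Cs n _).add_mem (ha.1 i hi) (hb.1 i hi),
    fun i hi x => by rw [Pi.add_apply, Pi.add_apply, ha.2 i hi, hb.2 i hi, add_zero]⟩
  zero_mem' := ⟨fun i _ => (Cs n _).zero_mem, fun _ _ _ => rfl⟩
  smul_mem' := fun c a ha => ⟨fun i hi => (Cs n _).smul_mem c (ha.1 i hi),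
    fun i hi x => by rw [Pi.smul_apply, Pi.smul_apply, ha.2 i hi, smul_zero]⟩

theorem Es_mono : Monotone Es := by
  intro m n h F hF
  refine ⟨fun i hi => ?_, fun i hi => hF.2 i (lt_of_le_of_lt h hi)⟩
  rcases le_or_gt i m with h1 | h1
  · exact Cs_mono h _ (hF.1 i h1)
  · have : (fun x => F x i) = 0 := funext fun x => hF.2 i h1 x
    rw [this]
    exact (Cs n _).zero_mem

/-- the union of the `Es n` -/
noncomputable def VSub : Submodule ℝ ((ℕ → ℂ) → ℕ → ℂ) where
  carrier := {F | ∃ n, F ∈ Es n}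
  add_mem' := fun {a b} ⟨m, ha⟩ ⟨n, hb⟩ => ⟨max m n,
    (Es _).add_mem (Es_mono (le_max_left m n) ha) (Es_mono (le_max_right m n) hb)⟩
  zero_mem' := ⟨0, (Es 0).zero_mem⟩
  smul_mem' := fun c a ⟨n, ha⟩ => ⟨n, (Es n).smul_mem c ha⟩

/-- the base group -/
noncomputable def Vb : Type := ↥VSub

noncomputable instance : AddCommGroup Vb := inferInstanceAs (AddCommGroup ↥VSub)
noncomputable instance : Module ℝ Vb := inferInstanceAs (Module ℝ ↥VSub)

/-- the map of an element of the base group -/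
noncomputable def Vb.f (F : Vb) : (ℕ → ℂ) → ℕ → ℂ := (show ↥VSub from F).1

theorem Vb.exh (F : Vb) : ∃ n, F.f ∈ Es n := (show ↥VSub from F).2

theorem Vb.ext {F G : Vb} (h : ∀ x i, F.f x i = G.f x i) : F = G :=
  Subtype.ext (funext fun x => funext fun i => h x i)

/-- constructor -/
noncomputable def Vb.mk (F : (ℕ → ℂ) → ℕ → ℂ) (h : ∃ n, F ∈ Es n) : Vb := show ↥VSub from ⟨F, h⟩

@[simp] theorem Vb.mk_f (F : (ℕ → ℂ) → ℕ → ℂ) (h : ∃ n, F ∈ Es n) : (Vb.mk F h).f = F := rfl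
@[simp] theorem Vb.add_f (F G : Vb) : (F + G).f = F.f + G.f := rfl
@[simp] theorem Vb.sub_f (F G : Vb) : (F - G).f = F.f - G.f := rfl
@[simp] theorem Vb.neg_f (F : Vb) : (-F).f = -F.f := rfl
@[simp] theorem Vb.zero_f : (0 : Vb).f = 0 := rfl
@[simp] theorem Vb.smul_f (c : ℝ) (F : Vb) : (c • F).f = c • F.f := rfl

/-- the subgroups in the base group -/
noncomputable def Eb (n : ℕ) : Submodule ℝ Vb := (Es n).comap (show Vb →ₗ[ℝ] _ from VSub.subtype)

theorem mem_Eb {n : ℕ} {F : Vb} : F ∈ Eb n ↔ F.f ∈ Es n := Iff.rfl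

theorem Eb_mono : Monotone Eb := fun _ _ h _ hF => Es_mono h hF

end Pool.Agent.Lib.MP_862e0f_al.EW
end

section

/-!
# Finite dimension (TASK EW CF)

`Cs_finite`: the set of `α` with support in `{0..n}` and `wt α < (1/2)^i` is finite: for such `α`,
`α l * (1/2)^l ≤ wt α < 1`, so `α l < 2^l ≤ 2^n`, i.e. `α ≤ ∑ l ∈ range (n+1), single l (2^n)`, and
the set of `α ≤ β` is finite (`Set.finite_Iic`). So `Cs n d` is the span of a finite set.
`Es_finite`: the linear map `Es n → (i : Fin (n + 1)) → Cs n ((1/2)^i)`, `F ↦ F · i`, is injective.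
`Eb_finite`: `Eb n` is linearly equivalent to `Es n`.
-/

set_option autoImplicit false

namespace Pool.Agent.Lib.MP_862e0f_al.EW

private theorem BF_le_wt (α : ℕ →₀ ℕ) (l : ℕ) : (α l : ℝ) * (1 / 2) ^ l ≤ wt α := by
  by_cases h : l ∈ α.support
  · unfold wt Finsupp.sum
    exact Finset.single_le_sum (f := fun l => ((α l : ℕ) : ℝ) * (1 / 2) ^ l)
      (fun j _ => by positivity) h
  · have h0 : α l = 0 := Finsupp.notMem_support_iff.mp h
    rw [h0]
    unfold wt Finsupp.sum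
    have : 0 ≤ ∑ a ∈ α.support, ((α a : ℕ) : ℝ) * (1 / 2) ^ a :=
      Finset.sum_nonneg fun j _ => by positivity
    simpa using this

private theorem BF_set (n i : ℕ) :
    {α : ℕ →₀ ℕ | (∀ l, α l ≠ 0 → l ≤ n) ∧ wt α < (1 / 2) ^ i}.Finite := by
  refine (Set.finite_Iic (∑ l ∈ Finset.range (n + 1), Finsupp.single l (2 ^ n) : ℕ →₀ ℕ)).subset ?_
  rintro α ⟨h1, h2⟩
  rw [Set.mem_Iic, Finsupp.le_def]
  intro l
  by_cases h0 : α l = 0
  · rw [h0]; exact Nat.zero_le _
  · have hl := h1 l h0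
    have h3 : (∑ k ∈ Finset.range (n + 1), Finsupp.single k (2 ^ n) : ℕ →₀ ℕ) l = 2 ^ n := by
      rw [Finsupp.finsetSum_apply, Finset.sum_eq_single l]
      · rw [Finsupp.single_eq_same]
      · intro b _ hb
        rw [Finsupp.single_eq_of_ne (Ne.symm hb)]
      · intro h
        exact absurd (Finset.mem_range.mpr (by omega)) h
    rw [h3]
    have h4 : (α l : ℝ) * (1 / 2) ^ l < 1 := by
      have h5 : ((1 : ℝ) / 2) ^ i ≤ 1 := pow_le_one₀ (by norm_num) (by norm_num)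
      linarith [BF_le_wt α l]
    have h6 : (α l : ℝ) < 2 ^ l := by
      have h7 : (0 : ℝ) < 2 ^ l := by positivity
      have h8 : (α l : ℝ) * (1 / 2) ^ l * 2 ^ l < 1 * 2 ^ l := mul_lt_mul_of_pos_right h4 h7
      have h9 : ((1 : ℝ) / 2) ^ l * 2 ^ l = 1 := by rw [← mul_pow]; norm_num
      rw [mul_assoc, h9, mul_one, one_mul] at h8
      exact h8
    have h10 : α l < 2 ^ l := by exact_mod_cast h6
    exact h10.le.trans (Nat.pow_le_pow_right (by norm_num) hl)

theorem Cs_finite (n i : ℕ) : FiniteDimensional ℝ (Cs n ((1 / 2) ^ i)) := by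
  unfold Cs
  refine FiniteDimensional.span_of_finite ℝ ?_
  refine ((BF_set n i).image mo).subset ?_
  rintro f ⟨α, h1, h2, rfl⟩
  exact ⟨α, ⟨h1, h2⟩, rfl⟩

theorem Es_finite (n : ℕ) : FiniteDimensional ℝ (Es n) := by
  have : ∀ i : Fin (n + 1), FiniteDimensional ℝ (Cs n ((1 / 2) ^ (i : ℕ))) :=
    fun i => Cs_finite n i
  let L : Es n →ₗ[ℝ] ((i : Fin (n + 1)) → Cs n ((1 / 2) ^ (i : ℕ))) :=
    { toFun := fun F i => ⟨fun x => F.1 x i, F.2.1 i (by omega)⟩
      map_add' := fun F G => by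
        funext i
        apply Subtype.ext
        rfl
      map_smul' := fun c F => by
        funext i
        apply Subtype.ext
        rfl }
  refine Module.Finite.of_injective L ?_
  intro F G h
  apply Subtype.ext
  funext x i
  rcases Nat.lt_or_ge n i with hi | hi
  · rw [F.2.2 i hi x, G.2.2 i hi x]
  · have h1 := congrFun h ⟨i, by omega⟩
    have h2 := congrArg Subtype.val h1
    exact congrFun h2 x

theorem Eb_finite (n : ℕ) : FiniteDimensional ℝ (Eb n) := by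
  have := Es_finite n
  let L : Eb n →ₗ[ℝ] Es n :=
    { toFun := fun F => ⟨F.1.f, F.2⟩
      map_add' := fun F G => rfl
      map_smul' := fun c F => rfl }
  refine Module.Finite.of_injective L ?_
  intro F G h
  apply Subtype.ext
  have h2 : (L F).1 = (L G).1 := congrArg Subtype.val h
  exact Vb.ext fun x i => congrFun (congrFun h2 x) i

end Pool.Agent.Lib.MP_862e0f_al.EW
end

section

/-!
# Substitution (TASK EW CA)

`wt_add`: `Finsupp.sum_add_index'`. `mo_add`: `Finsupp.prod_add_index'`, `pow_add`.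
`Bs_mul`: bilinear span induction; `mo α * mo β = mo (α + β)`, `wt (α + β) = wt α + wt β`, the
support of `α + β` is in `{0..n}`.
`Bs_pow`: induction on `a`, `1 = mo 0 ∈ Bs n 0`. `Bs_prod`: induction on the finset.
`subst_mem`: span induction on `f`; for `f = mo α` the function is
`∏ l ∈ supp α, (x l + G x l) ^ α l`, every factor `x ↦ x l + G x l` is in `Bs n ((1/2)^l)`
(`x l = mo (single l 1)`), so the product is in `Bs n (∑ l, α l * (1/2)^l) = Bs n (wt α) ≤ Cs n d`.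
-/

set_option autoImplicit false

namespace Pool.Agent.Lib.MP_862e0f_al.EW

theorem wt_add (α β : ℕ →₀ ℕ) : wt (α + β) = wt α + wt β := by
  unfold wt
  refine Finsupp.sum_add_index' (fun l => ?_) fun l a b => ?_
  · rw [Nat.cast_zero, zero_mul]
  · rw [Nat.cast_add, add_mul]

theorem mo_add (α β : ℕ →₀ ℕ) (x : ℕ → ℂ) : mo (α + β) x = mo α x * mo β x := by
  unfold mo
  exact Finsupp.prod_add_index' (fun l => pow_zero _) fun l a b => pow_add _ _ _

theorem Cs_le_Bs (n : ℕ) (d : ℝ) : Cs n d ≤ Bs n d :=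
  Submodule.span_mono fun _ ⟨α, h1, h2, h3⟩ => ⟨α, h1, h2.le, h3⟩

theorem Bs_le_Cs (n : ℕ) {d d' : ℝ} (h : d < d') : Bs n d ≤ Cs n d' :=
  Submodule.span_mono fun _ ⟨α, h1, h2, h3⟩ => ⟨α, h1, lt_of_le_of_lt h2 h, h3⟩

theorem Bs_mul {n : ℕ} {d d' : ℝ} {f g : (ℕ → ℂ) → ℂ} (hf : f ∈ Bs n d) (hg : g ∈ Bs n d') :
    f * g ∈ Bs n (d + d') := by
  have h1 := Submodule.mul_mem_mul hf hg
  have h2 : Bs n d * Bs n d' ≤ Bs n (d + d') := by
    unfold Bs
    rw [Submodule.span_mul_span]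
    refine Submodule.span_mono ?_
    rintro _ ⟨a, ⟨α, h3, h4, rfl⟩, b, ⟨β, h5, h6, rfl⟩, rfl⟩
    refine ⟨α + β, fun l hl => ?_, ?_, ?_⟩
    · rw [Finsupp.add_apply] at hl
      by_cases hα : α l = 0
      · exact h5 l (by omega)
      · exact h3 l hα
    · rw [wt_add]
      exact add_le_add h4 h6
    · funext x
      exact (mo_add α β x).symm
  exact h2 h1

private theorem BA_one (n : ℕ) : (1 : (ℕ → ℂ) → ℂ) ∈ Bs n 0 := by
  refine Submodule.subset_span ⟨0, fun l hl => absurd rfl hl, ?_, ?_⟩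
  · unfold wt
    rw [Finsupp.sum_zero_index]
  · funext x
    unfold mo
    rw [Finsupp.prod_zero_index]
    rfl

theorem Bs_pow {n : ℕ} {d : ℝ} {f : (ℕ → ℂ) → ℂ} (hf : f ∈ Bs n d) (a : ℕ) :
    f ^ a ∈ Bs n (a * d) := by
  induction a with
  | zero =>
    rw [pow_zero, Nat.cast_zero, zero_mul]
    exact BA_one n
  | succ a ih =>
    have h1 : ((a + 1 : ℕ) : ℝ) * d = a * d + d := by
      push_cast
      ring
    rw [pow_succ, h1]
    exact Bs_mul ih hf

theorem Bs_coord {n l : ℕ} (h : l ≤ n) : (fun x : ℕ → ℂ => x l) ∈ Bs n ((1 / 2) ^ l) := by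
  refine Submodule.subset_span ⟨Finsupp.single l 1, fun j hj => ?_, ?_, ?_⟩
  · by_cases hjl : j = l
    · omega
    · exact absurd (Finsupp.single_eq_of_ne hjl) hj
  · unfold wt
    rw [Finsupp.sum_single_index (by rw [Nat.cast_zero, zero_mul]), Nat.cast_one, one_mul]
  · funext x
    unfold mo
    rw [Finsupp.prod_single_index (h := fun l a => x l ^ a) (pow_zero (x l)), pow_one]

private theorem BA_prod {n : ℕ} {ι : Type} (s : Finset ι) (g : ι → (ℕ → ℂ) → ℂ) (d : ι → ℝ)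
    (h : ∀ l ∈ s, g l ∈ Bs n (d l)) : (∏ l ∈ s, g l) ∈ Bs n (∑ l ∈ s, d l) := by
  classical
  induction s using Finset.induction_on with
  | empty =>
    rw [Finset.prod_empty, Finset.sum_empty]
    exact BA_one n
  | insert a s ha ih =>
    rw [Finset.prod_insert ha, Finset.sum_insert ha]
    exact Bs_mul (h a (Finset.mem_insert_self a s))
      (ih fun l hl => h l (Finset.mem_insert_of_mem hl))

theorem subst_mem {n : ℕ} {d : ℝ} {f : (ℕ → ℂ) → ℂ} (hf : f ∈ Cs n d)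
    {G : (ℕ → ℂ) → ℕ → ℂ} (hG : ∀ l, l ≤ n → (fun x => G x l) ∈ Bs n ((1 / 2) ^ l)) :
    (fun x => f (x + G x)) ∈ Cs n d := by
  obtain ⟨T, hT⟩ : ∃ T : ((ℕ → ℂ) → ℂ) →ₗ[ℝ] ((ℕ → ℂ) → ℂ), ∀ f, T f = fun x => f (x + G x) :=
    ⟨{ toFun := fun f x => f (x + G x)
       map_add' := fun _ _ => rfl
       map_smul' := fun _ _ => rfl }, fun _ => rfl⟩
  have h1 : Cs n d ≤ (Cs n d).comap T := by
    refine Submodule.span_le.2 ?_
    rintro _ ⟨α, h2, h3, rfl⟩
    show T (mo α) ∈ Cs n d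
    refine Bs_le_Cs n h3 ?_
    have h4 : T (mo α) = ∏ l ∈ α.support, (fun x : ℕ → ℂ => x l + G x l) ^ α l := by
      rw [hT]
      funext x
      rw [Finset.prod_apply]
      rfl
    rw [h4]
    refine BA_prod α.support _ (fun l => (α l : ℝ) * (1 / 2) ^ l) fun l hl => ?_
    have h5 : l ≤ n := h2 l (Finsupp.mem_support_iff.1 hl)
    exact Bs_pow ((Bs n _).add_mem (Bs_coord h5) (hG l h5)) (α l)
  have h6 := h1 hf
  rw [Submodule.mem_comap, hT] at h6
  exact h6

end Pool.Agent.Lib.MP_862e0f_al.EW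
end

section

/-!
# Bounds on boxes

Elements of `Es n` are bounded on boxes, depend on finitely many variables, and vanish if they vanish on a small box.
-/

set_option autoImplicit false

namespace Pool.Agent.Lib.MP_862e0f_al.EW

private lemma CN_bound_Cs {n : ℕ} {d : ℝ} {f : (ℕ → ℂ) → ℂ} (hf : f ∈ Cs n d) (R : ℕ → ℝ) :
    ∃ B : ℝ, 0 ≤ B ∧ ∀ x : ℕ → ℂ, (∀ l, ‖x l‖ ≤ R l) → ‖f x‖ ≤ B := by
  unfold Cs at hf
  induction hf using Submodule.span_induction with
  | mem f hf =>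
    obtain ⟨α, _, _, rfl⟩ := hf
    refine ⟨α.prod fun l a => (max (R l) 1) ^ a, ?_, ?_⟩
    · exact Finset.prod_nonneg fun l _ => pow_nonneg (le_max_of_le_right zero_le_one) _
    · intro x hx
      unfold mo Finsupp.prod
      rw [norm_prod]
      refine Finset.prod_le_prod (fun l _ => norm_nonneg _) (fun l _ => ?_)
      rw [norm_pow]
      exact pow_le_pow_left₀ (norm_nonneg _) ((hx l).trans (le_max_left _ _)) _
  | zero => exact ⟨0, le_refl _, fun x _ => by simp⟩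
  | add f g _ _ ihf ihg =>
    obtain ⟨B, hB, h1⟩ := ihf
    obtain ⟨B', hB', h2⟩ := ihg
    refine ⟨B + B', add_nonneg hB hB', fun x hx => ?_⟩
    exact (norm_add_le _ _).trans (add_le_add (h1 x hx) (h2 x hx))
  | smul c f _ ih =>
    obtain ⟨B, hB, h1⟩ := ih
    refine ⟨|c| * B, mul_nonneg (abs_nonneg _) hB, fun x hx => ?_⟩
    rw [Pi.smul_apply, norm_smul, Real.norm_eq_abs]
    exact mul_le_mul_of_nonneg_left (h1 x hx) (abs_nonneg _)

private lemma CN_line_Cs {n : ℕ} {d : ℝ} {f : (ℕ → ℂ) → ℂ} (hf : f ∈ Cs n d) (x y : ℕ → ℂ) :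
    ∃ p : Polynomial ℂ, ∀ t : ℂ, f (x + t • y) = p.eval t := by
  unfold Cs at hf
  induction hf using Submodule.span_induction with
  | mem f hf =>
    obtain ⟨α, _, _, rfl⟩ := hf
    refine ⟨α.prod fun l a => (Polynomial.C (x l) + Polynomial.C (y l) * Polynomial.X) ^ a,
      fun t => ?_⟩
    unfold mo Finsupp.prod
    rw [Polynomial.eval_prod]
    refine Finset.prod_congr rfl fun l _ => ?_
    show (x + t • y) l ^ α l =
      ((Polynomial.C (x l) + Polynomial.C (y l) * Polynomial.X) ^ α l).eval t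
    rw [Polynomial.eval_pow, Polynomial.eval_add, Polynomial.eval_mul, Polynomial.eval_C,
      Polynomial.eval_C, Polynomial.eval_X, Pi.add_apply, Pi.smul_apply, smul_eq_mul, mul_comm]
  | zero => exact ⟨0, fun t => by simp⟩
  | add f g _ _ ihf ihg =>
    obtain ⟨p, hp⟩ := ihf
    obtain ⟨q, hq⟩ := ihg
    refine ⟨p + q, fun t => ?_⟩
    rw [Pi.add_apply, hp, hq, Polynomial.eval_add]
  | smul c f _ ih =>
    obtain ⟨p, hp⟩ := ih
    refine ⟨Polynomial.C (c : ℂ) * p, fun t => ?_⟩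
    rw [Pi.smul_apply, hp, Polynomial.eval_mul, Polynomial.eval_C, Complex.real_smul]

private lemma CN_trunc_Cs {n : ℕ} {d : ℝ} {f : (ℕ → ℂ) → ℂ} (hf : f ∈ Cs n d) {x y : ℕ → ℂ}
    (h : ∀ l, l ≤ n → x l = y l) : f x = f y := by
  unfold Cs at hf
  induction hf using Submodule.span_induction with
  | mem f hf =>
    obtain ⟨α, h1, _, rfl⟩ := hf
    unfold mo Finsupp.prod
    refine Finset.prod_congr rfl fun l hl => ?_
    show x l ^ α l = y l ^ α l
    rw [h l (h1 l (Finsupp.mem_support_iff.1 hl))]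
  | zero => rfl
  | add f g _ _ ihf ihg => rw [Pi.add_apply, Pi.add_apply, ihf, ihg]
  | smul c f _ ih => rw [Pi.smul_apply, Pi.smul_apply, ih]

private lemma CN_conj_Cs {n : ℕ} {d : ℝ} {f : (ℕ → ℂ) → ℂ} (hf : f ∈ Cs n d) {x : ℕ → ℂ}
    (h : ∀ l, (x l).im = 0) : (f x).im = 0 := by
  unfold Cs at hf
  induction hf using Submodule.span_induction with
  | mem f hf =>
    obtain ⟨α, h1, _, rfl⟩ := hf
    have e : x = fun l => ((x l).re : ℂ) := funext fun l => Complex.ext rfl (h l)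
    rw [e]
    unfold mo Finsupp.prod
    have e2 : ∏ a ∈ α.support, ((x a).re : ℂ) ^ α a = ((∏ a ∈ α.support, (x a).re ^ α a : ℝ) : ℂ) := by
      push_cast
      rfl
    rw [e2, Complex.ofReal_im]
  | zero => rfl
  | add f g _ _ ihf ihg => rw [Pi.add_apply, Complex.add_im, ihf, ihg, add_zero]
  | smul c f _ ih => rw [Pi.smul_apply, Complex.smul_im, ih, smul_zero]

theorem Es_bound {n : ℕ} {F : (ℕ → ℂ) → ℕ → ℂ} (hF : F ∈ Es n) (R : ℕ → ℝ) :
    ∃ B : ℝ, 0 ≤ B ∧ ∀ (i : ℕ) (x : ℕ → ℂ), (∀ l, ‖x l‖ ≤ R l) → ‖F x i‖ ≤ B := by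
  have h1 : ∀ i : ℕ, ∃ B : ℝ, 0 ≤ B ∧
      (i ≤ n → ∀ x : ℕ → ℂ, (∀ l, ‖x l‖ ≤ R l) → ‖F x i‖ ≤ B) := by
    intro i
    by_cases hi : i ≤ n
    · obtain ⟨B, hB, h⟩ := CN_bound_Cs (hF.1 i hi) R
      exact ⟨B, hB, fun _ => h⟩
    · exact ⟨0, le_refl _, fun h => absurd h hi⟩
  choose B hB hb using h1
  refine ⟨∑ i ∈ Finset.range (n + 1), B i, Finset.sum_nonneg fun i _ => hB i, ?_⟩
  intro i x hx
  by_cases hi : i ≤ n
  · refine (hb i hi x hx).trans ?_
    exact Finset.single_le_sum (f := B) (fun j _ => hB j) (Finset.mem_range.2 (by omega))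
  · rw [hF.2 i (not_le.1 hi) x, norm_zero]
    exact Finset.sum_nonneg fun i _ => hB i

/-- on complex lines the coordinates are polynomials -/
theorem line_poly {n : ℕ} {F : (ℕ → ℂ) → ℕ → ℂ} (hF : F ∈ Es n) (x y : ℕ → ℂ) (i : ℕ) :
    ∃ p : Polynomial ℂ, ∀ t : ℂ, F (x + t • y) i = p.eval t := by
  by_cases hi : i ≤ n
  · exact CN_line_Cs (hF.1 i hi) x y
  · refine ⟨0, fun t => ?_⟩
    rw [hF.2 i (not_le.1 hi), Polynomial.eval_zero]

theorem Es_trunc {n : ℕ} {F : (ℕ → ℂ) → ℕ → ℂ} (hF : F ∈ Es n) {i : ℕ} {x y : ℕ → ℂ}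
    (h : ∀ l, l ≤ n → x l = y l) : F x i = F y i := by
  by_cases hi : i ≤ n
  · exact CN_trunc_Cs (hF.1 i hi) h
  · rw [hF.2 i (not_le.1 hi), hF.2 i (not_le.1 hi)]

theorem Es_real {n : ℕ} {F : (ℕ → ℂ) → ℕ → ℂ} (hF : F ∈ Es n) {x : ℕ → ℂ}
    (h : ∀ l, (x l).im = 0) (i : ℕ) : (F x i).im = 0 := by
  by_cases hi : i ≤ n
  · exact CN_conj_Cs (hF.1 i hi) h
  · rw [hF.2 i (not_le.1 hi), Complex.zero_im]

theorem Es_zero {n : ℕ} {F : (ℕ → ℂ) → ℕ → ℂ} (hF : F ∈ Es n) {R : ℝ} (hR : 0 < R)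
    (h : ∀ (i : ℕ) (x : ℕ → ℂ), (∀ l, ‖x l‖ ≤ R) → F x i = 0) : F = 0 := by
  funext x i
  show F x i = 0
  obtain ⟨p, hp⟩ := line_poly hF 0 (fun l => if l ≤ n then x l else 0) i
  have hM : 0 < ∑ l ∈ Finset.range (n + 1), ‖x l‖ + 1 :=
    add_pos_of_nonneg_of_pos (Finset.sum_nonneg fun l _ => norm_nonneg _) one_pos
  have hp0 : p = 0 := by
    refine Polynomial.eq_zero_of_infinite_isRoot p ?_
    have h1 : (Set.Icc (0 : ℝ) (R / (∑ l ∈ Finset.range (n + 1), ‖x l‖ + 1))).Infinite :=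
      Set.Icc_infinite (div_pos hR hM)
    refine ((h1.image (f := fun t : ℝ => (t : ℂ)) Complex.ofReal_injective.injOn)).mono ?_
    rintro _ ⟨t, ht, rfl⟩
    show p.eval (t : ℂ) = 0
    rw [← hp]
    refine h i _ fun l => ?_
    rw [Pi.add_apply, Pi.zero_apply, zero_add, Pi.smul_apply, smul_eq_mul, norm_mul,
      Complex.norm_real, Real.norm_eq_abs, abs_of_nonneg ht.1]
    have h1 : ‖(if l ≤ n then x l else 0 : ℂ)‖ ≤ ∑ l ∈ Finset.range (n + 1), ‖x l‖ + 1 := by
      split_ifs with hl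
      · have h2 := Finset.single_le_sum (f := fun l => ‖x l‖) (s := Finset.range (n + 1))
          (fun j _ => norm_nonneg _) (Finset.mem_range.2 (Nat.lt_succ_of_le hl))
        linarith
      · rw [norm_zero]
        exact hM.le
    refine (mul_le_mul ht.2 h1 (norm_nonneg _) (div_pos hR hM).le).trans ?_
    rw [div_mul_cancel₀ _ hM.ne']
  have h1 := hp 1
  rw [hp0, Polynomial.eval_zero, one_smul, zero_add] at h1
  rw [← h1]
  refine Es_trunc hF fun l hl => ?_
  rw [if_pos hl]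

end Pool.Agent.Lib.MP_862e0f_al.EW
end

section

/-!
# The group operation (TASK EW CO)

`Es_op`: coordinate `i ≤ n`: `G · i ∈ Cs n ((1/2)^i)` and `subst_mem` for `F · i` (with
`Cs_le_Bs`); for `i > n` everything is `0`.
`Es_dep`: span induction; `mo α` with `wt α < (1/2)^i` involves only `x l` with `i < l ≤ n`: if
`α l ≠ 0` then `(1/2)^l ≤ α l * (1/2)^l ≤ wt α < (1/2)^i`. For `i > n` both sides are `0`.
`exists_right_inverse`: put `g 0 = 0`, `g (m + 1) = fun x => -F (x + g m x)`. All `g m` are in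
`Es n` (`-F(x + G x) = G x - (G x + F (x + G x))`, `Es_op`). By induction on `m`, for all `i` with
`n + 1 ≤ i + m`: `g (m + 1) x i = g m x i` for all `x` (the right-hand side of
`g (m + 1) x i = -F (x + g m x) i` depends only on the coordinates `l > i` of `g m x`, and for `i > n`
everything is `0`). So `G = g (n + 1)` satisfies `G x = -F (x + G x)`.
`inv_formula` is the same statement for the explicit element.
-/

set_option autoImplicit false

namespace Pool.Agent.Lib.MP_862e0f_al.EW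

theorem Es_op {n : ℕ} {F G : (ℕ → ℂ) → ℕ → ℂ} (hF : F ∈ Es n) (hG : G ∈ Es n) :
    (fun x => G x + F (x + G x)) ∈ Es n := by
  refine ⟨fun i hi => ?_, fun i hi x => ?_⟩
  · have h1 := subst_mem (hF.1 i hi) (G := G) fun l hl => Cs_le_Bs n _ (hG.1 l hl)
    exact (Cs n _).add_mem (hG.1 i hi) h1
  · show G x i + F (x + G x) i = 0
    rw [hG.2 i hi, hF.2 i hi, add_zero]

theorem Es_dep {n : ℕ} {F : (ℕ → ℂ) → ℕ → ℂ} (hF : F ∈ Es n) {i : ℕ} {x y : ℕ → ℂ}
    (h : ∀ l, i < l → l ≤ n → x l = y l) : F x i = F y i := by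
  rcases le_or_gt i n with hi | hi
  · have key : ∀ f ∈ Cs n ((1 / 2) ^ i), f x = f y := by
      intro f hf
      induction hf using Submodule.span_induction with
      | mem f hf =>
        obtain ⟨α, h1, h2, rfl⟩ := hf
        refine Finsupp.prod_congr fun l hl => ?_
        have hl0 : α l ≠ 0 := Finsupp.mem_support_iff.1 hl
        have h3 : ((1 : ℝ) / 2) ^ l < (1 / 2) ^ i := by
          refine lt_of_le_of_lt ?_ h2
          have h4 : (α l : ℝ) * (1 / 2) ^ l ≤ wt α :=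
            Finset.single_le_sum (f := fun l => (α l : ℝ) * (1 / 2) ^ l)
              (fun j _ => by positivity) hl
          have h5 : (1 : ℝ) ≤ α l := by exact_mod_cast Nat.one_le_iff_ne_zero.2 hl0
          have h6 : (0 : ℝ) ≤ (1 / 2) ^ l := by positivity
          nlinarith
        have h7 : i < l := by
          by_contra h8
          have h9 : ((1 : ℝ) / 2) ^ i ≤ (1 / 2) ^ l :=
            pow_le_pow_of_le_one (by norm_num) (by norm_num) (not_lt.1 h8)
          linarith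
        rw [h l h7 (h1 l hl0)]
      | zero => rfl
      | add f g _ _ hf hg => rw [Pi.add_apply, Pi.add_apply, hf, hg]
      | smul c f _ hf => rw [Pi.smul_apply, Pi.smul_apply, hf]
    exact key _ (hF.1 i hi)
  · rw [hF.2 i hi, hF.2 i hi]

/-- the iteration for the inverse -/
def invIt (F : (ℕ → ℂ) → ℕ → ℂ) : ℕ → (ℕ → ℂ) → ℕ → ℂ
  | 0 => 0
  | m + 1 => fun x => -F (x + invIt F m x)

theorem invIt_mem {n : ℕ} {F : (ℕ → ℂ) → ℕ → ℂ} (hF : F ∈ Es n) (m : ℕ) :
    invIt F m ∈ Es n := by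
  induction m with
  | zero => exact (Es n).zero_mem
  | succ m ih =>
    have h1 := (Es n).sub_mem ih (Es_op hF ih)
    have h2 : invIt F (m + 1) = invIt F m - fun x => invIt F m x + F (x + invIt F m x) := by
      funext x
      show -F (x + invIt F m x) = invIt F m x - (invIt F m x + F (x + invIt F m x))
      abel
    rw [h2]
    exact h1

private theorem BO_stab {n : ℕ} {F : (ℕ → ℂ) → ℕ → ℂ} (hF : F ∈ Es n) (m : ℕ) :
    ∀ i, n + 1 ≤ i + m → ∀ x, invIt F (m + 1) x i = invIt F m x i := by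
  induction m with
  | zero =>
    intro i hi x
    rw [(invIt_mem hF 1).2 i (by omega), (invIt_mem hF 0).2 i (by omega)]
  | succ m ih =>
    intro i hi x
    show (-F (x + invIt F (m + 1) x)) i = (-F (x + invIt F m x)) i
    rw [Pi.neg_apply, Pi.neg_apply, Es_dep hF fun l hl _ => ?_]
    rw [Pi.add_apply, Pi.add_apply, ih l (by omega) x]

theorem inv_formula {n : ℕ} {F : (ℕ → ℂ) → ℕ → ℂ} (hF : F ∈ Es n) (x : ℕ → ℂ) :
    invIt F (n + 1) x + F (x + invIt F (n + 1) x) = 0 := by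
  funext i
  have h1 := BO_stab hF (n + 1) i (by omega) x
  have h2 : invIt F (n + 1 + 1) x i = -(F (x + invIt F (n + 1) x) i) := rfl
  rw [h2] at h1
  rw [Pi.add_apply, Pi.zero_apply, ← h1]
  exact neg_add_cancel _

end Pool.Agent.Lib.MP_862e0f_al.EW
end

section

/-!
# The base group: operations and norms
-/

set_option autoImplicit false

namespace Pool.Agent.Lib.MP_862e0f_al.EW

/-- the group operation: `id + opb F G = (id + F) ∘ (id + G)` -/
noncomputable def opb (F G : Vb) : Vb := Vb.mk (fun x => G.f x + F.f (x + G.f x)) (by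
  obtain ⟨m, hm⟩ := F.exh
  obtain ⟨n, hn⟩ := G.exh
  exact ⟨max m n, Es_op (Es_mono (le_max_left m n) hm) (Es_mono (le_max_right m n) hn)⟩)

theorem opb_f (F G : Vb) (x : ℕ → ℂ) : (opb F G).f x = G.f x + F.f (x + G.f x) := rfl

theorem opb_mem {n : ℕ} {F G : Vb} (hF : F ∈ Eb n) (hG : G ∈ Eb n) : opb F G ∈ Eb n :=
  Es_op hF hG

theorem opb_assoc (F G K : Vb) : opb (opb F G) K = opb F (opb G K) := by
  refine Vb.ext fun x i => ?_
  simp only [opb_f, Pi.add_apply, add_assoc]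

theorem zero_opb (F : Vb) : opb 0 F = F := by
  refine Vb.ext fun x i => ?_
  simp only [opb_f, Vb.zero_f, Pi.add_apply, Pi.zero_apply, add_zero]

theorem opb_zero (F : Vb) : opb F 0 = F := by
  refine Vb.ext fun x i => ?_
  simp only [opb_f, Vb.zero_f, Pi.add_apply, Pi.zero_apply, add_zero, zero_add]

theorem exists_right_inv (F : Vb) : ∃ G : Vb, opb F G = 0 := by
  obtain ⟨n, hn⟩ := F.exh
  refine ⟨Vb.mk (invIt F.f (n + 1)) ⟨n, invIt_mem hn _⟩, Vb.ext fun x i => ?_⟩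
  exact congrFun (inv_formula hn x) i

/-- the inverse -/
noncomputable def ivb (F : Vb) : Vb := Classical.choose (exists_right_inv F)

theorem opb_ivb (F : Vb) : opb F (ivb F) = 0 := Classical.choose_spec (exists_right_inv F)

theorem ivb_opb (F : Vb) : opb (ivb F) F = 0 := by
  have h1 := opb_ivb (ivb F)
  have h2 : ivb (ivb F) = F := by
    calc ivb (ivb F) = opb 0 (ivb (ivb F)) := (zero_opb _).symm
      _ = opb (opb F (ivb F)) (ivb (ivb F)) := by rw [opb_ivb]
      _ = opb F (opb (ivb F) (ivb (ivb F))) := opb_assoc _ _ _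
      _ = F := by rw [h1, opb_zero]
  rw [h2] at h1
  exact h1

theorem ivb_unique {F G : Vb} (h : opb F G = 0) : G = ivb F := by
  calc G = opb 0 G := (zero_opb _).symm
    _ = opb (opb (ivb F) F) G := by rw [ivb_opb]
    _ = opb (ivb F) (opb F G) := opb_assoc _ _ _
    _ = ivb F := by rw [h, opb_zero]

theorem ivb_f {n : ℕ} {F : Vb} (hF : F ∈ Eb n) : (ivb F).f = invIt F.f (n + 1) := by
  have h : opb F (Vb.mk (invIt F.f (n + 1)) ⟨n, invIt_mem hF _⟩) = 0 :=
    Vb.ext fun x i => congrFun (inv_formula hF x) i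
  rw [← ivb_unique h]
  rfl

theorem ivb_mem {n : ℕ} {F : Vb} (hF : F ∈ Eb n) : ivb F ∈ Eb n := by
  rw [mem_Eb, ivb_f hF]
  exact invIt_mem hF _

theorem ivb_eq (F : Vb) (x : ℕ → ℂ) : (ivb F).f x = -F.f (x + (ivb F).f x) := by
  have h := congrFun (congrArg Vb.f (opb_ivb F)) x
  rw [opb_f] at h
  exact eq_neg_of_add_eq_zero_left h

theorem ivb_eq' (F : Vb) (x : ℕ → ℂ) : (ivb F).f (x + F.f x) = -F.f x := by
  have h := congrFun (congrArg Vb.f (ivb_opb F)) x
  rw [opb_f] at h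
  exact eq_neg_of_add_eq_zero_right h

/-- the complex box of level `k` in the coordinate `l` -/
def bxc (k l : ℕ) (z : ℂ) : Prop :=
  |z.re| ≤ ((k : ℝ) + 1) * ((l : ℝ) + 1) ∧ |z.im| ≤ (k : ℝ) + 1

/-- the complex box of level `k` -/
def bx (k : ℕ) (x : ℕ → ℂ) : Prop := ∀ l, bxc k l (x l)

theorem bxc_zero (k l : ℕ) : bxc k l 0 := by
  unfold bxc
  rw [Complex.zero_re, Complex.zero_im, abs_zero]
  constructor <;> positivity

theorem bxc_mono {k k' : ℕ} (h : k ≤ k') {l : ℕ} {z : ℂ} (hz : bxc k l z) : bxc k' l z := by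
  have h1 : (k : ℝ) ≤ k' := by exact_mod_cast h
  have h2 : (0 : ℝ) ≤ l := Nat.cast_nonneg l
  exact ⟨hz.1.trans (mul_le_mul_of_nonneg_right (by linarith) (by linarith)),
    hz.2.trans (by linarith)⟩

theorem bx_mono {k k' : ℕ} (h : k ≤ k') {x : ℕ → ℂ} (hx : bx k x) : bx k' x :=
  fun l => bxc_mono h (hx l)

/-- the box as a type -/
def BX (k : ℕ) : Type := {x : ℕ → ℂ // bx k x}

noncomputable instance (k : ℕ) : Nonempty (ℕ × BX k) :=
  ⟨(0, ⟨0, fun l => bxc_zero k l⟩)⟩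

theorem norm_of_bxc {k l : ℕ} {z : ℂ} (h : bxc k l z) :
    ‖z‖ ≤ ((k : ℝ) + 1) * ((l : ℝ) + 1) + ((k : ℝ) + 1) :=
  (Complex.norm_le_abs_re_add_abs_im z).trans (add_le_add h.1 h.2)

theorem Nb_bdd (k : ℕ) (F : Vb) : BddAbove (Set.range fun p : ℕ × BX k => ‖F.f p.2.1 p.1‖) := by
  obtain ⟨n, hn⟩ := F.exh
  obtain ⟨B, _, hB⟩ := Es_bound hn (fun l => ((k : ℝ) + 1) * ((l : ℝ) + 1) + ((k : ℝ) + 1))
  refine ⟨B, ?_⟩
  rintro _ ⟨p, rfl⟩
  exact hB p.1 p.2.1 fun l => norm_of_bxc (p.2.2 l)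

/-- the norms `sup_{x ∈ box} |F x i|` -/
noncomputable def Nb (k : ℕ) : Seminorm ℝ Vb :=
  Seminorm.of (fun F => ⨆ p : ℕ × BX k, ‖F.f p.2.1 p.1‖)
    (fun F G => by
      refine ciSup_le fun p => ?_
      have h1 := le_ciSup (Nb_bdd k F) p
      have h2 := le_ciSup (Nb_bdd k G) p
      exact (norm_add_le _ _).trans (add_le_add h1 h2))
    (fun r F => by
      simp only [Vb.smul_f, Pi.smul_apply, norm_smul]
      rw [← Real.mul_iSup_of_nonneg (norm_nonneg r)])

theorem Nb_apply (k : ℕ) (F : Vb) : Nb k F = ⨆ p : ℕ × BX k, ‖F.f p.2.1 p.1‖ := rfl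

theorem Nb_le {k : ℕ} {F : Vb} {C : ℝ}
    (h : ∀ i (x : ℕ → ℂ), bx k x → ‖F.f x i‖ ≤ C) : Nb k F ≤ C := by
  rw [Nb_apply]
  exact ciSup_le fun p => h p.1 p.2.1 p.2.2

theorem le_Nb {k : ℕ} (F : Vb) (i : ℕ) {x : ℕ → ℂ} (hx : bx k x) :
    ‖F.f x i‖ ≤ Nb k F := by
  rw [Nb_apply]
  exact le_ciSup (Nb_bdd k F) (i, ⟨x, hx⟩)

theorem Nb_mono (k : ℕ) (F : Vb) : Nb k F ≤ Nb (k + 1) F :=
  Nb_le fun i _ hx => le_Nb F i (bx_mono (Nat.le_succ k) hx)

theorem Nb_mono' {k k' : ℕ} (h : k ≤ k') (F : Vb) : Nb k F ≤ Nb k' F :=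
  Nb_le fun i _ hx => le_Nb F i (bx_mono h hx)

theorem Nb_def {k : ℕ} {F : Vb} (h : Nb k F = 0) : F = 0 := by
  obtain ⟨n, hn⟩ := F.exh
  have h1 : F.f = 0 := Es_zero hn (R := 1) one_pos fun i x hx => by
    have hb : bx k x := fun l => by
      have h2 : (0 : ℝ) ≤ k := Nat.cast_nonneg k
      have h3 : (0 : ℝ) ≤ l := Nat.cast_nonneg l
      refine ⟨((Complex.abs_re_le_norm _).trans (hx l)).trans ?_,
        ((Complex.abs_im_le_norm _).trans (hx l)).trans (by linarith)⟩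
      nlinarith
    have := le_Nb F i hb
    rw [h] at this
    exact norm_le_zero_iff.1 this
  exact Vb.ext fun x i => by rw [h1]; rfl

noncomputable instance : NormedAddCommGroup Vb :=
  AddGroupNorm.toNormedAddCommGroup
    { toFun := Nb 0
      map_zero' := map_zero _
      add_le' := map_add_le_add _
      neg' := map_neg_eq_map _
      eq_zero_of_map_eq_zero' := fun _ h => Nb_def h }

theorem norm_Vb (F : Vb) : ‖F‖ = Nb 0 F := rfl

noncomputable instance : NormedSpace ℝ Vb where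
  norm_smul_le r F := (map_smul_eq_mul (Nb 0) r F).le

instance (n : ℕ) : FiniteDimensional ℝ (Eb n) := Eb_finite n

/-- the coefficient of the new translation -/
noncomputable def taub (n : ℕ) : Vb →L[ℝ] ℝ :=
  LinearMap.mkContinuous
    { toFun := fun F => (F.f 0 n).re
      map_add' := fun F G => by rw [Vb.add_f, Pi.add_apply, Pi.add_apply, Complex.add_re]
      map_smul' := fun c F => by
        rw [Vb.smul_f, Pi.smul_apply, Pi.smul_apply, Complex.smul_re]; rfl } 1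
    (fun F => by
      rw [one_mul, norm_Vb]
      exact (Complex.abs_re_le_norm _).trans (le_Nb F n fun l => bxc_zero 0 l))

theorem taub_apply (n : ℕ) (F : Vb) : taub n F = (F.f 0 n).re := rfl

/-- the last coordinate of an element of `Eb n` is constant -/
theorem last_const {n : ℕ} {F : Vb} (hF : F ∈ Eb n) (x : ℕ → ℂ) : F.f x n = (taub n F : ℂ) := by
  have h0 : F.f x n = F.f 0 n := Es_dep (mem_Eb.1 hF) fun l h1 h2 => absurd h2 (not_le.2 h1)
  rw [h0, taub_apply]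
  exact Complex.ext rfl (by
    rw [Complex.ofReal_im]
    exact Es_real (mem_Eb.1 hF) (fun l => rfl) n)

theorem taub_lt {m n : ℕ} (h : m < n) {F : Vb} (hF : F ∈ Eb m) : taub n F = 0 := by
  have h0 : F.f 0 n = 0 := (mem_Eb.1 hF).2 n h 0
  rw [taub_apply, h0, Complex.zero_re]

theorem taub_op {n : ℕ} {F G : Vb} (hF : F ∈ Eb n) (hG : G ∈ Eb n) :
    taub n (opb F G) = taub n F + taub n G := by
  rw [taub_apply, opb_f, Pi.add_apply, Complex.add_re, last_const hF, last_const hG,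
    Complex.ofReal_re, Complex.ofReal_re, add_comm]

/-- translations of the coordinate `n` -/
noncomputable def eb (n : ℕ) : Vb := Vb.mk (fun _ i => if i = n then 1 else 0) ⟨n, by
  constructor
  · intro i hi
    by_cases h : i = n
    · subst h
      have : (fun x : ℕ → ℂ => (fun (_ : ℕ → ℂ) (j : ℕ) => if j = i then (1 : ℂ) else 0) x i) =
          mo 0 := by
        funext x
        simp [mo]
      rw [this]
      refine Submodule.subset_span ⟨0, fun l hl => absurd rfl hl, ?_, rfl⟩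
      unfold wt
      rw [Finsupp.sum_zero_index]
      positivity
    · have : (fun x : ℕ → ℂ => (fun (_ : ℕ → ℂ) (j : ℕ) => if j = n then (1 : ℂ) else 0) x i) =
          0 := by
        funext x
        simp [h]
      rw [this]
      exact (Cs _ _).zero_mem
  · intro i hi x
    exact if_neg (by omega)⟩

theorem eb_f (n : ℕ) (x : ℕ → ℂ) (i : ℕ) : (eb n).f x i = if i = n then 1 else 0 := rfl

theorem eb_mem (n : ℕ) : eb n ∈ Eb n := by
  rw [mem_Eb]
  constructor
  · intro i hi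
    by_cases h : i = n
    · subst h
      have : (fun x : ℕ → ℂ => (eb i).f x i) = mo 0 := by
        funext x
        rw [eb_f, if_pos rfl]
        simp [mo]
      rw [this]
      refine Submodule.subset_span ⟨0, fun l hl => absurd rfl hl, ?_, rfl⟩
      unfold wt
      rw [Finsupp.sum_zero_index]
      positivity
    · have : (fun x : ℕ → ℂ => (eb n).f x i) = 0 := by
        funext x
        rw [eb_f, if_neg h]
        rfl
      rw [this]
      exact (Cs _ _).zero_mem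
  · intro i hi x
    rw [eb_f, if_neg (by omega)]

theorem taub_eb (n : ℕ) : taub n (eb n) = 1 := by
  rw [taub_apply, eb_f, if_pos rfl, Complex.one_re]

end Pool.Agent.Lib.MP_862e0f_al.EW
end

section

/-!
# The Schwarz lemma on boxes (TASK EW CZ)

`bx_add`: real and imaginary parts of `y l + w l` with `‖w l‖ ≤ 1`: `(k + 1) * (l + 1) + 1 ≤ (k + 2) * (l + 1)`.
`schwarz`: if `ρ = 0` then `w = 0`. Let `ρ > 0` and `w' = (ρ⁻¹ : ℂ) • w`, `‖w' l‖ ≤ 1`. By `line_poly` there is a polynomial `p` with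
`G (y + t • w') i = p.eval t` for all `t : ℂ`; for `‖t‖ ≤ 1` the point `y + t • w'` is in the box of level `k + 1` (`bx_add`), so
`f t = p.eval t + c` satisfies `‖f t‖ ≤ M` for `‖t‖ ≤ 1`. Hence `dist (f t) (f 0) ≤ 2 * M < R` for every `R > 2 * M`, so `f` maps `ball 0 1` to
`ball (f 0) R`, and the Schwarz lemma (`Complex.dist_le_div_mul_dist_of_mapsTo_ball`, or a similar name) gives
`dist (f ρ) (f 0) ≤ R * ρ` if `ρ < 1`; `R → 2 * M` (`le_of_forall_pos_le_add` or so). If `ρ = 1` use `‖f 1‖ + ‖f 0‖ ≤ 2 * M`. Finally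
`f ρ - f 0 = G (y + w) i - G y i`. (Alternatively: any other proof.)
-/

set_option autoImplicit false

namespace Pool.Agent.Lib.MP_862e0f_al.EW

theorem bx_add {k : ℕ} {y w : ℕ → ℂ} (hy : bx k y) (hw : ∀ l, ‖w l‖ ≤ 1) : bx (k + 1) (y + w) := by
  intro l
  have h1 := hy l
  have h2 : |(w l).re| ≤ 1 := (Complex.abs_re_le_norm _).trans (hw l)
  have h3 : |(w l).im| ≤ 1 := (Complex.abs_im_le_norm _).trans (hw l)
  have hl : (0 : ℝ) ≤ l := Nat.cast_nonneg l
  refine ⟨?_, ?_⟩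
  · rw [Pi.add_apply, Complex.add_re]
    have h4 := abs_add_le (y l).re (w l).re
    have h5 := h1.1
    push_cast
    nlinarith
  · rw [Pi.add_apply, Complex.add_im]
    have h4 := abs_add_le (y l).im (w l).im
    have h5 := h1.2
    push_cast
    linarith

theorem schwarz {n : ℕ} {G : (ℕ → ℂ) → ℕ → ℂ} (hG : G ∈ Es n) (i k : ℕ) (c : ℂ) (M ρ : ℝ)
    (hM : ∀ x : ℕ → ℂ, bx (k + 1) x → ‖G x i + c‖ ≤ M) (hρ0 : 0 ≤ ρ) (hρ1 : ρ ≤ 1)
    {y w : ℕ → ℂ} (hy : bx k y) (hw : ∀ l, ‖w l‖ ≤ ρ) :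
    ‖G (y + w) i - G y i‖ ≤ 2 * M * ρ := by
  have key : ∀ x x' : ℕ → ℂ, bx (k + 1) x → bx (k + 1) x' → ‖G x i - G x' i‖ ≤ 2 * M := by
    intro x x' hx hx'
    have e : G x i - G x' i = (G x i + c) - (G x' i + c) := by ring
    rw [e]
    have := norm_sub_le (G x i + c) (G x' i + c)
    linarith [hM x hx, hM x' hx']
  have hy1 : bx (k + 1) y := bx_mono (Nat.le_succ k) hy
  rcases hρ0.eq_or_lt with h0 | hpos
  · have hw0 : w = 0 := by
      funext l
      have := hw l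
      rw [← h0] at this
      exact norm_le_zero_iff.1 this
    rw [hw0, add_zero, sub_self, norm_zero, ← h0, mul_zero]
  · obtain ⟨p, hp⟩ := line_poly hG y (((ρ⁻¹ : ℝ) : ℂ) • w) i
    have hw' : ∀ l, ‖(((ρ⁻¹ : ℝ) : ℂ) • w) l‖ ≤ 1 := by
      intro l
      rw [Pi.smul_apply, norm_smul, Complex.norm_real, Real.norm_eq_abs,
        abs_of_nonneg (inv_nonneg.2 hpos.le)]
      calc ρ⁻¹ * ‖w l‖ ≤ ρ⁻¹ * ρ := mul_le_mul_of_nonneg_left (hw l) (inv_nonneg.2 hpos.le)
        _ = 1 := inv_mul_cancel₀ hpos.ne'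
    have hbx : ∀ t : ℂ, ‖t‖ ≤ 1 → bx (k + 1) (y + t • (((ρ⁻¹ : ℝ) : ℂ) • w)) := by
      intro t ht
      refine bx_add hy fun l => ?_
      rw [Pi.smul_apply, norm_smul]
      exact mul_le_one₀ ht (norm_nonneg _) (hw' l)
    have e0 : p.eval 0 = G y i := by
      rw [← hp 0, zero_smul, add_zero]
    have eρ : p.eval (ρ : ℂ) = G (y + w) i := by
      rw [← hp (ρ : ℂ), smul_smul, ← Complex.ofReal_mul, mul_inv_cancel₀ hpos.ne',
        Complex.ofReal_one, one_smul]
    rcases hρ1.eq_or_lt with h1 | hlt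
    · rw [h1, mul_one]
      refine key _ _ (bx_add hy fun l => ?_) hy1
      exact (hw l).trans hρ1
    · have hmaps : Set.MapsTo (fun t : ℂ => p.eval t) (Metric.ball 0 1)
          (Metric.closedBall (p.eval 0) (2 * M)) := by
        intro t ht
        rw [mem_ball_zero_iff] at ht
        rw [Metric.mem_closedBall, dist_eq_norm, e0]
        show ‖p.eval t - G y i‖ ≤ 2 * M
        rw [← hp t]
        exact key _ _ (hbx t ht.le) hy1
      have hz : (ρ : ℂ) ∈ Metric.ball (0 : ℂ) 1 := by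
        rw [mem_ball_zero_iff, Complex.norm_real, Real.norm_eq_abs, abs_of_nonneg hρ0]
        exact hlt
      have h := Complex.dist_le_div_mul_dist_of_mapsTo_ball
        (f := fun t : ℂ => p.eval t) (p.differentiable.differentiableOn) hmaps hz
      rw [dist_eq_norm, dist_zero_right, Complex.norm_real, Real.norm_eq_abs,
        abs_of_nonneg hρ0, div_one] at h
      show ‖G (y + w) i - G y i‖ ≤ 2 * M * ρ
      rw [← e0, ← eρ]
      exact h

end Pool.Agent.Lib.MP_862e0f_al.EW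
end

section

/-!
# Joint smoothness of the evaluation (TASK EW CJ)

`contDiff_fix`: for a fixed `F ∈ Es n` and smooth coordinates `y x l` the function
`x ↦ F (y x) i` is smooth: for `i > n` it is `0`, for `i ≤ n` span induction; `mo α (y x)` is a finite
product of powers.
`contDiff_eval`: let `b` be a basis of `Eb n`, and write `φ x = ∑ c_j(x) • b_j`, where
`c_j(x) = (coordinate functional j) (φ x)` is smooth: `x ↦ (⟨φ x, _⟩ : Eb n)` is smooth because it is
`π ∘ φ` with a continuous linear projection `π : Vb → Eb n`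
(`Submodule.ClosedComplemented.of_finiteDimensional`); so `(φ x).f (y x) i =
∑ c_j(x) * (b_j).f (y x) i`.
-/

set_option autoImplicit false

namespace Pool.Agent.Lib.MP_862e0f_al.EW

open scoped ContDiff

private theorem CJ_span {X : Type} [NormedAddCommGroup X] [NormedSpace ℝ X] {n : ℕ} {d : ℝ}
    {y : X → ℕ → ℂ} (hy : ∀ l, ContDiff ℝ ∞ (fun x => y x l)) {f : (ℕ → ℂ) → ℂ}
    (hf : f ∈ Cs n d) : ContDiff ℝ ∞ (fun x => f (y x)) := by
  unfold Cs at hf
  induction hf using Submodule.span_induction with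
  | mem f hf =>
    obtain ⟨α, -, -, rfl⟩ := hf
    have : (fun x => mo α (y x)) = fun x => ∏ l ∈ α.support, (y x l) ^ (α l) := rfl
    rw [this]
    exact contDiff_prod fun l _ => (hy l).pow _
  | zero => exact contDiff_const
  | add f g _ _ h1 h2 => exact h1.add h2
  | smul c f _ h => exact contDiff_const.smul h

/-- evaluation as a linear functional -/
private noncomputable def CJ_ev (z : ℕ → ℂ) (i : ℕ) : Vb →ₗ[ℝ] ℂ where
  toFun F := F.f z i
  map_add' _ _ := rfl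
  map_smul' _ _ := rfl

theorem contDiff_fix {X : Type} [NormedAddCommGroup X] [NormedSpace ℝ X] {n : ℕ}
    {F : (ℕ → ℂ) → ℕ → ℂ} (hF : F ∈ Es n) {y : X → ℕ → ℂ}
    (hy : ∀ l, ContDiff ℝ ∞ (fun x => y x l)) (i : ℕ) :
    ContDiff ℝ ∞ (fun x => F (y x) i) := by
  rcases le_or_gt i n with h | h
  · exact CJ_span hy (hF.1 i h)
  · have : (fun x => F (y x) i) = fun _ => 0 := funext fun x => hF.2 i h (y x)
    rw [this]
    exact contDiff_const

theorem contDiff_eval {X : Type} [NormedAddCommGroup X] [NormedSpace ℝ X] {n : ℕ} {φ : X → Vb}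
    (hφ : ContDiff ℝ ∞ φ) (hE : ∀ x, φ x ∈ Eb n) {y : X → ℕ → ℂ}
    (hy : ∀ l, ContDiff ℝ ∞ (fun x => y x l)) (i : ℕ) :
    ContDiff ℝ ∞ (fun x => (φ x).f (y x) i) := by
  obtain ⟨P, hP⟩ := Submodule.ClosedComplemented.of_finiteDimensional (Eb n)
  have hψ : ContDiff ℝ ∞ (fun x => P (φ x)) := P.contDiff.comp hφ
  have hφψ : ∀ x, ((P (φ x) : Eb n) : Vb) = φ x := fun x => by
    have := hP ⟨φ x, hE x⟩
    exact congrArg Subtype.val this
  let b := Module.finBasis ℝ (Eb n)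
  have hc : ∀ j, ContDiff ℝ ∞ (fun x => b.coord j (P (φ x))) := fun j =>
    (LinearMap.toContinuousLinearMap (b.coord j)).contDiff.comp hψ
  have key : ∀ x, (φ x).f (y x) i =
      ∑ j, b.coord j (P (φ x)) • ((b j : Eb n) : Vb).f (y x) i := fun x => by
    have h1 : P (φ x) = ∑ j, b.coord j (P (φ x)) • b j := (b.sum_repr (P (φ x))).symm
    have h2 := congrArg (fun v : Eb n => CJ_ev (y x) i (v : Vb)) h1
    simp only [hφψ, Submodule.coe_sum, Submodule.coe_smul, map_sum, map_smul] at h2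
    exact h2
  have : (fun x => (φ x).f (y x) i) =
      fun x => ∑ j, b.coord j (P (φ x)) • ((b j : Eb n) : Vb).f (y x) i := funext key
  rw [this]
  exact ContDiff.sum fun j _ => (hc j).smul (contDiff_fix (b j).2 hy i)

end Pool.Agent.Lib.MP_862e0f_al.EW
end
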