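import Mathlib
import Pool.Agent.Lib.MP_862e0f_al.Mg.G002
import Pool.Agent.Lib.MP_862e0f_al.Mg.G001

section

/-!
# Special polynomials (TASK EW CP)

`exists_el`: the coordinate `i` is `x ↦ ∑ m, q.coeff m • x l ^ m` (as a function to `ℂ`), a real linear combination of
the functions `mo (single l m)`, `m ≤ natDegree q`, of weight `m * (1/2) ^ l < (1/2) ^ i`; the other coordinates are `0` (see `EV/EL.lean`).
`exists_sp`: let `h = k + 1`. For given `l` put `R = h * (l + 1)`, let `M : ℕ` with `M ≥ R ^ 2 + h ^ 2` and `M ≥ 2`, `M ≤ R ^ 2 + h ^ 2 + 3` (`Nat.ceil`), and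
`P = (1 - X ^ 2 / M) ^ M`, `p = (1 - P) / (1 - P(1))` (`Polynomial.C`). `P(0) = 1`, `P(1) = (1 - 1/M) ^ M ≤ exp (-1) ≤ 1/2` (`1 - s ≤ exp (-s)`,
`Real.exp_one_gt_d9`), `P(1) ≥ 0`, so `1 - P(1) ≥ 1/2`. For `z = x + i y`, `|x| ≤ R`, `|y| ≤ h`:
`‖1 - z^2 / M‖^2 = (1 - (x^2 - y^2)/M)^2 + (2 x y / M)^2 = 1 - 2 (x^2 - y^2) / M + (x^2 + y^2)^2 / M^2 ≤ 1 + 3 y^2 / M ≤ 1 + 3 h^2 / M` because
`x^2 + y^2 ≤ M`. So `‖P(z)‖ ^ 2 ≤ (1 + 3 h^2 / M) ^ M ≤ exp (3 h^2)` and `‖p(z)‖ ≤ 2 * (1 + ‖P(z)‖) ≤ C := 2 * (1 + exp (3 * h ^ 2))` (e.g. `‖P‖ ≤ 1 + ‖P‖^2`; adapt the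
constant `C` as you like, it must not depend on `l`). `natDegree p ≤ 2 * M`, and `2 * M * (1/2) ^ l → 0` as `l → ∞` because `M` is at most a quadratic
polynomial in `l` (`tendsto_pow_const_mul_const_pow_of_abs_lt_one`-type lemmas; `l ^ 2 * (1/2) ^ l → 0`).
-/

set_option autoImplicit false

namespace Pool.Agent.Lib.MP_862e0f_al.EW

open Filter Topology

theorem exists_el (i l : ℕ) (hil : i ≤ l) (q : Polynomial ℝ)
    (h : (q.natDegree : ℝ) * (1 / 2) ^ l < (1 / 2) ^ i) :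
    ∃ F : Vb, F ∈ Eb l ∧ ∀ x j, F.f x j = if j = i then (q.map (algebraMap ℝ ℂ)).eval (x l) else 0 := by
  have key : (fun x : ℕ → ℂ => (q.map (algebraMap ℝ ℂ)).eval (x l)) ∈ Cs l ((1 / 2) ^ i) := by
    have e : (fun x : ℕ → ℂ => (q.map (algebraMap ℝ ℂ)).eval (x l)) =
        ∑ m ∈ Finset.range (q.natDegree + 1), q.coeff m • mo (Finsupp.single l m) := by
      funext x
      have hdeg : (q.map (algebraMap ℝ ℂ)).natDegree = q.natDegree :=
        Polynomial.natDegree_map_eq_of_injective (algebraMap ℝ ℂ).injective q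
      rw [Polynomial.eval_eq_sum_range, Finset.sum_apply, hdeg]
      refine Finset.sum_congr rfl fun m _ => ?_
      have e3 : mo (Finsupp.single l m) x = x l ^ m :=
        Finsupp.prod_single_index (h := fun l a => x l ^ a) (pow_zero _)
      rw [Pi.smul_apply, e3, Polynomial.coeff_map, Complex.coe_algebraMap, Complex.real_smul]
    rw [e]
    refine Submodule.sum_mem _ fun m hm => Submodule.smul_mem _ _ (Submodule.subset_span ?_)
    refine ⟨Finsupp.single l m, fun l' hl' => ?_, ?_, rfl⟩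
    · have : l = l' := by
        by_contra hne
        exact hl' (Finsupp.single_eq_of_ne (Ne.symm hne))
      rw [← this]
    · have e2 : wt (Finsupp.single l m) = (m : ℝ) * (1 / 2) ^ l := by
        rw [wt, Finsupp.sum_single_index]
        push_cast
        ring
      rw [e2]
      have hm' : m ≤ q.natDegree := Nat.lt_succ_iff.1 (Finset.mem_range.1 hm)
      have : (m : ℝ) ≤ q.natDegree := by exact_mod_cast hm'
      exact lt_of_le_of_lt (mul_le_mul_of_nonneg_right this (by positivity)) h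
  have mem : (fun (x : ℕ → ℂ) (j : ℕ) =>
      if j = i then (q.map (algebraMap ℝ ℂ)).eval (x l) else 0) ∈ Es l := by
    constructor
    · intro j hj
      by_cases hji : j = i
      · subst hji
        simpa using key
      · have : (fun x : ℕ → ℂ => (fun (x : ℕ → ℂ) (j : ℕ) =>
            if j = i then (q.map (algebraMap ℝ ℂ)).eval (x l) else 0) x j) = 0 := by
          funext x
          simp [hji]
        rw [this]
        exact (Cs _ _).zero_mem
    · intro j hj x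
      exact if_neg (by omega)
  exact ⟨Vb.mk _ ⟨l, mem⟩, mem, fun x j => rfl⟩

private theorem CP_norm {R h M x y : ℝ} (hM : 0 < M) (hRM : R ^ 2 + h ^ 2 ≤ M) (hx : |x| ≤ R)
    (hy : |y| ≤ h) :
    (1 - (x ^ 2 - y ^ 2) / M) ^ 2 + (2 * x * y / M) ^ 2 ≤ 1 + 3 * h ^ 2 / M := by
  have hx2 : x ^ 2 ≤ R ^ 2 := by
    rw [← sq_abs x]
    exact pow_le_pow_left₀ (abs_nonneg x) hx 2
  have hy2 : y ^ 2 ≤ h ^ 2 := by
    rw [← sq_abs y]
    exact pow_le_pow_left₀ (abs_nonneg y) hy 2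
  have e : (1 - (x ^ 2 - y ^ 2) / M) ^ 2 + (2 * x * y / M) ^ 2 =
      1 + (-2 * (x ^ 2 - y ^ 2) * M + (x ^ 2 + y ^ 2) ^ 2) / M ^ 2 := by
    field_simp
    ring
  have e2 : 3 * h ^ 2 / M = (3 * h ^ 2 * M) / M ^ 2 := by
    field_simp
  rw [e, e2]
  have h1 : (x ^ 2 + y ^ 2) ^ 2 ≤ (x ^ 2 + y ^ 2) * M := by
    rw [sq (x ^ 2 + y ^ 2)]
    exact mul_le_mul_of_nonneg_left (by linarith) (by positivity)
  have h2 : y ^ 2 * M ≤ h ^ 2 * M := mul_le_mul_of_nonneg_right hy2 hM.le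
  have h3 : 0 ≤ x ^ 2 * M := by positivity
  have h4 : -2 * (x ^ 2 - y ^ 2) * M + (x ^ 2 + y ^ 2) ^ 2 ≤ 3 * h ^ 2 * M := by nlinarith
  have h5 : (-2 * (x ^ 2 - y ^ 2) * M + (x ^ 2 + y ^ 2) ^ 2) / M ^ 2 ≤ 3 * h ^ 2 * M / M ^ 2 :=
    div_le_div_of_nonneg_right h4 (by positivity)
  linarith

private theorem CP_pow {R h : ℝ} {M : ℕ} (hM : 0 < M) (hRM : R ^ 2 + h ^ 2 ≤ M) {z : ℂ}
    (hx : |z.re| ≤ R) (hy : |z.im| ≤ h) :
    ‖(1 - z ^ 2 / (M : ℂ)) ^ M‖ ^ 2 ≤ Real.exp (3 * h ^ 2) := by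
  have hM0 : (0 : ℝ) < M := by exact_mod_cast hM
  have hn : ‖(1 - z ^ 2 / (M : ℂ))‖ ^ 2 =
      (1 - (z.re ^ 2 - z.im ^ 2) / M) ^ 2 + (2 * z.re * z.im / M) ^ 2 := by
    rw [Complex.sq_norm, Complex.normSq_apply]
    have e1 : (1 - z ^ 2 / (M : ℂ)).re = 1 - (z.re ^ 2 - z.im ^ 2) / M := by
      rw [Complex.sub_re, Complex.one_re, Complex.div_natCast_re, sq z, Complex.mul_re]
      ring
    have e2 : (1 - z ^ 2 / (M : ℂ)).im = -(2 * z.re * z.im / M) := by
      rw [Complex.sub_im, Complex.one_im, Complex.div_natCast_im, sq z, Complex.mul_im]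
      ring
    rw [e1, e2]
    ring
  have h1 : ‖(1 - z ^ 2 / (M : ℂ))‖ ^ 2 ≤ Real.exp (3 * h ^ 2 / M) := by
    rw [hn]
    refine (CP_norm hM0 hRM hx hy).trans ?_
    have := Real.add_one_le_exp (3 * h ^ 2 / (M : ℝ))
    linarith
  calc ‖(1 - z ^ 2 / (M : ℂ)) ^ M‖ ^ 2 = (‖(1 - z ^ 2 / (M : ℂ))‖ ^ 2) ^ M := by
        rw [norm_pow, ← pow_mul, ← pow_mul, mul_comm]
    _ ≤ (Real.exp (3 * h ^ 2 / M)) ^ M := pow_le_pow_left₀ (by positivity) h1 M
    _ = Real.exp (3 * h ^ 2) := by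
        rw [← Real.exp_nat_mul]
        congr 1
        field_simp

private theorem CP_tendsto (A c : ℝ) (hc : 0 < c) :
    ∀ᶠ l : ℕ in atTop, A * ((l : ℝ) + 1) ^ 2 * (1 / 2) ^ l < c := by
  have h1 := tendsto_pow_const_mul_const_pow_of_abs_lt_one 2 (r := (1 / 2 : ℝ))
    (by rw [abs_of_pos] <;> norm_num)
  have h2 := h1.comp (tendsto_add_atTop_nat 1)
  have h3 := h2.const_mul (2 * A)
  rw [mul_zero] at h3
  filter_upwards [h3.eventually (gt_mem_nhds hc)] with l hl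
  simp only [Function.comp_apply] at hl
  push_cast at hl
  calc A * ((l : ℝ) + 1) ^ 2 * (1 / 2) ^ l
      = 2 * A * (((l : ℝ) + 1) ^ 2 * (1 / 2) ^ (l + 1)) := by ring
    _ < c := hl

theorem exists_sp (k i : ℕ) : ∃ C : ℝ, 0 ≤ C ∧ ∀ᶠ l : ℕ in atTop, ∃ p : Polynomial ℝ,
    (p.natDegree : ℝ) * (1 / 2) ^ l < (1 / 2) ^ i ∧ p.eval 0 = 0 ∧ p.eval 1 = 1 ∧
      ∀ z : ℂ, bxc k l z → ‖(p.map (algebraMap ℝ ℂ)).eval z‖ ≤ C := by
  refine ⟨2 * (2 + Real.exp (3 * ((k : ℝ) + 1) ^ 2)), by positivity, ?_⟩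
  filter_upwards [CP_tendsto (2 * (2 * ((k : ℝ) + 1) ^ 2 + 1)) ((1 / 2) ^ i) (by positivity)]
    with l hl
  set M : ℕ := ((k + 1) * (l + 1)) ^ 2 + (k + 1) ^ 2 + 1 with hMdef
  have hMpos : 0 < M := Nat.succ_pos _
  have hMR : (M : ℝ) = (((k : ℝ) + 1) * ((l : ℝ) + 1)) ^ 2 + ((k : ℝ) + 1) ^ 2 + 1 := by
    rw [hMdef]
    push_cast
    ring
  have hM1 : (1 : ℝ) ≤ M := by exact_mod_cast hMpos
  have hM0 : (0 : ℝ) < M := by linarith
  have hML : (M : ℝ) ≤ (2 * ((k : ℝ) + 1) ^ 2 + 1) * ((l : ℝ) + 1) ^ 2 := by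
    have h1 : (1 : ℝ) ≤ ((l : ℝ) + 1) ^ 2 := by
      have : (0 : ℝ) ≤ l := Nat.cast_nonneg l
      nlinarith
    have h2 : (0 : ℝ) ≤ ((k : ℝ) + 1) ^ 2 + 1 := by positivity
    rw [hMR]
    nlinarith [mul_le_mul_of_nonneg_left h1 h2]
  -- the polynomial
  set P : Polynomial ℝ := (1 - Polynomial.C (1 / (M : ℝ)) * Polynomial.X ^ 2) ^ M with hP
  have hP0 : P.eval 0 = 1 := by
    rw [hP]
    simp
  have hP1 : P.eval 1 = (1 - 1 / (M : ℝ)) ^ M := by
    rw [hP]
    simp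
  have hP1le : P.eval 1 ≤ 1 / 2 := by
    rw [hP1]
    refine (Real.one_sub_div_pow_le_exp_neg hM1).trans ?_
    have := Real.exp_neg_one_lt_d9
    linarith
  have hc : 1 / 2 ≤ 1 - P.eval 1 := by linarith
  have hc0 : 0 < 1 - P.eval 1 := by linarith
  have hPdeg : P.natDegree ≤ 2 * M := by
    rw [hP]
    refine Polynomial.natDegree_pow_le.trans ?_
    rw [mul_comm]
    refine Nat.mul_le_mul_right _ ?_
    refine (Polynomial.natDegree_sub_le _ _).trans (max_le ?_ ?_)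
    · rw [Polynomial.natDegree_one]
      exact Nat.zero_le _
    · refine (Polynomial.natDegree_C_mul_le _ _).trans ?_
      rw [Polynomial.natDegree_X_pow]
  refine ⟨Polynomial.C (1 - P.eval 1)⁻¹ * (1 - P), ?_, ?_, ?_, ?_⟩
  · have hd : (Polynomial.C (1 - P.eval 1)⁻¹ * (1 - P)).natDegree ≤ 2 * M := by
      refine (Polynomial.natDegree_C_mul_le _ _).trans ?_
      refine (Polynomial.natDegree_sub_le _ _).trans (max_le ?_ hPdeg)
      rw [Polynomial.natDegree_one]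
      exact Nat.zero_le _
    have hd' : ((Polynomial.C (1 - P.eval 1)⁻¹ * (1 - P)).natDegree : ℝ) ≤ 2 * M := by
      exact_mod_cast hd
    refine lt_of_le_of_lt ?_ hl
    refine mul_le_mul_of_nonneg_right ?_ (by positivity)
    refine hd'.trans ?_
    nlinarith
  · rw [Polynomial.eval_mul, Polynomial.eval_sub, hP0]
    simp
  · rw [Polynomial.eval_mul, Polynomial.eval_C, Polynomial.eval_sub, Polynomial.eval_one]
    exact inv_mul_cancel₀ hc0.ne'
  · intro z hz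
    have hev : (P.map (algebraMap ℝ ℂ)).eval z = (1 - z ^ 2 / (M : ℂ)) ^ M := by
      rw [hP]
      simp only [Polynomial.map_pow, Polynomial.map_sub, Polynomial.map_one, Polynomial.map_mul,
        Polynomial.map_C, Polynomial.map_X, Polynomial.eval_pow, Polynomial.eval_sub,
        Polynomial.eval_one, Polynomial.eval_mul, Polynomial.eval_C, Polynomial.eval_X,
        Complex.coe_algebraMap]
      congr 2
      push_cast
      ring
    have hb := CP_pow (R := ((k : ℝ) + 1) * ((l : ℝ) + 1)) (h := (k : ℝ) + 1) hMpos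
      (by rw [hMR]; linarith) hz.1 hz.2
    have hb2 : ‖(P.map (algebraMap ℝ ℂ)).eval z‖ ≤ 1 + Real.exp (3 * ((k : ℝ) + 1) ^ 2) := by
      rw [hev]
      nlinarith [sq_nonneg (‖(1 - z ^ 2 / (M : ℂ)) ^ M‖ - 1)]
    rw [Polynomial.map_mul, Polynomial.map_C, Polynomial.map_sub, Polynomial.map_one,
      Polynomial.eval_mul, Polynomial.eval_C, Polynomial.eval_sub, Polynomial.eval_one, norm_mul]
    have hi : ‖(algebraMap ℝ ℂ) (1 - P.eval 1)⁻¹‖ ≤ 2 := by
      rw [Complex.coe_algebraMap, Complex.norm_real, Real.norm_eq_abs, abs_inv, abs_of_pos hc0]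
      rw [inv_le_comm₀ hc0 (by norm_num)]
      linarith
    have hj : ‖1 - (P.map (algebraMap ℝ ℂ)).eval z‖ ≤ 2 + Real.exp (3 * ((k : ℝ) + 1) ^ 2) := by
      refine (norm_sub_le _ _).trans ?_
      rw [norm_one]
      linarith
    exact mul_le_mul hi hj (norm_nonneg _) (by norm_num)

end Pool.Agent.Lib.MP_862e0f_al.EW
end

section

/-!
# Towers with new translations: definitions

A *tower* is a group structure `(V, op, iv)` on a real vector space with finite-dimensional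
subspaces `E n` which are subgroups, norms `N k`, elements `e n ∈ E n` (the translation of the new variable)
with coefficient functionals `tau n`. A sequence `Z n ∈ E n` has the translations `t n = tau n (Z n)` and
the increments `v n = Z n - Z (n - 1) - t n • e n`. We build a Fréchet-Lie group of sequences with
`t n / (n + 1) → 0` and `∑ N k (v n) ^ (1 / 2 ^ k) < ∞` for all `k`.
-/

set_option autoImplicit false

namespace Pool.Agent.Lib.MP_862e0f_al.EW

open Filter Topology Set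
open scoped ContDiff

/-- The data of a tower. -/
structure Pre (V : Type) [NormedAddCommGroup V] [NormedSpace ℝ V] where
  /-- the finite-dimensional subgroups -/
  E : ℕ → Submodule ℝ V
  fin : ∀ n, FiniteDimensional ℝ (E n)
  /-- the norms -/
  N : ℕ → Seminorm ℝ V
  /-- the coefficient of the new translation -/
  tau : ℕ → V →L[ℝ] ℝ
  /-- the new translations -/
  e : ℕ → V
  /-- the group operation -/
  op : V → V → V
  /-- the inverse -/
  iv : V → V

attribute [instance] Pre.fin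

variable {V : Type} [NormedAddCommGroup V] [NormedSpace ℝ V]

/-- the elements of `E n` without new translation -/
def Pre.F (P : Pre V) (n : ℕ) : Submodule ℝ V where
  carrier := {x | x ∈ P.E n ∧ P.tau n x = 0}
  add_mem' := fun {a b} ha hb => ⟨(P.E n).add_mem ha.1 hb.1, by rw [map_add, ha.2, hb.2, add_zero]⟩
  zero_mem' := ⟨(P.E n).zero_mem, map_zero _⟩
  smul_mem' := fun c a ha => ⟨(P.E n).smul_mem c ha.1, by rw [map_smul, ha.2, smul_zero]⟩

instance (P : Pre V) (n : ℕ) : FiniteDimensional ℝ (P.F n) :=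
  Submodule.finiteDimensional_of_le (fun _ hx => hx.1 : P.F n ≤ P.E n)

/-- The sequence with the translations `t` and the increments `v`. -/
noncomputable def Pre.seq (P : Pre V) (t : ℕ → ℝ) (v : ℕ → V) (n : ℕ) : V :=
  ∑ a ∈ Finset.range (n + 1), (v a + t a • P.e a)

/-- The increments of a sequence. -/
noncomputable def Pre.vv (P : Pre V) (Z : ℕ → V) : ℕ → V
  | 0 => Z 0 - P.tau 0 (Z 0) • P.e 0
  | n + 1 => Z (n + 1) - Z n - P.tau (n + 1) (Z (n + 1)) • P.e (n + 1)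

/-- The increments of the product of two sequences. -/
noncomputable def Pre.vop (P : Pre V) (t : ℕ → ℝ) (v : ℕ → V) (t' : ℕ → ℝ) (v' : ℕ → V) : ℕ → V :=
  P.vv fun n => P.op (P.seq t v n) (P.seq t' v' n)

/-- The increments of the inverse of a sequence. -/
noncomputable def Pre.viv (P : Pre V) (t : ℕ → ℝ) (v : ℕ → V) : ℕ → V :=
  P.vv fun n => P.iv (P.seq t v n)

/-- Control of a sequence up to time `n` and up to level `K`. -/
structure Pre.Ctl (P : Pre V) (C : ℝ) (S : ℕ → ℝ) (L : ℕ → ℕ) (K n : ℕ) (t : ℕ → ℝ)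
    (v : ℕ → V) : Prop where
  mem : ∀ a, v a ∈ P.F a
  t_le : ∀ a, a ≤ n → |t a| ≤ C * ((a : ℝ) + 1)
  S_le : ∀ j, j ≤ K → ∑ a ∈ Finset.range (n + 1), P.N j (v a) ≤ S j
  L_le : ∀ j, j ≤ K → ∑ a ∈ Finset.Ico (L j) (n + 1), P.N j (v a) ≤ 1

/-- A tower. -/
structure Tw (V : Type) [NormedAddCommGroup V] [NormedSpace ℝ V] extends Pre V where
  mono : Monotone E
  N_mono : ∀ k x, N k x ≤ N (k + 1) x
  norm_le : ∀ x, ‖x‖ ≤ N 0 x
  e_mem : ∀ n, e n ∈ E n
  tau_e : ∀ n, tau n (e n) = 1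
  tau_lt : ∀ m n x, m < n → x ∈ E m → tau n x = 0
  op_assoc : ∀ x y z, op (op x y) z = op x (op y z)
  zero_op : ∀ x, op 0 x = x
  op_zero : ∀ x, op x 0 = x
  iv_op : ∀ x, op (iv x) x = 0
  op_mem : ∀ n x y, x ∈ E n → y ∈ E n → op x y ∈ E n
  iv_mem : ∀ n x, x ∈ E n → iv x ∈ E n
  tau_op : ∀ n x y, x ∈ E n → y ∈ E n → tau n (op x y) = tau n x + tau n y
  op_smooth : ∀ n, ContDiff ℝ ∞ (fun z : E n × E n => op (z.1 : V) (z.2 : V))
  iv_smooth : ∀ n, ContDiff ℝ ∞ (fun z : E n => iv (z : V))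
  op_est : ∀ (k : ℕ) (C : ℝ) (S : ℕ → ℝ) (L : ℕ → ℕ), ∃ (K : ℕ) (B : ℝ), 0 ≤ B ∧
    ∀ (t : ℕ → ℝ) (v : ℕ → V) (t' : ℕ → ℝ) (v' : ℕ → V) (n : ℕ),
      toPre.Ctl C S L K n t v → toPre.Ctl C S L K n t' v' → L K ≤ n →
        N k (toPre.vop t v t' v' n) ≤ B * (N K (v n) + N K (v' n))
  iv_est : ∀ (k : ℕ) (C : ℝ) (S : ℕ → ℝ) (L : ℕ → ℕ), ∃ (K : ℕ) (B : ℝ), 0 ≤ B ∧
    ∀ (t : ℕ → ℝ) (v : ℕ → V) (n : ℕ), toPre.Ctl C S L K n t v → L K ≤ n →
        N k (toPre.viv t v n) ≤ B * N K (v n)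

/-- the `j`-fold square root -/
noncomputable def rt (j : ℕ) (x : ℝ) : ℝ := Real.sqrt^[j] x

/-- the cost of level `j` -/
noncomputable def Pre.q (P : Pre V) (j : ℕ) (x : V) : ℝ := rt j (P.N j x)

/-- The gear of a tower: smooth substitutes of the costs, penalty functions, and the constants which
compare `N n` with the norm on `F n`. -/
structure Gear (T : Tw V) where
  /-- a smooth substitute of `q j` on `F n` -/
  lam : ℕ → ℕ → V → ℝ
  /-- the penalty of level `j` at time `n` -/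
  pen : ℕ → ℕ → V → ℝ
  /-- the constants -/
  D : ℕ → ℝ
  lam_smooth : ∀ j n, ContDiff ℝ ∞ (lam j n)
  lam_nonneg : ∀ j n x, 0 ≤ lam j n x
  lam_lower : ∀ j n x, x ∈ T.F n → T.q j x ≤ 2 * lam j n x
  lam_upper : ∀ j n x, x ∈ T.F n → lam j n x ≤ 2 * T.q j x + (1 / 2) ^ n
  pen_smooth : ∀ j n, ContDiff ℝ ∞ (pen j n)
  pen_nonneg : ∀ j n x, 0 ≤ pen j n x
  pen_zero : ∀ j n x, x ∈ T.F n → T.N j x ≤ 1 / 2 → pen j n x = 0
  pen_one : ∀ j n x, x ∈ T.F n → 1 ≤ T.N j x → pen j n x = 1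
  pen_ray : ∀ j n x, x ∈ T.F n → 0 ≤ fderiv ℝ (pen j n) x x
  D_pos : ∀ n, 0 < D n
  D_spec : ∀ n x, x ∈ T.F n → T.N n x ≤ D n * ‖x‖

variable {T : Tw V} (G : Gear T)

/-- the variation of level `j` which is used up before time `n` -/
noncomputable def Lam (j : ℕ) (v : ℕ → V) (n : ℕ) : ℝ := ∑ a ∈ Finset.range n, G.lam j a (v a)

/-- the threshold for the cost `q j` at time `n` -/
noncomputable def uu (j : ℕ) (v : ℕ → V) (n : ℕ) : ℝ :=
  (1 / 4) ^ (j + 3) * Real.exp (-Lam G (j + 1) v n)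

/-- the threshold for the norm `N j` at time `n` -/
noncomputable def thr (j : ℕ) (v : ℕ → V) (n : ℕ) : ℝ := uu G j v n ^ (2 ^ j)

/-- The factor of the chart at time `n`; only the penalties of the levels `≥ t` are used (`t = 0` gives
the chart, `t > 0` the truncated charts). -/
noncomputable def Afac (W : ℕ → ℕ → ℝ) (t n : ℕ) (v : ℕ → V) (x : V) : ℝ :=
  1 + ∑ j ∈ Finset.Ico t n, G.D n * W j n * (thr G j v n)⁻¹ * G.pen j n ((thr G j v n)⁻¹ • x)

/-- a solution of `r * f r = 1` -/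
noncomputable def tauE (f : ℝ → ℝ) : ℝ := Classical.epsilon fun r => r * f r = 1

/-- The increment at time `n` with the coordinate `y`. -/
noncomputable def nxt (W : ℕ → ℕ → ℝ) (t n : ℕ) (v : ℕ → V) (y : V) : V :=
  tauE (fun r => Afac G W t n v (r • y)) • y

/-- The increments before time `n` of the sequence with the coordinates `y`. -/
noncomputable def hs (W : ℕ → ℕ → ℝ) (y : ℕ → V) : ℕ → ℕ → V
  | 0 => fun _ => 0
  | n + 1 => Function.update (hs W y n) n (nxt G W 0 n (hs W y n) (y n))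

/-- The increments of the sequence with the coordinates `y`. -/
noncomputable def vs (W : ℕ → ℕ → ℝ) (y : ℕ → V) (n : ℕ) : V := hs G W y (n + 1) n

/-- The same, the increment at time `n` is made with the truncated chart. -/
noncomputable def vu (W : ℕ → ℕ → ℝ) (t : ℕ) (y : ℕ → V) (n : ℕ) : ℕ → V :=
  Function.update (vs G W y) n (nxt G W t n (vs G W y) (y n))

/-- The coordinates of the sequence with the increments `v`. -/
noncomputable def crd (W : ℕ → ℕ → ℝ) (t : ℕ) (v : ℕ → V) (n : ℕ) : V :=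
  Afac G W t n v (v n) • v n

/-- the translations with the coordinates `g` -/
noncomputable def tq (g : ℕ → ℝ) (a : ℕ) : ℝ := ((a : ℝ) + 1) * g a

/-- Multiplication in coordinates, truncated at time `n`. -/
noncomputable def Fm (W : ℕ → ℕ → ℝ) (t : ℕ) (g : ℕ → ℝ) (y : ℕ → V) (g' : ℕ → ℝ) (y' : ℕ → V)
    (n : ℕ) : V :=
  crd G W t (T.vop (tq g) (vu G W t y n) (tq g') (vu G W t y' n)) n

/-- Inversion in coordinates, truncated at time `n`. -/
noncomputable def Fi (W : ℕ → ℕ → ℝ) (t : ℕ) (g : ℕ → ℝ) (y : ℕ → V) (n : ℕ) : V :=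
  crd G W t (T.viv (tq g) (vu G W t y n)) n

variable (T) in
/-- Histories of length `n + 1`. -/
abbrev Hist (n : ℕ) : Type := (Fin (n + 1) → ℝ) × ((a : Fin (n + 1)) → T.F (a : ℕ))

variable (T) in
/-- The first component of a history, extended by zero. -/
noncomputable def gx (n : ℕ) (z : Hist T n) : ℕ → ℝ :=
  fun a => if h : a < n + 1 then z.1 ⟨a, h⟩ else 0

variable (T) in
/-- The second component of a history, extended by zero. -/
noncomputable def yx (n : ℕ) (z : Hist T n) : ℕ → V :=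
  fun a => if h : a < n + 1 then ((z.2 ⟨a, h⟩ : T.F a) : V) else 0

variable (T) in
/-- An element of `V` as an element of `F n` (zero if it is not in `F n`). -/
noncomputable def toF (n : ℕ) (y : V) : T.F n := by
  classical
  exact if h : y ∈ T.F n then ⟨y, h⟩ else 0

variable (T) in
/-- The boxes. -/
def Box (W : ℕ → ℕ → ℝ) (n k : ℕ) : Set (Hist T n) :=
  {z | (∀ a, |z.1 a| ≤ n) ∧ ∀ a : Fin (n + 1), ‖z.2 a‖ ≤ n * W (k + 1) a}

variable (T) in
/-- A family of increments is locally controlled at `x`. -/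
structure LC {X : Type} [TopologicalSpace X] (v : X → ℕ → V) (x : X) : Prop where
  mem : ∀ y n, v y n ∈ T.F n
  cont : ∀ n, ContinuousAt (fun y => v y n) x
  tail : ∀ (k : ℕ) (η : ℝ), 0 < η → ∃ n₀, ∀ᶠ y in 𝓝 x, ∀ M,
    ∑ a ∈ Finset.Ico n₀ M, T.q k (v y a) ≤ η

end Pool.Agent.Lib.MP_862e0f_al.EW
end

section

/-!
# The data of the triangular polynomial tower
-/

set_option autoImplicit false

namespace Pool.Agent.Lib.MP_862e0f_al.EW

/-- The data of the tower of the triangular polynomial group. -/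
noncomputable def tri : Pre Vb where
  E := Eb
  fin := fun n => inferInstance
  N := Nb
  tau := taub
  e := eb
  op := opb
  iv := ivb

end Pool.Agent.Lib.MP_862e0f_al.EW
end

section

/-!
# Sequences of polynomial maps (TASK EW CE)

`mem_F`: unfolding (`Pre.F`). `F_mem_Es`, `F_last`: `last_const` and `taub n x = 0`; for `i > n` membership in `Es n`.
`F_zero`: by `F_last`, all coordinates vanish. `F_dep`: `Es_dep`. `F_vanish`: `(v a).f x i = 0` for `a ≤ i` (`F_last`).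
`seq_f`: `Finset.sum_apply`-type computation: `(∑ ..).f x l = ∑ ((v a).f x l + t a • (eb a).f x l)` (induction on `n` with
`Finset.sum_range_succ`), and `∑ a ∈ range (n + 1), t a • (if l = a then 1 else 0) = if l ≤ n then t l else 0`
(`Finset.sum_ite_eq`). `seq_norm`: `‖∑ (v a).f x l‖ ≤ ∑ Nb k (v a) ≤ S k` (`le_Nb`; for `m ≤ n`
`Finset.sum_le_sum_of_subset_of_nonneg`). `seq_box`: the real part moves by at most
`|t l| + S k ≤ C * (l + 1) + S k ≤ (C + S k) * (l + 1)` (note `0 ≤ C` from `t_le` at `a = 0`, and `0 ≤ S k`), the imaginary part by at most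
`S k` (`t l` is real); `Complex.abs_re_le_norm`, `Complex.abs_im_le_norm`. For `l > m` there is no translation.
-/

set_option autoImplicit false

namespace Pool.Agent.Lib.MP_862e0f_al.EW

theorem mem_F {n : ℕ} {x : Vb} : x ∈ tri.F n ↔ x ∈ Eb n ∧ taub n x = 0 := Iff.rfl

theorem F_vanish {a : ℕ} {v : Vb} (hv : v ∈ tri.F a) {i : ℕ} (hi : a ≤ i) (x : ℕ → ℂ) :
    v.f x i = 0 := by
  obtain ⟨h1, h2⟩ := mem_F.1 hv
  rcases Nat.lt_or_eq_of_le hi with h3 | rfl
  · exact (mem_Eb.1 h1).2 i h3 x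
  · rw [last_const h1 x, h2, Complex.ofReal_zero]

theorem F_zero {v : Vb} (hv : v ∈ tri.F 0) : v = 0 := by
  refine Vb.ext fun x i => ?_
  rw [F_vanish hv (Nat.zero_le i) x]
  rfl

/-- the coordinate `i` of an element of `F a` depends on the `x l`, `i < l ≤ a` -/
theorem F_dep {a : ℕ} {v : Vb} (hv : v ∈ tri.F a) {i : ℕ} {x y : ℕ → ℂ}
    (h : ∀ l, i < l → l ≤ a → x l = y l) : v.f x i = v.f y i :=
  Es_dep (mem_Eb.1 (mem_F.1 hv).1) h

private theorem CE_sum (t : ℕ → ℝ) (v : ℕ → Vb) (x : ℕ → ℂ) (l m : ℕ) :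
    (∑ a ∈ Finset.range m, (v a + t a • eb a) : Vb).f x l =
      ∑ a ∈ Finset.range m, (v a).f x l + (if l < m then (t l : ℂ) else 0) := by
  induction m with
  | zero => simp
  | succ m ih =>
    rw [Finset.sum_range_succ, Finset.sum_range_succ, Vb.add_f, Pi.add_apply, Pi.add_apply, ih,
      Vb.add_f, Pi.add_apply, Pi.add_apply, Vb.smul_f, Pi.smul_apply, Pi.smul_apply, eb_f]
    by_cases h1 : l < m
    · have h2 : l < m + 1 := by omega
      have h3 : l ≠ m := by omega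
      rw [if_pos h1, if_pos h2, if_neg h3, smul_zero]
      ring
    · by_cases h2 : l = m
      · subst h2
        rw [if_neg h1, if_pos (Nat.lt_succ_self l), if_pos rfl]
        simp only [Complex.real_smul, mul_one]
        ring
      · have h3 : ¬ l < m + 1 := by omega
        rw [if_neg h1, if_neg h3, if_neg h2, smul_zero]
        ring

theorem seq_f (t : ℕ → ℝ) (v : ℕ → Vb) (n : ℕ) (x : ℕ → ℂ) (l : ℕ) :
    (tri.seq t v n).f x l = ∑ a ∈ Finset.range (n + 1), (v a).f x l +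
      (if l ≤ n then (t l : ℂ) else 0) := by
  have h := CE_sum t v x l (n + 1)
  have h1 : (if l < n + 1 then (t l : ℂ) else 0) = if l ≤ n then (t l : ℂ) else 0 := by
    by_cases h2 : l ≤ n
    · rw [if_pos h2, if_pos (by omega)]
    · rw [if_neg h2, if_neg (by omega)]
  rw [h1] at h
  exact h

theorem seq_memE {t : ℕ → ℝ} {v : ℕ → Vb} (hv : ∀ a, v a ∈ tri.F a) (n : ℕ) :
    tri.seq t v n ∈ Eb n := by
  show (∑ a ∈ Finset.range (n + 1), (v a + t a • eb a) : Vb) ∈ Eb n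
  refine (Eb n).sum_mem fun a ha => ?_
  have h1 : a ≤ n := by
    have := Finset.mem_range.1 ha
    omega
  exact Eb_mono h1 ((Eb a).add_mem (mem_F.1 (hv a)).1 ((Eb a).smul_mem _ (eb_mem a)))

theorem Ctl_C_nonneg {C : ℝ} {S : ℕ → ℝ} {L : ℕ → ℕ} {K n : ℕ} {t : ℕ → ℝ} {v : ℕ → Vb}
    (h : tri.Ctl C S L K n t v) : 0 ≤ C := by
  have h1 := h.t_le 0 (Nat.zero_le n)
  have h2 := abs_nonneg (t 0)
  simp only [Nat.cast_zero, zero_add, mul_one] at h1
  linarith

theorem Ctl_S_nonneg {C : ℝ} {S : ℕ → ℝ} {L : ℕ → ℕ} {K n : ℕ} {t : ℕ → ℝ} {v : ℕ → Vb}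
    (h : tri.Ctl C S L K n t v) {j : ℕ} (hj : j ≤ K) : 0 ≤ S j :=
  le_trans (Finset.sum_nonneg fun _ _ => apply_nonneg _ _) (h.S_le j hj)

theorem seq_norm {C : ℝ} {S : ℕ → ℝ} {L : ℕ → ℕ} {K n : ℕ} {t : ℕ → ℝ} {v : ℕ → Vb}
    (h : tri.Ctl C S L K n t v) {k m : ℕ} (hk : k ≤ K) (hm : m ≤ n) {x : ℕ → ℂ} (hx : bx k x)
    (l : ℕ) : ‖(tri.seq t v m).f x l - (if l ≤ m then (t l : ℂ) else 0)‖ ≤ S k := by
  rw [seq_f, add_sub_cancel_right]
  calc ‖∑ a ∈ Finset.range (m + 1), (v a).f x l‖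
      ≤ ∑ a ∈ Finset.range (m + 1), ‖(v a).f x l‖ := norm_sum_le _ _
    _ ≤ ∑ a ∈ Finset.range (m + 1), Nb k (v a) :=
        Finset.sum_le_sum fun a _ => le_Nb (v a) l hx
    _ ≤ ∑ a ∈ Finset.range (n + 1), Nb k (v a) :=
        Finset.sum_le_sum_of_subset_of_nonneg
          (Finset.range_mono (Nat.succ_le_succ hm)) fun _ _ _ => apply_nonneg _ _
    _ ≤ S k := h.S_le k hk

theorem seq_box {C : ℝ} {S : ℕ → ℝ} {L : ℕ → ℕ} {K n : ℕ} {t : ℕ → ℝ} {v : ℕ → Vb}
    (h : tri.Ctl C S L K n t v) {k k' m : ℕ} (hk : k ≤ K) (hm : m ≤ n)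
    (hk' : (k : ℝ) + C + S k ≤ k') {x : ℕ → ℂ} (hx : bx k x) :
    bx k' (x + (tri.seq t v m).f x) := by
  intro l
  have hC := Ctl_C_nonneg h
  have hS := Ctl_S_nonneg h hk
  have h1 := seq_norm h hk hm hx l
  set w : ℂ := (tri.seq t v m).f x l - (if l ≤ m then (t l : ℂ) else 0) with hw
  have h2 : (x + (tri.seq t v m).f x) l = x l + ((if l ≤ m then (t l : ℂ) else 0) + w) := by
    rw [hw, Pi.add_apply]
    ring
  have h3 := (Complex.abs_re_le_norm w).trans h1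
  have h4 := (Complex.abs_im_le_norm w).trans h1
  obtain ⟨h5, h6⟩ := hx l
  have hl : (0 : ℝ) ≤ l := Nat.cast_nonneg l
  have hre : |((if l ≤ m then (t l : ℂ) else 0) : ℂ).re| ≤ C * ((l : ℝ) + 1) := by
    by_cases hlm : l ≤ m
    · rw [if_pos hlm, Complex.ofReal_re]
      exact h.t_le l (hlm.trans hm)
    · rw [if_neg hlm, Complex.zero_re, abs_zero]
      positivity
  have him : ((if l ≤ m then (t l : ℂ) else 0) : ℂ).im = 0 := by
    by_cases hlm : l ≤ m
    · rw [if_pos hlm, Complex.ofReal_im]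
    · rw [if_neg hlm, Complex.zero_im]
  rw [h2]
  unfold bxc
  constructor
  · rw [Complex.add_re, Complex.add_re]
    have h7 : |(x l).re + (((if l ≤ m then (t l : ℂ) else 0) : ℂ).re + w.re)| ≤
        |(x l).re| + (|((if l ≤ m then (t l : ℂ) else 0) : ℂ).re| + |w.re|) :=
      (abs_add_le _ _).trans (add_le_add le_rfl (abs_add_le _ _))
    have h8 : S k ≤ S k * ((l : ℝ) + 1) := by nlinarith
    have h9 : ((k : ℝ) + 1 + C + S k) * ((l : ℝ) + 1) ≤ ((k' : ℝ) + 1) * ((l : ℝ) + 1) :=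
      mul_le_mul_of_nonneg_right (by linarith) (by linarith)
    nlinarith
  · rw [Complex.add_im, Complex.add_im, him, zero_add]
    have h7 : |(x l).im + w.im| ≤ |(x l).im| + |w.im| := abs_add_le _ _
    linarith

end Pool.Agent.Lib.MP_862e0f_al.EW
end

section

/-!
# The inverse maps boxes to boxes (TASK EW CB)

Choose `J : ℕ → ℕ` with `k + C + 1 ≤ J 0`, `k ≤ J 0`, `J i ≤ J (i + 1)`, `k + C + S (J i) ≤ J (i + 1)` (recursion with `Nat.ceil` and `max`); put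
`L₀ = L (J 0)`, `κ = J L₀`. Let `Z = tri.seq t v m`, `z = x + (ivb Z).f x`, so `(ivb Z).f x = -Z.f z` (`ivb_eq`), i.e.
`z l = x l - ∑ a ∈ range (m + 1), (v a).f z l - (if l ≤ m then t l else 0)` (`seq_f`).
Claim: `bxc (J (L₀ - l)) l (z l)` for all `l` (natural subtraction), by downward induction: for `l > m` we have `(v a).f z l = 0` for all
`a ≤ m` (`F_vanish`), so `z l = x l` and `k ≤ J 0 ≤ J (L₀ - l)`. (Formally: induction on `d`, for all `l` with `m + 1 ≤ l + d`.) Let `l ≤ m` and assume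
the claim for all `l' > l`. Put `z' l' = z l'` for `l' > l`, `0` otherwise; then `(v a).f z l = (v a).f z' l` (`F_dep`), and `bx (J (L₀ - (l + 1))) z'`
(`J` is monotone, `L₀ - l' ≤ L₀ - (l + 1)`).
* `L₀ ≤ l`: `∑ a ∈ range (m + 1), ‖(v a).f z' l‖ ≤ ∑ a ∈ Ico L₀ (m + 1), Nb (J 0) (v a) ≤ 1`, because the terms with `a ≤ l` vanish
  (`F_vanish`) and `L₀ = L (J 0)`, `J 0 ≤ κ` (`L_le`; `Ico L₀ (m+1) ⊆ Ico L₀ (n+1)`); so `z l` is `x l` moved by a real number of size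
  `≤ C * (l + 1)` and a complex number of norm `≤ 1`: level `J 0 ≥ k + C + 1`.
* `l < L₀`: the sum is `≤ S (J (L₀ - (l + 1)))` (`S_le`, level `≤ κ`), and `L₀ - l = (L₀ - (l + 1)) + 1`.
So `bx κ z`. The second statement: `(ivb Z).f x l + (if ..) = -∑ a ∈ range (m + 1), (v a).f z l`, of norm `≤ S κ` (`le_Nb`, `S_le`).
(`0 ≤ C`, `0 ≤ S j`: `Ctl_C_nonneg`, `Ctl_S_nonneg`.)
-/

set_option autoImplicit false

namespace Pool.Agent.Lib.MP_862e0f_al.EW

/-- the levels -/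
private noncomputable def CB_J (k : ℕ) (C : ℝ) (S : ℕ → ℝ) : ℕ → ℕ
  | 0 => max k ⌈(k : ℝ) + C + 1⌉₊
  | i + 1 => max (CB_J k C S i) ⌈(k : ℝ) + C + S (CB_J k C S i)⌉₊

private theorem CB_move {k j l : ℕ} {C σ τ : ℝ} {z s : ℂ} (hz : bxc k l z) (hs : ‖s‖ ≤ σ)
    (hC : 0 ≤ C) (hτ : |τ| ≤ C * ((l : ℝ) + 1)) (hj : (k : ℝ) + C + σ ≤ j) :
    bxc j l (z - s - (τ : ℂ)) := by
  obtain ⟨h1, h2⟩ := hz
  have h3 := (Complex.abs_re_le_norm s).trans hs
  have h4 := (Complex.abs_im_le_norm s).trans hs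
  have hσ : 0 ≤ σ := (norm_nonneg _).trans hs
  have hl : (0 : ℝ) ≤ l := Nat.cast_nonneg l
  constructor
  · rw [Complex.sub_re, Complex.sub_re, Complex.ofReal_re]
    have h5 : |z.re - s.re - τ| ≤ |z.re| + |s.re| + |τ| := by
      refine (abs_sub _ _).trans ?_
      gcongr
      exact abs_sub _ _
    have h6 : (σ : ℝ) ≤ σ * ((l : ℝ) + 1) := by nlinarith
    have h7 : ((k : ℝ) + C + σ) * ((l : ℝ) + 1) ≤ j * ((l : ℝ) + 1) :=
      mul_le_mul_of_nonneg_right hj (by linarith)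
    nlinarith
  · rw [Complex.sub_im, Complex.sub_im, Complex.ofReal_im, sub_zero]
    have h5 : |z.im - s.im| ≤ |z.im| + |s.im| := abs_sub _ _
    linarith

theorem inv_box (k : ℕ) (C : ℝ) (S : ℕ → ℝ) (L : ℕ → ℕ) : ∃ κ : ℕ, k ≤ κ ∧
    ∀ (t : ℕ → ℝ) (v : ℕ → Vb) (n m : ℕ), m ≤ n → tri.Ctl C S L κ n t v →
      ∀ x : ℕ → ℂ, bx k x → bx κ (x + (ivb (tri.seq t v m)).f x) ∧
        ∀ l, ‖(ivb (tri.seq t v m)).f x l + (if l ≤ m then (t l : ℂ) else 0)‖ ≤ S κ := by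
  set J := CB_J k C S with hJdef
  have hJ0 : k ≤ J 0 := le_max_left _ _
  have hJ0' : (k : ℝ) + C + 1 ≤ J 0 := by
    refine (Nat.le_ceil _).trans ?_
    exact_mod_cast le_max_right k ⌈(k : ℝ) + C + 1⌉₊
  have hJs : ∀ i, J i ≤ J (i + 1) := fun i => le_max_left _ _
  have hJs' : ∀ i, (k : ℝ) + C + S (J i) ≤ J (i + 1) := fun i => by
    refine (Nat.le_ceil _).trans ?_
    exact_mod_cast le_max_right (J i) ⌈(k : ℝ) + C + S (J i)⌉₊
  have hJm : Monotone J := monotone_nat_of_le_succ hJs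
  set L₀ := L (J 0) with hL₀
  refine ⟨J L₀, hJ0.trans (hJm (Nat.zero_le _)), ?_⟩
  intro t v n m hmn h x hx
  have hC := Ctl_C_nonneg h
  set Z := tri.seq t v m with hZ
  set z := x + (ivb Z).f x with hzdef
  have hz : ∀ l, (ivb Z).f x l = -(∑ a ∈ Finset.range (m + 1), (v a).f z l +
      (if l ≤ m then (t l : ℂ) else 0)) := by
    intro l
    rw [ivb_eq, ← hzdef, Pi.neg_apply, hZ, seq_f]
  have hzl : ∀ l, z l = x l - ∑ a ∈ Finset.range (m + 1), (v a).f z l -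
      (if l ≤ m then (t l : ℂ) else 0) := by
    intro l
    have : z l = x l + (ivb Z).f x l := rfl
    rw [this, hz l]
    ring
  have hSle : ∀ j, j ≤ J L₀ → ∑ a ∈ Finset.range (m + 1), Nb j (v a) ≤ S j := by
    intro j hj
    refine le_trans ?_ (h.S_le j hj)
    refine Finset.sum_le_sum_of_subset_of_nonneg ?_ fun a _ _ => apply_nonneg _ _
    intro a ha
    rw [Finset.mem_range] at ha ⊢
    omega
  have claim : ∀ d l, m + 1 ≤ l + d → bxc (J (L₀ - l)) l (z l) := by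
    intro d
    induction d with
    | zero =>
      intro l hl
      have h1 : z l = x l := by
        rw [hzl l, if_neg (by omega), sub_zero, Finset.sum_eq_zero, sub_zero]
        intro a ha
        rw [Finset.mem_range] at ha
        exact F_vanish (h.mem a) (by omega) z
      rw [h1]
      exact bxc_mono (hJ0.trans (hJm (Nat.zero_le _))) (hx l)
    | succ d ih =>
      intro l hl
      rcases Nat.lt_or_ge m (l + d) with h1 | h1
      · exact ih l h1
      · have hlm : l ≤ m := by omega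
        have ih' : ∀ l', l < l' → bxc (J (L₀ - l')) l' (z l') := fun l' hl' => ih l' (by omega)
        set z' : ℕ → ℂ := fun l' => if l < l' then z l' else 0 with hz'
        have hdep : ∀ a, (v a).f z l = (v a).f z' l := fun a =>
          F_dep (h.mem a) fun l' h2 _ => by rw [hz']; simp only; rw [if_pos h2]
        have hb : bx (J (L₀ - (l + 1))) z' := by
          intro l'
          by_cases h2 : l < l'
          · have h3 : z' l' = z l' := if_pos h2
            rw [h3]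
            exact bxc_mono (hJm (by omega)) (ih' l' h2)
          · have h3 : z' l' = 0 := if_neg h2
            rw [h3]
            exact bxc_zero _ _
        have ht := h.t_le l (hlm.trans hmn)
        rw [hzl l, if_pos hlm]
        rcases Nat.lt_or_ge l L₀ with h2 | h2
        · have h3 : L₀ - l = (L₀ - (l + 1)) + 1 := by omega
          rw [h3]
          refine CB_move (hx l) (σ := S (J (L₀ - (l + 1)))) ?_ hC ht (hJs' _)
          refine (norm_sum_le _ _).trans (le_trans (Finset.sum_le_sum fun a _ => ?_)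
            (hSle (J (L₀ - (l + 1))) (hJm (Nat.sub_le _ _))))
          rw [hdep a]
          exact le_Nb _ _ hb
        · have h3 : L₀ - l = 0 := by omega
          have h4 : L₀ - (l + 1) = 0 := by omega
          rw [h3]
          rw [h4] at hb
          refine CB_move (hx l) (σ := 1) ?_ hC ht hJ0'
          refine (norm_sum_le _ _).trans (le_trans ?_ (h.L_le (J 0) (hJm (Nat.zero_le _))))
          have h5 : ∑ a ∈ Finset.range (m + 1), ‖(v a).f z l‖ =
              ∑ a ∈ Finset.Ico L₀ (m + 1), ‖(v a).f z l‖ := by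
            symm
            refine Finset.sum_subset (fun a ha => ?_) fun a ha ha' => ?_
            · rw [Finset.mem_Ico] at ha
              rw [Finset.mem_range]
              exact ha.2
            · rw [Finset.mem_range] at ha
              rw [Finset.mem_Ico, not_and_or] at ha'
              rw [F_vanish (h.mem a) (by omega) z, norm_zero]
          rw [h5]
          refine le_trans (Finset.sum_le_sum fun a _ => ?_)
            (Finset.sum_le_sum_of_subset_of_nonneg (s := Finset.Ico L₀ (m + 1)) ?_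
              fun a _ _ => apply_nonneg (Nb (J 0)) (v a))
          · rw [hdep a]
            exact le_Nb _ _ hb
          · intro a ha
            rw [Finset.mem_Ico] at ha ⊢
            omega
  have hbz : bx (J L₀) z := fun l => bxc_mono (hJm (Nat.sub_le _ _)) (claim (m + 1) l (by omega))
  refine ⟨hbz, fun l => ?_⟩
  have h1 : (ivb Z).f x l + (if l ≤ m then (t l : ℂ) else 0) =
      -∑ a ∈ Finset.range (m + 1), (v a).f z l := by
    rw [hz l]
    ring
  rw [h1, norm_neg]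
  refine (norm_sum_le _ _).trans (le_trans (Finset.sum_le_sum fun a _ => ?_) (hSle _ le_rfl))
  exact le_Nb _ _ hbz

theorem Ctl_level {C : ℝ} {S : ℕ → ℝ} {L : ℕ → ℕ} {K K' n : ℕ} {t : ℕ → ℝ} {v : ℕ → Vb}
    (hK : K' ≤ K) (h : tri.Ctl C S L K n t v) : tri.Ctl C S L K' n t v where
  mem := h.mem
  t_le := h.t_le
  S_le := fun j hj => h.S_le j (hj.trans hK)
  L_le := fun j hj => h.L_le j (hj.trans hK)

end Pool.Agent.Lib.MP_862e0f_al.EW
end

section

/-!
# The estimate for the inverse (TASK EW CI)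

Write `Z n = tri.seq t v n`, `Z' n = ivb (Z n)`.
`viv_f`: for `n = m + 1`: `tri.viv .. n = Z' n - Z' m - τ • e n`, `τ = taub n (Z' n)`; `τ = -t n` because
`taub n (opb (Z' n) (Z n)) = 0` (`taub_op`, `ivb_opb`) and `taub n (Z n) = t n`. For `i ≥ n` both sides vanish (`F_vanish`, `Es`: `(Z' m).f · i = 0`; the left
side is in `F n` or compute). For `i < n`: `(Z' n).f (x + (Z n).f x) i = -(Z n).f x i` and `(Z' m).f (x + (Z m).f x) i = -(Z m).f x i`
(`ivb_eq'`), `(Z n).f x i - (Z m).f x i = (v n).f x i`; and `(Z' m).f (x + (Z n).f x) i = (Z' m).f (x + (Z m).f x + (v n).f x) i` because both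
arguments agree in the coordinates `l ≤ m` (`Es_trunc`, `seq_f`).
`tri_iv_est`: let `κ₁` be given by `inv_box k`, `κ₂` a natural number with `κ₁ + C + S κ₁ ≤ κ₂`, `κ₁ ≤ κ₂`, `κ₃` given by `inv_box (κ₂ + 1)`,
`K = max κ₁ κ₃`(`≥` all the levels; `κ₂ + 1 ≤ κ₃`), `B = 1 + 2 * |S κ₃|`. Let `L K ≤ n`. `n = 0`: `tri.viv .. 0 ∈ F 0` is `0`. Let
`n = m + 1`; `ρ = Nb κ₁ (v n) ≤ Nb K (v n) ≤ 1` (`L_le`). For `z` in the box of level `k` put `x = z + (Z' n).f z`, in the box of level `κ₁`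
(`inv_box`), and `z = x + (Z n).f x` (`ivb_eq`: `(Z' n).f z = -(Z n).f x`). By `viv_f`,
`‖(tri.viv .. n).f z i‖ ≤ ‖(v n).f x i‖ + ‖(Z' m).f (y + w) i - (Z' m).f y i‖` with `y = x + (Z m).f x` in the box of level `κ₂` (`seq_box`),
`w = (v n).f x`, `‖w l‖ ≤ ρ`; `schwarz` with `G = (Z' m).f`, `c = if i ≤ m then t i else 0`, `M = S κ₃` (second part of `inv_box (κ₂ + 1)`) gives
`≤ ρ + 2 * S κ₃ * ρ`. (`Ctl_level` to pass to smaller levels.)
-/

set_option autoImplicit false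

namespace Pool.Agent.Lib.MP_862e0f_al.EW

private theorem CI_tau_seq {t : ℕ → ℝ} {v : ℕ → Vb} (hv : ∀ a, v a ∈ tri.F a) (n : ℕ) :
    taub n (tri.seq t v n) = t n := by
  rw [taub_apply, seq_f, if_pos le_rfl, Finset.sum_eq_zero (fun a ha => F_vanish (hv a)
    (Nat.lt_succ_iff.1 (Finset.mem_range.1 ha)) 0), zero_add, Complex.ofReal_re]

private theorem CI_tau_inv {t : ℕ → ℝ} {v : ℕ → Vb} (hv : ∀ a, v a ∈ tri.F a) (n : ℕ) :
    taub n (ivb (tri.seq t v n)) = -t n := by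
  have h1 := seq_memE (t := t) hv n
  have h2 := taub_op (ivb_mem h1) h1
  rw [ivb_opb, map_zero, CI_tau_seq hv] at h2
  linarith

theorem viv_f {t : ℕ → ℝ} {v : ℕ → Vb} (hv : ∀ a, v a ∈ tri.F a) (m : ℕ) (x : ℕ → ℂ) (i : ℕ) :
    (tri.viv t v (m + 1)).f (x + (tri.seq t v (m + 1)).f x) i = -(v (m + 1)).f x i -
      ((ivb (tri.seq t v m)).f (x + (tri.seq t v m).f x + (v (m + 1)).f x) i -
        (ivb (tri.seq t v m)).f (x + (tri.seq t v m).f x) i) := by
  have e1 : tri.viv t v (m + 1) = ivb (tri.seq t v (m + 1)) - ivb (tri.seq t v m) -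
      taub (m + 1) (ivb (tri.seq t v (m + 1))) • eb (m + 1) := rfl
  have e2 := congrFun (ivb_eq' (tri.seq t v (m + 1)) x) i
  have e3 := congrFun (ivb_eq' (tri.seq t v m) x) i
  have e4 : (ivb (tri.seq t v m)).f (x + (tri.seq t v (m + 1)).f x) i =
      (ivb (tri.seq t v m)).f (x + (tri.seq t v m).f x + (v (m + 1)).f x) i := by
    refine Es_trunc (mem_Eb.1 (ivb_mem (seq_memE hv m))) fun l hl => ?_
    rw [Pi.add_apply, Pi.add_apply, Pi.add_apply, seq_f, seq_f, if_pos hl,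
      if_pos (hl.trans (Nat.le_succ m)), Finset.sum_range_succ _ (m + 1)]
    ring
  have e5 : (tri.seq t v (m + 1)).f x i = (v (m + 1)).f x i + (tri.seq t v m).f x i +
      (t (m + 1) : ℂ) * (if i = m + 1 then 1 else 0) := by
    rw [seq_f, seq_f, Finset.sum_range_succ _ (m + 1)]
    rcases lt_trichotomy i (m + 1) with h | h | h
    · rw [if_pos h.le, if_pos (Nat.lt_succ_iff.1 h), if_neg h.ne]
      ring
    · subst h
      rw [if_pos le_rfl, if_neg (by omega), if_pos rfl]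
      ring
    · rw [if_neg (by omega), if_neg (by omega), if_neg (by omega)]
      ring
  rw [e1, CI_tau_inv hv]
  simp only [Vb.sub_f, Vb.smul_f, Pi.sub_apply, Pi.smul_apply, eb_f]
  rw [e2, e3, e4, Pi.neg_apply, Pi.neg_apply, e5]
  rw [Complex.real_smul]
  push_cast
  ring

theorem tri_iv_est (k : ℕ) (C : ℝ) (S : ℕ → ℝ) (L : ℕ → ℕ) : ∃ (K : ℕ) (B : ℝ), 0 ≤ B ∧
    ∀ (t : ℕ → ℝ) (v : ℕ → Vb) (n : ℕ), tri.Ctl C S L K n t v → L K ≤ n →
        Nb k (tri.viv t v n) ≤ B * Nb K (v n) := by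
  obtain ⟨κ₁, hk1, h1⟩ := inv_box k C S L
  obtain ⟨κ₂, hk2, hk2'⟩ : ∃ κ₂ : ℕ, κ₁ ≤ κ₂ ∧ (κ₁ : ℝ) + C + S κ₁ ≤ κ₂ :=
    ⟨max κ₁ ⌈(κ₁ : ℝ) + C + S κ₁⌉₊, le_max_left _ _, (Nat.le_ceil _).trans
      (by exact_mod_cast le_max_right κ₁ ⌈(κ₁ : ℝ) + C + S κ₁⌉₊)⟩
  obtain ⟨κ₃, hk3, h3⟩ := inv_box (κ₂ + 1) C S L
  refine ⟨max κ₁ κ₃, 1 + 2 * |S κ₃|, by positivity, fun t v n hc hL => ?_⟩
  have hv := hc.mem
  have hNb : ∀ (j : ℕ) (F : Vb), 0 ≤ Nb j F := fun j F => apply_nonneg _ _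
  rcases n with _ | m
  · have h0 : tri.viv t v 0 ∈ tri.F 0 := by
      have e0 : tri.viv t v 0 = ivb (tri.seq t v 0) - taub 0 (ivb (tri.seq t v 0)) • eb 0 := rfl
      rw [e0, mem_F]
      refine ⟨(Eb 0).sub_mem (ivb_mem (seq_memE hv 0)) ((Eb 0).smul_mem _ (eb_mem 0)), ?_⟩
      rw [map_sub, map_smul, taub_eb, smul_eq_mul, mul_one, sub_self]
    rw [F_zero h0, map_zero]
    exact mul_nonneg (by positivity) (hNb _ _)
  · have hρK : Nb κ₁ (v (m + 1)) ≤ Nb (max κ₁ κ₃) (v (m + 1)) := Nb_mono' (le_max_left _ _) _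
    have hρ1 : Nb κ₁ (v (m + 1)) ≤ 1 := by
      refine hρK.trans (le_trans ?_ (hc.L_le _ le_rfl))
      exact Finset.single_le_sum (f := fun a => Nb (max κ₁ κ₃) (v a)) (fun a _ => hNb _ _)
        (Finset.mem_Ico.2 ⟨hL, Nat.lt_succ_self _⟩)
    refine Nb_le fun i z hz => ?_
    obtain ⟨x, hx⟩ : ∃ x, x = z + (ivb (tri.seq t v (m + 1))).f z := ⟨_, rfl⟩
    have hbx : bx κ₁ x := by
      rw [hx]
      exact (h1 t v (m + 1) (m + 1) le_rfl (Ctl_level (le_max_left _ _) hc) z hz).1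
    have hzx : z = x + (tri.seq t v (m + 1)).f x := by
      have e := ivb_eq (tri.seq t v (m + 1)) z
      rw [← hx] at e
      rw [← sub_eq_iff_eq_add, sub_eq_add_neg, ← e, ← hx]
    rw [hzx, viv_f hv m x i]
    have hw : ∀ l, ‖(v (m + 1)).f x l‖ ≤ Nb κ₁ (v (m + 1)) := fun l => le_Nb _ l hbx
    have hy : bx κ₂ (x + (tri.seq t v m).f x) :=
      seq_box hc (le_max_left _ _) (Nat.le_succ m) hk2' hbx
    have hs := schwarz (mem_Eb.1 (ivb_mem (seq_memE (t := t) hv m))) i κ₂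
      (if i ≤ m then (t i : ℂ) else 0) (S κ₃) (Nb κ₁ (v (m + 1)))
      (fun u hu => (h3 t v (m + 1) m (Nat.le_succ m) (Ctl_level (le_max_right _ _) hc) u hu).2 i)
      (hNb _ _) hρ1 hy hw
    have h4 : ‖-(v (m + 1)).f x i - ((ivb (tri.seq t v m)).f
        (x + (tri.seq t v m).f x + (v (m + 1)).f x) i -
        (ivb (tri.seq t v m)).f (x + (tri.seq t v m).f x) i)‖ ≤
        Nb κ₁ (v (m + 1)) + 2 * S κ₃ * Nb κ₁ (v (m + 1)) := by
      refine (norm_sub_le _ _).trans (add_le_add ?_ hs)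
      rw [norm_neg]
      exact hw i
    refine h4.trans ?_
    have h5 : S κ₃ ≤ |S κ₃| := le_abs_self _
    have h6 := hNb κ₁ (v (m + 1))
    have h7 : 0 ≤ |S κ₃| := abs_nonneg _
    calc Nb κ₁ (v (m + 1)) + 2 * S κ₃ * Nb κ₁ (v (m + 1))
        ≤ (1 + 2 * |S κ₃|) * Nb κ₁ (v (m + 1)) := by nlinarith
      _ ≤ (1 + 2 * |S κ₃|) * Nb (max κ₁ κ₃) (v (m + 1)) :=
        mul_le_mul_of_nonneg_left hρK (by positivity)

end Pool.Agent.Lib.MP_862e0f_al.EW
end

section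

/-!
# The estimate for the product (TASK EW CM)

Write `Z n = tri.seq t v n`, `Z' n = tri.seq t' v' n`.
`vop_f`: for `n = m + 1`, `x` arbitrary, `y = x + (Z' m).f x`: `tri.vop .. n = Z'' n - Z'' m - τ • e n` with
`Z'' n = opb (Z n) (Z' n)`, `(Z'' n).f x = (Z' n).f x + (Z n).f (x + (Z' n).f x)` (`opb_f`) and `τ = taub n (Z'' n) = t n + t' n` (`taub_op`,
`taub n (Z n) = t n`). For `i ≥ n` both sides vanish (`F_vanish`; the left side is in `F n`, or compute). For `i < n` (so `(e n) i = 0`):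
`(Z' n).f x i - (Z' m).f x i = (v' n).f x i`; and
`(Z n).f (x + (Z' n).f x) i = (Z m).f (x + (Z' n).f x) i + (v n).f (x + (Z' n).f x) i`, and
`(Z m).f u i - (Z m).f y i = ∑ a ∈ range (m + 1), ((v a).f u i - (v a).f y i)` with `u = x + (Z' n).f x` (`seq_f`, the constants cancel); the
coordinates `l ≤ m` of `u` are those of `y + (v' n).f x` (`seq_f`), so `(v a).f u i = (v a).f (y + (v' n).f x) i` for `a ≤ m` (`F_dep`).
`tri_op_est`: let `k, C, S, L` be given, `k₁` a natural number with `k + C + S k ≤ k₁`, `k ≤ k₁`, `K = k₁ + 1`, `B = 1 + 2 * |S K|`. Let `n` with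
`L K ≤ n`. If `n = 0`: `tri.vop .. 0 ∈ F 0`, so it is `0` (or directly). Let `n = m + 1`. `ρ = Nb k (v' n) ≤ Nb K (v' n) ≤ 1` by
`L_le` (`Finset.single_le_sum`, `n ∈ Ico (L K) (n + 1)`). For `x` in the box of level `k` and all `i` (`Nb_le`): by `vop_f` the norm of the
value is `≤ Nb k (v' n) + Nb k₁ (v n) + ∑ a ∈ range (m + 1), 2 * Nb (k₁ + 1) (v a) * ρ`: `x + (Z' n).f x` and `y` are in the box of level `k₁`
(`seq_box`), and `schwarz` with `c = 0`, `M = Nb (k₁ + 1) (v a)`, `w = (v' n).f x`. The last sum is `≤ 2 * S K * ρ` (`S_le`).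
-/

set_option autoImplicit false

namespace Pool.Agent.Lib.MP_862e0f_al.EW

private theorem CM_seq_succ {t : ℕ → ℝ} {v : ℕ → Vb} (m : ℕ) (u : ℕ → ℂ) {i : ℕ} (hi : i ≤ m) :
    (tri.seq t v (m + 1)).f u i = (tri.seq t v m).f u i + (v (m + 1)).f u i := by
  rw [seq_f, seq_f, Finset.sum_range_succ, if_pos hi, if_pos (Nat.le_succ_of_le hi)]
  ring

private theorem CM_taub {t : ℕ → ℝ} {v : ℕ → Vb} (hv : ∀ a, v a ∈ tri.F a) (n : ℕ) :
    taub n (tri.seq t v n) = t n := by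
  rw [taub_apply, seq_f, if_pos le_rfl, Finset.sum_eq_zero, zero_add, Complex.ofReal_re]
  intro a ha
  rw [Finset.mem_range] at ha
  exact F_vanish (hv a) (by omega) 0

private theorem CM_zero {t : ℕ → ℝ} {v : ℕ → Vb} (hv : ∀ a, v a ∈ tri.F a) (m : ℕ) (u : ℕ → ℂ) {i : ℕ}
    (hi : m < i) : (tri.seq t v m).f u i = 0 := by
  rw [seq_f, if_neg (by omega), Finset.sum_eq_zero, zero_add]
  intro a ha
  rw [Finset.mem_range] at ha
  exact F_vanish (hv a) (by omega) u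

private theorem CM_top {t : ℕ → ℝ} {v : ℕ → Vb} (hv : ∀ a, v a ∈ tri.F a) (m : ℕ) (u : ℕ → ℂ) :
    (tri.seq t v m).f u m = (t m : ℂ) := by
  rw [seq_f, if_pos le_rfl, Finset.sum_eq_zero, zero_add]
  intro a ha
  rw [Finset.mem_range] at ha
  exact F_vanish (hv a) (by omega) u

theorem vop_f {t t' : ℕ → ℝ} {v v' : ℕ → Vb} (hv : ∀ a, v a ∈ tri.F a) (hv' : ∀ a, v' a ∈ tri.F a)
    (m : ℕ) (x : ℕ → ℂ) (i : ℕ) :
    (tri.vop t v t' v' (m + 1)).f x i = (v' (m + 1)).f x i +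
      (v (m + 1)).f (x + (tri.seq t' v' (m + 1)).f x) i +
      ∑ a ∈ Finset.range (m + 1), ((v a).f (x + (tri.seq t' v' m).f x + (v' (m + 1)).f x) i -
        (v a).f (x + (tri.seq t' v' m).f x) i) := by
  have h0 : tri.vop t v t' v' (m + 1) = opb (tri.seq t v (m + 1)) (tri.seq t' v' (m + 1)) -
      opb (tri.seq t v m) (tri.seq t' v' m) -
      taub (m + 1) (opb (tri.seq t v (m + 1)) (tri.seq t' v' (m + 1))) • eb (m + 1) := rfl
  have h1 : (tri.vop t v t' v' (m + 1)).f x i =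
      ((tri.seq t' v' (m + 1)).f x i + (tri.seq t v (m + 1)).f (x + (tri.seq t' v' (m + 1)).f x) i) -
      ((tri.seq t' v' m).f x i + (tri.seq t v m).f (x + (tri.seq t' v' m).f x) i) -
      (((t (m + 1) + t' (m + 1) : ℝ) : ℂ) * (if i = m + 1 then 1 else 0)) := by
    rw [h0, taub_op (seq_memE hv _) (seq_memE hv' _), CM_taub hv, CM_taub hv', Vb.sub_f, Vb.sub_f,
      Vb.smul_f]
    simp only [Pi.sub_apply, Pi.add_apply, Pi.smul_apply, opb_f, eb_f, Complex.real_smul]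
  rw [h1]
  rcases Nat.lt_or_ge m i with hi | hi
  · have hs : ∑ a ∈ Finset.range (m + 1), ((v a).f (x + (tri.seq t' v' m).f x + (v' (m + 1)).f x) i -
        (v a).f (x + (tri.seq t' v' m).f x) i) = 0 := by
      refine Finset.sum_eq_zero fun a ha => ?_
      rw [Finset.mem_range] at ha
      rw [F_vanish (hv a) (by omega), F_vanish (hv a) (by omega), sub_zero]
    rw [hs, F_vanish (hv' _) (by omega : m + 1 ≤ i), F_vanish (hv _) (by omega : m + 1 ≤ i),
      CM_zero hv' m x hi, CM_zero hv m _ hi]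
    rcases Nat.eq_or_lt_of_le (Nat.succ_le_of_lt hi) with h2 | h2
    · have h3 : i = m + 1 := h2.symm
      subst h3
      rw [CM_top hv', CM_top hv, if_pos rfl]
      push_cast
      ring
    · rw [CM_zero hv' (m + 1) x h2, CM_zero hv (m + 1) _ h2, if_neg (by omega)]
      ring
  · have hdep : ∀ a ∈ Finset.range (m + 1),
        (v a).f (x + (tri.seq t' v' m).f x + (v' (m + 1)).f x) i =
          (v a).f (x + (tri.seq t' v' (m + 1)).f x) i := by
      intro a ha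
      rw [Finset.mem_range] at ha
      refine F_dep (hv a) fun l _ hl => ?_
      rw [Pi.add_apply, Pi.add_apply, Pi.add_apply, CM_seq_succ m x (by omega : l ≤ m)]
      ring
    rw [if_neg (by omega), CM_seq_succ m x hi, CM_seq_succ m _ hi, Finset.sum_sub_distrib,
      Finset.sum_congr rfl hdep]
    have h2 := seq_f t v m (x + (tri.seq t' v' (m + 1)).f x) i
    have h3 := seq_f t v m (x + (tri.seq t' v' m).f x) i
    rw [h2, h3]
    ring

theorem tri_op_est (k : ℕ) (C : ℝ) (S : ℕ → ℝ) (L : ℕ → ℕ) : ∃ (K : ℕ) (B : ℝ), 0 ≤ B ∧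
    ∀ (t : ℕ → ℝ) (v : ℕ → Vb) (t' : ℕ → ℝ) (v' : ℕ → Vb) (n : ℕ),
      tri.Ctl C S L K n t v → tri.Ctl C S L K n t' v' → L K ≤ n →
        Nb k (tri.vop t v t' v' n) ≤ B * (Nb K (v n) + Nb K (v' n)) := by
  set k₁ : ℕ := max k ⌈(k : ℝ) + C + S k⌉₊ with hk₁
  have hk : k ≤ k₁ := le_max_left _ _
  have hk' : (k : ℝ) + C + S k ≤ k₁ := by
    refine (Nat.le_ceil _).trans ?_
    exact_mod_cast le_max_right k ⌈(k : ℝ) + C + S k⌉₊
  refine ⟨k₁ + 1, 1 + 2 * |S (k₁ + 1)|, by positivity, ?_⟩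
  intro t v t' v' n h h' hn
  have hnn : ∀ j (w : Vb), 0 ≤ Nb j w := fun j w => apply_nonneg _ _
  rcases n with _ | m
  · have h0 : tri.vop t v t' v' 0 = 0 := by
      have h1 : tri.vop t v t' v' 0 = opb (tri.seq t v 0) (tri.seq t' v' 0) -
        taub 0 (opb (tri.seq t v 0) (tri.seq t' v' 0)) • eb 0 := rfl
      rw [h1, taub_op (seq_memE h.mem _) (seq_memE h'.mem _), CM_taub h.mem, CM_taub h'.mem]
      refine Vb.ext fun x i => ?_
      rw [Vb.sub_f, Vb.smul_f]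
      simp only [Pi.sub_apply, Pi.add_apply, Pi.smul_apply, opb_f, eb_f, Complex.real_smul, Vb.zero_f,
        Pi.zero_apply]
      rcases Nat.eq_zero_or_pos i with rfl | hi
      · rw [CM_top h'.mem, CM_top h.mem, if_pos rfl]
        push_cast
        ring
      · rw [CM_zero h'.mem 0 x hi, CM_zero h.mem 0 _ hi, if_neg (by omega)]
        ring
    rw [h0, map_zero]
    have := hnn (k₁ + 1) (v 0)
    have := hnn (k₁ + 1) (v' 0)
    positivity
  · have hρ1 : Nb (k₁ + 1) (v' (m + 1)) ≤ 1 := by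
      refine le_trans ?_ (h'.L_le (k₁ + 1) le_rfl)
      refine Finset.single_le_sum (f := fun a => tri.N (k₁ + 1) (v' a)) (fun a _ => hnn _ _) ?_
      rw [Finset.mem_Ico]
      omega
    have hρ : Nb k (v' (m + 1)) ≤ Nb (k₁ + 1) (v' (m + 1)) := Nb_mono' (by omega) _
    have hSK : ∑ a ∈ Finset.range (m + 1), Nb (k₁ + 1) (v a) ≤ |S (k₁ + 1)| := by
      refine le_trans ?_ ((h.S_le (k₁ + 1) le_rfl).trans (le_abs_self _))
      refine Finset.sum_le_sum_of_subset_of_nonneg ?_ fun a _ _ => hnn _ _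
      intro a ha
      rw [Finset.mem_range] at ha ⊢
      omega
    refine Nb_le fun i x hx => ?_
    rw [vop_f h.mem h'.mem]
    have hu : bx k₁ (x + (tri.seq t' v' (m + 1)).f x) :=
      seq_box h' (by omega) le_rfl hk' hx
    have hy : bx k₁ (x + (tri.seq t' v' m).f x) :=
      seq_box h' (by omega) (Nat.le_succ m) hk' hx
    have h1 : ‖(v' (m + 1)).f x i‖ ≤ Nb (k₁ + 1) (v' (m + 1)) := (le_Nb _ i hx).trans hρ
    have h2 : ‖(v (m + 1)).f (x + (tri.seq t' v' (m + 1)).f x) i‖ ≤ Nb (k₁ + 1) (v (m + 1)) :=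
      (le_Nb _ i hu).trans (Nb_mono' (by omega) _)
    have h3 : ‖∑ a ∈ Finset.range (m + 1), ((v a).f (x + (tri.seq t' v' m).f x + (v' (m + 1)).f x) i -
        (v a).f (x + (tri.seq t' v' m).f x) i)‖ ≤ 2 * |S (k₁ + 1)| * Nb (k₁ + 1) (v' (m + 1)) := by
      refine (norm_sum_le _ _).trans ?_
      have h4 : ∀ a ∈ Finset.range (m + 1),
          ‖(v a).f (x + (tri.seq t' v' m).f x + (v' (m + 1)).f x) i -
            (v a).f (x + (tri.seq t' v' m).f x) i‖ ≤
              2 * Nb (k₁ + 1) (v a) * Nb (k₁ + 1) (v' (m + 1)) := by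
        intro a _
        have h5 : (v a).f ∈ Es a := mem_Eb.1 (mem_F.1 (h.mem a)).1
        refine schwarz h5 i k₁ 0 _ _ (fun x' hx' => ?_) (hnn _ _) hρ1 hy fun l => ?_
        · rw [add_zero]
          exact le_Nb _ i hx'
        · exact (le_Nb _ l hx).trans hρ
      refine (Finset.sum_le_sum h4).trans ?_
      rw [← Finset.sum_mul, ← Finset.mul_sum]
      exact mul_le_mul_of_nonneg_right (mul_le_mul_of_nonneg_left hSK (by norm_num)) (hnn _ _)
    refine (norm_add_le _ _).trans ?_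
    refine (add_le_add (norm_add_le _ _) le_rfl).trans ?_
    have h6 := hnn (k₁ + 1) (v (m + 1))
    have h7 := abs_nonneg (S (k₁ + 1))
    nlinarith [mul_nonneg h7 h6]

end Pool.Agent.Lib.MP_862e0f_al.EW
end

section

/-!
# Smoothness of maps into `Eb n` can be checked pointwise
-/

set_option autoImplicit false

namespace Pool.Agent.Lib.MP_862e0f_al.EW

open scoped ContDiff

/-- evaluation functionals on `Eb n` -/
private noncomputable def CW_ev (n : ℕ) (q : (ℕ → ℂ) × ℕ × (ℂ →L[ℝ] ℝ)) :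
    Module.Dual ℝ (Eb n) where
  toFun F := q.2.2 ((F : Vb).f q.1 q.2.1)
  map_add' F G := by simp
  map_smul' c F := by
    simp only [Submodule.coe_smul, Vb.smul_f, Pi.smul_apply, map_smul, RingHom.id_apply]

private theorem CW_span (n : ℕ) : Submodule.span ℝ (Set.range (CW_ev n)) = ⊤ := by
  have h1 : (Submodule.span ℝ (Set.range (CW_ev n))).dualCoannihilator = ⊥ := by
    rw [eq_bot_iff]
    intro F hF
    rw [Submodule.mem_dualCoannihilator] at hF
    rw [Submodule.mem_bot]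
    refine Subtype.ext (Vb.ext fun p i => Complex.ext ?_ ?_)
    · exact hF (CW_ev n (p, i, Complex.reCLM)) (Submodule.subset_span ⟨_, rfl⟩)
    · exact hF (CW_ev n (p, i, Complex.imCLM)) (Submodule.subset_span ⟨_, rfl⟩)
  rw [← Subspace.dualCoannihilator_dualAnnihilator_eq
    (W := Submodule.span ℝ (Set.range (CW_ev n))), h1, Submodule.dualAnnihilator_bot]

theorem contDiff_of_eval {X : Type} [NormedAddCommGroup X] [NormedSpace ℝ X] {n : ℕ} {φ : X → Vb}
    (hφ : ∀ x, φ x ∈ Eb n)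
    (h : ∀ (p : ℕ → ℂ) (i : ℕ), ContDiff ℝ ∞ (fun x => (φ x).f p i)) : ContDiff ℝ ∞ φ := by
  set g : X → Eb n := fun x => ⟨φ x, hφ x⟩ with hg
  have h1 : ∀ l : Module.Dual ℝ (Eb n), ContDiff ℝ ∞ (fun x => l (g x)) := by
    intro l
    have hl : l ∈ Submodule.span ℝ (Set.range (CW_ev n)) := by
      rw [CW_span]
      exact Submodule.mem_top
    induction hl using Submodule.span_induction with
    | mem l hl =>
      obtain ⟨q, rfl⟩ := hl
      exact q.2.2.contDiff.comp (h q.1 q.2.1)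
    | zero => exact contDiff_const
    | add l m _ _ hl hm => exact hl.add hm
    | smul c l _ hl => exact contDiff_const.mul hl
  have h2 : ContDiff ℝ ∞ g := by
    have h3 : g = fun x => ∑ j, (Module.finBasis ℝ (Eb n)).coord j (g x) •
        (Module.finBasis ℝ (Eb n)) j := by
      funext x
      exact ((Module.finBasis ℝ (Eb n)).sum_repr (g x)).symm
    rw [h3]
    exact ContDiff.sum fun j _ => (h1 _).smul contDiff_const
  exact (Eb n).subtypeL.contDiff.comp h2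

end Pool.Agent.Lib.MP_862e0f_al.EW
end

section

/-!
# Smoothness of the operations (TASK EW CS)

`opb_smooth`: by `contDiff_of_eval` it suffices that
`z ↦ (opb z.1 z.2).f p i = z.2.f p i + z.1.f (p + z.2.f p) i` is smooth; use `contDiff_eval` twice (the
coordinates `z ↦ p l + z.2.f p l` are smooth by `contDiff_eval` with constant `y`).
`ivb_smooth`: show by induction on `m` that `z ↦ Vb.mk (invIt z.f m) _` is smooth from `Eb n` to `Vb`
(values in `Eb n`): `(invIt z.f (m+1)).f p i = - z.f (p + invIt z.f m p) i`; then `ivb_f`.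
-/

set_option autoImplicit false

namespace Pool.Agent.Lib.MP_862e0f_al.EW

open scoped ContDiff

theorem opb_smooth (n : ℕ) : ContDiff ℝ ∞ (fun z : Eb n × Eb n => opb (z.1 : Vb) (z.2 : Vb)) := by
  have c1 : ContDiff ℝ ∞ (fun z : Eb n × Eb n => (z.1 : Vb)) :=
    (Eb n).subtypeL.contDiff.comp contDiff_fst
  have c2 : ContDiff ℝ ∞ (fun z : Eb n × Eb n => (z.2 : Vb)) :=
    (Eb n).subtypeL.contDiff.comp contDiff_snd
  have e2 : ∀ (p : ℕ → ℂ) (i : ℕ), ContDiff ℝ ∞ (fun z : Eb n × Eb n => (z.2 : Vb).f p i) :=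
    fun p i => contDiff_eval (n := n) c2 (fun z => z.2.2) (y := fun _ => p) (fun _ => contDiff_const) i
  refine contDiff_of_eval (n := n) (fun z => opb_mem z.1.2 z.2.2) fun p i => ?_
  have e3 : ContDiff ℝ ∞ (fun z : Eb n × Eb n => (z.1 : Vb).f (p + (z.2 : Vb).f p) i) :=
    contDiff_eval (n := n) c1 (fun z => z.1.2) (y := fun z => p + (z.2 : Vb).f p)
      (fun l => contDiff_const.add (e2 p l)) i
  exact (e2 p i).add e3

theorem ivb_smooth (n : ℕ) : ContDiff ℝ ∞ (fun z : Eb n => ivb (z : Vb)) := by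
  have key : ∀ (m : ℕ) (p : ℕ → ℂ) (i : ℕ),
      ContDiff ℝ ∞ (fun z : Eb n => invIt (z : Vb).f m p i) := by
    intro m
    induction m with
    | zero => intro p i; exact contDiff_const
    | succ m ih =>
      intro p i
      have e3 : ContDiff ℝ ∞ (fun z : Eb n => (z : Vb).f (p + invIt (z : Vb).f m p) i) :=
        contDiff_eval (n := n) (Eb n).subtypeL.contDiff (fun z => z.2)
          (y := fun z => p + invIt (z : Vb).f m p) (fun l => contDiff_const.add (ih p l)) i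
      exact e3.neg
  refine contDiff_of_eval (n := n) (fun z => ivb_mem z.2) fun p i => ?_
  have e : (fun z : Eb n => (ivb (z : Vb)).f p i) = fun z : Eb n => invIt (z : Vb).f (n + 1) p i :=
    funext fun z => by rw [ivb_f z.2]
  rw [e]
  exact key _ p i

end Pool.Agent.Lib.MP_862e0f_al.EW
end

section

/-!
# Iterated square roots (TASK EW Rt)

`rt j x = Real.sqrt^[j] x`. Everything by induction on `j` with `Function.iterate_succ_apply'` resp.
`Function.iterate_succ_apply`: `Real.sqrt_nonneg`, `Real.sqrt_le_sqrt`, `Real.sq_sqrt`, `Real.sqrt_mul`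
(`0 ≤ x`), `√(x + y) ≤ √x + √y` (`Real.sqrt_le_left`, or square both sides), `√x ≤ 1` for `x ≤ 1`, `x ≤ √x` for
`0 ≤ x ≤ 1`. `rt_pow`: `rt (j + 1) x ^ 2 ^ (j + 1) = (rt j (√x) ^ 2 ^ j) ^ 2 = (√x) ^ 2 = x`. `rt_lt_iff`: from
`rt_pow` and strict monotonicity of `u ↦ u ^ 2 ^ j` on `[0, ∞)` (`pow_lt_pow_left₀`). `rt_of_pow`: injectivity of
the power.
-/

set_option autoImplicit false

namespace Pool.Agent.Lib.MP_862e0f_al.EW

theorem rt_zero (x : ℝ) : rt 0 x = x := rfl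

theorem rt_succ (j : ℕ) (x : ℝ) : rt (j + 1) x = Real.sqrt (rt j x) :=
  Function.iterate_succ_apply' Real.sqrt j x

theorem rt_succ' (j : ℕ) (x : ℝ) : rt (j + 1) x = rt j (Real.sqrt x) :=
  Function.iterate_succ_apply Real.sqrt j x

theorem rt_add (i j : ℕ) (x : ℝ) : rt (i + j) x = rt i (rt j x) :=
  Function.iterate_add_apply Real.sqrt i j x

theorem continuous_rt (j : ℕ) : Continuous (rt j) := by
  induction j with
  | zero => exact continuous_id
  | succ j ih =>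
    have h : rt (j + 1) = fun x => Real.sqrt (rt j x) := funext (rt_succ j)
    rw [h]
    exact Real.continuous_sqrt.comp ih

theorem rt_nonneg {j : ℕ} {x : ℝ} (hx : 0 ≤ x) : 0 ≤ rt j x := by
  cases j with
  | zero => exact hx
  | succ j =>
    rw [rt_succ]
    exact Real.sqrt_nonneg _

theorem rt_at_zero (j : ℕ) : rt j 0 = 0 := by
  induction j with
  | zero => rfl
  | succ j ih => rw [rt_succ, ih, Real.sqrt_zero]

theorem rt_mono {j : ℕ} {x y : ℝ} (h : x ≤ y) : rt j x ≤ rt j y := by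
  induction j with
  | zero => exact h
  | succ j ih =>
    rw [rt_succ, rt_succ]
    exact Real.sqrt_le_sqrt ih

theorem rt_pow {j : ℕ} {x : ℝ} (hx : 0 ≤ x) : rt j x ^ (2 ^ j) = x := by
  induction j with
  | zero =>
    rw [rt_zero, pow_zero, pow_one]
  | succ j ih =>
    rw [rt_succ, pow_succ', pow_mul, Real.sq_sqrt (rt_nonneg hx), ih]

theorem rt_of_pow {j : ℕ} {u : ℝ} (hu : 0 ≤ u) : rt j (u ^ (2 ^ j)) = u := by
  have h1 : 0 ≤ u ^ (2 ^ j) := pow_nonneg hu _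
  exact (pow_left_inj₀ (rt_nonneg h1) hu (by positivity)).mp (rt_pow h1)

private theorem Rt_sqrt_add {x y : ℝ} (hx : 0 ≤ x) (hy : 0 ≤ y) :
    Real.sqrt (x + y) ≤ Real.sqrt x + Real.sqrt y := by
  refine Real.sqrt_le_iff.mpr ⟨add_nonneg (Real.sqrt_nonneg x) (Real.sqrt_nonneg y), ?_⟩
  have h1 := Real.sq_sqrt hx
  have h2 := Real.sq_sqrt hy
  have h3 := mul_nonneg (Real.sqrt_nonneg x) (Real.sqrt_nonneg y)
  nlinarith

theorem rt_add_le {j : ℕ} {x y : ℝ} (hx : 0 ≤ x) (hy : 0 ≤ y) : rt j (x + y) ≤ rt j x + rt j y := by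
  induction j with
  | zero => exact le_refl _
  | succ j ih =>
    rw [rt_succ, rt_succ, rt_succ]
    exact (Real.sqrt_le_sqrt ih).trans (Rt_sqrt_add (rt_nonneg hx) (rt_nonneg hy))

theorem rt_mul {j : ℕ} {x y : ℝ} (hx : 0 ≤ x) (hy : 0 ≤ y) : rt j (x * y) = rt j x * rt j y := by
  have _ := hy
  induction j with
  | zero => rfl
  | succ j ih =>
    rw [rt_succ, rt_succ, rt_succ, ih, Real.sqrt_mul (rt_nonneg hx)]

theorem rt_le_one {j : ℕ} {x : ℝ} (h : x ≤ 1) : rt j x ≤ 1 := by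
  induction j with
  | zero => exact h
  | succ j ih =>
    rw [rt_succ]
    exact Real.sqrt_le_one.mpr ih

theorem le_rt {j : ℕ} {x : ℝ} (h0 : 0 ≤ x) (h1 : x ≤ 1) : x ≤ rt j x := by
  induction j with
  | zero => exact le_refl _
  | succ j ih =>
    rw [rt_succ]
    refine ih.trans ?_
    exact Real.le_sqrt_of_sq_le (by
      have h2 := rt_nonneg (j := j) h0
      have h3 := rt_le_one (j := j) h1
      nlinarith)

theorem rt_le_max {j : ℕ} {x : ℝ} (h0 : 0 ≤ x) : rt j x ≤ x + 1 := by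
  induction j with
  | zero =>
    rw [rt_zero]
    linarith
  | succ j ih =>
    rw [rt_succ]
    refine (Real.sqrt_le_sqrt ih).trans ?_
    exact Real.sqrt_le_iff.mpr ⟨by linarith, by nlinarith⟩

theorem rt_le_rt {j k : ℕ} {x : ℝ} (hjk : j ≤ k) (h0 : 0 ≤ x) (h1 : x ≤ 1) : rt j x ≤ rt k x := by
  obtain ⟨i, rfl⟩ := Nat.exists_eq_add_of_le hjk
  rw [add_comm, rt_add]
  exact le_rt (rt_nonneg h0) (rt_le_one h1)

theorem rt_lt_iff {j : ℕ} {x u : ℝ} (hx : 0 ≤ x) (hu : 0 ≤ u) : rt j x < u ↔ x < u ^ (2 ^ j) := by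
  have h := pow_lt_pow_iff_left₀ (rt_nonneg (j := j) hx) hu
    (show (2 ^ j : ℕ) ≠ 0 by positivity)
  rw [rt_pow hx] at h
  exact h.symm

end Pool.Agent.Lib.MP_862e0f_al.EW
end

section

/-!
# The costs (TASK EW QJ)

`T.q j x = rt j (T.N j x)`.
`N_mono'`: induction on `k`. `q_le_one_iff`: `N = rt ^ (2 ^ j)` (`rt_pow`). `N_le_q`: `N = (q) ^ (2 ^ j) ≤ q` because
`0 ≤ q ≤ 1`. `q_le_q`: `N k x = q ^ (2 ^ k) ≤ 1`, so `rt j (N j x) ≤ rt j (N k x) ≤ rt k (N k x)` (`rt_mono`,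
`rt_le_rt`). `q_le_sqrt_mul`: `q j x = √(q j x) * √(q j x)` and `√(q j x) = rt (j + 1) (N j x) ≤
rt (j + 1) (N (j + 1) x)` (`rt_succ`). `q_est`: `q k x ≤ rt k (B * (N K y + N K z)) = rt k B * rt k (..) ≤
(B + 1) * (rt k (N K y) + rt k (N K z))` (`rt_mul`, `rt_add_le`, `rt_le_max`) and
`rt k (N K y) ≤ rt k (N K' y) ≤ rt K' (N K' y) = q K' y` (`N K' y ≤ 1`).
`cont_N_comp`: `T.N k` is continuous on the finite-dimensional space `T.F n` (a seminorm on a finite-dimensional space: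
see `Pen_cont` in `EV/Pen.lean`: convex functions on finite-dimensional spaces are continuous,
`ConvexOn.continuousOn`), and `y ↦ (⟨f y, _⟩ : T.F n)` is continuous at `x` (`ContinuousAt.subtype_mk` or
`continuousAt_induced`...). `cont_q_comp`: `continuous_rt`.
-/

set_option autoImplicit false

namespace Pool.Agent.Lib.MP_862e0f_al.EW

open Filter Topology Set

variable {V : Type} [NormedAddCommGroup V] [NormedSpace ℝ V] (T : Tw V)

theorem N_mono' {j k : ℕ} (h : j ≤ k) (x : V) : T.N j x ≤ T.N k x :=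
  monotone_nat_of_le_succ (f := fun k => T.N k x) (fun k => T.N_mono k x) h

theorem q_nonneg (j : ℕ) (x : V) : 0 ≤ T.q j x := rt_nonneg (apply_nonneg _ _)

theorem q_zero (j : ℕ) : T.q j (0 : V) = 0 := by
  show rt j (T.N j 0) = 0
  rw [map_zero, rt_at_zero]

theorem N_eq_q_pow (j : ℕ) (x : V) : T.N j x = T.q j x ^ (2 ^ j) :=
  (rt_pow (apply_nonneg (T.N j) x)).symm

theorem N_le_one_of_q {j : ℕ} {x : V} (h : T.q j x ≤ 1) : T.N j x ≤ 1 := by
  rw [N_eq_q_pow]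
  exact pow_le_one₀ (q_nonneg T j x) h

theorem N_le_q {j : ℕ} {x : V} (h : T.q j x ≤ 1) : T.N j x ≤ T.q j x := by
  rw [N_eq_q_pow]
  exact pow_le_of_le_one (q_nonneg T j x) h (pow_ne_zero _ two_ne_zero)

theorem q_le_q {j k : ℕ} {x : V} (hjk : j ≤ k) (h : T.q k x ≤ 1) : T.q j x ≤ T.q k x :=
  (rt_mono (N_mono' T hjk x)).trans (rt_le_rt hjk (apply_nonneg _ _) (N_le_one_of_q T h))

theorem q_le_sqrt_mul (j : ℕ) (x : V) : T.q j x ≤ Real.sqrt (T.q j x) * T.q (j + 1) x := by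
  have h1 : Real.sqrt (T.q j x) ≤ T.q (j + 1) x := by
    show Real.sqrt (rt j (T.N j x)) ≤ rt (j + 1) (T.N (j + 1) x)
    rw [← rt_succ]
    exact rt_mono (T.N_mono j x)
  calc T.q j x = Real.sqrt (T.q j x) * Real.sqrt (T.q j x) :=
        (Real.mul_self_sqrt (q_nonneg T j x)).symm
    _ ≤ _ := mul_le_mul_of_nonneg_left h1 (Real.sqrt_nonneg _)

theorem q_est {k K K' : ℕ} {B : ℝ} (hB : 0 ≤ B) {x y z : V}
    (h : T.N k x ≤ B * (T.N K y + T.N K z)) (hk : k ≤ K') (hK : K ≤ K') (hy : T.q K' y ≤ 1)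
    (hz : T.q K' z ≤ 1) : T.q k x ≤ (B + 1) * (T.q K' y + T.q K' z) := by
  have h0 : ∀ w : V, T.q K' w ≤ 1 → rt k (T.N K w) ≤ T.q K' w := fun w hw =>
    (rt_mono (N_mono' T hK w)).trans (rt_le_rt hk (apply_nonneg _ _) (N_le_one_of_q T hw))
  have hy0 : 0 ≤ T.N K y := apply_nonneg _ _
  have hz0 : 0 ≤ T.N K z := apply_nonneg _ _
  calc T.q k x ≤ rt k (B * (T.N K y + T.N K z)) := rt_mono h
    _ = rt k B * rt k (T.N K y + T.N K z) := rt_mul hB (add_nonneg hy0 hz0)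
    _ ≤ (B + 1) * (T.q K' y + T.q K' z) := by
        refine mul_le_mul (rt_le_max hB) ?_ (rt_nonneg (add_nonneg hy0 hz0)) (by linarith)
        exact (rt_add_le hy0 hz0).trans (add_le_add (h0 y hy) (h0 z hz))

theorem cont_N_comp {X : Type} [TopologicalSpace X] {n : ℕ} {f : X → V} {x : X}
    (hf : ContinuousAt f x) (hF : ∀ y, f y ∈ T.F n) (k : ℕ) :
    ContinuousAt (fun y => T.N k (f y)) x := by
  have h1 : Continuous (fun x : T.F n => T.N k (x : V)) := by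
    have h := (((T.N k).comp (T.F n).subtype).convexOn).continuousOn isOpen_univ
    rw [← continuousOn_univ]
    exact h
  have h2 : ContinuousAt (fun y => (⟨f y, hF y⟩ : T.F n)) x := by
    rw [Topology.IsInducing.subtypeVal.continuousAt_iff]
    exact hf
  exact ContinuousAt.comp (f := fun y => (⟨f y, hF y⟩ : T.F n)) h1.continuousAt h2

theorem cont_q_comp {X : Type} [TopologicalSpace X] {n : ℕ} {f : X → V} {x : X}
    (hf : ContinuousAt f x) (hF : ∀ y, f y ∈ T.F n) (k : ℕ) :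
    ContinuousAt (fun y => T.q k (f y)) x :=
  (continuous_rt k).continuousAt.comp (cont_N_comp T hf hF k)

end Pool.Agent.Lib.MP_862e0f_al.EW
end

section

/-!
# The step of the chart (TASK EW Ax)

Compare with `EV/Nx.lean`, the proofs there can be adapted.
`Lam_nonneg`, `uu_pos`, `uu_le_one` (`(1/4)^(j+3) ≤ 1`, `exp (-x) ≤ 1`), `thr_pos` are immediate. `q_lt_uu_iff`: `rt_lt_iff`.
`Afac_ray`: the derivative of `r ↦ Afac .. (r • y)` at `r` is
`∑ j, D n * W j n * thr⁻¹ * fderiv ℝ (pen j n) (thr⁻¹ • r • y) (thr⁻¹ • y)`; multiplied by `r` every term is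
`D n * W j n * thr⁻¹ * fderiv ℝ (pen j n) z z` with `z = thr⁻¹ • r • y ∈ F n`, so `≥ 0` (`Gear.pen_ray`).
`tauE_spec`, `tauE_unique`: apply `EV.exists_radial` with `X = ℝ` and `A (_, r) = Afac .. (r • y)` (smooth, `≥ 1`).
`nxt_eq`: with `r = tauE ..`: `Afac (r • y) • r • y = (r * Afac (r • y)) • y = y`.
`nxt_unique`: with `r = (Afac x)⁻¹`, `y = Afac x • x`: `x = r • y`, `r * Afac (r • y) = 1`, so `r = tauE ..`.
`Afac_trunc`: `Finset.sum_subset`. `nxt_trunc`: with `x = nxt 0`: `N j (thr⁻¹ • x) = thr⁻¹ * N j x ≤ 1/2` for `j < t`, so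
`Afac 0 x = Afac t x` (`Gear.pen_zero`, `Afac_trunc`), then `nxt_eq` (level `0`) and `nxt_unique` (level `t`).
`N_nxt_lt`: let `x = nxt 0 n v y` and suppose `thr ≤ N j x`. Then `pen j n (thr⁻¹ • x) = 1` (`Gear.pen_one`), so
`D n * W j n * thr⁻¹ ≤ Afac x` (`Finset.single_le_sum`), and `‖y‖ = Afac x * ‖x‖ ≥ D n * W j n * thr⁻¹ * ‖x‖ ≥
W j n * thr⁻¹ * N n x ≥ W j n * thr⁻¹ * N j x ≥ W j n` (`Gear.D_spec`, `N_mono'`, `j < n`), a contradiction.
-/

set_option autoImplicit false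

namespace Pool.Agent.Lib.MP_862e0f_al.EW

open Filter Topology Set
open scoped ContDiff

variable {V : Type} [NormedAddCommGroup V] [NormedSpace ℝ V] {T : Tw V} (G : Gear T)
  {W : ℕ → ℕ → ℝ}

theorem Lam_nonneg (j : ℕ) (v : ℕ → V) (n : ℕ) : 0 ≤ Lam G j v n :=
  Finset.sum_nonneg fun _ _ => G.lam_nonneg _ _ _

theorem uu_pos (j : ℕ) (v : ℕ → V) (n : ℕ) : 0 < uu G j v n :=
  mul_pos (by positivity) (Real.exp_pos _)

theorem uu_le_one (j : ℕ) (v : ℕ → V) (n : ℕ) : uu G j v n ≤ 1 := by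
  unfold uu
  have h1 : ((1 : ℝ) / 4) ^ (j + 3) ≤ 1 := pow_le_one₀ (by norm_num) (by norm_num)
  have h2 : Real.exp (-Lam G (j + 1) v n) ≤ 1 := by
    rw [Real.exp_le_one_iff]
    have := Lam_nonneg G (j + 1) v n
    linarith
  calc (1 / 4 : ℝ) ^ (j + 3) * Real.exp (-Lam G (j + 1) v n) ≤ 1 * 1 :=
        mul_le_mul h1 h2 (Real.exp_pos _).le one_pos.le
    _ = 1 := one_mul 1

theorem thr_pos (j : ℕ) (v : ℕ → V) (n : ℕ) : 0 < thr G j v n :=
  pow_pos (uu_pos G j v n) _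

theorem q_lt_uu_iff (j : ℕ) (v : ℕ → V) (n : ℕ) (x : V) :
    T.q j x < uu G j v n ↔ T.N j x < thr G j v n :=
  rt_lt_iff (apply_nonneg _ _) (uu_pos G j v n).le

/-- if the cost is below half of the threshold, the norm is below half of the threshold -/
theorem N_le_half (j : ℕ) (v : ℕ → V) (n : ℕ) (x : V) (h : T.q j x ≤ uu G j v n / 2) :
    T.N j x ≤ thr G j v n / 2 := by
  have hu := uu_pos G j v n
  have h2 : (2 : ℝ) ≤ 2 ^ (2 ^ j) := by
    have h3 : (1 : ℕ) ≤ 2 ^ j := Nat.one_le_two_pow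
    calc (2 : ℝ) = 2 ^ 1 := (pow_one 2).symm
      _ ≤ 2 ^ (2 ^ j) := pow_le_pow_right₀ (by norm_num) h3
  rw [N_eq_q_pow]
  calc T.q j x ^ (2 ^ j) ≤ (uu G j v n / 2) ^ (2 ^ j) := pow_le_pow_left₀ (q_nonneg T j x) h _
    _ = thr G j v n / 2 ^ (2 ^ j) := by
        unfold thr
        rw [div_pow]
    _ ≤ thr G j v n / 2 := div_le_div_of_nonneg_left (thr_pos G j v n).le (by norm_num) h2

theorem one_le_Afac (hW : ∀ k n, 0 ≤ W k n) (t n : ℕ) (v : ℕ → V) (x : V) :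
    1 ≤ Afac G W t n v x := by
  unfold Afac
  have h : 0 ≤ ∑ j ∈ Finset.Ico t n,
      G.D n * W j n * (thr G j v n)⁻¹ * G.pen j n ((thr G j v n)⁻¹ • x) :=
    Finset.sum_nonneg fun j _ =>
      mul_nonneg (mul_nonneg (mul_nonneg (G.D_pos n).le (hW _ _))
        (inv_nonneg.2 (thr_pos G j v n).le)) (G.pen_nonneg _ _ _)
  linarith

private theorem Ax_N_smul (j : ℕ) (v : ℕ → V) (n : ℕ) (x : V) :
    T.N j ((thr G j v n)⁻¹ • x) = (thr G j v n)⁻¹ * T.N j x := by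
  rw [map_smul_eq_mul, Real.norm_of_nonneg (inv_nonneg.2 (thr_pos G j v n).le)]

/-- if the penalties of the levels `j < t` vanish, they can be left out -/
theorem Afac_trunc (t n : ℕ) (v : ℕ → V) {x : V} (hx : x ∈ T.F n)
    (h : ∀ j, j < t → j < n → T.N j x ≤ thr G j v n / 2) :
    Afac G W 0 n v x = Afac G W t n v x := by
  unfold Afac
  congr 1
  symm
  refine Finset.sum_subset ?_ fun j hj hj' => ?_
  · intro j hj
    rw [Finset.mem_Ico] at hj ⊢
    exact ⟨Nat.zero_le _, hj.2⟩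
  · rw [Finset.mem_Ico] at hj hj'
    have h1 := h j (by omega) (by omega)
    have hp := thr_pos G j v n
    rw [G.pen_zero j n _ ((T.F n).smul_mem _ hx) (by
      rw [Ax_N_smul]
      calc (thr G j v n)⁻¹ * T.N j x ≤ (thr G j v n)⁻¹ * (thr G j v n / 2) :=
            mul_le_mul_of_nonneg_left h1 (inv_nonneg.2 hp.le)
        _ = 1 / 2 := by
            field_simp), mul_zero]

private theorem Ax_hasDeriv (t n : ℕ) (v : ℕ → V) (y : V) (r : ℝ) :
    HasDerivAt (fun r : ℝ => Afac G W t n v (r • y))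
      (∑ j ∈ Finset.Ico t n, G.D n * W j n * (thr G j v n)⁻¹ *
        fderiv ℝ (G.pen j n) ((thr G j v n)⁻¹ • r • y) ((thr G j v n)⁻¹ • y)) r := by
  unfold Afac
  refine HasDerivAt.const_add _ ?_
  have h : ∀ j ∈ Finset.Ico t n, HasDerivAt
      (fun r : ℝ => G.D n * W j n * (thr G j v n)⁻¹ * G.pen j n ((thr G j v n)⁻¹ • r • y))
      (G.D n * W j n * (thr G j v n)⁻¹ *
        fderiv ℝ (G.pen j n) ((thr G j v n)⁻¹ • r • y) ((thr G j v n)⁻¹ • y)) r := by
    intro j _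
    refine HasDerivAt.const_mul _ ?_
    have h1 : DifferentiableAt ℝ (G.pen j n) ((thr G j v n)⁻¹ • r • y) :=
      ((G.pen_smooth j n).differentiable (by simp)).differentiableAt
    have h2 : HasDerivAt (fun r : ℝ => (thr G j v n)⁻¹ • r • y) ((thr G j v n)⁻¹ • y) r := by
      have h3 := ((hasDerivAt_id r).smul_const y).const_smul (thr G j v n)⁻¹
      rw [one_smul] at h3
      exact h3
    exact h1.hasFDerivAt.comp_hasDerivAt r h2
  have := HasDerivAt.fun_sum h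
  exact this

theorem Afac_ray (hW : ∀ k n, 0 ≤ W k n) {t n : ℕ} (v : ℕ → V) {y : V} (hy : y ∈ T.F n) (r : ℝ) :
    0 ≤ r * deriv (fun r : ℝ => Afac G W t n v (r • y)) r := by
  rw [(Ax_hasDeriv G t n v y r).deriv, Finset.mul_sum]
  refine Finset.sum_nonneg fun j _ => ?_
  have h1 := G.pen_ray j n ((thr G j v n)⁻¹ • r • y)
    ((T.F n).smul_mem _ ((T.F n).smul_mem _ hy))
  have h3 : fderiv ℝ (G.pen j n) ((thr G j v n)⁻¹ • r • y) ((thr G j v n)⁻¹ • r • y) =
      r * fderiv ℝ (G.pen j n) ((thr G j v n)⁻¹ • r • y) ((thr G j v n)⁻¹ • y) := by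
    rw [← smul_eq_mul, ← map_smul]
    congr 1
    rw [smul_comm]
  rw [h3] at h1
  have h2 : 0 ≤ G.D n * W j n * (thr G j v n)⁻¹ :=
    mul_nonneg (mul_nonneg (G.D_pos n).le (hW _ _)) (inv_nonneg.2 (thr_pos G j v n).le)
  have h4 := mul_nonneg h2 h1
  linarith

private theorem Ax_radial (hW : ∀ k n, 0 ≤ W k n) {t n : ℕ} (v : ℕ → V) {y : V}
    (hy : y ∈ T.F n) : ∃ τ : ℝ, τ * Afac G W t n v (τ • y) = 1 ∧
      ∀ r, r * Afac G W t n v (r • y) = 1 → r = τ := by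
  have hA : ContDiff ℝ ∞ (fun z : ℝ × ℝ => Afac G W t n v (z.2 • y)) := by
    unfold Afac
    refine contDiff_const.add (ContDiff.sum fun j _ => contDiff_const.mul ?_)
    refine (G.pen_smooth j n).comp ?_
    exact contDiff_const.smul (contDiff_snd.smul contDiff_const)
  obtain ⟨τ, -, h1, h2⟩ := EV.exists_radial (X := ℝ)
    (fun z : ℝ × ℝ => Afac G W t n v (z.2 • y)) hA
    (fun z => one_le_Afac G hW t n v _) (fun x r => Afac_ray G hW v hy r)
  exact ⟨τ 0, h1 0, fun r hr => h2 0 r hr⟩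

theorem tauE_spec (hW : ∀ k n, 0 ≤ W k n) {t n : ℕ} (v : ℕ → V) {y : V} (hy : y ∈ T.F n) :
    tauE (fun r => Afac G W t n v (r • y)) *
      Afac G W t n v (tauE (fun r => Afac G W t n v (r • y)) • y) = 1 := by
  obtain ⟨τ, h1, -⟩ := Ax_radial G hW (t := t) v hy
  exact Classical.epsilon_spec (p := fun r => r * Afac G W t n v (r • y) = 1) ⟨τ, h1⟩

theorem tauE_unique (hW : ∀ k n, 0 ≤ W k n) {t n : ℕ} (v : ℕ → V) {y : V} (hy : y ∈ T.F n)
    {r : ℝ} (h : r * Afac G W t n v (r • y) = 1) :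
    r = tauE (fun r => Afac G W t n v (r • y)) := by
  obtain ⟨τ, -, h2⟩ := Ax_radial G hW (t := t) v hy
  rw [h2 r h, ← h2 _ (tauE_spec G hW v hy)]

theorem nxt_mem {t n : ℕ} (v : ℕ → V) {y : V} (hy : y ∈ T.F n) : nxt G W t n v y ∈ T.F n :=
  (T.F n).smul_mem _ hy

theorem nxt_zero (t n : ℕ) (v : ℕ → V) : nxt G W t n v 0 = 0 := by
  unfold nxt
  rw [smul_zero]

theorem nxt_eq (hW : ∀ k n, 0 ≤ W k n) {t n : ℕ} (v : ℕ → V) {y : V} (hy : y ∈ T.F n) :
    Afac G W t n v (nxt G W t n v y) • nxt G W t n v y = y := by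
  have h := tauE_spec G hW (t := t) v hy
  unfold nxt
  rw [smul_smul, mul_comm, h, one_smul]

theorem nxt_unique (hW : ∀ k n, 0 ≤ W k n) {t n : ℕ} (v : ℕ → V) {x : V} (hx : x ∈ T.F n) :
    nxt G W t n v (Afac G W t n v x • x) = x := by
  have h1 : 0 < Afac G W t n v x := lt_of_lt_of_le one_pos (one_le_Afac G hW t n v x)
  have hv : Afac G W t n v x • x ∈ T.F n := (T.F n).smul_mem _ hx
  have h2 : (Afac G W t n v x)⁻¹ • (Afac G W t n v x • x) = x := by
    rw [smul_smul, inv_mul_cancel₀ h1.ne', one_smul]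
  have h3 := tauE_unique G hW v hv (t := t) (r := (Afac G W t n v x)⁻¹) (by
    rw [h2, inv_mul_cancel₀ h1.ne'])
  unfold nxt
  rw [← h3, h2]

theorem nxt_trunc (hW : ∀ k n, 0 ≤ W k n) {t n : ℕ} (v : ℕ → V) {y : V} (hy : y ∈ T.F n)
    (h : ∀ j, j < t → j < n → T.N j (nxt G W 0 n v y) ≤ thr G j v n / 2) :
    nxt G W t n v y = nxt G W 0 n v y := by
  have hx : nxt G W 0 n v y ∈ T.F n := nxt_mem G v hy
  have h1 := Afac_trunc G (W := W) t n v hx h
  have h2 := nxt_eq G hW (t := 0) v hy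
  have h3 := nxt_unique G hW (t := t) v hx
  rw [← h1, h2] at h3
  exact h3

theorem N_nxt_lt (hW : ∀ k n, 0 < W k n) {j n : ℕ} (hj : j < n) (v : ℕ → V) {y : V}
    (hy : y ∈ T.F n) (h : ‖y‖ < W j n) : T.N j (nxt G W 0 n v y) < thr G j v n := by
  by_contra hcon
  rw [not_lt] at hcon
  have hW' : ∀ k n, 0 ≤ W k n := fun k n => (hW k n).le
  obtain ⟨x, hxd⟩ : ∃ x, x = nxt G W 0 n v y := ⟨_, rfl⟩
  have hx : x ∈ T.F n := by
    rw [hxd]
    exact nxt_mem G v hy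
  have heq : Afac G W 0 n v x • x = y := by
    rw [hxd]
    exact nxt_eq G hW' v hy
  rw [← hxd] at hcon
  have hp := thr_pos G j v n
  have h1 : G.pen j n ((thr G j v n)⁻¹ • x) = 1 := by
    refine G.pen_one j n _ ((T.F n).smul_mem _ hx) ?_
    rw [Ax_N_smul]
    calc (1 : ℝ) = (thr G j v n)⁻¹ * thr G j v n := (inv_mul_cancel₀ hp.ne').symm
      _ ≤ (thr G j v n)⁻¹ * T.N j x := mul_le_mul_of_nonneg_left hcon (inv_nonneg.2 hp.le)
  have hD := G.D_pos n
  have hc : 0 ≤ G.D n * W j n * (thr G j v n)⁻¹ :=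
    mul_nonneg (mul_nonneg hD.le (hW' _ _)) (inv_nonneg.2 hp.le)
  have h2 : G.D n * W j n * (thr G j v n)⁻¹ ≤ Afac G W 0 n v x := by
    unfold Afac
    have h3 : G.D n * W j n * (thr G j v n)⁻¹ * G.pen j n ((thr G j v n)⁻¹ • x) ≤
        ∑ j ∈ Finset.Ico 0 n, G.D n * W j n * (thr G j v n)⁻¹ * G.pen j n ((thr G j v n)⁻¹ • x) :=
      Finset.single_le_sum
        (f := fun j => G.D n * W j n * (thr G j v n)⁻¹ * G.pen j n ((thr G j v n)⁻¹ • x))
        (fun i _ => mul_nonneg (mul_nonneg (mul_nonneg hD.le (hW' _ _))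
          (inv_nonneg.2 (thr_pos G i v n).le)) (G.pen_nonneg _ _ _))
        (Finset.mem_Ico.mpr ⟨Nat.zero_le _, hj⟩)
    rw [h1, mul_one] at h3
    linarith
  have h4 : G.D n * W j n * (thr G j v n)⁻¹ * ‖x‖ ≤ ‖y‖ := by
    rw [← heq, norm_smul, Real.norm_of_nonneg (le_trans hc h2)]
    exact mul_le_mul_of_nonneg_right h2 (norm_nonneg _)
  have h5 : thr G j v n ≤ G.D n * ‖x‖ :=
    hcon.trans ((N_mono' T hj.le x).trans (G.D_spec n x hx))
  have h6 : W j n ≤ G.D n * W j n * (thr G j v n)⁻¹ * ‖x‖ := by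
    calc W j n = W j n * (thr G j v n)⁻¹ * thr G j v n := by
          rw [mul_assoc, inv_mul_cancel₀ hp.ne', mul_one]
      _ ≤ W j n * (thr G j v n)⁻¹ * (G.D n * ‖x‖) :=
          mul_le_mul_of_nonneg_left h5 (mul_nonneg (hW' _ _) (inv_nonneg.2 hp.le))
      _ = G.D n * W j n * (thr G j v n)⁻¹ * ‖x‖ := by ring
  linarith

end Pool.Agent.Lib.MP_862e0f_al.EW
end

section

/-!
# Sequences and increments (TASK EW Seq)

`seq_zero`, `seq_succ`: `Finset.sum_range_succ`. `seq_mem`: every summand is in `E a ≤ E n` (`T.mono`, `T.e_mem`).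
`tau_seq`: the summands with `a < n` are in `E a`, `T.tau_lt`; the last one gives `0 + t n * 1`.
`vv_seq`: cases `n = 0`, `n + 1`; `tau_seq`, `seq_succ`. `vv_mem`: membership in `E`, and `tau n` of it is
`tau n (Z n) - 0 - tau n (Z n) * 1` (`T.tau_lt` for `Z (n - 1)`). `seq_vv`: induction on `n`. The congruence lemmas:
cases on `n`, `Finset.sum_congr`. `tau_iv`: `T.tau_op` for `iv x`, `x` and `T.iv_op`. `iv_zero`: `T.iv_op 0`,
`T.op_zero`. `seq_vop`, `seq_viv`: `seq_vv` for `Z n = op ..` (`T.op_mem`, `T.tau_op`, `tau_seq`), resp. `iv`.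
-/

set_option autoImplicit false

namespace Pool.Agent.Lib.MP_862e0f_al.EW

variable {V : Type} [NormedAddCommGroup V] [NormedSpace ℝ V] (T : Tw V)

theorem seq_zero (t : ℕ → ℝ) (v : ℕ → V) : T.seq t v 0 = v 0 + t 0 • T.e 0 := by
  simp [Pre.seq]

theorem seq_succ (t : ℕ → ℝ) (v : ℕ → V) (n : ℕ) :
    T.seq t v (n + 1) = T.seq t v n + (v (n + 1) + t (n + 1) • T.e (n + 1)) := by
  unfold Pre.seq
  rw [Finset.sum_range_succ]

theorem F_le_E (n : ℕ) : T.F n ≤ T.E n := fun _ hx => hx.1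

variable {T}

theorem seq_mem {t : ℕ → ℝ} {v : ℕ → V} (hv : ∀ a, v a ∈ T.F a) (n : ℕ) :
    T.seq t v n ∈ T.E n := by
  unfold Pre.seq
  refine (T.E n).sum_mem fun a ha => ?_
  have han : a ≤ n := Nat.lt_succ_iff.mp (Finset.mem_range.mp ha)
  exact (T.E n).add_mem (T.mono han (hv a).1) ((T.E n).smul_mem _ (T.mono han (T.e_mem a)))

theorem tau_seq {t : ℕ → ℝ} {v : ℕ → V} (hv : ∀ a, v a ∈ T.F a) (n : ℕ) :
    T.tau n (T.seq t v n) = t n := by
  cases n with
  | zero => rw [seq_zero, map_add, map_smul, (hv 0).2, T.tau_e]; simp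
  | succ n =>
    rw [seq_succ, map_add, map_add, map_smul, (hv (n + 1)).2, T.tau_e,
      T.tau_lt n (n + 1) _ (Nat.lt_succ_self n) (seq_mem hv n)]
    simp

theorem vv_seq {t : ℕ → ℝ} {v : ℕ → V} (hv : ∀ a, v a ∈ T.F a) : T.vv (T.seq t v) = v := by
  funext n
  cases n with
  | zero =>
    show T.seq t v 0 - T.tau 0 (T.seq t v 0) • T.e 0 = v 0
    rw [tau_seq hv, seq_zero]; abel
  | succ n =>
    show T.seq t v (n + 1) - T.seq t v n - T.tau (n + 1) (T.seq t v (n + 1)) • T.e (n + 1) =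
      v (n + 1)
    rw [tau_seq hv, seq_succ]; abel

theorem vv_mem {Z : ℕ → V} (hZ : ∀ n, Z n ∈ T.E n) (n : ℕ) : T.vv Z n ∈ T.F n := by
  cases n with
  | zero =>
    refine ⟨(T.E 0).sub_mem (hZ 0) ((T.E 0).smul_mem _ (T.e_mem 0)), ?_⟩
    show T.tau 0 (Z 0 - T.tau 0 (Z 0) • T.e 0) = 0
    rw [map_sub, map_smul, T.tau_e]; simp
  | succ n =>
    refine ⟨(T.E (n + 1)).sub_mem ((T.E (n + 1)).sub_mem (hZ (n + 1))
      (T.mono (Nat.le_succ n) (hZ n))) ((T.E (n + 1)).smul_mem _ (T.e_mem (n + 1))), ?_⟩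
    show T.tau (n + 1) (Z (n + 1) - Z n - T.tau (n + 1) (Z (n + 1)) • T.e (n + 1)) = 0
    rw [map_sub, map_sub, map_smul, T.tau_e,
      T.tau_lt n (n + 1) _ (Nat.lt_succ_self n) (hZ n)]
    simp

theorem seq_vv {Z : ℕ → V} (hZ : ∀ n, Z n ∈ T.E n) (n : ℕ) :
    T.seq (fun n => T.tau n (Z n)) (T.vv Z) n = Z n := by
  induction n with
  | zero =>
    rw [seq_zero]
    show Z 0 - T.tau 0 (Z 0) • T.e 0 + T.tau 0 (Z 0) • T.e 0 = Z 0
    abel
  | succ n ih =>
    rw [seq_succ, ih]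
    show Z n + (Z (n + 1) - Z n - T.tau (n + 1) (Z (n + 1)) • T.e (n + 1) +
      T.tau (n + 1) (Z (n + 1)) • T.e (n + 1)) = Z (n + 1)
    abel

theorem vv_congr {Z Z' : ℕ → V} {n : ℕ} (h : ∀ a, a ≤ n → Z a = Z' a) :
    T.vv Z n = T.vv Z' n := by
  cases n with
  | zero =>
    show Z 0 - T.tau 0 (Z 0) • T.e 0 = Z' 0 - T.tau 0 (Z' 0) • T.e 0
    rw [h 0 le_rfl]
  | succ n =>
    show Z (n + 1) - Z n - T.tau (n + 1) (Z (n + 1)) • T.e (n + 1) =
      Z' (n + 1) - Z' n - T.tau (n + 1) (Z' (n + 1)) • T.e (n + 1)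
    rw [h (n + 1) le_rfl, h n (Nat.le_succ n)]

theorem seq_congr {t s : ℕ → ℝ} {v u : ℕ → V} {n : ℕ} (ht : ∀ a, a ≤ n → t a = s a)
    (hv : ∀ a, a ≤ n → v a = u a) : T.seq t v n = T.seq s u n := by
  unfold Pre.seq
  refine Finset.sum_congr rfl fun a ha => ?_
  have han : a ≤ n := Nat.lt_succ_iff.mp (Finset.mem_range.mp ha)
  rw [ht a han, hv a han]

theorem vop_congr {t s t' s' : ℕ → ℝ} {v u v' u' : ℕ → V} {n : ℕ} (ht : ∀ a, a ≤ n → t a = s a)
    (hv : ∀ a, a ≤ n → v a = u a) (ht' : ∀ a, a ≤ n → t' a = s' a)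
    (hv' : ∀ a, a ≤ n → v' a = u' a) : T.vop t v t' v' n = T.vop s u s' u' n := by
  refine vv_congr fun a ha => ?_
  rw [seq_congr (fun b hb => ht b (hb.trans ha)) (fun b hb => hv b (hb.trans ha)),
    seq_congr (fun b hb => ht' b (hb.trans ha)) (fun b hb => hv' b (hb.trans ha))]

theorem viv_congr {t s : ℕ → ℝ} {v u : ℕ → V} {n : ℕ} (ht : ∀ a, a ≤ n → t a = s a)
    (hv : ∀ a, a ≤ n → v a = u a) : T.viv t v n = T.viv s u n := by
  refine vv_congr fun a ha => ?_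
  rw [seq_congr (fun b hb => ht b (hb.trans ha)) (fun b hb => hv b (hb.trans ha))]

theorem vop_mem {t t' : ℕ → ℝ} {v v' : ℕ → V} (hv : ∀ a, v a ∈ T.F a) (hv' : ∀ a, v' a ∈ T.F a)
    (n : ℕ) : T.vop t v t' v' n ∈ T.F n :=
  vv_mem (fun a => T.op_mem a _ _ (seq_mem hv a) (seq_mem hv' a)) n

theorem viv_mem {t : ℕ → ℝ} {v : ℕ → V} (hv : ∀ a, v a ∈ T.F a) (n : ℕ) :
    T.viv t v n ∈ T.F n :=
  vv_mem (fun a => T.iv_mem a _ (seq_mem hv a)) n

theorem iv_zero : T.iv (0 : V) = 0 := by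
  have h := T.iv_op 0
  rwa [T.op_zero] at h

theorem tau_iv {n : ℕ} {x : V} (hx : x ∈ T.E n) : T.tau n (T.iv x) = -T.tau n x := by
  have h := T.tau_op n (T.iv x) x (T.iv_mem n x hx) hx
  rw [T.iv_op, map_zero] at h
  linarith

theorem seq_vop {t t' : ℕ → ℝ} {v v' : ℕ → V} (hv : ∀ a, v a ∈ T.F a) (hv' : ∀ a, v' a ∈ T.F a)
    (n : ℕ) : T.seq (fun a => t a + t' a) (T.vop t v t' v') n =
      T.op (T.seq t v n) (T.seq t' v' n) := by
  have h := seq_vv (T := T) (Z := fun a => T.op (T.seq t v a) (T.seq t' v' a))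
    (fun a => T.op_mem a _ _ (seq_mem hv a) (seq_mem hv' a)) n
  have h2 : (fun a => T.tau a (T.op (T.seq t v a) (T.seq t' v' a))) = fun a => t a + t' a := by
    funext a
    rw [T.tau_op a _ _ (seq_mem hv a) (seq_mem hv' a), tau_seq hv, tau_seq hv']
  rw [h2] at h
  exact h

theorem seq_viv {t : ℕ → ℝ} {v : ℕ → V} (hv : ∀ a, v a ∈ T.F a) (n : ℕ) :
    T.seq (fun a => -t a) (T.viv t v) n = T.iv (T.seq t v n) := by
  have h := seq_vv (T := T) (Z := fun a => T.iv (T.seq t v a))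
    (fun a => T.iv_mem a _ (seq_mem hv a)) n
  have h2 : (fun a => T.tau a (T.iv (T.seq t v a))) = fun a => -t a := by
    funext a
    rw [tau_iv (seq_mem hv a), tau_seq hv]
  rw [h2] at h
  exact h

end Pool.Agent.Lib.MP_862e0f_al.EW
end

section

/-!
# Locality and dependence on the weights (TASK EW Cg)

`Lam`, `uu`, `thr`, `Afac .. n v x`, `nxt .. n v y` depend only on `v a`, `a < n`, and on `W j n`, `j ≥ t`: unfold,
`Finset.sum_congr`. `hs_stable`: induction on `m` (`Function.update_of_ne`). `hs_eq_vs`, `vs_eq`: from `hs_stable` and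
`nxt_congr_v`. `vs_congr_y`, `vs_congr_W`: strong induction on `n` with `vs_eq` (`nxt_congr_v`, `nxt_congr_W`).
`vu_lt`, `vu_self`: `Function.update_of_ne`, `Function.update_self`; `vu_zero`: `funext`, both cases and `vs_eq`.
`Fm_congr_y`, `Fm_congr_W`: `crd_congr` resp. `Afac_congr_W`, `vop_congr` and the facts about `vu` (for
`a < n` only `vs .. a` is involved, at `a = n` the truncated step `nxt`).
-/

set_option autoImplicit false

namespace Pool.Agent.Lib.MP_862e0f_al.EW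

variable {V : Type} [NormedAddCommGroup V] [NormedSpace ℝ V] {T : Tw V} (G : Gear T)
  {W W' : ℕ → ℕ → ℝ}

theorem Lam_congr (j : ℕ) {v w : ℕ → V} {n : ℕ} (h : ∀ a, a < n → v a = w a) :
    Lam G j v n = Lam G j w n := by
  unfold Lam
  exact Finset.sum_congr rfl fun a ha => by rw [h a (Finset.mem_range.1 ha)]

theorem uu_congr (j : ℕ) {v w : ℕ → V} {n : ℕ} (h : ∀ a, a < n → v a = w a) :
    uu G j v n = uu G j w n := by
  unfold uu
  rw [Lam_congr G (j + 1) h]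

theorem thr_congr (j : ℕ) {v w : ℕ → V} {n : ℕ} (h : ∀ a, a < n → v a = w a) :
    thr G j v n = thr G j w n := by
  unfold thr
  rw [uu_congr G j h]

theorem Afac_congr_v {t n : ℕ} {v w : ℕ → V} (h : ∀ a, a < n → v a = w a) (x : V) :
    Afac G W t n v x = Afac G W t n w x := by
  unfold Afac
  congr 1
  refine Finset.sum_congr rfl fun j _ => ?_
  rw [thr_congr G j h]

theorem Afac_congr_W {t n : ℕ} (h : ∀ j, t ≤ j → W j n = W' j n) (v : ℕ → V) (x : V) :
    Afac G W t n v x = Afac G W' t n v x := by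
  unfold Afac
  congr 1
  refine Finset.sum_congr rfl fun j hj => ?_
  rw [h j (Finset.mem_Ico.1 hj).1]

theorem nxt_congr_v {t n : ℕ} {v w : ℕ → V} (h : ∀ a, a < n → v a = w a) (y : V) :
    nxt G W t n v y = nxt G W t n w y := by
  have h1 : (fun r : ℝ => Afac G W t n v (r • y)) = fun r : ℝ => Afac G W t n w (r • y) :=
    funext fun r => Afac_congr_v G h _
  unfold nxt
  rw [h1]

theorem nxt_congr_W {t n : ℕ} (h : ∀ j, t ≤ j → W j n = W' j n) (v : ℕ → V) (y : V) :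
    nxt G W t n v y = nxt G W' t n v y := by
  have h1 : (fun r : ℝ => Afac G W t n v (r • y)) = fun r : ℝ => Afac G W' t n v (r • y) :=
    funext fun r => Afac_congr_W G h v _
  unfold nxt
  rw [h1]

theorem hs_stable (y : ℕ → V) {a n m : ℕ} (ha : a < n) (hn : n ≤ m) :
    hs G W y m a = hs G W y n a := by
  induction m, hn using Nat.le_induction with
  | base => rfl
  | succ m hm ih =>
    show Function.update (hs G W y m) m (nxt G W 0 m (hs G W y m) (y m)) a = hs G W y n a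
    rw [Function.update_of_ne (by omega), ih]

theorem hs_eq_vs (y : ℕ → V) {a n : ℕ} (ha : a < n) : hs G W y n a = vs G W y a := by
  unfold vs
  exact hs_stable G y (Nat.lt_succ_self a) ha

theorem vs_eq (y : ℕ → V) (n : ℕ) : vs G W y n = nxt G W 0 n (vs G W y) (y n) := by
  show Function.update (hs G W y n) n (nxt G W 0 n (hs G W y n) (y n)) n = _
  rw [Function.update_self]
  exact nxt_congr_v G (fun a ha => hs_eq_vs G y ha) (y n)

theorem vs_congr_y {y z : ℕ → V} {n : ℕ} (h : ∀ a, a ≤ n → y a = z a) :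
    vs G W y n = vs G W z n := by
  induction n using Nat.strong_induction_on with
  | _ n ih =>
    rw [vs_eq, vs_eq, h n le_rfl]
    exact nxt_congr_v G (fun a ha => ih a ha fun b hb => h b (by omega)) (z n)

theorem vs_congr_W {n : ℕ} (h : ∀ j a, a ≤ n → W j a = W' j a) (y : ℕ → V) :
    vs G W y n = vs G W' y n := by
  induction n using Nat.strong_induction_on with
  | _ n ih =>
    rw [vs_eq, vs_eq, nxt_congr_v G (fun a ha => ih a ha fun j b hb => h j b (by omega)) (y n)]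
    exact nxt_congr_W G (fun j _ => h j n le_rfl) _ _

theorem vu_lt (t : ℕ) (y : ℕ → V) {a n : ℕ} (ha : a < n) : vu G W t y n a = vs G W y a := by
  unfold vu
  exact Function.update_of_ne (by omega) _ _

theorem vu_self (t : ℕ) (y : ℕ → V) (n : ℕ) :
    vu G W t y n n = nxt G W t n (vs G W y) (y n) := by
  unfold vu
  exact Function.update_self _ _ _

theorem vu_zero (y : ℕ → V) (n : ℕ) : vu G W 0 y n = vs G W y := by
  funext a
  unfold vu
  by_cases ha : a = n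
  · subst ha
    rw [Function.update_self, ← vs_eq]
  · rw [Function.update_of_ne ha]

theorem crd_congr {t : ℕ} {v w : ℕ → V} {n : ℕ} (h : ∀ a, a ≤ n → v a = w a) :
    crd G W t v n = crd G W t w n := by
  unfold crd
  rw [h n le_rfl, Afac_congr_v G fun a ha => h a ha.le]

theorem crd_congr_W {t n : ℕ} (h : ∀ j, t ≤ j → W j n = W' j n) (v : ℕ → V) :
    crd G W t v n = crd G W' t v n := by
  unfold crd
  rw [Afac_congr_W G h]

private theorem Cg_vu_y {t : ℕ} {y z : ℕ → V} {n : ℕ} (hy : ∀ a, a ≤ n → y a = z a) {b : ℕ}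
    (hb : b ≤ n) : vu G W t y n b = vu G W t z n b := by
  rcases hb.lt_or_eq with hb | rfl
  · rw [vu_lt G t y hb, vu_lt G t z hb]
    exact vs_congr_y G fun a ha => hy a (by omega)
  · rw [vu_self, vu_self, hy b le_rfl]
    exact nxt_congr_v G (fun a ha => vs_congr_y G fun c hc => hy c (by omega)) _

private theorem Cg_vu_W {t : ℕ} {n : ℕ} (h : ∀ j a, a < n → W j a = W' j a)
    (h' : ∀ j, t ≤ j → W j n = W' j n) (y : ℕ → V) {b : ℕ}
    (hb : b ≤ n) : vu G W t y n b = vu G W' t y n b := by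
  rcases hb.lt_or_eq with hb | rfl
  · rw [vu_lt G t y hb, vu_lt G t y hb]
    exact vs_congr_W G (fun j a ha => h j a (by omega)) y
  · rw [vu_self, vu_self,
      nxt_congr_v G (fun a ha => vs_congr_W G (fun j c hc => h j c (by omega)) y) (y b)]
    exact nxt_congr_W G h' _ _

private theorem Cg_tq {g f : ℕ → ℝ} {n : ℕ} (hg : ∀ a, a ≤ n → g a = f a) (b : ℕ) (hb : b ≤ n) :
    tq g b = tq f b := by
  unfold tq
  rw [hg b hb]

theorem Fm_congr_y {t : ℕ} {g f g' f' : ℕ → ℝ} {y z y' z' : ℕ → V} {n : ℕ}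
    (hg : ∀ a, a ≤ n → g a = f a) (hy : ∀ a, a ≤ n → y a = z a)
    (hg' : ∀ a, a ≤ n → g' a = f' a) (hy' : ∀ a, a ≤ n → y' a = z' a) :
    Fm G W t g y g' y' n = Fm G W t f z f' z' n := by
  unfold Fm
  refine crd_congr G fun a ha => ?_
  exact vop_congr (fun b hb => Cg_tq hg b (hb.trans ha)) (fun b hb => Cg_vu_y G hy (hb.trans ha))
    (fun b hb => Cg_tq hg' b (hb.trans ha)) (fun b hb => Cg_vu_y G hy' (hb.trans ha))

theorem Fi_congr_y {t : ℕ} {g f : ℕ → ℝ} {y z : ℕ → V} {n : ℕ}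
    (hg : ∀ a, a ≤ n → g a = f a) (hy : ∀ a, a ≤ n → y a = z a) :
    Fi G W t g y n = Fi G W t f z n := by
  unfold Fi
  refine crd_congr G fun a ha => ?_
  exact viv_congr (fun b hb => Cg_tq hg b (hb.trans ha)) (fun b hb => Cg_vu_y G hy (hb.trans ha))

theorem Fm_congr_W {t n : ℕ} (h : ∀ j a, a < n → W j a = W' j a)
    (h' : ∀ j, t ≤ j → W j n = W' j n) (g : ℕ → ℝ) (y : ℕ → V) (g' : ℕ → ℝ) (y' : ℕ → V) :
    Fm G W t g y g' y' n = Fm G W' t g y g' y' n := by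
  unfold Fm
  rw [crd_congr_W G h']
  refine crd_congr G fun a ha => ?_
  exact vop_congr (fun b _ => rfl) (fun b hb => Cg_vu_W G h h' y (hb.trans ha))
    (fun b _ => rfl) (fun b hb => Cg_vu_W G h h' y' (hb.trans ha))

theorem Fi_congr_W {t n : ℕ} (h : ∀ j a, a < n → W j a = W' j a)
    (h' : ∀ j, t ≤ j → W j n = W' j n) (g : ℕ → ℝ) (y : ℕ → V) :
    Fi G W t g y n = Fi G W' t g y n := by
  unfold Fi
  rw [crd_congr_W G h']
  refine crd_congr G fun a ha => ?_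
  exact viv_congr (fun b _ => rfl) (fun b hb => Cg_vu_W G h h' y (hb.trans ha))

end Pool.Agent.Lib.MP_862e0f_al.EW
end

section

/-!
# The chart and its inverse (TASK EW Ch)

`vs_mem`: `vs_eq`, `nxt_mem`. `vu_mem`: cases `a = n` or not. `crd_mem`: `smul_mem`. `crd_vs`: `vs_eq`, `nxt_eq` (the
truncated factor `Afac 0 n (vs y) (vs y n)`). `vs_crd`: strong induction on `n`: `vs (crd v) n = nxt 0 n (vs (crd v)) (crd v n)
= nxt 0 n v (Afac 0 n v (v n) • v n) = v n` (`nxt_congr_v`, `nxt_unique`). `Fm_zero_eq`, `Fi_zero_eq`: `vu_zero`. `Fm_mem`,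
`Fi_mem`: `crd_mem`, `vop_mem`, `vu_mem`. `vu_trunc`: `funext`, `nxt_trunc`, `vs_eq`. `Fm_trunc`: `vu_trunc` for both factors, then
`crd .. t w n = crd .. 0 w n` by `Afac_trunc`.
`N_vs_lt`: `vs_eq`, `N_nxt_lt`.
-/

set_option autoImplicit false

namespace Pool.Agent.Lib.MP_862e0f_al.EW

variable {V : Type} [NormedAddCommGroup V] [NormedSpace ℝ V] {T : Tw V} (G : Gear T)
  {W : ℕ → ℕ → ℝ}

theorem vs_mem {y : ℕ → V} (hy : ∀ a, y a ∈ T.F a) (n : ℕ) : vs G W y n ∈ T.F n := by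
  rw [vs_eq]
  exact nxt_mem G _ (hy n)

theorem vu_mem {t : ℕ} {y : ℕ → V} (hy : ∀ a, y a ∈ T.F a) (n a : ℕ) : vu G W t y n a ∈ T.F a := by
  by_cases h : a = n
  · subst h
    rw [vu_self]
    exact nxt_mem G _ (hy a)
  · have h1 : vu G W t y n a = vs G W y a := by
      unfold vu
      rw [Function.update_of_ne h]
    rw [h1]
    exact vs_mem G hy a

theorem crd_mem {t : ℕ} {v : ℕ → V} (hv : ∀ a, v a ∈ T.F a) (n : ℕ) : crd G W t v n ∈ T.F n :=
  (T.F n).smul_mem _ (hv n)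

theorem crd_vs (hW : ∀ k n, 0 ≤ W k n) {y : ℕ → V} (hy : ∀ a, y a ∈ T.F a) (n : ℕ) :
    crd G W 0 (vs G W y) n = y n := by
  unfold crd
  rw [vs_eq]
  exact nxt_eq G hW _ (hy n)

theorem vs_crd (hW : ∀ k n, 0 ≤ W k n) {v : ℕ → V} (hv : ∀ a, v a ∈ T.F a) (n : ℕ) :
    vs G W (crd G W 0 v) n = v n := by
  induction n using Nat.strong_induction_on with
  | _ n ih =>
    rw [vs_eq, nxt_congr_v G (w := v) (fun a ha => ih a ha)]
    exact nxt_unique G hW v (hv n)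

theorem N_vs_lt (hW : ∀ k n, 0 < W k n) {j n : ℕ} (hj : j < n) {y : ℕ → V}
    (hy : ∀ a, y a ∈ T.F a) (h : ‖y n‖ < W j n) : T.N j (vs G W y n) < thr G j (vs G W y) n := by
  rw [vs_eq]
  exact N_nxt_lt G hW hj _ (hy n) h

theorem Fm_zero_eq (g : ℕ → ℝ) (y : ℕ → V) (g' : ℕ → ℝ) (y' : ℕ → V) (n : ℕ) :
    Fm G W 0 g y g' y' n = crd G W 0 (T.vop (tq g) (vs G W y) (tq g') (vs G W y')) n := by
  unfold Fm
  rw [vu_zero, vu_zero]

theorem Fi_zero_eq (g : ℕ → ℝ) (y : ℕ → V) (n : ℕ) :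
    Fi G W 0 g y n = crd G W 0 (T.viv (tq g) (vs G W y)) n := by
  unfold Fi
  rw [vu_zero]

theorem Fm_mem {t : ℕ} (g : ℕ → ℝ) {y : ℕ → V} (hy : ∀ a, y a ∈ T.F a) (g' : ℕ → ℝ)
    {y' : ℕ → V} (hy' : ∀ a, y' a ∈ T.F a) (n : ℕ) : Fm G W t g y g' y' n ∈ T.F n :=
  crd_mem G (fun a => vop_mem (fun b => vu_mem G hy n b) (fun b => vu_mem G hy' n b) a) n

theorem Fi_mem {t : ℕ} (g : ℕ → ℝ) {y : ℕ → V} (hy : ∀ a, y a ∈ T.F a) (n : ℕ) :
    Fi G W t g y n ∈ T.F n :=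
  crd_mem G (fun a => viv_mem (fun b => vu_mem G hy n b) a) n

theorem vu_trunc (hW : ∀ k n, 0 ≤ W k n) {t n : ℕ} {y : ℕ → V} (hy : ∀ a, y a ∈ T.F a)
    (h : ∀ j, j < t → j < n → T.N j (vs G W y n) ≤ thr G j (vs G W y) n / 2) :
    vu G W t y n = vs G W y := by
  funext a
  by_cases ha : a = n
  · subst ha
    have h1 := vs_eq G (W := W) y a
    rw [vu_self, h1]
    refine nxt_trunc G hW _ (hy a) ?_
    intro j hj hja
    rw [← h1]
    exact h j hj hja
  · unfold vu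
    rw [Function.update_of_ne ha]

theorem crd_trunc {t n : ℕ} {v : ℕ → V} (hv : ∀ a, v a ∈ T.F a)
    (h : ∀ j, j < t → j < n → T.N j (v n) ≤ thr G j v n / 2) :
    crd G W t v n = crd G W 0 v n := by
  unfold crd
  rw [Afac_trunc G t n v (hv n) h]

theorem Fm_trunc (hW : ∀ k n, 0 ≤ W k n) {t n : ℕ} (g : ℕ → ℝ) {y : ℕ → V}
    (hy : ∀ a, y a ∈ T.F a) (g' : ℕ → ℝ) {y' : ℕ → V} (hy' : ∀ a, y' a ∈ T.F a)
    (h : ∀ j, j < t → j < n → T.N j (vs G W y n) ≤ thr G j (vs G W y) n / 2)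
    (h' : ∀ j, j < t → j < n → T.N j (vs G W y' n) ≤ thr G j (vs G W y') n / 2)
    (h'' : ∀ j, j < t → j < n → T.N j (T.vop (tq g) (vs G W y) (tq g') (vs G W y') n) ≤
      thr G j (T.vop (tq g) (vs G W y) (tq g') (vs G W y')) n / 2) :
    Fm G W t g y g' y' n = Fm G W 0 g y g' y' n := by
  rw [Fm_zero_eq]
  unfold Fm
  rw [vu_trunc G hW hy h, vu_trunc G hW hy' h']
  exact crd_trunc G (fun a => vop_mem (vs_mem G hy) (vs_mem G hy') a) h''

theorem Fi_trunc (hW : ∀ k n, 0 ≤ W k n) {t n : ℕ} (g : ℕ → ℝ) {y : ℕ → V}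
    (hy : ∀ a, y a ∈ T.F a)
    (h : ∀ j, j < t → j < n → T.N j (vs G W y n) ≤ thr G j (vs G W y) n / 2)
    (h'' : ∀ j, j < t → j < n → T.N j (T.viv (tq g) (vs G W y) n) ≤
      thr G j (T.viv (tq g) (vs G W y)) n / 2) :
    Fi G W t g y n = Fi G W 0 g y n := by
  rw [Fi_zero_eq]
  unfold Fi
  rw [vu_trunc G hW hy h]
  exact crd_trunc G (fun a => viv_mem (vs_mem G hy) a) h''

end Pool.Agent.Lib.MP_862e0f_al.EW
end

section

/-!
# Locally controlled families: consequences (TASK EW LCc)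

`LC.comp`: compose with `hf` (`ContinuousAt.comp`, `Tendsto.eventually`).
`LC.sum_bdd`: by `tail` with `η = 1` there is `n₀` with `∑ a ∈ Ico n₀ M, q k (v y a) ≤ 1` near `x`; the finitely many functions
`y ↦ q k (v y a)`, `a < n₀`, are continuous at `x` (`cont_q_comp`), hence `≤ q k (v x a) + 1` near `x`. Take
`B = ∑ a ∈ range n₀, (q k (v x a) + 1) + 1`; `∑ range M ≤ ∑ range n₀ + ∑ Ico n₀ M` (`Finset.sum_range_add_sum_Ico`-type, or
cases `M ≤ n₀`).
`LC.N_tail`: by `tail` with `min η 1`: every `q k (v y a) ≤ 1` for `a ≥ n₀` (`Finset.single_le_sum` with `M = a + 1`), so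
`N k ≤ q k` (`N_le_q`). `LC.N_bdd`: as `LC.sum_bdd` with `cont_N_comp`.
`LC.uu_lower`: `Lam (j + 1) (v y) n ≤ ∑ a ∈ range n, (2 * q (j + 1) (v y a) + (1/2) ^ a) ≤ 2 * B + 2` near `x`, for all `n`
(`Gear.lam_upper`, `sum_bdd`, geometric sum `∑ a ∈ range n, (1/2) ^ a ≤ 2`), take `c = (1/4) ^ (j + 3) * exp (-(2 * B + 2))`.
`LC.dead`: for one level `j`: `q j (v y n) ≤ c / 2 ≤ uu j (v y) n / 2` for `n ≥ n₀` near `x` (`tail` with `η = c / 2`), and
`N_le_half` gives `N j (v y n) ≤ thr / 2`; here we want the strict inequality: use `η = c / 4` and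
`N j (v y n) < thr / 2` (if `q ≤ uu / 4 < uu / 2`, then `N = q ^ 2 ^ j < (uu / 2) ^ 2 ^ j ≤ thr / 2`). Finitely many levels `j ≤ k`:
`Filter.eventually_all_finset`, maximum of the `n₀`.
-/

set_option autoImplicit false

namespace Pool.Agent.Lib.MP_862e0f_al.EW

open Filter Topology Set

variable {V : Type} [NormedAddCommGroup V] [NormedSpace ℝ V] {T : Tw V} (G : Gear T)
  {X Y : Type} [TopologicalSpace X] [TopologicalSpace Y]

theorem LC.comp {v : X → ℕ → V} {f : Y → X} {y : Y} (h : LC T v (f y)) (hf : ContinuousAt f y) :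
    LC T (fun z => v (f z)) y := by
  refine ⟨fun z n => h.mem (f z) n, fun n => ?_, fun k η hη => ?_⟩
  · exact ContinuousAt.comp (g := fun x => v x n) (h.cont n) hf
  · obtain ⟨n₀, H⟩ := h.tail k η hη
    exact ⟨n₀, hf.tendsto.eventually H⟩

private theorem LCc_bdd {f : X → ℕ → ℝ} {x : X} (h0 : ∀ y a, 0 ≤ f y a)
    (hc : ∀ a, ContinuousAt (fun y => f y a) x) {n₀ : ℕ}
    (ht : ∀ᶠ y in 𝓝 x, ∀ M, ∑ a ∈ Finset.Ico n₀ M, f y a ≤ 1) :
    ∃ B : ℝ, ∀ᶠ y in 𝓝 x, ∀ M, ∑ a ∈ Finset.range M, f y a ≤ B := by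
  have h1 : ∀ a ∈ Finset.range n₀, ∀ᶠ y in 𝓝 x, f y a < f x a + 1 := by
    intro a _
    exact (hc a).eventually (Iio_mem_nhds (lt_add_one (f x a)))
  have h2 := (Filter.eventually_all_finset (Finset.range n₀)).mpr h1
  refine ⟨∑ a ∈ Finset.range n₀, (f x a + 1) + 1, ?_⟩
  filter_upwards [ht, h2] with y hy1 hy2 M
  have h3 : ∑ a ∈ Finset.range M, f y a ≤ ∑ a ∈ Finset.range (max n₀ M), f y a :=
    Finset.sum_le_sum_of_subset_of_nonneg
      (Finset.range_subset_range.mpr (le_max_right n₀ M)) (fun a _ _ => h0 y a)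
  have h4 : ∑ a ∈ Finset.range (max n₀ M), f y a =
      ∑ a ∈ Finset.range n₀, f y a + ∑ a ∈ Finset.Ico n₀ (max n₀ M), f y a :=
    (Finset.sum_range_add_sum_Ico (fun a => f y a) (le_max_left n₀ M)).symm
  have h5 : ∑ a ∈ Finset.range n₀, f y a ≤ ∑ a ∈ Finset.range n₀, (f x a + 1) :=
    Finset.sum_le_sum (fun a ha => (hy2 a ha).le)
  have h6 := hy1 (max n₀ M)
  linarith

theorem LC.sum_bdd {v : X → ℕ → V} {x : X} (h : LC T v x) (k : ℕ) :
    ∃ B : ℝ, ∀ᶠ y in 𝓝 x, ∀ M, ∑ a ∈ Finset.range M, T.q k (v y a) ≤ B := by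
  obtain ⟨n₀, H⟩ := h.tail k 1 one_pos
  exact LCc_bdd (fun y a => q_nonneg T k (v y a))
    (fun a => cont_q_comp T (h.cont a) (fun y => h.mem y a) k) H

omit [TopologicalSpace X] in
private theorem LCc_q_le {v : X → ℕ → V} {y : X} {k n₀ : ℕ} {η : ℝ}
    (H : ∀ M, ∑ a ∈ Finset.Ico n₀ M, T.q k (v y a) ≤ η) {a : ℕ} (ha : n₀ ≤ a) :
    T.q k (v y a) ≤ η := by
  refine le_trans ?_ (H (a + 1))
  exact Finset.single_le_sum (f := fun a => T.q k (v y a)) (fun b _ => q_nonneg T k (v y b))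
    (Finset.mem_Ico.mpr ⟨ha, Nat.lt_succ_self a⟩)

theorem LC.N_tail {v : X → ℕ → V} {x : X} (h : LC T v x) (k : ℕ) {η : ℝ} (hη : 0 < η) :
    ∃ n₀, ∀ᶠ y in 𝓝 x, ∀ M, ∑ a ∈ Finset.Ico n₀ M, T.N k (v y a) ≤ η := by
  obtain ⟨n₀, H⟩ := h.tail k (min η 1) (lt_min hη one_pos)
  refine ⟨n₀, ?_⟩
  filter_upwards [H] with y hy M
  refine le_trans (Finset.sum_le_sum fun a ha => ?_) ((hy M).trans (min_le_left η 1))
  exact N_le_q T ((LCc_q_le hy (Finset.mem_Ico.mp ha).1).trans (min_le_right η 1))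

theorem LC.N_bdd {v : X → ℕ → V} {x : X} (h : LC T v x) (k : ℕ) :
    ∃ B : ℝ, ∀ᶠ y in 𝓝 x, ∀ M, ∑ a ∈ Finset.range M, T.N k (v y a) ≤ B := by
  obtain ⟨n₀, H⟩ := h.N_tail k one_pos
  exact LCc_bdd (fun y a => apply_nonneg (T.N k) (v y a))
    (fun a => cont_N_comp T (h.cont a) (fun y => h.mem y a) k) H

theorem LC.uu_lower {v : X → ℕ → V} {x : X} (h : LC T v x) (j : ℕ) :
    ∃ c : ℝ, 0 < c ∧ ∀ᶠ y in 𝓝 x, ∀ n, c ≤ uu G j (v y) n := by
  obtain ⟨B, H⟩ := h.sum_bdd (j + 1)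
  refine ⟨(1 / 4) ^ (j + 3) * Real.exp (-(2 * B + 2)), by positivity, ?_⟩
  filter_upwards [H] with y hy n
  have h1 : Lam G (j + 1) (v y) n ≤ 2 * B + 2 := by
    have h2 : Lam G (j + 1) (v y) n ≤
        ∑ a ∈ Finset.range n, (2 * T.q (j + 1) (v y a) + (1 / 2) ^ a) :=
      Finset.sum_le_sum fun a _ => G.lam_upper (j + 1) a (v y a) (h.mem y a)
    rw [Finset.sum_add_distrib, ← Finset.mul_sum] at h2
    have h3 : ∑ a ∈ Finset.range n, (1 / (2 : ℝ)) ^ a ≤ 2 := sum_geometric_two_le n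
    have h4 := hy n
    linarith
  unfold uu
  exact mul_le_mul_of_nonneg_left (Real.exp_le_exp.mpr (neg_le_neg h1)) (by positivity)

private theorem LCc_dead {v : X → ℕ → V} {x : X} (h : LC T v x) (j : ℕ) :
    ∃ n₀, ∀ᶠ y in 𝓝 x, ∀ n, n₀ ≤ n → T.N j (v y n) < thr G j (v y) n / 2 := by
  obtain ⟨c, hc, H⟩ := h.uu_lower G j
  obtain ⟨n₀, H'⟩ := h.tail j (c / 4) (by positivity)
  refine ⟨n₀, ?_⟩
  filter_upwards [H, H'] with y hy hy' n hn
  have h1 : T.q j (v y n) ≤ c / 4 := LCc_q_le hy' hn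
  have h2 : c ≤ uu G j (v y) n := hy n
  have hu : 0 < uu G j (v y) n := uu_pos G j (v y) n
  have h3 : T.q j (v y n) < uu G j (v y) n / 2 := by linarith
  have h4 : T.q j (v y n) ^ (2 ^ j) < (uu G j (v y) n / 2) ^ (2 ^ j) :=
    pow_lt_pow_left₀ h3 (q_nonneg T j (v y n)) (pow_ne_zero j two_ne_zero)
  rw [N_eq_q_pow T j (v y n)]
  refine lt_of_lt_of_le h4 ?_
  unfold thr
  rw [div_pow]
  refine div_le_div_of_nonneg_left (pow_nonneg hu.le _) two_pos ?_
  have h5 : (2 : ℝ) ^ 1 ≤ 2 ^ (2 ^ j) :=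
    pow_le_pow_right₀ one_le_two (Nat.one_le_two_pow)
  rwa [pow_one] at h5

theorem LC.dead {v : X → ℕ → V} {x : X} (h : LC T v x) (k : ℕ) :
    ∃ n₀, ∀ᶠ y in 𝓝 x, ∀ n, n₀ ≤ n → ∀ j, j ≤ k → T.N j (v y n) < thr G j (v y) n / 2 := by
  choose n₀ H using fun j => LCc_dead G h j
  have h2 := (Filter.eventually_all_finset (Finset.range (k + 1))).mpr (fun j _ => H j)
  refine ⟨(Finset.range (k + 1)).sup n₀, ?_⟩
  filter_upwards [h2] with y hy n hn j hj
  have hj' : j ∈ Finset.range (k + 1) := Finset.mem_range.mpr (Nat.lt_succ_of_le hj)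
  exact hy j hj' n ((Finset.le_sup (f := n₀) hj').trans hn)

end Pool.Agent.Lib.MP_862e0f_al.EW
end

section

/-!
# Control of locally controlled families (TASK EW LOa)

`Ctl_mono`: `L` larger: `Finset.sum_le_sum_of_subset_of_nonneg` (`Ico (L' j) (n+1) ⊆ Ico (L j) (n+1)`); `C`: `a + 1 ≥ 0`.
`ctl_all`: for a locally controlled family `v` and a bounded family `g`: choose for every level `j` by `LC.N_bdd` a number
`S j` and by `LC.N_tail` (with `η = 1`) a number `L j` (axiom of choice: `choose`). For every `K` the finitely many conditions of the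
levels `j ≤ K` hold in a neighbourhood of `x` for all `n` (`Filter.eventually_all_finset`; `∑ range (n+1)` and `∑ Ico .. (n+1)` are
the cases `M = n + 1`), and `|tq g a| = (a + 1) * |g a| ≤ C * (a + 1)`.
`ctl_two`: both families with the same constants: take `max`/`Nat` maxima of the constants of `ctl_all` and `Ctl_mono`.
-/

set_option autoImplicit false

namespace Pool.Agent.Lib.MP_862e0f_al.EW

open Filter Topology Set

variable {V : Type} [NormedAddCommGroup V] [NormedSpace ℝ V] {T : Tw V}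
  {X : Type} [TopologicalSpace X]

theorem Ctl_mono {C C' : ℝ} {S S' : ℕ → ℝ} {L L' : ℕ → ℕ} {K n : ℕ} {t : ℕ → ℝ} {v : ℕ → V}
    (hC : C ≤ C') (hS : ∀ j, S j ≤ S' j) (hL : ∀ j, L j ≤ L' j)
    (h : T.Ctl C S L K n t v) : T.Ctl C' S' L' K n t v := by
  refine ⟨h.mem, fun a ha => (h.t_le a ha).trans ?_, fun j hj => (h.S_le j hj).trans (hS j),
    fun j hj => le_trans ?_ (h.L_le j hj)⟩
  · exact mul_le_mul_of_nonneg_right hC (by positivity)
  · refine Finset.sum_le_sum_of_subset_of_nonneg ?_ fun a _ _ => apply_nonneg _ _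
    intro a ha
    rw [Finset.mem_Ico] at ha ⊢
    exact ⟨(hL j).trans ha.1, ha.2⟩

theorem ctl_all {v : X → ℕ → V} {g : X → ℕ → ℝ} {x : X} (h : LC T v x)
    (hb : ∃ C : ℝ, ∀ᶠ y in 𝓝 x, ∀ a, |g y a| ≤ C) :
    ∃ (C : ℝ) (S : ℕ → ℝ) (L : ℕ → ℕ), ∀ K, ∀ᶠ y in 𝓝 x, ∀ n,
      T.Ctl C S L K n (tq (g y)) (v y) := by
  obtain ⟨C, hC⟩ := hb
  choose S hS using fun j => h.N_bdd j
  choose L hL using fun j => h.N_tail j (one_pos : (0 : ℝ) < 1)
  refine ⟨C, S, L, fun K => ?_⟩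
  have h1 : ∀ᶠ y in 𝓝 x, ∀ j ∈ Finset.range (K + 1), ∀ M, ∑ a ∈ Finset.range M, T.N j (v y a) ≤ S j :=
    (Filter.eventually_all_finset _).2 fun j _ => hS j
  have h2 : ∀ᶠ y in 𝓝 x, ∀ j ∈ Finset.range (K + 1), ∀ M,
      ∑ a ∈ Finset.Ico (L j) M, T.N j (v y a) ≤ 1 :=
    (Filter.eventually_all_finset _).2 fun j _ => hL j
  filter_upwards [hC, h1, h2] with y hy hy1 hy2 n
  refine ⟨h.mem y, fun a _ => ?_, fun j hj => hy1 j (Finset.mem_range.2 (by omega)) (n + 1),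
    fun j hj => hy2 j (Finset.mem_range.2 (by omega)) (n + 1)⟩
  have h3 : (0 : ℝ) ≤ (a : ℝ) + 1 := by positivity
  unfold tq
  rw [abs_mul, abs_of_nonneg h3, mul_comm]
  exact mul_le_mul_of_nonneg_right (hy a) h3

theorem ctl_two {v v' : X → ℕ → V} {g g' : X → ℕ → ℝ} {x : X} (h : LC T v x) (h' : LC T v' x)
    (hb : ∃ C : ℝ, ∀ᶠ y in 𝓝 x, ∀ a, |g y a| ≤ C)
    (hb' : ∃ C : ℝ, ∀ᶠ y in 𝓝 x, ∀ a, |g' y a| ≤ C) :
    ∃ (C : ℝ) (S : ℕ → ℝ) (L : ℕ → ℕ), ∀ K, ∀ᶠ y in 𝓝 x, ∀ n,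
      T.Ctl C S L K n (tq (g y)) (v y) ∧ T.Ctl C S L K n (tq (g' y)) (v' y) := by
  obtain ⟨C, S, L, h1⟩ := ctl_all h hb
  obtain ⟨C', S', L', h1'⟩ := ctl_all h' hb'
  refine ⟨max C C', fun j => max (S j) (S' j), fun j => max (L j) (L' j), fun K => ?_⟩
  filter_upwards [h1 K, h1' K] with y hy hy' n
  exact ⟨Ctl_mono (le_max_left _ _) (fun j => le_max_left _ _) (fun j => le_max_left _ _) (hy n),
    Ctl_mono (le_max_right _ _) (fun j => le_max_right _ _) (fun j => le_max_right _ _) (hy' n)⟩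

end Pool.Agent.Lib.MP_862e0f_al.EW
end
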