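import Mathlib
import Pool.Agent.Lib.MP_862e0f_al.Mg.G004
import Pool.Agent.Lib.MP_862e0f_al.Mg.G002
import Pool.Agent.Lib.MP_862e0f_al.Mg.G001
import Pool.Agent.Lib.MP_862e0f_al.Defs

section

/-!
# Köthe spaces of null sequences

`Kt X w` is the space of the sequences `x`, `x n ∈ X n`, with `‖x n‖ / w k n → 0` for all `k`, with the
seminorms `Pk k x = sup_n ‖x n‖ / w k n`.
-/

set_option autoImplicit false

namespace Pool.Agent.Lib.MP_862e0f_al.EW

open Filter Topology Set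

variable (X : ℕ → Type) [∀ n, NormedAddCommGroup (X n)] [∀ n, NormedSpace ℝ (X n)]
  (w : ℕ → ℕ → ℝ)

/-- null sequences -/
def KSub : Submodule ℝ (∀ n, X n) where
  carrier := {x | ∀ k, Tendsto (fun n => ‖x n‖ / |w k n|) atTop (𝓝 0)}
  add_mem' := fun {a b} ha hb k => by
    have h := (ha k).add (hb k)
    rw [add_zero] at h
    refine squeeze_zero (fun n => by positivity) (fun n => ?_) h
    rw [← add_div]
    exact div_le_div_of_nonneg_right (norm_add_le _ _) (abs_nonneg _)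
  zero_mem' := fun k => by
    simp only [Pi.zero_apply, norm_zero, zero_div]
    exact tendsto_const_nhds
  smul_mem' := fun c a ha k => by
    have h := (ha k).const_mul ‖c‖
    rw [mul_zero] at h
    refine h.congr fun n => ?_
    rw [Pi.smul_apply, norm_smul, mul_div_assoc]

/-- The Köthe space of null sequences. -/
def Kt : Type := ↥(KSub X w)

noncomputable instance : AddCommGroup (Kt X w) := inferInstanceAs (AddCommGroup ↥(KSub X w))
noncomputable instance : Module ℝ (Kt X w) := inferInstanceAs (Module ℝ ↥(KSub X w))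

variable {X w}

/-- the `n`-th coordinate -/
def Kt.c (v : Kt X w) (n : ℕ) : X n := (show ↥(KSub X w) from v).1 n

theorem Kt.null (v : Kt X w) (k : ℕ) : Tendsto (fun n => ‖v.c n‖ / |w k n|) atTop (𝓝 0) :=
  (show ↥(KSub X w) from v).2 k

variable (w) in
/-- an element of the Köthe space from its coordinates -/
def Kt.mk' (f : ∀ n, X n) (hf : ∀ k, Tendsto (fun n => ‖f n‖ / |w k n|) atTop (𝓝 0)) : Kt X w :=
  show ↥(KSub X w) from ⟨f, hf⟩

@[simp] theorem Kt.mk'_c (f : ∀ n, X n) (hf : ∀ k, Tendsto (fun n => ‖f n‖ / |w k n|) atTop (𝓝 0))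
    (n : ℕ) : (Kt.mk' w f hf).c n = f n := rfl

@[simp] theorem Kt.c_add (v u : Kt X w) (n : ℕ) : (v + u).c n = v.c n + u.c n := rfl
@[simp] theorem Kt.c_neg (v : Kt X w) (n : ℕ) : (-v).c n = -v.c n := rfl
@[simp] theorem Kt.c_sub (v u : Kt X w) (n : ℕ) : (v - u).c n = v.c n - u.c n := rfl
@[simp] theorem Kt.c_zero (n : ℕ) : (0 : Kt X w).c n = 0 := rfl
@[simp] theorem Kt.c_smul (r : ℝ) (v : Kt X w) (n : ℕ) : (r • v).c n = r • v.c n := rfl

theorem Kt.ext' {v u : Kt X w} (h : ∀ n, v.c n = u.c n) : v = u :=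
  Subtype.ext (funext h)

theorem Kt.bdd (v : Kt X w) (k : ℕ) : BddAbove (range fun n => ‖v.c n‖ / |w k n|) :=
  (v.null k).bddAbove_range

variable (X w) in
/-- The seminorms of the Köthe space. -/
noncomputable def Pk (k : ℕ) : Seminorm ℝ (Kt X w) :=
  Seminorm.of (fun v => ⨆ n, ‖v.c n‖ / |w k n|)
    (fun v u => ciSup_le fun n => by
      have h1 := le_ciSup (v.bdd k) n
      have h2 := le_ciSup (u.bdd k) n
      refine le_trans ?_ (add_le_add h1 h2)
      rw [Kt.c_add, ← add_div]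
      exact div_le_div_of_nonneg_right (norm_add_le _ _) (abs_nonneg _))
    (fun r v => by
      simp only [Kt.c_smul, norm_smul, mul_div_assoc]
      exact (Real.mul_iSup_of_nonneg (norm_nonneg r) _).symm)

theorem Pk_apply (k : ℕ) (v : Kt X w) : Pk X w k v = ⨆ n, ‖v.c n‖ / |w k n| := rfl

theorem le_Pk (hw : ∀ k n, 0 < w k n) (k : ℕ) (v : Kt X w) (n : ℕ) :
    ‖v.c n‖ ≤ w k n * Pk X w k v := by
  have h1 := le_ciSup (v.bdd k) n
  rw [abs_of_pos (hw k n), div_le_iff₀ (hw k n), ← Pk_apply] at h1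
  linarith

theorem Pk_le (hw : ∀ k n, 0 < w k n) (k : ℕ) (v : Kt X w) {C : ℝ}
    (h : ∀ n, ‖v.c n‖ ≤ w k n * C) : Pk X w k v ≤ C := by
  rw [Pk_apply]
  refine ciSup_le fun n => ?_
  rw [abs_of_pos (hw k n), div_le_iff₀ (hw k n)]
  linarith [h n]

noncomputable instance : TopologicalSpace (Kt X w) :=
  SeminormFamily.moduleFilterBasis (𝕜 := ℝ) (fun k => Pk X w k) |>.topology

theorem Kt.withSeminorms : WithSeminorms (𝕜 := ℝ) (fun k => Pk X w k) := ⟨rfl⟩

instance : IsTopologicalAddGroup (Kt X w) := Kt.withSeminorms.topologicalAddGroup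

instance : ContinuousSMul ℝ (Kt X w) := Kt.withSeminorms.continuousSMul

instance : LocallyConvexSpace ℝ (Kt X w) := Kt.withSeminorms.toLocallyConvexSpace

theorem continuous_Pk (k : ℕ) : Continuous (Pk X w k) := Kt.withSeminorms.continuous_seminorm k

theorem Kt.t2 (hw : ∀ k n, 0 < w k n) : T2Space (Kt X w) := by
  have : T1Space (Kt X w) := Kt.withSeminorms.T1_of_separating fun v hv => by
    by_contra hcon
    push Not at hcon
    refine hv (Kt.ext' fun n => ?_)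
    have := le_Pk hw 0 v n
    rw [hcon 0, mul_zero] at this
    simpa using this
  infer_instance

theorem eventually_Pk (x : Kt X w) (k : ℕ) {ε : ℝ} (hε : 0 < ε) :
    ∀ᶠ y in 𝓝 x, Pk X w k (y - x) < ε := by
  have h1 : Continuous fun y : Kt X w => Pk X w k (y - x) :=
    (continuous_Pk k).comp (continuous_id.sub continuous_const)
  have h2 := h1.tendsto x
  rw [sub_self, map_zero] at h2
  exact h2.eventually (gt_mem_nhds hε)

theorem mem_nhds_Kt {x : Kt X w} {U : Set (Kt X w)} (hU : U ∈ 𝓝 x) :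
    ∃ (s : Finset ℕ) (ε : ℝ), 0 < ε ∧ ∀ y, (∀ k ∈ s, Pk X w k (y - x) < ε) → y ∈ U := by
  obtain ⟨s, r, hr, hs⟩ := (Kt.withSeminorms.mem_nhds_iff x U).1 hU
  refine ⟨s, r, hr, fun y hy => hs ?_⟩
  rw [Seminorm.mem_ball]
  exact Seminorm.finset_sup_apply_lt hr hy

theorem tendsto_Kt {α : Type*} {f : Filter α} {u : α → Kt X w} {x : Kt X w}
    (h : ∀ k, ∀ ε : ℝ, 0 < ε → ∀ᶠ a in f, Pk X w k (u a - x) < ε) : Tendsto u f (𝓝 x) :=
  (Kt.withSeminorms.tendsto_nhds u x).2 h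

variable (X w) in
/-- the `n`-th coordinate as a continuous linear map -/
noncomputable def Kt.pr (hw : ∀ k n, 0 < w k n) (n : ℕ) : Kt X w →L[ℝ] X n where
  toFun v := v.c n
  map_add' v u := rfl
  map_smul' r v := rfl
  cont := by
    rw [continuous_iff_continuousAt]
    intro x
    rw [ContinuousAt, Metric.tendsto_nhds]
    intro ε hε
    have h1 : 0 < ε / w 0 n := div_pos hε (hw 0 n)
    filter_upwards [eventually_Pk x 0 h1] with y hy
    rw [dist_eq_norm]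
    have h2 := le_Pk hw 0 (y - x) n
    rw [Kt.c_sub] at h2
    have h3 : w 0 n * Pk X w 0 (y - x) < w 0 n * (ε / w 0 n) := mul_lt_mul_of_pos_left hy (hw 0 n)
    rw [mul_div_cancel₀ _ (hw 0 n).ne'] at h3
    change ‖y.c n - x.c n‖ < ε
    linarith

end Pool.Agent.Lib.MP_862e0f_al.EW
end

section

/-!
# The model space of the group
-/

set_option autoImplicit false

namespace Pool.Agent.Lib.MP_862e0f_al.EW

open Filter Topology Set

variable {V : Type} [NormedAddCommGroup V] [NormedSpace ℝ V] {T : Tw V} {W : ℕ → ℕ → ℝ}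

/-- trivial weights -/
def one : ℕ → ℕ → ℝ := fun _ _ => 1

theorem one_pos' : ∀ k n, 0 < one k n := fun _ _ => one_pos

/-- null sequences of real numbers -/
abbrev C0 : Type := Kt (fun _ => ℝ) one

variable (T W) in
/-- the Köthe space of the spaces `F n` -/
abbrev KF : Type := Kt (fun n => T.F n) W

variable (T W) in
/-- The model space. -/
abbrev MM : Type := C0 × KF T W

/-- the underlying sequence in `V` -/
noncomputable def yv (y : KF T W) (a : ℕ) : V := ((y.c a : T.F a) : V)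

theorem yv_mem (y : KF T W) (a : ℕ) : yv y a ∈ T.F a := (y.c a).2

theorem norm_yv (y : KF T W) (a : ℕ) : ‖yv y a‖ = ‖y.c a‖ := rfl

theorem le_P0 (g : C0) (a : ℕ) : |g.c a| ≤ Pk (fun _ => ℝ) one 0 g := by
  have h := le_Pk one_pos' 0 g a
  rw [Real.norm_eq_abs] at h
  simpa [one] using h

variable (T) in
/-- the first `n + 1` coordinates -/
noncomputable def histL (hW : ∀ k n, 0 < W k n) (n : ℕ) : MM T W →L[ℝ] Hist T n :=
  ((ContinuousLinearMap.pi fun a : Fin (n + 1) => Kt.pr (fun _ => ℝ) one one_pos' (a : ℕ)).comp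
      (ContinuousLinearMap.fst ℝ C0 (KF T W))).prod
    ((ContinuousLinearMap.pi fun a : Fin (n + 1) => Kt.pr (fun n => T.F n) W hW (a : ℕ)).comp
      (ContinuousLinearMap.snd ℝ C0 (KF T W)))

theorem gx_histL (hW : ∀ k n, 0 < W k n) (n : ℕ) (x : MM T W) {a : ℕ} (ha : a ≤ n) :
    gx T n (histL T hW n x) a = x.1.c a := by
  unfold gx
  rw [dif_pos (by omega)]
  rfl

theorem yx_histL (hW : ∀ k n, 0 < W k n) (n : ℕ) (x : MM T W) {a : ℕ} (ha : a ≤ n) :
    yx T n (histL T hW n x) a = yv x.2 a := by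
  unfold yx
  rw [dif_pos (by omega)]
  rfl

end Pool.Agent.Lib.MP_862e0f_al.EW
end

section

/-!
# Absorption by boxes (TASK EW Hb)

`bdd_C0`: `|g.c a| ≤ Pk 0 g` (`le_P0`) and `Pk 0 g ≤ Pk 0 g₀ + 1` near `g₀` (`eventually_Pk`, triangle inequality).
`box_absorb`: take `O = {y | Pk 0 (y.1 - x.1) < 1 ∧ Pk (k + 1) (y.2 - x.2) < 1}` (a neighbourhood: `eventually_Pk` composed with the
continuous projections); then `|y.1.c a| ≤ Pk 0 x.1 + 1` and `‖y.2.c a‖ ≤ W (k + 1) a * (Pk (k + 1) x.2 + 1)` (`le_Pk`); `n₁` any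
natural number `≥` both constants.
-/

set_option autoImplicit false

namespace Pool.Agent.Lib.MP_862e0f_al.EW

open Filter Topology Set

variable {V : Type} [NormedAddCommGroup V] [NormedSpace ℝ V] {T : Tw V} {W : ℕ → ℕ → ℝ}

theorem bdd_C0 (g₀ : C0) : ∃ C : ℝ, ∀ᶠ g in 𝓝 g₀, ∀ a, |g.c a| ≤ C := by
  refine ⟨Pk (fun _ => ℝ) one 0 g₀ + 1, ?_⟩
  filter_upwards [eventually_Pk g₀ 0 one_pos] with g hg a
  refine (le_P0 g a).trans ?_
  have h1 : g = g₀ + (g - g₀) := by abel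
  calc Pk (fun _ => ℝ) one 0 g = Pk (fun _ => ℝ) one 0 (g₀ + (g - g₀)) := by rw [← h1]
    _ ≤ Pk (fun _ => ℝ) one 0 g₀ + Pk (fun _ => ℝ) one 0 (g - g₀) := map_add_le_add _ _ _
    _ ≤ Pk (fun _ => ℝ) one 0 g₀ + 1 := by linarith

theorem cont_C0 (n : ℕ) : Continuous (fun g : C0 => g.c n) :=
  (Kt.pr (fun _ => ℝ) one one_pos' n).continuous

theorem box_absorb (hW : ∀ k n, 0 < W k n) (k : ℕ) (x : MM T W) : ∃ O ∈ 𝓝 x, ∃ n₁ : ℕ,
    ∀ n, n₁ ≤ n → ∀ y ∈ O, histL T hW n y ∈ Box T W n k := by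
  obtain ⟨q, hq⟩ := exists_nat_ge (max (Pk (fun _ => ℝ) one 0 x.1 + 1)
    (Pk (fun n => T.F n) W (k + 1) x.2 + 1))
  have h1 : ∀ᶠ y in 𝓝 x, Pk (fun _ => ℝ) one 0 (y.1 - x.1) < 1 :=
    (continuous_fst.tendsto x).eventually (eventually_Pk x.1 0 one_pos)
  have h2 : ∀ᶠ y in 𝓝 x, Pk (fun n => T.F n) W (k + 1) (y.2 - x.2) < 1 :=
    (continuous_snd.tendsto x).eventually (eventually_Pk x.2 (k + 1) one_pos)
  refine ⟨_, h1.and h2, q, fun n hn y hy => ?_⟩
  have hy1 : Pk (fun _ => ℝ) one 0 (y.1 - x.1) < 1 := hy.1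
  have hy2 : Pk (fun n => T.F n) W (k + 1) (y.2 - x.2) < 1 := hy.2
  have h7 : (q : ℝ) ≤ n := by exact_mod_cast hn
  have h8 : Pk (fun _ => ℝ) one 0 x.1 + 1 ≤ n := (le_max_left _ _).trans (hq.trans h7)
  have h9 : Pk (fun n => T.F n) W (k + 1) x.2 + 1 ≤ n := (le_max_right _ _).trans (hq.trans h7)
  constructor
  · intro a
    change |y.1.c (a : ℕ)| ≤ n
    refine (le_P0 y.1 a).trans ?_
    have h3 : y.1 = x.1 + (y.1 - x.1) := by abel
    calc Pk (fun _ => ℝ) one 0 y.1 = Pk (fun _ => ℝ) one 0 (x.1 + (y.1 - x.1)) := by rw [← h3]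
      _ ≤ Pk (fun _ => ℝ) one 0 x.1 + Pk (fun _ => ℝ) one 0 (y.1 - x.1) := map_add_le_add _ _ _
      _ ≤ n := by linarith
  · intro a
    change ‖y.2.c (a : ℕ)‖ ≤ n * W (k + 1) a
    have hpos : 0 < W (k + 1) (a : ℕ) := hW _ _
    have h3 : y.2 = x.2 + (y.2 - x.2) := by abel
    have h4 : Pk (fun n => T.F n) W (k + 1) y.2 ≤ n := by
      calc Pk (fun n => T.F n) W (k + 1) y.2 = Pk (fun n => T.F n) W (k + 1) (x.2 + (y.2 - x.2)) := by
            rw [← h3]
        _ ≤ Pk (fun n => T.F n) W (k + 1) x.2 + Pk (fun n => T.F n) W (k + 1) (y.2 - x.2) :=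
            map_add_le_add _ _ _
        _ ≤ n := by linarith
    refine (le_Pk hW (k + 1) y.2 a).trans ?_
    rw [mul_comm]
    exact mul_le_mul_of_nonneg_right h4 hpos.le

end Pool.Agent.Lib.MP_862e0f_al.EW
end

section

/-!
# Continuity of products and inverses (TASK EW LOb)

`cont_seq`: finite sum of continuous terms (`tq (g y) a • e a` is continuous at `x`). `cont_op`: `T.op` is continuous on `E n × E n`
(`T.op_smooth n`, `.continuous`), and `y ↦ (⟨f y, _⟩ : T.E n)` is continuous at `x` (`ContinuousAt` for subtypes: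
`continuousAt_induced_rng`/`Topology.IsInducing.subtypeVal`, `tendsto_subtype_rng`). `cont_iv`: the same. `cont_vop`, `cont_viv`: unfold `Pre.vop`,
`Pre.viv`, `Pre.vv`, cases on `n`, with `seq_mem`; `T.tau n` is continuous.
-/

set_option autoImplicit false

namespace Pool.Agent.Lib.MP_862e0f_al.EW

open Filter Topology Set

variable {V : Type} [NormedAddCommGroup V] [NormedSpace ℝ V] {T : Tw V}
  {X : Type} [TopologicalSpace X]

theorem cont_seq {v : X → ℕ → V} {g : X → ℕ → ℝ} {x : X}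
    (hc : ∀ n, ContinuousAt (fun y => v y n) x) (hg : ∀ n, ContinuousAt (fun y => g y n) x)
    (n : ℕ) : ContinuousAt (fun y => T.seq (tq (g y)) (v y) n) x := by
  show ContinuousAt (fun y => ∑ a ∈ Finset.range (n + 1),
    (v y a + (((a : ℝ) + 1) * g y a) • T.e a)) x
  refine tendsto_finsetSum _ (fun a _ => ?_)
  exact (hc a).add ((continuousAt_const.mul (hg a)).smul continuousAt_const)

private theorem LOb_sub {n : ℕ} {f : X → V} {x : X} (hf : ContinuousAt f x)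
    (hfE : ∀ y, f y ∈ T.E n) : ContinuousAt (fun y => (⟨f y, hfE y⟩ : T.E n)) x :=
  (Topology.IsInducing.subtypeVal.continuousAt_iff).2 hf

theorem cont_op {n : ℕ} {f g : X → V} {x : X} (hf : ContinuousAt f x) (hfE : ∀ y, f y ∈ T.E n)
    (hg : ContinuousAt g x) (hgE : ∀ y, g y ∈ T.E n) :
    ContinuousAt (fun y => T.op (f y) (g y)) x := by
  have h := (T.op_smooth n).continuous
  have hF : ContinuousAt (fun y => ((⟨f y, hfE y⟩ : T.E n), (⟨g y, hgE y⟩ : T.E n))) x :=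
    (LOb_sub hf hfE).prodMk (LOb_sub hg hgE)
  exact ContinuousAt.comp (f := fun y => ((⟨f y, hfE y⟩ : T.E n), (⟨g y, hgE y⟩ : T.E n)))
    (g := fun z : T.E n × T.E n => T.op (z.1 : V) (z.2 : V)) h.continuousAt hF

theorem cont_iv {n : ℕ} {f : X → V} {x : X} (hf : ContinuousAt f x) (hfE : ∀ y, f y ∈ T.E n) :
    ContinuousAt (fun y => T.iv (f y)) x := by
  have h := (T.iv_smooth n).continuous
  exact ContinuousAt.comp (f := fun y => (⟨f y, hfE y⟩ : T.E n))
    (g := fun z : T.E n => T.iv (z : V)) h.continuousAt (LOb_sub hf hfE)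

private theorem LOb_vv {Z : X → ℕ → V} {x : X} (h : ∀ n, ContinuousAt (fun y => Z y n) x)
    (n : ℕ) : ContinuousAt (fun y => T.vv (Z y) n) x := by
  cases n with
  | zero =>
    show ContinuousAt (fun y => Z y 0 - T.tau 0 (Z y 0) • T.e 0) x
    exact (h 0).sub ((((T.tau 0).continuous.continuousAt).comp (h 0)).smul continuousAt_const)
  | succ n =>
    show ContinuousAt (fun y => Z y (n + 1) - Z y n - T.tau (n + 1) (Z y (n + 1)) • T.e (n + 1)) x
    exact ((h (n + 1)).sub (h n)).sub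
      ((((T.tau (n + 1)).continuous.continuousAt).comp (h (n + 1))).smul continuousAt_const)

theorem cont_vop {v v' : X → ℕ → V} {g g' : X → ℕ → ℝ} {x : X}
    (hm : ∀ y n, v y n ∈ T.F n) (hc : ∀ n, ContinuousAt (fun y => v y n) x)
    (hm' : ∀ y n, v' y n ∈ T.F n) (hc' : ∀ n, ContinuousAt (fun y => v' y n) x)
    (hg : ∀ n, ContinuousAt (fun y => g y n) x) (hg' : ∀ n, ContinuousAt (fun y => g' y n) x)
    (n : ℕ) : ContinuousAt (fun y => T.vop (tq (g y)) (v y) (tq (g' y)) (v' y) n) x := by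
  refine LOb_vv (Z := fun y n => T.op (T.seq (tq (g y)) (v y) n) (T.seq (tq (g' y)) (v' y) n))
    (fun k => ?_) n
  exact cont_op (n := k) (cont_seq hc hg k) (fun y => seq_mem (hm y) k) (cont_seq hc' hg' k)
    (fun y => seq_mem (hm' y) k)

theorem cont_viv {v : X → ℕ → V} {g : X → ℕ → ℝ} {x : X}
    (hm : ∀ y n, v y n ∈ T.F n) (hc : ∀ n, ContinuousAt (fun y => v y n) x)
    (hg : ∀ n, ContinuousAt (fun y => g y n) x)
    (n : ℕ) : ContinuousAt (fun y => T.viv (tq (g y)) (v y) n) x := by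
  refine LOb_vv (Z := fun y n => T.iv (T.seq (tq (g y)) (v y) n)) (fun k => ?_) n
  exact cont_iv (n := k) (cont_seq hc hg k) (fun y => seq_mem (hm y) k)

end Pool.Agent.Lib.MP_862e0f_al.EW
end

section

/-!
# Products and inverses of locally controlled families (TASK EW LO)

`LC.vop`: `mem`: `vop_mem`; `cont`: `cont_vop`. `tail`: given `k`, `η`, let `C, S, L` be given by `ctl_two` and `K, B` by
`T.op_est k C S L`; let `K' = max k K`. By the `tail` conditions of `v`, `v'` at level `K'` with `η' = min 1 (η / (2 * (B + 1)))`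
there are `n₁, n₂` with `∑ a ∈ Ico n₁ M, q K' (v y a) ≤ η'`, `∑ a ∈ Ico n₂ M, q K' (v' y a) ≤ η'` near `x`, for all `M`. For `n ≥ n₀ = max n₁ n₂ (L K)`,
near `x`: `N k (vop n) ≤ B * (N K (v n) + N K (v' n))`, so `q k (vop n) ≤ (B + 1) * (q K' (v n) + q K' (v' n))` (`q_est`; every single
`q K' (v y n) ≤ η' ≤ 1`: `Finset.single_le_sum` with `M = n + 1`). Sum up over `Ico n₀ M`: `≤ (B + 1) * 2 * η' ≤ η`
(`Finset.sum_le_sum_of_subset_of_nonneg`, `q_nonneg`).
`LC.viv`: the same with `T.iv_est`, `ctl_all` (use `q_est` with `z = 0`: `T.N K 0 = 0`, `q_zero`).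
-/

set_option autoImplicit false

namespace Pool.Agent.Lib.MP_862e0f_al.EW

open Filter Topology Set

variable {V : Type} [NormedAddCommGroup V] [NormedSpace ℝ V] {T : Tw V}
  {X : Type} [TopologicalSpace X]

private theorem LO_single {k n₁ n : ℕ} {η : ℝ} {w : ℕ → V} (hn : n₁ ≤ n)
    (h : ∀ M, ∑ a ∈ Finset.Ico n₁ M, T.q k (w a) ≤ η) : T.q k (w n) ≤ η := by
  refine le_trans ?_ (h (n + 1))
  exact Finset.single_le_sum (f := fun a => T.q k (w a)) (fun a _ => q_nonneg T k (w a))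
    (Finset.mem_Ico.mpr ⟨hn, Nat.lt_succ_self n⟩)

private theorem LO_tail {k n₁ n₀ : ℕ} {η : ℝ} {w : ℕ → V} (hn : n₁ ≤ n₀)
    (h : ∀ M, ∑ a ∈ Finset.Ico n₁ M, T.q k (w a) ≤ η) (M : ℕ) :
    ∑ a ∈ Finset.Ico n₀ M, T.q k (w a) ≤ η := by
  refine le_trans ?_ (h M)
  exact Finset.sum_le_sum_of_subset_of_nonneg (Finset.Ico_subset_Ico_left hn)
    (fun a _ _ => q_nonneg T k (w a))

theorem LC.vop {v v' : X → ℕ → V} {g g' : X → ℕ → ℝ} {x : X} (h : LC T v x) (h' : LC T v' x)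
    (hg : ∀ n, ContinuousAt (fun y => g y n) x) (hg' : ∀ n, ContinuousAt (fun y => g' y n) x)
    (hb : ∃ C : ℝ, ∀ᶠ y in 𝓝 x, ∀ a, |g y a| ≤ C)
    (hb' : ∃ C : ℝ, ∀ᶠ y in 𝓝 x, ∀ a, |g' y a| ≤ C) :
    LC T (fun y => T.vop (tq (g y)) (v y) (tq (g' y)) (v' y)) x := by
  refine ⟨fun y n => vop_mem (h.mem y) (h'.mem y) n,
    fun n => cont_vop h.mem h.cont h'.mem h'.cont hg hg' n, ?_⟩
  intro k η hη
  obtain ⟨C, S, L, hctl⟩ := ctl_two h h' hb hb'
  obtain ⟨K, B, hB, hest⟩ := T.op_est k C S L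
  have hB1 : 0 < B + 1 := by linarith
  have hη' : 0 < min 1 (η / (2 * (B + 1))) := lt_min one_pos (by positivity)
  obtain ⟨n₁, h1⟩ := h.tail (max k K) _ hη'
  obtain ⟨n₂, h2⟩ := h'.tail (max k K) _ hη'
  refine ⟨max (max n₁ n₂) (L K), ?_⟩
  filter_upwards [hctl K, h1, h2] with y hc hy1 hy2
  intro M
  have e1 := LO_tail (le_trans (le_max_left n₁ n₂) (le_max_left (max n₁ n₂) (L K))) hy1 M
  have e2 := LO_tail (le_trans (le_max_right n₁ n₂) (le_max_left (max n₁ n₂) (L K))) hy2 M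
  have e3 : ∑ a ∈ Finset.Ico (max (max n₁ n₂) (L K)) M,
      T.q k (T.vop (tq (g y)) (v y) (tq (g' y)) (v' y) a) ≤
      ∑ a ∈ Finset.Ico (max (max n₁ n₂) (L K)) M,
        (B + 1) * (T.q (max k K) (v y a) + T.q (max k K) (v' y a)) := by
    refine Finset.sum_le_sum fun n hn => ?_
    have hn0 := (Finset.mem_Ico.mp hn).1
    have hn1 : n₁ ≤ n := le_trans (le_trans (le_max_left n₁ n₂) (le_max_left _ _)) hn0
    have hn2 : n₂ ≤ n := le_trans (le_trans (le_max_right n₁ n₂) (le_max_left _ _)) hn0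
    have hn3 : L K ≤ n := le_trans (le_max_right _ _) hn0
    have q1 : T.q (max k K) (v y n) ≤ 1 := le_trans (LO_single hn1 hy1) (min_le_left _ _)
    have q2 : T.q (max k K) (v' y n) ≤ 1 := le_trans (LO_single hn2 hy2) (min_le_left _ _)
    exact q_est T hB (hest _ _ _ _ n (hc n).1 (hc n).2 hn3) (le_max_left _ _) (le_max_right _ _)
      q1 q2
  have e4 : ∑ a ∈ Finset.Ico (max (max n₁ n₂) (L K)) M,
        (B + 1) * (T.q (max k K) (v y a) + T.q (max k K) (v' y a)) =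
      (B + 1) * (∑ a ∈ Finset.Ico (max (max n₁ n₂) (L K)) M, T.q (max k K) (v y a) +
        ∑ a ∈ Finset.Ico (max (max n₁ n₂) (L K)) M, T.q (max k K) (v' y a)) := by
    rw [← Finset.mul_sum, Finset.sum_add_distrib]
  have e5 : min 1 (η / (2 * (B + 1))) ≤ η / (2 * (B + 1)) := min_le_right _ _
  have e6 : (B + 1) * (η / (2 * (B + 1)) + η / (2 * (B + 1))) = η := by
    field_simp
    ring
  calc _ ≤ _ := e3
    _ = _ := e4
    _ ≤ (B + 1) * (η / (2 * (B + 1)) + η / (2 * (B + 1))) := by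
      apply mul_le_mul_of_nonneg_left _ hB1.le
      linarith
    _ = η := e6

theorem LC.viv {v : X → ℕ → V} {g : X → ℕ → ℝ} {x : X} (h : LC T v x)
    (hg : ∀ n, ContinuousAt (fun y => g y n) x)
    (hb : ∃ C : ℝ, ∀ᶠ y in 𝓝 x, ∀ a, |g y a| ≤ C) :
    LC T (fun y => T.viv (tq (g y)) (v y)) x := by
  refine ⟨fun y n => viv_mem (h.mem y) n, fun n => cont_viv h.mem h.cont hg n, ?_⟩
  intro k η hη
  obtain ⟨C, S, L, hctl⟩ := ctl_all h hb
  obtain ⟨K, B, hB, hest⟩ := T.iv_est k C S L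
  have hB1 : 0 < B + 1 := by linarith
  have hη' : 0 < min 1 (η / (B + 1)) := lt_min one_pos (by positivity)
  obtain ⟨n₁, h1⟩ := h.tail (max k K) _ hη'
  refine ⟨max n₁ (L K), ?_⟩
  filter_upwards [hctl K, h1] with y hc hy1
  intro M
  have e1 := LO_tail (le_max_left n₁ (L K)) hy1 M
  have e3 : ∑ a ∈ Finset.Ico (max n₁ (L K)) M, T.q k (T.viv (tq (g y)) (v y) a) ≤
      ∑ a ∈ Finset.Ico (max n₁ (L K)) M, (B + 1) * T.q (max k K) (v y a) := by
    refine Finset.sum_le_sum fun n hn => ?_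
    have hn0 := (Finset.mem_Ico.mp hn).1
    have hn1 : n₁ ≤ n := le_trans (le_max_left _ _) hn0
    have hn3 : L K ≤ n := le_trans (le_max_right _ _) hn0
    have q1 : T.q (max k K) (v y n) ≤ 1 := le_trans (LO_single hn1 hy1) (min_le_left _ _)
    have q2 : T.q (max k K) (0 : V) ≤ 1 := by rw [q_zero]; exact zero_le_one
    have e := hest _ _ n (hc n) hn3
    have e' : T.N k (T.viv (tq (g y)) (v y) n) ≤ B * (T.N K (v y n) + T.N K (0 : V)) := by
      rw [map_zero, add_zero]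
      exact e
    have := q_est T hB e' (le_max_left k K) (le_max_right k K) q1 q2
    rwa [q_zero, add_zero] at this
  have e5 : min 1 (η / (B + 1)) ≤ η / (B + 1) := min_le_right _ _
  have e6 : (B + 1) * (η / (B + 1)) = η := by
    field_simp
  calc _ ≤ _ := e3
    _ = (B + 1) * ∑ a ∈ Finset.Ico (max n₁ (L K)) M, T.q (max k K) (v y a) := by
      rw [← Finset.mul_sum]
    _ ≤ (B + 1) * (η / (B + 1)) := by
      apply mul_le_mul_of_nonneg_left _ hB1.le
      linarith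
    _ = η := e6

end Pool.Agent.Lib.MP_862e0f_al.EW
end

section

/-!
# The tail lemma (TASK EW Tl)

Put `E n = exp (-Lam (j + 1) v n / 2)`, so `0 ≤ E n ≤ 1`, and `Δ = lam (j + 1) n (v n) ≥ 0`, so
`E (n + 1) = E n * exp (-Δ / 2)` (`Finset.sum_range_succ`), `q (j + 1) (v n) ≤ 2 * Δ` (`Gear.lam_lower`).
Claim: `q j (v n) ≤ 8 * (1/2) ^ (j + 3) * (E n - E (n + 1))` for `N ≤ n < M`. Note `√(uu j v n) = (1/2) ^ (j + 3) * E n` (square both
sides) and `uu ≤ √uu` (`uu ≤ 1`).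
* `Δ ≤ 1`: `q j (v n) ≤ √(q j (v n)) * q (j + 1) (v n) ≤ √uu * (2 * Δ)` (`q_le_sqrt_mul`), and `Δ / 4 ≤ 1 - exp (-Δ / 2)`: with
  `s = Δ / 2 ∈ [0, 1/2]` we have `exp (-s) ≤ 1 - s + s ^ 2` (`Real.exp_bound'`..., or: `exp (-s) ≤ 1 / (1 + s)` because
  `1 + s ≤ exp s`, and `1 / (1 + s) ≤ 1 - s / 2` for `0 ≤ s ≤ 1`), so `1 - exp (-s) ≥ s / 2 = Δ / 4`.
* `Δ > 1`: `q j (v n) < uu ≤ √uu = (1/2) ^ (j + 3) * E n`, and `1 - exp (-Δ / 2) ≥ 1 - exp (-1/2) ≥ 1/4` (as before with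
  `s = 1/2`, monotonicity of `exp`).
Sum over `n ∈ Ico N M` (`Finset.sum_Ico_sub`-type telescoping, or induction on `M`): the sum is
`≤ 8 * (1/2) ^ (j + 3) * (E N - E M) ≤ (1/2) ^ j` if `N ≤ M`; if `M < N` the sum is empty.
-/

set_option autoImplicit false

namespace Pool.Agent.Lib.MP_862e0f_al.EW

variable {V : Type} [NormedAddCommGroup V] [NormedSpace ℝ V] {T : Tw V} (G : Gear T)

private theorem Tl_exp {s : ℝ} (h0 : 0 ≤ s) (h1 : s ≤ 1) : Real.exp (-s) ≤ 1 - s / 2 := by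
  have h2 : s + 1 ≤ Real.exp s := Real.add_one_le_exp s
  have h3 : Real.exp (-s) * (s + 1) ≤ 1 := by
    calc Real.exp (-s) * (s + 1) ≤ Real.exp (-s) * Real.exp s :=
          mul_le_mul_of_nonneg_left h2 (Real.exp_pos _).le
      _ = 1 := by rw [← Real.exp_add, neg_add_cancel, Real.exp_zero]
  have h4 : Real.exp (-s) ≤ 1 / (s + 1) := by
    rw [le_div_iff₀ (by linarith)]
    exact h3
  refine h4.trans ?_
  rw [div_le_iff₀ (by linarith)]
  nlinarith

theorem tail_sum {v : ℕ → V} (hv : ∀ a, v a ∈ T.F a) (j N M : ℕ)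
    (h : ∀ n, N ≤ n → n < M → T.q j (v n) < uu G j v n) :
    ∑ a ∈ Finset.Ico N M, T.q j (v a) ≤ (1 / 2) ^ j := by
  set E : ℕ → ℝ := fun n => Real.exp (-Lam G (j + 1) v n / 2) with hE
  have hE0 : ∀ n, 0 < E n := fun n => Real.exp_pos _
  have hE1 : ∀ n, E n ≤ 1 := by
    intro n
    have h1 : 0 ≤ Lam G (j + 1) v n := Finset.sum_nonneg fun a _ => G.lam_nonneg _ _ _
    rw [hE, Real.exp_le_one_iff]
    linarith
  have hEs : ∀ n, E (n + 1) = E n * Real.exp (-(G.lam (j + 1) n (v n) / 2)) := by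
    intro n
    simp only [hE]
    rw [← Real.exp_add]
    congr 1
    unfold Lam
    rw [Finset.sum_range_succ]
    ring
  have hsq : ∀ n, Real.sqrt (uu G j v n) = (1 / 2) ^ (j + 3) * E n := by
    intro n
    have h1 : uu G j v n = ((1 / 2) ^ (j + 3) * E n) ^ 2 := by
      unfold uu
      rw [mul_pow, hE]
      simp only
      rw [← Real.exp_nat_mul, ← pow_mul, mul_comm (j + 3) 2, pow_mul]
      congr 1
      · norm_num
      · congr 1
        push_cast
        ring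
    rw [h1, Real.sqrt_sq]
    exact mul_nonneg (by positivity) (hE0 n).le
  have hu0 : ∀ n, 0 ≤ uu G j v n := fun n => mul_nonneg (by positivity) (Real.exp_pos _).le
  have hu1 : ∀ n, uu G j v n ≤ 1 := by
    intro n
    have h1 : 0 ≤ Lam G (j + 1) v n := Finset.sum_nonneg fun a _ => G.lam_nonneg _ _ _
    have h2 : Real.exp (-Lam G (j + 1) v n) ≤ 1 := by
      rw [Real.exp_le_one_iff]
      linarith
    exact mul_le_one₀ (pow_le_one₀ (by norm_num) (by norm_num)) (Real.exp_pos _).le h2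
  have hus : ∀ n, uu G j v n ≤ Real.sqrt (uu G j v n) := by
    intro n
    exact Real.le_sqrt_of_sq_le (by nlinarith [hu0 n, hu1 n])
  have key : ∀ n, N ≤ n → n < M → T.q j (v n) ≤ 8 * (1 / 2) ^ (j + 3) * (E n - E (n + 1)) := by
    intro n hN hM
    have h1 := h n hN hM
    set Δ := G.lam (j + 1) n (v n) with hΔ
    have hΔ0 : 0 ≤ Δ := G.lam_nonneg _ _ _
    have hq : T.q (j + 1) (v n) ≤ 2 * Δ := G.lam_lower _ _ _ (hv n)
    have hc : (0 : ℝ) < (1 / 2) ^ (j + 3) := by positivity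
    have hsu : Real.sqrt (T.q j (v n)) ≤ (1 / 2) ^ (j + 3) * E n := by
      rw [← hsq]
      exact Real.sqrt_le_sqrt h1.le
    have hpos : 0 ≤ (1 / 2) ^ (j + 3) * E n := mul_nonneg hc.le (hE0 n).le
    have hgoal : 8 * (1 / 2) ^ (j + 3) * (E n - E (n + 1)) =
        ((1 / 2) ^ (j + 3) * E n) * (8 * (1 - Real.exp (-(Δ / 2)))) := by
      rw [hEs]
      ring
    rw [hgoal]
    by_cases hΔ1 : Δ ≤ 1
    · have h2 := Tl_exp (s := Δ / 2) (by linarith) (by linarith)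
      calc T.q j (v n) ≤ Real.sqrt (T.q j (v n)) * T.q (j + 1) (v n) := q_le_sqrt_mul T j _
        _ ≤ ((1 / 2) ^ (j + 3) * E n) * (2 * Δ) :=
            mul_le_mul hsu hq (q_nonneg T _ _) hpos
        _ ≤ ((1 / 2) ^ (j + 3) * E n) * (8 * (1 - Real.exp (-(Δ / 2)))) :=
            mul_le_mul_of_nonneg_left (by linarith) hpos
    · have h2 := Tl_exp (s := (1 : ℝ) / 2) (by norm_num) (by norm_num)
      have h3 : Real.exp (-(Δ / 2)) ≤ Real.exp (-(1 / 2)) := by
        rw [Real.exp_le_exp]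
        push Not at hΔ1
        linarith
      calc T.q j (v n) ≤ uu G j v n := h1.le
        _ ≤ Real.sqrt (uu G j v n) := hus n
        _ = ((1 / 2) ^ (j + 3) * E n) * 1 := by rw [hsq, mul_one]
        _ ≤ ((1 / 2) ^ (j + 3) * E n) * (8 * (1 - Real.exp (-(Δ / 2)))) :=
            mul_le_mul_of_nonneg_left (by linarith) hpos
  by_cases hNM : N ≤ M
  · have hsum : ∑ a ∈ Finset.Ico N M, T.q j (v a) ≤
        ∑ a ∈ Finset.Ico N M, 8 * (1 / 2) ^ (j + 3) * (E a - E (a + 1)) :=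
      Finset.sum_le_sum fun a ha => key a (Finset.mem_Ico.1 ha).1 (Finset.mem_Ico.1 ha).2
    have htel : ∑ a ∈ Finset.Ico N M, (E a - E (a + 1)) = E N - E M := by
      clear hsum key h
      induction M, hNM using Nat.le_induction with
      | base => simp
      | succ m hm ih =>
        rw [Finset.sum_Ico_succ_top hm, ih]
        ring
    rw [← Finset.mul_sum, htel] at hsum
    have h8 : (8 : ℝ) * (1 / 2) ^ (j + 3) = (1 / 2) ^ j := by
      rw [pow_add]
      ring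
    rw [h8] at hsum
    refine hsum.trans ?_
    have h9 : (0 : ℝ) ≤ (1 / 2) ^ j := by positivity
    have h10 : E N - E M ≤ 1 := by linarith [hE1 N, hE0 M]
    calc (1 / 2 : ℝ) ^ j * (E N - E M) ≤ (1 / 2) ^ j * 1 := mul_le_mul_of_nonneg_left h10 h9
      _ = (1 / 2) ^ j := mul_one _
  · rw [Finset.Ico_eq_empty_of_le (by omega), Finset.sum_empty]
    positivity

end Pool.Agent.Lib.MP_862e0f_al.EW
end

section

/-!
# Finitely many functionals which almost compute a norm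
-/

set_option autoImplicit false

namespace Pool.Agent.Lib.MP_862e0f_al.EW

open Filter Topology Set

theorem PF_hb {V : Type} [NormedAddCommGroup V] [NormedSpace ℝ V] (E : Submodule ℝ V)
    [FiniteDimensional ℝ E] (N : Seminorm ℝ V) (x₀ : V) (hx : x₀ ∈ E) (hx0 : x₀ ≠ 0) :
    ∃ g : V →L[ℝ] ℝ, g x₀ = N x₀ ∧ ∀ x ∈ E, |g x| ≤ N x := by
  obtain ⟨g, hg, hgN⟩ := exists_extension_of_le_sublinear
    (LinearPMap.mkSpanSingleton x₀ (N x₀) hx0) N
    (fun c hc x => by rw [map_smul_eq_mul, Real.norm_of_nonneg hc.le])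
    (fun x y => map_add_le_add N x y) (by
      rintro ⟨x, hx⟩
      obtain ⟨c, rfl⟩ := Submodule.mem_span_singleton.mp hx
      have h0 : (LinearPMap.mkSpanSingleton x₀ (N x₀) hx0 : V →ₗ.[ℝ] ℝ) ⟨c • x₀, hx⟩ =
          c • N x₀ := LinearPMap.mkSpanSingleton'_apply _ _ _ _ _
      show (LinearPMap.mkSpanSingleton x₀ (N x₀) hx0 : V →ₗ.[ℝ] ℝ) ⟨c • x₀, hx⟩ ≤ N (c • x₀)
      rw [h0]
      simp only [smul_eq_mul, map_smul_eq_mul]
      exact mul_le_mul_of_nonneg_right (le_abs_self c) (apply_nonneg N x₀))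
  obtain ⟨P, hP⟩ := Submodule.ClosedComplemented.of_finiteDimensional (𝕜 := ℝ) E
  have hgx : g x₀ = N x₀ := by
    have h1 := hg ⟨x₀, Submodule.mem_span_singleton_self x₀⟩
    rw [LinearPMap.mkSpanSingleton_apply] at h1
    exact h1
  have key : ∀ x ∈ E, (((g ∘ₗ E.subtype).toContinuousLinearMap ∘L P : V →L[ℝ] ℝ)) x = g x := by
    intro x hx
    have := hP ⟨x, hx⟩
    simp only at this
    simp [this]
  refine ⟨(g ∘ₗ E.subtype).toContinuousLinearMap ∘L P, ?_, ?_⟩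
  · rw [key x₀ hx, hgx]
  · intro x hx
    rw [key x hx, abs_le]
    constructor
    · have h2 := hgN (-x)
      rw [map_neg, map_neg_eq_map] at h2
      linarith
    · exact hgN x

theorem PF_cont {V : Type} [NormedAddCommGroup V] [NormedSpace ℝ V] (E : Submodule ℝ V)
    [FiniteDimensional ℝ E] (N : Seminorm ℝ V) : Continuous (fun x : E => N (x : V)) := by
  have h := ((N.comp E.subtype).convexOn).continuousOn isOpen_univ
  rw [← continuousOn_univ]
  exact h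

theorem exists_functionals {V : Type} [NormedAddCommGroup V] [NormedSpace ℝ V] (E : Submodule ℝ V)
    [FiniteDimensional ℝ E] (N : Seminorm ℝ V) (hN : ∀ x ∈ E, N x = 0 → x = 0) (c : ℝ)
    (hc : c < 1) : ∃ s : Finset (V →L[ℝ] ℝ), (∀ φ ∈ s, ∀ x ∈ E, |φ x| ≤ N x) ∧
      ∀ x ∈ E, x ≠ 0 → ∃ φ ∈ s, c * N x < |φ x| := by
  classical
  have hch : ∀ x : E, ∃ g : V →L[ℝ] ℝ, (x ≠ 0 → g x = N x) ∧ ∀ y ∈ E, |g y| ≤ N y := by
    intro x
    by_cases hx : x = 0
    · exact ⟨0, fun h => absurd hx h, fun y _ => by simp⟩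
    · obtain ⟨g, h1, h2⟩ := PF_hb E N x x.2 (by simpa using hx)
      exact ⟨g, fun _ => h1, h2⟩
  choose g hg1 hg2 using hch
  have hopen : ∀ x : E, IsOpen {y : E | c * N (y : V) < |g x (y : V)|} := by
    intro x
    refine isOpen_lt (continuous_const.mul (PF_cont E N)) ?_
    exact ((g x).continuous.comp continuous_subtype_val).abs
  have hcpt : IsCompact (Metric.sphere (0 : E) 1) := isCompact_sphere 0 1
  obtain ⟨t, ht⟩ := hcpt.elim_finite_subcover (fun x : Metric.sphere (0 : E) 1 =>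
      {y : E | c * N (y : V) < |g x (y : V)|}) (fun x => hopen x) (by
    intro x hx
    have hx0 : x ≠ 0 := by
      rintro rfl
      simp at hx
    refine Set.mem_iUnion.mpr ⟨⟨x, hx⟩, ?_⟩
    show c * N (x : V) < |g x (x : V)|
    have hpos : 0 < N (x : V) := by
      refine lt_of_le_of_ne (apply_nonneg N _) ?_
      intro h
      exact hx0 (by simpa using hN x x.2 h.symm)
    rw [hg1 x hx0, abs_of_pos hpos]
    nlinarith)
  refine ⟨t.image (fun x : Metric.sphere (0 : E) 1 => g (x : E)), ?_, ?_⟩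
  · intro φ hφ x hx
    obtain ⟨y, _, rfl⟩ := Finset.mem_image.mp hφ
    exact hg2 _ x hx
  · intro x hx hx0
    have hne : (⟨x, hx⟩ : E) ≠ 0 := by
      intro h
      exact hx0 (congrArg Subtype.val h)
    have hnp : 0 < ‖(⟨x, hx⟩ : E)‖ := norm_pos_iff.mpr hne
    have hmem : (‖(⟨x, hx⟩ : E)‖⁻¹ • (⟨x, hx⟩ : E)) ∈ Metric.sphere (0 : E) 1 := by
      rw [mem_sphere_zero_iff_norm, norm_smul, norm_inv, norm_norm]
      exact inv_mul_cancel₀ hnp.ne'
    obtain ⟨y, hy, hy2⟩ := Set.mem_iUnion₂.mp (ht hmem)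
    refine ⟨g y, Finset.mem_image.mpr ⟨y, hy, rfl⟩, ?_⟩
    have hy3 : c * N (‖(⟨x, hx⟩ : E)‖⁻¹ • x) < |g y (‖(⟨x, hx⟩ : E)‖⁻¹ • x)| := hy2
    rw [map_smul_eq_mul, map_smul, smul_eq_mul, abs_mul, Real.norm_eq_abs] at hy3
    have hip : 0 < |‖(⟨x, hx⟩ : E)‖⁻¹| := abs_pos.mpr (inv_pos.mpr hnp).ne'
    have : |‖(⟨x, hx⟩ : E)‖⁻¹| * (c * N x) < |‖(⟨x, hx⟩ : E)‖⁻¹| * |g y x| := by
      linarith [hy3]
    exact lt_of_mul_lt_mul_left this hip.le

end Pool.Agent.Lib.MP_862e0f_al.EW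
end

section

/-!
# Smooth substitutes of the costs (TASK EW Lm)

By `exists_functionals` (with `c = 1/2`) there is a finite set `s` of functionals with `|φ x| ≤ N x` for `φ ∈ s`, `x ∈ E`, and
for every nonzero `x ∈ E` some `φ ∈ s` with `N x / 2 < |φ x|`. Let `m = s.card` and choose `p ≥ 1` with `m ≤ 2 ^ (2 ^ p)`. Put
`ψ x = ∑ φ ∈ s, φ x ^ (2 ^ p)` (smooth, `≥ 0`), `η' = η ^ (2 ^ (j + p)) > 0`, `lam x = rt (j + p) (ψ x + η')`.
* `lam` is smooth: `rt k ∘ f` is smooth if `f` is smooth and everywhere positive (induction on `k`, `ContDiff.sqrt`).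
* `N x / 2 ≤ rt p (ψ x)` for `x ∈ E`: `(N x / 2) ^ (2 ^ p) ≤ ψ x`, `rt_of_pow`, `rt_mono`. So
  `lam x ≥ rt j (rt p (ψ x)) ≥ rt j (1/2 * N x) = rt j (1/2) * rt j (N x) ≥ 1/2 * rt j (N x)` (`rt_add`, `rt_mul`, `le_rt`).
* `ψ x ≤ m * N x ^ (2 ^ p)`, so `lam x ≤ rt (j + p) (m * N x ^ (2 ^ p)) + rt (j + p) η' =
  rt (j + p) m * rt j (N x) + η`, and `rt (j + p) m ≤ 2`: `rt p m ≤ 2` (`m ≤ 2 ^ 2 ^ p`), `rt j 2 ≤ 2` (`rt_mono`; e.g.
  `2 ≤ 2 ^ 2 ^ j`).
-/

set_option autoImplicit false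

namespace Pool.Agent.Lib.MP_862e0f_al.EW

open scoped ContDiff

private theorem Lm_smooth {V : Type} [NormedAddCommGroup V] [NormedSpace ℝ V] (k : ℕ) :
    ∀ f : V → ℝ, ContDiff ℝ ∞ f → (∀ x, 0 < f x) → ContDiff ℝ ∞ (fun x => rt k (f x)) := by
  induction k with
  | zero =>
    intro f hf _
    exact hf
  | succ k ih =>
    intro f hf hpos
    have h := ih (fun x => Real.sqrt (f x)) (hf.sqrt (fun x => (hpos x).ne'))
      (fun x => Real.sqrt_pos.2 (hpos x))
    have e : (fun x => rt (k + 1) (f x)) = fun x => rt k (Real.sqrt (f x)) := by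
      funext x
      exact rt_succ' k (f x)
    rw [e]
    exact h

theorem exists_lam {V : Type} [NormedAddCommGroup V] [NormedSpace ℝ V] (E : Submodule ℝ V)
    [FiniteDimensional ℝ E] (N : Seminorm ℝ V) (hN : ∀ x ∈ E, N x = 0 → x = 0) (j : ℕ) (η : ℝ)
    (hη : 0 < η) : ∃ lam : V → ℝ, ContDiff ℝ ∞ lam ∧ (∀ x, 0 ≤ lam x) ∧
      (∀ x ∈ E, rt j (N x) ≤ 2 * lam x) ∧ ∀ x ∈ E, lam x ≤ 2 * rt j (N x) + η := by
  obtain ⟨s, hs1, hs2⟩ := exists_functionals E N hN (1 / 2) (by norm_num)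
  obtain ⟨p, hp1, hp⟩ : ∃ p : ℕ, 1 ≤ p ∧ (s.card : ℝ) ≤ 2 ^ (2 ^ p) := by
    refine ⟨s.card + 1, by omega, ?_⟩
    have h1 : s.card < 2 ^ s.card := Nat.lt_two_pow_self
    have h2 : s.card ≤ 2 ^ (s.card + 1) := by
      have := Nat.pow_le_pow_right (n := 2) (by norm_num) (Nat.le_succ s.card)
      exact h1.le.trans this
    have h3 : s.card ≤ 2 ^ (2 ^ (s.card + 1)) :=
      h1.le.trans (Nat.pow_le_pow_right (by norm_num) h2)
    exact_mod_cast h3
  have hev : Even (2 ^ p) := (Nat.even_pow' (by omega)).2 even_two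
  have hψ0 : ∀ x : V, 0 ≤ ∑ φ ∈ s, (φ x) ^ (2 ^ p) := fun x =>
    Finset.sum_nonneg (fun φ _ => hev.pow_nonneg _)
  have hη' : 0 < η ^ (2 ^ (j + p)) := pow_pos hη _
  have hpos : ∀ x : V, 0 < ∑ φ ∈ s, (φ x) ^ (2 ^ p) + η ^ (2 ^ (j + p)) := fun x =>
    add_pos_of_nonneg_of_pos (hψ0 x) hη'
  refine ⟨fun x => rt (j + p) (∑ φ ∈ s, (φ x) ^ (2 ^ p) + η ^ (2 ^ (j + p))), ?_, ?_, ?_, ?_⟩
  · refine Lm_smooth (j + p) _ ?_ hpos
    refine ContDiff.add ?_ contDiff_const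
    exact ContDiff.sum (fun φ _ => φ.contDiff.pow _)
  · intro x
    exact rt_nonneg (hpos x).le
  · intro x hx
    show rt j (N x) ≤ 2 * rt (j + p) (∑ φ ∈ s, (φ x) ^ (2 ^ p) + η ^ (2 ^ (j + p)))
    by_cases hx0 : x = 0
    · subst hx0
      rw [map_zero, rt_at_zero]
      exact mul_nonneg (by norm_num) (rt_nonneg (hpos 0).le)
    · obtain ⟨φ, hφ, hlt⟩ := hs2 x hx hx0
      have hN0 : 0 ≤ N x := apply_nonneg N x
      have h1 : (1 / 2 * N x) ^ (2 ^ p) ≤ ∑ φ ∈ s, (φ x) ^ (2 ^ p) := by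
        calc (1 / 2 * N x) ^ (2 ^ p) ≤ |φ x| ^ (2 ^ p) :=
              pow_le_pow_left₀ (by positivity) hlt.le _
          _ = (φ x) ^ (2 ^ p) := hev.pow_abs _
          _ ≤ ∑ φ ∈ s, (φ x) ^ (2 ^ p) :=
              Finset.single_le_sum (f := fun φ : V →L[ℝ] ℝ => (φ x) ^ (2 ^ p))
                (fun ψ _ => hev.pow_nonneg _) hφ
      have h2 : rt j (1 / 2 * N x) ≤
          rt (j + p) (∑ φ ∈ s, (φ x) ^ (2 ^ p) + η ^ (2 ^ (j + p))) := by
        rw [rt_add]
        refine rt_mono ?_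
        calc 1 / 2 * N x = rt p ((1 / 2 * N x) ^ (2 ^ p)) :=
              (rt_of_pow (by positivity)).symm
          _ ≤ _ := rt_mono (h1.trans (le_add_of_nonneg_right hη'.le))
      have h3 : rt j (1 / 2 * N x) = rt j (1 / 2) * rt j (N x) := rt_mul (by norm_num) hN0
      have h4 : (1 / 2 : ℝ) ≤ rt j (1 / 2) := le_rt (by norm_num) (by norm_num)
      have h5 : 0 ≤ rt j (N x) := rt_nonneg hN0
      have h6 : 1 / 2 * rt j (N x) ≤ rt j (1 / 2) * rt j (N x) := mul_le_mul_of_nonneg_right h4 h5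
      linarith
  · intro x hx
    show rt (j + p) (∑ φ ∈ s, (φ x) ^ (2 ^ p) + η ^ (2 ^ (j + p))) ≤ 2 * rt j (N x) + η
    have hN0 : 0 ≤ N x := apply_nonneg N x
    have h1 : ∑ φ ∈ s, (φ x) ^ (2 ^ p) ≤ (s.card : ℝ) * N x ^ (2 ^ p) := by
      rw [← nsmul_eq_mul]
      refine Finset.sum_le_card_nsmul s _ _ (fun φ hφ => ?_)
      rw [← hev.pow_abs]
      exact pow_le_pow_left₀ (abs_nonneg _) (hs1 φ hφ x hx) _
    have hc : 0 ≤ (s.card : ℝ) := Nat.cast_nonneg _
    have hc2 : rt (j + p) (s.card : ℝ) ≤ 2 := by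
      have h2 : (2 : ℝ) ^ (2 ^ p) ≤ 2 ^ (2 ^ (j + p)) :=
        pow_le_pow_right₀ (by norm_num) (Nat.pow_le_pow_right (by norm_num) (by omega))
      calc rt (j + p) (s.card : ℝ) ≤ rt (j + p) (2 ^ (2 ^ (j + p))) := rt_mono (hp.trans h2)
        _ = 2 := rt_of_pow (by norm_num)
    have h5 : 0 ≤ rt j (N x) := rt_nonneg hN0
    calc rt (j + p) (∑ φ ∈ s, (φ x) ^ (2 ^ p) + η ^ (2 ^ (j + p)))
        ≤ rt (j + p) (∑ φ ∈ s, (φ x) ^ (2 ^ p)) + rt (j + p) (η ^ (2 ^ (j + p))) :=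
          rt_add_le (hψ0 x) hη'.le
      _ ≤ rt (j + p) ((s.card : ℝ) * N x ^ (2 ^ p)) + η :=
          add_le_add (rt_mono h1) (rt_of_pow hη.le).le
      _ = rt (j + p) (s.card : ℝ) * rt (j + p) (N x ^ (2 ^ p)) + η := by
          rw [rt_mul hc (by positivity)]
      _ = rt (j + p) (s.card : ℝ) * rt j (N x) + η := by
          rw [rt_add j p (N x ^ (2 ^ p)), rt_of_pow hN0]
      _ ≤ 2 * rt j (N x) + η := by
          have := mul_le_mul_of_nonneg_right hc2 h5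
          linarith

end Pool.Agent.Lib.MP_862e0f_al.EW
end

section

/-!
# Existence of the gear (TASK EW GE)

`N_def`: `‖x‖ ≤ T.N 0 x ≤ T.N j x = 0`. `exists_D`: the seminorm `T.N n` is continuous on the finite-dimensional space `T.F n`
(`PF_cont`), so it is bounded on the unit sphere, i.e. `T.N n x ≤ D * ‖x‖`. `exists_gear`: for `j n` apply `exists_lam` with
`E = T.F n`, `N = T.N j`, `η = (1/2) ^ n`, and `EV.exists_pen` with `a = 1/2`, `b = 1`; in the ray condition take the point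
`0` and the direction `x`.
-/

set_option autoImplicit false

namespace Pool.Agent.Lib.MP_862e0f_al.EW

theorem N_def {V : Type} [NormedAddCommGroup V] [NormedSpace ℝ V] (T : Tw V) {j : ℕ} {x : V}
    (h : T.N j x = 0) : x = 0 := by
  have h1 := N_mono' T (Nat.zero_le j) x
  have h2 := T.norm_le x
  have h3 : ‖x‖ ≤ 0 := by linarith
  exact norm_le_zero_iff.mp h3

theorem exists_D {V : Type} [NormedAddCommGroup V] [NormedSpace ℝ V] (T : Tw V) (n : ℕ) :
    ∃ D : ℝ, 0 < D ∧ ∀ x ∈ T.F n, T.N n x ≤ D * ‖x‖ := by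
  have hc : Continuous (fun x : T.F n => T.N n (x : V)) := PF_cont (T.F n) (T.N n)
  obtain ⟨M, hM⟩ := (isCompact_sphere (0 : T.F n) 1).bddAbove_image hc.continuousOn
  refine ⟨max M 1, lt_max_of_lt_right one_pos, ?_⟩
  intro x hx
  by_cases h0 : x = 0
  · subst h0; simp
  have hn : 0 < ‖x‖ := norm_pos_iff.mpr h0
  set y : T.F n := ‖x‖⁻¹ • ⟨x, hx⟩ with hy
  have hy1 : y ∈ Metric.sphere (0 : T.F n) 1 := by
    rw [mem_sphere_zero_iff_norm, hy, norm_smul, norm_inv, norm_norm]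
    exact inv_mul_cancel₀ hn.ne'
  have h1 : T.N n (y : V) ≤ M := hM ⟨y, hy1, rfl⟩
  have h2 : T.N n (y : V) = ‖x‖⁻¹ * T.N n x := by
    rw [hy]
    show T.N n (‖x‖⁻¹ • x) = _
    rw [map_smul_eq_mul, norm_inv, norm_norm]
  rw [h2] at h1
  have h3 : T.N n x ≤ M * ‖x‖ := by
    have := mul_le_mul_of_nonneg_right h1 hn.le
    rwa [mul_comm (‖x‖⁻¹), mul_assoc, inv_mul_cancel₀ hn.ne', mul_one] at this
  exact h3.trans (mul_le_mul_of_nonneg_right (le_max_left _ _) hn.le)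

theorem exists_gear {V : Type} [NormedAddCommGroup V] [NormedSpace ℝ V] (T : Tw V) :
    Nonempty (Gear T) := by
  have h1 := fun j n : ℕ => exists_lam (T.F n) (T.N j) (fun x _ h => N_def T h) j ((1 / 2) ^ n)
    (by positivity)
  have h2 := fun j n : ℕ => EV.exists_pen (T.F n) (T.N j) (fun x _ h => N_def T h)
    (1 / 2) 1 (by norm_num) (by norm_num)
  choose lam l1 l2 l3 l4 using h1
  choose pen p1 p2 p3 p4 p5 p6 using h2
  choose D hD hD' using exists_D T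
  exact ⟨{
    lam := lam
    pen := pen
    D := D
    lam_smooth := l1
    lam_nonneg := l2
    lam_lower := l3
    lam_upper := l4
    pen_smooth := p1
    pen_nonneg := p2
    pen_zero := fun j n x hx h => p4 j n x hx h
    pen_one := fun j n x hx h => p5 j n x hx h
    pen_ray := fun j n x hx => by
      have := p6 j n 0 (T.F n).zero_mem x hx (by simp)
      simpa using this
    D_pos := hD
    D_spec := hD' }⟩

end Pool.Agent.Lib.MP_862e0f_al.EW
end

section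

/-!
# A smoothness criterion for maps into a Köthe space (TASK EW BB)

`f : 𝔼 → Kt X w` is given by its coordinates `(f x).c n = Φ n (π n x)`, where `π n : 𝔼 → S n` is
continuous linear and `Φ n : S n → X n` is smooth. If locally, for all large `n`, `Φ n` agrees with a smooth map `Φ'` whose
iterated tangent maps of order `≤ n - m` are bounded by `w k n / (n + 1)` on the box `Bx n k`, then
`f` is smooth in the sense of Bastiani. (Compare with `EV/BB.lean`, whose proof can be adapted; the only difference is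
that there the coordinates vanish for large `n`, and here `df (x, v)` must be shown to be in `Kt X w`.)

Proof. Show `BastianiCk l 𝔼 (Kt X w) f univ` by induction on `l`, for all
`𝔼, S, π, Φ, Bx, m, f` at the same time.
* Continuity of `f` at `x`: by `tendsto_Kt` fix `k`, `ε`. Take `O, n₁` from `hyp k x` and from
  `hBx k x`; for `n ≥ n₂` with `n₂ ≥ n₁, m` and `2 / (n₂ + 1) < ε` and `y ∈ O`:
  `‖(f y).c n - (f x).c n‖ ≤ ‖Φ' (π n y)‖ + ‖Φ' (π n x)‖ ≤ 2 w k n / (n + 1)` (the first component of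
  `TBd` for `π n y, π n x ∈ Bx n k ∩ Q`); for the finitely many `n < n₂` use the continuity of
  `Φ n ∘ π n`. Conclude with `Pk_le` (`Pk k v ≤ C` with `C < ε`).
* Case `l + 1`: `df (x, v)` is the element with the coordinates `fderiv ℝ (Φ n) (π n x) (π n v)`. It is in
  `Kt X w`: for `k` take `n₁` from `hyp k x`, `hBx k x`, `hBx k v`; for `n ≥ n₁, m + 1` the derivative of `Φ n` at `π n x ∈ Q` is
  the one of `Φ'` (`Q` open), and the `TBd` condition (order `n - m ≥ 1`) bounds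
  `‖fderiv ℝ Φ' (π n x) (π n v)‖` by `w k n / (n + 1)`, because `(π n x, π n v) ∈ Bx n k ×ˢ Bx n k`. So `‖..‖ / |w k n| ≤ 1 / (n + 1) → 0`.
  This `df : 𝔼 × 𝔼 → Kt X w` has the same form, with `S n × S n`, `(π n).prodMap (π n)`, the tangent map of `Φ n`,
  `Bx n k ×ˢ Bx n k`, `m + 1`: for `(x, v)` and `k` take `Q ×ˢ univ` and the tangent map of
  `Φ'` (`Φ n` and `Φ'` agree on the open set `Q`, so do the derivatives there); for
  `n ≥ m + 1` the condition `TBd (n - m)` contains `TBd (n - (m + 1))` of the tangent map on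
  `Bx n k ×ˢ Bx n k`.
* The directional derivative: `t⁻¹ • (f (x + t • v) - f x) → df (x, v)`: fix `k`, `ε`. Take `O` from
  `hyp k x` and `hBx k x`; for small `t` all `x + s • v`, `|s| ≤ |t|`, are in `O` (`O` contains a
  neighbourhood of `x`; the map `s ↦ x + s • v` is continuous at `0`), and `π n v ∈ Bx n k` for large
  `n` (from `hBx k v`). For `n` large (`n ≥ m + 1`) the mean value inequality on the segment gives
  `‖t⁻¹ • (Φ n (π n (x + t v)) - Φ n (π n x))‖ ≤ w k n / (n + 1)` because the derivative of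
  `s ↦ Φ n (π n (x + s v))` is `fderiv ℝ Φ' (π n (x + s v)) (π n v)` (points of the box), and
  `‖(df (x, v)).c n‖ ≤ w k n / (n + 1)` as well. The finitely many other coordinates converge because
  `Φ n` is differentiable.
-/

set_option autoImplicit false

namespace Pool.Agent.Lib.MP_862e0f_al.EW

open Filter Topology Set
open scoped ContDiff

private theorem BB_fst {F : Type} [NormedAddCommGroup F] [NormedSpace ℝ F] (l : ℕ) (S : Type)
    [NormedAddCommGroup S] [NormedSpace ℝ S] (Φ : S → F) (B : Set S) (C : ℝ)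
    (h : EV.TBd l S Φ B C) : ∀ z ∈ B, ‖Φ z‖ ≤ C := by
  cases l with
  | zero => exact h
  | succ l => exact h.1

private theorem BB_snd {F : Type} [NormedAddCommGroup F] [NormedSpace ℝ F] (l : ℕ) (S : Type)
    [NormedAddCommGroup S] [NormedSpace ℝ S] (Φ : S → F) (B : Set S) (C : ℝ)
    (h : EV.TBd (l + 1) S Φ B C) : EV.TBd l (S × S) (fun z => fderiv ℝ Φ z.1 z.2) (B ×ˢ B) C := h.2

/-- continuity -/
private theorem BB_cont (X : ℕ → Type) [∀ n, NormedAddCommGroup (X n)]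
    [∀ n, NormedSpace ℝ (X n)] (W : ℕ → ℕ → ℝ) (hW : ∀ k n, 0 < W k n) (m : ℕ)
    (𝔼 : Type) [AddCommGroup 𝔼] [Module ℝ 𝔼] [TopologicalSpace 𝔼] [IsTopologicalAddGroup 𝔼]
    [ContinuousSMul ℝ 𝔼] (S : ℕ → Type) [∀ n, NormedAddCommGroup (S n)]
    [∀ n, NormedSpace ℝ (S n)] (π : ∀ n, 𝔼 →L[ℝ] S n) (Φ : ∀ n, S n → X n)
    (hΦ : ∀ n, ContDiff ℝ ∞ (Φ n)) (Bx : ∀ n : ℕ, ℕ → Set (S n))
    (hBx : ∀ k x, ∃ O ∈ 𝓝 x, ∃ n₁, ∀ n, n₁ ≤ n → ∀ y ∈ O, π n y ∈ Bx n k)
    (hyp : ∀ k x, ∃ O ∈ 𝓝 x, ∃ n₁, ∀ n, n₁ ≤ n → ∃ (Φ' : S n → X n) (Q : Set (S n)),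
      ContDiff ℝ ∞ Φ' ∧ IsOpen Q ∧ (∀ y ∈ O, π n y ∈ Q) ∧ EqOn (Φ n) Φ' Q ∧
        EV.TBd (n - m) (S n) Φ' (Bx n k) (W k n / (n + 1)))
    (f : 𝔼 → Kt X W) (hf : ∀ x n, (f x).c n = Φ n (π n x)) : Continuous f := by
  rw [continuous_iff_continuousAt]
  intro x
  refine tendsto_Kt fun k ε hε => ?_
  obtain ⟨O, hO, n₁, h1⟩ := hyp k x
  obtain ⟨O', hO', n₁', h1'⟩ := hBx k x
  obtain ⟨N, hN⟩ := exists_nat_gt (4 / ε)
  have hN1 : ∀ n : ℕ, N ≤ n → 2 / ((n : ℝ) + 1) ≤ ε / 2 := by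
    intro n hn
    have h2 : (N : ℝ) ≤ n := by exact_mod_cast hn
    have h3 : 4 / ε < (n : ℝ) + 1 := by linarith
    rw [div_lt_iff₀ hε] at h3
    rw [div_le_div_iff₀ (by positivity) (by norm_num)]
    nlinarith
  have hb : ∀ n, max N (max n₁ n₁') ≤ n → ∀ y ∈ O ∩ O', ‖Φ n (π n y)‖ ≤ W k n / (n + 1) := by
    intro n hn y hy
    obtain ⟨Φ', Q, -, -, h4, h5, h6⟩ :=
      h1 n ((le_max_left _ _).trans ((le_max_right _ _).trans hn))
    rw [h5 (h4 y hy.1)]
    exact BB_fst _ _ _ _ _ h6 _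
      (h1' n ((le_max_right _ _).trans ((le_max_right _ _).trans hn)) y hy.2)
  have hx : x ∈ O ∩ O' := ⟨mem_of_mem_nhds hO, mem_of_mem_nhds hO'⟩
  have hfin : ∀ᶠ y in 𝓝 x, ∀ n ∈ Finset.range (max N (max n₁ n₁')),
      ‖Φ n (π n y) - Φ n (π n x)‖ < W k n * (ε / 2) := by
    rw [Filter.eventually_all_finset]
    intro n _
    have h7 : Continuous fun y : 𝔼 => ‖Φ n (π n y) - Φ n (π n x)‖ :=
      (((hΦ n).continuous.comp (π n).continuous).sub continuous_const).norm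
    have h8 := h7.tendsto x
    simp only [sub_self, norm_zero] at h8
    exact h8.eventually (gt_mem_nhds (mul_pos (hW k n) (by linarith)))
  filter_upwards [hfin, Filter.inter_mem hO hO'] with y hy1 hy2
  have h9 : Pk X W k (f y - f x) ≤ ε / 2 := by
    refine Pk_le hW k _ fun n => ?_
    rw [Kt.c_sub, hf, hf]
    rcases lt_or_ge n (max N (max n₁ n₁')) with hn | hn
    · exact (hy1 n (Finset.mem_range.2 hn)).le
    · have h10 := hb n hn y hy2
      have h11 := hb n hn x hx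
      have h12 : W k n * (2 / ((n : ℝ) + 1)) ≤ W k n * (ε / 2) :=
        mul_le_mul_of_nonneg_left (hN1 n ((le_max_left _ _).trans hn)) (hW k n).le
      refine (norm_sub_le _ _).trans ?_
      have h13 : W k n * (2 / ((n : ℝ) + 1)) = W k n / (n + 1) + W k n / (n + 1) := by ring
      linarith
  linarith

/-- directional derivatives -/
private theorem BB_deriv (X : ℕ → Type) [∀ n, NormedAddCommGroup (X n)]
    [∀ n, NormedSpace ℝ (X n)] (W : ℕ → ℕ → ℝ) (hW : ∀ k n, 0 < W k n) (m : ℕ)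
    (𝔼 : Type) [AddCommGroup 𝔼] [Module ℝ 𝔼] [TopologicalSpace 𝔼] [IsTopologicalAddGroup 𝔼]
    [ContinuousSMul ℝ 𝔼] (S : ℕ → Type) [∀ n, NormedAddCommGroup (S n)]
    [∀ n, NormedSpace ℝ (S n)] (π : ∀ n, 𝔼 →L[ℝ] S n) (Φ : ∀ n, S n → X n)
    (hΦ : ∀ n, ContDiff ℝ ∞ (Φ n)) (Bx : ∀ n : ℕ, ℕ → Set (S n))
    (hBx : ∀ k x, ∃ O ∈ 𝓝 x, ∃ n₁, ∀ n, n₁ ≤ n → ∀ y ∈ O, π n y ∈ Bx n k)
    (hyp : ∀ k x, ∃ O ∈ 𝓝 x, ∃ n₁, ∀ n, n₁ ≤ n → ∃ (Φ' : S n → X n) (Q : Set (S n)),
      ContDiff ℝ ∞ Φ' ∧ IsOpen Q ∧ (∀ y ∈ O, π n y ∈ Q) ∧ EqOn (Φ n) Φ' Q ∧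
        EV.TBd (n - m) (S n) Φ' (Bx n k) (W k n / (n + 1)))
    (f : 𝔼 → Kt X W) (hf : ∀ x n, (f x).c n = Φ n (π n x)) (x v : 𝔼) (w : Kt X W)
    (hw : ∀ n, w.c n = fderiv ℝ (Φ n) (π n x) (π n v)) : HasDirDeriv f x v w := by
  refine tendsto_Kt fun k ε hε => ?_
  obtain ⟨O, hO, n₁, h1⟩ := hyp k x
  obtain ⟨O', hO', n₁', h1'⟩ := hBx k x
  obtain ⟨O'', hO'', n₁'', h1''⟩ := hBx k v
  obtain ⟨N, hN⟩ := exists_nat_gt (4 / ε)
  have hN1 : ∀ n : ℕ, N ≤ n → 2 / ((n : ℝ) + 1) ≤ ε / 2 := by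
    intro n hn
    have h2 : (N : ℝ) ≤ n := by exact_mod_cast hn
    have h3 : 4 / ε < (n : ℝ) + 1 := by linarith
    rw [div_lt_iff₀ hε] at h3
    rw [div_le_div_iff₀ (by positivity) (by norm_num)]
    nlinarith
  have hcont : Continuous fun s : ℝ => x + s • v :=
    continuous_const.add (continuous_id.smul continuous_const)
  have hO2 : (fun s : ℝ => x + s • v) ⁻¹' (O ∩ O') ∈ 𝓝 (0 : ℝ) := by
    refine hcont.continuousAt.preimage_mem_nhds ?_
    simp only [zero_smul, add_zero]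
    exact Filter.inter_mem hO hO'
  obtain ⟨δ, hδ, hball⟩ := Metric.mem_nhds_iff.1 hO2
  -- the curves
  have hder : ∀ n (s : ℝ), HasDerivAt (fun s : ℝ => Φ n (π n (x + s • v)))
      (fderiv ℝ (Φ n) (π n (x + s • v)) (π n v)) s := by
    intro n s
    have h2 : HasFDerivAt (Φ n) (fderiv ℝ (Φ n) (π n (x + s • v))) (π n (x + s • v)) :=
      ((hΦ n).differentiable (by simp)).differentiableAt.hasFDerivAt
    have h3 : HasDerivAt (fun s : ℝ => π n (x + s • v)) (π n v) s := by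
      have h4 : (fun s : ℝ => π n (x + s • v)) = fun s : ℝ => π n x + s • π n v := by
        funext s
        rw [map_add, map_smul]
      rw [h4]
      have h5 := ((hasDerivAt_id s).smul_const (π n v)).const_add (π n x)
      rw [one_smul] at h5
      exact h5
    exact h2.comp_hasDerivAt s h3
  have hbd : ∀ n, max (max N (m + 1)) (max n₁ (max n₁' n₁'')) ≤ n → ∀ s ∈ Metric.ball (0 : ℝ) δ,
      ‖fderiv ℝ (Φ n) (π n (x + s • v)) (π n v)‖ ≤ W k n / (n + 1) := by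
    intro n hn s hs
    have hn1 : n₁ ≤ n := (le_max_left _ _).trans ((le_max_right _ _).trans hn)
    have hn2 : n₁' ≤ n := (le_max_left _ _).trans
      ((le_max_right _ _).trans ((le_max_right _ _).trans hn))
    have hn3 : n₁'' ≤ n := (le_max_right _ _).trans
      ((le_max_right _ _).trans ((le_max_right _ _).trans hn))
    have hn4 : m + 1 ≤ n := (le_max_right _ _).trans ((le_max_left _ _).trans hn)
    obtain ⟨Φ', Q, -, h3, h4, h5, h6⟩ := h1 n hn1
    have h7 := hball hs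
    have h8 : fderiv ℝ (Φ n) (π n (x + s • v)) = fderiv ℝ Φ' (π n (x + s • v)) :=
      Filter.EventuallyEq.fderiv_eq (h5.eventuallyEq_of_mem (h3.mem_nhds (h4 _ h7.1)))
    obtain ⟨l, hl⟩ : ∃ l, n - m = l + 1 := ⟨n - (m + 1), by omega⟩
    rw [hl] at h6
    have h9 := BB_fst _ _ _ _ _ (BB_snd _ _ _ _ _ h6) (π n (x + s • v), π n v)
      ⟨h1' n hn2 _ h7.2, h1'' n hn3 v (mem_of_mem_nhds hO'')⟩
    rw [h8]
    exact h9
  have hfin : ∀ᶠ t in 𝓝[≠] (0 : ℝ), ∀ n ∈ Finset.range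
      (max (max N (m + 1)) (max n₁ (max n₁' n₁''))),
      ‖t⁻¹ • (Φ n (π n (x + t • v)) - Φ n (π n x)) - fderiv ℝ (Φ n) (π n x) (π n v)‖ <
        W k n * (ε / 2) := by
    rw [Filter.eventually_all_finset]
    intro n _
    have h2 := (hder n 0).tendsto_slope_zero
    simp only [zero_add, zero_smul, add_zero] at h2
    have h3 := (h2.sub_const (fderiv ℝ (Φ n) (π n x) (π n v))).norm
    rw [sub_self, norm_zero] at h3
    exact h3.eventually (gt_mem_nhds (mul_pos (hW k n) (by linarith)))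
  have hball' : Metric.ball (0 : ℝ) δ ∈ 𝓝[≠] (0 : ℝ) :=
    mem_nhdsWithin_of_mem_nhds (Metric.ball_mem_nhds _ hδ)
  filter_upwards [hfin, hball', self_mem_nhdsWithin] with t ht1 ht2 ht3
  have ht0 : t ≠ 0 := ht3
  have h9 : Pk X W k (t⁻¹ • (f (x + t • v) - f x) - w) ≤ ε / 2 := by
    refine Pk_le hW k _ fun n => ?_
    rw [Kt.c_sub, Kt.c_smul, Kt.c_sub, hf, hf, hw]
    rcases lt_or_ge n (max (max N (m + 1)) (max n₁ (max n₁' n₁''))) with hn | hn
    · exact (ht1 n (Finset.mem_range.2 hn)).le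
    · have h2 := (convex_ball (0 : ℝ) δ).norm_image_sub_le_of_norm_hasDerivWithin_le
        (f := fun s : ℝ => Φ n (π n (x + s • v)))
        (f' := fun s : ℝ => fderiv ℝ (Φ n) (π n (x + s • v)) (π n v)) (C := W k n / (n + 1))
        (x := 0) (y := t) (fun s _ => (hder n s).hasDerivWithinAt) (fun s hs => hbd n hn s hs)
        (Metric.mem_ball_self hδ) ht2
      simp only [zero_smul, add_zero, sub_zero] at h2
      have h3 := hbd n hn 0 (Metric.mem_ball_self hδ)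
      simp only [zero_smul, add_zero] at h3
      have h4 : ‖t⁻¹ • (Φ n (π n (x + t • v)) - Φ n (π n x))‖ ≤ W k n / (n + 1) := by
        rw [norm_smul, norm_inv]
        have ht4 : 0 < ‖t‖ := norm_pos_iff.2 ht0
        rw [inv_mul_le_iff₀ ht4]
        linarith
      have h12 : W k n * (2 / ((n : ℝ) + 1)) ≤ W k n * (ε / 2) :=
        mul_le_mul_of_nonneg_left
          (hN1 n ((le_max_left _ _).trans ((le_max_left _ _).trans hn))) (hW k n).le
      refine (norm_sub_le _ _).trans ?_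
      have h13 : W k n * (2 / ((n : ℝ) + 1)) = W k n / (n + 1) + W k n / (n + 1) := by ring
      linarith
  linarith

private theorem BB_main (X : ℕ → Type) [∀ n, NormedAddCommGroup (X n)]
    [∀ n, NormedSpace ℝ (X n)] (W : ℕ → ℕ → ℝ) (hW : ∀ k n, 0 < W k n) (l : ℕ) :
    ∀ (m : ℕ)
    (𝔼 : Type) [AddCommGroup 𝔼] [Module ℝ 𝔼] [TopologicalSpace 𝔼] [IsTopologicalAddGroup 𝔼]
    [ContinuousSMul ℝ 𝔼] (S : ℕ → Type) [∀ n, NormedAddCommGroup (S n)]
    [∀ n, NormedSpace ℝ (S n)] (π : ∀ n, 𝔼 →L[ℝ] S n) (Φ : ∀ n, S n → X n)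
    (_ : ∀ n, ContDiff ℝ ∞ (Φ n)) (Bx : ∀ n : ℕ, ℕ → Set (S n))
    (_ : ∀ k x, ∃ O ∈ 𝓝 x, ∃ n₁, ∀ n, n₁ ≤ n → ∀ y ∈ O, π n y ∈ Bx n k)
    (_ : ∀ k x, ∃ O ∈ 𝓝 x, ∃ n₁, ∀ n, n₁ ≤ n → ∃ (Φ' : S n → X n) (Q : Set (S n)),
      ContDiff ℝ ∞ Φ' ∧ IsOpen Q ∧ (∀ y ∈ O, π n y ∈ Q) ∧ EqOn (Φ n) Φ' Q ∧
        EV.TBd (n - m) (S n) Φ' (Bx n k) (W k n / (n + 1)))
    (f : 𝔼 → Kt X W) (_ : ∀ x n, (f x).c n = Φ n (π n x)),
    BastianiCk l 𝔼 (Kt X W) f univ := by
  induction l with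
  | zero =>
    intro m 𝔼 _ _ _ _ _ S _ _ π Φ hΦ Bx hBx hyp f hf
    exact (BB_cont X W hW m 𝔼 S π Φ hΦ Bx hBx hyp f hf).continuousOn
  | succ l ih =>
    intro m 𝔼 _ _ _ _ _ S _ _ π Φ hΦ Bx hBx hyp f hf
    refine ⟨(BB_cont X W hW m 𝔼 S π Φ hΦ Bx hBx hyp f hf).continuousOn, ?_⟩
    have hnull : ∀ (p : 𝔼 × 𝔼) (k : ℕ),
        Tendsto (fun n => ‖fderiv ℝ (Φ n) (π n p.1) (π n p.2)‖ / |W k n|) atTop (𝓝 0) := by
      intro p k
      obtain ⟨O, hO, n₁, h1⟩ := hyp k p.1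
      obtain ⟨O', hO', n₁', h1'⟩ := hBx k p.1
      obtain ⟨O'', hO'', n₁'', h1''⟩ := hBx k p.2
      have hlim : Tendsto (fun n : ℕ => 1 / ((n : ℝ) + 1)) atTop (𝓝 0) :=
        tendsto_one_div_add_atTop_nhds_zero_nat
      refine squeeze_zero' (Filter.Eventually.of_forall fun n => by positivity) ?_ hlim
      filter_upwards [Filter.eventually_ge_atTop (max (m + 1) (max n₁ (max n₁' n₁'')))] with n hn
      have hn1 : n₁ ≤ n := (le_max_left _ _).trans ((le_max_right _ _).trans hn)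
      have hn2 : n₁' ≤ n := (le_max_left _ _).trans
        ((le_max_right _ _).trans ((le_max_right _ _).trans hn))
      have hn3 : n₁'' ≤ n := (le_max_right _ _).trans
        ((le_max_right _ _).trans ((le_max_right _ _).trans hn))
      have hn4 : m + 1 ≤ n := (le_max_left _ _).trans hn
      obtain ⟨Φ', Q, -, h3, h4, h5, h6⟩ := h1 n hn1
      have h8 : fderiv ℝ (Φ n) (π n p.1) = fderiv ℝ Φ' (π n p.1) :=
        Filter.EventuallyEq.fderiv_eq
          (h5.eventuallyEq_of_mem (h3.mem_nhds (h4 _ (mem_of_mem_nhds hO))))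
      obtain ⟨l', hl'⟩ : ∃ l', n - m = l' + 1 := ⟨n - (m + 1), by omega⟩
      rw [hl'] at h6
      have h9 := BB_fst _ _ _ _ _ (BB_snd _ _ _ _ _ h6) (π n p.1, π n p.2)
        ⟨h1' n hn2 _ (mem_of_mem_nhds hO'), h1'' n hn3 _ (mem_of_mem_nhds hO'')⟩
      rw [h8, abs_of_pos (hW k n), div_le_iff₀ (hW k n)]
      have h10 : 1 / ((n : ℝ) + 1) * W k n = W k n / (n + 1) := by ring
      rw [h10]
      exact h9
    let df : 𝔼 × 𝔼 → Kt X W := fun p =>
      Kt.mk' W (fun n => fderiv ℝ (Φ n) (π n p.1) (π n p.2)) (hnull p)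
    have hdf : ∀ (p : 𝔼 × 𝔼) (n : ℕ), (df p).c n =
        fderiv ℝ (Φ n) (π n p.1) (π n p.2) := fun p n => rfl
    refine ⟨df, fun x _ v => ?_, ?_⟩
    · exact BB_deriv X W hW m 𝔼 S π Φ hΦ Bx hBx hyp f hf x v _ fun n => hdf (x, v) n
    · rw [Set.univ_prod_univ]
      refine ih (m + 1) (𝔼 × 𝔼) (fun n => S n × S n) (fun n => (π n).prodMap (π n))
        (fun n z => fderiv ℝ (Φ n) z.1 z.2) (fun n => EV.contDiff_tangent (hΦ n))
        (fun n k => Bx n k ×ˢ Bx n k) ?_ ?_ df (fun p n => hdf p n)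
      · intro k p
        obtain ⟨O, hO, n₁, h1⟩ := hBx k p.1
        obtain ⟨O', hO', n₁', h1'⟩ := hBx k p.2
        refine ⟨O ×ˢ O', prod_mem_nhds hO hO', max n₁ n₁', fun n hn y hy => ?_⟩
        exact ⟨h1 n ((le_max_left _ _).trans hn) _ hy.1,
          h1' n ((le_max_right _ _).trans hn) _ hy.2⟩
      · intro k p
        obtain ⟨O, hO, n₁, h1⟩ := hyp k p.1
        refine ⟨O ×ˢ univ, prod_mem_nhds hO univ_mem, max n₁ (m + 1), fun n hn => ?_⟩
        obtain ⟨Φ', Q, h2, h3, h4, h5, h6⟩ := h1 n ((le_max_left _ _).trans hn)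
        have hn4 : m + 1 ≤ n := (le_max_right _ _).trans hn
        refine ⟨fun z => fderiv ℝ Φ' z.1 z.2, Q ×ˢ univ, EV.contDiff_tangent h2,
          h3.prod isOpen_univ, fun y hy => ⟨h4 _ hy.1, mem_univ _⟩, fun z hz => ?_, ?_⟩
        · have h8 : fderiv ℝ (Φ n) z.1 = fderiv ℝ Φ' z.1 :=
            Filter.EventuallyEq.fderiv_eq (h5.eventuallyEq_of_mem (h3.mem_nhds hz.1))
          show fderiv ℝ (Φ n) z.1 z.2 = fderiv ℝ Φ' z.1 z.2
          rw [h8]
        · obtain ⟨l', hl'⟩ : ∃ l', n - m = l' + 1 := ⟨n - (m + 1), by omega⟩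
          rw [hl'] at h6
          have h9 : n - (m + 1) = l' := by omega
          rw [h9]
          exact BB_snd _ _ _ _ _ h6

theorem bastiani_of_growth (X : ℕ → Type) [∀ n, NormedAddCommGroup (X n)]
    [∀ n, NormedSpace ℝ (X n)] (w : ℕ → ℕ → ℝ) (hw : ∀ k n, 0 < w k n) (m : ℕ)
    (𝔼 : Type) [AddCommGroup 𝔼] [Module ℝ 𝔼] [TopologicalSpace 𝔼] [IsTopologicalAddGroup 𝔼]
    [ContinuousSMul ℝ 𝔼] (S : ℕ → Type) [∀ n, NormedAddCommGroup (S n)]
    [∀ n, NormedSpace ℝ (S n)] (π : ∀ n, 𝔼 →L[ℝ] S n) (Φ : ∀ n, S n → X n)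
    (hΦ : ∀ n, ContDiff ℝ ∞ (Φ n)) (Bx : ∀ n : ℕ, ℕ → Set (S n))
    (hBx : ∀ k x, ∃ O ∈ 𝓝 x, ∃ n₁, ∀ n, n₁ ≤ n → ∀ y ∈ O, π n y ∈ Bx n k)
    (hyp : ∀ k x, ∃ O ∈ 𝓝 x, ∃ n₁, ∀ n, n₁ ≤ n → ∃ (Φ' : S n → X n) (Q : Set (S n)),
      ContDiff ℝ ∞ Φ' ∧ IsOpen Q ∧ (∀ y ∈ O, π n y ∈ Q) ∧ EqOn (Φ n) Φ' Q ∧
        EV.TBd (n - m) (S n) Φ' (Bx n k) (w k n / (n + 1)))
    (f : 𝔼 → Kt X w) (hf : ∀ x n, (f x).c n = Φ n (π n x)) :
    BastianiSmooth f univ := fun l =>
  BB_main X w hw l m 𝔼 S π Φ hΦ Bx hBx hyp f hf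

end Pool.Agent.Lib.MP_862e0f_al.EW
end

section

/-!
# Köthe spaces are complete and metrizable (TASK EW KC)

`Kt.metrizable`: `WithSeminorms` with countably many seminorms: first countable (`Kt.withSeminorms.firstCountableTopology`, see
the end of `EV/SC.lean` for the uniformity), Hausdorff (`Kt.t2`), a uniform space with countably generated uniformity and `T0` is
metrizable (`UniformSpace.metrizableSpace`).
`Kt.complete`: let `a` be a Cauchy sequence. For every `n` the sequence `(a i).c n` is Cauchy in the finite-dimensional (hence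
complete) space `X n`: `‖(a i).c n - (a j).c n‖ ≤ w 0 n * Pk 0 (a i - a j)` (`le_Pk`; the sets `{y | Pk k y < ε}` are neighbourhoods of
`0`, `continuous_Pk`). Let `b n` be the limit. For `k`, `ε` there is `N` with `Pk k (a i - a j) < ε` for `i, j ≥ N`, so
`‖(a i).c n - (a j).c n‖ ≤ w k n * ε`; `j → ∞`: `‖(a i).c n - b n‖ ≤ w k n * ε` for all `i ≥ N` and all `n`. In particular
`‖b n‖ / |w k n| ≤ ε + ‖(a N).c n‖ / |w k n|`, and the last term tends to `0`: `limsup ≤ ε` for every `ε`, so `b ∈ Kt X w`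
(`Metric.tendsto_atTop`). And `Pk k (a i - b) ≤ ε` for `i ≥ N` (`Pk_le`), `tendsto_Kt`.
-/

set_option autoImplicit false

namespace Pool.Agent.Lib.MP_862e0f_al.EW

open Filter Topology Set

variable {X : ℕ → Type} [∀ n, NormedAddCommGroup (X n)] [∀ n, NormedSpace ℝ (X n)]
  {w : ℕ → ℕ → ℝ}

theorem Kt.metrizable (hw : ∀ k n, 0 < w k n) : TopologicalSpace.MetrizableSpace (Kt X w) := by
  have h2 : FirstCountableTopology (Kt X w) := Kt.withSeminorms.firstCountableTopology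
  let u : UniformSpace (Kt X w) := IsTopologicalAddGroup.rightUniformSpace (Kt X w)
  have h3 : (uniformity (Kt X w)).IsCountablyGenerated := by
    have h4 : (𝓝 (0 : Kt X w)).IsCountablyGenerated := h2.nhds_generated_countable 0
    have h5 : IsUniformAddGroup (Kt X w) := isUniformAddGroup_of_addCommGroup
    rw [uniformity_eq_comap_nhds_zero]
    exact Filter.comap.isCountablyGenerated _ _
  have h6 : T2Space (Kt X w) := Kt.t2 hw
  exact UniformSpace.metrizableSpace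

theorem Kt.complete [∀ n, FiniteDimensional ℝ (X n)] (hw : ∀ k n, 0 < w k n) (a : ℕ → Kt X w)
    (ha : ∀ U ∈ 𝓝 (0 : Kt X w), ∃ N : ℕ, ∀ m ≥ N, ∀ n ≥ N, a m - a n ∈ U) :
    ∃ b : Kt X w, Tendsto a atTop (𝓝 b) := by
  have hP : ∀ k : ℕ, ∀ ε : ℝ, 0 < ε → ∃ N : ℕ, ∀ i ≥ N, ∀ j ≥ N, Pk X w k (a i - a j) < ε := by
    intro k ε hε
    have h1 := eventually_Pk (0 : Kt X w) k hε
    obtain ⟨N, hN⟩ := ha _ h1
    refine ⟨N, fun i hi j hj => ?_⟩
    have h2 := hN i hi j hj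
    have h3 : Pk X w k (a i - a j - 0) < ε := h2
    rwa [sub_zero] at h3
  have hE : ∀ k : ℕ, ∀ ε : ℝ, 0 < ε → ∃ N : ℕ, ∀ i ≥ N, ∀ j ≥ N, ∀ n,
      ‖(a i).c n - (a j).c n‖ ≤ w k n * ε := by
    intro k ε hε
    obtain ⟨N, hN⟩ := hP k ε hε
    refine ⟨N, fun i hi j hj n => ?_⟩
    have h1 := le_Pk hw k (a i - a j) n
    rw [Kt.c_sub] at h1
    exact h1.trans (mul_le_mul_of_nonneg_left (hN i hi j hj).le (hw k n).le)
  have hc : ∀ n, ∃ b : X n, Tendsto (fun i => (a i).c n) atTop (𝓝 b) := by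
    intro n
    have hcomp : CompleteSpace (X n) := FiniteDimensional.complete ℝ (X n)
    refine cauchySeq_tendsto_of_complete (Metric.cauchySeq_iff.mpr fun ε hε => ?_)
    obtain ⟨N, hN⟩ := hE 0 (ε / 2 / w 0 n) (div_pos (half_pos hε) (hw 0 n))
    refine ⟨N, fun i hi j hj => ?_⟩
    have h1 := hN i hi j hj n
    rw [mul_div_cancel₀ _ (hw 0 n).ne'] at h1
    rw [dist_eq_norm]
    exact lt_of_le_of_lt h1 (half_lt_self hε)
  choose b hb using hc
  have key : ∀ k : ℕ, ∀ ε : ℝ, 0 < ε → ∃ N : ℕ, ∀ i ≥ N, ∀ n, ‖(a i).c n - b n‖ ≤ w k n * ε := by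
    intro k ε hε
    obtain ⟨N, hN⟩ := hE k ε hε
    refine ⟨N, fun i hi n => ?_⟩
    have h1 : Tendsto (fun j => ‖(a i).c n - (a j).c n‖) atTop (𝓝 ‖(a i).c n - b n‖) :=
      ((tendsto_const_nhds (x := (a i).c n)).sub (hb n)).norm
    exact le_of_tendsto h1 (eventually_atTop.mpr ⟨N, fun j hj => hN i hi j hj n⟩)
  have hnull : ∀ k, Tendsto (fun n => ‖b n‖ / |w k n|) atTop (𝓝 0) := by
    intro k
    rw [Metric.tendsto_atTop]
    intro ε hε
    obtain ⟨N, hN⟩ := key k (ε / 2) (half_pos hε)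
    obtain ⟨n₀, hn₀⟩ := Metric.tendsto_atTop.mp ((a N).null k) (ε / 2) (half_pos hε)
    refine ⟨n₀, fun n hn => ?_⟩
    have h1 := hn₀ n hn
    have h2 := hN N (le_refl N) n
    have hwp := hw k n
    rw [abs_of_pos hwp] at h1 ⊢
    rw [Real.dist_eq, sub_zero, abs_of_nonneg (by positivity)] at h1 ⊢
    have h3 : ‖b n‖ ≤ ‖(a N).c n‖ + ‖(a N).c n - b n‖ := by
      have h4 : b n = (a N).c n - ((a N).c n - b n) := by abel
      calc ‖b n‖ = ‖(a N).c n - ((a N).c n - b n)‖ := by rw [← h4]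
        _ ≤ ‖(a N).c n‖ + ‖(a N).c n - b n‖ := norm_sub_le _ _
    rw [div_lt_iff₀ hwp] at h1 ⊢
    linarith
  refine ⟨Kt.mk' w b hnull, tendsto_Kt fun k ε hε => ?_⟩
  obtain ⟨N, hN⟩ := key k (ε / 2) (half_pos hε)
  refine eventually_atTop.mpr ⟨N, fun i hi => ?_⟩
  refine lt_of_le_of_lt (Pk_le hw k _ (C := ε / 2) fun n => ?_) (half_lt_self hε)
  rw [Kt.c_sub, Kt.mk'_c]
  exact hN i hi n

end Pool.Agent.Lib.MP_862e0f_al.EW
end

section

/-!
# Köthe spaces are second countable (TASK EW KS)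

Compare with `EV/SC.lean`. Choose dense sequences `d n : ℕ → X n` (`TopologicalSpace.denseSeq`, `X n` is a finite-dimensional
normed space). For a list `l : List ℕ` let `v l` be the element with `(v l).c n = d n (l[n])` for `n < l.length` and `0` otherwise
(`Kt.mk'`; it is eventually zero). The range of `v` is countable, and dense: let `x : Kt X w` and let `s, ε` be
given by `mem_nhds_Kt`. Choose `n₀` with `‖x.c n‖ ≤ w k n * (ε / 2)` for all `n ≥ n₀`, `k ∈ s` (`Kt.null`; finitely many `k`); for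
`n < n₀` choose `a n` with `‖d n (a n) - x.c n‖ < ε/2 * w k n` for all `k ∈ s` (finitely many conditions), `l` the list of the `a n`,
`n < n₀`; then `Pk k (v l - x) ≤ ε/2 < ε` (`Pk_le`). So `Kt X w` is separable; it is first countable, its uniformity is countably
generated, so it is second countable (`UniformSpace.secondCountable_of_separable`, see the end of `EV/SC.lean`).
-/

set_option autoImplicit false

namespace Pool.Agent.Lib.MP_862e0f_al.EW

open Filter Topology Set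

variable {X : ℕ → Type} [∀ n, NormedAddCommGroup (X n)] [∀ n, NormedSpace ℝ (X n)]
  {w : ℕ → ℕ → ℝ}

theorem KS_separable [∀ n, FiniteDimensional ℝ (X n)] (hw : ∀ k n, 0 < w k n) :
    TopologicalSpace.SeparableSpace (Kt X w) := by
  classical
  have hsep : ∀ n, TopologicalSpace.SeparableSpace (X n) := fun n => by
    have : ProperSpace (X n) := FiniteDimensional.proper ℝ (X n)
    infer_instance
  let d : ∀ n, ℕ → X n := fun n => TopologicalSpace.denseSeq (X n)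
  have hnull : ∀ (l : List ℕ) (k : ℕ),
      Tendsto (fun n => ‖(if h : n < l.length then d n (l.get ⟨n, h⟩) else (0 : X n))‖ / |w k n|)
        atTop (𝓝 0) := by
    intro l k
    refine tendsto_const_nhds.congr' ?_
    filter_upwards [eventually_ge_atTop l.length] with n hn
    rw [dif_neg (not_lt.mpr hn), norm_zero, zero_div]
  let v : List ℕ → Kt X w := fun l => Kt.mk' w
    (fun n => if h : n < l.length then d n (l.get ⟨n, h⟩) else (0 : X n)) (hnull l)
  refine ⟨⟨Set.range v, Set.countable_range v, ?_⟩⟩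
  intro x
  rw [mem_closure_iff_nhds]
  intro U hU
  obtain ⟨s, ε, hε, hs⟩ := mem_nhds_Kt hU
  have htail : ∀ᶠ n in atTop, ∀ k ∈ s, ‖x.c n‖ / |w k n| < ε / 2 := by
    rw [Finset.eventually_all]
    intro k _
    exact (x.null k).eventually (gt_mem_nhds (half_pos hε))
  obtain ⟨n₀, hn₀⟩ := eventually_atTop.1 htail
  have h1 : ∀ n, ∃ a : ℕ, ∀ k ∈ s, ‖d n a - x.c n‖ < ε / 2 * w k n := by
    intro n
    have h2 : ∃ δ : ℝ, 0 < δ ∧ ∀ k ∈ s, δ ≤ ε / 2 * w k n := by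
      rcases s.eq_empty_or_nonempty with h0 | h0
      · subst h0
        exact ⟨1, one_pos, by simp⟩
      · obtain ⟨k0, hk0, hk1⟩ := s.exists_min_image (fun k => ε / 2 * w k n) h0
        exact ⟨ε / 2 * w k0 n, mul_pos (half_pos hε) (hw k0 n), hk1⟩
    obtain ⟨δ, hδ, hδs⟩ := h2
    have h3 : DenseRange (d n) := TopologicalSpace.denseRange_denseSeq (X n)
    obtain ⟨a, ha⟩ := h3.exists_dist_lt (x.c n) hδ
    refine ⟨a, fun k hk => lt_of_lt_of_le ?_ (hδs k hk)⟩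
    rw [dist_comm, dist_eq_norm] at ha
    exact ha
  choose a ha using h1
  refine ⟨v ((List.range n₀).map a), hs _ fun k hk => ?_, Set.mem_range_self _⟩
  refine lt_of_le_of_lt (Pk_le hw k _ (C := ε / 2) fun n => ?_) (half_lt_self hε)
  rw [Kt.c_sub]
  have h4 : (v ((List.range n₀).map a)).c n =
      if h : n < ((List.range n₀).map a).length then
        d n (((List.range n₀).map a).get ⟨n, h⟩) else (0 : X n) := rfl
  rw [h4]
  by_cases h : n < n₀
  · have h5 : n < ((List.range n₀).map a).length := by simpa using h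
    rw [dif_pos h5]
    have h6 : ((List.range n₀).map a).get ⟨n, h5⟩ = a n := by simp
    rw [h6, mul_comm]
    exact (ha n k hk).le
  · have h5 : ¬ n < ((List.range n₀).map a).length := by simpa using h
    rw [dif_neg h5, zero_sub, norm_neg]
    have h7 := hn₀ n (not_lt.mp h) k hk
    rw [abs_of_pos (hw k n), div_lt_iff₀ (hw k n)] at h7
    linarith

theorem Kt.secondCountable [∀ n, FiniteDimensional ℝ (X n)] (hw : ∀ k n, 0 < w k n) :
    SecondCountableTopology (Kt X w) := by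
  have h1 : TopologicalSpace.SeparableSpace (Kt X w) := KS_separable hw
  have h2 : FirstCountableTopology (Kt X w) := Kt.withSeminorms.firstCountableTopology
  let u : UniformSpace (Kt X w) := IsTopologicalAddGroup.rightUniformSpace (Kt X w)
  have h3 : (uniformity (Kt X w)).IsCountablyGenerated := by
    have h4 : (𝓝 (0 : Kt X w)).IsCountablyGenerated := h2.nhds_generated_countable 0
    have h5 : IsUniformAddGroup (Kt X w) := isUniformAddGroup_of_addCommGroup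
    rw [uniformity_eq_comap_nhds_zero]
    exact Filter.comap.isCountablyGenerated _ _
  exact UniformSpace.secondCountable_of_separable (Kt X w)

end Pool.Agent.Lib.MP_862e0f_al.EW
end
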