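import Pool.Agent.Lib.MP_862e0f_al.Mg.G004
import Pool.Agent.Lib.MP_862e0f_al.Mg.G006
import Pool.Agent.Lib.MP_862e0f_al.Mg.G001
import Pool.Agent.Lib.MP_862e0f_al.Mg.G002
import Pool.Agent.Lib.MP_862e0f_P.RegDefs

section

/-!
# The tower of the triangular polynomial group
-/

set_option autoImplicit false

namespace Pool.Agent.Lib.MP_862e0f_al.EW

/-- The tower of the triangular polynomial group. -/
noncomputable def triT : Tw Vb where
  toPre := tri
  mono := Eb_mono
  N_mono := Nb_mono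
  norm_le := fun x => (norm_Vb x).le
  e_mem := eb_mem
  tau_e := taub_eb
  tau_lt := fun _ _ _ h hx => taub_lt h hx
  op_assoc := opb_assoc
  zero_op := zero_opb
  op_zero := opb_zero
  iv_op := ivb_opb
  op_mem := fun _ _ _ hx hy => opb_mem hx hy
  iv_mem := fun _ _ hx => ivb_mem hx
  tau_op := fun _ _ _ hx hy => taub_op hx hy
  op_smooth := opb_smooth
  iv_smooth := ivb_smooth
  op_est := tri_op_est
  iv_est := tri_iv_est

end Pool.Agent.Lib.MP_862e0f_al.EW
end

section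

/-!
# Smooth dependence on parameters (TASK EW Sm)

`X` is a finite-dimensional normed space of parameters. Compare with `EV/Sm.lean`, whose proofs can be adapted.
`contDiff_toF`: there is a continuous linear projection `π : V → F n` with `π x = x` on `F n`
(`Submodule.ClosedComplemented.of_finiteDimensional`), and `toF T n (f x) = π (f x)`.
`smooth_op`, `smooth_iv`: the same with `E n`, then `T.op_smooth n`, `T.iv_smooth n`.
`smooth_Lam`: finite sum. `smooth_uu`, `smooth_thr`: `Real.exp`, power. `smooth_Afac`: `ContDiff.sum`, `ContDiff.inv`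
(`thr_pos`), `Gear.pen_smooth`. `smooth_nxt`: apply `EV.exists_radial` to
`A (x, r) = Afac (v x) (r • y x)` (smooth on `X × ℝ`; `one_le_Afac`, `Afac_ray`); by uniqueness `tauE .. = τ x`
(`tauE_spec`), so `nxt .. = τ x • y x`. `smooth_vs`: strong induction on `n` with `vs_eq`. `smooth_vu`: cases `a = n`
(`vu_self`), `a < n`, `a > n` (`Function.update_of_ne`). The rest is immediate (`seq`, `vv`: cases on `n`).
`contDiff_gx`, `contDiff_yx`: see `contDiff_ext` in `EV/Sm.lean`.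
`cont_vs`: `vs G W (yv y) n = vs G W (yx T n (histL T hW n (0, y))) n` (`vs_congr_y`, `yx_histL`), a composition of a smooth map
of the history with a continuous linear map.
-/

set_option autoImplicit false

namespace Pool.Agent.Lib.MP_862e0f_al.EW

open Filter Topology Set
open scoped ContDiff

variable {V : Type} [NormedAddCommGroup V] [NormedSpace ℝ V] {T : Tw V} (G : Gear T)
  {W : ℕ → ℕ → ℝ} {X : Type} [NormedAddCommGroup X] [NormedSpace ℝ X]

theorem toF_coe {n : ℕ} {y : V} (h : y ∈ T.F n) : ((toF T n y : T.F n) : V) = y := by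
  unfold toF
  rw [dif_pos h]

theorem contDiff_toF {n : ℕ} {f : X → V} (hf : ContDiff ℝ ∞ f) (hF : ∀ x, f x ∈ T.F n) :
    ContDiff ℝ ∞ (fun x => toF T n (f x)) := by
  obtain ⟨π, hπ⟩ := Submodule.ClosedComplemented.of_finiteDimensional (T.F n)
  have h : (fun x => toF T n (f x)) = fun x => π (f x) := by
    funext x
    have h1 := hπ ⟨f x, hF x⟩
    have h2 : π (f x) = ⟨f x, hF x⟩ := h1
    rw [h2]
    exact Subtype.ext (toF_coe (hF x))
  rw [h]
  exact π.contDiff.comp hf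

/-- a smooth map into `E n`, with values in the subtype -/
private theorem contDiff_toE {n : ℕ} {f : X → V} (hf : ContDiff ℝ ∞ f) (hE : ∀ x, f x ∈ T.E n) :
    ContDiff ℝ ∞ (fun x => (⟨f x, hE x⟩ : T.E n)) := by
  obtain ⟨π, hπ⟩ := Submodule.ClosedComplemented.of_finiteDimensional (T.E n)
  have h : (fun x => (⟨f x, hE x⟩ : T.E n)) = fun x => π (f x) := by
    funext x
    exact (hπ ⟨f x, hE x⟩).symm
  rw [h]
  exact π.contDiff.comp hf

theorem smooth_op {n : ℕ} {f g : X → V} (hf : ContDiff ℝ ∞ f) (hfE : ∀ x, f x ∈ T.E n)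
    (hg : ContDiff ℝ ∞ g) (hgE : ∀ x, g x ∈ T.E n) :
    ContDiff ℝ ∞ (fun x => T.op (f x) (g x)) :=
  (T.op_smooth n).comp ((contDiff_toE hf hfE).prodMk (contDiff_toE hg hgE))

theorem smooth_iv {n : ℕ} {f : X → V} (hf : ContDiff ℝ ∞ f) (hfE : ∀ x, f x ∈ T.E n) :
    ContDiff ℝ ∞ (fun x => T.iv (f x)) :=
  (T.iv_smooth n).comp (contDiff_toE hf hfE)

theorem smooth_Lam {j n : ℕ} {v : X → ℕ → V} (hv : ∀ a, a < n → ContDiff ℝ ∞ (fun x => v x a)) :
    ContDiff ℝ ∞ (fun x => Lam G j (v x) n) := by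
  unfold Lam
  refine ContDiff.sum fun a ha => ?_
  exact (G.lam_smooth j a).comp (hv a (Finset.mem_range.mp ha))

theorem smooth_thr {j n : ℕ} {v : X → ℕ → V} (hv : ∀ a, a < n → ContDiff ℝ ∞ (fun x => v x a)) :
    ContDiff ℝ ∞ (fun x => thr G j (v x) n) := by
  unfold thr uu
  exact (contDiff_const.mul (smooth_Lam G hv).neg.exp).pow _

theorem smooth_Afac {t n : ℕ} {v : X → ℕ → V} (hv : ∀ a, a < n → ContDiff ℝ ∞ (fun x => v x a))
    {y : X → V} (hy : ContDiff ℝ ∞ y) : ContDiff ℝ ∞ (fun x => Afac G W t n (v x) (y x)) := by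
  unfold Afac
  refine contDiff_const.add (ContDiff.sum fun j _ => ?_)
  have h1 : ContDiff ℝ ∞ (fun x => (thr G j (v x) n)⁻¹) :=
    (smooth_thr G hv).inv fun x => (thr_pos G j (v x) n).ne'
  exact (contDiff_const.mul h1).mul ((G.pen_smooth j n).comp (h1.smul hy))

theorem smooth_crd {t n : ℕ} {v : X → ℕ → V} (hv : ∀ a, a ≤ n → ContDiff ℝ ∞ (fun x => v x a)) :
    ContDiff ℝ ∞ (fun x => crd G W t (v x) n) := by
  unfold crd
  exact (smooth_Afac G (fun a ha => hv a ha.le) (hv n le_rfl)).smul (hv n le_rfl)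

theorem smooth_nxt [FiniteDimensional ℝ X] (hW : ∀ k n, 0 ≤ W k n) {t n : ℕ} {v : X → ℕ → V}
    (hv : ∀ a, a < n → ContDiff ℝ ∞ (fun x => v x a)) {y : X → V}
    (hy : ContDiff ℝ ∞ y) (hF : ∀ x, y x ∈ T.F n) :
    ContDiff ℝ ∞ (fun x => nxt G W t n (v x) (y x)) := by
  have hA : ContDiff ℝ ∞ (fun z : X × ℝ => Afac G W t n (v z.1) (z.2 • y z.1)) := by
    refine smooth_Afac G (v := fun z : X × ℝ => v z.1) (y := fun z : X × ℝ => z.2 • y z.1)
      (fun a ha => (hv a ha).comp contDiff_fst) ?_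
    exact contDiff_snd.smul (hy.comp contDiff_fst)
  obtain ⟨τ, hτ1, -, hτ3⟩ := EV.exists_radial _ hA
    (fun z => one_le_Afac G hW t n _ _)
    (fun x r => Afac_ray G hW (v x) (hF x) r)
  have h : (fun x => nxt G W t n (v x) (y x)) = fun x => τ x • y x := by
    funext x
    unfold nxt
    rw [hτ3 x _ (tauE_spec G hW (v x) (hF x))]
  rw [h]
  exact hτ1.smul hy

theorem smooth_vs [FiniteDimensional ℝ X] (hW : ∀ k n, 0 ≤ W k n) {y : X → ℕ → V}
    (hy : ∀ a, ContDiff ℝ ∞ (fun x => y x a)) (hF : ∀ x a, y x a ∈ T.F a) (n : ℕ) :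
    ContDiff ℝ ∞ (fun x => vs G W (y x) n) := by
  induction n using Nat.strong_induction_on with
  | _ n ih =>
    have h : (fun x => vs G W (y x) n) = fun x => nxt G W 0 n (vs G W (y x)) (y x n) := by
      funext x
      exact vs_eq G (y x) n
    rw [h]
    exact smooth_nxt G hW (v := fun x => vs G W (y x)) ih (hy n) (fun x => hF x n)

theorem smooth_vu [FiniteDimensional ℝ X] (hW : ∀ k n, 0 ≤ W k n) {t : ℕ} {y : X → ℕ → V}
    (hy : ∀ a, ContDiff ℝ ∞ (fun x => y x a)) (hF : ∀ x a, y x a ∈ T.F a) (n a : ℕ) :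
    ContDiff ℝ ∞ (fun x => vu G W t (y x) n a) := by
  rcases eq_or_ne a n with rfl | hne
  · have h : (fun x => vu G W t (y x) a a) = fun x => nxt G W t a (vs G W (y x)) (y x a) := by
      funext x
      exact vu_self G t (y x) a
    rw [h]
    exact smooth_nxt G hW (v := fun x => vs G W (y x)) (fun b _ => smooth_vs G hW hy hF b) (hy a)
      (fun x => hF x a)
  · have h : (fun x => vu G W t (y x) n a) = fun x => vs G W (y x) a := by
      funext x
      unfold vu
      rw [Function.update_of_ne hne]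
    rw [h]
    exact smooth_vs G hW hy hF a

theorem smooth_seq {n : ℕ} {t : X → ℕ → ℝ} {v : X → ℕ → V}
    (ht : ∀ a, ContDiff ℝ ∞ (fun x => t x a)) (hv : ∀ a, ContDiff ℝ ∞ (fun x => v x a)) :
    ContDiff ℝ ∞ (fun x => T.seq (t x) (v x) n) := by
  unfold Pre.seq
  exact ContDiff.sum fun a _ => (hv a).add ((ht a).smul contDiff_const)

private theorem smooth_vv {Z : X → ℕ → V} (hZ : ∀ a, ContDiff ℝ ∞ (fun x => Z x a)) (n : ℕ) :
    ContDiff ℝ ∞ (fun x => T.vv (Z x) n) := by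
  cases n with
  | zero => exact (hZ 0).sub (((T.tau 0).contDiff.comp (hZ 0)).smul contDiff_const)
  | succ n =>
    exact ((hZ (n + 1)).sub (hZ n)).sub
      (((T.tau (n + 1)).contDiff.comp (hZ (n + 1))).smul contDiff_const)

theorem smooth_vop {t t' : X → ℕ → ℝ} {v v' : X → ℕ → V}
    (ht : ∀ a, ContDiff ℝ ∞ (fun x => t x a)) (hv : ∀ a, ContDiff ℝ ∞ (fun x => v x a))
    (hF : ∀ x a, v x a ∈ T.F a) (ht' : ∀ a, ContDiff ℝ ∞ (fun x => t' x a))
    (hv' : ∀ a, ContDiff ℝ ∞ (fun x => v' x a)) (hF' : ∀ x a, v' x a ∈ T.F a) (n : ℕ) :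
    ContDiff ℝ ∞ (fun x => T.vop (t x) (v x) (t' x) (v' x) n) := by
  unfold Pre.vop
  refine smooth_vv (fun a => ?_) n
  exact smooth_op (n := a) (smooth_seq ht hv) (fun x => seq_mem (hF x) a) (smooth_seq ht' hv')
    (fun x => seq_mem (hF' x) a)

theorem smooth_viv {t : X → ℕ → ℝ} {v : X → ℕ → V}
    (ht : ∀ a, ContDiff ℝ ∞ (fun x => t x a)) (hv : ∀ a, ContDiff ℝ ∞ (fun x => v x a))
    (hF : ∀ x a, v x a ∈ T.F a) (n : ℕ) :
    ContDiff ℝ ∞ (fun x => T.viv (t x) (v x) n) := by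
  unfold Pre.viv
  refine smooth_vv (fun a => ?_) n
  exact smooth_iv (n := a) (smooth_seq ht hv) (fun x => seq_mem (hF x) a)

theorem smooth_Fm [FiniteDimensional ℝ X] (hW : ∀ k n, 0 ≤ W k n) {t : ℕ} {g g' : X → ℕ → ℝ}
    {y y' : X → ℕ → V} (hg : ∀ a, ContDiff ℝ ∞ (fun x => g x a))
    (hy : ∀ a, ContDiff ℝ ∞ (fun x => y x a)) (hF : ∀ x a, y x a ∈ T.F a)
    (hg' : ∀ a, ContDiff ℝ ∞ (fun x => g' x a))
    (hy' : ∀ a, ContDiff ℝ ∞ (fun x => y' x a)) (hF' : ∀ x a, y' x a ∈ T.F a) (n : ℕ) :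
    ContDiff ℝ ∞ (fun x => Fm G W t (g x) (y x) (g' x) (y' x) n) := by
  unfold Fm
  refine smooth_crd G fun a _ => ?_
  exact smooth_vop (fun b => contDiff_const.mul (hg b)) (fun b => smooth_vu G hW hy hF n b)
    (fun x b => vu_mem G (hF x) n b) (fun b => contDiff_const.mul (hg' b))
    (fun b => smooth_vu G hW hy' hF' n b) (fun x b => vu_mem G (hF' x) n b) a

theorem smooth_Fi [FiniteDimensional ℝ X] (hW : ∀ k n, 0 ≤ W k n) {t : ℕ} {g : X → ℕ → ℝ}
    {y : X → ℕ → V} (hg : ∀ a, ContDiff ℝ ∞ (fun x => g x a))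
    (hy : ∀ a, ContDiff ℝ ∞ (fun x => y x a)) (hF : ∀ x a, y x a ∈ T.F a) (n : ℕ) :
    ContDiff ℝ ∞ (fun x => Fi G W t (g x) (y x) n) := by
  unfold Fi
  refine smooth_crd G fun a _ => ?_
  exact smooth_viv (fun b => contDiff_const.mul (hg b)) (fun b => smooth_vu G hW hy hF n b)
    (fun x b => vu_mem G (hF x) n b) a

theorem yx_mem (n : ℕ) (z : Hist T n) (a : ℕ) : yx T n z a ∈ T.F a := by
  unfold yx
  split_ifs with h
  · exact (z.2 ⟨a, h⟩).2
  · exact (T.F a).zero_mem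

theorem contDiff_gx (n a : ℕ) : ContDiff ℝ ∞ (fun z : Hist T n => gx T n z a) := by
  by_cases h : a < n + 1
  · have h1 : (fun z : Hist T n => gx T n z a) = fun z : Hist T n => z.1 ⟨a, h⟩ := by
      funext z
      unfold gx
      rw [dif_pos h]
    rw [h1]
    exact (ContinuousLinearMap.proj (R := ℝ) (φ := fun _ : Fin (n + 1) => ℝ)
        ⟨a, h⟩).contDiff.comp contDiff_fst
  · have h1 : (fun z : Hist T n => gx T n z a) = fun _ => (0 : ℝ) := by
      funext z
      unfold gx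
      rw [dif_neg h]
    rw [h1]
    exact contDiff_const

theorem contDiff_yx (n a : ℕ) : ContDiff ℝ ∞ (fun z : Hist T n => yx T n z a) := by
  by_cases h : a < n + 1
  · have h1 : (fun z : Hist T n => yx T n z a) =
        fun z : Hist T n => ((z.2 ⟨a, h⟩ : T.F a) : V) := by
      funext z
      unfold yx
      rw [dif_pos h]
    rw [h1]
    exact (T.F a).subtypeL.contDiff.comp
      ((ContinuousLinearMap.proj (R := ℝ) (φ := fun a : Fin (n + 1) => T.F (a : ℕ))
        ⟨a, h⟩).contDiff.comp contDiff_snd)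
  · have h1 : (fun z : Hist T n => yx T n z a) = fun _ => (0 : V) := by
      funext z
      unfold yx
      rw [dif_neg h]
    rw [h1]
    exact contDiff_const

theorem cont_vs (hW : ∀ k n, 0 < W k n) (n : ℕ) :
    Continuous (fun y : KF T W => vs G W (yv y) n) := by
  have h1 : ContDiff ℝ ∞ (fun z : Hist T n => vs G W (yx T n z) n) :=
    smooth_vs G (fun k n => (hW k n).le) (y := fun z : Hist T n => yx T n z)
      (fun a => contDiff_yx n a) (fun z a => yx_mem n z a) n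
  have h2 : (fun y : KF T W => vs G W (yv y) n) =
      (fun z : Hist T n => vs G W (yx T n z) n) ∘ fun y : KF T W => histL T hW n (0, y) := by
    funext y
    refine (vs_congr_y G fun a ha => ?_).symm
    exact yx_histL hW n ((0, y) : MM T W) ha
  rw [h2]
  exact h1.continuous.comp ((histL T hW n).continuous.comp (continuous_const.prodMk continuous_id))

end Pool.Agent.Lib.MP_862e0f_al.EW
end

section

/-!
# Existence of the weights (TASK EW Gr)

Compare with `EV/Gr.lean`, whose proof can be adapted. Apply `EV.exists_array` to `C k m W = Grow G k m W`.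
`hcongr`: the maps in `Grow G k m W` depend on `W j a`, `a ≤ m`, and `W j (m + 1)`, `j ≥ k + 1`, only
(`Fm_congr_W`, `Fi_congr_W`, `crd_congr_W` with `t = k + 1`, `n = m + 1`; the dependence on the `W j a`, `a ≤ m`, of `crd` in the
third condition: `crd .. v (m + 1)` involves only `W j (m + 1)`); the box `Box T W (m + 1) k` is given
by the weights `W (k + 1) a`, `a ≤ m + 1`; the bound is `W k (m + 1)`.
`hex`: let `W` be given (positive). The maps are smooth (`smooth_Fm`, `smooth_Fi`, `contDiff_gx`, `contDiff_yx`, `yx_mem`,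
`contDiff_toF`, `Fm_mem`, `Fi_mem`), the boxes are compact (product of a closed ball-type set
`{g | ∀ a, |g a| ≤ n}` and of closed balls in finite-dimensional spaces), so `EV.exists_TBd` gives constants
`C₁, C₂`. Third condition: `crd .. v (m + 1)` depends only on `v a`, `a ≤ m + 1` (`crd_congr`), so it equals
`crd .. (yx T (m + 1) z) (m + 1)` with `z = (0, restriction of v)`; the continuous function
`z ↦ ‖crd .. (yx T (m + 1) z) (m + 1)‖` (`smooth_crd`) is bounded by `C₃` on the compact set of the `z` with `z.1 = 0`, `‖z.2 a‖ ≤ m + 1`.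
Take `x = (m + 2) * max (C₁, C₂, C₃)`; the maps and the box do not change when `W k (m + 1)` is replaced by `x`
(the congruences above), use `EV.TBd.mono`.
-/

set_option autoImplicit false

namespace Pool.Agent.Lib.MP_862e0f_al.EW

open Filter Topology Set
open scoped ContDiff

variable {V : Type} [NormedAddCommGroup V] [NormedSpace ℝ V] {T : Tw V} (G : Gear T)

/-- The growth condition on the weight `W k (m + 1)`. -/
def Grow (k m : ℕ) (W : ℕ → ℕ → ℝ) : Prop :=
  EV.TBd (m + 1) (Hist T (m + 1) × Hist T (m + 1))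
    (fun z => toF T (m + 1) (Fm G W (k + 1) (gx T (m + 1) z.1) (yx T (m + 1) z.1)
      (gx T (m + 1) z.2) (yx T (m + 1) z.2) (m + 1)))
    (Box T W (m + 1) k ×ˢ Box T W (m + 1) k) (W k (m + 1) / (((m + 1 : ℕ) : ℝ) + 1)) ∧
  EV.TBd (m + 1) (Hist T (m + 1))
    (fun z => toF T (m + 1) (Fi G W (k + 1) (gx T (m + 1) z) (yx T (m + 1) z) (m + 1)))
    (Box T W (m + 1) k) (W k (m + 1) / (((m + 1 : ℕ) : ℝ) + 1)) ∧
  ∀ v : ℕ → V, (∀ a, v a ∈ T.F a) → (∀ a, a ≤ m + 1 → ‖v a‖ ≤ (m : ℝ) + 1) →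
    ‖crd G W (k + 1) v (m + 1)‖ ≤ W k (m + 1) / (((m + 1 : ℕ) : ℝ) + 1)

/-- The growth condition with a bound `C`. -/
private def Gr_C (k m : ℕ) (W : ℕ → ℕ → ℝ) (C : ℝ) : Prop :=
  EV.TBd (m + 1) (Hist T (m + 1) × Hist T (m + 1))
    (fun z => toF T (m + 1) (Fm G W (k + 1) (gx T (m + 1) z.1) (yx T (m + 1) z.1)
      (gx T (m + 1) z.2) (yx T (m + 1) z.2) (m + 1)))
    (Box T W (m + 1) k ×ˢ Box T W (m + 1) k) C ∧
  EV.TBd (m + 1) (Hist T (m + 1))
    (fun z => toF T (m + 1) (Fi G W (k + 1) (gx T (m + 1) z) (yx T (m + 1) z) (m + 1)))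
    (Box T W (m + 1) k) C ∧
  ∀ v : ℕ → V, (∀ a, v a ∈ T.F a) → (∀ a, a ≤ m + 1 → ‖v a‖ ≤ (m : ℝ) + 1) →
    ‖crd G W (k + 1) v (m + 1)‖ ≤ C

private theorem Gr_box_congr {k m : ℕ} {W W' : ℕ → ℕ → ℝ} (h : ∀ j a, a ≤ m → W j a = W' j a)
    (h' : ∀ j, k + 1 ≤ j → W j (m + 1) = W' j (m + 1)) :
    Box T W (m + 1) k = Box T W' (m + 1) k := by
  have key : ∀ a : Fin (m + 1 + 1), W (k + 1) a = W' (k + 1) a := by
    intro a
    rcases Nat.lt_or_ge (a : ℕ) (m + 1) with h1 | h1
    · exact h _ _ (by omega)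
    · have h2 : (a : ℕ) = m + 1 := by have := a.2; omega
      rw [h2]
      exact h' _ le_rfl
  unfold Box
  ext z
  simp only [Set.mem_ofPred_eq, key]

private theorem Gr_C_congr {k m : ℕ} {W W' : ℕ → ℕ → ℝ} (h : ∀ j a, a ≤ m → W j a = W' j a)
    (h' : ∀ j, k + 1 ≤ j → W j (m + 1) = W' j (m + 1)) {C : ℝ} (hC : Gr_C G k m W C) :
    Gr_C G k m W' C := by
  obtain ⟨h1, h2, h3⟩ := hC
  have hb : Box T W (m + 1) k = Box T W' (m + 1) k := Gr_box_congr h h'
  have hl : ∀ j a, a < m + 1 → W j a = W' j a := fun j a ha => h j a (by omega)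
  have e1 : (fun z : Hist T (m + 1) × Hist T (m + 1) =>
      toF T (m + 1) (Fm G W (k + 1) (gx T (m + 1) z.1) (yx T (m + 1) z.1)
      (gx T (m + 1) z.2) (yx T (m + 1) z.2) (m + 1))) =
      (fun z : Hist T (m + 1) × Hist T (m + 1) =>
      toF T (m + 1) (Fm G W' (k + 1) (gx T (m + 1) z.1) (yx T (m + 1) z.1)
      (gx T (m + 1) z.2) (yx T (m + 1) z.2) (m + 1))) := by
    funext z
    rw [Fm_congr_W G hl h']
  have e2 : (fun z : Hist T (m + 1) =>
      toF T (m + 1) (Fi G W (k + 1) (gx T (m + 1) z) (yx T (m + 1) z) (m + 1))) =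
      (fun z : Hist T (m + 1) =>
      toF T (m + 1) (Fi G W' (k + 1) (gx T (m + 1) z) (yx T (m + 1) z) (m + 1))) := by
    funext z
    rw [Fi_congr_W G hl h']
  refine ⟨?_, ?_, ?_⟩
  · rw [← hb, ← e1]
    exact h1
  · rw [← hb, ← e2]
    exact h2
  · intro v hv hv'
    rw [← crd_congr_W G h']
    exact h3 v hv hv'

private theorem Gr_box_compact (W : ℕ → ℕ → ℝ) (n k : ℕ) : IsCompact (Box T W n k) := by
  have h1 : Box T W n k = (Set.pi univ (fun _ : Fin (n + 1) =>
      Metric.closedBall (0 : ℝ) n)) ×ˢ (Set.pi univ (fun a : Fin (n + 1) =>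
      Metric.closedBall (0 : T.F (a : ℕ)) (n * W (k + 1) a))) := by
    ext z
    simp only [Box, Set.mem_ofPred_eq, Set.mem_prod, Set.mem_pi, Set.mem_univ, true_implies,
      mem_closedBall_zero_iff, Real.norm_eq_abs]
  rw [h1]
  exact (isCompact_univ_pi fun a => isCompact_closedBall _ _).prod
    (isCompact_univ_pi fun a => isCompact_closedBall _ _)

private theorem Gr_exists (k m : ℕ) (W : ℕ → ℕ → ℝ) (hW : ∀ j a, 0 ≤ W j a) :
    ∃ C : ℝ, 0 < C ∧ Gr_C G k m W C := by
  have hs1 : ContDiff ℝ ∞ (fun z : Hist T (m + 1) × Hist T (m + 1) =>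
      toF T (m + 1) (Fm G W (k + 1) (gx T (m + 1) z.1) (yx T (m + 1) z.1)
      (gx T (m + 1) z.2) (yx T (m + 1) z.2) (m + 1))) := by
    refine contDiff_toF (smooth_Fm G hW (fun a => ?_) (fun a => ?_) (fun x a => yx_mem _ _ _)
      (fun a => ?_) (fun a => ?_) (fun x a => yx_mem _ _ _) (m + 1)) (fun x => ?_)
    · exact (contDiff_gx (m + 1) a).comp contDiff_fst
    · exact (contDiff_yx (m + 1) a).comp contDiff_fst
    · exact (contDiff_gx (m + 1) a).comp contDiff_snd
    · exact (contDiff_yx (m + 1) a).comp contDiff_snd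
    · exact Fm_mem G _ (fun a => yx_mem _ _ _) _ (fun a => yx_mem _ _ _) (m + 1)
  have hs2 : ContDiff ℝ ∞ (fun z : Hist T (m + 1) =>
      toF T (m + 1) (Fi G W (k + 1) (gx T (m + 1) z) (yx T (m + 1) z) (m + 1))) := by
    refine contDiff_toF (smooth_Fi G hW (fun a => ?_) (fun a => ?_) (fun x a => yx_mem _ _ _)
      (m + 1)) (fun x => ?_)
    · exact contDiff_gx (m + 1) a
    · exact contDiff_yx (m + 1) a
    · exact Fi_mem G _ (fun a => yx_mem _ _ _) (m + 1)
  obtain ⟨C₁, hC₁, h1⟩ := EV.exists_TBd (m + 1) _ _ _ hs1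
    ((Gr_box_compact (T := T) W (m + 1) k).prod (Gr_box_compact (T := T) W (m + 1) k))
  obtain ⟨C₂, hC₂, h2⟩ := EV.exists_TBd (m + 1) _ _ _ hs2 (Gr_box_compact (T := T) W (m + 1) k)
  have hc : Continuous (fun z : Hist T (m + 1) =>
      ‖crd G W (k + 1) (yx T (m + 1) z) (m + 1)‖) := by
    have hA : ContDiff ℝ ∞ (fun z : Hist T (m + 1) =>
        crd G W (k + 1) (yx T (m + 1) z) (m + 1)) :=
      smooth_crd G (fun a _ => contDiff_yx (m + 1) a)
    exact hA.continuous.norm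
  have hcomp : IsCompact ((Set.pi univ (fun _ : Fin (m + 1 + 1) =>
      Metric.closedBall (0 : ℝ) 0)) ×ˢ (Set.pi univ (fun a : Fin (m + 1 + 1) =>
      Metric.closedBall (0 : T.F (a : ℕ)) ((m : ℝ) + 1)))) :=
    (isCompact_univ_pi fun a => isCompact_closedBall _ _).prod
      (isCompact_univ_pi fun a => isCompact_closedBall _ _)
  obtain ⟨C₃, h3⟩ := hcomp.bddAbove_image hc.continuousOn
  refine ⟨max (max C₁ C₂) C₃, lt_of_lt_of_le hC₁ (le_trans (le_max_left _ _) (le_max_left _ _)),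
    EV.TBd.mono _ _ _ _ _ _ (le_trans (le_max_left _ _) (le_max_left _ _)) h1,
    EV.TBd.mono _ _ _ _ _ _ (le_trans (le_max_right _ _) (le_max_left _ _)) h2, ?_⟩
  intro v hv hv'
  let z : Hist T (m + 1) := (fun _ => 0, fun a => ⟨v a, hv a⟩)
  have hz : crd G W (k + 1) v (m + 1) = crd G W (k + 1) (yx T (m + 1) z) (m + 1) := by
    refine crd_congr G fun a ha => ?_
    unfold yx
    rw [dif_pos (by omega)]
  rw [hz]
  refine le_trans (h3 ⟨z, ?_, rfl⟩) (le_max_right _ _)
  refine Set.mem_prod.2 ⟨fun a _ => ?_, fun a _ => ?_⟩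
  · rw [mem_closedBall_zero_iff]
    simp [z]
  · rw [mem_closedBall_zero_iff]
    exact hv' a (by have := a.2; omega)

theorem exists_weights : ∃ W : ℕ → ℕ → ℝ, (∀ j a, 0 < W j a) ∧ (∀ j a, a ≤ j → W j a = 1) ∧
    ∀ k m, k ≤ m → Grow G k m W := by
  refine EV.exists_array (fun k m W => Grow G k m W) ?_ ?_
  · intro k m W W' _ h h' hG
    have h1 : Gr_C G k m W (W k (m + 1) / (((m + 1 : ℕ) : ℝ) + 1)) := hG
    have h2 : Gr_C G k m W' (W k (m + 1) / (((m + 1 : ℕ) : ℝ) + 1)) :=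
      Gr_C_congr G h (fun j hj => h' j (by omega)) h1
    rw [h' k le_rfl] at h2
    exact h2
  · intro k m W _ hpos _
    obtain ⟨C, hC, h⟩ := Gr_exists G k m W (fun j a => (hpos j a).le)
    have hm : (0 : ℝ) < ((m + 1 : ℕ) : ℝ) + 1 := by positivity
    refine ⟨(((m + 1 : ℕ) : ℝ) + 1) * C, mul_pos hm hC, ?_⟩
    have h2 : Gr_C G k m (fun j a => if j = k ∧ a = m + 1 then (((m + 1 : ℕ) : ℝ) + 1) * C
        else W j a) C := by
      refine Gr_C_congr G (fun j a ha => ?_) (fun j hj => ?_) h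
      · rw [if_neg (by omega)]
      · rw [if_neg (by omega)]
    have h3 : (fun j a => if j = k ∧ a = m + 1 then (((m + 1 : ℕ) : ℝ) + 1) * C
        else W j a) k (m + 1) / (((m + 1 : ℕ) : ℝ) + 1) = C := by
      simp only [and_self, if_true]
      rw [mul_div_cancel_left₀ _ hm.ne']
    have h4 : ∀ C' : ℝ, C' = C → Gr_C G k m
        (fun j a => if j = k ∧ a = m + 1 then (((m + 1 : ℕ) : ℝ) + 1) * C else W j a) C' := by
      intro C' hC'
      rw [hC']
      exact h2
    exact h4 _ h3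

end Pool.Agent.Lib.MP_862e0f_al.EW
end

section

/-!
# The coordinates of a sequence are in the model space (TASK EW Fw)

`Su T v` says that the constant family `v` (over the one-point space) is locally controlled. `crd_le`: if `k < n`, `‖v a‖ ≤ n` for
`a ≤ n` and `N j (v n) ≤ thr G j v n / 2` for all `j ≤ k`, then `crd G W 0 v n = crd G W (k + 1) v n` (`crd_trunc` with `t = k + 1`), and the third
part of `Grow G k m W`, `n = m + 1`, gives `‖crd G W (k + 1) v n‖ ≤ W k n / (n + 1)`.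
`crd_null`: fix `k`; by `LC.dead` (evaluate the `∀ᶠ` at the point, `Filter.Eventually.self_of_nhds`) there is `n₀` with
`N j (v n) < thr / 2` for `j ≤ k`, `n ≥ n₀`; by `LC.N_bdd` (level `0`) `‖v a‖ ≤ N 0 (v a) ≤ B` for all `a` (`T.norm_le`,
`Finset.single_le_sum`). For `n ≥ n₀, k + 1, B`: `‖crd G W 0 v n‖ / |W k n| ≤ 1 / (n + 1) → 0`.
-/

set_option autoImplicit false

namespace Pool.Agent.Lib.MP_862e0f_al.EW

open Filter Topology Set

variable {V : Type} [NormedAddCommGroup V] [NormedSpace ℝ V] {T : Tw V} (G : Gear T)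
  {W : ℕ → ℕ → ℝ}

variable (T) in
/-- summable increments -/
def Su (v : ℕ → V) : Prop := LC T (fun _ : Unit => v) ()

theorem crd_le (hG : ∀ k m, k ≤ m → Grow G k m W) {v : ℕ → V} (hv : ∀ a, v a ∈ T.F a) {k n : ℕ}
    (hk : k < n) (hn : ∀ a, a ≤ n → ‖v a‖ ≤ (n : ℝ))
    (h : ∀ j, j ≤ k → T.N j (v n) ≤ thr G j v n / 2) :
    ‖crd G W 0 v n‖ ≤ W k n / ((n : ℝ) + 1) := by
  obtain ⟨m, rfl⟩ : ∃ m, n = m + 1 := ⟨n - 1, by omega⟩
  have h1 : crd G W (k + 1) v (m + 1) = crd G W 0 v (m + 1) :=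
    crd_trunc G hv fun j hj _ => h j (by omega)
  have h2 := (hG k m (by omega)).2.2 v hv (fun a ha => by
    have := hn a ha
    push_cast at this
    exact this)
  rw [h1] at h2
  exact h2

theorem crd_null (hW : ∀ k n, 0 < W k n) (hG : ∀ k m, k ≤ m → Grow G k m W) {v : ℕ → V}
    (hv : Su T v) (k : ℕ) : Tendsto (fun n => ‖crd G W 0 v n‖ / |W k n|) atTop (𝓝 0) := by
  obtain ⟨n₀, hn₀⟩ := hv.dead G k
  have hd := hn₀.self_of_nhds
  obtain ⟨B, hB⟩ := hv.N_bdd 0
  have hB' := hB.self_of_nhds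
  have hvB : ∀ a, ‖v a‖ ≤ B := by
    intro a
    refine (T.norm_le _).trans (le_trans ?_ (hB' (a + 1)))
    exact Finset.single_le_sum (f := fun a => T.N 0 (v a)) (fun i _ => apply_nonneg _ _)
      (Finset.self_mem_range_succ a)
  refine squeeze_zero' (g := fun n : ℕ => 1 / ((n : ℝ) + 1)) ?_ ?_
    tendsto_one_div_add_atTop_nhds_zero_nat
  · exact Eventually.of_forall fun n => by positivity
  · filter_upwards [eventually_ge_atTop n₀, eventually_ge_atTop (k + 1),
      eventually_ge_atTop ⌈B⌉₊] with n h1 h2 h3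
    have hn1 : (0 : ℝ) < (n : ℝ) + 1 := by positivity
    have h4 := crd_le G hG (v := v) (fun a => hv.mem () a) (k := k) (n := n) (by omega)
      (fun a _ => (hvB a).trans ((Nat.le_ceil B).trans (by exact_mod_cast h3)))
      (fun j hj => (hd n h1 j hj).le)
    rw [abs_of_pos (hW k n), div_le_iff₀ (hW k n)]
    calc ‖crd G W 0 v n‖ ≤ W k n / ((n : ℝ) + 1) := h4
      _ = 1 / ((n : ℝ) + 1) * W k n := by ring

end Pool.Agent.Lib.MP_862e0f_al.EW
end

section

/-!
# The inverse chart is locally controlled (TASK EW LV)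

`mem`: `vs_mem`, `yv_mem`. `cont`: `cont_vs`. `tail`: given `k`, `η` choose `k' ≥ k` with `(1/2) ^ k' ≤ min η 1`. By `y₀.null k'` there is
`n₀ > k'` with `‖yv y₀ n‖ < W k' n / 2` for all `n ≥ n₀`. For `z` with `Pk k' (z - y₀) < 1/2` (a neighbourhood,
`eventually_Pk`): `‖yv z n‖ < W k' n` for `n ≥ n₀` (`le_Pk`), so `T.N k' (vs z n) < thr G k' (vs z) n` (`N_vs_lt`, `k' < n`), i.e.
`T.q k' (vs z n) < uu G k' (vs z) n` (`q_lt_uu_iff`), and `tail_sum` gives `∑ a ∈ Ico n₀ M, T.q k' (vs z a) ≤ (1/2) ^ k' ≤ min η 1`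
for all `M`. So every `T.q k' (vs z a) ≤ 1`, `a ≥ n₀` (`Finset.single_le_sum` with `M = a + 1`) and `T.q k ≤ T.q k'` there (`q_le_q`).
-/

set_option autoImplicit false

namespace Pool.Agent.Lib.MP_862e0f_al.EW

open Filter Topology Set

variable {V : Type} [NormedAddCommGroup V] [NormedSpace ℝ V] {T : Tw V} (G : Gear T)
  {W : ℕ → ℕ → ℝ}

theorem LC_vs (hW : ∀ k n, 0 < W k n) (y₀ : KF T W) :
    LC T (fun y : KF T W => vs G W (yv y)) y₀ := by
  refine ⟨fun y n => vs_mem G (fun a => yv_mem y a) n, fun n => (cont_vs G hW n).continuousAt, ?_⟩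
  intro k η hη
  obtain ⟨m, hm⟩ := exists_pow_lt_of_lt_one (lt_min hη one_pos) (by norm_num : (1 / 2 : ℝ) < 1)
  obtain ⟨k', hk'⟩ : ∃ k', k' = max k m := ⟨_, rfl⟩
  have hkk : k ≤ k' := by rw [hk']; exact le_max_left _ _
  have hmk : m ≤ k' := by rw [hk']; exact le_max_right _ _
  have hp : (1 / 2 : ℝ) ^ k' ≤ min η 1 :=
    le_trans (pow_le_pow_of_le_one (by norm_num) (by norm_num) hmk) hm.le
  have hpη : (1 / 2 : ℝ) ^ k' ≤ η := le_trans hp (min_le_left _ _)
  have hp1 : (1 / 2 : ℝ) ^ k' ≤ 1 := le_trans hp (min_le_right _ _)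
  obtain ⟨n₁, hn₁⟩ := eventually_atTop.1
    ((y₀.null k').eventually (gt_mem_nhds (by norm_num : (0 : ℝ) < 1 / 2)))
  refine ⟨max n₁ (k' + 1), ?_⟩
  filter_upwards [eventually_Pk y₀ k' (by norm_num : (0 : ℝ) < 1 / 2)] with z hz M
  have small : ∀ n, max n₁ (k' + 1) ≤ n → ‖yv z n‖ < W k' n := by
    intro n hn
    have h1 := hn₁ n (le_trans (le_max_left _ _) hn)
    rw [abs_of_pos (hW k' n), div_lt_iff₀ (hW k' n)] at h1
    have h2 := le_Pk hW k' (z - y₀) n
    rw [Kt.c_sub] at h2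
    have h3 : W k' n * Pk (fun n => T.F n) W k' (z - y₀) < W k' n * (1 / 2) :=
      mul_lt_mul_of_pos_left hz (hW k' n)
    have h4 : ‖z.c n‖ ≤ ‖z.c n - y₀.c n‖ + ‖y₀.c n‖ := by
      have h5 := norm_add_le (z.c n - y₀.c n) (y₀.c n)
      rwa [sub_add_cancel] at h5
    rw [norm_yv]
    linarith
  have hq : ∀ n, max n₁ (k' + 1) ≤ n →
      T.q k' (vs G W (yv z) n) < uu G k' (vs G W (yv z)) n := by
    intro n hn
    have hkn : k' < n := le_trans (le_max_right _ _) hn
    exact (q_lt_uu_iff G k' _ n _).2 (N_vs_lt G hW hkn (fun a => yv_mem z a) (small n hn))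
  have ht : ∀ M', ∑ a ∈ Finset.Ico (max n₁ (k' + 1)) M', T.q k' (vs G W (yv z) a) ≤ (1 / 2) ^ k' :=
    fun M' => tail_sum G (fun a => vs_mem G (fun a => yv_mem z a) a) k' _ M' (fun n hn _ => hq n hn)
  have hone : ∀ a, max n₁ (k' + 1) ≤ a → T.q k' (vs G W (yv z) a) ≤ 1 := by
    intro a ha
    have h1 := Finset.single_le_sum (f := fun a => T.q k' (vs G W (yv z) a))
      (s := Finset.Ico (max n₁ (k' + 1)) (a + 1)) (fun i _ => q_nonneg T k' _)
      (Finset.mem_Ico.2 ⟨ha, Nat.lt_succ_self a⟩)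
    exact le_trans h1 (le_trans (ht (a + 1)) hp1)
  calc ∑ a ∈ Finset.Ico (max n₁ (k' + 1)) M, T.q k (vs G W (yv z) a)
      ≤ ∑ a ∈ Finset.Ico (max n₁ (k' + 1)) M, T.q k' (vs G W (yv z) a) :=
        Finset.sum_le_sum fun a ha => q_le_q T hkk (hone a (Finset.mem_Ico.1 ha).1)
    _ ≤ η := le_trans (ht M) hpη

end Pool.Agent.Lib.MP_862e0f_al.EW
end

section

/-!
# The group of sequences and its global chart
-/

set_option autoImplicit false

namespace Pool.Agent.Lib.MP_862e0f_al.EW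

open Filter Topology Set
open scoped ContDiff

variable {V : Type} [NormedAddCommGroup V] [NormedSpace ℝ V] {T : Tw V} (G : Gear T)
  {W : ℕ → ℕ → ℝ}

theorem Su.vop {g g' : ℕ → ℝ} {v v' : ℕ → V} (h : Su T v) (h' : Su T v')
    (hb : ∃ C : ℝ, ∀ a, |g a| ≤ C) (hb' : ∃ C : ℝ, ∀ a, |g' a| ≤ C) :
    Su T (T.vop (tq g) v (tq g') v') := by
  obtain ⟨C, hC⟩ := hb
  obtain ⟨C', hC'⟩ := hb'
  exact LC.vop (g := fun _ => g) (g' := fun _ => g') h h' (fun n => continuousAt_const)
    (fun n => continuousAt_const) ⟨C, Eventually.of_forall fun _ => hC⟩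
    ⟨C', Eventually.of_forall fun _ => hC'⟩

theorem Su.viv {g : ℕ → ℝ} {v : ℕ → V} (h : Su T v)
    (hb : ∃ C : ℝ, ∀ a, |g a| ≤ C) : Su T (T.viv (tq g) v) := by
  obtain ⟨C, hC⟩ := hb
  exact LC.viv (g := fun _ => g) h (fun n => continuousAt_const)
    ⟨C, Eventually.of_forall fun _ => hC⟩

theorem Su.mem {v : ℕ → V} (h : Su T v) (a : ℕ) : v a ∈ T.F a := LC.mem h () a

/-- a locally controlled family has summable members -/
theorem LC.su {X : Type} [TopologicalSpace X] {v : X → ℕ → V} {x : X} (h : LC T v x) :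
    Su T (v x) := LC.comp (f := fun _ : Unit => x) h continuousAt_const

/-- the coefficients of the translations -/
noncomputable def gt (T : Tw V) (Z : ℕ → V) (n : ℕ) : ℝ := T.tau n (Z n) / ((n : ℝ) + 1)

theorem tq_gt (Z : ℕ → V) : tq (gt T Z) = fun n => T.tau n (Z n) := by
  funext n
  unfold tq gt
  field_simp

theorem bdd_of_tendsto {g : ℕ → ℝ} (h : Tendsto g atTop (𝓝 0)) : ∃ C : ℝ, ∀ a, |g a| ≤ C := by
  obtain ⟨C, hC⟩ := h.abs.bddAbove_range
  exact ⟨C, fun a => hC ⟨a, rfl⟩⟩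

variable (T) in
/-- The group of sequences. -/
def SG : Type := {Z : ℕ → V // (∀ n, Z n ∈ T.E n) ∧ Tendsto (gt T Z) atTop (𝓝 0) ∧ Su T (T.vv Z)}

theorem vv_op {Z Z' : ℕ → V} (hZ : ∀ n, Z n ∈ T.E n) (hZ' : ∀ n, Z' n ∈ T.E n) :
    T.vv (fun n => T.op (Z n) (Z' n)) = T.vop (tq (gt T Z)) (T.vv Z) (tq (gt T Z')) (T.vv Z') := by
  unfold Pre.vop
  congr 1
  funext n
  rw [tq_gt, tq_gt, seq_vv hZ n, seq_vv hZ' n]

theorem vv_iv {Z : ℕ → V} (hZ : ∀ n, Z n ∈ T.E n) :
    T.vv (fun n => T.iv (Z n)) = T.viv (tq (gt T Z)) (T.vv Z) := by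
  unfold Pre.viv
  congr 1
  funext n
  rw [tq_gt, seq_vv hZ n]

namespace SG

instance : Mul (SG T) :=
  ⟨fun a b => ⟨fun n => T.op (a.1 n) (b.1 n), fun n => T.op_mem n _ _ (a.2.1 n) (b.2.1 n), by
    have h := a.2.2.1.add b.2.2.1
    rw [add_zero] at h
    refine h.congr fun n => ?_
    unfold gt
    rw [T.tau_op n _ _ (a.2.1 n) (b.2.1 n), add_div], by
    rw [vv_op a.2.1 b.2.1]
    exact Su.vop a.2.2.2 b.2.2.2 (bdd_of_tendsto a.2.2.1) (bdd_of_tendsto b.2.2.1)⟩⟩

instance : One (SG T) := ⟨⟨fun _ => 0, fun n => (T.E n).zero_mem, by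
    unfold gt
    simp only [map_zero, zero_div]
    exact tendsto_const_nhds, by
    have h0 : T.vv (fun _ => (0 : V)) = fun _ => 0 := by
      funext n
      cases n with
      | zero => simp [Pre.vv]
      | succ n => simp [Pre.vv]
    rw [h0]
    refine ⟨fun _ n => (T.F n).zero_mem, fun _ => continuousAt_const, fun k η hη => ⟨0, ?_⟩⟩
    refine Eventually.of_forall fun _ M => ?_
    rw [Finset.sum_eq_zero fun a _ => q_zero T k]
    exact hη.le⟩⟩

instance : Inv (SG T) :=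
  ⟨fun a => ⟨fun n => T.iv (a.1 n), fun n => T.iv_mem n _ (a.2.1 n), by
    have h := a.2.2.1.neg
    rw [neg_zero] at h
    refine h.congr fun n => ?_
    unfold gt
    rw [tau_iv (a.2.1 n), neg_div], by
    rw [vv_iv a.2.1]
    exact Su.viv a.2.2.2 (bdd_of_tendsto a.2.2.1)⟩⟩

theorem mul_val (a b : SG T) (n : ℕ) : (a * b).1 n = T.op (a.1 n) (b.1 n) := rfl
theorem one_val (n : ℕ) : (1 : SG T).1 n = 0 := rfl
theorem inv_val (a : SG T) (n : ℕ) : (a⁻¹).1 n = T.iv (a.1 n) := rfl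

noncomputable instance : Group (SG T) :=
  Group.ofLeftAxioms (fun _ _ _ => Subtype.ext (funext fun _ => T.op_assoc _ _ _))
    (fun _ => Subtype.ext (funext fun _ => T.zero_op _))
    (fun _ => Subtype.ext (funext fun _ => T.iv_op _))

end SG

theorem C0_null (g : C0) : Tendsto g.c atTop (𝓝 0) := by
  have h := g.null 0
  simp only [one, abs_one, div_one] at h
  exact tendsto_zero_iff_norm_tendsto_zero.2 h

/-- an element of `C0` -/
noncomputable def C0.mk (g : ℕ → ℝ) (h : Tendsto g atTop (𝓝 0)) : C0 :=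
  Kt.mk' (X := fun _ => ℝ) one g fun _ => by
    simp only [one, abs_one, div_one]
    exact tendsto_zero_iff_norm_tendsto_zero.1 h

theorem C0.mk_c (g : ℕ → ℝ) (h : Tendsto g atTop (𝓝 0)) (n : ℕ) : (C0.mk g h).c n = g n := rfl

/-- the sequence with coordinates `x` -/
noncomputable def sq (x : MM T W) (n : ℕ) : V := T.seq (tq x.1.c) (vs G W (yv x.2)) n

/-- The global chart. -/
noncomputable def eqv (hW : ∀ k n, 0 < W k n) (hG : ∀ k m, k ≤ m → Grow G k m W) :
    MM T W ≃ SG T where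
  toFun x := ⟨sq G x, seq_mem (vs_mem G (yv_mem x.2)), by
    refine (C0_null x.1).congr fun n => ?_
    unfold gt sq
    rw [tau_seq (vs_mem G (yv_mem x.2))]
    unfold tq
    field_simp, by
    have h : T.vv (sq G x) = vs G W (yv x.2) := vv_seq (vs_mem G (yv_mem x.2))
    rw [h]
    exact (LC_vs G hW x.2).su⟩
  invFun Z := (C0.mk (gt T Z.1) Z.2.2.1,
    Kt.mk' W (fun n => ⟨crd G W 0 (T.vv Z.1) n, crd_mem G (vv_mem Z.2.1) n⟩)
      (crd_null G hW hG Z.2.2.2))
  left_inv x := by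
    have h : T.vv (sq G x) = vs G W (yv x.2) := vv_seq (vs_mem G (yv_mem x.2))
    refine Prod.ext (Kt.ext' fun n => ?_) (Kt.ext' fun n => Subtype.ext ?_)
    · show gt T (sq G x) n = x.1.c n
      unfold gt sq
      rw [tau_seq (vs_mem G (yv_mem x.2))]
      unfold tq
      field_simp
    · show crd G W 0 (T.vv (sq G x)) n = yv x.2 n
      rw [h]
      exact crd_vs G (fun k n => (hW k n).le) (yv_mem x.2) n
  right_inv Z := by
    refine Subtype.ext (funext fun n => ?_)
    show T.seq (tq (gt T Z.1)) (vs G W (crd G W 0 (T.vv Z.1))) n = Z.1 n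
    rw [tq_gt, seq_congr (fun _ _ => rfl)
      (fun a _ => vs_crd G (fun k n => (hW k n).le) (vv_mem Z.2.1) a)]
    exact seq_vv Z.2.1 n

theorem eqv_val (hW : ∀ k n, 0 < W k n) (hG : ∀ k m, k ≤ m → Grow G k m W) (x : MM T W) :
    (eqv G hW hG x).1 = sq G x := rfl

/-- The group structure on the model space. -/
@[reducible] noncomputable def grp (hW : ∀ k n, 0 < W k n)
    (hG : ∀ k m, k ≤ m → Grow G k m W) : Group (MM T W) := (eqv G hW hG).group

theorem sq_mul (hW : ∀ k n, 0 < W k n) (hG : ∀ k m, k ≤ m → Grow G k m W) (x y : MM T W)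
    (n : ℕ) : sq G ((grp G hW hG).mul x y) n = T.op (sq G x n) (sq G y n) := by
  have h : eqv G hW hG ((grp G hW hG).mul x y) = eqv G hW hG x * eqv G hW hG y :=
    (eqv G hW hG).apply_symm_apply _
  exact congrArg (fun Z : SG T => Z.1 n) h

theorem sq_inv (hW : ∀ k n, 0 < W k n) (hG : ∀ k m, k ≤ m → Grow G k m W) (x : MM T W)
    (n : ℕ) : sq G ((grp G hW hG).inv x) n = T.iv (sq G x n) := by
  have h : eqv G hW hG ((grp G hW hG).inv x) = (eqv G hW hG x)⁻¹ :=
    (eqv G hW hG).apply_symm_apply _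
  exact congrArg (fun Z : SG T => Z.1 n) h

theorem sq_one (hW : ∀ k n, 0 < W k n) (hG : ∀ k m, k ≤ m → Grow G k m W) (n : ℕ) :
    sq G ((grp G hW hG).one) n = 0 := by
  have h : eqv G hW hG ((grp G hW hG).one) = 1 := (eqv G hW hG).apply_symm_apply _
  exact congrArg (fun Z : SG T => Z.1 n) h

theorem vv_sq (x : MM T W) : T.vv (sq G x) = vs G W (yv x.2) := vv_seq (vs_mem G (yv_mem x.2))

theorem tau_sq (x : MM T W) (n : ℕ) : T.tau n (sq G x n) = tq x.1.c n :=
  tau_seq (vs_mem G (yv_mem x.2)) n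

theorem sq_mem (x : MM T W) (n : ℕ) : sq G x n ∈ T.E n := seq_mem (vs_mem G (yv_mem x.2)) n

theorem sq_inj (hW : ∀ k n, 0 < W k n) (hG : ∀ k m, k ≤ m → Grow G k m W) {x y : MM T W}
    (h : ∀ n, sq G x n = sq G y n) : x = y :=
  (eqv G hW hG).injective (Subtype.ext (funext h))

theorem grp_mul_fst (hW : ∀ k n, 0 < W k n) (hG : ∀ k m, k ≤ m → Grow G k m W)
    (x y : MM T W) : ((grp G hW hG).mul x y).1 = x.1 + y.1 := by
  refine Kt.ext' fun n => ?_
  have h1 := tau_sq G ((grp G hW hG).mul x y) n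
  rw [sq_mul, T.tau_op n _ _ (sq_mem G x n) (sq_mem G y n), tau_sq, tau_sq] at h1
  unfold tq at h1
  have h2 : ((n : ℝ) + 1) ≠ 0 := by positivity
  rw [← mul_add] at h1
  exact (mul_left_cancel₀ h2 h1).symm

theorem grp_inv_fst (hW : ∀ k n, 0 < W k n) (hG : ∀ k m, k ≤ m → Grow G k m W)
    (x : MM T W) : ((grp G hW hG).inv x).1 = -x.1 := by
  refine Kt.ext' fun n => ?_
  have h1 := tau_sq G ((grp G hW hG).inv x) n
  rw [sq_inv, tau_iv (sq_mem G x n), tau_sq] at h1
  unfold tq at h1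
  have h2 : ((n : ℝ) + 1) ≠ 0 := by positivity
  have h3 : ((n : ℝ) + 1) * (-x.1.c n) = ((n : ℝ) + 1) * ((grp G hW hG).inv x).1.c n := by
    rw [← h1]; ring
  exact (mul_left_cancel₀ h2 h3).symm

theorem grp_mul_snd (hW : ∀ k n, 0 < W k n) (hG : ∀ k m, k ≤ m → Grow G k m W)
    (x y : MM T W) (n : ℕ) : yv ((grp G hW hG).mul x y).2 n =
      Fm G W 0 x.1.c (yv x.2) y.1.c (yv y.2) n := by
  rw [Fm_zero_eq]
  rw [← crd_vs G (fun k n => (hW k n).le) (yv_mem ((grp G hW hG).mul x y).2) n, ← vv_sq]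
  have h1 : sq G ((grp G hW hG).mul x y) = fun n => T.op (sq G x n) (sq G y n) :=
    funext fun n => sq_mul G hW hG x y n
  rw [h1]
  rfl

theorem grp_inv_snd (hW : ∀ k n, 0 < W k n) (hG : ∀ k m, k ≤ m → Grow G k m W)
    (x : MM T W) (n : ℕ) : yv ((grp G hW hG).inv x).2 n = Fi G W 0 x.1.c (yv x.2) n := by
  rw [Fi_zero_eq]
  rw [← crd_vs G (fun k n => (hW k n).le) (yv_mem ((grp G hW hG).inv x).2) n, ← vv_sq]
  have h1 : sq G ((grp G hW hG).inv x) = fun n => T.iv (sq G x n) :=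
    funext fun n => sq_inv G hW hG x n
  rw [h1]
  rfl

end Pool.Agent.Lib.MP_862e0f_al.EW
end

section

/-!
# Small elements (TASK EW Nr)

`vv_late`: cases on `a`, and `a < n`, `a = n`, `a > n` (`T.tau_lt` for `a > n`). `gt_late`: the same. `su_single`: the sequence is `0` except at
time `n`: `mem` clear, `cont`: `continuousAt_const`, `tail`: take `n₀ = n + 1`, all terms are `q k 0 = 0`.
`vs_zero`: strong induction, `vs_eq`, `nxt_zero`. `sq_zero`: `vs_zero`, `tq` of `0` is `0`. `sq_tr`: `vs_zero`. `grp_one_eq`: `sq_inj`, `sq_one`,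
`sq_zero`.
`thr_zero_lower`: `Lam (j + 1) 0 n ≤ ∑ a ∈ range n, (2 * q (j + 1) 0 + (1/2) ^ a) ≤ 2` (`Gear.lam_upper`, `q_zero`), so
`uu ≥ (1/4) ^ (j + 3) * exp (-2)`, `c = (..) ^ 2 ^ j`.
`near`: write `x' = x - T.tau n x • T.e n ∈ T.F n`. The coordinates of `io n x` are `g a = gt T (late n x) a` (`gt_late`) and
`crd G W 0 (T.vv (late n x)) a`, which is `0` for `a ≠ n` (`vv_late`, `smul_zero`). Given `U`, by `mem_nhds_prod_iff` (`nhds_prod_eq`) and
`mem_nhds_Kt` there are finite sets `s₁, s₂` and `ε₁, ε₂`. Take `ε = ε₁ / 2`, `k = s₂.sup id`, `c = min_{j ≤ k} c_j / 2` with `c_j` from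
`thr_zero_lower`. `Pk k' (io ..).1 ≤ ε` (`Pk_le`, weights `one`). For `j ∈ s₂` and `n > k`: all `i ≤ j` satisfy `T.N i x' ≤ T.N k x' ≤ c ≤ thr G i v n / 2`,
`v = T.vv (late n x)` (`thr_congr`: `v a = 0` for `a < n`), so `crd_le` (with `k := j`) gives `‖crd G W 0 v n‖ ≤ W j n / (n + 1)`, i.e. `Pk j (..) ≤ 1 / (n + 1) < ε₂` for
large `n` (`Pk_le`).
-/

set_option autoImplicit false

namespace Pool.Agent.Lib.MP_862e0f_al.EW

open Filter Topology Set

variable {V : Type} [NormedAddCommGroup V] [NormedSpace ℝ V] {T : Tw V} (G : Gear T)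
  {W : ℕ → ℕ → ℝ}

/-- The sequence which starts at time `n` with the constant value `x`. -/
def late (n : ℕ) (x : V) (a : ℕ) : V := if n ≤ a then x else 0

theorem late_mem {n : ℕ} {x : V} (hx : x ∈ T.E n) (a : ℕ) : late n x a ∈ T.E a := by
  unfold late
  split_ifs with h
  · exact T.mono h hx
  · exact (T.E a).zero_mem

theorem vv_late {n : ℕ} {x : V} (hx : x ∈ T.E n) :
    T.vv (late n x) = fun a => if a = n then x - T.tau n x • T.e n else 0 := by
  funext a
  cases a with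
  | zero =>
    show late n x 0 - T.tau 0 (late n x 0) • T.e 0 = _
    by_cases h : n = 0
    · subst h
      simp [late]
    · have h1 : ¬ n ≤ 0 := by omega
      have h2 : ¬ (0 = n) := by omega
      unfold late
      rw [if_neg h1, if_neg h2, map_zero, zero_smul, sub_zero]
  | succ m =>
    show late n x (m + 1) - late n x m - T.tau (m + 1) (late n x (m + 1)) • T.e (m + 1) = _
    by_cases h : n ≤ m
    · have h1 : n ≤ m + 1 := by omega
      have h2 : ¬ (m + 1 = n) := by omega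
      unfold late
      rw [if_pos h1, if_pos h, if_neg h2, T.tau_lt n (m + 1) x (by omega) hx, zero_smul, sub_self,
        sub_zero]
    · by_cases h3 : m + 1 = n
      · subst h3
        unfold late
        rw [if_pos le_rfl, if_neg h, if_pos rfl, sub_zero]
      · have h1 : ¬ n ≤ m + 1 := by omega
        unfold late
        rw [if_neg h1, if_neg h, if_neg h3, map_zero, zero_smul, sub_zero, sub_zero]

theorem gt_late {n : ℕ} {x : V} (hx : x ∈ T.E n) :
    gt T (late n x) = fun a => if a = n then T.tau n x / ((n : ℝ) + 1) else 0 := by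
  funext a
  unfold gt late
  by_cases h : a = n
  · subst h
    rw [if_pos le_rfl, if_pos rfl]
  · rw [if_neg h]
    by_cases h1 : n ≤ a
    · rw [if_pos h1, T.tau_lt n a x (by omega) hx, zero_div]
    · rw [if_neg h1, map_zero, zero_div]

theorem sub_mem_F {n : ℕ} {x : V} (hx : x ∈ T.E n) : x - T.tau n x • T.e n ∈ T.F n := by
  refine ⟨(T.E n).sub_mem hx ((T.E n).smul_mem _ (T.e_mem n)), ?_⟩
  rw [map_sub, map_smul, T.tau_e, smul_eq_mul, mul_one, sub_self]

theorem su_single {n : ℕ} {x : V} (hx : x ∈ T.F n) :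
    Su T (fun a => if a = n then x else 0) := by
  refine ⟨fun _ a => ?_, fun _ => continuousAt_const, fun k η hη => ⟨n + 1, ?_⟩⟩
  · show (if a = n then x else 0) ∈ T.F a
    by_cases h : a = n
    · subst h
      rw [if_pos rfl]
      exact hx
    · rw [if_neg h]
      exact (T.F a).zero_mem
  · refine Eventually.of_forall fun _ M => ?_
    rw [Finset.sum_eq_zero fun a ha => ?_]
    · exact hη.le
    · have h1 : n + 1 ≤ a := (Finset.mem_Ico.1 ha).1
      have h2 : ¬ a = n := by omega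
      show T.q k (if a = n then x else 0) = 0
      rw [if_neg h2]
      exact q_zero T k

/-- The same as an element of the group of sequences. -/
def lateSG (n : ℕ) {x : V} (hx : x ∈ T.E n) : SG T :=
  ⟨late n x, late_mem hx, by
    rw [gt_late hx]
    refine tendsto_const_nhds.congr' ?_
    filter_upwards [eventually_gt_atTop n] with a ha
    rw [if_neg (by omega)], by
    rw [vv_late hx]
    exact su_single (sub_mem_F hx)⟩

/-- Late start. -/
noncomputable def io (hW : ∀ k n, 0 < W k n) (hG : ∀ k m, k ≤ m → Grow G k m W) (n : ℕ) {x : V}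
    (hx : x ∈ T.E n) : MM T W := (eqv G hW hG).symm (lateSG n hx)

theorem sq_io (hW : ∀ k n, 0 < W k n) (hG : ∀ k m, k ≤ m → Grow G k m W) (n : ℕ) {x : V}
    (hx : x ∈ T.E n) (a : ℕ) : sq G (io G hW hG n hx) a = late n x a := by
  have h : eqv G hW hG (io G hW hG n hx) = lateSG n hx := (eqv G hW hG).apply_symm_apply _
  exact congrArg (fun Z : SG T => Z.1 a) h

theorem vs_zero (n : ℕ) : vs G W (fun _ => (0 : V)) n = 0 := by
  rw [vs_eq]
  exact nxt_zero G 0 n _

private theorem Nr_yv_zero : yv (0 : KF T W) = fun _ => (0 : V) := rfl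

/-- infinite translations -/
noncomputable def tr (g : C0) : MM T W := (g, 0)

theorem continuous_tr : Continuous (tr : C0 → MM T W) :=
  Continuous.prodMk continuous_id continuous_const

theorem sq_tr (g : C0) (n : ℕ) : sq G (tr g : MM T W) n =
    ∑ a ∈ Finset.range (n + 1), tq g.c a • T.e a := by
  show ∑ a ∈ Finset.range (n + 1), (vs G W (yv (0 : KF T W)) a + tq g.c a • T.e a) = _
  refine Finset.sum_congr rfl fun a _ => ?_
  rw [Nr_yv_zero, vs_zero, zero_add]

theorem sq_zero (n : ℕ) : sq G (0 : MM T W) n = 0 := by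
  show ∑ a ∈ Finset.range (n + 1), (vs G W (yv (0 : KF T W)) a +
    tq (0 : C0).c a • T.e a) = 0
  refine Finset.sum_eq_zero fun a _ => ?_
  have h : tq (0 : C0).c a = 0 := by
    show ((a : ℝ) + 1) * (0 : C0).c a = 0
    rw [Kt.c_zero, mul_zero]
  rw [Nr_yv_zero, vs_zero, zero_add, h, zero_smul]

theorem grp_one_eq (hW : ∀ k n, 0 < W k n) (hG : ∀ k m, k ≤ m → Grow G k m W) :
    (grp G hW hG).one = 0 :=
  sq_inj G hW hG fun n => by rw [sq_one, sq_zero]

theorem thr_zero_lower (j : ℕ) : ∃ c : ℝ, 0 < c ∧ ∀ n, c ≤ thr G j (fun _ => (0 : V)) n := by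
  refine ⟨((1 / 4) ^ (j + 3) * Real.exp (-2)) ^ (2 ^ j), by positivity, fun n => ?_⟩
  have h0 : Lam G (j + 1) (fun _ => (0 : V)) n ≤ 2 := by
    have h1 : Lam G (j + 1) (fun _ => (0 : V)) n ≤ ∑ a ∈ Finset.range n, (1 / 2 : ℝ) ^ a := by
      refine Finset.sum_le_sum fun a _ => ?_
      have h2 := G.lam_upper (j + 1) a (0 : V) (T.F a).zero_mem
      rw [q_zero T (j + 1)] at h2
      linarith
    have h3 : ∑ a ∈ Finset.range n, (1 / 2 : ℝ) ^ a ≤ 2 := by
      have h4 := Summable.sum_le_tsum (Finset.range n)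
        (fun a _ => by positivity : ∀ a ∉ Finset.range n, 0 ≤ (1 / 2 : ℝ) ^ a)
        summable_geometric_two
      rw [tsum_geometric_two] at h4
      exact h4
    linarith
  unfold thr uu
  refine pow_le_pow_left₀ (by positivity) ?_ _
  refine mul_le_mul_of_nonneg_left (Real.exp_le_exp.2 ?_) (by positivity)
  linarith

private theorem Nr_thr_all (k : ℕ) : ∃ c : ℝ, 0 < c ∧ ∀ j, j ≤ k → ∀ n,
    c ≤ thr G j (fun _ => (0 : V)) n := by
  induction k with
  | zero =>
    obtain ⟨c, hc, h⟩ := thr_zero_lower G 0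
    refine ⟨c, hc, fun j hj n => ?_⟩
    obtain rfl : j = 0 := by omega
    exact h n
  | succ k ih =>
    obtain ⟨c, hc, h⟩ := ih
    obtain ⟨d, hd, h'⟩ := thr_zero_lower G (k + 1)
    refine ⟨min c d, lt_min hc hd, fun j hj n => ?_⟩
    by_cases hjk : j = k + 1
    · subst hjk
      exact (min_le_right _ _).trans (h' n)
    · exact (min_le_left _ _).trans (h j (by omega) n)

theorem near (hW : ∀ k n, 0 < W k n) (hG : ∀ k m, k ≤ m → Grow G k m W)
    {U : Set (MM T W)} (hU : U ∈ 𝓝 (0 : MM T W)) :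
    ∃ (k : ℕ) (c ε : ℝ), 0 < c ∧ 0 < ε ∧ ∀ᶠ n in atTop, ∀ (x : V) (hx : x ∈ T.E n),
      |T.tau n x| ≤ ε * ((n : ℝ) + 1) → T.N k (x - T.tau n x • T.e n) ≤ c →
        ‖x - T.tau n x • T.e n‖ ≤ n → io G hW hG n hx ∈ U := by
  obtain ⟨U₁, hU₁, U₂, hU₂, hsub⟩ :=
    mem_nhds_prod_iff.1 (show U ∈ 𝓝 ((0 : C0), (0 : KF T W)) from hU)
  obtain ⟨s₁, ε₁, hε₁, h₁⟩ := mem_nhds_Kt hU₁
  obtain ⟨s₂, ε₂, hε₂, h₂⟩ := mem_nhds_Kt hU₂
  obtain ⟨c, hc, hthr⟩ := Nr_thr_all G (s₂.sup id)
  refine ⟨s₂.sup id, c / 2, ε₁ / 2, half_pos hc, half_pos hε₁, ?_⟩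
  have hlim : ∀ᶠ n : ℕ in atTop, 1 / ((n : ℝ) + 1) < ε₂ :=
    tendsto_one_div_add_atTop_nhds_zero_nat.eventually (gt_mem_nhds hε₂)
  filter_upwards [eventually_gt_atTop (s₂.sup id), hlim] with n hn hn2 x hx ht hN hnorm
  have hn1 : 0 < (n : ℝ) + 1 := by positivity
  refine hsub (Set.mem_prod.2 ⟨h₁ _ fun k hk => ?_, h₂ _ fun j hj => ?_⟩)
  · rw [sub_zero]
    refine lt_of_le_of_lt (Pk_le one_pos' k _ (C := ε₁ / 2) fun a => ?_) (half_lt_self hε₁)
    show ‖gt T (late n x) a‖ ≤ 1 * (ε₁ / 2)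
    rw [gt_late hx, one_mul]
    show ‖if a = n then T.tau n x / ((n : ℝ) + 1) else 0‖ ≤ ε₁ / 2
    by_cases h : a = n
    · rw [if_pos h, Real.norm_eq_abs, abs_div, abs_of_pos hn1, div_le_iff₀ hn1]
      exact ht
    · rw [if_neg h, norm_zero]
      exact (half_pos hε₁).le
  · rw [sub_zero]
    have hjk : j ≤ s₂.sup id := Finset.le_sup (f := id) hj
    refine lt_of_le_of_lt (Pk_le hW j _ (C := 1 / ((n : ℝ) + 1)) fun a => ?_) hn2
    show ‖crd G W 0 (T.vv (late n x)) a‖ ≤ W j a * (1 / ((n : ℝ) + 1))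
    have hva : ∀ a, a ≠ n → T.vv (late n x) a = 0 := by
      intro a ha
      rw [vv_late hx]
      exact if_neg ha
    have hvn : T.vv (late n x) n = x - T.tau n x • T.e n := by
      rw [vv_late hx]
      exact if_pos rfl
    by_cases h : a = n
    · subst h
      rw [mul_one_div]
      refine crd_le G hG (vv_mem (late_mem hx)) (lt_of_le_of_lt hjk hn) (fun b hb => ?_)
        (fun i hi => ?_)
      · by_cases hba : b = a
        · rw [hba, hvn]
          exact hnorm
        · rw [hva b hba, norm_zero]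
          positivity
      · rw [hvn, thr_congr G i (w := fun _ => (0 : V)) (fun b hb => hva b (ne_of_lt hb))]
        refine (N_mono' T (hi.trans hjk) _).trans (hN.trans ?_)
        have h3 := hthr i (hi.trans hjk) a
        linarith
    · have h3 : crd G W 0 (T.vv (late n x)) a = 0 := by
        unfold crd
        rw [hva a h, smul_zero]
      rw [h3, norm_zero]
      exact mul_nonneg (hW j a).le (by positivity)

end Pool.Agent.Lib.MP_862e0f_al.EW
end

section

/-!
# The limit points of a sequence (TASK EW EA)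

`H` is a topological group of sequences in the triangular polynomial group. `act n h x = x + (Z h n).f x`.
`one`, `inv`: from `mul` (`opb_assoc`, `zero_opb`, `ivb_opb`, `ivb_unique`; compare `Late.one` in `EV/EP.lean`). `act_mul`: `opb_f`. `act_inv`: `act_mul`,
`one`. `seqZ`: `seq_vv` (`tq_gt`). `diff`: `(Z h M).f x i - (Z h N).f x i = ∑ a ∈ Ico (N + 1) (M + 1), (v a).f x i` for `i ≤ N ≤ M` by `seqZ` and
`seq_f` (`T = triT`, `triT.toPre = tri`), `le_Nb`. `tail`: `LC.N_tail`. `bdd`: `LC.N_bdd` at the point (`Eventually.self_of_nhds`).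
`t_bdd`: `|triT.tau a (Z h a)| = (a + 1) * |gt triT (Z h) a| ≤ C * (a + 1)` (`null`, `bdd_of_tendsto`). `box`: `seqZ` and the argument of `seq_box`: let
`|t a| ≤ C * (a + 1)`, `∑ a ∈ range M, Nb k (v a) ≤ B` for all `M`; one can apply `seq_box` with suitable `Ctl` (`S` constant `B`-type, `L j` arbitrary
large, e.g. `L j = n + 1` so that the sums are empty: for each `n` separately, `K = k`: choose `S j = max over j ≤ k of the bounds`), or repeat it.
`lip`: `(Z h n).f (y n) i - (Z h n).f 0 i = ∑ a ∈ range (n + 1), ((v a).f (y n) i - (v a).f 0 i)` (`seqZ`, `seq_f`, the constants cancel). Given `η`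
choose `n₀` with `∑ a ∈ Ico n₀ M, Nb k (v a) ≤ η` for all `M` (`tail` at the point): the terms `a ≥ n₀` contribute at most `2 * η` (`le_Nb`; `0` is in every
box). For each of the finitely many `a < n₀`: `(v a).f (y n) i → (v a).f 0 i` as `n → ∞`: `(v a).f · i` is a polynomial function of finitely many
coordinates; `cont_eval`: span induction (see `CN_bound_Cs` in `CN.lean`), `mo α` is a finite product.
-/

set_option autoImplicit false

namespace Pool.Agent.Lib.MP_862e0f_al.EW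

open Filter Topology Set

/-- The properties of the group of sequences which are used. -/
structure Good (H : Type) [Group H] [TopologicalSpace H] (Z : H → ℕ → Vb) : Prop where
  mem : ∀ h n, Z h n ∈ Eb n
  mul : ∀ g h n, Z (g * h) n = opb (Z g n) (Z h n)
  inj : ∀ g h, (∀ n, Z g n = Z h n) → g = h
  loc : ∀ h, LC triT (fun g => triT.vv (Z g)) h
  null : ∀ h, Tendsto (gt triT (Z h)) atTop (𝓝 0)
  cont : ∀ h n, ContinuousAt (fun g => Z g n) h
  near : ∀ U ∈ 𝓝 (1 : H), ∃ (k : ℕ) (c ε : ℝ), 0 < c ∧ 0 < ε ∧ ∀ᶠ n in atTop, ∀ x : Vb,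
    x ∈ Eb n → |taub n x| ≤ ε * ((n : ℝ) + 1) → Nb k (x - taub n x • eb n) ≤ c →
      ‖x - taub n x • eb n‖ ≤ n → ∃ h ∈ U, ∀ a, Z h a = late n x a
  trans : ∃ tr : C0 → H, Continuous tr ∧ ∀ g n, Z (tr g) n =
    ∑ a ∈ Finset.range (n + 1), tq g.c a • eb a
  start : ∀ n (x : Vb), x ∈ Eb n → ∃ h, ∀ a, Z h a = late n x a

private theorem EA_Cs {n : ℕ} {d : ℝ} {y : ℕ → ℕ → ℂ} {z : ℕ → ℂ}
    (h : ∀ l, Tendsto (fun n => y n l) atTop (𝓝 (z l))) {f : (ℕ → ℂ) → ℂ} (hf : f ∈ Cs n d) :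
    Tendsto (fun m => f (y m)) atTop (𝓝 (f z)) := by
  unfold Cs at hf
  induction hf using Submodule.span_induction with
  | mem f hf =>
    obtain ⟨α, -, -, rfl⟩ := hf
    show Tendsto (fun m => ∏ l ∈ α.support, (y m l) ^ (α l)) atTop (𝓝 (∏ l ∈ α.support, (z l) ^ (α l)))
    exact tendsto_finset_prod _ fun l _ => (h l).pow _
  | zero => exact tendsto_const_nhds
  | add f g _ _ h1 h2 => exact h1.add h2
  | smul c f _ h => exact h.const_smul c

/-- polynomial maps are continuous on sequences of points -/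
theorem cont_eval (F : Vb) (i : ℕ) {y : ℕ → ℕ → ℂ} {z : ℕ → ℂ}
    (h : ∀ l, Tendsto (fun n => y n l) atTop (𝓝 (z l))) :
    Tendsto (fun n => F.f (y n) i) atTop (𝓝 (F.f z i)) := by
  obtain ⟨N, hN⟩ := F.exh
  rcases le_or_gt i N with hi | hi
  · exact EA_Cs h (hN.1 i hi)
  · have h1 : (fun n => F.f (y n) i) = fun _ => 0 := funext fun n => hN.2 i hi (y n)
    rw [h1, hN.2 i hi z]
    exact tendsto_const_nhds

variable {H : Type} [Group H] [TopologicalSpace H] {Z : H → ℕ → Vb}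

/-- the action at time `n` -/
noncomputable def act (Z : H → ℕ → Vb) (n : ℕ) (h : H) (x : ℕ → ℂ) : ℕ → ℂ := x + (Z h n).f x

namespace Good

variable (hH : Good H Z)

include hH

theorem one (n : ℕ) : Z 1 n = 0 := by
  have h := hH.mul 1 1 n
  rw [one_mul] at h
  have h1 : opb (ivb (Z 1 n)) (Z 1 n) = opb (ivb (Z 1 n)) (opb (Z 1 n) (Z 1 n)) := by rw [← h]
  rw [← opb_assoc, ivb_opb, zero_opb] at h1
  exact h1.symm

theorem inv (h : H) (n : ℕ) : Z h⁻¹ n = ivb (Z h n) := by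
  refine ivb_unique ?_
  rw [← hH.mul, mul_inv_cancel]
  exact hH.one n

theorem act_mul (n : ℕ) (g h : H) (x : ℕ → ℂ) : act Z n (g * h) x = act Z n g (act Z n h x) := by
  unfold act
  rw [hH.mul, opb_f]
  exact (add_assoc _ _ _).symm

theorem act_inv (n : ℕ) (h : H) (x : ℕ → ℂ) : act Z n h⁻¹ (act Z n h x) = x := by
  rw [← hH.act_mul, inv_mul_cancel]
  unfold act
  rw [hH.one, Vb.zero_f]
  exact add_zero x

theorem seqZ (h : H) (n : ℕ) : Z h n = tri.seq (fun a => taub a (Z h a)) (triT.vv (Z h)) n :=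
  (seq_vv (T := triT) (Z := Z h) (fun n => hH.mem h n) n).symm

theorem vvF (h : H) (a : ℕ) : triT.vv (Z h) a ∈ tri.F a :=
  vv_mem (T := triT) (Z := Z h) (fun n => hH.mem h n) a

theorem diff (h : H) {k : ℕ} {x : ℕ → ℂ} (hx : bx k x) {i N M : ℕ} (hi : i ≤ N) (hN : N ≤ M) :
    ‖(Z h M).f x i - (Z h N).f x i‖ ≤
      ∑ a ∈ Finset.Ico (N + 1) (M + 1), Nb k (triT.vv (Z h) a) := by
  have h1 := hH.seqZ h M
  have h2 := hH.seqZ h N
  set v := triT.vv (Z h) with hv
  rw [h1, h2, seq_f, seq_f, if_pos hi, if_pos (hi.trans hN), add_sub_add_right_eq_sub,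
    ← Finset.sum_range_add_sum_Ico (fun a => (v a).f x i) (Nat.succ_le_succ hN : N + 1 ≤ M + 1),
    add_sub_cancel_left]
  exact (norm_sum_le _ _).trans (Finset.sum_le_sum fun a _ => le_Nb (v a) i hx)

theorem tail (h : H) (k : ℕ) {η : ℝ} (hη : 0 < η) : ∃ n₀, ∀ᶠ g in 𝓝 h, ∀ M,
    ∑ a ∈ Finset.Ico n₀ M, Nb k (triT.vv (Z g) a) ≤ η :=
  (hH.loc h).N_tail k hη

theorem bdd (h : H) (k : ℕ) : ∃ B : ℝ, ∀ M,
    ∑ a ∈ Finset.range M, Nb k (triT.vv (Z h) a) ≤ B := by
  obtain ⟨B, hB⟩ := (hH.loc h).N_bdd k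
  exact ⟨B, hB.self_of_nhds⟩

theorem t_bdd (h : H) : ∃ C : ℝ, 0 ≤ C ∧ ∀ a, |taub a (Z h a)| ≤ C * ((a : ℝ) + 1) := by
  obtain ⟨C, hC⟩ := bdd_of_tendsto (hH.null h)
  refine ⟨C, (abs_nonneg _).trans (hC 0), fun a => ?_⟩
  have h1 : |taub a (Z h a) / ((a : ℝ) + 1)| ≤ C := hC a
  have h2 : (0 : ℝ) < (a : ℝ) + 1 := by positivity
  rw [abs_div, abs_of_pos h2, div_le_iff₀ h2] at h1
  exact h1

theorem box (h : H) (k : ℕ) : ∃ k', ∀ n x, bx k x → bx k' (act Z n h x) := by
  obtain ⟨C, hC0, hC⟩ := hH.t_bdd h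
  choose B hB using fun j => hH.bdd h j
  refine ⟨⌈(k : ℝ) + C + B k⌉₊, fun n x hx => ?_⟩
  have hctl : tri.Ctl C B (fun _ => n + 1) k n (fun a => taub a (Z h a)) (triT.vv (Z h)) :=
    { mem := fun a => hH.vvF h a
      t_le := fun a _ => hC a
      S_le := fun j _ => hB j (n + 1)
      L_le := fun j _ => by
        rw [Finset.Ico_self, Finset.sum_empty]
        exact zero_le_one }
  have h1 := seq_box hctl le_rfl (le_refl n) (Nat.le_ceil ((k : ℝ) + C + B k)) hx
  rw [← hH.seqZ h n] at h1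
  exact h1

theorem lip (h : H) {k : ℕ} {y : ℕ → ℕ → ℂ} (hy : ∀ n, bx k (y n))
    (h0 : ∀ l, Tendsto (fun n => y n l) atTop (𝓝 0)) (i : ℕ) :
    Tendsto (fun n => (Z h n).f (y n) i - (Z h n).f 0 i) atTop (𝓝 0) := by
  set v := triT.vv (Z h) with hv
  have hb0 : bx k (0 : ℕ → ℂ) := fun l => bxc_zero k l
  have hterm : ∀ a, Tendsto (fun n => (v a).f (y n) i - (v a).f 0 i) atTop (𝓝 0) := by
    intro a
    have h1 := cont_eval (v a) i (y := y) (z := 0) h0
    have h2 := h1.sub (tendsto_const_nhds (x := (v a).f 0 i))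
    rwa [sub_self] at h2
  have hdif : ∀ n, (Z h n).f (y n) i - (Z h n).f 0 i =
      ∑ a ∈ Finset.range (n + 1), ((v a).f (y n) i - (v a).f 0 i) := by
    intro n
    have h1 := hH.seqZ h n
    rw [← hv] at h1
    rw [h1, seq_f, seq_f, add_sub_add_right_eq_sub, Finset.sum_sub_distrib]
  rw [Metric.tendsto_atTop]
  intro ε hε
  obtain ⟨n₀, hn₀⟩ := hH.tail h k (show 0 < ε / 4 by linarith)
  have hn₁ := hn₀.self_of_nhds
  rw [← hv] at hn₁
  have hfin : Tendsto (fun n => ∑ a ∈ Finset.range n₀, ((v a).f (y n) i - (v a).f 0 i)) atTop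
      (𝓝 0) := by
    have h2 := tendsto_finset_sum (Finset.range n₀) (fun a _ => hterm a)
    rwa [Finset.sum_const_zero] at h2
  obtain ⟨N, hN⟩ := (Metric.tendsto_atTop.1 hfin) (ε / 4) (by linarith)
  refine ⟨max N n₀, fun n hn => ?_⟩
  rw [dist_zero_right, hdif n]
  have hn0 : n₀ ≤ n + 1 := by
    have := le_of_max_le_right hn
    omega
  rw [← Finset.sum_range_add_sum_Ico (fun a => (v a).f (y n) i - (v a).f 0 i) hn0]
  have h3 := hN n (le_of_max_le_left hn)
  rw [dist_zero_right] at h3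
  have h4 : ‖∑ a ∈ Finset.Ico n₀ (n + 1), ((v a).f (y n) i - (v a).f 0 i)‖ ≤
      ∑ a ∈ Finset.Ico n₀ (n + 1), (Nb k (v a) + Nb k (v a)) := by
    refine (norm_sum_le _ _).trans (Finset.sum_le_sum fun a _ => ?_)
    exact (norm_sub_le _ _).trans (add_le_add (le_Nb (v a) i (hy n)) (le_Nb (v a) i hb0))
  rw [Finset.sum_add_distrib] at h4
  have h5 := hn₁ (n + 1)
  have h6 := norm_add_le (∑ a ∈ Finset.range n₀, ((v a).f (y n) i - (v a).f 0 i))
    (∑ a ∈ Finset.Ico n₀ (n + 1), ((v a).f (y n) i - (v a).f 0 i))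
  linarith

end Good

end Pool.Agent.Lib.MP_862e0f_al.EW
end

section

/-!
# Smoothness of the inversion in coordinates (TASK EW Hi)

Compare with `EV/Hi.lean`, the structure of the proof is the same.
`inv_dead`: the family `y ↦ vs (yv y.2)` on `MM T W` is locally controlled (`LC_vs`, `LC.comp` with the
continuous projection), and so is the family of the inverses (`LC.viv`, `bdd_C0`, `cont_C0` composed with the projection). Apply
`LC.dead` to both families (maximum of the two `n₀`).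
`smooth_inv`: apply `bastiani_of_growth` with `X n = T.F n`, `m = 0`, `𝔼 = MM T W`, `S n = Hist T n`, `π n = histL T hW n`,
`Φ n z = toF T n (Fi G W 0 (gx T n z) (yx T n z) n)`, `Bx n k = Box T W n k`.
* `hΦ`: `smooth_Fi`, `contDiff_gx`, `contDiff_yx`, `yx_mem`, `contDiff_toF`, `Fi_mem`.
  `hBx`: `box_absorb`; `hf`: `Fi_congr_y`, `gx_histL`, `yx_histL`, `toF_coe`.
* `hyp k x`: take `O`, `n₀` from `inv_dead`, `n₁ = max n₀ (k + 1)`. For `n = m + 1 ≥ n₁` (so `k ≤ m`) take
  `Φ' z = toF T n (Fi G W (k + 1) ..)` and `Q` the set of all `z` which satisfy the strict inequalities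
  `T.N j (w n) < thr G j w n / 2`, `j ≤ k`, for `w = vs G W (yx T n z)` and `w = T.viv (tq (gx T n z)) (vs G W (yx T n z))`. `Q` is
  open: finite intersection, both sides are continuous (`smooth_vs`, `smooth_viv`, `smooth_thr`, `cont_N_comp`). The points
  `π n y`, `y ∈ O`, are in `Q`: `vs_congr_y`, `viv_congr`, `thr_congr`, `gx_histL`, `yx_histL`. On `Q` the maps agree by `Fi_trunc`
  (`t = k + 1`); the bound is the second part of `Grow G k m W`.
-/

set_option autoImplicit false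

namespace Pool.Agent.Lib.MP_862e0f_al.EW

open Filter Topology Set
open scoped ContDiff

variable {V : Type} [NormedAddCommGroup V] [NormedSpace ℝ V] {T : Tw V} (G : Gear T)
  {W : ℕ → ℕ → ℝ}

theorem inv_dead (hW : ∀ k n, 0 < W k n) (k : ℕ) (x : MM T W) :
    ∃ n₀, ∀ᶠ y : MM T W in 𝓝 x, ∀ n, n₀ ≤ n → ∀ j, j ≤ k →
      T.N j (vs G W (yv y.2) n) < thr G j (vs G W (yv y.2)) n / 2 ∧
      T.N j (T.viv (tq y.1.c) (vs G W (yv y.2)) n) <
        thr G j (T.viv (tq y.1.c) (vs G W (yv y.2))) n / 2 := by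
  have c1 : LC T (fun y : MM T W => vs G W (yv y.2)) x :=
    (LC_vs G hW x.2).comp (f := fun y : MM T W => y.2) continuous_snd.continuousAt
  obtain ⟨C, hC⟩ := bdd_C0 x.1
  have c2 : LC T (fun y : MM T W => T.viv (tq y.1.c) (vs G W (yv y.2))) x :=
    c1.viv (g := fun y : MM T W => y.1.c)
      (fun n => ((cont_C0 n).comp continuous_fst).continuousAt)
      ⟨C, (continuous_fst (X := C0) (Y := KF T W)).continuousAt.eventually hC⟩
  obtain ⟨n₁, h₁⟩ := c1.dead G k
  obtain ⟨n₂, h₂⟩ := c2.dead G k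
  refine ⟨max n₁ n₂, ?_⟩
  filter_upwards [h₁, h₂] with y a₁ a₂ n hn j hj
  exact ⟨a₁ n ((le_max_left _ _).trans hn) j hj, a₂ n ((le_max_right _ _).trans hn) j hj⟩

theorem smooth_inv (hW : ∀ k n, 0 < W k n) (hG : ∀ k m, k ≤ m → Grow G k m W)
    (f : MM T W → KF T W)
    (hf : ∀ x n, yv (f x) n = Fi G W 0 x.1.c (yv x.2) n) :
    BastianiSmooth f univ := by
  have hW' : ∀ k n, 0 ≤ W k n := fun k n => (hW k n).le
  have hsm : ∀ (t n : ℕ), ContDiff ℝ ∞
      (fun z : Hist T n => toF T n (Fi G W t (gx T n z) (yx T n z) n)) := by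
    intro t n
    refine contDiff_toF ?_ fun z => Fi_mem G _ (yx_mem n z) n
    exact smooth_Fi G hW' (fun b => contDiff_gx n b) (fun b => contDiff_yx n b)
      (fun z => yx_mem n z) n
  refine bastiani_of_growth (fun n => T.F n) W hW 0 (MM T W) (fun n => Hist T n)
    (fun n => histL T hW n)
    (fun n z => toF T n (Fi G W 0 (gx T n z) (yx T n z) n)) (fun n => hsm 0 n)
    (fun n k => Box T W n k) ?_ ?_ f ?_
  · -- boxes
    intro k x
    exact box_absorb hW k x
  · -- the local comparison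
    intro k x
    obtain ⟨n₁, h₁⟩ := inv_dead G hW k x
    refine ⟨_, h₁, max n₁ (k + 1), fun n hn => ?_⟩
    obtain ⟨m, rfl⟩ : ∃ m, n = m + 1 := ⟨n - 1, by omega⟩
    have hm1 : n₁ ≤ m + 1 := (le_max_left n₁ (k + 1)).trans hn
    have hmk : k ≤ m := by
      have := (le_max_right n₁ (k + 1)).trans hn
      omega
    have s1 : ∀ a, ContDiff ℝ ∞ (fun z : Hist T (m + 1) => vs G W (yx T (m + 1) z) a) := fun a =>
      smooth_vs G hW' (fun b => contDiff_yx (m + 1) b) (fun z => yx_mem (m + 1) z) a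
    have s2 : ∀ a, ContDiff ℝ ∞ (fun z : Hist T (m + 1) =>
        T.viv (tq (gx T (m + 1) z)) (vs G W (yx T (m + 1) z)) a) := fun a =>
      smooth_viv (fun b => contDiff_const.mul (contDiff_gx (m + 1) b)) s1
        (fun z b => vs_mem G (yx_mem (m + 1) z) b) a
    refine ⟨fun z => toF T (m + 1) (Fi G W (k + 1) (gx T (m + 1) z) (yx T (m + 1) z) (m + 1)),
      ⋂ j ∈ Finset.range (k + 1), ({z : Hist T (m + 1) |
        T.N j (vs G W (yx T (m + 1) z) (m + 1)) <
          thr G j (vs G W (yx T (m + 1) z)) (m + 1) / 2} ∩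
        {z | T.N j (T.viv (tq (gx T (m + 1) z)) (vs G W (yx T (m + 1) z)) (m + 1)) <
          thr G j (T.viv (tq (gx T (m + 1) z)) (vs G W (yx T (m + 1) z))) (m + 1) / 2}),
      hsm (k + 1) (m + 1), ?_, ?_, ?_, ?_⟩
    · refine isOpen_biInter_finset fun j _ => IsOpen.inter ?_ ?_
      · refine isOpen_lt ?_ ?_
        · exact continuous_iff_continuousAt.2 fun z =>
            cont_N_comp T (s1 (m + 1)).continuous.continuousAt
              (fun y => vs_mem G (yx_mem (m + 1) y) (m + 1)) j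
        · exact (smooth_thr G (j := j) (n := m + 1) fun a _ => s1 a).continuous.div_const 2
      · refine isOpen_lt ?_ ?_
        · exact continuous_iff_continuousAt.2 fun z =>
            cont_N_comp T (s2 (m + 1)).continuous.continuousAt
              (fun y => viv_mem (fun b => vs_mem G (yx_mem (m + 1) y) b) (m + 1)) j
        · exact (smooth_thr G (j := j) (n := m + 1) fun a _ => s2 a).continuous.div_const 2
    · intro y hy
      rw [Set.mem_iInter₂]
      intro j hj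
      obtain ⟨b₁, b₃⟩ := hy (m + 1) hm1 j (by have := Finset.mem_range.1 hj; omega)
      have e1 : ∀ a, a ≤ m + 1 → yx T (m + 1) (histL T hW (m + 1) y) a = yv y.2 a := fun a ha =>
        yx_histL hW (m + 1) y ha
      have e2 : ∀ a, a ≤ m + 1 → gx T (m + 1) (histL T hW (m + 1) y) a = y.1.c a := fun a ha =>
        gx_histL hW (m + 1) y ha
      have e3 : ∀ a, a ≤ m + 1 → vs G W (yx T (m + 1) (histL T hW (m + 1) y)) a =
          vs G W (yv y.2) a := fun a ha => vs_congr_y G fun b hb => e1 b (hb.trans ha)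
      have e4 : ∀ a, a ≤ m + 1 → T.viv (tq (gx T (m + 1) (histL T hW (m + 1) y)))
          (vs G W (yx T (m + 1) (histL T hW (m + 1) y))) a =
          T.viv (tq y.1.c) (vs G W (yv y.2)) a := fun a ha =>
        viv_congr (fun b hb => by
          unfold tq
          rw [e2 b (hb.trans ha)]) (fun b hb => e3 b (hb.trans ha))
      refine ⟨?_, ?_⟩
      · show T.N j (vs G W (yx T (m + 1) (histL T hW (m + 1) y)) (m + 1)) <
          thr G j (vs G W (yx T (m + 1) (histL T hW (m + 1) y))) (m + 1) / 2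
        rw [e3 (m + 1) le_rfl, thr_congr G j fun a ha => e3 a (by omega)]
        exact b₁
      · show T.N j (T.viv (tq (gx T (m + 1) (histL T hW (m + 1) y)))
            (vs G W (yx T (m + 1) (histL T hW (m + 1) y))) (m + 1)) <
          thr G j (T.viv (tq (gx T (m + 1) (histL T hW (m + 1) y)))
            (vs G W (yx T (m + 1) (histL T hW (m + 1) y)))) (m + 1) / 2
        rw [e4 (m + 1) le_rfl, thr_congr G j fun a ha => e4 a (by omega)]
        exact b₃
    · intro z hz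
      rw [Set.mem_iInter₂] at hz
      have hz' : ∀ j, j < k + 1 → _ := fun j hj => hz j (Finset.mem_range.2 hj)
      show toF T (m + 1) (Fi G W 0 (gx T (m + 1) z) (yx T (m + 1) z) (m + 1)) =
        toF T (m + 1) (Fi G W (k + 1) (gx T (m + 1) z) (yx T (m + 1) z) (m + 1))
      rw [Fi_trunc G hW' (t := k + 1) (n := m + 1) (gx T (m + 1) z) (yx_mem (m + 1) z)
        (fun j hj _ => (hz' j hj).1.le) (fun j hj _ => (hz' j hj).2.le)]
    · exact (hG k m hmk).2.1
  · intro x n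
    apply Subtype.ext
    rw [toF_coe (Fi_mem G _ (yx_mem n _) n)]
    have h := hf x n
    unfold yv at h
    rw [h]
    exact Fi_congr_y G (fun a ha => (gx_histL hW n x ha).symm) (fun a ha => (yx_histL hW n x ha).symm)

end Pool.Agent.Lib.MP_862e0f_al.EW
end

section

/-!
# Smoothness of the multiplication in coordinates (TASK EW Hm)

Compare with `EV/Hm.lean`, the structure of the proof is the same.
`mul_dead`: the families `y ↦ vs (yv y.1.2)`, `y ↦ vs (yv y.2.2)` on `MM T W × MM T W` are locally controlled (`LC_vs`, `LC.comp` with the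
continuous projections), and so is the product family (`LC.vop`, `bdd_C0`, `cont_C0` composed with the projections:
`g y = (y.1.1).c`). Apply `LC.dead` to the three families (maximum of the three `n₀`).
`smooth_mul`: apply `bastiani_of_growth` with `X n = T.F n`, `m = 0`, `𝔼 = MM T W × MM T W`,
`S n = Hist T n × Hist T n`, `π n = (histL T hW n).prodMap (histL T hW n)`,
`Φ n z = toF T n (Fm G W 0 (gx T n z.1) (yx T n z.1) (gx T n z.2) (yx T n z.2) n)`,
`Bx n k = Box T W n k ×ˢ Box T W n k`.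
* `hΦ`: `smooth_Fm`, `contDiff_gx`, `contDiff_yx` (composed with `contDiff_fst`, `contDiff_snd`), `yx_mem`, `contDiff_toF`, `Fm_mem`.
  `hBx`: `box_absorb` for both components; `hf`: `Fm_congr_y`, `gx_histL`, `yx_histL`, `toF_coe`.
* `hyp k x`: take `O`, `n₀` from `mul_dead`, `n₁ = max n₀ (k + 1)`. For `n = m + 1 ≥ n₁` (so `k ≤ m`) take
  `Φ' z = toF T n (Fm G W (k + 1) ..)` and `Q` the set of all `z` which satisfy the strict inequalities
  `T.N j (w n) < thr G j w n / 2`, `j ≤ k`, for `w = vs G W (yx T n z.1)`, `w = vs G W (yx T n z.2)` and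
  `w = T.vop (tq (gx T n z.1)) (vs G W (yx T n z.1)) (tq (gx T n z.2)) (vs G W (yx T n z.2))`. `Q` is open: finite intersection, both sides
  are continuous (`smooth_vs`, `smooth_vop`, `smooth_thr`, `cont_N_comp`). The points `π n y`, `y ∈ O`, are in `Q`: `vs_congr_y`,
  `vop_congr`, `thr_congr`, `gx_histL`, `yx_histL`. On `Q` the maps agree by `Fm_trunc` (`t = k + 1`); the bound is the first part of
  `Grow G k m W`.
-/

set_option autoImplicit false

namespace Pool.Agent.Lib.MP_862e0f_al.EW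

open Filter Topology Set
open scoped ContDiff

variable {V : Type} [NormedAddCommGroup V] [NormedSpace ℝ V] {T : Tw V} (G : Gear T)
  {W : ℕ → ℕ → ℝ}

theorem mul_dead (hW : ∀ k n, 0 < W k n) (k : ℕ) (x : MM T W × MM T W) :
    ∃ n₀, ∀ᶠ y : MM T W × MM T W in 𝓝 x, ∀ n, n₀ ≤ n → ∀ j, j ≤ k →
      T.N j (vs G W (yv y.1.2) n) < thr G j (vs G W (yv y.1.2)) n / 2 ∧
      T.N j (vs G W (yv y.2.2) n) < thr G j (vs G W (yv y.2.2)) n / 2 ∧
      T.N j (T.vop (tq y.1.1.c) (vs G W (yv y.1.2)) (tq y.2.1.c) (vs G W (yv y.2.2)) n) <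
        thr G j (T.vop (tq y.1.1.c) (vs G W (yv y.1.2)) (tq y.2.1.c) (vs G W (yv y.2.2))) n / 2 := by
  have c1 : ContinuousAt (fun y : MM T W × MM T W => y.1.2) x :=
    (continuous_snd.comp continuous_fst).continuousAt
  have c2 : ContinuousAt (fun y : MM T W × MM T W => y.2.2) x :=
    (continuous_snd.comp continuous_snd).continuousAt
  have d1 : ContinuousAt (fun y : MM T W × MM T W => y.1.1) x :=
    (continuous_fst.comp continuous_fst).continuousAt
  have d2 : ContinuousAt (fun y : MM T W × MM T W => y.2.1) x :=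
    (continuous_fst.comp continuous_snd).continuousAt
  have h1 : LC T (fun y : MM T W × MM T W => vs G W (yv y.1.2)) x :=
    LC.comp (f := fun y : MM T W × MM T W => y.1.2) (LC_vs G hW x.1.2) c1
  have h2 : LC T (fun y : MM T W × MM T W => vs G W (yv y.2.2)) x :=
    LC.comp (f := fun y : MM T W × MM T W => y.2.2) (LC_vs G hW x.2.2) c2
  have g1 : ∀ n, ContinuousAt (fun y : MM T W × MM T W => y.1.1.c n) x := fun n =>
    (cont_C0 n).continuousAt.comp' d1
  have g2 : ∀ n, ContinuousAt (fun y : MM T W × MM T W => y.2.1.c n) x := fun n =>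
    (cont_C0 n).continuousAt.comp' d2
  have b1 : ∃ C : ℝ, ∀ᶠ y : MM T W × MM T W in 𝓝 x, ∀ a, |y.1.1.c a| ≤ C := by
    obtain ⟨C, hC⟩ := bdd_C0 x.1.1
    exact ⟨C, d1.eventually hC⟩
  have b2 : ∃ C : ℝ, ∀ᶠ y : MM T W × MM T W in 𝓝 x, ∀ a, |y.2.1.c a| ≤ C := by
    obtain ⟨C, hC⟩ := bdd_C0 x.2.1
    exact ⟨C, d2.eventually hC⟩
  have h3 : LC T (fun y : MM T W × MM T W =>
      T.vop (tq y.1.1.c) (vs G W (yv y.1.2)) (tq y.2.1.c) (vs G W (yv y.2.2))) x :=
    LC.vop (g := fun y : MM T W × MM T W => y.1.1.c) (g' := fun y : MM T W × MM T W => y.2.1.c)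
      h1 h2 g1 g2 b1 b2
  obtain ⟨n₁, e₁⟩ := h1.dead G k
  obtain ⟨n₂, e₂⟩ := h2.dead G k
  obtain ⟨n₃, e₃⟩ := h3.dead G k
  refine ⟨max n₁ (max n₂ n₃), ?_⟩
  filter_upwards [e₁, e₂, e₃] with y a₁ a₂ a₃ n hn j hj
  exact ⟨a₁ n ((le_max_left _ _).trans hn) j hj,
    a₂ n (((le_max_left _ _).trans (le_max_right _ _)).trans hn) j hj,
    a₃ n (((le_max_right _ _).trans (le_max_right _ _)).trans hn) j hj⟩

theorem smooth_mul (hW : ∀ k n, 0 < W k n) (hG : ∀ k m, k ≤ m → Grow G k m W)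
    (f : MM T W × MM T W → KF T W)
    (hf : ∀ x n, yv (f x) n = Fm G W 0 x.1.1.c (yv x.1.2) x.2.1.c (yv x.2.2) n) :
    BastianiSmooth f univ := by
  have hW' : ∀ k n, 0 ≤ W k n := fun k n => (hW k n).le
  have gs1 : ∀ n a, ContDiff ℝ ∞ (fun z : Hist T n × Hist T n => gx T n z.1 a) := fun n a =>
    (contDiff_gx n a).comp contDiff_fst
  have gs2 : ∀ n a, ContDiff ℝ ∞ (fun z : Hist T n × Hist T n => gx T n z.2 a) := fun n a =>
    (contDiff_gx n a).comp contDiff_snd
  have ys1 : ∀ n a, ContDiff ℝ ∞ (fun z : Hist T n × Hist T n => yx T n z.1 a) := fun n a =>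
    (contDiff_yx n a).comp contDiff_fst
  have ys2 : ∀ n a, ContDiff ℝ ∞ (fun z : Hist T n × Hist T n => yx T n z.2 a) := fun n a =>
    (contDiff_yx n a).comp contDiff_snd
  have hsm : ∀ (t n : ℕ), ContDiff ℝ ∞ (fun z : Hist T n × Hist T n =>
      toF T n (Fm G W t (gx T n z.1) (yx T n z.1) (gx T n z.2) (yx T n z.2) n)) := by
    intro t n
    refine contDiff_toF ?_ fun z => Fm_mem G _ (yx_mem n z.1) _ (yx_mem n z.2) n
    exact smooth_Fm G hW' (g := fun z : Hist T n × Hist T n => gx T n z.1)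
      (g' := fun z : Hist T n × Hist T n => gx T n z.2)
      (y := fun z : Hist T n × Hist T n => yx T n z.1)
      (y' := fun z : Hist T n × Hist T n => yx T n z.2)
      (gs1 n) (ys1 n) (fun z => yx_mem n z.1) (gs2 n) (ys2 n) (fun z => yx_mem n z.2) n
  have v1 : ∀ n a, ContDiff ℝ ∞ (fun z : Hist T n × Hist T n => vs G W (yx T n z.1) a) := fun n a =>
    smooth_vs G hW' (y := fun z : Hist T n × Hist T n => yx T n z.1) (ys1 n)
      (fun z => yx_mem n z.1) a
  have v2 : ∀ n a, ContDiff ℝ ∞ (fun z : Hist T n × Hist T n => vs G W (yx T n z.2) a) := fun n a =>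
    smooth_vs G hW' (y := fun z : Hist T n × Hist T n => yx T n z.2) (ys2 n)
      (fun z => yx_mem n z.2) a
  have t1 : ∀ n a, ContDiff ℝ ∞ (fun z : Hist T n × Hist T n => tq (gx T n z.1) a) := fun n a =>
    contDiff_const.mul (gs1 n a)
  have t2 : ∀ n a, ContDiff ℝ ∞ (fun z : Hist T n × Hist T n => tq (gx T n z.2) a) := fun n a =>
    contDiff_const.mul (gs2 n a)
  have m1 : ∀ n (z : Hist T n × Hist T n) a, vs G W (yx T n z.1) a ∈ T.F a := fun n z a =>
    vs_mem G (yx_mem n z.1) a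
  have m2 : ∀ n (z : Hist T n × Hist T n) a, vs G W (yx T n z.2) a ∈ T.F a := fun n z a =>
    vs_mem G (yx_mem n z.2) a
  have v3 : ∀ n a, ContDiff ℝ ∞ (fun z : Hist T n × Hist T n =>
      T.vop (tq (gx T n z.1)) (vs G W (yx T n z.1)) (tq (gx T n z.2)) (vs G W (yx T n z.2)) a) :=
    fun n a => smooth_vop (t := fun z : Hist T n × Hist T n => tq (gx T n z.1))
      (v := fun z : Hist T n × Hist T n => vs G W (yx T n z.1))
      (t' := fun z : Hist T n × Hist T n => tq (gx T n z.2))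
      (v' := fun z : Hist T n × Hist T n => vs G W (yx T n z.2))
      (t1 n) (v1 n) (m1 n) (t2 n) (v2 n) (m2 n) a
  have hop : ∀ (n j : ℕ) (w : Hist T n × Hist T n → ℕ → V), (∀ a, ContDiff ℝ ∞ fun z => w z a) →
      (∀ z a, w z a ∈ T.F a) → IsOpen {z | T.N j (w z n) < thr G j (w z) n / 2} := by
    intro n j w hw hm
    refine isOpen_lt ?_ ?_
    · exact continuous_iff_continuousAt.2 fun z =>
        cont_N_comp T (hw n).continuous.continuousAt (fun y => hm y n) j
    · exact (smooth_thr G (fun a _ => hw a)).continuous.div_const 2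
  refine bastiani_of_growth (fun n => T.F n) W hW 0 (MM T W × MM T W)
    (fun n => Hist T n × Hist T n) (fun n => (histL T hW n).prodMap (histL T hW n))
    (fun n z => toF T n (Fm G W 0 (gx T n z.1) (yx T n z.1) (gx T n z.2) (yx T n z.2) n))
    (fun n => hsm 0 n) (fun n k => Box T W n k ×ˢ Box T W n k) ?_ ?_ f ?_
  · -- boxes
    rintro k ⟨x, x'⟩
    obtain ⟨O, hO, n₁, h₁⟩ := box_absorb hW k x
    obtain ⟨O', hO', n₂, h₂⟩ := box_absorb hW k x'
    refine ⟨O ×ˢ O', prod_mem_nhds hO hO', max n₁ n₂, fun n hn y hy => ?_⟩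
    exact ⟨h₁ n ((le_max_left _ _).trans hn) y.1 hy.1, h₂ n ((le_max_right _ _).trans hn) y.2 hy.2⟩
  · -- the local comparison
    intro k x
    obtain ⟨n₀, h₀⟩ := mul_dead G hW k x
    refine ⟨_, h₀, max n₀ (k + 1), fun n hn => ?_⟩
    obtain ⟨m, rfl⟩ : ∃ m, n = m + 1 := ⟨n - 1, by
      have := (le_max_right n₀ (k + 1)).trans hn
      omega⟩
    have hm0 : n₀ ≤ m + 1 := (le_max_left n₀ (k + 1)).trans hn
    have hmk : k ≤ m := by
      have := (le_max_right n₀ (k + 1)).trans hn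
      omega
    refine ⟨fun z => toF T (m + 1) (Fm G W (k + 1) (gx T (m + 1) z.1) (yx T (m + 1) z.1)
        (gx T (m + 1) z.2) (yx T (m + 1) z.2) (m + 1)),
      ⋂ j ∈ Finset.range (k + 1), (({z : Hist T (m + 1) × Hist T (m + 1) |
        T.N j (vs G W (yx T (m + 1) z.1) (m + 1)) <
          thr G j (vs G W (yx T (m + 1) z.1)) (m + 1) / 2} ∩
        {z | T.N j (vs G W (yx T (m + 1) z.2) (m + 1)) <
          thr G j (vs G W (yx T (m + 1) z.2)) (m + 1) / 2}) ∩
        {z | T.N j (T.vop (tq (gx T (m + 1) z.1)) (vs G W (yx T (m + 1) z.1))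
          (tq (gx T (m + 1) z.2)) (vs G W (yx T (m + 1) z.2)) (m + 1)) <
          thr G j (T.vop (tq (gx T (m + 1) z.1)) (vs G W (yx T (m + 1) z.1))
          (tq (gx T (m + 1) z.2)) (vs G W (yx T (m + 1) z.2))) (m + 1) / 2}),
      hsm (k + 1) (m + 1), ?_, ?_, ?_, ?_⟩
    · refine isOpen_biInter_finset fun j _ => IsOpen.inter (IsOpen.inter ?_ ?_) ?_
      · exact hop (m + 1) j (fun z => vs G W (yx T (m + 1) z.1)) (v1 (m + 1)) (m1 (m + 1))
      · exact hop (m + 1) j (fun z => vs G W (yx T (m + 1) z.2)) (v2 (m + 1)) (m2 (m + 1))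
      · exact hop (m + 1) j (fun z => T.vop (tq (gx T (m + 1) z.1)) (vs G W (yx T (m + 1) z.1))
          (tq (gx T (m + 1) z.2)) (vs G W (yx T (m + 1) z.2))) (v3 (m + 1))
          (fun z a => vop_mem (m1 (m + 1) z) (m2 (m + 1) z) a)
    · intro y hy
      rw [Set.mem_iInter₂]
      intro j hj
      obtain ⟨b₁, b₂, b₃⟩ := hy (m + 1) hm0 j (by have := Finset.mem_range.1 hj; omega)
      have e1 : ∀ a, a ≤ m + 1 → vs G W (yx T (m + 1) (histL T hW (m + 1) y.1)) a =
          vs G W (yv y.1.2) a := fun a ha =>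
        vs_congr_y G fun b hb => yx_histL hW (m + 1) y.1 (hb.trans ha)
      have e2 : ∀ a, a ≤ m + 1 → vs G W (yx T (m + 1) (histL T hW (m + 1) y.2)) a =
          vs G W (yv y.2.2) a := fun a ha =>
        vs_congr_y G fun b hb => yx_histL hW (m + 1) y.2 (hb.trans ha)
      have f1 : ∀ a, a ≤ m + 1 → tq (gx T (m + 1) (histL T hW (m + 1) y.1)) a =
          tq y.1.1.c a := fun a ha => by
        unfold tq
        rw [gx_histL hW (m + 1) y.1 ha]
      have f2 : ∀ a, a ≤ m + 1 → tq (gx T (m + 1) (histL T hW (m + 1) y.2)) a =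
          tq y.2.1.c a := fun a ha => by
        unfold tq
        rw [gx_histL hW (m + 1) y.2 ha]
      have e3 : ∀ a, a ≤ m + 1 → T.vop (tq (gx T (m + 1) (histL T hW (m + 1) y.1)))
          (vs G W (yx T (m + 1) (histL T hW (m + 1) y.1)))
          (tq (gx T (m + 1) (histL T hW (m + 1) y.2)))
          (vs G W (yx T (m + 1) (histL T hW (m + 1) y.2))) a =
          T.vop (tq y.1.1.c) (vs G W (yv y.1.2)) (tq y.2.1.c) (vs G W (yv y.2.2)) a := fun a ha =>
        vop_congr (fun b hb => f1 b (hb.trans ha)) (fun b hb => e1 b (hb.trans ha))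
          (fun b hb => f2 b (hb.trans ha)) (fun b hb => e2 b (hb.trans ha))
      refine ⟨⟨?_, ?_⟩, ?_⟩
      · show T.N j (vs G W (yx T (m + 1) (histL T hW (m + 1) y.1)) (m + 1)) <
          thr G j (vs G W (yx T (m + 1) (histL T hW (m + 1) y.1))) (m + 1) / 2
        rw [e1 _ le_rfl, thr_congr G j fun a ha => e1 a ha.le]
        exact b₁
      · show T.N j (vs G W (yx T (m + 1) (histL T hW (m + 1) y.2)) (m + 1)) <
          thr G j (vs G W (yx T (m + 1) (histL T hW (m + 1) y.2))) (m + 1) / 2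
        rw [e2 _ le_rfl, thr_congr G j fun a ha => e2 a ha.le]
        exact b₂
      · show T.N j (T.vop (tq (gx T (m + 1) (histL T hW (m + 1) y.1)))
          (vs G W (yx T (m + 1) (histL T hW (m + 1) y.1)))
          (tq (gx T (m + 1) (histL T hW (m + 1) y.2)))
          (vs G W (yx T (m + 1) (histL T hW (m + 1) y.2))) (m + 1)) <
          thr G j (T.vop (tq (gx T (m + 1) (histL T hW (m + 1) y.1)))
          (vs G W (yx T (m + 1) (histL T hW (m + 1) y.1)))
          (tq (gx T (m + 1) (histL T hW (m + 1) y.2)))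
          (vs G W (yx T (m + 1) (histL T hW (m + 1) y.2)))) (m + 1) / 2
        rw [e3 _ le_rfl, thr_congr G j fun a ha => e3 a ha.le]
        exact b₃
    · intro z hz
      rw [Set.mem_iInter₂] at hz
      have hz' : ∀ j, j < k + 1 → _ := fun j hj => hz j (Finset.mem_range.2 hj)
      show toF T (m + 1) (Fm G W 0 (gx T (m + 1) z.1) (yx T (m + 1) z.1)
          (gx T (m + 1) z.2) (yx T (m + 1) z.2) (m + 1)) =
        toF T (m + 1) (Fm G W (k + 1) (gx T (m + 1) z.1) (yx T (m + 1) z.1)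
          (gx T (m + 1) z.2) (yx T (m + 1) z.2) (m + 1))
      rw [Fm_trunc G hW' (t := k + 1) _ (yx_mem (m + 1) z.1) _ (yx_mem (m + 1) z.2)
        (fun j hj _ => (hz' j hj).1.1.le) (fun j hj _ => (hz' j hj).1.2.le)
        (fun j hj _ => (hz' j hj).2.le)]
    · exact (hG k m hmk).1
  · intro x n
    apply Subtype.ext
    refine (hf x n).trans ?_
    change _ = ((toF T n (Fm G W 0 (gx T n (histL T hW n x.1)) (yx T n (histL T hW n x.1))
      (gx T n (histL T hW n x.2)) (yx T n (histL T hW n x.2)) n) : T.F n) : V)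
    rw [toF_coe (Fm_mem G _ (yx_mem n _) _ (yx_mem n _) n)]
    exact Fm_congr_y G (fun a ha => (gx_histL hW n x.1 ha).symm)
      (fun a ha => (yx_histL hW n x.1 ha).symm) (fun a ha => (gx_histL hW n x.2 ha).symm)
      (fun a ha => (yx_histL hW n x.2 ha).symm)

end Pool.Agent.Lib.MP_862e0f_al.EW
end

section

/-!
# The Fréchet-Lie group of a tower
-/

set_option autoImplicit false

namespace Pool.Agent.Lib.MP_862e0f_al.EW

open Filter Topology Set
open scoped ContDiff

theorem bastianiCk_prodMk (k : ℕ) : ∀ {E F F' : Type} [AddCommGroup E] [Module ℝ E]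
    [TopologicalSpace E] [AddCommGroup F] [Module ℝ F] [TopologicalSpace F] [AddCommGroup F']
    [Module ℝ F'] [TopologicalSpace F'] (f : E → F) (g : E → F') (U : Set E),
    BastianiCk k E F f U → BastianiCk k E F' g U →
      BastianiCk k E (F × F') (fun x => (f x, g x)) U := by
  induction k with
  | zero => intro E F F' _ _ _ _ _ _ _ _ _ f g U hf hg; exact ContinuousOn.prodMk hf hg
  | succ k ih =>
    intro E F F' _ _ _ _ _ _ _ _ _ f g U hf hg
    obtain ⟨hf0, df, hf1, hf2⟩ := hf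
    obtain ⟨hg0, dg, hg1, hg2⟩ := hg
    refine ⟨ContinuousOn.prodMk hf0 hg0, fun p => (df p, dg p), fun x hx v => ?_, ih _ _ _ hf2 hg2⟩
    exact (hf1 x hx v).prodMk_nhds (hg1 x hx v)

variable {V : Type} [NormedAddCommGroup V] [NormedSpace ℝ V] {T : Tw V} (G : Gear T)
  {W : ℕ → ℕ → ℝ}

theorem isLie (hW : ∀ k n, 0 < W k n) (hG : ∀ k m, k ≤ m → Grow G k m W) :
    @IsLieGroup (MM T W) _ _ _ (MM T W) (grp G hW hG) _ _ := by
  let _ := grp G hW hG
  have h1 : BastianiSmooth (fun x : MM T W × MM T W => x.1 * x.2) univ := by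
    have e : (fun x : MM T W × MM T W => x.1 * x.2) = fun x => (x.1.1 + x.2.1, (x.1 * x.2).2) := by
      funext x
      exact Prod.ext (grp_mul_fst G hW hG x.1 x.2) rfl
    rw [e]
    intro k
    refine bastianiCk_prodMk k _ _ _ ?_ (smooth_mul G hW hG _ (fun x n => grp_mul_snd G hW hG x.1 x.2 n) k)
    exact bastianiSmooth_linear (E := MM T W × MM T W)
      ((ContinuousLinearMap.fst ℝ C0 (KF T W)).comp (ContinuousLinearMap.fst ℝ (MM T W) (MM T W)) +
        (ContinuousLinearMap.fst ℝ C0 (KF T W)).comp (ContinuousLinearMap.snd ℝ (MM T W) (MM T W))) univ k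
  have h2 : BastianiSmooth (fun x : MM T W => x⁻¹) univ := by
    have e : (fun x : MM T W => x⁻¹) = fun x => (-x.1, (x⁻¹).2) := by
      funext x
      exact Prod.ext (grp_inv_fst G hW hG x) rfl
    rw [e]
    intro k
    refine bastianiCk_prodMk k _ _ _ ?_ (smooth_inv G hW hG _ (fun x n => grp_inv_snd G hW hG x n) k)
    exact bastianiSmooth_linear (E := MM T W) (-(ContinuousLinearMap.fst ℝ C0 (KF T W))) univ k
  have h3 : ContinuousOn (fun x : MM T W × MM T W => x.1 * x.2) univ := h1 0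
  have h4 : ContinuousOn (fun x : MM T W => x⁻¹) univ := h2 0
  have hat : ∀ φ ∈ atlas (MM T W) (MM T W), φ = OpenPartialHomeomorph.refl (MM T W) :=
    fun φ h => h
  refine ⟨?_, continuousOn_univ.1 h3, ?_, continuousOn_univ.1 h4, ?_⟩
  · intro φ hφ ψ hψ
    rw [hat φ hφ, hat ψ hψ]
    exact bastianiSmooth_linear (ContinuousLinearMap.id ℝ _) _
  · intro φ₁ h₁ φ₂ h₂ ψ hψ
    rw [hat φ₁ h₁, hat φ₂ h₂, hat ψ hψ]
    have e : {z : MM T W × MM T W | (z.1 ∈ (OpenPartialHomeomorph.refl (MM T W)).target ∧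
        z.2 ∈ (OpenPartialHomeomorph.refl (MM T W)).target) ∧
        (OpenPartialHomeomorph.refl (MM T W)).symm z.1 *
          (OpenPartialHomeomorph.refl (MM T W)).symm z.2 ∈
            (OpenPartialHomeomorph.refl (MM T W)).source} = univ := by
      ext z
      exact ⟨fun _ => mem_univ _, fun _ => ⟨⟨mem_univ _, mem_univ _⟩, mem_univ _⟩⟩
    rw [e]
    exact h1
  · intro φ hφ ψ hψ
    rw [hat φ hφ, hat ψ hψ]
    have e : {x : MM T W | x ∈ (OpenPartialHomeomorph.refl (MM T W)).target ∧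
        ((OpenPartialHomeomorph.refl (MM T W)).symm x)⁻¹ ∈
          (OpenPartialHomeomorph.refl (MM T W)).source} = univ := by
      ext z
      exact ⟨fun _ => mem_univ _, fun _ => ⟨mem_univ _, mem_univ _⟩⟩
    rw [e]
    exact h2

theorem MM_t2 (hW : ∀ k n, 0 < W k n) : T2Space (MM T W) := by
  have h1 : T2Space C0 := Kt.t2 one_pos'
  have h2 : T2Space (KF T W) := Kt.t2 hW
  infer_instance

/-- The Lie group of a tower. -/
noncomputable def LG (hW : ∀ k n, 0 < W k n) (hG : ∀ k m, k ≤ m → Grow G k m W) :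
    LieGrp.{0, 0} :=
  @LieGrp.mk (MM T W) (MM T W) (grp G hW hG) _ (MM_t2 hW) _ _ _ _ _ _ (MM_t2 hW) _ (isLie G hW hG)

theorem LG_frechet (hW : ∀ k n, 0 < W k n) (hG : ∀ k m, k ≤ m → Grow G k m W) :
    (LG G hW hG).IsFrechet := by
  have h1 : TopologicalSpace.MetrizableSpace C0 := Kt.metrizable one_pos'
  have h2 : TopologicalSpace.MetrizableSpace (KF T W) := Kt.metrizable hW
  refine ⟨(inferInstance : TopologicalSpace.MetrizableSpace (C0 × KF T W)), ?_⟩
  intro (a : ℕ → C0 × KF T W) ha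
  obtain ⟨b, hb⟩ := Kt.complete one_pos' (fun n => (a n).1) fun U hU => by
    obtain ⟨N, hN⟩ := ha (Prod.fst ⁻¹' U) (continuous_fst.continuousAt.preimage_mem_nhds hU)
    exact ⟨N, hN⟩
  obtain ⟨c, hc⟩ := Kt.complete hW (fun n => (a n).2) fun U hU => by
    obtain ⟨N, hN⟩ := ha (Prod.snd ⁻¹' U) (continuous_snd.continuousAt.preimage_mem_nhds hU)
    exact ⟨N, hN⟩
  exact ⟨(b, c), hb.prodMk_nhds hc⟩

theorem MM_second (hW : ∀ k n, 0 < W k n) : SecondCountableTopology (MM T W) := by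
  have h1 : SecondCountableTopology C0 := Kt.secondCountable one_pos'
  have h2 : SecondCountableTopology (KF T W) := Kt.secondCountable hW
  infer_instance

end Pool.Agent.Lib.MP_862e0f_al.EW
end
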