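import Pool.Agent.Lib.MP_862e0f_al.Mg.G002
import Pool.Agent.Lib.MP_862e0f_P.Mg.G005
import Pool.Agent.Lib.MP_862e0f_al.Mg.G001
import Pool.Agent.Lib.MP_862e0f_al.Mg.G005
import Pool.Agent.Lib.MP_862e0f_al.Mg.G004

section

/-!
# Smoothness of the multiplication in coordinates (TASK EV Hm)

`smooth_mul`: apply `bastiani_of_growth` with `m = 0`, `𝔼 = Md T W × Md T W`,
`S n = Hist T n × Hist T n`, `π n = (hist n).prodMap (hist n)`,
`Φ n z = toE T n (Fm G W 0 (ext T n z.1) (ext T n z.2) n)`,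
`Z n = {z | z.1 (Fin.last n) = 0 ∧ z.2 (Fin.last n) = 0}`, `Bx n k = Box T W n k ×ˢ Box T W n k`.
* `hΦ`: `smooth_Fm`, `contDiff_toE`, `Fm_mem`; `hZ0`: `Fm_vanish`; `hZ`: `Md.ev`; `hBx`: `box_absorb`;
  `hf`: `Fm_congr_v`, `ext_hist`, `toE_coe`.
* `hyp k x`: by `dead_zone` (with `propU_Gv`, `PropU.comp`, `PropU.op`, `cont_st`, and `obs_Gv`)
  for the three sequences `Gv y.1`, `Gv y.2`, `T.op (Gv y.1 ·) (Gv y.2 ·)` and all levels `j ≤ k`
  (finitely many) there are `O ∈ 𝓝 x` and `n₁ ≥ k` such that all three are in the dead zone of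
  level `j` in the step `n → n + 1` for `n ≥ n₁`. For `n = m + 1`, `m ≥ n₁`, take
  `Φ' z = toE T n (Fm G W (k + 1) (ext T n z.1) (ext T n z.2) n)` and `Q` the set of all
  `z ∈ Hist T n × Hist T n` where the sequences `Gv (ext z.1)`, `Gv (ext z.2)` and their product
  satisfy the three strict inequalities `N j (..) < ta m`, `j ≤ k` (open: `smooth_Gv`, `smooth_st`,
  `smooth_obs`, `smooth_op`, `cont_N_comp`). On `Q` the maps agree by `Fm_trunc`; the bound is the
  first part of `Grow G k m W`.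
  (The continuity of `y ↦ obs G (fun a => T.op (Gv y.1 a) (Gv y.2 a)) n j`: it is a smooth function
  of the histories, `obs_congr`, `st_congr_v`, `ext_hist`.)
-/

set_option autoImplicit false

namespace Pool.Agent.Lib.MP_862e0f_al.EV

open Filter Topology Set
open scoped ContDiff

variable {V : Type} [NormedAddCommGroup V] [NormedSpace ℝ V] {T : Tower V} (G : Gear T)
  {W : ℕ → ℕ → ℝ}

/-- finitely many levels at the same time -/
private theorem Hm_levels {𝔼 : Type} [TopologicalSpace 𝔼] {x : 𝔼} {P : ℕ → 𝔼 → ℕ → Prop}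
    (h : ∀ j, ∃ n₁, ∀ᶠ y in 𝓝 x, ∀ n, n₁ ≤ n → P j y n) (k : ℕ) :
    ∃ n₁, ∀ᶠ y in 𝓝 x, ∀ n, n₁ ≤ n → ∀ j, j ≤ k → P j y n := by
  choose N hN using h
  refine ⟨(Finset.range (k + 1)).sup N, ?_⟩
  have h1 : ∀ᶠ y in 𝓝 x, ∀ j ∈ Finset.range (k + 1), ∀ n, N j ≤ n → P j y n :=
    (Filter.eventually_all_finset _).2 fun j _ => hN j
  filter_upwards [h1] with y hy n hn j hj
  have hj' : j ∈ Finset.range (k + 1) := Finset.mem_range.2 (by omega)
  exact hy j hj' n ((Finset.le_sup (f := N) hj').trans hn)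

private theorem Hm_Gv_congr {v w : ℕ → V} {n : ℕ} (h : ∀ a, a ≤ n → v a = w a) {a : ℕ} (ha : a ≤ n) :
    Gv G W v a = Gv G W w a := by
  unfold Gv
  rw [st_congr_v G fun b hb => h b (hb.trans ha)]

/-- the product of two sequences given by histories depends smoothly on them -/
private theorem Hm_smooth_prod (hW : ∀ k n, 0 < W k n) (n a : ℕ) :
    ContDiff ℝ ∞ (fun z : Hist T n × Hist T n =>
      T.op (Gv G W (ext T n z.1) a) (Gv G W (ext T n z.2) a)) := by
  have hW' : ∀ k n, 0 ≤ W k n := fun k n => (hW k n).le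
  refine smooth_op (n := a) ?_ (fun z => Gv_mem G (ext_mem n z.1) a) ?_ (fun z => Gv_mem G (ext_mem n z.2) a)
  · exact smooth_Gv G hW' (v := fun z : Hist T n × Hist T n => ext T n z.1)
      (fun b => (contDiff_ext n b).comp contDiff_fst) (fun z => ext_mem n z.1) a
  · exact smooth_Gv G hW' (v := fun z : Hist T n × Hist T n => ext T n z.2)
      (fun b => (contDiff_ext n b).comp contDiff_snd) (fun z => ext_mem n z.2) a

private theorem Hm_cont_obs (hW : ∀ k n, 0 < W k n) (n j : ℕ) :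
    Continuous (fun y : Md T W × Md T W =>
      obs G (fun a => T.op (Gv G W y.1.c a) (Gv G W y.2.c a)) n j) := by
  have h1 : ContDiff ℝ ∞ (fun z : Hist T n × Hist T n =>
      obs G (fun a => T.op (Gv G W (ext T n z.1) a) (Gv G W (ext T n z.2) a)) n j) :=
    smooth_obs G (fun a _ => Hm_smooth_prod G hW n a) j
  have h2 := h1.continuous.comp ((hist T W hW n).prodMap (hist T W hW n)).continuous
  refine h2.congr fun y => ?_
  show obs G (fun a => T.op (Gv G W (ext T n (hist T W hW n y.1)) a)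
    (Gv G W (ext T n (hist T W hW n y.2)) a)) n j = _
  rw [obs_congr G (Z' := fun a => T.op (Gv G W y.1.c a) (Gv G W y.2.c a)) fun a ha => ?_]
  rw [Hm_Gv_congr G (fun b hb => ext_hist hW n y.1 hb) ha, Hm_Gv_congr G (fun b hb => ext_hist hW n y.2 hb) ha]

/-- all three sequences are in the dead zone -/
private theorem Hm_dead (hW : ∀ k n, 0 < W k n) (k : ℕ) (x : Md T W × Md T W) :
    ∃ n₁, ∀ᶠ y : Md T W × Md T W in 𝓝 x, ∀ n, n₁ ≤ n → ∀ j, j ≤ k →
      T.N j (Gv G W y.1.c (n + 1) - st G W y.1.c n j) < ta n ∧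
      T.N j (Gv G W y.2.c (n + 1) - st G W y.2.c n j) < ta n ∧
      T.N j (T.op (Gv G W y.1.c (n + 1)) (Gv G W y.2.c (n + 1)) -
        obs G (fun a => T.op (Gv G W y.1.c a) (Gv G W y.2.c a)) n j) < ta n := by
  have u1 : PropU T (fun y : Md T W × Md T W => Gv G W y.1.c) x :=
    PropU.comp (g := Prod.fst) (propU_Gv G hW x.1) continuousAt_fst
  have u2 : PropU T (fun y : Md T W × Md T W => Gv G W y.2.c) x :=
    PropU.comp (g := Prod.snd) (propU_Gv G hW x.2) continuousAt_snd
  have u3 := u1.op u2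
  have m1 : ∀ (y : Md T W × Md T W) n, Gv G W y.1.c n ∈ T.E n := fun y n => Gv_mem G y.1.mem n
  have m2 : ∀ (y : Md T W × Md T W) n, Gv G W y.2.c n ∈ T.E n := fun y n => Gv_mem G y.2.mem n
  have c1 : ∀ n j, ContinuousAt (fun y : Md T W × Md T W => obs G (Gv G W y.1.c) n j) x := by
    intro n j
    simp only [obs_Gv]
    exact ((cont_st G hW n j).comp continuous_fst).continuousAt
  have c2 : ∀ n j, ContinuousAt (fun y : Md T W × Md T W => obs G (Gv G W y.2.c) n j) x := by
    intro n j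
    simp only [obs_Gv]
    exact ((cont_st G hW n j).comp continuous_snd).continuousAt
  obtain ⟨n₁, h₁⟩ := Hm_levels (fun j => dead_zone G m1 u1 c1 j) k
  obtain ⟨n₂, h₂⟩ := Hm_levels (fun j => dead_zone G m2 u2 c2 j) k
  obtain ⟨n₃, h₃⟩ := Hm_levels (fun j => dead_zone G (fun y n => T.op_mem n _ _ (m1 y n) (m2 y n)) u3
    (fun n j => (Hm_cont_obs G hW n j).continuousAt) j) k
  refine ⟨max n₁ (max n₂ n₃), ?_⟩
  filter_upwards [h₁, h₂, h₃] with y a₁ a₂ a₃ n hn j hj
  have b₁ := a₁ n ((le_max_left _ _).trans hn) j hj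
  have b₂ := a₂ n (((le_max_left _ _).trans (le_max_right _ _)).trans hn) j hj
  have b₃ := a₃ n (((le_max_right _ _).trans (le_max_right _ _)).trans hn) j hj
  rw [obs_Gv] at b₁ b₂
  exact ⟨b₁, b₂, b₃⟩

theorem smooth_mul (hW : ∀ k n, 0 < W k n) (hG : ∀ k m, k ≤ m → Grow G k m W)
    (f : Md T W × Md T W → Md T W) (hf : ∀ x n, (f x).c n = Fm G W 0 x.1.c x.2.c n) :
    BastianiSmooth f univ := by
  have hW' : ∀ k n, 0 ≤ W k n := fun k n => (hW k n).le
  have hsm : ∀ (t n : ℕ), ContDiff ℝ ∞ (fun z : Hist T n × Hist T n =>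
      toE T n (Fm G W t (ext T n z.1) (ext T n z.2) n)) := by
    intro t n
    refine contDiff_toE ?_ fun z => Fm_mem G (ext_mem n z.1) (ext_mem n z.2) n
    exact smooth_Fm G hW' (v := fun z : Hist T n × Hist T n => ext T n z.1)
      (v' := fun z : Hist T n × Hist T n => ext T n z.2)
      (fun b => (contDiff_ext n b).comp contDiff_fst) (fun z => ext_mem n z.1)
      (fun b => (contDiff_ext n b).comp contDiff_snd) (fun z => ext_mem n z.2) n
  refine bastiani_of_growth T W hW 0 (Md T W × Md T W) (fun n => Hist T n × Hist T n)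
    (fun n => (hist T W hW n).prodMap (hist T W hW n))
    (fun n z => toE T n (Fm G W 0 (ext T n z.1) (ext T n z.2) n)) (fun n => hsm 0 n)
    (fun n => (LinearMap.ker (LinearMap.proj (R := ℝ) (φ := fun a : Fin (n + 1) => T.E (a : ℕ)) (Fin.last n))).prod
      (LinearMap.ker (LinearMap.proj (R := ℝ) (φ := fun a : Fin (n + 1) => T.E (a : ℕ)) (Fin.last n))))
    ?_ ?_ (fun n k => Box T W n k ×ˢ Box T W n k) ?_ ?_ f ?_
  · -- vanishing
    rintro n ⟨z, z'⟩ ⟨hz, hz'⟩
    have e : ∀ w : Hist T n, w ∈ LinearMap.ker (LinearMap.proj (R := ℝ) (φ := fun a : Fin (n + 1) => T.E (a : ℕ)) (Fin.last n)) →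
        ext T n w n = 0 := by
      intro w hw
      have h1 : w (Fin.last n) = 0 := hw
      unfold ext
      rw [dif_pos (Nat.lt_succ_self n)]
      show ((w (Fin.last n) : T.E (Fin.last n : ℕ)) : V) = 0
      rw [h1]
      rfl
    have h2 : Fm G W 0 (ext T n z) (ext T n z') n = 0 := Fm_vanish G (e z hz) (e z' hz')
    show toE T n (Fm G W 0 (ext T n z) (ext T n z') n) = 0
    rw [h2]
    apply Subtype.ext
    rw [toE_coe (T.E n).zero_mem]
    rfl
  · -- eventually in `Z n`
    rintro ⟨x, x'⟩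
    obtain ⟨n₁, h₁⟩ := x.ev
    obtain ⟨n₂, h₂⟩ := x'.ev
    filter_upwards [eventually_ge_atTop (max n₁ n₂)] with n hn
    refine ⟨?_, ?_⟩
    · show hist T W hW n x (Fin.last n) = 0
      apply Subtype.ext
      exact h₁ n ((le_max_left _ _).trans hn)
    · show hist T W hW n x' (Fin.last n) = 0
      apply Subtype.ext
      exact h₂ n ((le_max_right _ _).trans hn)
  · -- boxes
    rintro k ⟨x, x'⟩
    obtain ⟨O, hO, n₁, h₁⟩ := box_absorb hW k x
    obtain ⟨O', hO', n₂, h₂⟩ := box_absorb hW k x'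
    refine ⟨O ×ˢ O', prod_mem_nhds hO hO', max n₁ n₂, fun n hn y hy => ?_⟩
    exact ⟨h₁ n ((le_max_left _ _).trans hn) y.1 hy.1, h₂ n ((le_max_right _ _).trans hn) y.2 hy.2⟩
  · -- the local comparison
    intro k x
    obtain ⟨n₁, h₁⟩ := Hm_dead G hW k x
    refine ⟨_, h₁, max n₁ k + 1, fun n hn => ?_⟩
    obtain ⟨m, rfl⟩ : ∃ m, n = m + 1 := ⟨n - 1, by omega⟩
    have hm1 : n₁ ≤ m := (le_max_left n₁ k).trans (by omega)
    have hmk : k ≤ m := (le_max_right n₁ k).trans (by omega)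
    refine ⟨fun z => toE T (m + 1) (Fm G W (k + 1) (ext T (m + 1) z.1) (ext T (m + 1) z.2) (m + 1)),
      ⋂ j ∈ Finset.range (k + 1), ({z : Hist T (m + 1) × Hist T (m + 1) |
        T.N j (Gv G W (ext T (m + 1) z.1) (m + 1) - st G W (ext T (m + 1) z.1) m j) < ta m} ∩
        {z | T.N j (Gv G W (ext T (m + 1) z.2) (m + 1) - st G W (ext T (m + 1) z.2) m j) < ta m} ∩
        {z | T.N j (T.op (Gv G W (ext T (m + 1) z.1) (m + 1)) (Gv G W (ext T (m + 1) z.2) (m + 1)) -
          obs G (fun a => T.op (Gv G W (ext T (m + 1) z.1) a) (Gv G W (ext T (m + 1) z.2) a)) m j) < ta m}),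
      hsm (k + 1) (m + 1), ?_, ?_, ?_, ?_⟩
    · refine isOpen_biInter_finset fun j _ => IsOpen.inter (IsOpen.inter ?_ ?_) ?_
      · refine isOpen_lt (cont_N_comp (n := m + 1) j ?_ ?_) continuous_const
        · refine Continuous.sub ?_ ?_
          · exact (smooth_Gv G hW' (v := fun z : Hist T (m + 1) × Hist T (m + 1) => ext T (m + 1) z.1)
              (fun b => (contDiff_ext (m + 1) b).comp contDiff_fst) (fun z => ext_mem (m + 1) z.1) (m + 1)).continuous
          · exact (smooth_st G hW' (v := fun z : Hist T (m + 1) × Hist T (m + 1) => ext T (m + 1) z.1)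
              (fun b => (contDiff_ext (m + 1) b).comp contDiff_fst) (fun z => ext_mem (m + 1) z.1) m j).continuous
        · intro z
          exact (T.E (m + 1)).sub_mem (Gv_mem G (ext_mem (m + 1) z.1) (m + 1))
            (T.mono (Nat.le_succ m) ((st_good G (ext_mem (m + 1) z.1) m).mem j))
      · refine isOpen_lt (cont_N_comp (n := m + 1) j ?_ ?_) continuous_const
        · refine Continuous.sub ?_ ?_
          · exact (smooth_Gv G hW' (v := fun z : Hist T (m + 1) × Hist T (m + 1) => ext T (m + 1) z.2)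
              (fun b => (contDiff_ext (m + 1) b).comp contDiff_snd) (fun z => ext_mem (m + 1) z.2) (m + 1)).continuous
          · exact (smooth_st G hW' (v := fun z : Hist T (m + 1) × Hist T (m + 1) => ext T (m + 1) z.2)
              (fun b => (contDiff_ext (m + 1) b).comp contDiff_snd) (fun z => ext_mem (m + 1) z.2) m j).continuous
        · intro z
          exact (T.E (m + 1)).sub_mem (Gv_mem G (ext_mem (m + 1) z.2) (m + 1))
            (T.mono (Nat.le_succ m) ((st_good G (ext_mem (m + 1) z.2) m).mem j))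
      · refine isOpen_lt (cont_N_comp (n := m + 1) j ?_ ?_) continuous_const
        · refine Continuous.sub ?_ ?_
          · exact (Hm_smooth_prod G hW (m + 1) (m + 1)).continuous
          · exact (smooth_obs G (n := m) (fun a _ => Hm_smooth_prod G hW (m + 1) a) j).continuous
        · intro z
          have hZ : ∀ a, T.op (Gv G W (ext T (m + 1) z.1) a) (Gv G W (ext T (m + 1) z.2) a) ∈ T.E a := fun a =>
            T.op_mem a _ _ (Gv_mem G (ext_mem (m + 1) z.1) a) (Gv_mem G (ext_mem (m + 1) z.2) a)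
          exact (T.E (m + 1)).sub_mem (hZ (m + 1)) (T.mono (Nat.le_succ m) ((obs_good G hZ m).mem j))
    · intro y hy
      rw [Set.mem_iInter₂]
      intro j hj
      obtain ⟨b₁, b₂, b₃⟩ := hy m hm1 j (by have := Finset.mem_range.1 hj; omega)
      have e1 : ∀ a, a ≤ m + 1 → ext T (m + 1) (hist T W hW (m + 1) y.1) a = y.1.c a := fun a ha =>
        ext_hist hW (m + 1) y.1 ha
      have e2 : ∀ a, a ≤ m + 1 → ext T (m + 1) (hist T W hW (m + 1) y.2) a = y.2.c a := fun a ha =>
        ext_hist hW (m + 1) y.2 ha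
      refine ⟨⟨?_, ?_⟩, ?_⟩
      · show T.N j (Gv G W (ext T (m + 1) (hist T W hW (m + 1) y.1)) (m + 1) -
          st G W (ext T (m + 1) (hist T W hW (m + 1) y.1)) m j) < ta m
        rw [Hm_Gv_congr G e1 le_rfl, st_congr_v G fun b hb => e1 b (by omega)]
        exact b₁
      · show T.N j (Gv G W (ext T (m + 1) (hist T W hW (m + 1) y.2)) (m + 1) -
          st G W (ext T (m + 1) (hist T W hW (m + 1) y.2)) m j) < ta m
        rw [Hm_Gv_congr G e2 le_rfl, st_congr_v G fun b hb => e2 b (by omega)]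
        exact b₂
      · show T.N j (T.op (Gv G W (ext T (m + 1) (hist T W hW (m + 1) y.1)) (m + 1))
          (Gv G W (ext T (m + 1) (hist T W hW (m + 1) y.2)) (m + 1)) -
          obs G (fun a => T.op (Gv G W (ext T (m + 1) (hist T W hW (m + 1) y.1)) a)
            (Gv G W (ext T (m + 1) (hist T W hW (m + 1) y.2)) a)) m j) < ta m
        rw [Hm_Gv_congr G e1 le_rfl, Hm_Gv_congr G e2 le_rfl,
          obs_congr G (Z' := fun a => T.op (Gv G W y.1.c a) (Gv G W y.2.c a)) fun a ha => by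
            rw [Hm_Gv_congr G e1 (show a ≤ m + 1 by omega), Hm_Gv_congr G e2 (show a ≤ m + 1 by omega)]]
        exact b₃
    · intro z hz
      rw [Set.mem_iInter₂] at hz
      have hz' : ∀ j, j < k + 1 → _ := fun j hj => hz j (Finset.mem_range.2 hj)
      show toE T (m + 1) (Fm G W 0 (ext T (m + 1) z.1) (ext T (m + 1) z.2) (m + 1)) =
        toE T (m + 1) (Fm G W (k + 1) (ext T (m + 1) z.1) (ext T (m + 1) z.2) (m + 1))
      rw [Fm_trunc G hW' (t := k + 1) (ext_mem (m + 1) z.1) (ext_mem (m + 1) z.2)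
        (fun j hj _ => (hz' j hj).1.1.le) (fun j hj _ => (hz' j hj).1.2.le) (fun j hj _ => (hz' j hj).2.le)]
    · exact (hG k m hmk).1
  · intro x n
    rw [hf, toE_coe (Fm_mem G (ext_mem n _) (ext_mem n _) n)]
    exact Fm_congr_v G (fun a ha => (ext_hist hW n x.1 ha).symm) (fun a ha => (ext_hist hW n x.2 ha).symm)

end Pool.Agent.Lib.MP_862e0f_al.EV
end

section

/-!
# The Lie group of a tower
-/

set_option autoImplicit false

namespace Pool.Agent.Lib.MP_862e0f_al.EV

open Filter Topology Set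
open scoped ContDiff

variable {V : Type} [NormedAddCommGroup V] [NormedSpace ℝ V] {T : Tower V} (G : Gear T)
  {W : ℕ → ℕ → ℝ}

variable (T) in
/-- The eventually constant sequences `Z` with `Z n ∈ E n`. -/
def SG : Type := {Z : ℕ → V // (∀ n, Z n ∈ T.E n) ∧ ∃ n₀, ∀ n, n₀ ≤ n → Z n = Z n₀}

namespace SG

instance : Mul (SG T) :=
  ⟨fun a b => ⟨fun n => T.op (a.1 n) (b.1 n), fun n => T.op_mem n _ _ (a.2.1 n) (b.2.1 n), by
    obtain ⟨m, hm⟩ := a.2.2
    obtain ⟨n, hn⟩ := b.2.2
    refine ⟨max m n, fun i hi => ?_⟩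
    change T.op (a.1 i) (b.1 i) = T.op (a.1 (max m n)) (b.1 (max m n))
    rw [hm i (le_trans (le_max_left _ _) hi), hm (max m n) (le_max_left _ _),
      hn i (le_trans (le_max_right _ _) hi), hn (max m n) (le_max_right _ _)]⟩⟩

instance : One (SG T) := ⟨⟨fun _ => 0, fun n => (T.E n).zero_mem, 0, fun _ _ => rfl⟩⟩

instance : Inv (SG T) :=
  ⟨fun a => ⟨fun n => T.iv (a.1 n), fun n => T.iv_mem n _ (a.2.1 n), by
    obtain ⟨m, hm⟩ := a.2.2
    exact ⟨m, fun i hi => congrArg T.iv (hm i hi)⟩⟩⟩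

theorem mul_val (a b : SG T) (n : ℕ) : (a * b).1 n = T.op (a.1 n) (b.1 n) := rfl
theorem one_val (n : ℕ) : (1 : SG T).1 n = 0 := rfl
theorem inv_val (a : SG T) (n : ℕ) : (a⁻¹).1 n = T.iv (a.1 n) := rfl

noncomputable instance : Group (SG T) :=
  Group.ofLeftAxioms (fun _ _ _ => Subtype.ext (funext fun _ => T.op_assoc _ _ _))
    (fun _ => Subtype.ext (funext fun _ => T.zero_op _))
    (fun _ => Subtype.ext (funext fun _ => T.iv_op _))

end SG

/-- The global chart. -/
noncomputable def eqv (hW : ∀ k n, 0 < W k n) : Md T W ≃ SG T where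
  toFun v := ⟨Gv G W v.c, Gv_mem G v.mem, by
    obtain ⟨n₀, h⟩ := v.ev
    exact ⟨n₀, fun n hn => Gv_const G (fun m hm => h m hm.le) hn⟩⟩
  invFun Z := Md.mk' W (crd G W Z.1) (crd_mem G Z.2.1) (by
    obtain ⟨n₀, h⟩ := Z.2.2
    refine ⟨n₀ + 1, fun n hn => ?_⟩
    obtain ⟨m, rfl⟩ : ∃ m, n = m + 1 := ⟨n - 1, by omega⟩
    exact crd_const G (by rw [h (m + 1) (by omega), h m (by omega)]))
  left_inv v := Md.ext' fun n => by
    rw [Md.mk'_c, crd_Gv G (fun k n => (hW k n).le) v.mem]
  right_inv Z := Subtype.ext (Gv_crd G (fun k n => (hW k n).le) Z.2.1)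

theorem eqv_val (hW : ∀ k n, 0 < W k n) (v : Md T W) : (eqv G hW v).1 = Gv G W v.c := rfl

theorem eqv_symm_c (hW : ∀ k n, 0 < W k n) (Z : SG T) (n : ℕ) :
    ((eqv G hW).symm Z).c n = crd G W Z.1 n := rfl

/-- The group structure on the model space. -/
@[reducible] noncomputable def grp (hW : ∀ k n, 0 < W k n) : Group (Md T W) := (eqv G hW).group

theorem grp_mul_c (hW : ∀ k n, 0 < W k n) (v w : Md T W) (n : ℕ) :
    ((grp G hW).mul v w).c n = Fm G W 0 v.c w.c n := by
  rw [Fm_eq_crd]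
  rfl

theorem grp_inv_c (hW : ∀ k n, 0 < W k n) (v : Md T W) (n : ℕ) :
    ((grp G hW).inv v).c n = Fi G W 0 v.c n := by
  rw [Fi_eq_crd]
  rfl

theorem isLie (hW : ∀ k n, 0 < W k n) (hG : ∀ k m, k ≤ m → Grow G k m W) :
    @IsLieGroup (Md T W) _ _ _ (Md T W) (grp G hW) _ _ := by
  let _ := grp G hW
  have h1 : BastianiSmooth (fun x : Md T W × Md T W => x.1 * x.2) univ :=
    smooth_mul G hW hG _ fun x n => grp_mul_c G hW x.1 x.2 n
  have h2 : BastianiSmooth (fun x : Md T W => x⁻¹) univ :=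
    smooth_inv G hW hG _ fun x n => grp_inv_c G hW x n
  have h3 : ContinuousOn (fun x : Md T W × Md T W => x.1 * x.2) univ := h1 0
  have h4 : ContinuousOn (fun x : Md T W => x⁻¹) univ := h2 0
  have hat : ∀ φ ∈ atlas (Md T W) (Md T W), φ = OpenPartialHomeomorph.refl (Md T W) :=
    fun φ h => h
  refine ⟨?_, continuousOn_univ.1 h3, ?_, continuousOn_univ.1 h4, ?_⟩
  · intro φ hφ ψ hψ
    rw [hat φ hφ, hat ψ hψ]
    exact bastianiSmooth_linear (ContinuousLinearMap.id ℝ _) _
  · intro φ₁ h₁ φ₂ h₂ ψ hψ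
    rw [hat φ₁ h₁, hat φ₂ h₂, hat ψ hψ]
    have e : {z : Md T W × Md T W | (z.1 ∈ (OpenPartialHomeomorph.refl (Md T W)).target ∧
        z.2 ∈ (OpenPartialHomeomorph.refl (Md T W)).target) ∧
        (OpenPartialHomeomorph.refl (Md T W)).symm z.1 *
          (OpenPartialHomeomorph.refl (Md T W)).symm z.2 ∈
            (OpenPartialHomeomorph.refl (Md T W)).source} = univ := by
      ext z
      exact ⟨fun _ => mem_univ _, fun _ => ⟨⟨mem_univ _, mem_univ _⟩, mem_univ _⟩⟩
    rw [e]
    exact h1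
  · intro φ hφ ψ hψ
    rw [hat φ hφ, hat ψ hψ]
    have e : {x : Md T W | x ∈ (OpenPartialHomeomorph.refl (Md T W)).target ∧
        ((OpenPartialHomeomorph.refl (Md T W)).symm x)⁻¹ ∈
          (OpenPartialHomeomorph.refl (Md T W)).source} = univ := by
      ext z
      exact ⟨fun _ => mem_univ _, fun _ => ⟨mem_univ _, mem_univ _⟩⟩
    rw [e]
    exact h2

/-- The Lie group of a tower. -/
noncomputable def LG (hW : ∀ k n, 0 < W k n) (hG : ∀ k m, k ≤ m → Grow G k m W) :
    LieGrp.{0, 0} :=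
  @LieGrp.mk (Md T W) (Md T W) (grp G hW) _ (Md.t2 hW) _ _ _ _ _ _ (Md.t2 hW) _ (isLie G hW hG)

end Pool.Agent.Lib.MP_862e0f_al.EV
end

section

/-!
# Properties of the Lie group of a tower
-/

set_option autoImplicit false

namespace Pool.Agent.Lib.MP_862e0f_al.EV

open Filter Topology Set
open scoped ContDiff

variable {V : Type} [NormedAddCommGroup V] [NormedSpace ℝ V] {T : Tower V} (G : Gear T)
  {W : ℕ → ℕ → ℝ}

/-- The limit of the sequence with coordinates `v`. -/
noncomputable def lam (v : Md T W) : V := Gv G W v.c (Classical.choose v.ev)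

theorem lam_spec (v : Md T W) : ∃ n₀, ∀ n, n₀ ≤ n → Gv G W v.c n = lam G v := by
  refine ⟨Classical.choose v.ev, fun n hn => ?_⟩
  exact Gv_const G (fun m hm => Classical.choose_spec v.ev m hm.le) hn

theorem lam_mul (hW : ∀ k n, 0 < W k n) (v w : Md T W) :
    lam G ((grp G hW).mul v w) = T.op (lam G v) (lam G w) := by
  obtain ⟨n₁, h₁⟩ := lam_spec G v
  obtain ⟨n₂, h₂⟩ := lam_spec G w
  obtain ⟨n₃, h₃⟩ := lam_spec G ((grp G hW).mul v w)
  have e : ∀ n, Gv G W ((grp G hW).mul v w).c n = T.op (Gv G W v.c n) (Gv G W w.c n) := by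
    intro n
    have h4 : eqv G hW ((grp G hW).mul v w) = eqv G hW v * eqv G hW w :=
      (eqv G hW).apply_symm_apply _
    exact congrArg (fun Z : SG T => Z.1 n) h4
  set n := max n₁ (max n₂ n₃)
  rw [← h₁ n (by omega), ← h₂ n (by omega), ← h₃ n (by omega), e]

theorem lam_cont (hW : ∀ k n, 0 < W k n) (v : Md T W) (k : ℕ) {ε : ℝ} (hε : 0 < ε) :
    ∀ᶠ w in 𝓝 v, T.N k (lam G w - lam G v) < ε := by
  obtain ⟨z, n₀, hz, hU⟩ := propU_Gv G hW v
  obtain ⟨n₁, h₁⟩ := lam_spec G v
  filter_upwards [hU k ε hε] with w hw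
  obtain ⟨n₂, h₂⟩ := lam_spec G w
  set n := max n₀ (max n₁ n₂)
  have e1 : lam G v = z := by rw [← h₁ n (by omega)]; exact hz n (by omega)
  have := hw n (by omega)
  rwa [h₂ n (by omega), ← e1] at this

/-- The sequence which starts at time `n` with the constant value `x`. -/
def late (n : ℕ) (x : V) (a : ℕ) : V := if n ≤ a then x else 0

theorem late_ge {n a : ℕ} (h : n ≤ a) (x : V) : late n x a = x := if_pos h

theorem late_lt {n a : ℕ} (h : a < n) (x : V) : late n x a = 0 := if_neg (by omega)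

/-- The same as an element of the group of sequences. -/
def lateSG (n : ℕ) {x : V} (hx : x ∈ T.E n) : SG T :=
  ⟨late n x, fun a => by
    rcases Nat.lt_or_ge a n with h | h
    · rw [late_lt h]; exact (T.E a).zero_mem
    · rw [late_ge h]; exact T.mono h hx, n, fun a ha => by
    rw [late_ge ha, late_ge le_rfl]⟩

open Classical in
/-- Late start: the element with the constant value `x` from time `n` on. -/
noncomputable def io (hW : ∀ k n, 0 < W k n) (n : ℕ) (x : V) : Md T W :=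
  if hx : x ∈ T.E n then (eqv G hW).symm (lateSG n hx) else 0

theorem lam_io (hW : ∀ k n, 0 < W k n) {n : ℕ} {x : V} (hx : x ∈ T.E n) :
    lam G (io G hW n x) = x := by
  obtain ⟨m, hm⟩ := lam_spec G (io G hW n x)
  have h1 : ∀ a, Gv G W (io G hW n x).c a = late n x a := by
    intro a
    have h2 : eqv G hW (io G hW n x) = lateSG n hx := by
      unfold io
      rw [dif_pos hx, Equiv.apply_symm_apply]
    exact congrArg (fun Z : SG T => Z.1 a) h2
  rw [← hm (max m n) (le_max_left _ _), h1, late_ge (le_max_right _ _)]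

theorem io_c (hW : ∀ k n, 0 < W k n) {m : ℕ} {x : V} (hx : x ∈ T.E (m + 1)) (a : ℕ) :
    (io G hW (m + 1) x).c a = if a = m + 1 then Afac G W 0 m (fun _ => 0) x • x else 0 := by
  have h1 : (io G hW (m + 1) x).c a = crd G W (late (m + 1) x) a := by
    unfold io
    rw [dif_pos hx]
    rfl
  rw [h1]
  rcases Nat.lt_trichotomy a (m + 1) with h | h | h
  · rw [if_neg h.ne]
    cases a with
    | zero => exact late_lt (by omega) x
    | succ b =>
      refine crd_const G ?_
      rw [late_lt (by omega), late_lt (by omega)]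
  · subst h
    rw [if_pos rfl]
    change crd1 G W 0 m _ _ = _
    have h2 : obs G (late (m + 1) x) m = fun _ => 0 := by
      rw [obs_congr G (Z' := fun _ => 0) (fun a ha => late_lt (by omega) x)]
      funext j
      exact obs_zero G m j
    unfold crd1
    rw [h2, late_ge le_rfl, late_lt (Nat.lt_succ_self m), sub_zero]
  · rw [if_neg h.ne']
    obtain ⟨b, rfl⟩ : ∃ b, a = b + 1 := ⟨a - 1, by omega⟩
    refine crd_const G ?_
    rw [late_ge (by omega), late_ge (by omega)]

theorem late_start (hW : ∀ k n, 0 < W k n) (hG : ∀ k m, k ≤ m → Grow G k m W)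
    {U : Set (Md T W)} (hU : U ∈ 𝓝 (0 : Md T W)) :
    ∃ k : ℕ, ∃ ε : ℝ, 0 < ε ∧ ∀ x, T.N k x < ε → ∀ᶠ n in atTop, io G hW n x ∈ U := by
  obtain ⟨s, ε, hε, hs⟩ := mem_nhds_Md hU
  refine ⟨s.sup id, ta 0, ta_pos 0, fun x hx => ?_⟩
  obtain ⟨e, he⟩ := T.exh x
  obtain ⟨q, hq⟩ := exists_nat_gt (max ‖x‖ (1 / ε))
  refine eventually_atTop.2 ⟨max (e + 1) (max (s.sup id + 1) (q + 1)), fun n hn => ?_⟩
  obtain ⟨m, rfl⟩ : ∃ m, n = m + 1 := ⟨n - 1, by omega⟩
  have hxE : x ∈ T.E (m + 1) := T.mono (by omega) he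
  refine hs _ fun k hk => ?_
  have hkm : k ≤ s.sup id := Finset.le_sup (f := id) hk
  have hqm : (q : ℝ) ≤ m := by exact_mod_cast (by omega : q ≤ m)
  have h1 : Afac G W 0 m (fun _ => 0) x = Afac G W (k + 1) m (fun _ => 0) x := by
    refine Afac_trunc G (k + 1) m _ _ fun j hj _ => ?_
    rw [sub_zero]
    refine G.pen_zero j m x hxE ?_
    exact (N_mono T (by omega : j ≤ s.sup id) x).trans (hx.le.trans (ta_le (Nat.zero_le m)))
  have h2 := (hG k m (by omega)).2.2 x hxE (by
    have := (le_max_left ‖x‖ (1 / ε)).trans hq.le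
    linarith)
  rw [sub_zero]
  refine lt_of_le_of_lt (Pn_le hW k _ (C := 1 / (((m + 1 : ℕ) : ℝ) + 1)) fun a => ?_) ?_
  · rw [io_c G hW hxE]
    split_ifs with h
    · subst h
      rw [h1, mul_one_div]
      exact h2
    · rw [norm_zero]
      exact mul_nonneg (hW k a).le (by positivity)
  · have h3 : 1 / ε < (m : ℝ) + 1 + 1 := by
      have := (le_max_right ‖x‖ (1 / ε)).trans_lt hq
      linarith
    push_cast
    rw [div_lt_iff₀ (by positivity)]
    rw [div_lt_iff₀ hε] at h3
    linarith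

end Pool.Agent.Lib.MP_862e0f_al.EV
end

section

/-!
# The counterexample
-/

set_option autoImplicit false

namespace Pool.Agent.Lib.MP_862e0f_al.EV

open Filter Topology Set

universe w

/-- the zero-dimensional model space -/
abbrev Zero0 : Type := Fin 0 → ℝ

/-- A group with the discrete topology as a Lie group. -/
noncomputable def discGrp (Γ : Type) [Group Γ] : LieGrp.{0, 0} :=
  letI : TopologicalSpace Γ := ⊥
  haveI : DiscreteTopology Γ := ⟨rfl⟩
  letI : ChartedSpace Zero0 Γ := ChartedSpace.ofDiscreteTopology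
  { carrier := Γ
    model := Zero0
    lie :=
      { chart_change := fun _ _ _ _ => fun k => bastianiCk_subsingleton k _ _
        continuous_mul := continuous_of_discreteTopology
        smooth_mul := fun _ _ _ _ _ _ => fun k => bastianiCk_subsingleton k _ _
        smooth_inv := ⟨continuous_of_discreteTopology,
          fun _ _ _ _ => fun k => bastianiCk_subsingleton k _ _⟩ } }

theorem discGrp_discrete (Γ : Type) [Group Γ] : DiscreteTopology (discGrp Γ).carrier := ⟨rfl⟩

theorem disc_morphism {Γ : Type} [Group Γ] (H : LieGrp.{0, 0}) (f : Γ →* H.carrier) :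
    IsMorphism (discGrp Γ) H f where
  smooth := by
    have := discGrp_discrete Γ
    exact ⟨(continuous_of_discreteTopology : Continuous (X := (discGrp Γ).carrier) f),
      fun _ _ _ _ => fun k => bastianiCk_subsingleton (E := Zero0) k _ _⟩

variable (G : Gear triTower) {W : ℕ → ℕ → ℝ}

theorem grp_one (hW : ∀ k n, 0 < W k n) : (grp G hW).one = 0 := by
  refine Md.ext' fun n => ?_
  change crd G W (fun _ => (0 : Vb)) n = 0
  cases n with
  | zero => rfl
  | succ n => exact crd_const G rfl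

theorem late_LG (hW : ∀ k n, 0 < W k n) (hG : ∀ k m, k ≤ m → Grow G k m W) :
    Late (LG G hW hG).carrier (lam G (W := W)) (io G hW) where
  mul := lam_mul G hW
  io_lam n x hx := lam_io G hW (T := triTower) hx
  cont g k ε hε := lam_cont G hW g k hε
  late U hU := by
    refine late_start G hW hG ?_
    have h1 : (1 : (LG G hW hG).carrier) = (0 : Md triTower W) := grp_one G hW
    rw [← h1]
    exact hU

/-- the subgroup generated by a countable set is countable -/
theorem countable_closure {Γ : Type} [Group Γ] {s : Set Γ} (hs : s.Countable) :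
    Countable (Subgroup.closure s) := by
  have := hs.to_subtype
  have h1 : Countable (FreeGroup s) :=
    (Quot.mk_surjective (r := FreeGroup.Red.Step (α := s))).countable
  have h2 : (FreeGroup.lift (Subtype.val : s → Γ)).range = Subgroup.closure s := by
    rw [FreeGroup.range_lift_eq_closure, Subtype.range_val]
  rw [← h2]
  exact (MonoidHom.rangeRestrict_surjective _).countable

/-- The counterexample: `H` is the group of the eventually constant sequences in the triangular polynomial group,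
`G` a countable dense subgroup of the stabilizer of the point `0`, with the discrete topology. -/
theorem main : ∃ (G H : LieGrp.{0, 0}) (f : G.carrier →* H.carrier),
    Countable G.carrier ∧ DiscreteTopology G.carrier ∧ SecondCountableTopology H.carrier ∧
    SecondCountableTopology H.model ∧ ContractibleSpace H.carrier ∧ IsMorphism G H f ∧
    (∀ (K : Type w) [Group K] [TopologicalSpace K] [IsTopologicalGroup K] [T2Space K]
      (g₁ g₂ : H.carrier →* K), Continuous g₁ → Continuous g₂ → g₁.comp f = g₂.comp f → g₁ = g₂) ∧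
    ¬ DenseRange f := by
  obtain ⟨G₀⟩ := exists_gear triTower
  obtain ⟨W, hW, -, hG⟩ := exists_weights G₀
  have hsc : SecondCountableTopology (Md triTower W) := Md.secondCountable hW
  have hH := late_LG G₀ hW hG
  have hsc' : SecondCountableTopology (LG G₀ hW hG).carrier := hsc
  have hsc2 : SecondCountableTopology hH.stab :=
    TopologicalSpace.Subtype.secondCountableTopology (hH.stab : Set (LG G₀ hW hG).carrier)
  obtain ⟨D, hDc, hDd⟩ := TopologicalSpace.exists_countable_dense hH.stab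
  set S : Subgroup (LG G₀ hW hG).carrier := Subgroup.closure ((↑) '' D) with hS
  have hSL : S ≤ hH.stab := by
    rw [hS, Subgroup.closure_le]
    rintro _ ⟨x, -, rfl⟩
    exact x.2
  have hdense : (hH.stab : Set (LG G₀ hW hG).carrier) ⊆ closure (S : Set (LG G₀ hW hG).carrier) := by
    intro x hx
    have h1 : (⟨x, hx⟩ : hH.stab) ∈ closure D := hDd _
    have h2 : x ∈ closure ((↑) '' D : Set (LG G₀ hW hG).carrier) :=
      image_closure_subset_closure_image (continuous_subtype_val (p := fun y => y ∈ hH.stab))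
        ⟨_, h1, rfl⟩
    exact closure_mono Subgroup.subset_closure h2
  have hcs : ContractibleSpace (Md triTower W) := RealTopologicalVectorSpace.contractibleSpace
  refine ⟨discGrp S, LG G₀ hW hG, S.subtype, ?_, discGrp_discrete S, hsc, hsc, hcs,
    disc_morphism _ _, ?_, ?_⟩
  · exact countable_closure (hDc.image _)
  · intro K _ _ _ _ g₁ g₂ h₁ h₂ h
    refine hH.epi h₁ h₂ fun x hx => ?_
    have h3 : EqOn g₁ g₂ (S : Set (LG G₀ hW hG).carrier) := fun y hy =>
      DFunLike.congr_fun h (⟨y, hy⟩ : S)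
    exact (h3.closure h₁ h₂) (hdense hx)
  · intro h
    obtain ⟨t, ht⟩ := hH.ne_top
    have h1 : closure (range (S.subtype : S → (LG G₀ hW hG).carrier)) ⊆ hH.stab :=
      closure_minimal (by rintro _ ⟨y, rfl⟩; exact hSL y.2) hH.closed
    exact ht (h1 (h t))

end Pool.Agent.Lib.MP_862e0f_al.EV
end

section

/-!
# The stabilizer of the point zero (TASK EW EB)

`inL Z h`: `(Z h n).f 0 i → 0` for all `i`. Note `act Z n h 0 = (Z h n).f 0` (`zero_add`).
`mul_mem`: `(Z (g * h) n).f 0 = y n + (Z g n).f (y n)` with `y n = (Z h n).f 0` (`opb_f`, `zero_add`), `y n l → 0`, `bx k' (y n)` (`Good.box` at `x = 0`, `bxc_zero`);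
`Good.lip` for `g`. `inv_mem`: with `y n = (Z h n).f 0`: `(Z h⁻¹ n).f (y n) = -y n` (`act_inv`/`act_mul` at `x = 0`, `Good.one`), and `Good.lip` for `h⁻¹`:
`(Z h⁻¹ n).f 0 i = -y n i - ((Z h⁻¹ n).f (y n) i - (Z h⁻¹ n).f 0 i) → 0`.
`closed`: let `h` be in the closure, fix `i`, `η`. By `Good.tail` (level `0`) there are `n₀` and a neighbourhood `O` of `h` with
`∑ a ∈ Ico n₀ M, Nb 0 (vv (Z g) a) ≤ η` for `g ∈ O` and all `M`. For `g ∈ O` with `inL Z g` and `N ≥ n₀, i`: by `Good.diff`
`‖(Z g M).f 0 i - (Z g N).f 0 i‖ ≤ η` for all `M ≥ N`, so `‖(Z g N).f 0 i‖ ≤ η` (`M → ∞`, `le_of_tendsto`). By the continuity of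
`g ↦ Z g N` at `h` and `‖(F - F').f 0 i‖ ≤ Nb 0 (F - F') = ‖F - F'‖` (`le_Nb`, `norm_Vb`) we get `‖(Z h N).f 0 i‖ ≤ 2 * η` for every
`N ≥ n₀, i` (choose `g ∈ O ∩ inL` with `‖Z g N - Z h N‖ ≤ η`, `mem_closure_iff_nhds`).
`limc`: the sequence `(Z h n).f 0 i` is Cauchy (`Good.diff`, `Good.tail` at the point), let `c' i` be its limit; it is real because all
terms are real (`Es_real`, closedness of `{z | z.im = 0}`). `g i = (c' i).re / (i + 1)`. `g i → 0`: `(Z h n).f 0 i` for `n = i` is `taub i (Z h i)` (`last_const`), and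
`‖c' i - taub i (Z h i)‖ ≤ sup_M ∑ a ∈ Ico (i + 1) (M + 1), Nb 0 (vv (Z h) a)`, bounded by a constant `B` (`Good.bdd`); so
`|g i| ≤ |gt triT (Z h) i| + B / (i + 1) → 0` (`Good.null`). `c = C0.mk g _`, `tq c.c i = (c' i).re`.
-/

set_option autoImplicit false

namespace Pool.Agent.Lib.MP_862e0f_al.EW

open Filter Topology Set

variable {H : Type} [Group H] [TopologicalSpace H] {Z : H → ℕ → Vb}

/-- `h` fixes the point `0` in the limit -/
def inL (Z : H → ℕ → Vb) (h : H) : Prop := ∀ i, Tendsto (fun n => (Z h n).f 0 i) atTop (𝓝 0)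

namespace Good

variable (hH : Good H Z)

include hH

theorem one_inL : inL Z (1 : H) := by
  intro i
  refine tendsto_const_nhds.congr fun n => ?_
  rw [hH.one]
  rfl

theorem EB_box (h : H) : ∃ k, ∀ n, bx k ((Z h n).f 0) := by
  obtain ⟨k, hk⟩ := hH.box h 0
  refine ⟨k, fun n => ?_⟩
  have h1 := hk n 0 fun l => bxc_zero 0 l
  unfold act at h1
  rwa [zero_add] at h1

theorem mul_inL {g h : H} (hg : inL Z g) (hh : inL Z h) : inL Z (g * h) := by
  obtain ⟨k, hk⟩ := hH.EB_box h
  intro i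
  have h1 := hH.lip g hk hh i
  have h2 := ((hh i).add h1).add (hg i)
  rw [add_zero, add_zero] at h2
  refine h2.congr fun n => ?_
  rw [hH.mul, opb_f, zero_add, Pi.add_apply]
  ring

theorem inv_inL {h : H} (hh : inL Z h) : inL Z h⁻¹ := by
  obtain ⟨k, hk⟩ := hH.EB_box h
  intro i
  have h1 := hH.lip h⁻¹ hk hh i
  have h2 := ((hh i).add h1).neg
  rw [add_zero, neg_zero] at h2
  refine h2.congr fun n => ?_
  have h3 := congrFun (hH.act_inv n h 0) i
  unfold act at h3
  rw [zero_add, Pi.add_apply, Pi.zero_apply] at h3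
  linear_combination -h3

/-- The stabilizer of the point `0`. -/
def stab : Subgroup H where
  carrier := {h | inL Z h}
  mul_mem' := fun ha hb => hH.mul_inL ha hb
  one_mem' := hH.one_inL
  inv_mem' := fun ha => hH.inv_inL ha

theorem mem_stab {h : H} : h ∈ hH.stab ↔ inL Z h := Iff.rfl

theorem EB_diff {h : H} {η : ℝ} {n₀ : ℕ}
    (hn : ∀ M, ∑ a ∈ Finset.Ico n₀ M, Nb 0 (triT.vv (Z h) a) ≤ η) {i N M : ℕ} (hi : i ≤ N)
    (h0 : n₀ ≤ N) (hN : N ≤ M) : ‖(Z h M).f 0 i - (Z h N).f 0 i‖ ≤ η := by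
  refine (hH.diff h (k := 0) (fun l => bxc_zero 0 l) hi hN).trans ((Finset.sum_le_sum_of_subset_of_nonneg
    ?_ fun _ _ _ => apply_nonneg _ _).trans (hn (M + 1)))
  exact Finset.Ico_subset_Ico (by omega) le_rfl

theorem closed : IsClosed (hH.stab : Set H) := by
  refine isClosed_of_closure_subset fun h hh => ?_
  rw [SetLike.mem_coe, mem_stab]
  intro i
  rw [Metric.tendsto_atTop]
  intro ε hε
  obtain ⟨n₀, hn₀⟩ := hH.tail h 0 (η := ε / 4) (by positivity)
  refine ⟨max n₀ i, fun N hN => ?_⟩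
  have hN0 : n₀ ≤ N := (le_max_left _ _).trans hN
  have hNi : i ≤ N := (le_max_right _ _).trans hN
  have hc := Metric.tendsto_nhds.1 (hH.cont h N) (ε / 4) (by positivity)
  obtain ⟨g, hg1, hg2⟩ := mem_closure_iff_nhds.1 hh _ (hn₀.and hc)
  have hg3 : inL Z g := hg2
  obtain ⟨hg4, hg5⟩ := hg1
  have h1 : ‖(0 : ℂ) - (Z g N).f 0 i‖ ≤ ε / 4 := by
    refine le_of_tendsto ((hg3 i).sub_const _).norm ?_
    filter_upwards [eventually_ge_atTop N] with M hM
    exact hH.EB_diff hg4 hNi hN0 hM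
  have h2 : ‖(Z g N).f 0 i - (Z h N).f 0 i‖ ≤ ε / 4 := by
    have h3 := le_Nb (k := 0) (Z g N - Z h N) i (x := 0) fun l => bxc_zero 0 l
    rw [← norm_Vb, Vb.sub_f, Pi.sub_apply, Pi.sub_apply] at h3
    rw [dist_eq_norm] at hg5
    exact h3.trans hg5.le
  rw [dist_eq_norm, sub_zero]
  have h4 : (Z h N).f 0 i = -((0 : ℂ) - (Z g N).f 0 i) - ((Z g N).f 0 i - (Z h N).f 0 i) := by ring
  rw [h4]
  refine (norm_sub_le _ _).trans_lt ?_
  rw [norm_neg]
  linarith

theorem EB_lim (h : H) (i : ℕ) : ∃ c : ℝ, Tendsto (fun n => (Z h n).f 0 i) atTop (𝓝 (c : ℂ)) := by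
  have h1 : CauchySeq fun n => (Z h n).f 0 i := by
    rw [Metric.cauchySeq_iff']
    intro ε hε
    obtain ⟨n₀, hn₀⟩ := hH.tail h 0 (η := ε / 2) (by positivity)
    have hn := hn₀.self_of_nhds
    refine ⟨max n₀ i, fun M hM => ?_⟩
    rw [dist_eq_norm]
    have h2 := hH.EB_diff hn (le_max_right n₀ i) (le_max_left n₀ i) hM
    linarith
  obtain ⟨c, hc⟩ := cauchySeq_tendsto_of_complete h1
  have h2 : c.im = 0 := by
    have h3 := (Complex.continuous_im.tendsto c).comp hc
    refine tendsto_nhds_unique h3 ?_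
    refine tendsto_const_nhds.congr fun n => ?_
    exact (Es_real (mem_Eb.1 (hH.mem h n)) (fun l => rfl) i).symm
  refine ⟨c.re, ?_⟩
  have h4 : ((c.re : ℝ) : ℂ) = c := Complex.ext (Complex.ofReal_re _) (by rw [Complex.ofReal_im, h2])
  rw [h4]
  exact hc

theorem limc (h : H) : ∃ c : C0, ∀ i, Tendsto (fun n => (Z h n).f 0 i) atTop
    (𝓝 ((tq c.c i : ℝ) : ℂ)) := by
  choose c hc using hH.EB_lim h
  obtain ⟨B, hB⟩ := hH.bdd h 0
  have hB0 : 0 ≤ B := by
    have := hB 0
    rwa [Finset.range_zero, Finset.sum_empty] at this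
  have h1 : ∀ i, |c i - taub i (Z h i)| ≤ B := by
    intro i
    have h2 : ‖((c i : ℝ) : ℂ) - (Z h i).f 0 i‖ ≤ B := by
      refine le_of_tendsto ((hc i).sub_const _).norm ?_
      filter_upwards [eventually_ge_atTop i] with M hM
      refine (hH.diff h (k := 0) (fun l => bxc_zero 0 l) le_rfl hM).trans
        ((Finset.sum_le_sum_of_subset_of_nonneg ?_ fun _ _ _ => apply_nonneg _ _).trans (hB (M + 1)))
      intro a ha
      rw [Finset.mem_Ico] at ha
      exact Finset.mem_range.2 ha.2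
    rw [last_const (hH.mem h i), ← Complex.ofReal_sub, Complex.norm_real, Real.norm_eq_abs] at h2
    exact h2
  have h3 : Tendsto (fun i : ℕ => c i / ((i : ℝ) + 1)) atTop (𝓝 0) := by
    have h4 : Tendsto (fun i : ℕ => B * (1 / ((i : ℝ) + 1))) atTop (𝓝 0) := by
      have := tendsto_one_div_add_atTop_nhds_zero_nat (𝕜 := ℝ)
      simpa using this.const_mul B
    have h5 := (hH.null h).abs.add h4
    rw [abs_zero, zero_add] at h5
    refine squeeze_zero_norm (fun i => ?_) h5
    have hi : (0 : ℝ) < (i : ℝ) + 1 := by positivity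
    have h6 : c i / ((i : ℝ) + 1) = gt triT (Z h) i + (c i - taub i (Z h i)) * (1 / ((i : ℝ) + 1)) := by
      have h7 : gt triT (Z h) i = taub i (Z h i) / ((i : ℝ) + 1) := rfl
      rw [h7]
      field_simp
      ring
    rw [h6, Real.norm_eq_abs]
    refine (abs_add_le _ _).trans (add_le_add le_rfl ?_)
    rw [abs_mul, abs_of_pos (by positivity : (0 : ℝ) < 1 / ((i : ℝ) + 1))]
    exact mul_le_mul_of_nonneg_right (h1 i) (by positivity)
  refine ⟨C0.mk (fun i => c i / ((i : ℝ) + 1)) h3, fun i => ?_⟩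
  have h4 : tq (C0.mk (fun i => c i / ((i : ℝ) + 1)) h3).c i = c i := by
    unfold tq
    rw [C0.mk_c]
    have hi : ((i : ℝ) + 1) ≠ 0 := by positivity
    field_simp
  rw [h4]
  exact hc i

/-- cosets of the stabilizer -/
theorem coset_eq {a b : H} (h : ∀ᶠ n in atTop, act Z n a 0 = act Z n b 0) : a⁻¹ * b ∈ hH.stab := by
  rw [mem_stab]
  intro i
  refine tendsto_const_nhds.congr' ?_
  filter_upwards [h] with n hn
  have h1 : act Z n (a⁻¹ * b) 0 = 0 := by rw [hH.act_mul, ← hn, hH.act_inv]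
  have h2 := congrFun h1 i
  unfold act at h2
  rw [zero_add] at h2
  exact h2.symm

end Good

end Pool.Agent.Lib.MP_862e0f_al.EW
end

section

/-!
# Translations collapse (TASK EW ED)

`act_tl`: `(Z h n).f x = (τ • eb i).f x` for `n ≥ i`. `act_s`: the same with `F`.
`collapse_axis`: apply `EV.collapse` with `X = H ⧸ hH.stab`, `x₀ = ((1 : H) : H ⧸ hH.stab)`, `z = (h : H ⧸ hH.stab)`, the given `h` (`h • x₀ = z` by `mul_one`).
`hL`: `h • x₀ = x₀` means `h ∈ hH.stab` (`QuotientGroup.eq`, `inv_mem`). `hz`: let `U ∈ 𝓝 1`; let `k, c, ε` be given by `hH.near U` and `C` by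
`exists_sp k i`; choose `m ≥ 1` with `|τ| * C ≤ c * m` and put `δ = τ / m`, so `|δ| * C ≤ c`. For `j : ℕ` choose `h_j` with `Z h_j = late i ((j * δ) • eb i)`
(`hH.start`, `eb_mem`); `y j = (h_j : H ⧸ hH.stab)`. `y 0 = x₀` and `y m = z` by `coset_eq`/`QuotientGroup.eq` (`act n h_0 0 = 0 = act n 1 0`;
`m * δ = τ`). `h_j • x₀ = y j`.
Given `U' ∈ 𝓝 1` let `k', c', ε'` be given by `hH.near U'`. Choose `l > i` so large that: the `∀ᶠ` statements of `exists_sp`, `hH.near U`, `hH.near U'`
hold at `l`, `1 ≤ ε' * (l + 1)`, and `|δ| * C₀ ≤ l`, where ... : let `p` be given by `exists_sp` at `l` and let `F` be given by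
`exists_el i l _ (C δ * p)`: `F.f x j = if j = i then δ * p (x l) else 0`. `taub l F = 0` (`i < l`), `Nb k F ≤ |δ| * C ≤ c` (`Nb_le`), and
`‖F‖ = Nb 0 F ≤ Nb k F ≤ c ≤ l` for `l ≥ c` (`norm_Vb`, `Nb_mono'`). So there is `s ∈ U` with `Z s = late l F`. For `t` take `x = eb l`: `taub l (eb l) = 1 ≤ ε' * (l + 1)`,
`eb l - 1 • eb l = 0`. So there is `t ∈ U'` with `Z t = late l (eb l)`.
* `s • y j = y j`: `coset_eq` for `a = s * h_j`, `b = h_j`: for `n ≥ l`, `act n h_j 0 = (j δ) e_i`, `act n s` adds `δ * p (0) = 0` to the coordinate `i`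
  (`i ≠ l`).
* `s • t • y j = t • y (j + 1)`: `act n (s * (t * h_j)) 0 = act n s ((j δ) e_i + e_l) = (j δ + δ * p 1) e_i + e_l = act n (t * h_(j+1)) 0`.
-/

set_option autoImplicit false

namespace Pool.Agent.Lib.MP_862e0f_al.EW

open Filter Topology Set

universe w

variable {H : Type} [Group H] [TopologicalSpace H] {Z : H → ℕ → Vb}

omit [Group H] [TopologicalSpace H] in
private theorem ED_Z {h : H} {i : ℕ} {F : Vb} (hh : ∀ a, Z h a = late i F a) {n : ℕ} (hn : i ≤ n) :
    Z h n = F := by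
  rw [hh n, late, if_pos hn]

theorem act_tl {h : H} {i : ℕ} {F : Vb} (hh : ∀ a, Z h a = late i F a) {n : ℕ} (hn : i ≤ n)
    (x : ℕ → ℂ) : act Z n h x = x + F.f x := by
  unfold act
  rw [ED_Z hh hn]

private theorem ED_eval (p : Polynomial ℝ) (r : ℝ) :
    (p.map (algebraMap ℝ ℂ)).eval (r : ℂ) = ((p.eval r : ℝ) : ℂ) := by
  rw [Polynomial.eval_map]
  exact Polynomial.eval₂_at_apply (algebraMap ℝ ℂ) r

theorem Good.collapse_axis (hH : Good H Z) {K : Type w} [Group K] [TopologicalSpace K]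
    [IsTopologicalGroup K] [T2Space K] {g₁ g₂ : H →* K} (h₁ : Continuous g₁) (h₂ : Continuous g₂)
    (hL : ∀ h, h ∈ hH.stab → g₁ h = g₂ h) (i : ℕ) (τ : ℝ) (h : H)
    (hh : ∀ a, Z h a = late i (τ • eb i) a) : g₁ h = g₂ h := by
  have hmk : ∀ a b : H, a • ((b : H) : H ⧸ hH.stab) = ((a * b : H) : H ⧸ hH.stab) := fun a b => rfl
  have hq : ∀ a b : H, (∀ᶠ n in atTop, act Z n a 0 = act Z n b 0) →
      ((a : H) : H ⧸ hH.stab) = ((b : H) : H ⧸ hH.stab) := fun a b hab =>
    QuotientGroup.eq.2 (hH.coset_eq hab)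
  refine EV.collapse (((1 : H) : H ⧸ hH.stab)) ((h : H ⧸ hH.stab)) g₁ g₂ h₁ h₂ (fun g hg => ?_) ?_ h ?_
  · rw [hmk, mul_one] at hg
    have h3 := QuotientGroup.eq.1 hg
    rw [mul_one] at h3
    exact hL g (by
      have h4 := hH.stab.inv_mem h3
      rwa [inv_inv] at h4)
  swap
  · rw [hmk, mul_one]
  intro U hU
  obtain ⟨k, c, ε, hc, hε, hnear⟩ := hH.near U hU
  obtain ⟨C, hC0, hsp⟩ := exists_sp k i
  obtain ⟨m, hm⟩ := exists_nat_gt (max 0 (|τ| * C / c))
  have hm0 : (0 : ℝ) < m := lt_of_le_of_lt (le_max_left _ _) hm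
  have hm1 : |τ| * C / c < m := lt_of_le_of_lt (le_max_right _ _) hm
  set δ : ℝ := τ / m with hδ
  have hδC : |δ| * C ≤ c := by
    rw [div_lt_iff₀ hc] at hm1
    rw [hδ, abs_div, abs_of_pos hm0, div_mul_eq_mul_div, div_le_iff₀ hm0]
    linarith
  have hst : ∀ j : ℕ, ∃ g : H, ∀ a, Z g a = late i (((j : ℝ) * δ) • eb i) a := fun j =>
    hH.start i _ ((Eb i).smul_mem _ (eb_mem i))
  choose y hy using hst
  have hacty : ∀ (j : ℕ) {n : ℕ}, i ≤ n → act Z n (y j) 0 = (((j : ℝ) * δ) • eb i).f 0 := by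
    intro j n hn
    rw [act_tl (hy j) hn, zero_add]
  have hval : ∀ (r : ℝ) (x : ℕ → ℂ) (a : ℕ), (r • eb i).f x a = if a = i then (r : ℂ) else 0 := by
    intro r x a
    rw [Vb.smul_f, Pi.smul_apply, Pi.smul_apply, eb_f]
    split_ifs
    · simp
    · simp
  refine ⟨m, fun j => ((y j : H) : H ⧸ hH.stab), ?_, ?_, ?_, ?_⟩
  · refine hq _ _ ?_
    filter_upwards [eventually_ge_atTop i] with n hn
    rw [hacty 0 hn]
    funext a
    rw [hval]
    unfold act
    rw [hH.one, Nat.cast_zero, zero_mul]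
    simp
  · refine hq _ _ ?_
    filter_upwards [eventually_ge_atTop i] with n hn
    rw [hacty m hn, act_tl hh hn, zero_add, hδ, mul_div_cancel₀ τ hm0.ne']
  · intro j _
    exact ⟨y j, by rw [hmk, mul_one]⟩
  intro U' hU'
  obtain ⟨k', c', ε', hc', hε', hnear'⟩ := hH.near U' hU'
  have hbig : ∀ᶠ l : ℕ in atTop, c ≤ (l : ℝ) ∧ 1 ≤ ε' * ((l : ℝ) + 1) := by
    obtain ⟨q, hq1⟩ := exists_nat_gt (max c (1 / ε'))
    filter_upwards [eventually_ge_atTop q] with l hl
    have h1 : (q : ℝ) ≤ l := by exact_mod_cast hl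
    have h2 : c < q := lt_of_le_of_lt (le_max_left _ _) hq1
    have h3 : 1 / ε' < q := lt_of_le_of_lt (le_max_right _ _) hq1
    refine ⟨by linarith, ?_⟩
    rw [div_lt_iff₀ hε'] at h3
    nlinarith
  obtain ⟨l, ⟨p, hpd, hp0, hp1, hpb⟩, hnl, hnl', hil, hcl, hεl⟩ :=
    (hsp.and (hnear.and (hnear'.and ((eventually_gt_atTop i).and hbig)))).exists
  have hdeg : ((Polynomial.C δ * p).natDegree : ℝ) * (1 / 2) ^ l < (1 / 2) ^ i := by
    refine lt_of_le_of_lt (mul_le_mul_of_nonneg_right ?_ (by positivity)) hpd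
    exact_mod_cast Polynomial.natDegree_C_mul_le δ p
  obtain ⟨F, hFm, hF⟩ := exists_el i l hil.le (Polynomial.C δ * p) hdeg
  have hF' : ∀ x j, F.f x j = if j = i then (δ : ℂ) * (p.map (algebraMap ℝ ℂ)).eval (x l) else 0 := by
    intro x j
    rw [hF]
    split_ifs
    · rw [Polynomial.map_mul, Polynomial.eval_mul, Polynomial.map_C, Polynomial.eval_C]
      rfl
    · rfl
  have htau : taub l F = 0 := by
    rw [taub_apply, hF', if_neg hil.ne', Complex.zero_re]
  have hNbF : Nb k F ≤ c := by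
    refine le_trans (Nb_le fun j x hx => ?_) hδC
    rw [hF']
    split_ifs
    · rw [norm_mul, Complex.norm_real, Real.norm_eq_abs]
      exact mul_le_mul_of_nonneg_left (hpb _ (hx l)) (abs_nonneg _)
    · rw [norm_zero]
      exact mul_nonneg (abs_nonneg _) hC0
  obtain ⟨s, hs, hsZ⟩ := hnl F hFm (by
    rw [htau, abs_zero]
    exact mul_nonneg hε.le (by positivity)) (by
    rw [htau, zero_smul, sub_zero]
    exact hNbF) (by
    rw [htau, zero_smul, sub_zero, norm_Vb]
    exact ((Nb_mono' (Nat.zero_le k) F).trans hNbF).trans hcl)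
  obtain ⟨t, ht, htZ⟩ := hnl' (eb l) (eb_mem l) (by
    rw [taub_eb, abs_one]
    exact hεl) (by
    rw [taub_eb, one_smul, sub_self, map_zero]
    exact hc'.le) (by
    rw [taub_eb, one_smul, sub_self, norm_zero]
    exact Nat.cast_nonneg _)
  have hpe0 : (p.map (algebraMap ℝ ℂ)).eval (0 : ℂ) = 0 := by
    have h3 := ED_eval p 0
    rw [hp0, Complex.ofReal_zero] at h3
    exact h3
  have hpe1 : (p.map (algebraMap ℝ ℂ)).eval (1 : ℂ) = 1 := by
    have h3 := ED_eval p 1
    rw [hp1, Complex.ofReal_one] at h3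
    exact h3
  refine ⟨s, hs, t, ht, ?_, ?_⟩
  · intro j _
    rw [hmk]
    refine hq _ _ ?_
    filter_upwards [eventually_ge_atTop l] with n hn
    rw [hH.act_mul, act_tl hsZ hn, hacty j (hil.le.trans hn)]
    funext a
    rw [Pi.add_apply, hF', hval, hval, if_neg hil.ne', hpe0, mul_zero]
    simp
  · intro j _
    rw [hmk, hmk, hmk]
    refine hq _ _ ?_
    filter_upwards [eventually_ge_atTop l] with n hn
    rw [hH.act_mul, hH.act_mul, hH.act_mul, act_tl hsZ hn, act_tl htZ hn, act_tl htZ hn,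
      hacty j (hil.le.trans hn), hacty (j + 1) (hil.le.trans hn)]
    funext a
    simp only [Pi.add_apply]
    rw [hF']
    simp only [Pi.add_apply, hval, eb_f, if_neg hil.ne', if_true, zero_add, hpe1, mul_one]
    by_cases hai : a = i
    · rw [if_pos hai, if_pos hai, if_pos hai]
      push_cast
      ring
    · rw [if_neg hai, if_neg hai, if_neg hai]
      ring

end Pool.Agent.Lib.MP_862e0f_al.EW
end

section

/-!
# The epimorphism (TASK EW EE)

Let `tr` be given by `hH.trans`. Let `D = {g : C0 | g₁ (tr g) = g₂ (tr g)}`. It is closed (`isClosed_eq`, continuity; `K` is Hausdorff).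
* `tr` is a homomorphism: `tr (g + g') = tr g * tr g'` (`hH.inj`, `hH.mul`: `opb` of two constant maps is the sum: `opb_f`, `Vb.ext`; `tq` is additive).
* `C0.mk (Pi.single i r) _ ∈ D`: `Z (tr ..) n = late i ((tq ..) • eb i) n` (only the term `a = i` survives), apply `hH.collapse_axis`.
* Every `g` with `g.c a = 0` for `a ≥ n` is in `D`: induction on `n`.
* The truncations `g^(n)` (`= g.c a` for `a < n`, `0` otherwise) converge to `g` in `C0`: `tendsto_Kt`: `Pk k (g^(n) - g) ≤ sup_{a ≥ n} |g.c a| → 0`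
  (weights `one`; `C0_null`, `Pk_le`). So `g ∈ D` (closed).
`epi`: let `h : H`, `c` given by `hH.limc h`. `tr (-c) * h ∈ hH.stab`: `(Z (tr (-c) * h) n).f 0 i = (Z h n).f 0 i - tq c.c i` for `n ≥ i` (`hH.mul`, `opb_f`; the map
`Z (tr (-c)) n` is constant), which tends to `0`. So `g₁ (tr (-c) * h) = g₂ (..)`, and with `-c ∈ D` the claim follows.
`ne_top`: `h` with `Z h = late 0 (eb 0)` (`hH.start`): `(Z h n).f 0 0 = 1` does not tend to `0`.
-/

set_option autoImplicit false

namespace Pool.Agent.Lib.MP_862e0f_al.EW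

open Filter Topology Set

universe w

variable {H : Type} [Group H] [TopologicalSpace H] {Z : H → ℕ → Vb}

/-- truncations of null sequences -/
theorem trunc_tendsto (g : C0) : ∃ u : ℕ → C0, (∀ n a, n ≤ a → (u n).c a = 0) ∧
    Tendsto u atTop (𝓝 g) := by
  have hz : ∀ n, Tendsto (fun a => if a < n then g.c a else (0 : ℝ)) atTop (𝓝 0) := by
    intro n
    refine tendsto_const_nhds.congr' ?_
    filter_upwards [eventually_ge_atTop n] with a ha
    rw [if_neg (by omega)]
  refine ⟨fun n => C0.mk _ (hz n), ?_, ?_⟩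
  · intro n a ha
    rw [C0.mk_c, if_neg (by omega)]
  · refine tendsto_Kt fun k ε hε => ?_
    have h0 := (C0_null g).abs
    rw [abs_zero] at h0
    have h1 : ∀ᶠ a in atTop, |g.c a| < ε / 2 := h0.eventually (gt_mem_nhds (half_pos hε))
    obtain ⟨N, hN⟩ := eventually_atTop.1 h1
    filter_upwards [eventually_ge_atTop N] with n hn
    refine lt_of_le_of_lt (Pk_le one_pos' k _ (C := ε / 2) fun a => ?_) (half_lt_self hε)
    rw [Kt.c_sub, C0.mk_c]
    have h3 : one k a * (ε / 2) = ε / 2 := by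
      unfold one
      rw [one_mul]
    rw [h3]
    by_cases ha : a < n
    · rw [if_pos ha, sub_self, norm_zero]
      exact (half_pos hε).le
    · rw [if_neg ha, zero_sub, norm_neg, Real.norm_eq_abs]
      exact (hN a (by omega)).le

private theorem EE_sum (t : ℕ → ℝ) (x : ℕ → ℂ) (l m : ℕ) :
    (∑ a ∈ Finset.range m, t a • eb a : Vb).f x l = if l < m then (t l : ℂ) else 0 := by
  induction m with
  | zero => simp
  | succ m ih =>
    rw [Finset.sum_range_succ, Vb.add_f, Pi.add_apply, Pi.add_apply, ih, Vb.smul_f,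
      Pi.smul_apply, Pi.smul_apply, eb_f]
    by_cases h1 : l < m
    · have h2 : l < m + 1 := by omega
      have h3 : l ≠ m := by omega
      rw [if_pos h1, if_pos h2, if_neg h3, smul_zero, add_zero]
    · by_cases h2 : l = m
      · subst h2
        rw [if_neg h1, if_pos (Nat.lt_succ_self l), if_pos rfl]
        simp only [Complex.real_smul, mul_one, zero_add]
      · have h3 : ¬ l < m + 1 := by omega
        rw [if_neg h1, if_neg h3, if_neg h2, smul_zero, add_zero]

private theorem EE_tr (hH : Good H Z) : ∃ tr : C0 → H, Continuous tr ∧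
    (∀ g n, Z (tr g) n = ∑ a ∈ Finset.range (n + 1), tq g.c a • eb a) ∧
    (∀ g n x i, (Z (tr g) n).f x i = if i < n + 1 then ((tq g.c i : ℝ) : ℂ) else 0) ∧
    (∀ g g', tr (g + g') = tr g * tr g') := by
  obtain ⟨tr, htr, hZ⟩ := hH.trans
  have h1 : ∀ g n x i, (Z (tr g) n).f x i = if i < n + 1 then ((tq g.c i : ℝ) : ℂ) else 0 := by
    intro g n x i
    rw [hZ, EE_sum]
  refine ⟨tr, htr, hZ, h1, ?_⟩
  intro g g'
  refine hH.inj _ _ fun n => ?_
  rw [hH.mul]
  refine Vb.ext fun x i => ?_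
  rw [opb_f, Pi.add_apply, h1, h1, h1]
  by_cases hi : i < n + 1
  · rw [if_pos hi, if_pos hi, if_pos hi, ← Complex.ofReal_add]
    congr 1
    unfold tq
    rw [Kt.c_add]
    ring
  · rw [if_neg hi, if_neg hi, if_neg hi, add_zero]

private theorem EE_fin (hH : Good H Z) {K : Type w} [Group K] [TopologicalSpace K]
    [IsTopologicalGroup K] [T2Space K] {g₁ g₂ : H →* K} (h₁ : Continuous g₁) (h₂ : Continuous g₂)
    (hL : ∀ h, h ∈ hH.stab → g₁ h = g₂ h) {tr : C0 → H}
    (hZ : ∀ g n, Z (tr g) n = ∑ a ∈ Finset.range (n + 1), tq g.c a • eb a)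
    (hadd : ∀ g g', tr (g + g') = tr g * tr g') :
    ∀ n (g : C0), (∀ a, n ≤ a → g.c a = 0) → g₁ (tr g) = g₂ (tr g) := by
  intro n
  induction n with
  | zero =>
    intro g hg
    have h0 : g + g = g := Kt.ext' fun a => by
      rw [Kt.c_add, hg a (Nat.zero_le a), add_zero]
    have h1 := hadd g g
    rw [h0] at h1
    have h2 : tr g = 1 := by
      have h3 : tr g * 1 = tr g * tr g := by rw [mul_one]; exact h1
      exact (mul_left_cancel h3).symm
    rw [h2, map_one, map_one]
  | succ n ih =>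
    intro g hg
    have hz1 : Tendsto (fun a => if a < n then g.c a else (0 : ℝ)) atTop (𝓝 0) := by
      refine tendsto_const_nhds.congr' ?_
      filter_upwards [eventually_ge_atTop n] with a ha
      rw [if_neg (by omega)]
    have hz2 : Tendsto (fun a => if a = n then g.c n else (0 : ℝ)) atTop (𝓝 0) := by
      refine tendsto_const_nhds.congr' ?_
      filter_upwards [eventually_gt_atTop n] with a ha
      rw [if_neg (by omega)]
    have hsum : g = C0.mk _ hz1 + C0.mk _ hz2 := Kt.ext' fun a => by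
      rw [Kt.c_add, C0.mk_c, C0.mk_c]
      rcases lt_trichotomy a n with h | h | h
      · rw [if_pos h, if_neg (by omega), add_zero]
      · subst h
        rw [if_neg (lt_irrefl a), if_pos rfl, zero_add]
      · rw [if_neg (by omega), if_neg (by omega), add_zero]
        exact hg a h
    have h1 : g₁ (tr (C0.mk _ hz1)) = g₂ (tr (C0.mk _ hz1)) := ih _ fun a ha => by
      rw [C0.mk_c, if_neg (by omega)]
    have h2 : g₁ (tr (C0.mk _ hz2)) = g₂ (tr (C0.mk _ hz2)) := by
      refine hH.collapse_axis h₁ h₂ hL n (((n : ℝ) + 1) * g.c n) _ fun a => ?_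
      rw [hZ]
      unfold late
      by_cases ha : n ≤ a
      · rw [if_pos ha, Finset.sum_eq_single_of_mem n (Finset.mem_range.2 (by omega))]
        · unfold tq
          rw [C0.mk_c, if_pos rfl]
        · intro b _ hb
          unfold tq
          rw [C0.mk_c, if_neg hb, mul_zero, zero_smul]
      · rw [if_neg ha]
        refine Finset.sum_eq_zero fun b hb => ?_
        have hb' := Finset.mem_range.1 hb
        unfold tq
        rw [C0.mk_c, if_neg (by omega), mul_zero, zero_smul]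
    rw [hsum, hadd, map_mul, map_mul, h1, h2]

theorem Good.epi (hH : Good H Z) {K : Type w} [Group K] [TopologicalSpace K]
    [IsTopologicalGroup K] [T2Space K] {g₁ g₂ : H →* K} (h₁ : Continuous g₁) (h₂ : Continuous g₂)
    (hL : ∀ h, h ∈ hH.stab → g₁ h = g₂ h) : g₁ = g₂ := by
  obtain ⟨tr, htr, hZ, hf, hadd⟩ := EE_tr hH
  have hall : ∀ g : C0, g₁ (tr g) = g₂ (tr g) := by
    intro g
    obtain ⟨u, hu, hlim⟩ := trunc_tendsto g
    have hcl : IsClosed {g : C0 | g₁ (tr g) = g₂ (tr g)} :=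
      isClosed_eq (h₁.comp htr) (h₂.comp htr)
    exact hcl.mem_of_tendsto hlim (Eventually.of_forall fun n =>
      EE_fin hH h₁ h₂ hL hZ hadd n (u n) (hu n))
  refine MonoidHom.ext fun h => ?_
  obtain ⟨c, hc⟩ := hH.limc h
  have hst : tr (-c) * h ∈ hH.stab := by
    rw [hH.mem_stab]
    intro i
    have h1 : Tendsto (fun n => (Z h n).f 0 i - ((tq c.c i : ℝ) : ℂ)) atTop (𝓝 0) := by
      have := (hc i).sub (tendsto_const_nhds (x := ((tq c.c i : ℝ) : ℂ)))
      rwa [sub_self] at this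
    refine h1.congr' ?_
    filter_upwards [eventually_ge_atTop i] with n hn
    rw [hH.mul, opb_f, Pi.add_apply, hf, if_pos (by omega)]
    have h2 : tq (-c).c i = -tq c.c i := by
      unfold tq
      rw [Kt.c_neg]
      ring
    rw [h2, Complex.ofReal_neg]
    ring
  have h3 := hL _ hst
  rw [map_mul, map_mul, hall (-c)] at h3
  exact mul_left_cancel h3

theorem Good.ne_top (hH : Good H Z) : ∃ h : H, h ∉ hH.stab := by
  obtain ⟨h, hh⟩ := hH.start 0 (eb 0) (eb_mem 0)
  refine ⟨h, fun hst => ?_⟩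
  have h1 := (hH.mem_stab.1 hst) 0
  have h2 : ∀ n, (Z h n).f 0 0 = 1 := by
    intro n
    rw [hh n]
    unfold late
    rw [if_pos (Nat.zero_le n), eb_f, if_pos rfl]
  simp only [h2] at h1
  exact one_ne_zero (tendsto_nhds_unique tendsto_const_nhds h1)

end Pool.Agent.Lib.MP_862e0f_al.EW
end
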